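import Pool.Agent.Helper51.TH.Phys

/-!
TH-P19. The 1-rarefaction.

NOTATION. `w(t) = ⟨L.z - t, L.u + k0 γ exp(L.l) t, L.l⟩` for `0 ≤ t ≤ a < L.z`, `c(t) = exp(L.l) (L.z - t)`,
`λ(t) = w(t).u - c(t) = L.u - exp(L.l) L.z + exp(L.l)(k0 + 1) t`.
PROOF. `rare_deriv`: derivatives in `t`: `ρ' = -k0 ρ/z`, `u' = k0 exp l`, `p' = -γ k0 p/z` (`2γ/(γ-1) = γ k0`), `c ρ' + ρ u' = 0`
(`c = exp l z`), `p' + c ρ u' = 0` (`γ p = ρ c²`). `k = 0`: `(ρu)' - (u-c) ρ' = ρ u' + c ρ' = 0`. `k = 1`: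
`(ρu² + p)' - (u-c)(ρu)' = u (ρu' + cρ') + (p' + cρu') = 0`. `k = 2` (`cq = ρu²/2 + p/(γ-1)`, `cf = (cq + p) u`):
`cf' - (u - c) cq' = c cq' + cq u' + (p u)'` `= c (ρ'u²/2 + ρuu' + p'/(γ-1)) + (ρu²/2 + p/(γ-1)) u' + p'u + p u'`
`= (u²/2)(cρ' + ρu') + u (cρu' + p') + (c p'/(γ-1) + γ p u'/(γ-1))`, and `c p' = -γ k0 p exp l = -γ p u'`. `k = 3`: `η`
constant, as `k = 0`.
`rare_identity`: `T(ξ) = max 0 (min a ((ξ - λ(0))/(exp(L.l)(k0+1))))` is Lipschitz; the function
`m(ξ) = cf k (w(T ξ)) - ξ cq k (w(T ξ))` is continuous and differentiable except at the two points `λ(0), λ(a)`, with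
derivative `- cq k (w(T ξ))`: outside the wave `w ∘ T` is constant, inside `T' ≠ 0` is constant, `λ(T ξ) = ξ`, and
`m' = (cf' - ξ cq') T' - cq = - cq` by `rare_deriv`. Fundamental theorem of calculus
(`intervalIntegral.integral_eq_of_hasDerivAt_off_countable` or similar).
-/

open Set Filter Topology

namespace Helper51.TH

private noncomputable def rW (γ : ℝ) (L : St) (t : ℝ) : St :=
  ⟨L.z - t, L.u + k0 γ * Real.exp L.l * t, L.l⟩

private theorem rW_rho {γ : ℝ} (hγ : 1 < γ) {L : St} {t : ℝ} (ht : 0 < L.z - t) :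
    HasDerivAt (fun t => rho γ (rW γ L t)) (-(k0 γ * rho γ (rW γ L t) / (L.z - t))) t := by
  have h1 : HasDerivAt (fun t => L.z - t) (-1) t := by
    simpa using (hasDerivAt_id t).const_sub L.z
  have h2 := (h1.rpow_const (p := 2 / (γ - 1)) (Or.inl ht.ne')).const_mul γ
  have h3 := h2.mul_const (Real.exp (-(2 * L.l)))
  refine h3.congr_deriv ?_
  unfold rho rW k0
  simp only
  rw [Real.rpow_sub_one ht.ne']
  have hg : γ - 1 ≠ 0 := by linarith
  have hz := ht.ne'
  field_simp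

private theorem rW_prs {γ : ℝ} (hγ : 1 < γ) {L : St} {t : ℝ} (ht : 0 < L.z - t) :
    HasDerivAt (fun t => prs γ (rW γ L t))
      (-(k0 γ * rho γ (rW γ L t) * Real.exp L.l ^ 2 * (L.z - t))) t := by
  have h1 : HasDerivAt (fun t => L.z - t) (-1) t := by
    simpa using (hasDerivAt_id t).const_sub L.z
  have h2 := h1.rpow_const (p := 2 * γ / (γ - 1)) (Or.inl ht.ne')
  refine h2.congr_deriv ?_
  have hw : 0 < (rW γ L t).z := ht
  have h3 := sound_sq hγ hw
  have h4 : rho γ (rW γ L t) * Real.exp L.l ^ 2 * (L.z - t) ^ 2 = γ * prs γ (rW γ L t) := by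
    rw [h3]
    change _ = rho γ (rW γ L t) * (Real.exp L.l * (L.z - t)) ^ 2
    ring
  have hz := ht.ne'
  have h5 : rho γ (rW γ L t) * Real.exp L.l ^ 2 * (L.z - t) = γ * prs γ (rW γ L t) / (L.z - t) := by
    rw [eq_div_iff hz, ← h4]
    ring
  have h6 : k0 γ * rho γ (rW γ L t) * Real.exp L.l ^ 2 * (L.z - t) =
      k0 γ * (rho γ (rW γ L t) * Real.exp L.l ^ 2 * (L.z - t)) := by ring
  rw [h6, h5, Real.rpow_sub_one hz]
  unfold prs rW k0
  simp only
  have hg : γ - 1 ≠ 0 := by linarith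
  field_simp

private theorem rW_u (γ : ℝ) (L : St) (t : ℝ) :
    HasDerivAt (fun t => (rW γ L t).u) (k0 γ * Real.exp L.l) t := by
  have h := ((hasDerivAt_id t).const_mul (k0 γ * Real.exp L.l)).const_add L.u
  simpa [rW] using h

private theorem rW_ev {L : St} {t : ℝ} (ht : 0 < L.z - t) : ∀ᶠ s in 𝓝 t, 0 < L.z - s := by
  have h : ContinuousAt (fun s => L.z - s) t := by fun_prop
  exact h.eventually (lt_mem_nhds ht)

private theorem rW_deriv {γ : ℝ} (hγ : 1 < γ) {L : St} {t : ℝ} (ht : 0 < L.z - t) (k : Fin 4) :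
    ∃ q' f' : ℝ,
      HasDerivAt (fun t => cq γ k (rW γ L t)) q' t ∧
      HasDerivAt (fun t => cf γ k (rW γ L t)) f' t ∧
      f' = (L.u - Real.exp L.l * L.z + Real.exp L.l * (k0 γ + 1) * t) * q' := by
  have hR := rW_rho hγ ht
  have hP := rW_prs hγ ht
  have hU := rW_u γ L t
  have hev := rW_ev ht
  have hw : 0 < (rW γ L t).z := ht
  have hz := ht.ne'
  have hg : γ - 1 ≠ 0 := by linarith
  have hss : γ * prs γ (rW γ L t) = rho γ (rW γ L t) * (Real.exp L.l * (L.z - t)) ^ 2 :=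
    sound_sq hγ hw
  have hu : (rW γ L t).u = L.u + k0 γ * Real.exp L.l * t := rfl
  have hl : ∀ s, (rW γ L s).l = L.l := fun s => rfl
  match k with
  | 0 =>
    refine ⟨_, _, hR.congr_of_eventuallyEq ?_, (hR.mul hU).congr_of_eventuallyEq ?_, ?_⟩
    · filter_upwards [hev] with s hs
      exact (cq_eq hγ (w := rW γ L s) hs).1
    · filter_upwards [hev] with s hs
      exact (cq_eq hγ (w := rW γ L s) hs).2.2.2.2.1
    · rw [hu]
      field_simp
      ring
  | 1 =>
    refine ⟨_, _, (hR.mul hU).congr_of_eventuallyEq ?_,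
      ((hR.mul (hU.pow 2)).add hP).congr_of_eventuallyEq ?_, ?_⟩
    · filter_upwards [hev] with s hs
      exact (cq_eq hγ (w := rW γ L s) hs).2.1
    · filter_upwards [hev] with s hs
      exact (cq_eq hγ (w := rW γ L s) hs).2.2.2.2.2.1
    · simp only [Pi.pow_apply]
      rw [hu]
      field_simp
      ring
  | 2 =>
    refine ⟨_, _, (((hR.mul (hU.pow 2)).div_const 2).add
      (hP.div_const (γ - 1))).congr_of_eventuallyEq ?_,
      ((((hR.mul (hU.pow 2)).div_const 2).add (hP.const_mul (γ / (γ - 1)))).mul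
        hU).congr_of_eventuallyEq ?_, ?_⟩
    · filter_upwards [hev] with s hs
      exact (cq_eq hγ (w := rW γ L s) hs).2.2.1
    · filter_upwards [hev] with s hs
      exact (cq_eq hγ (w := rW γ L s) hs).2.2.2.2.2.2.1
    · simp only [Pi.pow_apply, Pi.mul_apply, Pi.add_apply]
      have hss' : γ / (γ - 1) * prs γ (rW γ L t) =
          rho γ (rW γ L t) * (Real.exp L.l * (L.z - t)) ^ 2 / (γ - 1) := by
        rw [← hss]; ring
      rw [hss', hu]
      field_simp
      ring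
  | 3 =>
    refine ⟨_, _, (hR.mul_const (2 * γ * L.l - γ * Real.log γ)).congr_of_eventuallyEq ?_,
      ((hR.mul hU).mul_const (2 * γ * L.l - γ * Real.log γ)).congr_of_eventuallyEq ?_, ?_⟩
    · filter_upwards [hev] with s hs
      exact (cq_eq hγ (w := rW γ L s) hs).2.2.2.1
    · filter_upwards [hev] with s hs
      exact (cq_eq hγ (w := rW γ L s) hs).2.2.2.2.2.2.2
    · rw [hu]
      field_simp
      ring

theorem rare_deriv {γ : ℝ} (hγ : 1 < γ) {L : St} {t : ℝ} (ht : 0 < L.z - t) (k : Fin 4) :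
    ∃ q' f' : ℝ,
      HasDerivAt (fun t => cq γ k ⟨L.z - t, L.u + k0 γ * Real.exp L.l * t, L.l⟩) q' t ∧
      HasDerivAt (fun t => cf γ k ⟨L.z - t, L.u + k0 γ * Real.exp L.l * t, L.l⟩) f' t ∧
      f' = (L.u - Real.exp L.l * L.z + Real.exp L.l * (k0 γ + 1) * t) * q' :=
  rW_deriv hγ ht k

private noncomputable def rT (γ : ℝ) (L : St) (a ξ : ℝ) : ℝ :=
  max 0 (min a ((ξ - (L.u - Real.exp L.l * L.z)) / (Real.exp L.l * (k0 γ + 1))))

private theorem rfan {γ : ℝ} {L : St} {a : ℝ} (ha : 0 ≤ a) (ξ : ℝ) :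
    fan1 γ L a ξ = rW γ L (rT γ L a ξ) := by
  unfold fan1
  rw [if_pos ha]
  rfl

private theorem rT_cont (γ : ℝ) (L : St) (a : ℝ) : Continuous (rT γ L a) := by
  unfold rT
  fun_prop

private theorem rT_le {γ : ℝ} {L : St} {a : ℝ} (ha : 0 ≤ a) (ξ : ℝ) : rT γ L a ξ ≤ a :=
  max_le ha (min_le_left _ _)

private theorem r_cont {γ : ℝ} (hγ : 1 < γ) {L : St} {a : ℝ} (ha : 0 ≤ a) (haL : 0 < L.z - a)
    (k : Fin 4) : Continuous (fun ξ => cq γ k (rW γ L (rT γ L a ξ))) ∧
      Continuous (fun ξ => cf γ k (rW γ L (rT γ L a ξ))) := by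
  have h1 : ∀ ξ, 0 < L.z - rT γ L a ξ := fun ξ => by linarith [rT_le (γ := γ) (L := L) ha ξ]
  constructor
  · refine continuous_iff_continuousAt.2 fun ξ => ?_
    obtain ⟨q', f', hq, -, -⟩ := rW_deriv hγ (h1 ξ) k
    exact ContinuousAt.comp (f := rT γ L a) (g := fun t => cq γ k (rW γ L t)) hq.continuousAt
      (rT_cont γ L a).continuousAt
  · refine continuous_iff_continuousAt.2 fun ξ => ?_
    obtain ⟨q', f', -, hf, -⟩ := rW_deriv hγ (h1 ξ) k
    exact ContinuousAt.comp (f := rT γ L a) (g := fun t => cf γ k (rW γ L t)) hf.continuousAt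
      (rT_cont γ L a).continuousAt

private theorem k0_pos' {γ : ℝ} (hγ : 1 < γ) : 0 < k0 γ := by
  unfold k0
  exact div_pos two_pos (by linarith)

theorem rare_identity {γ : ℝ} (hγ : 1 < γ) {L : St} {a : ℝ} (ha : 0 ≤ a) (haL : 0 < L.z - a)
    (k : Fin 4) {ξ₁ ξ₂ : ℝ} (hξ : ξ₁ ≤ ξ₂) :
    ∫ ξ in ξ₁..ξ₂, cq γ k (fan1 γ L a ξ) =
      (cf γ k (fan1 γ L a ξ₁) - ξ₁ * cq γ k (fan1 γ L a ξ₁)) -
      (cf γ k (fan1 γ L a ξ₂) - ξ₂ * cq γ k (fan1 γ L a ξ₂)) := by
  simp only [rfan ha]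
  obtain ⟨hcq, hcf⟩ := r_cont hγ ha haL k
  obtain ⟨l0, hl0⟩ : ∃ l0, l0 = L.u - Real.exp L.l * L.z := ⟨_, rfl⟩
  obtain ⟨D, hD⟩ : ∃ D, D = Real.exp L.l * (k0 γ + 1) := ⟨_, rfl⟩
  have hDp : 0 < D := by
    rw [hD]
    have := k0_pos' hγ
    positivity
  have hT : ∀ ξ, rT γ L a ξ = max 0 (min a ((ξ - l0) / D)) := fun ξ => by
    rw [hl0, hD]; rfl
  have key := MeasureTheory.integral_eq_of_hasDerivAt_off_countable_of_le
    (fun ξ => cf γ k (rW γ L (rT γ L a ξ)) - ξ * cq γ k (rW γ L (rT γ L a ξ)))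
    (fun ξ => - cq γ k (rW γ L (rT γ L a ξ))) hξ (s := {l0, l0 + D * a})
    ((Set.finite_singleton _).insert _).countable
    (hcf.sub (continuous_id.mul hcq)).continuousOn ?_
    (hcq.neg.intervalIntegrable _ _)
  · rw [intervalIntegral.integral_neg] at key
    linarith
  intro ξ hξ'
  have hne : ξ ≠ l0 ∧ ξ ≠ l0 + D * a := by
    have := hξ'.2
    simp only [Set.mem_insert_iff, Set.mem_singleton_iff, not_or] at this
    exact this
  rcases lt_or_gt_of_ne hne.1 with h1 | h1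
  · -- left of the wave
    have hT0 : ∀ x, x < l0 → rT γ L a x = 0 := fun x hx => by
      rw [hT]
      refine max_eq_left ((min_le_right _ _).trans ?_)
      exact div_nonpos_of_nonpos_of_nonneg (by linarith) hDp.le
    have h2 : HasDerivAt (fun x => cf γ k (rW γ L 0) - x * cq γ k (rW γ L 0))
        (-cq γ k (rW γ L 0)) ξ := by
      have := ((hasDerivAt_id ξ).mul_const (cq γ k (rW γ L 0))).const_sub (cf γ k (rW γ L 0))
      simpa using this
    rw [hT0 ξ h1]
    refine h2.congr_of_eventuallyEq ?_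
    filter_upwards [Iio_mem_nhds h1] with x hx
    rw [hT0 x hx]
  · rcases lt_or_gt_of_ne hne.2 with h3 | h3
    · -- inside the wave
      have hT1 : ∀ x, l0 < x → x < l0 + D * a → rT γ L a x = (x - l0) / D := fun x hx hx' => by
        rw [hT, min_eq_right, max_eq_right]
        · exact div_nonneg (by linarith) hDp.le
        · rw [div_le_iff₀ hDp]; linarith
      have hTa : 0 < L.z - rT γ L a ξ := by linarith [rT_le (γ := γ) (L := L) ha ξ]
      obtain ⟨q', f', hq, hf, hqf⟩ := rW_deriv hγ hTa k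
      have hTd : HasDerivAt (rT γ L a) (1 / D) ξ := by
        have h5 : HasDerivAt (fun x => (x - l0) / D) (1 / D) ξ :=
          ((hasDerivAt_id ξ).sub_const l0).div_const D
        refine h5.congr_of_eventuallyEq ?_
        filter_upwards [Ioo_mem_nhds h1 h3] with x hx
        exact hT1 x hx.1 hx.2
      have hq1 := HasDerivAt.comp ξ hq hTd
      have hf1 := HasDerivAt.comp ξ hf hTd
      have h6 := hf1.sub ((hasDerivAt_id ξ).mul hq1)
      refine h6.congr_deriv ?_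
      have h7 : f' = ξ * q' := by
        rw [hqf, ← hl0, ← hD, hT1 ξ h1 h3]
        have : l0 + D * ((ξ - l0) / D) = ξ := by
          rw [mul_div_cancel₀ _ hDp.ne']; ring
        rw [this]
      rw [h7]
      simp only [Function.comp_apply, id_eq]
      ring
    · -- right of the wave
      have hTa : ∀ x, l0 + D * a < x → rT γ L a x = a := fun x hx => by
        rw [hT, min_eq_left, max_eq_right ha]
        rw [le_div_iff₀ hDp]; linarith
      have h2 : HasDerivAt (fun x => cf γ k (rW γ L a) - x * cq γ k (rW γ L a))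
          (-cq γ k (rW γ L a)) ξ := by
        have := ((hasDerivAt_id ξ).mul_const (cq γ k (rW γ L a))).const_sub (cf γ k (rW γ L a))
        simpa using this
      rw [hTa ξ h3]
      refine h2.congr_of_eventuallyEq ?_
      filter_upwards [Ioi_mem_nhds h3] with x hx
      rw [hTa x hx]

/-- PROOF: `T` is continuous. -/
theorem rare_continuous {γ : ℝ} (hγ : 1 < γ) {L : St} {a : ℝ} (ha : 0 ≤ a) (haL : 0 < L.z - a)
    (k : Fin 4) : Continuous (fun ξ => cq γ k (fan1 γ L a ξ)) ∧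
      Continuous (fun ξ => cf γ k (fan1 γ L a ξ)) := by
  simp only [rfan ha]
  exact r_cont hγ ha haL k

end Helper51.TH
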