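import Pool.Agent.Helper51.TH.PDefs

/-!
TH-P03. Lemmas on cubic functions.

PROOF. `Cubic.le`: compare with `0` (`f 0 = 0`): `|f y| ≤ C (ng y)² |y|`; for `y ≥ 0` both sides are `0`, for `y < 0`
`|y| = ng y`.
`Cubic.add`: if `x, y ≥ 0` everything is `0`. If `x ≥ 0 > y`: `f x = 0` and
`|f(x+y) - f y| ≤ C max(ng (x+y), ng y)² |x| = C y² |x| ≤ C max(|x|,|y|) (|x| ng y)`. The case `y ≥ 0 > x` is symmetric. If
`x, y < 0`, w.l.o.g. `|y| ≤ |x|`: `|f(x+y) - f x| ≤ C (|x|+|y|)² |y| ≤ 4 C x² |y|`, `|f y| ≤ C |y|³ ≤ C x² |y|`, sum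
`≤ 5 C |x| (|x||y|) ≤ 5 C max(|x|,|y|) ap x y`.
`Cubic.scale`: for `a ≥ 0` both sides are `0`. For `a < 0`, `|a/z - a/z'| = |a||z - z'|/(z z')`,
`ng (a/z), ng (a/z') ≤ ng a/z₁ ≤ 1/2`:
`|z f(a/z) - z' f(a/z')| ≤ |z - z'| |f(a/z)| + z' |f(a/z) - f(a/z')|
 ≤ C (ng a/z₁)³ |z - z'| + z' C (ng a/z₁)² |a||z-z'|/(z z') ≤ 2 C (ng a)³/z₁³ |z - z'|`. Similarly without the factor.
-/

namespace Helper51.TH

private theorem ng_of_nonneg {x : ℝ} (h : 0 ≤ x) : ng x = 0 := max_eq_right (by linarith)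

private theorem ng_of_neg {x : ℝ} (h : x < 0) : ng x = -x := max_eq_left (by linarith)

private theorem ng_anti {x y : ℝ} (h : x ≤ y) : ng y ≤ ng x :=
  max_le_max (by linarith) le_rfl

private theorem ng_add_le (x y d : ℝ) : ng (x + y + d) ≤ ng x + ng y + |d| := by
  have h1 : -x ≤ ng x := le_max_left _ _
  have h2 : -y ≤ ng y := le_max_left _ _
  have h3 : -d ≤ |d| := neg_le_abs d
  have h4 : 0 ≤ ng x := le_max_right _ _
  have h5 : 0 ≤ ng y := le_max_right _ _
  have h6 : 0 ≤ |d| := abs_nonneg d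
  exact max_le (by linarith) (by linarith)

theorem ng_nonneg (x : ℝ) : 0 ≤ ng x := by
  exact le_max_right _ _

theorem ng_le_abs (x : ℝ) : ng x ≤ |x| := by
  exact max_le (neg_le_abs x) (abs_nonneg x)

theorem ap_nonneg (x y : ℝ) : 0 ≤ ap x y := by
  unfold ap
  have h1 := ng_nonneg x
  have h2 := ng_nonneg y
  positivity

theorem ap_le (x y : ℝ) : ap x y ≤ 2 * |x| * |y| := by
  unfold ap
  have h1 := mul_le_mul_of_nonneg_right (ng_le_abs x) (abs_nonneg y)
  have h2 := mul_le_mul_of_nonneg_left (ng_le_abs y) (abs_nonneg x)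
  linarith

/-- Subadditivity, also after an error. -/
theorem ap_add_le (x y d w : ℝ) :
    ap (x + y + d) w ≤ ap x w + ap y w + 2 * |d| * |w| ∧
    ap w (x + y + d) ≤ ap w x + ap w y + 2 * |d| * |w| := by
  have h1 := ng_add_le x y d
  have h2 : |x + y + d| ≤ |x| + |y| + |d| := abs_add_three x y d
  have h3 := ng_nonneg w
  have h4 := ng_le_abs w
  have h5 := mul_le_mul_of_nonneg_right h1 (abs_nonneg w)
  have h6 := mul_le_mul_of_nonneg_right h2 h3
  have h7 := mul_le_mul_of_nonneg_left h4 (abs_nonneg d)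
  unfold ap
  constructor <;> nlinarith

theorem Cubic.le {f : ℝ → ℝ} {C y : ℝ} (h : Cubic f C) (hy : |y| ≤ 1 / 2) :
    |f y| ≤ C * ng y ^ 3 := by
  have h1 := h.2 y 0 hy (by rw [abs_zero]; norm_num)
  have h0 : ng 0 = 0 := ng_of_nonneg le_rfl
  rw [h.1 0 le_rfl, sub_zero, sub_zero, h0, max_eq_left (ng_nonneg y)] at h1
  by_cases hy0 : 0 ≤ y
  · rw [h.1 y hy0, abs_zero, ng_of_nonneg hy0]
    simp
  · push Not at hy0
    have h2 : |y| = ng y := by rw [ng_of_neg hy0, abs_of_neg hy0]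
    rw [h2] at h1
    calc |f y| ≤ C * ng y ^ 2 * ng y := h1
      _ = C * ng y ^ 3 := by ring

private theorem add_mixed {f : ℝ → ℝ} {C x y : ℝ} (h : Cubic f C) (hC : 0 ≤ C)
    (hy : |y| ≤ 1 / 2) (hxy : |x + y| ≤ 1 / 2) (hx0 : 0 ≤ x) (hy0 : y < 0) :
    |f (x + y) - f x - f y| ≤ 5 * C * max |x| |y| * ap x y := by
  rw [h.1 x hx0, sub_zero]
  have h1 := h.2 (x + y) y hxy hy
  have h2 : max (ng (x + y)) (ng y) = |y| := by
    rw [max_eq_right (ng_anti (by linarith)), ng_of_neg hy0, abs_of_neg hy0]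
  have h3 : ap x y = |x| * |y| := by
    unfold ap
    rw [ng_of_nonneg hx0, zero_mul, zero_add, ng_of_neg hy0, abs_of_neg hy0]
  rw [h2, add_sub_cancel_right] at h1
  rw [h3]
  have h4 : |y| ≤ max |x| |y| := le_max_right _ _
  have h5 : 0 ≤ C * (|x| * |y|) := by positivity
  calc |f (x + y) - f y| ≤ C * |y| ^ 2 * |x| := h1
    _ = (C * (|x| * |y|)) * |y| := by ring
    _ ≤ (C * (|x| * |y|)) * max |x| |y| := mul_le_mul_of_nonneg_left h4 h5
    _ ≤ 5 * ((C * (|x| * |y|)) * max |x| |y|) := by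
        have : 0 ≤ (C * (|x| * |y|)) * max |x| |y| := mul_nonneg h5 (le_trans (abs_nonneg _) h4)
        linarith
    _ = 5 * C * max |x| |y| * (|x| * |y|) := by ring

private theorem add_neg {f : ℝ → ℝ} {C x y : ℝ} (h : Cubic f C) (hC : 0 ≤ C)
    (hx : |x| ≤ 1 / 2) (hy : |y| ≤ 1 / 2) (hxy : |x + y| ≤ 1 / 2) (hx0 : x < 0) (hy0 : y < 0)
    (hle : |y| ≤ |x|) : |f (x + y) - f x - f y| ≤ 5 * C * max |x| |y| * ap x y := by
  have h1 := h.2 (x + y) x hxy hx
  have h2 : max (ng (x + y)) (ng x) = |x| + |y| := by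
    rw [max_eq_left (ng_anti (by linarith)), ng_of_neg (by linarith), abs_of_neg hy0,
      abs_of_neg hx0]
    ring
  have h3 : ap x y = 2 * |x| * |y| := by
    unfold ap
    rw [ng_of_neg hx0, ng_of_neg hy0, abs_of_neg hy0, abs_of_neg hx0]
    ring
  have h4 := h.le hy
  have h5 : ng y = |y| := by rw [ng_of_neg hy0, abs_of_neg hy0]
  rw [h2, add_sub_cancel_left] at h1
  rw [h5] at h4
  rw [h3, max_eq_left hle]
  have h6 : |f (x + y) - f x - f y| ≤ |f (x + y) - f x| + |f y| := abs_sub _ _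
  have h7 : C * (|x| + |y|) ^ 2 * |y| ≤ C * (4 * |x| ^ 2) * |y| := by
    refine mul_le_mul_of_nonneg_right (mul_le_mul_of_nonneg_left ?_ hC) (abs_nonneg y)
    nlinarith [abs_nonneg x, abs_nonneg y]
  have h8 : C * |y| ^ 3 ≤ C * |x| ^ 2 * |y| := by
    have h9 : |y| ^ 2 ≤ |x| ^ 2 := pow_le_pow_left₀ (abs_nonneg y) hle 2
    calc C * |y| ^ 3 = C * |y| ^ 2 * |y| := by ring
      _ ≤ C * |x| ^ 2 * |y| :=
        mul_le_mul_of_nonneg_right (mul_le_mul_of_nonneg_left h9 hC) (abs_nonneg y)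
  have h10 : 0 ≤ C * |x| ^ 2 * |y| := by positivity
  calc |f (x + y) - f x - f y| ≤ |f (x + y) - f x| + |f y| := h6
    _ ≤ C * (4 * |x| ^ 2) * |y| + C * |x| ^ 2 * |y| := by linarith
    _ = 5 * (C * |x| ^ 2 * |y|) := by ring
    _ ≤ 10 * (C * |x| ^ 2 * |y|) := by linarith
    _ = 5 * C * |x| * (2 * |x| * |y|) := by ring

private theorem ap_comm (x y : ℝ) : ap x y = ap y x := by
  unfold ap
  ring

theorem Cubic.add {f : ℝ → ℝ} {C x y : ℝ} (h : Cubic f C) (hC : 0 ≤ C) (hx : |x| ≤ 1 / 2)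
    (hy : |y| ≤ 1 / 2) (hxy : |x + y| ≤ 1 / 2) :
    |f (x + y) - f x - f y| ≤ 5 * C * max |x| |y| * ap x y := by
  rcases le_or_gt 0 x with hx0 | hx0
  · rcases le_or_gt 0 y with hy0 | hy0
    · rw [h.1 x hx0, h.1 y hy0, h.1 (x + y) (by linarith), sub_zero, sub_zero, abs_zero]
      have := ap_nonneg x y
      positivity
    · exact add_mixed h hC hy hxy hx0 hy0
  · rcases le_or_gt 0 y with hy0 | hy0
    · have h1 := add_mixed h hC hx (by rw [add_comm]; exact hxy) hy0 hx0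
      rw [add_comm x y, sub_right_comm, max_comm, ap_comm]
      exact h1
    · rcases le_total |y| |x| with hle | hle
      · exact add_neg h hC hx hy hxy hx0 hy0 hle
      · have h1 := add_neg h hC hy hx (by rw [add_comm]; exact hxy) hy0 hx0 hle
        rw [add_comm x y, sub_right_comm, max_comm, ap_comm]
        exact h1

theorem Cubic.scale {f : ℝ → ℝ} {C a z z' z₁ : ℝ} (h : Cubic f C) (hC : 0 ≤ C) (hz₁ : 0 < z₁)
    (hz : z₁ ≤ z) (hz' : z₁ ≤ z') (ha : |a| ≤ z₁ / 2) :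
    |z * f (a / z) - z' * f (a / z')| ≤ 2 * C / z₁ ^ 3 * ng a ^ 3 * |z - z'| ∧
    |f (a / z) - f (a / z')| ≤ C / z₁ ^ 4 * ng a ^ 3 * |z - z'| := by
  have hz0 : 0 < z := by linarith
  have hz'0 : 0 < z' := by linarith
  rcases le_or_gt 0 a with ha0 | ha0
  · rw [h.1 (a / z) (by positivity), h.1 (a / z') (by positivity), mul_zero, mul_zero, sub_zero,
      abs_zero]
    have := ng_nonneg a
    constructor <;> positivity
  · obtain ⟨A, hA⟩ : ∃ A, A = -a := ⟨_, rfl⟩
    have hA0 : 0 < A := by rw [hA]; linarith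
    have haA : |a| = A := by rw [hA, abs_of_neg ha0]
    have hnA : ng a = A := by rw [hA, ng_of_neg ha0]
    rw [hnA]
    rw [haA] at ha
    have hq : ∀ w, z₁ ≤ w → |a / w| ≤ 1 / 2 ∧ ng (a / w) = A / w ∧ A / w ≤ A / z₁ := by
      intro w hw
      have hw0 : 0 < w := by linarith
      have h1 : a / w < 0 := div_neg_of_neg_of_pos ha0 hw0
      have h2 : A / w ≤ A / z₁ := div_le_div_of_nonneg_left hA0.le hz₁ hw
      have h3 : ng (a / w) = A / w := by rw [ng_of_neg h1, hA, neg_div]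
      refine ⟨?_, h3, h2⟩
      rw [abs_div, abs_of_pos hw0, haA]
      refine h2.trans ?_
      rw [div_le_iff₀ hz₁]
      linarith
    obtain ⟨q1, q2, q3⟩ := hq z hz
    obtain ⟨r1, r2, r3⟩ := hq z' hz'
    have hd : |a / z - a / z'| = A * |z - z'| / (z * z') := by
      have h1 : a / z - a / z' = a * (z' - z) / (z * z') := by
        field_simp
      rw [h1, abs_div, abs_mul, haA, abs_of_pos (mul_pos hz0 hz'0), abs_sub_comm]
    have h1 := h.2 (a / z) (a / z') q1 r1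
    have hm : max (ng (a / z)) (ng (a / z')) ≤ A / z₁ := by
      rw [q2, r2]
      exact max_le q3 r3
    have hm0 : 0 ≤ max (ng (a / z)) (ng (a / z')) := le_max_of_le_left (ng_nonneg _)
    have hmain : |f (a / z) - f (a / z')| ≤
        C * (A / z₁) ^ 2 * (A * |z - z'| / (z * z')) := by
      rw [← hd]
      refine h1.trans (mul_le_mul_of_nonneg_right ?_ (abs_nonneg _))
      exact mul_le_mul_of_nonneg_left (pow_le_pow_left₀ hm0 hm 2) hC
    constructor
    · have h2 := h.le q1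
      rw [q2] at h2
      have h3 : C * (A / z) ^ 3 ≤ C * (A / z₁) ^ 3 :=
        mul_le_mul_of_nonneg_left (pow_le_pow_left₀ (by positivity) q3 3) hC
      have h4 : z * f (a / z) - z' * f (a / z') =
          (z - z') * f (a / z) + z' * (f (a / z) - f (a / z')) := by ring
      have h5 : z' * (C * (A / z₁) ^ 2 * (A * |z - z'| / (z * z'))) ≤
          C * (A / z₁) ^ 3 * |z - z'| := by
        have h6 : z' * (C * (A / z₁) ^ 2 * (A * |z - z'| / (z * z'))) =
            C * (A / z₁) ^ 2 * |z - z'| * (A / z) := by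
          field_simp
        have h7 : C * (A / z₁) ^ 3 * |z - z'| = C * (A / z₁) ^ 2 * |z - z'| * (A / z₁) := by
          ring
        rw [h6, h7]
        exact mul_le_mul_of_nonneg_left q3 (by positivity)
      calc |z * f (a / z) - z' * f (a / z')|
          ≤ |z - z'| * |f (a / z)| + z' * |f (a / z) - f (a / z')| := by
            rw [h4]
            refine (abs_add_le _ _).trans ?_
            rw [abs_mul, abs_mul, abs_of_pos hz'0]
        _ ≤ |z - z'| * (C * (A / z₁) ^ 3) +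
            z' * (C * (A / z₁) ^ 2 * (A * |z - z'| / (z * z'))) :=
            add_le_add (mul_le_mul_of_nonneg_left (h2.trans h3) (abs_nonneg _))
              (mul_le_mul_of_nonneg_left hmain hz'0.le)
        _ ≤ |z - z'| * (C * (A / z₁) ^ 3) + C * (A / z₁) ^ 3 * |z - z'| := by linarith
        _ = 2 * C / z₁ ^ 3 * A ^ 3 * |z - z'| := by
            rw [div_pow]
            ring
    · have hzz : z₁ * z₁ ≤ z * z' := mul_le_mul hz hz' hz₁.le hz0.le
      calc |f (a / z) - f (a / z')| ≤ C * (A / z₁) ^ 2 * (A * |z - z'| / (z * z')) := hmain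
        _ ≤ C * (A / z₁) ^ 2 * (A * |z - z'| / (z₁ * z₁)) := by
            refine mul_le_mul_of_nonneg_left ?_ (by positivity)
            exact div_le_div_of_nonneg_left (by positivity) (by positivity) hzz
        _ = C / z₁ ^ 4 * A ^ 3 * |z - z'| := by
            field_simp

end Helper51.TH
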