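import Pool.Agent.Helper51.TH.CurveMono

/-!
TH-P04. The Riemann problem.

PROOF. `Rie γ L R a b` means `b = a - (L.z - R.z)` and `Φ a = R.u - L.u`, where
`Φ a = exp L.l * L.z * GG γ (a/L.z) + exp R.l * R.z * GG γ ((a - (L.z - R.z))/R.z)`. For `L.z, R.z > 0` `Φ` is continuous and
strictly increasing (`GG_strictMono`) and tends to `± ∞` (`GG_atTop`, `GG_atBot`), so `Φ a = v` has exactly one solution
(intermediate value theorem; `Continuous.surjective`). `ra, rb` are defined by choice.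
`rie_symm` (mirror image): `(L, R) ↦ (mir R, mir L)`, `a ↔ b`.
-/

open Set Filter Topology

namespace Helper51.TH

private theorem hj_cont {γ : ℝ} (hγ : 1 < γ) (z l : ℝ) : Continuous (fun a => hj γ a z l) := by
  unfold hj
  exact continuous_const.mul ((GG_continuous hγ).comp (continuous_id.div_const z))

private theorem hj_strict {γ : ℝ} (hγ : 1 < γ) {z : ℝ} (hz : 0 < z) (l : ℝ) :
    StrictMono (fun a => hj γ a z l) := by
  intro a b hab
  have h1 : a / z < b / z := div_lt_div_of_pos_right hab hz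
  exact mul_lt_mul_of_pos_left (GG_strictMono hγ h1) (mul_pos (Real.exp_pos l) hz)

private theorem hj_top {γ : ℝ} (hγ : 1 < γ) {z : ℝ} (hz : 0 < z) (l : ℝ) :
    Tendsto (fun a => hj γ a z l) atTop atTop := by
  unfold hj
  exact ((GG_atTop hγ).comp (tendsto_id.atTop_div_const hz)).const_mul_atTop
    (mul_pos (Real.exp_pos l) hz)

private theorem hj_bot {γ : ℝ} (hγ : 1 < γ) {z : ℝ} (hz : 0 < z) (l : ℝ) :
    Tendsto (fun a => hj γ a z l) atBot atBot := by
  unfold hj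
  exact ((GG_atBot hγ).comp (tendsto_id.atBot_div_const hz)).const_mul_atBot
    (mul_pos (Real.exp_pos l) hz)

private noncomputable def phi (γ : ℝ) (L R : St) (a : ℝ) : ℝ :=
  hj γ a L.z L.l + hj γ (a - (L.z - R.z)) R.z R.l

private theorem phi_strict {γ : ℝ} (hγ : 1 < γ) {L R : St} (hL : 0 < L.z) (hR : 0 < R.z) :
    StrictMono (phi γ L R) := by
  intro a b hab
  have h1 := hj_strict hγ hL L.l hab
  have h2 : hj γ (a - (L.z - R.z)) R.z R.l < hj γ (b - (L.z - R.z)) R.z R.l :=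
    hj_strict hγ hR R.l (by linarith)
  exact add_lt_add h1 h2

private theorem phi_surj {γ : ℝ} (hγ : 1 < γ) {L R : St} (hL : 0 < L.z) (hR : 0 < R.z) :
    Function.Surjective (phi γ L R) := by
  have e1 : Tendsto (fun a : ℝ => a - (L.z - R.z)) atTop atTop := by
    simpa [sub_eq_add_neg] using tendsto_atTop_add_const_right atTop (-(L.z - R.z)) tendsto_id
  have e2 : Tendsto (fun a : ℝ => a - (L.z - R.z)) atBot atBot := by
    simpa [sub_eq_add_neg] using tendsto_atBot_add_const_right atBot (-(L.z - R.z)) tendsto_id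
  refine Continuous.surjective ?_ ?_ ?_
  · exact (hj_cont hγ L.z L.l).add
      ((hj_cont hγ R.z R.l).comp (continuous_id.sub continuous_const))
  · exact (hj_top hγ hL L.l).atTop_add_atTop ((hj_top hγ hR R.l).comp e1)
  · exact (hj_bot hγ hL L.l).atBot_add_atBot ((hj_bot hγ hR R.l).comp e2)

private theorem rie_iff {γ : ℝ} {L R : St} {a b : ℝ} :
    Rie γ L R a b ↔ b = a - (L.z - R.z) ∧ phi γ L R a = R.u - L.u := by
  constructor
  · intro h
    have h1 : b = a - (L.z - R.z) := by have := h.z; linarith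
    refine ⟨h1, ?_⟩
    unfold phi
    rw [← h1]
    exact h.u.symm
  · rintro ⟨h1, h2⟩
    refine ⟨by linarith, ?_⟩
    unfold phi at h2
    rw [← h1] at h2
    exact h2.symm

theorem rie_exists {γ : ℝ} (hγ : 1 < γ) {L R : St} (hL : 0 < L.z) (hR : 0 < R.z) :
    ∃ p : ℝ × ℝ, Rie γ L R p.1 p.2 := by
  obtain ⟨a, ha⟩ := phi_surj hγ hL hR (R.u - L.u)
  exact ⟨(a, a - (L.z - R.z)), rie_iff.2 ⟨rfl, ha⟩⟩

theorem rie_unique {γ : ℝ} (hγ : 1 < γ) {L R : St} (hL : 0 < L.z) (hR : 0 < R.z)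
    {a b a' b' : ℝ} (h : Rie γ L R a b) (h' : Rie γ L R a' b') : a = a' ∧ b = b' := by
  obtain ⟨h1, h2⟩ := rie_iff.1 h
  obtain ⟨h3, h4⟩ := rie_iff.1 h'
  have h5 : a = a' := (phi_strict hγ hL hR).injective (h2.trans h4.symm)
  exact ⟨h5, by rw [h1, h3, h5]⟩

theorem rie_ra {γ : ℝ} (hγ : 1 < γ) {L R : St} (hL : 0 < L.z) (hR : 0 < R.z) :
    Rie γ L R (ra γ L R) (rb γ L R) := by
  have h := rie_exists hγ hL hR
  unfold ra rb
  rw [dif_pos h, dif_pos h]
  exact h.choose_spec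

theorem ra_eq {γ : ℝ} (hγ : 1 < γ) {L R : St} (hL : 0 < L.z) (hR : 0 < R.z) {a b : ℝ}
    (h : Rie γ L R a b) : ra γ L R = a ∧ rb γ L R = b := by
  exact rie_unique hγ hL hR (rie_ra hγ hL hR) h

theorem ra_mir {γ : ℝ} (hγ : 1 < γ) {L R : St} (hL : 0 < L.z) (hR : 0 < R.z) :
    ra γ (mir R) (mir L) = rb γ L R ∧ rb γ (mir R) (mir L) = ra γ L R := by
  have h := rie_ra hγ hL hR
  have h1 : Rie γ (mir R) (mir L) (rb γ L R) (ra γ L R) := by
    refine ⟨h.z.symm, ?_⟩
    have h2 := h.u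
    change -L.u - -R.u = hj γ (rb γ L R) R.z R.l + hj γ (ra γ L R) L.z L.l
    linarith
  exact ra_eq (L := mir R) (R := mir L) hγ hR hL h1

end Helper51.TH
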