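import Pool.Agent.Helper51.TH.CurveG
import Pool.Agent.Helper51.TH.CubicLem
import Pool.Agent.Helper51.TH.Solve

/-!
TH-P05. Bounds for the solution of the Riemann problem.

PROOF. `ra_bound`: let `C₁` be the constant of `cubic_G`, `y₀ ≤ 1/2` with `C₁ y₀² ≤ 1/2`. Let
`δ = L.z - R.z`, `v = R.u - L.u`, `x₀ = |δ| + (2 exp Λ/k0) |v|`, and assume `x₀ ≤ y₀ z₁` (this is implied by
`|δ| + |v| ≤ r` for small `r`). With `Φ` as in Solve.lean: `Φ(x₀) ≥ exp(L.l) k0 x₀ ≥ |v|` (`GG y = k0 y` for `y ≥ 0`;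
`x₀ - δ ≥ 0`), and `Φ(-x₀) ≤ exp(L.l) L.z GG(-x₀/L.z) ≤ - exp(L.l) (k0/2) x₀ ≤ -|v|` (`-x₀ - δ ≤ 0` and `GG ≤ 0` there;
`GG(y) ≤ (k0/2) y` for `-y₀ ≤ y ≤ 0`, because `|GG y/k0 - y| ≤ C₁ |y|³ ≤ |y|/2`). Monotonicity of `Φ`: the root
`a = ra` is in `[-x₀, x₀]`, and `|b| ≤ |a| + |δ|`.
`jump_bound`: `L.z - R.z = a - b`; `|hj γ a z l| ≤ exp(l) k0 (|a| + z C₁ |a/z|³) ≤ C |a|` for `|a| ≤ z₁/2 ≤ z/2`;
`R.l - L.l - sg = sj γ a L.z - sj γ b R.z` and `0 ≤ sj γ a z ≤ C ng(a)³` (`cubic_S`, `Cubic.le`).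
-/

open Set Filter Topology

namespace Helper51.TH

private theorem sb_k0_pos {γ : ℝ} (hγ : 1 < γ) : 0 < k0 γ := by
  unfold k0
  exact div_pos two_pos (by linarith)

private theorem sb_exp {Λ l : ℝ} (hl : |l| ≤ Λ) : Real.exp l ≤ Real.exp Λ ∧ Real.exp (-Λ) ≤ Real.exp l :=
  ⟨Real.exp_le_exp.2 ((le_abs_self l).trans hl), Real.exp_le_exp.2 (by
    have := neg_abs_le l
    linarith)⟩

private theorem sb_ng {a z z₁ : ℝ} (hz1 : 0 < z₁) (hz : z₁ ≤ z) : ng (a / z) ≤ ng a / z₁ := by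
  have hz0 : 0 < z := by linarith
  have h0 := ng_nonneg a
  have h1 : -a ≤ ng a := le_max_left _ _
  have h2 : ng a / z ≤ ng a / z₁ := div_le_div_of_nonneg_left h0 hz1 hz
  have h3 : -(a / z) ≤ ng a / z := by
    rw [← neg_div]
    exact div_le_div_of_nonneg_right h1 hz0.le
  exact max_le (h3.trans h2) (by positivity)

private theorem sb_abs {a z z₁ : ℝ} (hz1 : 0 < z₁) (hz : z₁ ≤ z) (ha : |a| ≤ z₁ / 2) :
    |a / z| ≤ 1 / 2 := by
  have hz0 : 0 < z := by linarith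
  rw [abs_div, abs_of_pos hz0, div_le_iff₀ hz0]
  linarith

/-- The velocity jump and the entropy jump of one wave. -/
theorem wave_bound {γ z₁ z₂ Λ : ℝ} (hγ : 1 < γ) (hz : 0 < z₁) : ∃ C : ℝ, 0 < C ∧
    ∀ a z l : ℝ, z₁ ≤ z → z ≤ z₂ → |l| ≤ Λ → |a| ≤ z₁ / 2 →
      |hj γ a z l| ≤ C * |a| ∧ 0 ≤ sj γ a z ∧ sj γ a z ≤ C * ng a ^ 3 ∧
      |hj γ a z l - k0 γ * Real.exp l * a| ≤ C * ng a ^ 3 := by
  obtain ⟨C₁, hC1, h1⟩ := cubic_G hγ
  obtain ⟨C₂, hC2, h2⟩ := cubic_S hγ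
  have hk := sb_k0_pos hγ
  set M : ℝ := k0 γ * Real.exp Λ * |z₂| * (C₁ / z₁ ^ 3) with hM
  have hM0 : 0 ≤ M := by positivity
  have hE := Real.exp_pos Λ
  refine ⟨k0 γ * Real.exp Λ + M * (z₁ / 2) ^ 2 + C₂ / z₁ ^ 3 + M + 1, by positivity, ?_⟩
  intro a z l hz1 hz2 hl ha
  have hz0 : 0 < z := by linarith
  have hy := sb_abs hz hz1 ha
  have hn := sb_ng (a := a) hz hz1
  have hn0 := ng_nonneg (a / z)
  have hna := ng_nonneg a
  have hnabs := ng_le_abs a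
  have hel := (sb_exp hl).1
  have hel0 := Real.exp_pos l
  have hp1 : 0 ≤ k0 γ * Real.exp Λ := by positivity
  have hp2 : 0 ≤ M * (z₁ / 2) ^ 2 := by positivity
  have hp3 : 0 ≤ C₂ / z₁ ^ 3 := by positivity
  have hcub : ng (a / z) ^ 3 ≤ ng a ^ 3 / z₁ ^ 3 := by
    rw [← div_pow]
    exact pow_le_pow_left₀ hn0 hn 3
  have e1 : |GG γ (a / z) / k0 γ - a / z| ≤ C₁ * ng (a / z) ^ 3 := h1.le hy
  have e2 : hj γ a z l - k0 γ * Real.exp l * a =
      k0 γ * Real.exp l * z * (GG γ (a / z) / k0 γ - a / z) := by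
    unfold hj
    field_simp
  have e3 : |hj γ a z l - k0 γ * Real.exp l * a| ≤ M * ng a ^ 3 := by
    rw [e2, abs_mul, abs_of_pos (by positivity : 0 < k0 γ * Real.exp l * z)]
    have h3 : z ≤ |z₂| := hz2.trans (le_abs_self z₂)
    calc k0 γ * Real.exp l * z * |GG γ (a / z) / k0 γ - a / z| ≤
        k0 γ * Real.exp Λ * |z₂| * (C₁ * (ng a ^ 3 / z₁ ^ 3)) := by
          refine mul_le_mul ?_ (e1.trans (mul_le_mul_of_nonneg_left hcub hC1)) (abs_nonneg _)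
            (by positivity)
          exact mul_le_mul (mul_le_mul_of_nonneg_left hel hk.le) h3 hz0.le (by positivity)
      _ = M * ng a ^ 3 := by
          rw [hM]
          ring
  have e4 : ng a ^ 3 ≤ |a| * (z₁ / 2) ^ 2 := by
    have h4 : ng a ^ 2 ≤ (z₁ / 2) ^ 2 := pow_le_pow_left₀ hna (hnabs.trans ha) 2
    calc ng a ^ 3 = ng a * ng a ^ 2 := by ring
      _ ≤ |a| * (z₁ / 2) ^ 2 := mul_le_mul hnabs h4 (by positivity) (abs_nonneg a)
  have e5 : |S0 γ (a / z)| ≤ C₂ * ng (a / z) ^ 3 := h2.le hy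
  have habs := abs_nonneg a
  have hn3 : 0 ≤ ng a ^ 3 := by positivity
  refine ⟨?_, S0_nonneg hγ _, ?_, ?_⟩
  · have h3 : |hj γ a z l| ≤ |hj γ a z l - k0 γ * Real.exp l * a| + |k0 γ * Real.exp l * a| := by
      have h4 := abs_add_le (hj γ a z l - k0 γ * Real.exp l * a) (k0 γ * Real.exp l * a)
      rwa [sub_add_cancel] at h4
    have h4 : |k0 γ * Real.exp l * a| ≤ k0 γ * Real.exp Λ * |a| := by
      rw [abs_mul, abs_of_pos (by positivity : 0 < k0 γ * Real.exp l)]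
      exact mul_le_mul_of_nonneg_right (mul_le_mul_of_nonneg_left hel hk.le) habs
    have h5 : M * ng a ^ 3 ≤ M * (z₁ / 2) ^ 2 * |a| := by
      have := mul_le_mul_of_nonneg_left e4 hM0
      linarith
    have h6 : 0 ≤ (C₂ / z₁ ^ 3 + M + 1) * |a| := by positivity
    linarith
  · have h3 : sj γ a z ≤ C₂ * ng (a / z) ^ 3 := (le_abs_self _).trans e5
    have h4 : C₂ * ng (a / z) ^ 3 ≤ C₂ / z₁ ^ 3 * ng a ^ 3 := by
      have := mul_le_mul_of_nonneg_left hcub hC2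
      calc C₂ * ng (a / z) ^ 3 ≤ C₂ * (ng a ^ 3 / z₁ ^ 3) := this
        _ = C₂ / z₁ ^ 3 * ng a ^ 3 := by ring
    have h5 : 0 ≤ (k0 γ * Real.exp Λ + M * (z₁ / 2) ^ 2 + M + 1) * ng a ^ 3 := by positivity
    linarith
  · have h5 : 0 ≤ (k0 γ * Real.exp Λ + M * (z₁ / 2) ^ 2 + C₂ / z₁ ^ 3 + 1) * ng a ^ 3 := by
      positivity
    linarith

theorem ra_bound {γ z₁ z₂ Λ : ℝ} (hγ : 1 < γ) (hz : 0 < z₁) : ∃ C r : ℝ, 0 < C ∧ 0 < r ∧
    ∀ L R : St, InB z₁ z₂ Λ L → InB z₁ z₂ Λ R → |L.z - R.z| + |L.u - R.u| ≤ r →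
      |ra γ L R| + |rb γ L R| ≤ C * (|L.z - R.z| + |L.u - R.u|) := by
  obtain ⟨C₁, hC1, h1⟩ := cubic_G hγ
  have hk := sb_k0_pos hγ
  set y₀ : ℝ := 1 / (2 * (C₁ + 1)) with hy0
  have hy0p : 0 < y₀ := by positivity
  have hy0h : y₀ ≤ 1 / 2 := by
    rw [hy0]
    apply one_div_le_one_div_of_le (by norm_num)
    linarith
  have hC1y : C₁ * y₀ ^ 2 ≤ 1 / 2 := by
    have h2 : (C₁ + 1) * y₀ = 1 / 2 := by
      rw [hy0]
      field_simp
    have h3 : C₁ * y₀ ≤ 1 / 2 := by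
      have : C₁ * y₀ ≤ (C₁ + 1) * y₀ := by nlinarith
      linarith
    have h4 : C₁ * y₀ ^ 2 = C₁ * y₀ * y₀ := by ring
    rw [h4]
    have h5 : 0 ≤ C₁ * y₀ := by positivity
    nlinarith
  have hG0 : GG γ 0 = 0 := by
    rw [GG_of_nonneg le_rfl, mul_zero]
  have hGneg : ∀ y, y ≤ 0 → GG γ y ≤ 0 := by
    intro y hy
    have := (GG_strictMono hγ).monotone hy
    rwa [hG0] at this
  have hGA : ∀ t, 0 ≤ t → t ≤ y₀ → GG γ (-t) ≤ -(k0 γ / 2 * t) := by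
    intro t ht ht0
    have h2 : |(-t)| ≤ 1 / 2 := by
      rw [abs_neg, abs_of_nonneg ht]
      linarith
    have h3 : |GG γ (-t) / k0 γ - -t| ≤ C₁ * ng (-t) ^ 3 := h1.le h2
    have h4 : ng (-t) = t := by
      unfold ng
      rw [neg_neg]
      exact max_eq_left ht
    rw [h4] at h3
    have h5 := (le_abs_self _).trans h3
    have h6 : C₁ * t ^ 3 ≤ t / 2 := by
      have h7 : t ^ 2 ≤ y₀ ^ 2 := pow_le_pow_left₀ ht ht0 2
      calc C₁ * t ^ 3 = C₁ * t ^ 2 * t := by ring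
        _ ≤ C₁ * y₀ ^ 2 * t :=
          mul_le_mul_of_nonneg_right (mul_le_mul_of_nonneg_left h7 hC1) ht
        _ ≤ 1 / 2 * t := mul_le_mul_of_nonneg_right hC1y ht
        _ = t / 2 := by ring
    have h7 : GG γ (-t) / k0 γ ≤ -(t / 2) := by linarith
    rw [div_le_iff₀ hk] at h7
    linarith
  have hE := Real.exp_pos Λ
  set q : ℝ := 2 * Real.exp Λ / k0 γ with hq
  have hq0 : 0 < q := by positivity
  refine ⟨3 + 2 * q, y₀ * z₁ / (1 + q), by positivity, by positivity, ?_⟩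
  intro L R hL hR hLR
  have hLz : 0 < L.z := lt_of_lt_of_le hz hL.1
  have hRz : 0 < R.z := lt_of_lt_of_le hz hR.1
  have hr := rie_ra hγ hLz hRz
  set a := ra γ L R with ha
  set b := rb γ L R with hb
  have hb' : b = a - (L.z - R.z) := by
    have := hr.z
    linarith
  set δ := L.z - R.z with hδ
  obtain ⟨v, hv⟩ : ∃ v, v = R.u - L.u := ⟨_, rfl⟩
  have hvabs : |L.u - R.u| = |v| := by rw [hv, abs_sub_comm]
  rw [hvabs] at hLR ⊢
  have hu : v = hj γ a L.z L.l + hj γ b R.z R.l := by rw [hv]; exact hr.u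
  set x₀ : ℝ := |δ| + q * |v| with hx0
  have hδ0 := abs_nonneg δ
  have hv0 := abs_nonneg v
  have hx00 : 0 ≤ x₀ := by positivity
  have hqv : |v| = Real.exp (-Λ) * (k0 γ / 2) * (q * |v|) := by
    have h3 : Real.exp (-Λ) * Real.exp Λ = 1 := by
      rw [← Real.exp_add, neg_add_cancel, Real.exp_zero]
    have h4 : Real.exp (-Λ) * (k0 γ / 2) * (q * |v|) = (Real.exp (-Λ) * Real.exp Λ) * |v| := by
      rw [hq]
      field_simp
    rw [h4, h3, one_mul]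
  have hEm := Real.exp_pos (-Λ)
  have hvx : |v| ≤ Real.exp (-Λ) * (k0 γ / 2) * x₀ := by
    rw [hqv]
    refine mul_le_mul_of_nonneg_left ?_ (by positivity)
    rw [hx0]
    linarith
  have hx1 : x₀ ≤ y₀ * z₁ := by
    have h3 : (|δ| + |v|) * (1 + q) ≤ y₀ * z₁ := by
      rwa [le_div_iff₀ (by positivity)] at hLR
    have h4 : x₀ ≤ (|δ| + |v|) * (1 + q) := by
      rw [hx0]
      have h5 : 0 ≤ q * |δ| := by positivity
      nlinarith
    exact h4.trans h3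
  have heL := sb_exp hL.2.2
  have heR := sb_exp hR.2.2
  have heL0 := Real.exp_pos L.l
  have heR0 := Real.exp_pos R.l
  have hupper : a ≤ x₀ := by
    by_contra hcon
    push Not at hcon
    have ha0 : 0 < a := lt_of_le_of_lt hx00 hcon
    have hb0 : 0 ≤ b := by
      have h3 := le_abs_self δ
      have h4 : 0 ≤ q * |v| := by positivity
      rw [hb']
      rw [hx0] at hcon
      linarith
    have h3 : hj γ a L.z L.l = Real.exp L.l * k0 γ * a := by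
      unfold hj
      rw [GG_of_nonneg (div_nonneg ha0.le hLz.le)]
      field_simp
    have h4 : 0 ≤ hj γ b R.z R.l := by
      unfold hj
      rw [GG_of_nonneg (div_nonneg hb0 hRz.le)]
      positivity
    have h5 : Real.exp (-Λ) * k0 γ * a ≤ Real.exp L.l * k0 γ * a :=
      mul_le_mul_of_nonneg_right (mul_le_mul_of_nonneg_right heL.2 hk.le) ha0.le
    have h6 : Real.exp (-Λ) * (k0 γ / 2) * x₀ ≤ Real.exp (-Λ) * (k0 γ / 2) * a :=
      mul_le_mul_of_nonneg_left hcon.le (by positivity)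
    have h7 : 0 < Real.exp (-Λ) * (k0 γ / 2) * a := by positivity
    have h8 := le_abs_self v
    linarith
  have hlower : -x₀ ≤ a := by
    by_contra hcon
    push Not at hcon
    have hb0 : b ≤ 0 := by
      have h3 := neg_abs_le δ
      have h4 : 0 ≤ q * |v| := by positivity
      rw [hb']
      rw [hx0] at hcon
      linarith
    have h3 : hj γ b R.z R.l ≤ 0 := by
      unfold hj
      have h4 := hGneg (b / R.z) (div_nonpos_of_nonpos_of_nonneg hb0 hRz.le)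
      exact mul_nonpos_of_nonneg_of_nonpos (by positivity) h4
    have h4 : GG γ (a / L.z) < GG γ (-(x₀ / L.z)) := by
      apply GG_strictMono hγ
      rw [← neg_div]
      exact div_lt_div_of_pos_right hcon hLz
    have h5 : x₀ / L.z ≤ y₀ := by
      rw [div_le_iff₀ hLz]
      exact hx1.trans (mul_le_mul_of_nonneg_left hL.1 hy0p.le)
    have h6 := hGA (x₀ / L.z) (by positivity) h5
    have h7 : hj γ a L.z L.l < Real.exp L.l * L.z * -(k0 γ / 2 * (x₀ / L.z)) := by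
      unfold hj
      exact mul_lt_mul_of_pos_left (h4.trans_le h6) (mul_pos heL0 hLz)
    have h8 : Real.exp L.l * L.z * -(k0 γ / 2 * (x₀ / L.z)) =
        -(Real.exp L.l * (k0 γ / 2) * x₀) := by
      field_simp
    have h9 : Real.exp (-Λ) * (k0 γ / 2) * x₀ ≤ Real.exp L.l * (k0 γ / 2) * x₀ :=
      mul_le_mul_of_nonneg_right (mul_le_mul_of_nonneg_right heL.2 (by positivity)) hx00
    have h10 := neg_abs_le v
    linarith
  have habs : |a| ≤ x₀ := abs_le.2 ⟨hlower, hupper⟩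
  have hbabs : |b| ≤ |a| + |δ| := by
    rw [hb']
    exact abs_sub _ _
  have h11 : 0 ≤ 2 * q * |δ| := by positivity
  have h12 : x₀ = |δ| + q * |v| := hx0
  nlinarith

theorem jump_bound {γ z₁ z₂ Λ : ℝ} (hγ : 1 < γ) (hz : 0 < z₁) : ∃ C : ℝ, 0 < C ∧
    ∀ L R : St, InB z₁ z₂ Λ L → InB z₁ z₂ Λ R → |ra γ L R| ≤ z₁ / 2 → |rb γ L R| ≤ z₁ / 2 →
      |L.z - R.z| ≤ |ra γ L R| + |rb γ L R| ∧
      |L.u - R.u| ≤ C * (|ra γ L R| + |rb γ L R|) ∧
      |R.l - L.l - sg γ L R| ≤ C * (ng (ra γ L R) ^ 3 + ng (rb γ L R) ^ 3) := by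
  obtain ⟨C, hC, h⟩ := wave_bound (z₁ := z₁) (z₂ := z₂) (Λ := Λ) hγ hz
  refine ⟨C, hC, fun L R hL hR ha hb => ?_⟩
  have hLz : 0 < L.z := lt_of_lt_of_le hz hL.1
  have hRz : 0 < R.z := lt_of_lt_of_le hz hR.1
  have hr := rie_ra hγ hLz hRz
  obtain ⟨a1, a2, a3, -⟩ := h (ra γ L R) L.z L.l hL.1 hL.2.1 hL.2.2 ha
  obtain ⟨b1, b2, b3, -⟩ := h (rb γ L R) R.z R.l hR.1 hR.2.1 hR.2.2 hb
  refine ⟨?_, ?_, ?_⟩
  · have h1 : L.z - R.z = ra γ L R - rb γ L R := by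
      have := hr.z
      linarith
    rw [h1]
    exact abs_sub _ _
  · rw [abs_sub_comm, hr.u]
    have h1 := abs_add_le (hj γ (ra γ L R) L.z L.l) (hj γ (rb γ L R) R.z R.l)
    linarith
  · have h1 : R.l - L.l - sg γ L R = sj γ (ra γ L R) L.z - sj γ (rb γ L R) R.z := by
      unfold sg
      ring
    rw [h1]
    have h2 := abs_sub (sj γ (ra γ L R) L.z) (sj γ (rb γ L R) R.z)
    rw [abs_of_nonneg a2, abs_of_nonneg b2] at h2
    linarith

end Helper51.TH
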