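import Pool.Agent.Helper51.TH.Shock
import Pool.Agent.Helper51.TH.Rare
import Pool.Agent.Helper51.TH.SolveBd

/-!
TH-P20. The integral identity for the Riemann fan.

NOTATION. `m k w ξ = cf γ k w - ξ cq γ k w`.
PROOF. (1) `fan1`: for all `ξ₁ ≤ ξ₂`: `m(fan1 ξ₁, ξ₁) - m(fan1 ξ₂, ξ₂) ≤ ∫ cq k (fan1 ξ)`, with equality for `k ≠ 3`: `a ≥ 0` is
`rare_identity`; for `a < 0` `fan1` has two constant values with a jump at `s`, and `shock_rh` (if `ξ₁ < s ≤ ξ₂`: the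
integral is `(s - ξ₁) cq L + (ξ₂ - s) cq w`, and `m(L, ξ₁) - (s - ξ₁) cq L = m(L, s) ≤ m(w, s)`; the value at `s` is the right
state).
(2) Contact: for states `v, w` with the same `z > 0` and `u`: `m k v u = m k w u` (`cf_eq`: `m` at `ξ = u` is `0, p, p u, 0`).
At `u_m = L.u + hj a` the function `fan1 γ L a` has the value `w₋` with `z = L.z - a`, `u = u_m` (for a shock `s < u_m`, for a
rarefaction the right edge is `u_m - c ≤ u_m`), and the same holds for the mirrored right fan: value `w₊` with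
`z = R.z - b = L.z - a` and `u = -( - R.u + hj b) = R.u - hj b = u_m` (`Rie.u`).
(3) Mirror: `cq k (mir w) = ± cq k w`, `cf k (mir w) = ∓ cf k w` (upper sign for `k = 0, 2, 3`, lower sign for `k = 1`), so
`m k (mir w) ξ = ∓ m k w (-ξ)`, and (1) for `mir R` gives the same statement for
`ξ ↦ mir (fan1 (mir R) b (-ξ))` (substitution `ξ ↦ -ξ`; for `k = 1` only equality is needed).
(4) For `ξ₁ < u_m ≤ ξ₂`: add (1) on `[ξ₁, u_m]` (with `fan1` up to and including `u_m`; the value at one point does not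
matter for the integral), (2), and (3) on `[u_m, ξ₂]`.
`fan_out`: shock speed `≥ L.u - c M`, with `M ≤ √(1 + κ ((3/2)^E - 1))` for `|a| ≤ z₁/2`; left edge of the rarefaction
`L.u - c`; so `Λc = U + exp Λ z₂ M + 1` works (and `u_m`, in order to be on the left side of it for `ξ ≤ -Λc`, and
`fan = R` for `ξ ≥ Λc` by the mirror image).
Measurability: `fan1` is continuous in `ξ` or has two values; `if` on half lines.
-/

open Set Filter Topology MeasureTheory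

namespace Helper51.TH

/-- the identity on one interval -/
private def FP (γ : ℝ) (k : Fin 4) (f : ℝ → St) (ξ₁ ξ₂ : ℝ) : Prop :=
  IntervalIntegrable (fun ξ => cq γ k (f ξ)) volume ξ₁ ξ₂ ∧
    (cf γ k (f ξ₁) - ξ₁ * cq γ k (f ξ₁)) - (cf γ k (f ξ₂) - ξ₂ * cq γ k (f ξ₂)) ≤
        ∫ ξ in ξ₁..ξ₂, cq γ k (f ξ) ∧
    (k ≠ 3 → ∫ ξ in ξ₁..ξ₂, cq γ k (f ξ) =
      (cf γ k (f ξ₁) - ξ₁ * cq γ k (f ξ₁)) - (cf γ k (f ξ₂) - ξ₂ * cq γ k (f ξ₂)))

private theorem fp_const {γ : ℝ} {k : Fin 4} (w : St) (ξ₁ ξ₂ : ℝ) : FP γ k (fun _ => w) ξ₁ ξ₂ := by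
  have h : ∫ _ξ in ξ₁..ξ₂, cq γ k w =
      (cf γ k w - ξ₁ * cq γ k w) - (cf γ k w - ξ₂ * cq γ k w) := by
    rw [intervalIntegral.integral_const, smul_eq_mul]
    ring
  exact ⟨intervalIntegrable_const, h.ge, fun _ => h⟩

private theorem fp_congr {γ : ℝ} {k : Fin 4} {f g : ℝ → St} {ξ₁ ξ₂ : ℝ} (hξ : ξ₁ ≤ ξ₂)
    (h : ∀ ξ, ξ₁ ≤ ξ → ξ ≤ ξ₂ → f ξ = g ξ) (hg : FP γ k g ξ₁ ξ₂) : FP γ k f ξ₁ ξ₂ := by
  have h1 : ∫ ξ in ξ₁..ξ₂, cq γ k (f ξ) = ∫ ξ in ξ₁..ξ₂, cq γ k (g ξ) := by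
    refine intervalIntegral.integral_congr fun ξ hξ' => ?_
    rw [uIcc_of_le hξ] at hξ'
    simp only [h ξ hξ'.1 hξ'.2]
  refine ⟨?_, ?_, fun hk => ?_⟩
  · refine hg.1.congr fun ξ hξ' => ?_
    rw [uIoc_of_le hξ] at hξ'
    simp only [h ξ hξ'.1.le hξ'.2]
  · rw [h1, h ξ₁ le_rfl hξ, h ξ₂ hξ le_rfl]
    exact hg.2.1
  · rw [h1, h ξ₁ le_rfl hξ, h ξ₂ hξ le_rfl]
    exact hg.2.2 hk

private theorem fp_glue {γ : ℝ} {k : Fin 4} {f g h : ℝ → St} {t : ℝ}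
    (hg : ∀ ξ₁ ξ₂ : ℝ, ξ₁ ≤ ξ₂ → FP γ k g ξ₁ ξ₂) (hh : ∀ ξ₁ ξ₂ : ℝ, ξ₁ ≤ ξ₂ → FP γ k h ξ₁ ξ₂)
    (fg : ∀ ξ, ξ < t → f ξ = g ξ) (fh : ∀ ξ, t ≤ ξ → f ξ = h ξ)
    (hj1 : cf γ k (g t) - t * cq γ k (g t) ≤ cf γ k (h t) - t * cq γ k (h t))
    (hj2 : k ≠ 3 → cf γ k (g t) - t * cq γ k (g t) = cf γ k (h t) - t * cq γ k (h t))
    {ξ₁ ξ₂ : ℝ} (hξ : ξ₁ ≤ ξ₂) : FP γ k f ξ₁ ξ₂ := by
  rcases lt_or_ge ξ₂ t with h2 | h2
  · exact fp_congr hξ (fun ξ _ h3 => fg ξ (h3.trans_lt h2)) (hg ξ₁ ξ₂ hξ)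
  rcases lt_or_ge ξ₁ t with h1 | h1
  · obtain ⟨a1, a2, a3⟩ := hg ξ₁ t h1.le
    obtain ⟨b1, b2, b3⟩ := hh t ξ₂ h2
    have hae : ∀ᵐ ξ ∂(volume : Measure ℝ), ξ ∈ Set.uIoc ξ₁ t → cq γ k (g ξ) = cq γ k (f ξ) := by
      have h0 : ∀ᵐ ξ ∂(volume : Measure ℝ), ξ ≠ t := by
        simp [ae_iff, measure_singleton]
      filter_upwards [h0] with ξ h3 h4
      rw [uIoc_of_le h1.le] at h4
      rw [fg ξ (lt_of_le_of_ne h4.2 h3)]
    have i1 : IntervalIntegrable (fun ξ => cq γ k (f ξ)) volume ξ₁ t := by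
      refine a1.congr_ae ?_
      rw [Filter.EventuallyEq, ae_restrict_iff' measurableSet_uIoc]
      exact hae
    have e1 : ∫ ξ in ξ₁..t, cq γ k (f ξ) = ∫ ξ in ξ₁..t, cq γ k (g ξ) :=
      (intervalIntegral.integral_congr_ae hae).symm
    have i2 : IntervalIntegrable (fun ξ => cq γ k (f ξ)) volume t ξ₂ := by
      refine b1.congr fun ξ hξ' => ?_
      rw [uIoc_of_le h2] at hξ'
      simp only [fh ξ hξ'.1.le]
    have e2 : ∫ ξ in t..ξ₂, cq γ k (f ξ) = ∫ ξ in t..ξ₂, cq γ k (h ξ) := by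
      refine intervalIntegral.integral_congr fun ξ hξ' => ?_
      rw [uIcc_of_le h2] at hξ'
      simp only [fh ξ hξ'.1]
    have e3 : ∫ ξ in ξ₁..ξ₂, cq γ k (f ξ) =
        (∫ ξ in ξ₁..t, cq γ k (g ξ)) + ∫ ξ in t..ξ₂, cq γ k (h ξ) := by
      rw [← e1, ← e2, intervalIntegral.integral_add_adjacent_intervals i1 i2]
    refine ⟨i1.trans i2, ?_, fun hk => ?_⟩
    · rw [e3, fg ξ₁ h1, fh ξ₂ h2]
      linarith
    · rw [e3, fg ξ₁ h1, fh ξ₂ h2, a3 hk, b3 hk]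
      linarith [hj2 hk]
  · exact fp_congr hξ (fun ξ h3 _ => fh ξ (h1.trans h3)) (hh ξ₁ ξ₂ hξ)

private theorem fi_k0 {γ : ℝ} (hγ : 1 < γ) : 0 < k0 γ := by
  unfold k0
  exact div_pos two_pos (by linarith)

/-- the shock speed -/
private noncomputable def fS (γ : ℝ) (L : St) (a : ℝ) : ℝ :=
  L.u - Real.exp L.l * L.z * √(1 + (γ + 1) / (2 * γ) * (PR γ (a / L.z) - 1))

private theorem fan1_neg {γ : ℝ} {L : St} {a : ℝ} (ha : a < 0) :
    (∀ ξ, ξ < fS γ L a → fan1 γ L a ξ = L) ∧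
    (∀ ξ, fS γ L a ≤ ξ →
      fan1 γ L a ξ = ⟨L.z - a, L.u + hj γ a L.z L.l, L.l + sj γ a L.z⟩) := by
  constructor
  · intro ξ hξ
    unfold fan1
    rw [if_neg (not_le.2 ha)]
    exact if_pos hξ
  · intro ξ hξ
    unfold fan1
    rw [if_neg (not_le.2 ha)]
    exact if_neg (not_lt.2 hξ)

private theorem fp_fan1 {γ : ℝ} (hγ : 1 < γ) {L : St} (hL : 0 < L.z) {a : ℝ} (haL : 0 < L.z - a)
    (k : Fin 4) {ξ₁ ξ₂ : ℝ} (hξ : ξ₁ ≤ ξ₂) : FP γ k (fan1 γ L a) ξ₁ ξ₂ := by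
  rcases le_or_gt 0 a with ha | ha
  · have h := rare_identity hγ ha haL k hξ
    exact ⟨(rare_continuous hγ ha haL k).1.intervalIntegrable _ _, h.ge, fun _ => h⟩
  · obtain ⟨r1, r2, r3⟩ := shock_rh hγ hL ha
    obtain ⟨f1, f2⟩ := fan1_neg (γ := γ) (L := L) ha
    have hle : cf γ k L - fS γ L a * cq γ k L ≤
        cf γ k ⟨L.z - a, L.u + hj γ a L.z L.l, L.l + sj γ a L.z⟩ -
          fS γ L a * cq γ k ⟨L.z - a, L.u + hj γ a L.z L.l, L.l + sj γ a L.z⟩ := by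
      by_cases hk : k = 3
      · rw [hk]
        exact r2
      · exact (r1 k hk).ge
    exact fp_glue (g := fun _ => L)
      (h := fun _ => ⟨L.z - a, L.u + hj γ a L.z L.l, L.l + sj γ a L.z⟩)
      (t := fS γ L a) (fun ξ₁ ξ₂ _ => fp_const _ _ _) (fun ξ₁ ξ₂ _ => fp_const _ _ _)
      f1 f2 hle (fun hk => (r1 k hk).symm) hξ

private theorem meas_fan1 {γ : ℝ} (hγ : 1 < γ) {L : St} {a : ℝ} (haL : 0 < L.z - a)
    (k : Fin 4) : Measurable (fun ξ => cq γ k (fan1 γ L a ξ)) := by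
  rcases le_or_gt 0 a with ha | ha
  · exact (rare_continuous hγ ha haL k).1.measurable
  · obtain ⟨f1, f2⟩ := fan1_neg (γ := γ) (L := L) ha
    have h : (fun ξ => cq γ k (fan1 γ L a ξ)) = fun ξ => if ξ < fS γ L a then cq γ k L else
        cq γ k ⟨L.z - a, L.u + hj γ a L.z L.l, L.l + sj γ a L.z⟩ := by
      funext ξ
      by_cases hξ : ξ < fS γ L a
      · rw [if_pos hξ, f1 ξ hξ]
      · rw [if_neg hξ, f2 ξ (not_lt.1 hξ)]
    rw [h]
    exact Measurable.ite measurableSet_Iio measurable_const measurable_const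

private theorem hj_pos_eq {γ : ℝ} {a z l : ℝ} (ha : 0 ≤ a) (hz : 0 < z) :
    hj γ a z l = k0 γ * Real.exp l * a := by
  rw [hj, GG_of_nonneg (div_nonneg ha hz.le)]
  field_simp

/-- the value of the left fan at the contact -/
private theorem fan1_contact {γ : ℝ} (hγ : 1 < γ) {L : St} (hL : 0 < L.z) {a : ℝ}
    (haL : 0 < L.z - a) :
    (fan1 γ L a (L.u + hj γ a L.z L.l)).z = L.z - a ∧
    (fan1 γ L a (L.u + hj γ a L.z L.l)).u = L.u + hj γ a L.z L.l := by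
  have hk := fi_k0 hγ
  have hE := Real.exp_pos L.l
  rcases le_or_gt 0 a with ha | ha
  · have hh := hj_pos_eq (γ := γ) (l := L.l) ha hL
    have h1 : a ≤ (L.u + hj γ a L.z L.l - (L.u - Real.exp L.l * L.z)) /
        (Real.exp L.l * (k0 γ + 1)) := by
      rw [le_div_iff₀ (by positivity), hh]
      have : 0 < Real.exp L.l * (L.z - a) := mul_pos hE haL
      nlinarith
    unfold fan1
    rw [if_pos ha, min_eq_left h1, max_eq_right ha]
    refine ⟨rfl, ?_⟩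
    simp only
    rw [hh]
  · obtain ⟨-, -, r3⟩ := shock_rh hγ hL ha
    obtain ⟨f1, f2⟩ := fan1_neg (γ := γ) (L := L) ha
    rw [f2 _ r3.le]
    exact ⟨rfl, rfl⟩

/-- the contact discontinuity -/
private theorem contact_rh {γ : ℝ} (hγ : 1 < γ) {v w : St} (hv : 0 < v.z) (hz : w.z = v.z)
    (hu : w.u = v.u) (k : Fin 4) :
    cf γ k v - v.u * cq γ k v = cf γ k w - v.u * cq γ k w := by
  have hw : 0 < w.z := by rw [hz]; exact hv
  have hp : prs γ w = prs γ v := by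
    unfold prs
    rw [hz]
  have hg : γ - 1 ≠ 0 := by linarith
  obtain ⟨v0, v1, v2, v3, v4, v5, v6, v7⟩ := cq_eq hγ hv
  obtain ⟨w0, w1, w2, w3, w4, w5, w6, w7⟩ := cq_eq hγ hw
  match k with
  | 0 =>
    rw [v0, v4, w0, w4, hu]
    ring
  | 1 =>
    rw [v1, v5, w1, w5, hu, hp]
    ring
  | 2 =>
    rw [v2, v6, w2, w6, hu, hp]
    ring
  | 3 =>
    rw [v3, v7, w3, w7, hu]
    ring

private theorem mir_cq (γ : ℝ) (w : St) :
    cq γ 0 (mir w) = cq γ 0 w ∧ cq γ 1 (mir w) = -cq γ 1 w ∧ cq γ 2 (mir w) = cq γ 2 w ∧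
    cq γ 3 (mir w) = cq γ 3 w ∧
    cf γ 0 (mir w) = -cf γ 0 w ∧ cf γ 1 (mir w) = cf γ 1 w ∧ cf γ 2 (mir w) = -cf γ 2 w ∧
    cf γ 3 (mir w) = -cf γ 3 w := by
  have hr : rho γ (mir w) = rho γ w := rfl
  have hi : ien γ (mir w) = ien γ w := rfl
  have hu : (mir w).u = -w.u := rfl
  have he : Helper73.EU.en (-w.u) (ien γ w) = Helper73.EU.en w.u (ien γ w) := by
    unfold Helper73.EU.en
    ring
  refine ⟨rfl, ?_, ?_, rfl, ?_, ?_, ?_, ?_⟩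
  · change rho γ w * -w.u = -(rho γ w * w.u)
    ring
  · change rho γ w * Helper73.EU.en (-w.u) (ien γ w) = rho γ w * Helper73.EU.en w.u (ien γ w)
    rw [he]
  · change rho γ w * -w.u = -(rho γ w * w.u)
    ring
  · change rho γ w * (-w.u) ^ 2 + Helper73.EU.pr γ (rho γ w) (ien γ w) =
      rho γ w * w.u ^ 2 + Helper73.EU.pr γ (rho γ w) (ien γ w)
    ring
  · change rho γ w * Helper73.EU.en (-w.u) (ien γ w) * -w.u +
      Helper73.EU.pr γ (rho γ w) (ien γ w) * -w.u =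
      -(rho γ w * Helper73.EU.en w.u (ien γ w) * w.u +
        Helper73.EU.pr γ (rho γ w) (ien γ w) * w.u)
    rw [he]
    ring
  · change rho γ w * -w.u * Helper73.EU.ent γ (rho γ w) (ien γ w) =
      -(rho γ w * w.u * Helper73.EU.ent γ (rho γ w) (ien γ w))
    ring

/-- reflection -/
private theorem fp_mir {γ : ℝ} {k : Fin 4} {g : ℝ → St}
    (hg : ∀ ξ₁ ξ₂ : ℝ, ξ₁ ≤ ξ₂ → FP γ k g ξ₁ ξ₂) {ξ₁ ξ₂ : ℝ} (hξ : ξ₁ ≤ ξ₂) :
    FP γ k (fun ξ => mir (g (-ξ))) ξ₁ ξ₂ := by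
  obtain ⟨a1, a2, a3⟩ := hg (-ξ₂) (-ξ₁) (by linarith)
  have hI : ∫ ξ in ξ₁..ξ₂, cq γ k (g (-ξ)) = ∫ ξ in (-ξ₂)..(-ξ₁), cq γ k (g ξ) :=
    intervalIntegral.integral_comp_neg (fun ξ => cq γ k (g ξ))
  have hInt : IntervalIntegrable (fun ξ => cq γ k (g (-ξ))) volume ξ₁ ξ₂ := by
    have := (a1.comp_sub_left 0).symm
    simpa using this
  by_cases h1 : k = 1
  · have hq : ∀ w, cq γ k (mir w) = -cq γ k w := fun w => by rw [h1]; exact (mir_cq γ w).2.1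
    have hf : ∀ w, cf γ k (mir w) = cf γ k w := fun w => by
      rw [h1]; exact (mir_cq γ w).2.2.2.2.2.1
    have h3 : k ≠ 3 := by rw [h1]; decide
    have h4 := a3 h3
    have h5 : ∫ ξ in ξ₁..ξ₂, cq γ k (mir (g (-ξ))) =
        (cf γ k (mir (g (-ξ₁))) - ξ₁ * cq γ k (mir (g (-ξ₁)))) -
        (cf γ k (mir (g (-ξ₂))) - ξ₂ * cq γ k (mir (g (-ξ₂)))) := by
      simp only [hq, hf]
      rw [intervalIntegral.integral_neg, hI, h4]
      ring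
    refine ⟨?_, h5.ge, fun _ => h5⟩
    simp only [hq]
    exact hInt.neg
  · have hq : ∀ w, cq γ k (mir w) = cq γ k w := fun w => by
      match k with
      | 0 => exact (mir_cq γ w).1
      | 1 => exact absurd rfl h1
      | 2 => exact (mir_cq γ w).2.2.1
      | 3 => exact (mir_cq γ w).2.2.2.1
    have hf : ∀ w, cf γ k (mir w) = -cf γ k w := fun w => by
      match k with
      | 0 => exact (mir_cq γ w).2.2.2.2.1
      | 1 => exact absurd rfl h1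
      | 2 => exact (mir_cq γ w).2.2.2.2.2.2.1
      | 3 => exact (mir_cq γ w).2.2.2.2.2.2.2
    refine ⟨?_, ?_, fun h3 => ?_⟩
    · simp only [hq]
      exact hInt
    · simp only [hq, hf]
      rw [hI]
      linarith
    · simp only [hq, hf]
      rw [hI, a3 h3]
      ring

private theorem meas_mir {γ : ℝ} {k : Fin 4} {g : ℝ → St}
    (hg : Measurable (fun ξ => cq γ k (g ξ))) : Measurable (fun ξ => cq γ k (mir (g (-ξ)))) := by
  have h0 : Measurable (fun ξ => cq γ k (g (-ξ))) := hg.comp measurable_neg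
  match k with
  | 0 => simpa only [(mir_cq γ _).1] using h0
  | 1 =>
    have h1 : Measurable (fun ξ => -cq γ 1 (g (-ξ))) := h0.neg
    simpa only [(mir_cq γ _).2.1] using h1
  | 2 => simpa only [(mir_cq γ _).2.2.1] using h0
  | 3 => simpa only [(mir_cq γ _).2.2.2.1] using h0

theorem measurable_fan {γ : ℝ} (hγ : 1 < γ) {L R : St} (hL : 0 < L.z) (hR : 0 < R.z)
    (hm : 0 < L.z - ra γ L R) (k : Fin 4) : Measurable (fun ξ => cq γ k (fan γ L R ξ)) := by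
  have hr := rie_ra hγ hL hR
  have hm' : 0 < (mir R).z - rb γ L R := by
    change 0 < R.z - rb γ L R
    rw [← hr.z]
    exact hm
  have h : (fun ξ => cq γ k (fan γ L R ξ)) = fun ξ =>
      if ξ < L.u + hj γ (ra γ L R) L.z L.l then cq γ k (fan1 γ L (ra γ L R) ξ)
      else cq γ k (mir (fan1 γ (mir R) (rb γ L R) (-ξ))) := by
    funext ξ
    unfold fan
    split_ifs <;> rfl
  rw [h]
  exact Measurable.ite measurableSet_Iio (meas_fan1 hγ hm k) (meas_mir (meas_fan1 hγ hm' k))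

theorem fan_identity {γ : ℝ} (hγ : 1 < γ) {L R : St} (hL : 0 < L.z) (hR : 0 < R.z)
    (hm : 0 < L.z - ra γ L R) (k : Fin 4) {ξ₁ ξ₂ : ℝ} (hξ : ξ₁ ≤ ξ₂) :
    IntervalIntegrable (fun ξ => cq γ k (fan γ L R ξ)) volume ξ₁ ξ₂ ∧
    (cf γ k (fan γ L R ξ₁) - ξ₁ * cq γ k (fan γ L R ξ₁)) -
      (cf γ k (fan γ L R ξ₂) - ξ₂ * cq γ k (fan γ L R ξ₂)) ≤
        ∫ ξ in ξ₁..ξ₂, cq γ k (fan γ L R ξ) ∧
    (k ≠ 3 → ∫ ξ in ξ₁..ξ₂, cq γ k (fan γ L R ξ) =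
      (cf γ k (fan γ L R ξ₁) - ξ₁ * cq γ k (fan γ L R ξ₁)) -
      (cf γ k (fan γ L R ξ₂) - ξ₂ * cq γ k (fan γ L R ξ₂))) := by
  have hr := rie_ra hγ hL hR
  have hm' : 0 < (mir R).z - rb γ L R := by
    change 0 < R.z - rb γ L R
    rw [← hr.z]
    exact hm
  have hR' : 0 < (mir R).z := hR
  obtain ⟨c1, c2⟩ := fan1_contact hγ hL hm
  obtain ⟨d1, d2⟩ := fan1_contact hγ hR' hm'
  have hum : -(L.u + hj γ (ra γ L R) L.z L.l) =
      (mir R).u + hj γ (rb γ L R) (mir R).z (mir R).l := by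
    change _ = -R.u + hj γ (rb γ L R) R.z R.l
    linarith [hr.u]
  rw [← hum] at d1 d2
  have hcon := contact_rh hγ (v := fan1 γ L (ra γ L R) (L.u + hj γ (ra γ L R) L.z L.l))
    (w := mir (fan1 γ (mir R) (rb γ L R) (-(L.u + hj γ (ra γ L R) L.z L.l))))
    (by rw [c1]; exact hm)
    (by
      change (fan1 γ (mir R) (rb γ L R) (-(L.u + hj γ (ra γ L R) L.z L.l))).z = _
      rw [d1, c1]
      exact hr.z.symm)
    (by
      change -(fan1 γ (mir R) (rb γ L R) (-(L.u + hj γ (ra γ L R) L.z L.l))).u = _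
      rw [d2, c2, neg_neg]) k
  rw [c2] at hcon
  have key : FP γ k (fan γ L R) ξ₁ ξ₂ :=
    fp_glue (f := fan γ L R) (g := fan1 γ L (ra γ L R))
      (h := fun ξ => mir (fan1 γ (mir R) (rb γ L R) (-ξ)))
      (t := L.u + hj γ (ra γ L R) L.z L.l) (fun ξ₁ ξ₂ h => fp_fan1 hγ hL hm k h)
      (fun ξ₁ ξ₂ h => fp_mir (fun ξ₁ ξ₂ h => fp_fan1 hγ hR' hm' k h) h)
      (fun ξ h => by unfold fan; rw [if_pos h]) (fun ξ h => by unfold fan; rw [if_neg (not_lt.2 h)])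
      hcon.le (fun _ => hcon) hξ
  exact key

private theorem fan1_left {γ z₁ z₂ Λ U : ℝ} (hγ : 1 < γ) (hz : 0 < z₁) {L : St}
    (hL : InB z₁ z₂ Λ L) (hu : |L.u| ≤ U) {a : ℝ} (ha : |a| ≤ z₁ / 2) {ξ : ℝ}
    (hξ : ξ < -(|U| + Real.exp Λ * |z₂| *
      (√(1 + (γ + 1) / (2 * γ) * ((3 / 2 : ℝ) ^ (2 * γ / (γ - 1)) - 1)) + 1))) :
    fan1 γ L a ξ = L := by
  obtain ⟨l1, l2, l3⟩ := hL
  have hLz : 0 < L.z := by linarith
  have hE : Real.exp L.l ≤ Real.exp Λ := Real.exp_le_exp.2 ((abs_le.1 l3).2)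
  have hE0 := Real.exp_pos L.l
  have hc : Real.exp L.l * L.z ≤ Real.exp Λ * |z₂| :=
    mul_le_mul hE (l2.trans (le_abs_self _)) hLz.le (Real.exp_pos _).le
  have hc0 : 0 < Real.exp L.l * L.z := mul_pos hE0 hLz
  have hU : U ≤ |U| := le_abs_self _
  have hu1 : -U ≤ L.u := by linarith [(abs_le.1 hu).1]
  have hk := fi_k0 hγ
  obtain ⟨M, hM⟩ : ∃ M, M = √(1 + (γ + 1) / (2 * γ) * ((3 / 2 : ℝ) ^ (2 * γ / (γ - 1)) - 1)) :=
    ⟨_, rfl⟩
  rw [← hM] at hξ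
  have hM0 : 0 ≤ M := by rw [hM]; exact Real.sqrt_nonneg _
  have hb : Real.exp Λ * |z₂| * (M + 1) = Real.exp Λ * |z₂| * M + Real.exp Λ * |z₂| := by ring
  have hcM : Real.exp L.l * L.z * M ≤ Real.exp Λ * |z₂| * M :=
    mul_le_mul_of_nonneg_right hc hM0
  have hcM0 : 0 ≤ Real.exp L.l * L.z * M := mul_nonneg hc0.le hM0
  rcases le_or_gt 0 a with h0 | h0
  · unfold fan1
    rw [if_pos h0]
    have h1 : (ξ - (L.u - Real.exp L.l * L.z)) / (Real.exp L.l * (k0 γ + 1)) ≤ 0 := by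
      apply div_nonpos_of_nonpos_of_nonneg
      · linarith
      · positivity
    rw [max_eq_left ((min_le_right _ _).trans h1)]
    ext
    · simp
    · simp
    · rfl
  · refine (fan1_neg (γ := γ) (L := L) h0).1 ξ ?_
    unfold fS
    have hng : ng (a / L.z) ≤ 1 / 2 := by
      have h1 : -(a / L.z) ≤ 1 / 2 := by
        rw [← neg_div, div_le_iff₀ hLz]
        have := (abs_le.1 ha).1
        linarith
      exact max_le h1 (by norm_num)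
    have hng0 : 0 ≤ ng (a / L.z) := le_max_right _ _
    have hPR : PR γ (a / L.z) ≤ (3 / 2 : ℝ) ^ (2 * γ / (γ - 1)) := by
      unfold PR
      apply Real.rpow_le_rpow (by linarith) (by linarith)
      apply div_nonneg (by linarith) (by linarith)
    have hs : √(1 + (γ + 1) / (2 * γ) * (PR γ (a / L.z) - 1)) ≤ M := by
      rw [hM]
      apply Real.sqrt_le_sqrt
      have : 0 ≤ (γ + 1) / (2 * γ) := by positivity
      have := mul_le_mul_of_nonneg_left (sub_le_sub_right hPR 1) this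
      linarith
    have hcs := mul_le_mul_of_nonneg_left hs hc0.le
    linarith

theorem fan_out {γ z₁ z₂ Λ U : ℝ} (hγ : 1 < γ) (hz : 0 < z₁) : ∃ Λc : ℝ, 0 < Λc ∧
    ∀ L R : St, InB z₁ z₂ Λ L → InB z₁ z₂ Λ R → |L.u| ≤ U → |R.u| ≤ U →
      |ra γ L R| ≤ z₁ / 2 → |rb γ L R| ≤ z₁ / 2 → ∀ ξ : ℝ,
      (ξ ≤ -Λc → fan γ L R ξ = L) ∧ (Λc ≤ ξ → fan γ L R ξ = R) := by
  obtain ⟨C, hC, hw⟩ := wave_bound (z₁ := z₁) (z₂ := z₂) (Λ := Λ) hγ hz
  obtain ⟨M, hM⟩ : ∃ M, M = √(1 + (γ + 1) / (2 * γ) * ((3 / 2 : ℝ) ^ (2 * γ / (γ - 1)) - 1)) :=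
    ⟨_, rfl⟩
  have hM0 : 0 ≤ M := by rw [hM]; exact Real.sqrt_nonneg _
  refine ⟨|U| + Real.exp Λ * |z₂| * (M + 1) + C * (z₁ / 2) + 1, by positivity, ?_⟩
  intro L R hL hR hLu hRu ha hb ξ
  have hp1 : 0 ≤ Real.exp Λ * |z₂| * (M + 1) := by positivity
  have hp2 : 0 ≤ C * (z₁ / 2) := by positivity
  have hhj : |hj γ (ra γ L R) L.z L.l| ≤ C * (z₁ / 2) :=
    ((hw (ra γ L R) L.z L.l hL.1 hL.2.1 hL.2.2 ha).1).trans (mul_le_mul_of_nonneg_left ha hC.le)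
  have h1 := abs_le.1 hhj
  have h2 := abs_le.1 hLu
  have hU : U ≤ |U| := le_abs_self _
  constructor
  · intro hξ
    unfold fan
    rw [if_pos (by linarith)]
    refine fan1_left hγ hz hL hLu ha ?_
    rw [← hM]
    linarith
  · intro hξ
    unfold fan
    rw [if_neg (by linarith)]
    have hRm : InB z₁ z₂ Λ (mir R) := hR
    have hRu' : |(mir R).u| ≤ U := by
      change |-R.u| ≤ U
      rw [abs_neg]
      exact hRu
    rw [fan1_left hγ hz hRm hRu' hb (by rw [← hM]; linarith)]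
    ext
    · rfl
    · change - -R.u = R.u
      ring
    · rfl

end Helper51.TH
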