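import Pool.Agent.Helper51.TH.PDefs

/-!
TH-P01. The wave curves: cubic contact at `0`.

NOTATION. `E = 2γ/(γ-1)`, `κ = (γ+1)/(2γ) ∈ (0, 1)`; for `y = -s`, `0 ≤ s ≤ 1/2`, `x = PR γ y - 1 = (1+s)^E - 1 ∈ [0, X]`,
`x ≤ C s`.
PROOF. (0) For `y ≥ 0`: `ng y = 0`, `PR γ y = 1`, so `GG γ y = k0 γ y` and `S0 γ y = log (1 * (2γ/(2γ)))/2 = 0`.
(1) For `y = -s < 0`: `GG γ y = - g`, `g = x/(γ √(1 + κ x))`, and
`dg/dx = (1 + κ x/2)/(γ (1 + κ x)^(3/2))`, `dx/ds = E (1+s)^(E-1) = E (1 + x)^κ` (`(E-1)/E = κ`), so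
`d(g/k0)/ds = q(x)`, `q(x) = (1 + κx/2)(1+x)^κ/(1+κx)^(3/2)` (`E/γ = k0`). `q(0) = 1` and
`q'/q = (κ/2)/(1+κx/2) + κ/(1+x) - (3κ/2)/(1+κx)`, which vanishes at `x = 0` and is `O(x)` on `[0, X]` (each fraction
differs from its value at `0` by `≤ x`); `q` is bounded on `[0, X]`, so `|q'| ≤ C x`, `|q - 1| ≤ C x² ≤ C' s²`. Therefore
`f(y) = GG γ y/k0 - y` has the derivative `q(x) - 1` (in `y`) for `y < 0`, of absolute value `≤ C' y²`, and `f(0) = 0`. Mean
value inequality on `[x, y] ⊆ [-1/2, 0]`; if one of the points is `≥ 0` replace it by `0` (the distance decreases).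
(2) `S0`: with `π = 1 + x`, `D₁ = (γ-1)π + (γ+1)`, `D₂ = (γ+1)π + (γ-1)`:
`2 S0 = (1/γ) log π + log D₁ - log D₂`, derivative in `π`: `1/(γπ) + (γ-1)/D₁ - (γ+1)/D₂
 = 1/(γπ) - 4γ/(D₁D₂) = (D₁D₂ - 4γ²π)/(γπD₁D₂)` and `D₁D₂ - 4γ²π = (γ²-1)(π-1)²`. So `S0` is nondecreasing in
`π ≥ 1`, zero for `π = 1` (hence `S0 ≥ 0` for all `y`), with derivative `≤ C (π-1)² ≤ C s²` in `π`, and `dπ/ds ≤ C`.
-/

open Set

namespace Helper51.TH

private theorem cg_ng_nonneg (y : ℝ) : 0 ≤ ng y := le_max_right _ _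

private theorem cg_ng_of_nonneg {y : ℝ} (hy : 0 ≤ y) : ng y = 0 := by
  unfold ng
  exact max_eq_right (by linarith)

private theorem cg_PR_one {γ y : ℝ} (hy : 0 ≤ y) : PR γ y = 1 := by
  unfold PR
  rw [cg_ng_of_nonneg hy, add_zero, Real.one_rpow]

/-- cubic contact from a derivative bound -/
private theorem cg_cubic {f F F' : ℝ → ℝ} {C : ℝ} (hC : 0 ≤ C) (hf : ∀ y, f y = F (ng y))
    (h0 : F 0 = 0) (hF : ∀ s, 0 ≤ s → HasDerivAt F (F' s) s)
    (hb : ∀ s, 0 ≤ s → s ≤ 1 / 2 → |F' s| ≤ C * s ^ 2) : Cubic f C := by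
  constructor
  · intro y hy
    rw [hf, cg_ng_of_nonneg hy, h0]
  · intro x y hx hy
    have hnx : ng x ≤ 1 / 2 := by
      unfold ng
      exact max_le (by linarith [(abs_le.1 hx).1]) (by norm_num)
    have hny : ng y ≤ 1 / 2 := by
      unfold ng
      exact max_le (by linarith [(abs_le.1 hy).1]) (by norm_num)
    set m := max (ng x) (ng y) with hm
    have hm0 : 0 ≤ m := (cg_ng_nonneg x).trans (le_max_left _ _)
    have hm1 : m ≤ 1 / 2 := max_le hnx hny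
    have h1 : ‖F (ng x) - F (ng y)‖ ≤ C * m ^ 2 * ‖ng x - ng y‖ := by
      refine (convex_Icc 0 m).norm_image_sub_le_of_norm_hasDerivWithin_le
        (f' := F') (fun s hs => (hF s hs.1).hasDerivWithinAt) (fun s hs => ?_)
        ⟨cg_ng_nonneg y, le_max_right _ _⟩ ⟨cg_ng_nonneg x, le_max_left _ _⟩
      rw [Real.norm_eq_abs]
      refine (hb s hs.1 (hs.2.trans hm1)).trans ?_
      exact mul_le_mul_of_nonneg_left (pow_le_pow_left₀ hs.1 hs.2 2) hC
    rw [Real.norm_eq_abs, Real.norm_eq_abs] at h1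
    rw [hf, hf]
    refine h1.trans (mul_le_mul_of_nonneg_left ?_ (mul_nonneg hC (sq_nonneg m)))
    unfold ng
    have h2 := abs_max_sub_max_le_max (-x) 0 (-y) 0
    refine h2.trans ?_
    rw [sub_zero, abs_zero, max_eq_left (abs_nonneg _)]
    have h3 : -x - -y = -(x - y) := by ring
    rw [h3, abs_neg]

/-- `|exp t - 1| ≤ |t| exp |t|` -/
private theorem cg_exp (t : ℝ) : |Real.exp t - 1| ≤ |t| * Real.exp |t| := by
  rcases le_total 0 t with h | h
  · rw [abs_of_nonneg h, abs_of_nonneg (by linarith [Real.one_le_exp h])]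
    have h1 := Real.add_one_le_exp (-t)
    have h2 : Real.exp t * Real.exp (-t) = 1 := by rw [← Real.exp_add, add_neg_cancel, Real.exp_zero]
    have h3 := Real.exp_pos t
    nlinarith
  · rw [abs_of_nonpos h, abs_of_nonpos (by linarith [Real.exp_le_one_iff.2 h])]
    have h1 := Real.add_one_le_exp t
    have h2 : 1 ≤ Real.exp (-t) := Real.one_le_exp (by linarith)
    nlinarith

private theorem cg_log_lb {t : ℝ} (ht : 0 ≤ t) : t - t ^ 2 / 2 ≤ Real.log (1 + t) := by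
  have hmono : MonotoneOn (fun t : ℝ => Real.log (1 + t) - (t - t ^ 2 / 2)) (Ici 0) := by
    have hd : ∀ s : ℝ, 0 ≤ s → HasDerivAt (fun t : ℝ => Real.log (1 + t) - (t - t ^ 2 / 2))
        (1 / (1 + s) - (1 - s)) s := by
      intro s hs
      have h1 : HasDerivAt (fun t : ℝ => Real.log (1 + t)) (1 / (1 + s)) s := by
        have h2 : HasDerivAt (fun t : ℝ => 1 + t) 1 s := (hasDerivAt_id s).const_add 1
        exact h2.log (by positivity)
      have h3 : HasDerivAt (fun t : ℝ => t - t ^ 2 / 2) (1 - s) s := by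
        have h4 := (hasDerivAt_id s).sub (((hasDerivAt_id s).pow 2).div_const 2)
        refine h4.congr_deriv ?_
        simp only [id_eq]
        norm_num
      exact h1.sub h3
    refine monotoneOn_of_deriv_nonneg (convex_Ici 0) ?_ ?_ ?_
    · exact fun s hs => (hd s hs).continuousAt.continuousWithinAt
    · intro s hs
      rw [interior_Ici] at hs
      exact (hd s (le_of_lt hs)).differentiableAt.differentiableWithinAt
    · intro s hs
      rw [interior_Ici] at hs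
      have hs' : 0 < s := hs
      rw [(hd s hs'.le).deriv]
      have h5 : 1 / (1 + s) - (1 - s) = s ^ 2 / (1 + s) := by
        field_simp
        ring
      rw [h5]
      positivity
  have h : Real.log (1 + 0) - (0 - 0 ^ 2 / 2) ≤ Real.log (1 + t) - (t - t ^ 2 / 2) :=
    hmono (mem_Ici.2 le_rfl) (mem_Ici.2 ht) ht
  norm_num at h
  linarith

private theorem cg_log_ub {t : ℝ} (ht : 0 ≤ t) : Real.log (1 + t) ≤ t := by
  have := Real.log_le_sub_one_of_pos (show 0 < 1 + t by linarith)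
  linarith

/-- the pressure ratio is bounded by an exponential -/
private theorem cg_pow_le {E s : ℝ} (hE : 0 ≤ E) (hs : 0 ≤ s) :
    (1 + s) ^ E ≤ Real.exp (E * s) := by
  have h1 : 1 + s ≤ Real.exp s := by linarith [Real.add_one_le_exp s]
  refine (Real.rpow_le_rpow (by linarith) h1 hE).trans ?_
  rw [← Real.exp_mul, mul_comm]

private theorem cg_x_le {E s : ℝ} (hE : 0 ≤ E) (hs : 0 ≤ s) (hs2 : s ≤ 1 / 2) :
    (1 + s) ^ E - 1 ≤ E * Real.exp E * s := by
  have h1 := cg_pow_le hE hs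
  have h2 := cg_exp (E * s)
  have hEs : 0 ≤ E * s := mul_nonneg hE hs
  rw [abs_of_nonneg hEs] at h2
  have h3 : Real.exp (E * s) ≤ Real.exp E := by
    apply Real.exp_le_exp.2
    nlinarith
  have h4 : E * s * Real.exp (E * s) ≤ E * s * Real.exp E := mul_le_mul_of_nonneg_left h3 hEs
  have h5 := le_abs_self (Real.exp (E * s) - 1)
  nlinarith

private theorem cg_x_nonneg {E s : ℝ} (hE : 0 ≤ E) (hs : 0 ≤ s) : 0 ≤ (1 + s) ^ E - 1 := by
  have := Real.one_le_rpow (show 1 ≤ 1 + s by linarith) hE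
  linarith

private theorem cg_deriv_pow {E s : ℝ} (hs : 0 ≤ s) :
    HasDerivAt (fun s : ℝ => (1 + s) ^ E) (E * (1 + s) ^ (E - 1)) s := by
  have h2 : HasDerivAt (fun t : ℝ => 1 + t) 1 s := (hasDerivAt_id s).const_add 1
  have h3 := h2.rpow_const (p := E) (Or.inl (by positivity))
  convert h3 using 1
  ring

/-- the function in front of the derivative of the shock curve -/
private noncomputable def cgq (κ E s : ℝ) : ℝ :=
  (1 + s) ^ (E - 1) * (1 + κ * ((1 + s) ^ E - 1) / 2) /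
    ((1 + κ * ((1 + s) ^ E - 1)) * √(1 + κ * ((1 + s) ^ E - 1)))

private theorem cgq_bound {κ E s : ℝ} (hκ0 : 0 < κ) (hκ1 : κ ≤ 1) (hE : 1 ≤ E)
    (hκE : κ * E = E - 1) (hs : 0 ≤ s) (hs2 : s ≤ 1 / 2) :
    |cgq κ E s - 1| ≤ (E * Real.exp E) ^ 2 * Real.exp ((E * Real.exp E) ^ 2) * s ^ 2 := by
  have hE0 : 0 ≤ E := by linarith
  obtain ⟨x, hx⟩ : ∃ x, x = (1 + s) ^ E - 1 := ⟨_, rfl⟩
  have hx0 : 0 ≤ x := by rw [hx]; exact cg_x_nonneg hE0 hs
  have hx1 : x ≤ E * Real.exp E * s := by rw [hx]; exact cg_x_le hE0 hs hs2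
  have hκx : 0 ≤ κ * x := mul_nonneg hκ0.le hx0
  have hlogx : Real.log (1 + x) = E * Real.log (1 + s) := by
    rw [hx, add_sub_cancel, Real.log_rpow (by linarith)]
  have hpos1 : 0 < (1 + s) ^ (E - 1) := Real.rpow_pos_of_pos (by linarith) _
  have hpos2 : 0 < 1 + κ * x / 2 := by linarith
  have hpos3 : 0 < 1 + κ * x := by linarith
  have hpos4 : 0 < √(1 + κ * x) := Real.sqrt_pos.2 hpos3
  have hq : cgq κ E s = (1 + s) ^ (E - 1) * (1 + κ * x / 2) / ((1 + κ * x) * √(1 + κ * x)) := by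
    rw [cgq, ← hx]
  have hqpos : 0 < cgq κ E s := by
    rw [hq]
    exact div_pos (mul_pos hpos1 hpos2) (mul_pos hpos3 hpos4)
  have hlog : Real.log (cgq κ E s) = κ * Real.log (1 + x) + Real.log (1 + κ * x / 2) -
      3 / 2 * Real.log (1 + κ * x) := by
    rw [hq, Real.log_div (mul_pos hpos1 hpos2).ne' (mul_pos hpos3 hpos4).ne',
      Real.log_mul hpos1.ne' hpos2.ne', Real.log_mul hpos3.ne' hpos4.ne',
      Real.log_rpow (by linarith), Real.log_sqrt hpos3.le, hlogx, ← mul_assoc, hκE]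
    ring
  have hlb1 := cg_log_lb hx0
  have hub1 := cg_log_ub hx0
  have hlb2 := cg_log_lb (show 0 ≤ κ * x / 2 by linarith)
  have hub2 := cg_log_ub (show 0 ≤ κ * x / 2 by linarith)
  have hlb3 := cg_log_lb hκx
  have hub3 := cg_log_ub hκx
  have hx2 : 0 ≤ x ^ 2 := sq_nonneg x
  have hκ2 : κ ^ 2 ≤ 1 := by nlinarith
  have hκx2 : κ ^ 2 * x ^ 2 ≤ 1 * x ^ 2 := mul_le_mul_of_nonneg_right hκ2 hx2
  have hκx3 : κ * x ^ 2 ≤ 1 * x ^ 2 := mul_le_mul_of_nonneg_right hκ1 hx2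
  have habs : |Real.log (cgq κ E s)| ≤ x ^ 2 := by
    rw [hlog, abs_le]
    have e1 := mul_le_mul_of_nonneg_left hlb1 hκ0.le
    have e2 := mul_le_mul_of_nonneg_left hub1 hκ0.le
    have e3 : (κ * x) ^ 2 = κ ^ 2 * x ^ 2 := by ring
    have e4 : (κ * x / 2) ^ 2 = κ ^ 2 * x ^ 2 / 4 := by ring
    have e5 : κ * (x - x ^ 2 / 2) = κ * x - κ * x ^ 2 / 2 := by ring
    rw [e4] at hlb2
    rw [e3] at hlb3
    rw [e5] at e1
    constructor <;> linarith
  have hx2s : x ^ 2 ≤ (E * Real.exp E) ^ 2 * s ^ 2 := by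
    rw [← mul_pow]
    exact pow_le_pow_left₀ hx0 hx1 2
  have hs21 : s ^ 2 ≤ 1 := by nlinarith
  have hMs : (E * Real.exp E) ^ 2 * s ^ 2 ≤ (E * Real.exp E) ^ 2 := by
    have := mul_le_mul_of_nonneg_left hs21 (sq_nonneg (E * Real.exp E))
    linarith
  have h1 := cg_exp (Real.log (cgq κ E s))
  rw [Real.exp_log hqpos] at h1
  refine h1.trans ?_
  have h2 : |Real.log (cgq κ E s)| ≤ (E * Real.exp E) ^ 2 * s ^ 2 := habs.trans hx2s
  have h3 : Real.exp |Real.log (cgq κ E s)| ≤ Real.exp ((E * Real.exp E) ^ 2) :=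
    Real.exp_le_exp.2 (h2.trans hMs)
  have h4 := mul_le_mul h2 h3 (Real.exp_pos _).le (by positivity)
  refine h4.trans (le_of_eq ?_)
  ring

/-- the jump of `l` as a function of the pressure ratio -/
private noncomputable def cgh (γ p : ℝ) : ℝ :=
  (1 / γ * Real.log p + Real.log ((γ - 1) * p + (γ + 1)) -
    Real.log ((γ + 1) * p + (γ - 1))) / 2

private theorem cgh_deriv {γ p : ℝ} (hγ : 1 < γ) (hp : 1 ≤ p) :
    HasDerivAt (cgh γ) ((γ ^ 2 - 1) * (p - 1) ^ 2 /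
      (2 * γ * p * ((γ - 1) * p + (γ + 1)) * ((γ + 1) * p + (γ - 1)))) p := by
  have hp0 : 0 < p := by linarith
  have hD1 : 0 < (γ - 1) * p + (γ + 1) := by nlinarith
  have hD2 : 0 < (γ + 1) * p + (γ - 1) := by nlinarith
  have h1 : HasDerivAt (fun p : ℝ => 1 / γ * Real.log p) (1 / γ * p⁻¹) p :=
    (Real.hasDerivAt_log hp0.ne').const_mul _
  have h2 : HasDerivAt (fun p : ℝ => Real.log ((γ - 1) * p + (γ + 1)))
      ((γ - 1) / ((γ - 1) * p + (γ + 1))) p := by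
    have h3 : HasDerivAt (fun p : ℝ => (γ - 1) * p + (γ + 1)) (γ - 1) p := by
      have := ((hasDerivAt_id p).const_mul (γ - 1)).add_const (γ + 1)
      simpa using this
    exact h3.log hD1.ne'
  have h4 : HasDerivAt (fun p : ℝ => Real.log ((γ + 1) * p + (γ - 1)))
      ((γ + 1) / ((γ + 1) * p + (γ - 1))) p := by
    have h3 : HasDerivAt (fun p : ℝ => (γ + 1) * p + (γ - 1)) (γ + 1) p := by
      have := ((hasDerivAt_id p).const_mul (γ + 1)).add_const (γ - 1)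
      simpa using this
    exact h3.log hD2.ne'
  have h5 := ((h1.add h2).sub h4).div_const 2
  refine h5.congr_deriv ?_
  have hg : γ ≠ 0 := by linarith
  have key : ∀ D1 D2 : ℝ, D1 = (γ - 1) * p + (γ + 1) → D2 = (γ + 1) * p + (γ - 1) → D1 ≠ 0 →
      D2 ≠ 0 → (1 / γ * p⁻¹ + (γ - 1) / D1 - (γ + 1) / D2) / 2 =
        (γ ^ 2 - 1) * (p - 1) ^ 2 / (2 * γ * p * D1 * D2) := by
    intro D1 D2 e1 e2 n1 n2
    field_simp
    rw [e1, e2]
    ring
  exact key _ _ rfl rfl hD1.ne' hD2.ne'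

private theorem cg_S0_eq {γ : ℝ} (hγ : 1 < γ) (y : ℝ) : S0 γ y = cgh γ (PR γ y) := by
  have hE : 0 ≤ 2 * γ / (γ - 1) := div_nonneg (by linarith) (by linarith)
  have hP : 1 ≤ PR γ y := by
    unfold PR
    exact Real.one_le_rpow (by linarith [cg_ng_nonneg y]) hE
  have hP0 : 0 < PR γ y := by linarith
  have hD1 : 0 < (γ - 1) * PR γ y + (γ + 1) := by nlinarith
  have hD2 : 0 < (γ + 1) * PR γ y + (γ - 1) := by nlinarith
  unfold S0 cgh
  rw [Real.log_mul (Real.rpow_pos_of_pos hP0 _).ne' (div_pos hD1 hD2).ne',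
    Real.log_rpow hP0, Real.log_div hD1.ne' hD2.ne']
  ring

private theorem cgh_one {γ : ℝ} : cgh γ 1 = 0 := by
  have h : (γ - 1) * 1 + (γ + 1) = (γ + 1) * 1 + (γ - 1) := by ring
  rw [cgh, Real.log_one, h]
  ring

theorem GG_of_nonneg {γ y : ℝ} (hy : 0 ≤ y) : GG γ y = k0 γ * y := by
  unfold GG
  rw [cg_PR_one hy, max_eq_left hy, sub_self, zero_div, sub_zero]

theorem cubic_G {γ : ℝ} (hγ : 1 < γ) :
    ∃ C : ℝ, 0 ≤ C ∧ Cubic (fun y => GG γ y / k0 γ - y) C := by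
  have hg0 : 0 < γ := by linarith
  have hg1 : 0 < γ - 1 := by linarith
  obtain ⟨E, hE⟩ : ∃ E, E = 2 * γ / (γ - 1) := ⟨_, rfl⟩
  obtain ⟨κ, hκ⟩ : ∃ κ, κ = (γ + 1) / (2 * γ) := ⟨_, rfl⟩
  have hκ0 : 0 < κ := by rw [hκ]; positivity
  have hκ1 : κ ≤ 1 := by
    rw [hκ, div_le_one (by positivity)]
    linarith
  have hE1 : 1 ≤ E := by
    rw [hE, le_div_iff₀ hg1]
    linarith
  have hE0 : 0 ≤ E := by linarith
  have hκE : κ * E = E - 1 := by
    rw [hκ, hE]
    field_simp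
    ring
  have hk0 : 0 < k0 γ := by unfold k0; positivity
  have hkE : k0 γ * γ = E := by
    rw [hE]
    unfold k0
    field_simp
  refine ⟨(E * Real.exp E) ^ 2 * Real.exp ((E * Real.exp E) ^ 2), by positivity, ?_⟩
  refine cg_cubic (F := fun s => s - ((1 + s) ^ E - 1) /
    (γ * √(1 + κ * ((1 + s) ^ E - 1))) / k0 γ) (F' := fun s => 1 - cgq κ E s)
    (by positivity) ?_ ?_ ?_ ?_
  · intro y
    unfold GG PR
    rw [← hκ, ← hE, sub_div, mul_div_cancel_left₀ _ hk0.ne']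
    have h1 : max y 0 - y = ng y := by
      unfold ng
      rw [← max_sub_sub_right, sub_self, zero_sub, max_comm]
    rw [← h1]
    ring
  · simp
  · intro s hs
    obtain ⟨x, hx⟩ : ∃ x, x = (1 + s) ^ E - 1 := ⟨_, rfl⟩
    have hx0 : 0 ≤ x := by rw [hx]; exact cg_x_nonneg hE0 hs
    have hpos : 0 < 1 + κ * x := by positivity
    have hsq : 0 < √(1 + κ * x) := Real.sqrt_pos.2 hpos
    have hsq2 : √(1 + κ * x) * √(1 + κ * x) = 1 + κ * x := Real.mul_self_sqrt hpos.le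
    have h1 : HasDerivAt (fun s : ℝ => (1 + s) ^ E - 1) (E * (1 + s) ^ (E - 1)) s :=
      (cg_deriv_pow hs).sub_const 1
    have h2 : HasDerivAt (fun s : ℝ => 1 + κ * ((1 + s) ^ E - 1))
        (κ * (E * (1 + s) ^ (E - 1))) s := (h1.const_mul κ).const_add 1
    have h3 : HasDerivAt (fun s : ℝ => √(1 + κ * ((1 + s) ^ E - 1)))
        (κ * (E * (1 + s) ^ (E - 1)) / (2 * √(1 + κ * x))) s := by
      have := h2.sqrt (by rw [← hx]; exact hpos.ne')
      rw [← hx] at this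
      exact this
    have h4 := ((h1.div (h3.const_mul γ) (by
      rw [← hx]
      positivity)).div_const (k0 γ))
    have h5 := (hasDerivAt_id s).sub h4
    refine h5.congr_deriv ?_
    rw [← hx]
    rw [cgq, ← hx]
    congr 1
    have hR : ((1 + s) ^ (E - 1)) = ((1 + s) ^ (E - 1)) := rfl
    generalize (1 + s) ^ (E - 1) = R at *
    generalize hr : √(1 + κ * x) = r at *
    have hr0 : r ≠ 0 := hsq.ne'
    rw [← hsq2]
    have hκx : κ * x = r * r - 1 := by linarith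
    have e1 : E * R * (γ * r) - x * (γ * (κ * (E * R) / (2 * r))) =
        E * R * γ * (r * r + 1) / (2 * r) := by
      have e2 : x * (γ * (κ * (E * R) / (2 * r))) = (κ * x) * (γ * (E * R) / (2 * r)) := by ring
      rw [e2, hκx]
      field_simp
      ring
    have e3 : 1 + κ * x / 2 = (r * r + 1) / 2 := by rw [hκx]; ring
    rw [e1, e3, ← hkE]
    field_simp
  · intro s hs hs2
    rw [abs_sub_comm]
    exact cgq_bound hκ0 hκ1 hE1 hκE hs hs2

theorem cubic_S {γ : ℝ} (hγ : 1 < γ) : ∃ C : ℝ, 0 ≤ C ∧ Cubic (S0 γ) C := by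
  have hg0 : 0 < γ := by linarith
  have hg1 : 0 < γ - 1 := by linarith
  obtain ⟨E, hE⟩ : ∃ E, E = 2 * γ / (γ - 1) := ⟨_, rfl⟩
  have hE1 : 1 ≤ E := by
    rw [hE, le_div_iff₀ hg1]
    linarith
  have hE0 : 0 ≤ E := by linarith
  have hγ2 : 0 < γ ^ 2 - 1 := by nlinarith
  refine ⟨(γ ^ 2 - 1) * (E * Real.exp E) ^ 2 * (E * Real.exp E), by positivity, ?_⟩
  refine cg_cubic (F := fun s => cgh γ ((1 + s) ^ E))
    (F' := fun s => (γ ^ 2 - 1) * ((1 + s) ^ E - 1) ^ 2 /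
      (2 * γ * (1 + s) ^ E * ((γ - 1) * (1 + s) ^ E + (γ + 1)) *
        ((γ + 1) * (1 + s) ^ E + (γ - 1))) * (E * (1 + s) ^ (E - 1)))
    (by positivity) ?_ ?_ ?_ ?_
  · intro y
    rw [cg_S0_eq hγ]
    unfold PR
    rw [← hE]
  · simp only [add_zero, Real.one_rpow]
    exact cgh_one
  · intro s hs
    have hp : 1 ≤ (1 + s) ^ E := Real.one_le_rpow (by linarith) hE0
    exact (cgh_deriv hγ hp).comp s (cg_deriv_pow hs)
  · intro s hs hs2
    have hx0 := cg_x_nonneg hE0 hs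
    have hx1 := cg_x_le hE0 hs hs2
    have hp : 1 ≤ (1 + s) ^ E := Real.one_le_rpow (by linarith) hE0
    have hR0 : 0 < (1 + s) ^ (E - 1) := Real.rpow_pos_of_pos (by linarith) _
    have hR1 : (1 + s) ^ (E - 1) ≤ Real.exp E := by
      refine (cg_pow_le (by linarith) hs).trans (Real.exp_le_exp.2 ?_)
      nlinarith
    have hden : 1 ≤ 2 * γ * (1 + s) ^ E * ((γ - 1) * (1 + s) ^ E + (γ + 1)) *
        ((γ + 1) * (1 + s) ^ E + (γ - 1)) := by
      have d1 : 1 ≤ 2 * γ * (1 + s) ^ E := by nlinarith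
      have d2 : 1 ≤ (γ - 1) * (1 + s) ^ E + (γ + 1) := by nlinarith
      have d3 : 1 ≤ (γ + 1) * (1 + s) ^ E + (γ - 1) := by nlinarith
      exact one_le_mul_of_one_le_of_one_le (one_le_mul_of_one_le_of_one_le d1 d2) d3
    have hnum : 0 ≤ (γ ^ 2 - 1) * ((1 + s) ^ E - 1) ^ 2 := by positivity
    have hn1 : 0 ≤ (γ ^ 2 - 1) * ((1 + s) ^ E - 1) ^ 2 /
      (2 * γ * (1 + s) ^ E * ((γ - 1) * (1 + s) ^ E + (γ + 1)) *
        ((γ + 1) * (1 + s) ^ E + (γ - 1))) := div_nonneg hnum (by linarith)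
    have hn2 : (γ ^ 2 - 1) * ((1 + s) ^ E - 1) ^ 2 /
      (2 * γ * (1 + s) ^ E * ((γ - 1) * (1 + s) ^ E + (γ + 1)) *
        ((γ + 1) * (1 + s) ^ E + (γ - 1))) ≤ (γ ^ 2 - 1) * ((E * Real.exp E) ^ 2 * s ^ 2) := by
      refine (div_le_self hnum hden).trans ?_
      refine mul_le_mul_of_nonneg_left ?_ hγ2.le
      rw [← mul_pow]
      exact pow_le_pow_left₀ hx0 hx1 2
    have hn3 : E * (1 + s) ^ (E - 1) ≤ E * Real.exp E := mul_le_mul_of_nonneg_left hR1 hE0
    rw [abs_of_nonneg (mul_nonneg hn1 (by positivity))]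
    refine (mul_le_mul hn2 hn3 (by positivity) (by positivity)).trans (le_of_eq ?_)
    ring

theorem S0_nonneg {γ : ℝ} (hγ : 1 < γ) (y : ℝ) : 0 ≤ S0 γ y := by
  have hE : 0 ≤ 2 * γ / (γ - 1) := div_nonneg (by linarith) (by linarith)
  have hP : 1 ≤ PR γ y := by
    unfold PR
    exact Real.one_le_rpow (by linarith [cg_ng_nonneg y]) hE
  have hγ2 : 0 ≤ γ ^ 2 - 1 := by nlinarith
  have hmono : MonotoneOn (cgh γ) (Ici 1) := by
    refine monotoneOn_of_deriv_nonneg (convex_Ici 1) ?_ ?_ ?_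
    · exact fun s hs => (cgh_deriv hγ hs).continuousAt.continuousWithinAt
    · intro s hs
      rw [interior_Ici] at hs
      exact (cgh_deriv hγ (le_of_lt hs)).differentiableAt.differentiableWithinAt
    · intro s hs
      rw [interior_Ici] at hs
      have hs1 : 1 < s := hs
      rw [(cgh_deriv hγ hs1.le).deriv]
      have d1 : 0 ≤ 2 * γ * s := by nlinarith
      have d2 : 0 ≤ (γ - 1) * s + (γ + 1) := by nlinarith
      have d3 : 0 ≤ (γ + 1) * s + (γ - 1) := by nlinarith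
      exact div_nonneg (mul_nonneg hγ2 (sq_nonneg _)) (mul_nonneg (mul_nonneg d1 d2) d3)
  have h := hmono (mem_Ici.2 le_rfl) (mem_Ici.2 hP) hP
  rw [cgh_one] at h
  rw [cg_S0_eq hγ]
  exact h

end Helper51.TH
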