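import Pool.Agent.Helper51.TH.Ins
import Pool.Agent.Helper51.TH.CurveG

/-!
TH-P14. The states of the Riemann fan split the waves.

SETTING. `L.z, R.z > 0`, `a = ra L R`, `b = rb L R`, `0 < L.z - a = R.z - b` (the intermediate states are away from
vacuum), `w = fan γ L R ξ`.
CASE 1, `ξ < u_m = L.u + hj a L`: `w = fan1 L a ξ`. Let `a'` be the amplitude reached: for `a ≥ 0`
`a' = max 0 (min a (..)) ∈ [0, a]`, `w = (L.z - a', L.u + k0 exp(L.l) a', L.l)`; for `a < 0` either `w = L`, `a' = 0`, or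
`w = (L.z - a, L.u + hj a, L.l + sj a)`, `a' = a`. In all cases `w.z = L.z - a' > 0`,
`w.u = L.u + hj a' L.z L.l`, `w.l = L.l + sj a' L.z` (`GG_of_nonneg`, `S0 = 0` for `y ≥ 0`). So `Rie L w a' 0`
(`hj 0 = 0`, as `GG 0 = 0`), i.e. `ra L w = a'`, `rb L w = 0` (`ra_eq`), `sg L w = 0`. And `Rie w R (a - a') b`: the `z`-equation is
clear; for `u`: `hj (a - a') w.z w.l = hj a L.z L.l - hj a' L.z L.l`: if `a ≥ 0` all three are linear
(`hj x z l = k0 exp l x` for `x ≥ 0`, and `w.l = L.l`), if `a < 0`: `a' = 0` (then `w = L`) or `a' = a`. So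
`ra w R = a - a'`, `rb w R = b`, and `sg w R = (R.l + sj b) - (w.l + sj (a - a') w.z) = sg L R` (`sj (a - a') = 0` or `w = L`).
`Split`: `p`: `exp(L.l/2)|a'| + exp(w.l/2)|a - a'| = exp(L.l/2)|a|` (if `a ≥ 0` then `w.l = L.l`; if `a < 0` one of the terms
vanishes and in the case `a' = 0` `w = L`); `q`: `0 + exp(R.l/2)|b|`; `s`: `0 + s`; `sp`: left; `sq`: `v₁.q = 0`; `a, na`: same
sign splitting; `b, nb`: `0 + b`; `qq2 v₁ v₂ = |0||..| + ap a' (a - a') + ap 0 b = 0` (both `≥ 0`, or one is `0`).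
CASE 2, `ξ ≥ u_m`: `w = mir (fan1 (mir R) b (-ξ))`: mirror image of case 1 (`ra_mir`; the intermediate velocity from the
right is `R.u - hj b R = u_m` by `Rie.u`, not needed here): `ra L w = a`, `rb L w = b - b'`, `ra w R = 0`, `rb w R = b'`,
`sg w R = 0`, `sg L w = sg L R`.
`fan_bounds`: `w` is one of the above: `|w.z - L.z| ≤ |a| + |b|`, `|w.u - L.u| ≤ |hj a| + |hj b|` (`hj` is monotone in the
amplitude, `|hj a'| ≤ |hj a|`), and `w.l ∈ {L.l, L.l + sj a, R.l, R.l + sj b}`.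
-/

open Set Filter Topology

namespace Helper51.TH

private theorem fs_hj0 (γ z l : ℝ) : hj γ 0 z l = 0 := by
  unfold hj
  rw [zero_div, GG_of_nonneg le_rfl, mul_zero, mul_zero]

private theorem fs_hjp (γ : ℝ) {a z : ℝ} (l : ℝ) (ha : 0 ≤ a) (hz : 0 < z) :
    hj γ a z l = k0 γ * Real.exp l * a := by
  unfold hj
  rw [GG_of_nonneg (div_nonneg ha hz.le)]
  have h1 : z * (a / z) = a := mul_div_cancel₀ a hz.ne'
  calc Real.exp l * z * (k0 γ * (a / z)) = k0 γ * Real.exp l * (z * (a / z)) := by ring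
    _ = k0 γ * Real.exp l * a := by rw [h1]

private theorem fs_sj {γ : ℝ} (hγ : 1 < γ) {a z : ℝ} (ha : 0 ≤ a) (hz : 0 < z) :
    sj γ a z = 0 := by
  obtain ⟨C, -, h1, -⟩ := cubic_S hγ
  exact h1 _ (div_nonneg ha hz.le)

private theorem fs_mono {γ : ℝ} (hγ : 1 < γ) {a b z : ℝ} (l : ℝ) (hz : 0 < z) (hab : a ≤ b) :
    hj γ a z l ≤ hj γ b z l := by
  unfold hj
  exact mul_le_mul_of_nonneg_left
    ((GG_strictMono hγ).monotone (div_le_div_of_nonneg_right hab hz.le))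
    (mul_nonneg (Real.exp_pos l).le hz.le)

private theorem fs_fan1 {γ : ℝ} (hγ : 1 < γ) {L : St} (hL : 0 < L.z) (a ξ : ℝ) :
    ∃ a', (fan1 γ L a ξ).z = L.z - a' ∧ (fan1 γ L a ξ).u = L.u + hj γ a' L.z L.l ∧
      (fan1 γ L a ξ).l = L.l + sj γ a' L.z ∧
      ((0 ≤ a ∧ 0 ≤ a' ∧ a' ≤ a) ∨ (a < 0 ∧ (a' = 0 ∨ a' = a))) := by
  unfold fan1
  split_ifs with h1 h2
  · refine ⟨_, rfl, ?_, ?_, Or.inl ⟨h1, le_max_left _ _, max_le h1 (min_le_left _ _)⟩⟩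
    · rw [fs_hjp γ L.l (le_max_left _ _) hL]
    · rw [fs_sj hγ (le_max_left _ _) hL, add_zero]
  · refine ⟨0, ?_, ?_, ?_, Or.inr ⟨not_le.1 h1, Or.inl rfl⟩⟩
    · rw [sub_zero]
    · rw [fs_hj0, add_zero]
    · rw [fs_sj hγ le_rfl hL, add_zero]
  · exact ⟨a, rfl, rfl, rfl, Or.inr ⟨not_le.1 h1, Or.inr rfl⟩⟩

private theorem fs_ng0 : ng 0 = 0 := by
  unfold ng
  simp

private theorem fs_ngp {x : ℝ} (hx : 0 ≤ x) : ng x = 0 := max_eq_right (by linarith)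

private theorem fs_left {γ : ℝ} (hγ : 1 < γ) {L R : St} (hL : 0 < L.z) (hR : 0 < R.z)
    (hm : 0 < L.z - ra γ L R) (ξ : ℝ) :
    0 < (fan1 γ L (ra γ L R) ξ).z ∧
    Split (wv γ L R) (wv γ L (fan1 γ L (ra γ L R) ξ)) (wv γ (fan1 γ L (ra γ L R) ξ) R) ∧
    |(fan1 γ L (ra γ L R) ξ).z - L.z| ≤ |ra γ L R| + |rb γ L R| ∧
    |(fan1 γ L (ra γ L R) ξ).z - R.z| ≤ |ra γ L R| + |rb γ L R| ∧
    |(fan1 γ L (ra γ L R) ξ).u - L.u| ≤
      |hj γ (ra γ L R) L.z L.l| + |hj γ (rb γ L R) R.z R.l| ∧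
    |(fan1 γ L (ra γ L R) ξ).u - R.u| ≤
      |hj γ (ra γ L R) L.z L.l| + |hj γ (rb γ L R) R.z R.l| ∧
    ((fan1 γ L (ra γ L R) ξ).l = L.l ∨
      (fan1 γ L (ra γ L R) ξ).l = L.l + sj γ (ra γ L R) L.z) := by
  have hr := rie_ra hγ hL hR
  obtain ⟨a', hz, hu, hl, hc⟩ := fs_fan1 hγ hL (ra γ L R) ξ
  generalize hw : fan1 γ L (ra γ L R) ξ = w at hz hu hl ⊢
  generalize ha : ra γ L R = a at *
  generalize hb : rb γ L R = b at *
  have hwz : 0 < w.z := by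
    rw [hz]
    rcases hc with ⟨h1, h2, h3⟩ | ⟨h1, h2 | h2⟩
    · linarith
    · rw [h2]; linarith
    · rw [h2]; exact hm
  have hrz := hr.z
  have hru := hr.u
  -- additivity of the jumps
  have hj1 : hj γ (a - a') w.z w.l = hj γ a L.z L.l - hj γ a' L.z L.l := by
    rcases hc with ⟨h1, h2, h3⟩ | ⟨h1, h2 | h2⟩
    · rw [fs_hjp γ _ (by linarith) hwz, fs_hjp γ _ h1 hL, fs_hjp γ _ h2 hL, hl,
        fs_sj hγ h2 hL, add_zero]
      ring
    · rw [h2, fs_hj0, sub_zero, sub_zero, hl, hz, h2, fs_sj hγ le_rfl hL, add_zero, sub_zero]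
    · rw [h2, sub_self, sub_self, fs_hj0]
  have hs1 : sj γ a' L.z + sj γ (a - a') w.z = sj γ a L.z := by
    rcases hc with ⟨h1, h2, h3⟩ | ⟨h1, h2 | h2⟩
    · rw [fs_sj hγ h2 hL, fs_sj hγ (by linarith) hwz, fs_sj hγ h1 hL, add_zero]
    · rw [h2, fs_sj hγ le_rfl hL, zero_add, hz, h2, sub_zero, sub_zero]
    · rw [h2, sub_self, fs_sj hγ le_rfl hwz, add_zero]
  have hr1 : Rie γ L w a' 0 := ⟨by rw [hz, sub_zero], by rw [hu, fs_hj0]; ring⟩
  have hr2 : Rie γ w R (a - a') b := ⟨by rw [hz, ← hrz]; ring, by rw [hj1, hu]; linarith⟩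
  obtain ⟨e1, e2⟩ := ra_eq hγ hL hwz hr1
  obtain ⟨e3, e4⟩ := ra_eq hγ hwz hR hr2
  have hs2 : sg γ L w = 0 := by
    unfold sg
    rw [e1, e2, fs_sj hγ le_rfl hwz, hl]
    ring
  have hs3 : sg γ w R = sg γ L R := by
    unfold sg
    rw [e3, e4, ha, hb, hl, ← hs1]
    ring
  have habs : |a'| + |a - a'| = |a| := by
    rcases hc with ⟨h1, h2, h3⟩ | ⟨h1, h2 | h2⟩
    · rw [abs_of_nonneg h1, abs_of_nonneg h2, abs_of_nonneg (by linarith)]
      ring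
    · rw [h2, abs_zero, sub_zero, zero_add]
    · rw [h2, sub_self, abs_zero, add_zero]
  have hng : ng a' + ng (a - a') = ng a := by
    rcases hc with ⟨h1, h2, h3⟩ | ⟨h1, h2 | h2⟩
    · rw [fs_ngp h1, fs_ngp h2, fs_ngp (by linarith), add_zero]
    · rw [h2, fs_ng0, sub_zero, zero_add]
    · rw [h2, sub_self, fs_ng0, add_zero]
  have hap : ap a' (a - a') = 0 := by
    unfold ap
    rcases hc with ⟨h1, h2, h3⟩ | ⟨h1, h2 | h2⟩
    · rw [fs_ngp h2, fs_ngp (by linarith : 0 ≤ a - a')]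
      ring
    · rw [h2, fs_ng0, abs_zero]
      ring
    · rw [h2, sub_self, fs_ng0, abs_zero]
      ring
  have hjb : |hj γ a' L.z L.l| ≤ |hj γ a L.z L.l| ∧
      |hj γ a L.z L.l - hj γ a' L.z L.l| ≤ |hj γ a L.z L.l| := by
    rcases hc with ⟨h1, h2, h3⟩ | ⟨h1, h2 | h2⟩
    · have g1 := fs_mono hγ L.l hL h2
      have g2 := fs_mono hγ L.l hL h3
      rw [fs_hj0] at g1
      rw [abs_of_nonneg g1, abs_of_nonneg (g1.trans g2), abs_of_nonneg (by linarith)]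
      constructor <;> linarith
    · rw [h2, fs_hj0, abs_zero, sub_zero]
      exact ⟨abs_nonneg _, le_rfl⟩
    · rw [h2, sub_self, abs_zero]
      exact ⟨le_rfl, abs_nonneg _⟩
  have hpp : Real.exp (L.l / 2) * |a'| + Real.exp (w.l / 2) * |a - a'| =
      Real.exp (L.l / 2) * |a| := by
    rcases hc with ⟨h1, h2, h3⟩ | ⟨h1, h2 | h2⟩
    · rw [hl, fs_sj hγ h2 hL, add_zero, ← habs]
      ring
    · rw [hl, h2, fs_sj hγ le_rfl hL, add_zero, abs_zero, sub_zero]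
      ring
    · rw [h2, sub_self, abs_zero]
      ring
  refine ⟨hwz, ?_, ?_, ?_, ?_, ?_, ?_⟩
  · unfold wv
    rw [e1, e2, e3, e4, ha, hb, hs2, hs3]
    refine ⟨hpp, ?_, ?_, Or.inl ?_, Or.inr ?_, habs, hng, ?_, ?_, ?_⟩
    · show Real.exp (w.l / 2) * |(0:ℝ)| + Real.exp (R.l / 2) * |b| = Real.exp (R.l / 2) * |b|
      rw [abs_zero, mul_zero, zero_add]
    · show |(0:ℝ)| / 2 + |sg γ L R| / 2 = |sg γ L R| / 2
      rw [abs_zero, zero_div, zero_add]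
    · show |(0:ℝ)| / 2 = 0
      rw [abs_zero, zero_div]
    · show Real.exp (w.l / 2) * |(0:ℝ)| = 0
      rw [abs_zero, mul_zero]
    · show |(0:ℝ)| + |b| = |b|
      rw [abs_zero, zero_add]
    · show ng 0 + ng b = ng b
      rw [fs_ng0, zero_add]
    · show |(0:ℝ)| * |a - a'| + ap a' (a - a') + ap 0 b = 0
      unfold ap at hap ⊢
      rw [hap, abs_zero, fs_ng0]
      ring
  · rw [hz, show L.z - a' - L.z = -a' by ring, abs_neg]
    have := abs_nonneg (a - a')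
    have := abs_nonneg b
    linarith
  · rw [show w.z - R.z = (a - a') - b by rw [hz]; linarith]
    have h1 := abs_sub (a - a') b
    have h2 := abs_nonneg a'
    linarith
  · rw [hu, add_sub_cancel_left]
    have := abs_nonneg (hj γ b R.z R.l)
    linarith [hjb.1]
  · rw [show w.u - R.u = -((hj γ a L.z L.l - hj γ a' L.z L.l) + hj γ b R.z R.l) by
      rw [hu]; linarith, abs_neg]
    have h1 := abs_add_le (hj γ a L.z L.l - hj γ a' L.z L.l) (hj γ b R.z R.l)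
    linarith [hjb.2]
  · rcases hc with ⟨h1, h2, h3⟩ | ⟨h1, h2 | h2⟩
    · left
      rw [hl, fs_sj hγ h2 hL, add_zero]
    · left
      rw [hl, h2, fs_sj hγ le_rfl hL, add_zero]
    · right
      rw [hl, h2]

private def fsw (v : Wv) : Wv := ⟨v.q, v.p, v.b, v.a, v.s⟩

private theorem fs_wv {γ : ℝ} (hγ : 1 < γ) {L R : St} (hL : 0 < L.z) (hR : 0 < R.z) :
    wv γ (mir R) (mir L) = fsw (wv γ L R) := by
  obtain ⟨h1, h2⟩ := ra_mir hγ hL hR
  have h3 : sg γ (mir R) (mir L) = - sg γ L R := by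
    unfold sg
    rw [h1, h2]
    show (L.l + sj γ (ra γ L R) L.z) - (R.l + sj γ (rb γ L R) R.z) = _
    ring
  unfold wv fsw
  rw [h1, h2, h3, abs_neg]
  rfl

private theorem fs_split {v v₁ v₂ : Wv} (h : Split (fsw v) (fsw v₂) (fsw v₁)) :
    Split v v₁ v₂ := by
  obtain ⟨hp, hq, hs, hsp, hsq, ha, hna, hb, hnb, hqq⟩ := h
  refine ⟨?_, ?_, ?_, hsq.imp id id, hsp.imp id id, ?_, ?_, ?_, ?_, ?_⟩
  · rw [add_comm]; exact hq
  · rw [add_comm]; exact hp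
  · rw [add_comm]; exact hs
  · rw [add_comm]; exact hb
  · rw [add_comm]; exact hnb
  · rw [add_comm]; exact ha
  · rw [add_comm]; exact hna
  · unfold qq2 ap fsw at hqq
    unfold qq2 ap
    simp only at hqq
    linarith

private theorem fs_right {γ : ℝ} (hγ : 1 < γ) {L R : St} (hL : 0 < L.z) (hR : 0 < R.z)
    (hm : 0 < L.z - ra γ L R) (ξ : ℝ) :
    0 < (mir (fan1 γ (mir R) (rb γ L R) ξ)).z ∧
    Split (wv γ L R) (wv γ L (mir (fan1 γ (mir R) (rb γ L R) ξ)))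
      (wv γ (mir (fan1 γ (mir R) (rb γ L R) ξ)) R) ∧
    |(mir (fan1 γ (mir R) (rb γ L R) ξ)).z - L.z| ≤ |ra γ L R| + |rb γ L R| ∧
    |(mir (fan1 γ (mir R) (rb γ L R) ξ)).z - R.z| ≤ |ra γ L R| + |rb γ L R| ∧
    |(mir (fan1 γ (mir R) (rb γ L R) ξ)).u - L.u| ≤
      |hj γ (ra γ L R) L.z L.l| + |hj γ (rb γ L R) R.z R.l| ∧
    |(mir (fan1 γ (mir R) (rb γ L R) ξ)).u - R.u| ≤
      |hj γ (ra γ L R) L.z L.l| + |hj γ (rb γ L R) R.z R.l| ∧
    ((mir (fan1 γ (mir R) (rb γ L R) ξ)).l = R.l ∨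
      (mir (fan1 γ (mir R) (rb γ L R) ξ)).l = R.l + sj γ (rb γ L R) R.z) := by
  obtain ⟨h1, h2⟩ := ra_mir hγ hL hR
  have hr := rie_ra hγ hL hR
  have hrz := hr.z
  have key := fs_left hγ (L := mir R) (R := mir L) hR hL
    (by rw [h1]; show 0 < R.z - rb γ L R; linarith) ξ
  rw [h1, h2] at key
  generalize fan1 γ (mir R) (rb γ L R) ξ = w' at key ⊢
  obtain ⟨k1, k2, k3, k4, k5, k6, k7⟩ := key
  have hw' : w' = mir (mir w') := by
    ext
    · rfl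
    · show w'.u = - -w'.u
      rw [neg_neg]
    · rfl
  have hwz : 0 < (mir w').z := k1
  refine ⟨k1, ?_, ?_, ?_, ?_, ?_, k7⟩
  · rw [hw'] at k2
    rw [fs_wv hγ hL hR, fs_wv hγ hwz hR, fs_wv hγ hL hwz] at k2
    exact fs_split k2
  · rw [add_comm]
    exact k4
  · rw [add_comm]
    exact k3
  · rw [add_comm]
    show |-w'.u - L.u| ≤ _
    rw [← abs_neg, show -(-w'.u - L.u) = w'.u - -L.u by ring]
    exact k6
  · rw [add_comm]
    show |-w'.u - R.u| ≤ _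
    rw [← abs_neg, show -(-w'.u - R.u) = w'.u - -R.u by ring]
    exact k5

theorem fan_split {γ : ℝ} (hγ : 1 < γ) {L R : St} (hL : 0 < L.z) (hR : 0 < R.z)
    (hm : 0 < L.z - ra γ L R) (ξ : ℝ) :
    0 < (fan γ L R ξ).z ∧
    Split (wv γ L R) (wv γ L (fan γ L R ξ)) (wv γ (fan γ L R ξ) R) := by
  unfold fan
  split_ifs with h
  · have key := fs_left hγ hL hR hm ξ
    exact ⟨key.1, key.2.1⟩
  · have key := fs_right hγ hL hR hm (-ξ)
    exact ⟨key.1, key.2.1⟩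

theorem fan_bounds {γ : ℝ} (hγ : 1 < γ) {L R : St} (hL : 0 < L.z) (hR : 0 < R.z)
    (hm : 0 < L.z - ra γ L R) (ξ : ℝ) :
    |(fan γ L R ξ).z - L.z| ≤ |ra γ L R| + |rb γ L R| ∧
    |(fan γ L R ξ).z - R.z| ≤ |ra γ L R| + |rb γ L R| ∧
    |(fan γ L R ξ).u - L.u| ≤ |hj γ (ra γ L R) L.z L.l| + |hj γ (rb γ L R) R.z R.l| ∧
    |(fan γ L R ξ).u - R.u| ≤ |hj γ (ra γ L R) L.z L.l| + |hj γ (rb γ L R) R.z R.l| ∧
    ((fan γ L R ξ).l = L.l ∨ (fan γ L R ξ).l = L.l + sj γ (ra γ L R) L.z ∨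
      (fan γ L R ξ).l = R.l ∨ (fan γ L R ξ).l = R.l + sj γ (rb γ L R) R.z) := by
  unfold fan
  split_ifs with h
  · obtain ⟨-, -, k1, k2, k3, k4, k5⟩ := fs_left hγ hL hR hm ξ
    refine ⟨k1, k2, k3, k4, ?_⟩
    rcases k5 with k5 | k5
    · exact Or.inl k5
    · exact Or.inr (Or.inl k5)
  · obtain ⟨-, -, k1, k2, k3, k4, k5⟩ := fs_right hγ hL hR hm (-ξ)
    exact ⟨k1, k2, k3, k4, Or.inr (Or.inr k5)⟩

end Helper51.TH
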