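import Pool.Agent.Helper51.TH.DelSt
import Pool.Agent.Helper51.TH.SolveBd

/-!
TH-P16. Oscillation bounds from the functionals.

PROOF. `list_osc`: for consecutive states `jump_bound` (all amplitudes are `≤ Am ≤ z₁/2`) gives
`|Δz| ≤ |a| + |b|`, `|Δu| ≤ C (|a| + |b|)`, `|Δl| ≤ |sg| + C (ng a ^ 3 + ng b ^ 3) ≤ 2 s + C' (|a| + |b|)`. Sum over the list
(induction; `tvl f (L :: R :: t) = |f R - f L| + tvl f (R :: t)`).
`osc_le`: the difference of the values at two members of a list is at most `tvl`.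
`Am_le`: `|a| ≤ exp(Λ/2) p` since `|L.l| ≤ Λ`; `As_bounds`: `sin θ Pq ≤ As ≤ FF` (`θ + μ VV ≤ π/2`, `Qp ≥ 0`).
`FF_le`: `As ≤ Pq ≤ exp(Λ/2) Am`, `Qp ≤ 2 Am²`.
-/

open Set Filter Topology

namespace Helper51.TH

/-- The variation of a function along a list of states. -/
noncomputable def tvl (f : St → ℝ) : List St → ℝ
  | [] => 0
  | [_] => 0
  | L :: R :: t => |f R - f L| + tvl f (R :: t)

theorem tvl_nonneg (f : St → ℝ) (ws : List St) : 0 ≤ tvl f ws := by
  induction ws using tvl.induct with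
  | case1 => simp [tvl]
  | case2 w => simp [tvl]
  | case3 L R t ih =>
    rw [tvl]
    exact add_nonneg (abs_nonneg _) ih

private theorem tvl_le_cons (f : St → ℝ) (L : St) (t : List St) : tvl f t ≤ tvl f (L :: t) := by
  cases t with
  | nil => simp [tvl]
  | cons R t =>
    rw [tvl.eq_3]
    linarith [abs_nonneg (f R - f L)]

private theorem osc_head (f : St → ℝ) (t : List St) : ∀ L w : St, w ∈ L :: t →
    |f L - f w| ≤ tvl f (L :: t) := by
  induction t with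
  | nil =>
    intro L w hw
    rw [List.mem_singleton] at hw
    rw [hw]
    simp [tvl]
  | cons R t ih =>
    intro L w hw
    rcases List.mem_cons.1 hw with h | h
    · rw [h, sub_self, abs_zero]
      exact tvl_nonneg f _
    · have h1 := ih R w h
      rw [tvl.eq_3]
      have h2 : f L - f w = -(f R - f L) + (f R - f w) := by ring
      rw [h2]
      refine (abs_add_le _ _).trans ?_
      rw [abs_neg]
      linarith

theorem osc_le (f : St → ℝ) {ws : List St} {v w : St} (hv : v ∈ ws) (hw : w ∈ ws) :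
    |f v - f w| ≤ tvl f ws := by
  induction ws with
  | nil => simp at hv
  | cons L t ih =>
    rcases List.mem_cons.1 hv with h | h
    · rw [h]
      exact osc_head f t L w hw
    · rcases List.mem_cons.1 hw with h' | h'
      · rw [h', abs_sub_comm]
        exact osc_head f t L v hv
      · exact (ih h h').trans (tvl_le_cons f L t)

private theorem Am_waves (γ : ℝ) (L R : St) (t : List St) : Am (waves γ (L :: R :: t)) =
    (|ra γ L R| + |rb γ L R|) + Am (waves γ (R :: t)) := by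
  simp [waves, Am, wv]

private theorem VV_cons (γ : ℝ) (L R : St) (t : List St) : VV γ (L :: R :: t) =
    |sg γ L R| / 2 + VV γ (R :: t) := by
  simp [VV, waves, Vc, wv]

private theorem Pq_waves (γ : ℝ) (L R : St) (t : List St) : Pq (waves γ (L :: R :: t)) =
    (Real.exp (L.l / 2) * |ra γ L R| + Real.exp (R.l / 2) * |rb γ L R|) +
      Pq (waves γ (R :: t)) := by
  simp [waves, Pq, wv]

private theorem rg_ng_le (x : ℝ) : ng x ≤ |x| := by
  unfold ng
  exact max_le (neg_le_abs x) (abs_nonneg x)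

private theorem rg_ng_nn (x : ℝ) : 0 ≤ ng x := le_max_right _ _

private theorem rg_cube {x r : ℝ} (h : |x| ≤ r) : ng x ^ 3 ≤ r ^ 2 * |x| := by
  have h1 := rg_ng_le x
  have h2 := rg_ng_nn x
  have h3 := abs_nonneg x
  calc ng x ^ 3 ≤ |x| ^ 3 := by gcongr
    _ = |x| ^ 2 * |x| := by ring
    _ ≤ r ^ 2 * |x| := by gcongr

theorem list_osc {γ z₁ z₂ Λ : ℝ} (hγ : 1 < γ) (hz : 0 < z₁) : ∃ C : ℝ, 0 < C ∧
    ∀ ws : List St, (∀ w ∈ ws, InB z₁ z₂ Λ w) → Am (waves γ ws) ≤ z₁ / 2 →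
      tvl St.z ws ≤ Am (waves γ ws) ∧ tvl St.u ws ≤ C * Am (waves γ ws) ∧
      tvl St.l ws ≤ 2 * VV γ ws + C * Am (waves γ ws) := by
  obtain ⟨C, hC, hJ⟩ := jump_bound (z₂ := z₂) (Λ := Λ) hγ hz
  refine ⟨C * (1 + (z₁ / 2) ^ 2), by positivity, fun ws => ?_⟩
  induction ws using tvl.induct with
  | case1 =>
    intro _ _
    simp [tvl, waves, Am, VV, Vc]
  | case2 w =>
    intro _ _
    simp [tvl, waves, Am, VV, Vc]
  | case3 L R t ih =>
    intro hB hA
    have hBL : InB z₁ z₂ Λ L := hB L (by simp)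
    have hBR : InB z₁ z₂ Λ R := hB R (by simp)
    have hn := Am_nonneg (waves γ (R :: t))
    have hpa := abs_nonneg (ra γ L R)
    have hpb := abs_nonneg (rb γ L R)
    rw [Am_waves] at hA
    obtain ⟨i1, i2, i3⟩ := ih (fun w hw => hB w (List.mem_cons_of_mem _ hw)) (by linarith)
    obtain ⟨j1, j2, j3⟩ := hJ L R hBL hBR (by linarith) (by linarith)
    have k1 := rg_cube (x := ra γ L R) (r := z₁ / 2) (by linarith)
    have k2 := rg_cube (x := rb γ L R) (r := z₁ / 2) (by linarith)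
    rw [Am_waves, VV_cons, tvl.eq_3, tvl.eq_3, tvl.eq_3, abs_sub_comm R.z, abs_sub_comm R.u]
    refine ⟨by linarith, ?_, ?_⟩
    · have h1 : C * (|ra γ L R| + |rb γ L R|) ≤
          C * (1 + (z₁ / 2) ^ 2) * (|ra γ L R| + |rb γ L R|) := by
        have : 0 ≤ C * (z₁ / 2) ^ 2 * (|ra γ L R| + |rb γ L R|) := by positivity
        nlinarith
      rw [mul_add]
      linarith
    · have h1 : |R.l - L.l| ≤ |sg γ L R| + |R.l - L.l - sg γ L R| := by
        have h2 : R.l - L.l = sg γ L R + (R.l - L.l - sg γ L R) := by ring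
        calc |R.l - L.l| = |sg γ L R + (R.l - L.l - sg γ L R)| := by rw [← h2]
          _ ≤ _ := abs_add_le _ _
      have h3 : C * (ng (ra γ L R) ^ 3 + ng (rb γ L R) ^ 3) ≤
          C * ((z₁ / 2) ^ 2 * |ra γ L R| + (z₁ / 2) ^ 2 * |rb γ L R|) :=
        mul_le_mul_of_nonneg_left (add_le_add k1 k2) hC.le
      have h4 : 0 ≤ C * (|ra γ L R| + |rb γ L R|) := by positivity
      rw [mul_add (C * (1 + (z₁ / 2) ^ 2))]
      nlinarith

private theorem exp_up {Λ l x : ℝ} (hl : |l| ≤ Λ) (hx : 0 ≤ x) :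
    Real.exp (l / 2) * x ≤ Real.exp (Λ / 2) * x := by
  have h1 := (abs_le.1 hl).2
  exact mul_le_mul_of_nonneg_right (Real.exp_le_exp.2 (by linarith)) hx

private theorem exp_dn {Λ l x : ℝ} (hl : |l| ≤ Λ) (hx : 0 ≤ x) :
    x ≤ Real.exp (Λ / 2) * (Real.exp (l / 2) * x) := by
  have h1 := (abs_le.1 hl).1
  have h2 : 1 ≤ Real.exp (Λ / 2 + l / 2) := Real.one_le_exp (by linarith)
  rw [← mul_assoc, ← Real.exp_add]
  exact le_mul_of_one_le_left hx h2

private theorem Am_Pq {γ z₁ z₂ Λ : ℝ} (ws : List St) : (∀ w ∈ ws, InB z₁ z₂ Λ w) →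
    Am (waves γ ws) ≤ Real.exp (Λ / 2) * Pq (waves γ ws) ∧
    Pq (waves γ ws) ≤ Real.exp (Λ / 2) * Am (waves γ ws) := by
  induction ws using tvl.induct with
  | case1 => intro _; simp [waves, Am, Pq]
  | case2 w => intro _; simp [waves, Am, Pq]
  | case3 L R t ih =>
    intro hB
    have hBL : |L.l| ≤ Λ := (hB L (by simp)).2.2
    have hBR : |R.l| ≤ Λ := (hB R (by simp)).2.2
    obtain ⟨i1, i2⟩ := ih (fun w hw => hB w (List.mem_cons_of_mem _ hw))
    rw [Am_waves, Pq_waves, mul_add, mul_add, mul_add, mul_add]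
    have a1 := exp_up hBL (abs_nonneg (ra γ L R))
    have a2 := exp_up hBR (abs_nonneg (rb γ L R))
    have a3 := exp_dn hBL (abs_nonneg (ra γ L R))
    have a4 := exp_dn hBR (abs_nonneg (rb γ L R))
    constructor <;> linarith

private theorem As_bd {γ θ μ V₁ : ℝ} (hθ : 0 < θ) (hμ : 1 < μ)
    (hV : 2 * θ + μ * V₁ ≤ Real.pi / 2) {ws : List St} (h0 : VV γ ws ≤ V₁) :
    0 < Real.sin θ ∧ Real.sin θ * Pq (waves γ ws) ≤ As θ μ 0 0 (waves γ ws) ∧
      As θ μ 0 0 (waves γ ws) ≤ Pq (waves γ ws) := by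
  have hVn : 0 ≤ VV γ ws := Vc_nonneg (waves_nonneg γ ws)
  have hpi := Real.pi_pos
  have h1 : 0 ≤ μ * V₁ := mul_nonneg (by linarith) (by linarith)
  have h2 : μ * (0 + 0 + Vc (waves γ ws)) ≤ μ * V₁ :=
    mul_le_mul_of_nonneg_left (by rw [add_zero, zero_add]; exact h0) (by linarith)
  have h3 := As_bounds (θ := θ) (μ := μ) (L0 := 0) (R0 := 0) (W := waves γ ws) hθ.le
    (by linarith) (waves_nonneg γ ws) le_rfl le_rfl (by linarith)
  exact ⟨Real.sin_pos_of_pos_of_lt_pi hθ (by linarith), h3.1, h3.2.1⟩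

theorem Am_le {γ z₁ z₂ Λ θ μ V₁ K : ℝ} (hθ : 0 < θ) (hμ : 1 < μ) (hK : 0 < K)
    (hV : 2 * θ + μ * V₁ ≤ Real.pi / 2) {ws : List St} (hB : ∀ w ∈ ws, InB z₁ z₂ Λ w)
    (h0 : VV γ ws ≤ V₁) :
    Am (waves γ ws) ≤ Real.exp (Λ / 2) / Real.sin θ * FF γ θ μ K ws := by
  obtain ⟨h1, h2, -⟩ := As_bd hθ hμ hV h0
  have h3 := (Am_Pq (γ := γ) ws hB).1
  have h4 := mul_nonneg hK.le (Qp_nonneg (waves γ ws))
  have h5 : Real.sin θ * Pq (waves γ ws) ≤ FF γ θ μ K ws := by
    unfold FF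
    linarith
  have h6 : Pq (waves γ ws) ≤ FF γ θ μ K ws / Real.sin θ := by
    rw [le_div_iff₀ h1]
    linarith
  calc Am (waves γ ws) ≤ Real.exp (Λ / 2) * Pq (waves γ ws) := h3
    _ ≤ Real.exp (Λ / 2) * (FF γ θ μ K ws / Real.sin θ) := by gcongr
    _ = Real.exp (Λ / 2) / Real.sin θ * FF γ θ μ K ws := by ring

theorem FF_le {γ z₁ z₂ Λ θ μ V₁ K : ℝ} (hθ : 0 < θ) (hμ : 1 < μ) (hK : 0 < K)
    (hV : 2 * θ + μ * V₁ ≤ Real.pi / 2) {ws : List St} (hB : ∀ w ∈ ws, InB z₁ z₂ Λ w)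
    (h0 : VV γ ws ≤ V₁) :
    FF γ θ μ K ws ≤ Real.exp (Λ / 2) * Am (waves γ ws) + 2 * K * Am (waves γ ws) ^ 2 := by
  obtain ⟨-, -, h2⟩ := As_bd hθ hμ hV h0
  have h3 := (Am_Pq (γ := γ) ws hB).2
  have h4 := mul_le_mul_of_nonneg_left (Qp_le (waves γ ws)) hK.le
  unfold FF
  linarith

end Helper51.TH
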