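import Pool.Agent.Helper51.TH.Ins

/-!
TH-P15. Windows of sequences.

PROOF. `win U M = [U (-M), ..., U M]`. `ileave f (win U (M+1)) = [U(-M-1), f(U(-M-1), U(-M)), U(-M), ..., U(M+1)]`. If
`U' i = f (U (i-1)) (U i)` then `win U' M = [f(U(-M-1), U(-M)), ..., f(U(M-1), U M)]` is the sublist of the inserted states
without the last one; if `U' i = f (U i) (U (i+1))` it is `[f(U(-M), U(-M+1)), ..., f(U M, U(M+1))]`, the inserted states without the
first one. Prove first for lists: the list of the inserted states `ins f ws` (`zipWith f ws ws.tail`) is a sublist of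
`ileave f ws`, then that `win U' M` is `(ins f (win U (M+1))).dropLast` resp. `.tail`.
`infix`: consecutive elements of `win U M` are `U i, U (i+1)`.
`win_sub`: the smaller window is a sublist (even infix) of the larger one.
-/

open Set Filter Topology

namespace Helper51.TH

/-- The window `U (-M), ..., U M`. -/
def win (U : ℤ → St) (M : ℕ) : List St := (List.range (2 * M + 1)).map fun j : ℕ => U ((j : ℤ) - M)

theorem mem_win {U : ℤ → St} {M : ℕ} {w : St} (h : w ∈ win U M) : ∃ i : ℤ, w = U i := by
  unfold win at h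
  obtain ⟨j, -, rfl⟩ := List.mem_map.mp h
  exact ⟨_, rfl⟩

theorem infix_win {U : ℤ → St} {M : ℕ} {L R : St} (h : [L, R] <:+: win U M) :
    ∃ i : ℤ, L = U i ∧ R = U (i + 1) := by
  obtain ⟨s, t, h⟩ := h
  have h1 : (s ++ [L, R] ++ t)[s.length]? = some L := by simp
  have h2 : (s ++ [L, R] ++ t)[s.length + 1]? = some R := by simp
  rw [h] at h1 h2
  unfold win at h1 h2
  rw [List.getElem?_map] at h1 h2
  obtain ⟨a, ha, ha2⟩ := Option.map_eq_some_iff.mp h1
  obtain ⟨b, hb, hb2⟩ := Option.map_eq_some_iff.mp h2
  obtain ⟨h3, h4⟩ := List.getElem?_eq_some_iff.mp ha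
  obtain ⟨h5, h6⟩ := List.getElem?_eq_some_iff.mp hb
  rw [List.getElem_range] at h4 h6
  refine ⟨(s.length : ℤ) - M, ?_, ?_⟩
  · rw [← ha2, ← h4]
  · rw [← hb2, ← h6]
    congr 1
    push_cast
    ring

private theorem win_succ (U : ℤ → St) (M : ℕ) :
    win U (M + 1) = U (-((M : ℤ) + 1)) :: (win U M ++ [U ((M : ℤ) + 1)]) := by
  unfold win
  rw [show 2 * (M + 1) + 1 = (2 * M + 2) + 1 by ring, List.range_succ, List.map_append,
    show 2 * M + 2 = (2 * M + 1) + 1 by ring, List.range_succ_eq_map, List.map_cons, List.map_map,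
    List.cons_append]
  have e1 : U (((0 : ℕ) : ℤ) - ((M + 1 : ℕ) : ℤ)) = U (-((M : ℤ) + 1)) := by
    rw [show ((0 : ℕ) : ℤ) - ((M + 1 : ℕ) : ℤ) = -((M : ℤ) + 1) by push_cast; ring]
  have e2 : List.map ((fun j : ℕ => U ((j : ℤ) - ((M + 1 : ℕ) : ℤ))) ∘ Nat.succ)
      (List.range (2 * M + 1)) = List.map (fun j : ℕ => U ((j : ℤ) - (M : ℤ)))
      (List.range (2 * M + 1)) := by
    apply List.map_congr_left
    intro j _
    simp only [Function.comp_apply]
    congr 1
    push_cast
    ring
  have e3 : List.map (fun j : ℕ => U ((j : ℤ) - ((M + 1 : ℕ) : ℤ))) [2 * M + 1 + 1] =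
      [U ((M : ℤ) + 1)] := by
    simp only [List.map_cons, List.map_nil]
    congr 2
    push_cast
    ring
  rw [e1, e2, e3]

theorem win_sub (U : ℤ → St) {M M' : ℕ} (h : M ≤ M') : (win U M).Sublist (win U M') := by
  induction M', h using Nat.le_induction with
  | base => exact List.Sublist.refl _
  | succ n _ ih =>
    rw [win_succ]
    exact (ih.trans (List.sublist_append_left _ _)).cons _

private theorem win_ileave (f : St → St → St) (n : ℕ) : ∀ g : ℕ → St,
    ((List.range n).map fun j => f (g j) (g (j + 1))).Sublist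
      (ileave f ((List.range (n + 1)).map g)) := by
  induction n with
  | zero => intro g; simp
  | succ n ih =>
    intro g
    have h1 := ih (fun j => g (j + 1))
    have h2 : (List.range (n + 1)).map (fun j => g (j + 1)) =
        g 1 :: (List.range n).map (fun j => g (j + 2)) := by
      rw [List.range_succ_eq_map, List.map_cons, List.map_map]
      rfl
    have h3 : (List.range (n + 1 + 1)).map g =
        g 0 :: g 1 :: (List.range n).map (fun j => g (j + 2)) := by
      rw [List.range_succ_eq_map, List.map_cons, List.map_map, ← h2]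
      rfl
    have h4 : (List.range (n + 1)).map (fun j => f (g j) (g (j + 1))) =
        f (g 0) (g 1) :: (List.range n).map (fun j => f (g (j + 1)) (g (j + 1 + 1))) := by
      rw [List.range_succ_eq_map, List.map_cons, List.map_map]
      rfl
    rw [h3, h4]
    rw [h2] at h1
    show List.Sublist _ (g 0 :: f (g 0) (g 1) :: ileave f (g 1 :: (List.range n).map _))
    exact (h1.cons_cons _).cons _

theorem win_step {f : St → St → St} {U U' : ℤ → St}
    (h : (∀ i, U' i = f (U (i - 1)) (U i)) ∨ (∀ i, U' i = f (U i) (U (i + 1)))) (M : ℕ) :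
    (win U' M).Sublist (ileave f (win U (M + 1))) := by
  have h1 := win_ileave f (2 * (M + 1)) (fun j : ℕ => U ((j : ℤ) - ((M + 1 : ℕ) : ℤ)))
  refine List.Sublist.trans ?_ h1
  rcases h with h | h
  · rw [show 2 * (M + 1) = (2 * M + 1) + 1 by ring, List.range_succ, List.map_append]
    have h2 : win U' M = (List.range (2 * M + 1)).map (fun j : ℕ =>
        f (U ((j : ℤ) - ((M + 1 : ℕ) : ℤ))) (U (((j + 1 : ℕ) : ℤ) - ((M + 1 : ℕ) : ℤ)))) := by
      unfold win
      apply List.map_congr_left
      intro j _
      rw [h]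
      congr 2 <;> push_cast <;> ring
    rw [h2]
    exact List.sublist_append_left _ _
  · rw [show 2 * (M + 1) = (2 * M + 1) + 1 by ring, List.range_succ_eq_map, List.map_cons,
      List.map_map]
    have h2 : win U' M = (List.range (2 * M + 1)).map ((fun j : ℕ =>
        f (U ((j : ℤ) - ((M + 1 : ℕ) : ℤ))) (U (((j + 1 : ℕ) : ℤ) - ((M + 1 : ℕ) : ℤ)))) ∘
          Nat.succ) := by
      unfold win
      apply List.map_congr_left
      intro j _
      simp only [Function.comp_apply]
      rw [h]
      congr 2 <;> push_cast <;> ring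
    rw [h2]
    exact List.sublist_cons_self _ _

end Helper51.TH
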