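import Pool.Agent.Helper51.TH.Sub
import Pool.Agent.Helper51.TH.FanSplit
import Pool.Agent.Helper51.TH.Win
import Pool.Agent.Helper51.TH.Range
import Pool.Agent.Helper51.TH.FanId

/-!
TH-P21. The constants.

PROOF of `exists_adm`. `V₁ < π/2`: choose `μ > 1`, `θ > 0` with `2 θ + μ V₁ ≤ π/2` (e.g. `η = π/2 - V₁ > 0`,
`θ = η/4`, `μ = 1 + η/(2 (|V₁| + 1))`). `del_state` for the wide box `z₁ = ζ₁/4, z₂ = 4 ζ₂, Λ = Λ₀ + 6` gives `K, δ₀`. Constants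
`C₁` (`list_osc`), `C₂ = exp((Λ₀+6)/2)/sin θ` (`Am_le`), `C₃ = exp((Λ₀+6)/2) + 2K` (`FF_le`), `C₄` (`wave_bound`), `Λc`
(`fan_out` with `U = U₀ + 1`). `C = max` of `C₂ (1 + C₁)`, `C₃`, `C₄`, `1`; `δ = min δ₀ (min (ζ₁/(8C)) (1/(8C)))`. `DelOK`
is monotone in `δ`. `list`: `FF ≥ 0` (`FF_nonneg`), `Am ≤ C₂ FF ≤ C δ ≤ ζ₁/8 = (ζ₁/4)/2`, so `list_osc` applies.
`upper`: `FF_le` with `Am² ≤ Am`. `pair`: `wave_bound` (`ng a ^ 3 ≤ |a|`, as `|a| ≤ ζ₁/8`: use a larger constant, `ng a ^ 3 ≤ (ζ₁/8)² |a|`).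
-/

open Set Filter Topology

namespace Helper51.TH

/-- Admissible constants of the scheme. The data are in the box `ζ₁, ζ₂, Λ₀, U₀`, the scheme stays in
`ζ₁/2, 2 ζ₂, Λ₀ + 5, U₀ + 1`, and the functionals work in the wide box `ζ₁/4, 4 ζ₂, Λ₀ + 6`. -/
structure Adm (γ ζ₁ ζ₂ Λ₀ U₀ θ μ V₁ K δ Λc C : ℝ) : Prop where
  hγ : 1 < γ
  hζ : 0 < ζ₁
  hθ : 0 < θ
  hμ : 1 < μ
  hV : 2 * θ + μ * V₁ ≤ Real.pi / 2
  hK : 0 < K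
  hδ : 0 < δ
  hΛc : 0 < Λc
  hC : 0 < C
  small : C * δ ≤ ζ₁ / 8 ∧ C * δ ≤ 1 / 8
  del : DelOK γ (ζ₁ / 4) (4 * ζ₂) (Λ₀ + 6) θ μ V₁ K δ
  list : ∀ ws : List St, (∀ w ∈ ws, InB (ζ₁ / 4) (4 * ζ₂) (Λ₀ + 6) w) →
    FF γ θ μ K ws ≤ δ → VV γ ws ≤ V₁ →
    0 ≤ FF γ θ μ K ws ∧ Am (waves γ ws) ≤ C * FF γ θ μ K ws ∧
    tvl St.z ws ≤ C * FF γ θ μ K ws ∧ tvl St.u ws ≤ C * FF γ θ μ K ws ∧
    tvl St.l ws ≤ 2 * VV γ ws + C * FF γ θ μ K ws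
  upper : ∀ ws : List St, (∀ w ∈ ws, InB (ζ₁ / 4) (4 * ζ₂) (Λ₀ + 6) w) →
    Am (waves γ ws) ≤ 1 → VV γ ws ≤ V₁ → FF γ θ μ K ws ≤ C * Am (waves γ ws)
  pair : ∀ a z l : ℝ, ζ₁ / 4 ≤ z → z ≤ 4 * ζ₂ → |l| ≤ Λ₀ + 6 → |a| ≤ ζ₁ / 8 →
    |hj γ a z l| ≤ C * |a| ∧ 0 ≤ sj γ a z ∧ sj γ a z ≤ C * |a|
  out : ∀ L R : St, InB (ζ₁ / 4) (4 * ζ₂) (Λ₀ + 6) L → InB (ζ₁ / 4) (4 * ζ₂) (Λ₀ + 6) R →
    |L.u| ≤ U₀ + 1 → |R.u| ≤ U₀ + 1 → |ra γ L R| ≤ ζ₁ / 8 → |rb γ L R| ≤ ζ₁ / 8 →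
    ∀ ξ : ℝ, (ξ ≤ -Λc → fan γ L R ξ = L) ∧ (Λc ≤ ξ → fan γ L R ξ = R)

theorem exists_adm {γ ζ₁ ζ₂ Λ₀ U₀ V₁ : ℝ} (hγ : 1 < γ) (hζ : 0 < ζ₁) (hV : V₁ < Real.pi / 2) :
    ∃ θ μ K δ Λc C : ℝ, Adm γ ζ₁ ζ₂ Λ₀ U₀ θ μ V₁ K δ Λc C := by
  obtain ⟨η, hη⟩ : ∃ η : ℝ, η = Real.pi / 2 - V₁ := ⟨_, rfl⟩
  have hη0 : 0 < η := by linarith
  obtain ⟨θ, hθd⟩ : ∃ θ : ℝ, θ = min (η / 4) 1 := ⟨_, rfl⟩
  have hθ : 0 < θ := by
    rw [hθd]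
    exact lt_min (by linarith) one_pos
  have hθ1 : θ ≤ 1 := by
    rw [hθd]
    exact min_le_right _ _
  have hθ2 : θ ≤ η / 4 := by
    rw [hθd]
    exact min_le_left _ _
  obtain ⟨μ, hμd⟩ : ∃ μ : ℝ, μ = 1 + η / (2 * (|V₁| + 1)) := ⟨_, rfl⟩
  have hV1 : 0 < |V₁| + 1 := by linarith [abs_nonneg V₁]
  have hμ : 1 < μ := by
    rw [hμd]
    have : 0 < η / (2 * (|V₁| + 1)) := by positivity
    linarith
  have hVV : 2 * θ + μ * V₁ ≤ Real.pi / 2 := by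
    have h1 : η / (2 * (|V₁| + 1)) * V₁ ≤ η / (2 * (|V₁| + 1)) * (|V₁| + 1) :=
      mul_le_mul_of_nonneg_left (by linarith [le_abs_self V₁]) (by positivity)
    have h2 : η / (2 * (|V₁| + 1)) * (|V₁| + 1) = η / 2 := by
      field_simp
    rw [hμd, add_mul, one_mul]
    linarith
  have hsin : 0 < Real.sin θ := by
    apply Real.sin_pos_of_pos_of_lt_pi hθ
    linarith [Real.pi_gt_three]
  have hz4 : 0 < ζ₁ / 4 := by linarith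
  obtain ⟨K, δ₀, hK, hδ₀, hdel⟩ := del_state (γ := γ) (z₁ := ζ₁ / 4) (z₂ := 4 * ζ₂) (Λ := Λ₀ + 6)
    (θ := θ) (μ := μ) (V₁ := V₁) hγ hz4 hθ hμ hVV
  obtain ⟨C₁, hC₁, hosc⟩ := list_osc (γ := γ) (z₁ := ζ₁ / 4) (z₂ := 4 * ζ₂) (Λ := Λ₀ + 6) hγ hz4
  obtain ⟨C₄, hC₄, hwb⟩ := wave_bound (γ := γ) (z₁ := ζ₁ / 4) (z₂ := 4 * ζ₂) (Λ := Λ₀ + 6) hγ hz4
  obtain ⟨Λc, hΛc, hout⟩ := fan_out (γ := γ) (z₁ := ζ₁ / 4) (z₂ := 4 * ζ₂) (Λ := Λ₀ + 6)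
    (U := U₀ + 1) hγ hz4
  obtain ⟨C₂, hC₂d⟩ : ∃ C₂ : ℝ, C₂ = Real.exp ((Λ₀ + 6) / 2) / Real.sin θ := ⟨_, rfl⟩
  have hC₂ : 0 < C₂ := by
    rw [hC₂d]
    positivity
  obtain ⟨C₃, hC₃d⟩ : ∃ C₃ : ℝ, C₃ = Real.exp ((Λ₀ + 6) / 2) + 2 * K := ⟨_, rfl⟩
  have hC₃ : 0 < C₃ := by
    rw [hC₃d]
    positivity
  obtain ⟨C, hCd⟩ : ∃ C : ℝ, C = C₂ * (1 + C₁) + C₃ + C₄ * (1 + (ζ₁ / 8) ^ 2) + 1 := ⟨_, rfl⟩
  have hC21 : 0 < C₂ * C₁ := by positivity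
  have hC4z : 0 ≤ C₄ * (ζ₁ / 8) ^ 2 := by positivity
  have hC : 0 < C := by
    rw [hCd]
    positivity
  have hCa : C₂ ≤ C := by
    rw [hCd]
    linarith
  have hCb : C₁ * C₂ ≤ C := by
    rw [hCd]
    linarith
  have hCc : C₃ ≤ C := by
    rw [hCd]
    linarith
  have hCe : C₄ ≤ C := by
    rw [hCd]
    linarith
  have hCf : C₄ * (ζ₁ / 8) ^ 2 ≤ C := by
    rw [hCd]
    linarith
  obtain ⟨δ, hδd⟩ : ∃ δ : ℝ, δ = min δ₀ (min (ζ₁ / (8 * C)) (1 / (8 * C))) := ⟨_, rfl⟩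
  have hδ : 0 < δ := by
    rw [hδd]
    exact lt_min hδ₀ (lt_min (by positivity) (by positivity))
  have hδa : δ ≤ δ₀ := by
    rw [hδd]
    exact min_le_left _ _
  have hδb : δ ≤ ζ₁ / (8 * C) := by
    rw [hδd]
    exact (min_le_right _ _).trans (min_le_left _ _)
  have hδc : δ ≤ 1 / (8 * C) := by
    rw [hδd]
    exact (min_le_right _ _).trans (min_le_right _ _)
  have hs1 : C * δ ≤ ζ₁ / 8 := by
    have h1 := mul_le_mul_of_nonneg_left hδb hC.le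
    have h2 : C * (ζ₁ / (8 * C)) = ζ₁ / 8 := by
      field_simp
    linarith
  have hs2 : C * δ ≤ 1 / 8 := by
    have h1 := mul_le_mul_of_nonneg_left hδc hC.le
    have h2 : C * (1 / (8 * C)) = 1 / 8 := by
      field_simp
    linarith
  refine ⟨θ, μ, K, δ, Λc, C, ?_⟩
  constructor
  · exact hγ
  · exact hζ
  · exact hθ
  · exact hμ
  · exact hVV
  · exact hK
  · exact hδ
  · exact hΛc
  · exact hC
  · exact ⟨hs1, hs2⟩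
  · intro xs ys L M R hB hF h0 hG
    exact hdel xs ys L M R hB (hF.trans hδa) h0 hG
  · intro ws hB hF h0
    have hF0 := FF_nonneg (γ := γ) (K := K) hθ hμ hK hVV h0
    have hAm := Am_le (γ := γ) (K := K) hθ hμ hK hVV hB h0
    rw [← hC₂d] at hAm
    have hAC : Am (waves γ ws) ≤ C * FF γ θ μ K ws :=
      hAm.trans (mul_le_mul_of_nonneg_right hCa hF0)
    have hAs : Am (waves γ ws) ≤ ζ₁ / 4 / 2 := by
      have h1 := mul_le_mul_of_nonneg_left hF hC.le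
      linarith
    obtain ⟨o1, o2, o3⟩ := hosc ws hB hAs
    have h3 : C₁ * Am (waves γ ws) ≤ C * FF γ θ μ K ws := by
      have h4 := mul_le_mul_of_nonneg_left hAm hC₁.le
      rw [← mul_assoc] at h4
      exact h4.trans (mul_le_mul_of_nonneg_right hCb hF0)
    exact ⟨hF0, hAC, o1.trans hAC, o2.trans h3, by linarith⟩
  · intro ws hB hA1 h0
    have h1 := FF_le (γ := γ) (K := K) hθ hμ hK hVV hB h0
    have hA0 := Am_nonneg (waves γ ws)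
    have h2 : Am (waves γ ws) ^ 2 ≤ Am (waves γ ws) := by
      rw [sq]
      exact mul_le_of_le_one_left hA0 hA1
    have h3 := mul_le_mul_of_nonneg_left h2 (show 0 ≤ 2 * K by linarith)
    have h4 : C₃ * Am (waves γ ws) ≤ C * Am (waves γ ws) := mul_le_mul_of_nonneg_right hCc hA0
    rw [hC₃d, add_mul] at h4
    linarith
  · intro a z l hz1 hz2 hl ha
    obtain ⟨w1, w2, w3, -⟩ := hwb a z l hz1 hz2 hl (by linarith)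
    have ha0 := abs_nonneg a
    refine ⟨w1.trans (mul_le_mul_of_nonneg_right hCe ha0), w2, ?_⟩
    have hn0 : 0 ≤ ng a := le_max_right _ _
    have hn1 : ng a ≤ |a| := max_le (neg_le_abs a) ha0
    have h1 : ng a ^ 3 ≤ |a| ^ 3 := pow_le_pow_left₀ hn0 hn1 3
    have h2 : |a| ^ 2 ≤ (ζ₁ / 8) ^ 2 := pow_le_pow_left₀ ha0 ha 2
    have h3 : |a| ^ 3 ≤ (ζ₁ / 8) ^ 2 * |a| := by
      have h4 := mul_le_mul_of_nonneg_right h2 ha0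
      have h5 : |a| ^ 3 = |a| ^ 2 * |a| := by ring
      rw [h5]
      exact h4
    have h6 := mul_le_mul_of_nonneg_left (h1.trans h3) hC₄.le
    have h7 := mul_le_mul_of_nonneg_right hCf ha0
    rw [← mul_assoc] at h6
    linarith
  · intro L R hL hR hLu hRu ha hb ξ
    exact hout L R hL hR hLu hRu (by linarith) (by linarith) ξ

end Helper51.TH
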