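import Pool.Agent.Helper51.TH.Defs

/-!
TH-P25. Consistency: from the discrete to the weak form, and the noise.

NOTATION. Mesh width `h`, time step `νh`, `t_n = n ν h`, cell `i` is `[i h, (i+1) h)`,
`arr ν h g (t, x) = g ⌊t/(νh)⌋₊ ⌊x/h⌋`, `ψ n i = ∫_{ih}^{(i+1)h} φ(t_{n+1}, x) dx`. `φ` is smooth with compact support in
`(0, T) × (-R, R)`. `N ν h ≥ T`, `J h ≥ R + h`.
PROOF of `cons`. (all sums over `n < N`, `-J ≤ i ≤ J`, the omitted terms vanish)
`∫∫ g ∂t φ = ∑ g n i ∫_cell (φ(t_{n+1}, x) - φ(t_n, x)) dx = - ∑ (g (n+1) i - g n i) ψ n i` (summation by parts in `n`,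
`φ(0, ·) = 0 = φ(t_N, ·)`), and `∫∫ f ∂x φ = ∑ f n i ∫_{t_n}^{t_{n+1}} (φ(t, (i+1)h) - φ(t, i h)) dt`. With
`r n i = g (n+1) i - g n i + ν (F n i - F n (i-1))` and summation by parts in `i`:
`∫∫ (g ∂t φ + f ∂x φ) + ∑ r n i ψ n i = ∑ [f n i I n i - ν F n i (ψ n (i+1) - ψ n i)]`,
`I n i = ∫_{t_n}^{t_{n+1}} (φ(t, (i+1)h) - φ(t, ih)) dt`. `|I n i| ≤ ν h² sup|∂x φ|`,
`|I n i - ν (ψ n (i+1) - ψ n i)| ≤ C_φ h³` (both are `ν h² ∂x φ(t_n, ih) + O(h³)`, second derivatives bounded; `h ≤ 1`),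
`|f n i - F n i| ≤ C₀ v n i`. So the error is `≤ C_φ ∑ h³ C₀ + ∑_n ν h² C_φ C₀ ∑_i v n i ≤ C h`, because there are at most
`(T/(νh) + 1)(2R/h + 3)` pairs `(n, i)` for which `ψ` or `I` does not vanish.
PROOF of `noise`. Abel summation in `i` and in `n`: with `S n j = ∑_{-J ≤ i ≤ j} e n i`, `D m j = ∑_{n<m} S n j`:
`∑_{n<N} ∑_i e n i ψ n i = ∑_{n<N} ∑_j S n j (ψ n j - ψ n (j+1)) = ∑_{n<N} ∑_j D (n+1) j Δ n j`,
`Δ n j = (ψ n j - ψ n (j+1)) - (ψ (n+1) j - ψ (n+1) (j+1))` (`ψ n (J+1) = 0`, `ψ N j = 0`), `|Δ n j| ≤ C_φ ν h³` (mixed second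
difference of `φ`, integrated over a cell). Cauchy-Schwarz in `j`:
`≤ ∑_{n<N} C h³ √(2J+1) √(∑_j D(n+1) j²) ≤ C h³ N √(2J+1) √(N (2J+1) B) = C h³ N^(3/2) (2J+1) √B`.
-/

open MeasureTheory Set Filter Topology

namespace Helper51.TH

open Helper73.EU

/-- The piecewise constant function with the values `g n i`. -/
noncomputable def arr {α : Type} (ν h : ℝ) (g : ℕ → ℤ → α) (z : ℝ × ℝ) : α :=
  g ⌊z.1 / (ν * h)⌋₊ ⌊z.2 / h⌋

private theorem cs_sbp (a b : ℕ → ℝ) (m : ℕ) :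
    ∑ k ∈ Finset.range m, (a (k + 1) - a k) * b k =
      a m * b m - a 0 * b 0 - ∑ k ∈ Finset.range m, a (k + 1) * (b (k + 1) - b k) := by
  have h := Finset.sum_range_sub (fun i => a i * b i) m
  rw [← h, ← Finset.sum_sub_distrib]
  refine Finset.sum_congr rfl fun i _ => ?_
  ring

private theorem cs_Icc (J m : ℕ) (f : ℤ → ℝ) :
    ∑ i ∈ Finset.Icc (-(J : ℤ)) ((m : ℤ) - J), f i = ∑ k ∈ Finset.range (m + 1), f ((k : ℤ) - J) := by
  refine Finset.sum_nbij' (fun i => (i + J).toNat) (fun k => (k : ℤ) - J) ?_ ?_ ?_ ?_ ?_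
  · intro i hi
    rw [Finset.mem_Icc] at hi
    rw [Finset.mem_range]
    omega
  · intro k hk
    rw [Finset.mem_range] at hk
    rw [Finset.mem_Icc]
    omega
  · intro i hi
    rw [Finset.mem_Icc] at hi
    omega
  · intro k hk
    rw [Finset.mem_range] at hk
    omega
  · intro i hi
    rw [Finset.mem_Icc] at hi
    congr 1
    omega

private theorem cs_Icc' (J : ℕ) (f : ℤ → ℝ) :
    ∑ i ∈ Finset.Icc (-(J : ℤ)) J, f i = ∑ k ∈ Finset.range (2 * J + 1), f ((k : ℤ) - J) := by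
  rw [← cs_Icc J (2 * J) f]
  congr 2
  push_cast
  ring

private theorem cs_cells {ι : Type} (s : Finset ι) (k : ℝ → ι) (lo hi : ι → ℝ) (a : ι → ℝ)
    (w : ℝ → ℝ) (hle : ∀ i ∈ s, lo i ≤ hi i) (h1 : ∀ i ∈ s, ∀ x ∈ Ico (lo i) (hi i), k x = i)
    (h2 : ∀ x, (∀ i ∈ s, x ∉ Ico (lo i) (hi i)) → w x = 0) (hw : Continuous w) :
    Integrable (fun x => a (k x) * w x) ∧
      ∫ x, a (k x) * w x = ∑ i ∈ s, a i * ∫ x in (lo i)..(hi i), w x := by
  have hpt : (fun x => a (k x) * w x) =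
      fun x => ∑ i ∈ s, (Ico (lo i) (hi i)).indicator (fun x => a i * w x) x := by
    funext x
    by_cases h : ∃ i ∈ s, x ∈ Ico (lo i) (hi i)
    · obtain ⟨i, hi, hx⟩ := h
      rw [Finset.sum_eq_single i]
      · rw [indicator_of_mem hx, h1 i hi x hx]
      · intro j hj hji
        rw [indicator_of_notMem]
        intro hxj
        exact hji ((h1 j hj x hxj).symm.trans (h1 i hi x hx))
      · intro h
        exact absurd hi h
    · push Not at h
      rw [h2 x h, mul_zero]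
      symm
      refine Finset.sum_eq_zero fun i hi => ?_
      rw [indicator_of_notMem (h i hi)]
  have hint : ∀ i ∈ s, Integrable ((Ico (lo i) (hi i)).indicator (fun x => a i * w x)) := by
    intro i _
    rw [integrable_indicator_iff measurableSet_Ico]
    exact ((continuous_const.mul hw).integrableOn_Icc).mono_set Ico_subset_Icc_self
  rw [hpt]
  refine ⟨integrable_finsetSum _ hint, ?_⟩
  rw [integral_finsetSum _ hint]
  refine Finset.sum_congr rfl fun i hi => ?_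
  rw [integral_indicator measurableSet_Ico, integral_const_mul,
    intervalIntegral.integral_of_le (hle i hi), integral_Ico_eq_integral_Ioc]

private theorem cs_cellsN {τ : ℝ} (hτ : 0 < τ) (N : ℕ) (a : ℕ → ℝ) (w : ℝ → ℝ)
    (h0 : ∀ t, t ≤ 0 → w t = 0) (h1 : ∀ t, N * τ ≤ t → w t = 0) (hw : Continuous w) :
    Integrable (fun t => a ⌊t / τ⌋₊ * w t) ∧
      ∫ t, a ⌊t / τ⌋₊ * w t = ∑ n ∈ Finset.range N, a n * ∫ t in (n * τ)..((n + 1) * τ), w t := by
  refine cs_cells (Finset.range N) (fun t => ⌊t / τ⌋₊) (fun n => n * τ) (fun n => (n + 1) * τ) a w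
    ?_ ?_ ?_ hw
  · intro i _
    nlinarith
  · intro i _ x hx
    have hx0 : 0 ≤ x := (mul_nonneg (Nat.cast_nonneg i) hτ.le).trans hx.1
    change ⌊x / τ⌋₊ = i
    rw [Nat.floor_eq_iff (div_nonneg hx0 hτ.le), le_div_iff₀ hτ, div_lt_iff₀ hτ]
    exact hx
  · intro x hx
    by_contra hne
    have hx0 : 0 < x := by
      by_contra h
      exact hne (h0 x (not_lt.1 h))
    have hx1 : x < N * τ := by
      by_contra h
      exact hne (h1 x (not_lt.1 h))
    have h2 : ⌊x / τ⌋₊ < N := by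
      rw [Nat.floor_lt (div_nonneg hx0.le hτ.le), div_lt_iff₀ hτ]
      exact hx1
    refine hx ⌊x / τ⌋₊ (Finset.mem_range.2 h2) ⟨?_, ?_⟩
    · change (⌊x / τ⌋₊ : ℝ) * τ ≤ x
      rw [← le_div_iff₀ hτ]
      exact Nat.floor_le (div_nonneg hx0.le hτ.le)
    · change x < ((⌊x / τ⌋₊ : ℝ) + 1) * τ
      rw [← div_lt_iff₀ hτ]
      exact Nat.lt_floor_add_one _

private theorem cs_cellsZ {h : ℝ} (hh : 0 < h) (J : ℕ) (a : ℤ → ℝ) (w : ℝ → ℝ)
    (h0 : ∀ x, J * h ≤ |x| → w x = 0) (hw : Continuous w) :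
    Integrable (fun x => a ⌊x / h⌋ * w x) ∧
      ∫ x, a ⌊x / h⌋ * w x =
        ∑ i ∈ Finset.Icc (-(J : ℤ)) J, a i * ∫ x in (i * h)..((i + 1) * h), w x := by
  refine cs_cells (Finset.Icc (-(J : ℤ)) J) (fun x => ⌊x / h⌋) (fun i => i * h)
    (fun i => (i + 1) * h) a w ?_ ?_ ?_ hw
  · intro i _
    nlinarith
  · intro i _ x hx
    rw [Int.floor_eq_iff, le_div_iff₀ hh, div_lt_iff₀ hh]
    exact hx
  · intro x hx
    by_contra hne
    have hx1 : |x| < J * h := by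
      by_contra h
      exact hne (h0 x (not_lt.1 h))
    rw [abs_lt] at hx1
    refine hx ⌊x / h⌋ (Finset.mem_Icc.2 ⟨?_, ?_⟩) ⟨?_, ?_⟩
    · rw [Int.le_floor, le_div_iff₀ hh]
      push_cast
      linarith
    · have h2 : ⌊x / h⌋ < (J : ℤ) := by
        rw [Int.floor_lt, div_lt_iff₀ hh]
        push_cast
        linarith
      exact h2.le
    · change ((⌊x / h⌋ : ℤ) : ℝ) * h ≤ x
      rw [← le_div_iff₀ hh]
      exact Int.floor_le _
    · change x < (((⌊x / h⌋ : ℤ) : ℝ) + 1) * h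
      rw [← div_lt_iff₀ hh]
      exact Int.lt_floor_add_one _

/-! ### test functions -/

private theorem cs_zero {φ : ℝ × ℝ → ℝ} {z : ℝ × ℝ}
    (hz : z ∉ tsupport φ) : φ z = 0 ∧ fderiv ℝ φ z = 0 := by
  refine ⟨image_eq_zero_of_notMem_tsupport hz, ?_⟩
  by_contra h
  exact hz (support_fderiv_subset ℝ h)

private theorem cs_out {T : ℝ} {φ : ℝ × ℝ → ℝ} (hφ : IsTest T φ) {z : ℝ × ℝ}
    (hz : z.1 ≤ 0 ∨ T ≤ z.1) : φ z = 0 ∧ fderiv ℝ φ z = 0 := by
  refine cs_zero fun h => ?_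
  have h1 := hφ.support h
  rcases hz with hz | hz
  · exact absurd h1.1 (not_lt.2 hz)
  · exact absurd h1.2 (not_lt.2 hz)

private theorem cs_R {T : ℝ} {φ : ℝ × ℝ → ℝ} (hφ : IsTest T φ) :
    ∃ R : ℝ, 0 < R ∧ ∀ t x : ℝ, R ≤ |x| → φ (t, x) = 0 ∧ fderiv ℝ φ (t, x) = 0 := by
  obtain ⟨R, hR, hR2⟩ := hφ.compact.isCompact.isBounded.subset_closedBall_lt 0 0
  refine ⟨R + 1, by linarith, fun t x hx => cs_zero fun h => ?_⟩
  have h1 := hR2 h
  rw [mem_closedBall_zero_iff] at h1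
  have h2 : |x| ≤ ‖((t, x) : ℝ × ℝ)‖ := by
    rw [Prod.norm_def]
    exact le_max_right _ _
  linarith

private theorem cs_lip {T : ℝ} {φ : ℝ × ℝ → ℝ} (hφ : IsTest T φ) :
    ∃ L : ℝ, 0 ≤ L ∧ (∀ z z', |φ z - φ z'| ≤ L * ‖z - z'‖) ∧
      ∀ (h : ℝ) (z z' : ℝ × ℝ), 0 ≤ h → |(φ (z + (0, h)) - φ z) - (φ (z' + (0, h)) - φ z')| ≤
        L * h * ‖z - z'‖ := by
  obtain ⟨C₁, hC₁⟩ := hφ.smooth.lipschitzWith_of_hasCompactSupport hφ.compact (by simp)
  have hd : ContDiff ℝ 1 (fderiv ℝ φ) := hφ.smooth.fderiv_right (m := 1) (by norm_cast)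
  obtain ⟨C₂, hC₂⟩ := hd.lipschitzWith_of_hasCompactSupport (hφ.compact.fderiv ℝ) (by simp)
  have hdiff : Differentiable ℝ φ := hφ.smooth.differentiable (by simp)
  refine ⟨max C₁ C₂, le_max_of_le_left C₁.2, fun z z' => ?_, fun h z z' hh => ?_⟩
  · have h1 := hC₁.dist_le_mul z z'
    rw [Real.dist_eq, dist_eq_norm] at h1
    exact h1.trans (mul_le_mul_of_nonneg_right (le_max_left _ _) (norm_nonneg _))
  · have hs : ∀ w : ℝ × ℝ, HasFDerivAt (fun w => φ (w + (0, h)) - φ w)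
        (fderiv ℝ φ (w + (0, h)) - fderiv ℝ φ w) w := by
      intro w
      have h1 : HasFDerivAt (fun w : ℝ × ℝ => φ (w + (0, h))) (fderiv ℝ φ (w + (0, h))) w :=
        ((hdiff (w + (0, h))).hasFDerivAt.comp w ((hasFDerivAt_id w).add_const (0, h))).congr_fderiv
          (ContinuousLinearMap.comp_id _)
      exact h1.sub (hdiff w).hasFDerivAt
    have h2 := Convex.norm_image_sub_le_of_norm_fderiv_le (𝕜 := ℝ) (s := univ) (x := z') (y := z)
      (f := fun w => φ (w + (0, h)) - φ w) (C := max C₁ C₂ * h)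
      (fun w _ => (hs w).differentiableAt) (fun w _ => ?_) convex_univ (mem_univ _) (mem_univ _)
    · exact h2
    · rw [(hs w).fderiv]
      have h3 := hC₂.dist_le_mul (w + (0, h)) w
      rw [dist_eq_norm, dist_eq_norm, add_sub_cancel_left] at h3
      have h4 : ‖((0, h) : ℝ × ℝ)‖ = h := by
        rw [Prod.norm_def, norm_zero, Real.norm_eq_abs, abs_of_nonneg hh, max_eq_right hh]
      rw [h4] at h3
      exact h3.trans (mul_le_mul_of_nonneg_right (le_max_right _ _) hh)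

private theorem cs_dt {T : ℝ} {φ : ℝ × ℝ → ℝ} (hφ : IsTest T φ) (t x : ℝ) :
    HasDerivAt (fun t => φ (t, x)) (dt φ (t, x)) t := by
  have hdiff : Differentiable ℝ φ := hφ.smooth.differentiable (by simp)
  have h1 : HasDerivAt (fun t : ℝ => ((t, x) : ℝ × ℝ)) (1, 0) t :=
    (hasDerivAt_id t).prodMk (hasDerivAt_const t x)
  exact (hdiff (t, x)).hasFDerivAt.comp_hasDerivAt t h1

private theorem cs_dx {T : ℝ} {φ : ℝ × ℝ → ℝ} (hφ : IsTest T φ) (t x : ℝ) :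
    HasDerivAt (fun x => φ (t, x)) (dx φ (t, x)) x := by
  have hdiff : Differentiable ℝ φ := hφ.smooth.differentiable (by simp)
  have h1 : HasDerivAt (fun x : ℝ => ((t, x) : ℝ × ℝ)) (0, 1) x :=
    (hasDerivAt_const x t).prodMk (hasDerivAt_id x)
  exact (hdiff (t, x)).hasFDerivAt.comp_hasDerivAt x h1

private theorem cs_contd {T : ℝ} {φ : ℝ × ℝ → ℝ} (hφ : IsTest T φ) (v : ℝ × ℝ) :
    Continuous (fun z => fderiv ℝ φ z v) := by
  have hd : Continuous (fderiv ℝ φ) := hφ.smooth.continuous_fderiv (by simp)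
  exact hd.clm_apply continuous_const

private theorem cs_intd {T : ℝ} {φ : ℝ × ℝ → ℝ} (hφ : IsTest T φ) (v : ℝ × ℝ) :
    Integrable (fun z => fderiv ℝ φ z v) := by
  refine (cs_contd hφ v).integrable_of_hasCompactSupport ?_
  refine (hφ.compact.fderiv ℝ).mono ?_
  intro z hz
  rw [Function.mem_support] at hz ⊢
  intro h0
  apply hz
  rw [h0]
  rfl

private theorem cs_arr_meas (ν h : ℝ) (g : ℕ → ℤ → ℝ) : Measurable (arr ν h g) := by
  have h1 : Measurable (fun z : ℝ × ℝ => ((⌊z.1 / (ν * h)⌋₊, ⌊z.2 / h⌋) : ℕ × ℤ)) :=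
    (Nat.measurable_floor.comp (measurable_fst.div_const _)).prodMk
      (Int.measurable_floor.comp (measurable_snd.div_const _))
  have h2 : Measurable (fun p : ℕ × ℤ => g p.1 p.2) := measurable_of_countable _
  exact h2.comp h1

private theorem cs_arr_int {T : ℝ} {φ : ℝ × ℝ → ℝ} (hφ : IsTest T φ) (v : ℝ × ℝ) (ν h C : ℝ)
    (g : ℕ → ℤ → ℝ) (hg : ∀ n i, |g n i| ≤ C) :
    Integrable (fun z => arr ν h g z * fderiv ℝ φ z v) := by
  refine (cs_intd hφ v).bdd_mul (c := C) (cs_arr_meas ν h g).aestronglyMeasurable ?_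
  exact Filter.Eventually.of_forall fun z => hg _ _

/-! ### Fubini -/

private theorem cs_B {ν T C h R : ℝ} {φ : ℝ × ℝ → ℝ} (hφ : IsTest T φ) {N J : ℕ}
    (hτ : 0 < ν * h) (hh : 0 < h) (hN : T ≤ N * (ν * h))
    (hR : ∀ t x : ℝ, R ≤ |x| → φ (t, x) = 0 ∧ fderiv ℝ φ (t, x) = 0) (hJ : R ≤ J * h)
    (g : ℕ → ℤ → ℝ) (hg : ∀ n i, |g n i| ≤ C) :
    ∫ z, arr ν h g z * dt φ z = ∑ n ∈ Finset.range N, ∑ i ∈ Finset.Icc (-(J : ℤ)) J,
      g n i * ((∫ x in (i * h)..((i + 1) * h), φ ((n + 1) * (ν * h), x)) -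
        ∫ x in (i * h)..((i + 1) * h), φ (n * (ν * h), x)) := by
  have hcφ : Continuous φ := hφ.smooth.continuous
  have hct : ∀ x : ℝ, Continuous (fun t : ℝ => dt φ (t, x)) := fun x =>
    (cs_contd hφ (1, 0)).comp (continuous_id.prodMk continuous_const)
  have hcx : ∀ t : ℝ, Continuous (fun x : ℝ => φ (t, x)) := fun t =>
    hcφ.comp (continuous_const.prodMk continuous_id)
  have inner : ∀ x : ℝ, ∫ t, arr ν h g (t, x) * dt φ (t, x) =
      ∑ n ∈ Finset.range N, g n ⌊x / h⌋ * (φ ((n + 1) * (ν * h), x) - φ (n * (ν * h), x)) := by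
    intro x
    have h1 := (cs_cellsN hτ N (fun n => g n ⌊x / h⌋) (fun t => dt φ (t, x))
      (fun t ht => by
        change fderiv ℝ φ (t, x) (1, 0) = 0
        rw [(cs_out hφ (z := (t, x)) (Or.inl ht)).2]
        rfl)
      (fun t ht => by
        change fderiv ℝ φ (t, x) (1, 0) = 0
        rw [(cs_out hφ (z := (t, x)) (Or.inr (hN.trans ht))).2]
        rfl) (hct x)).2
    refine h1.trans (Finset.sum_congr rfl fun n _ => ?_)
    rw [intervalIntegral.integral_eq_sub_of_hasDerivAt (fun t _ => cs_dt hφ t x)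
      ((hct x).intervalIntegrable _ _)]
  have outer : ∀ n : ℕ, Integrable (fun x : ℝ => g n ⌊x / h⌋ *
        (φ ((n + 1) * (ν * h), x) - φ (n * (ν * h), x))) ∧
      ∫ x : ℝ, g n ⌊x / h⌋ * (φ ((n + 1) * (ν * h), x) - φ (n * (ν * h), x)) =
        ∑ i ∈ Finset.Icc (-(J : ℤ)) J, g n i *
          ∫ x in (i * h)..((i + 1) * h), (φ ((n + 1) * (ν * h), x) - φ (n * (ν * h), x)) := by
    intro n
    refine cs_cellsZ hh J (g n) (fun x => φ ((n + 1) * (ν * h), x) - φ (n * (ν * h), x)) ?_ ?_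
    · intro x hx
      rw [(hR _ x (hJ.trans hx)).1, (hR _ x (hJ.trans hx)).1, sub_zero]
    · exact (hcx _).sub (hcx _)
  have hI : Integrable (fun z => arr ν h g z * dt φ z) (volume.prod volume) :=
    cs_arr_int hφ (1, 0) ν h C g hg
  rw [Measure.volume_eq_prod, integral_prod_symm _ hI,
    integral_congr_ae (Filter.Eventually.of_forall inner),
    integral_finsetSum _ fun n _ => (outer n).1]
  refine Finset.sum_congr rfl fun n _ => ?_
  rw [(outer n).2]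
  refine Finset.sum_congr rfl fun i _ => ?_
  rw [intervalIntegral.integral_sub ((hcx _).intervalIntegrable _ _)
    ((hcx _).intervalIntegrable _ _)]

private theorem cs_C {ν T C h R : ℝ} {φ : ℝ × ℝ → ℝ} (hφ : IsTest T φ) {N J : ℕ}
    (hτ : 0 < ν * h) (hh : 0 < h) (hN : T ≤ N * (ν * h))
    (hR : ∀ t x : ℝ, R ≤ |x| → φ (t, x) = 0 ∧ fderiv ℝ φ (t, x) = 0) (hJ : R ≤ J * h)
    (f : ℕ → ℤ → ℝ) (hf : ∀ n i, |f n i| ≤ C) :
    ∫ z, arr ν h f z * dx φ z = ∑ n ∈ Finset.range N, ∑ i ∈ Finset.Icc (-(J : ℤ)) J,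
      f n i * ∫ t in (n * (ν * h))..((n + 1) * (ν * h)), (φ (t, (i + 1) * h) - φ (t, i * h)) := by
  have hcφ : Continuous φ := hφ.smooth.continuous
  have hcx : ∀ t : ℝ, Continuous (fun x : ℝ => dx φ (t, x)) := fun t =>
    (cs_contd hφ (0, 1)).comp (continuous_const.prodMk continuous_id)
  have hct : ∀ x : ℝ, Continuous (fun t : ℝ => φ (t, x)) := fun x =>
    hcφ.comp (continuous_id.prodMk continuous_const)
  have inner : ∀ t : ℝ, ∫ x, arr ν h f (t, x) * dx φ (t, x) =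
      ∑ i ∈ Finset.Icc (-(J : ℤ)) J, f ⌊t / (ν * h)⌋₊ i * (φ (t, (i + 1) * h) - φ (t, i * h)) := by
    intro t
    have h1 := (cs_cellsZ hh J (fun i => f ⌊t / (ν * h)⌋₊ i) (fun x => dx φ (t, x))
      (fun x hx => by
        change fderiv ℝ φ (t, x) (0, 1) = 0
        rw [(hR t x (hJ.trans hx)).2]
        rfl) (hcx t)).2
    refine h1.trans (Finset.sum_congr rfl fun n _ => ?_)
    rw [intervalIntegral.integral_eq_sub_of_hasDerivAt (fun x _ => cs_dx hφ t x)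
      ((hcx t).intervalIntegrable _ _)]
  have outer : ∀ i : ℤ, Integrable (fun t : ℝ => f ⌊t / (ν * h)⌋₊ i *
        (φ (t, (i + 1) * h) - φ (t, i * h))) ∧
      ∫ t : ℝ, f ⌊t / (ν * h)⌋₊ i * (φ (t, (i + 1) * h) - φ (t, i * h)) =
        ∑ n ∈ Finset.range N, f n i *
          ∫ t in (n * (ν * h))..((n + 1) * (ν * h)), (φ (t, (i + 1) * h) - φ (t, i * h)) := by
    intro i
    refine cs_cellsN hτ N (fun n => f n i) (fun t => φ (t, (i + 1) * h) - φ (t, i * h)) ?_ ?_ ?_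
    · intro t ht
      rw [(cs_out hφ (z := (t, _)) (Or.inl ht)).1, (cs_out hφ (z := (t, _)) (Or.inl ht)).1,
        sub_zero]
    · intro t ht
      rw [(cs_out hφ (z := (t, _)) (Or.inr (hN.trans ht))).1,
        (cs_out hφ (z := (t, _)) (Or.inr (hN.trans ht))).1, sub_zero]
    · exact (hct _).sub (hct _)
  have hI : Integrable (fun z => arr ν h f z * dx φ z) (volume.prod volume) :=
    cs_arr_int hφ (0, 1) ν h C f hf
  rw [Measure.volume_eq_prod, integral_prod _ hI,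
    integral_congr_ae (Filter.Eventually.of_forall inner),
    integral_finsetSum _ fun i _ => (outer i).1, Finset.sum_comm]
  exact Finset.sum_congr rfl fun i _ => (outer i).2

/-! ### the discrete identity -/

/-- the integral of the test function over a cell -/
private noncomputable def PP (φ : ℝ × ℝ → ℝ) (h s : ℝ) (i : ℤ) : ℝ :=
  ∫ x in (i * h)..((i + 1) * h), φ (s, x)

private theorem cs_PP_time {T h s : ℝ} {φ : ℝ × ℝ → ℝ} (hφ : IsTest T φ) (hs : s ≤ 0 ∨ T ≤ s)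
    (i : ℤ) : PP φ h s i = 0 := by
  have h1 : (fun x : ℝ => φ (s, x)) = fun _ => 0 := by
    funext x
    exact (cs_out hφ (z := (s, x)) hs).1
  rw [PP, h1, intervalIntegral.integral_zero]

private theorem cs_far {h R : ℝ} (hh : 0 < h) {i : ℤ} (hi : R + h ≤ |(i : ℝ)| * h) {x : ℝ}
    (h1 : i * h ≤ x) (h2 : x ≤ (i + 1) * h) : R ≤ |x| := by
  rcases le_or_gt 0 (i : ℝ) with h0 | h0
  · rw [abs_of_nonneg h0] at hi
    exact (by linarith : R ≤ x).trans (le_abs_self x)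
  · rw [abs_of_neg h0] at hi
    exact (by linarith : R ≤ -x).trans (neg_le_abs x)

private theorem cs_PP_far {h s R : ℝ} {φ : ℝ × ℝ → ℝ} (hh : 0 < h)
    (hR : ∀ t x : ℝ, R ≤ |x| → φ (t, x) = 0 ∧ fderiv ℝ φ (t, x) = 0) {i : ℤ}
    (hi : R + h ≤ |(i : ℝ)| * h) : PP φ h s i = 0 := by
  have hle : (i : ℝ) * h ≤ (i + 1) * h := by nlinarith
  have h1 : PP φ h s i = ∫ x in ((i : ℝ) * h)..((i + 1) * h), (0 : ℝ) := by
    refine intervalIntegral.integral_congr fun x hx => ?_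
    rw [uIcc_of_le hle] at hx
    exact (hR s x (cs_far hh hi hx.1 hx.2)).1
  rw [h1, intervalIntegral.integral_zero]

private theorem cs_sbpZ (J : ℕ) (F B : ℤ → ℝ) (h1 : B ((J : ℤ) + 1) = 0) (h2 : B (-(J : ℤ)) = 0) :
    ∑ i ∈ Finset.Icc (-(J : ℤ)) J, (F i - F (i - 1)) * B i =
      -∑ i ∈ Finset.Icc (-(J : ℤ)) J, F i * (B (i + 1) - B i) := by
  rw [cs_Icc', cs_Icc']
  have h3 := cs_sbp (fun k => F ((k : ℤ) - 1 - J)) (fun k => B ((k : ℤ) - J)) (2 * J + 1)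
  have e1 : (((2 * J + 1 : ℕ) : ℤ) - J) = (J : ℤ) + 1 := by
    push_cast
    ring
  have e2 : (((0 : ℕ) : ℤ) - J) = -(J : ℤ) := by
    push_cast
    ring
  have e3 : ∀ k : ℕ, (((k + 1 : ℕ) : ℤ) - 1 - J) = (k : ℤ) - J := by
    intro k
    push_cast
    ring
  have e4 : ∀ k : ℕ, ((k : ℤ) - 1 - J) = (k : ℤ) - J - 1 := by
    intro k
    ring
  have e5 : ∀ k : ℕ, (((k + 1 : ℕ) : ℤ) - J) = (k : ℤ) - J + 1 := by
    intro k
    push_cast
    ring
  rw [e1, e2, h1, h2, mul_zero, mul_zero, sub_zero, zero_sub] at h3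
  simp only [e3, e4, e5] at h3
  exact h3

private theorem cs_id {ν T C h R : ℝ} {φ : ℝ × ℝ → ℝ} (hφ : IsTest T φ) {N J : ℕ}
    (hτ : 0 < ν * h) (hh : 0 < h) (hN : T ≤ N * (ν * h))
    (hR : ∀ t x : ℝ, R ≤ |x| → φ (t, x) = 0 ∧ fderiv ℝ φ (t, x) = 0) (hJ : R + h ≤ J * h)
    (g f F : ℕ → ℤ → ℝ) (hg : ∀ n i, |g n i| ≤ C) (hf : ∀ n i, |f n i| ≤ C) :
    (∫ z in Strip T, (arr ν h g z * dt φ z + arr ν h f z * dx φ z)) +
      ∑ n ∈ Finset.range N, ∑ i ∈ Finset.Icc (-(J : ℤ)) J,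
        (g (n + 1) i - g n i + ν * (F n i - F n (i - 1))) * PP φ h ((n + 1) * (ν * h)) i =
    ∑ n ∈ Finset.range N, ∑ i ∈ Finset.Icc (-(J : ℤ)) J,
      (f n i * (∫ t in (n * (ν * h))..((n + 1) * (ν * h)), (φ (t, (i + 1) * h) - φ (t, i * h))) -
        ν * F n i * (PP φ h ((n + 1) * (ν * h)) (i + 1) - PP φ h ((n + 1) * (ν * h)) i)) := by
  have hJ' : R ≤ J * h := by linarith
  have hstrip : ∫ z in Strip T, (arr ν h g z * dt φ z + arr ν h f z * dx φ z) =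
      ∫ z, (arr ν h g z * dt φ z + arr ν h f z * dx φ z) := by
    refine setIntegral_eq_integral_of_forall_compl_eq_zero fun z hz => ?_
    have h1 : z.1 ≤ 0 ∨ T ≤ z.1 := by
      by_contra h
      push Not at h
      exact hz h
    have h2 := (cs_out hφ h1).2
    have h3 : dt φ z = 0 := by
      change fderiv ℝ φ z (1, 0) = 0
      rw [h2]
      rfl
    have h4 : dx φ z = 0 := by
      change fderiv ℝ φ z (0, 1) = 0
      rw [h2]
      rfl
    rw [h3, h4, mul_zero, mul_zero, add_zero]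
  have hadd : ∫ z, (arr ν h g z * dt φ z + arr ν h f z * dx φ z) =
      (∫ z, arr ν h g z * dt φ z) + ∫ z, arr ν h f z * dx φ z :=
    integral_add (cs_arr_int hφ (1, 0) ν h C g hg) (cs_arr_int hφ (0, 1) ν h C f hf)
  rw [hstrip, hadd,
    cs_B hφ hτ hh hN hR hJ' g hg, cs_C hφ hτ hh hN hR hJ' f hf]
  -- summation by parts in time
  have hB : ∀ i : ℤ, ∑ n ∈ Finset.range N,
      g n i * (PP φ h ((n + 1) * (ν * h)) i - PP φ h (n * (ν * h)) i) =
      -∑ n ∈ Finset.range N, (g (n + 1) i - g n i) * PP φ h ((n + 1) * (ν * h)) i := by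
    intro i
    have h1 := cs_sbp (fun n => PP φ h (n * (ν * h)) i) (fun n => g n i) N
    rw [cs_PP_time hφ (Or.inr hN), cs_PP_time hφ (Or.inl (by simp)), zero_mul, zero_mul, sub_zero,
      zero_sub] at h1
    push_cast at h1
    rw [← Finset.sum_neg_distrib] at h1 ⊢
    refine Eq.trans (Finset.sum_congr rfl fun n _ => ?_)
      (h1.trans (Finset.sum_congr rfl fun n _ => ?_))
    · ring
    · ring
  -- summation by parts in space
  have hF : ∀ n : ℕ, ∑ i ∈ Finset.Icc (-(J : ℤ)) J,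
      (F n i - F n (i - 1)) * PP φ h ((n + 1) * (ν * h)) i =
      -∑ i ∈ Finset.Icc (-(J : ℤ)) J,
        F n i * (PP φ h ((n + 1) * (ν * h)) (i + 1) - PP φ h ((n + 1) * (ν * h)) i) := by
    intro n
    refine cs_sbpZ J (F n) (PP φ h ((n + 1) * (ν * h))) ?_ ?_
    · refine cs_PP_far hh hR ?_
      push_cast
      rw [abs_of_nonneg (by positivity)]
      linarith
    · refine cs_PP_far hh hR ?_
      push_cast
      rw [abs_neg, abs_of_nonneg (by positivity)]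
      linarith
  have e1 : ∑ n ∈ Finset.range N, ∑ i ∈ Finset.Icc (-(J : ℤ)) J,
      g n i * ((∫ x in (i * h)..((i + 1) * h), φ ((n + 1) * (ν * h), x)) -
        ∫ x in (i * h)..((i + 1) * h), φ (n * (ν * h), x)) =
      -∑ n ∈ Finset.range N, ∑ i ∈ Finset.Icc (-(J : ℤ)) J,
        (g (n + 1) i - g n i) * PP φ h ((n + 1) * (ν * h)) i := by
    rw [Finset.sum_comm]
    rw [Finset.sum_comm (s := Finset.range N) (f := fun n i =>
      (g (n + 1) i - g n i) * PP φ h ((n + 1) * (ν * h)) i), ← Finset.sum_neg_distrib]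
    exact Finset.sum_congr rfl fun i _ => hB i
  have e2 : ∑ n ∈ Finset.range N, ∑ i ∈ Finset.Icc (-(J : ℤ)) J,
        (g (n + 1) i - g n i + ν * (F n i - F n (i - 1))) * PP φ h ((n + 1) * (ν * h)) i =
      (∑ n ∈ Finset.range N, ∑ i ∈ Finset.Icc (-(J : ℤ)) J,
        (g (n + 1) i - g n i) * PP φ h ((n + 1) * (ν * h)) i) -
      ∑ n ∈ Finset.range N, ∑ i ∈ Finset.Icc (-(J : ℤ)) J, ν * F n i *
        (PP φ h ((n + 1) * (ν * h)) (i + 1) - PP φ h ((n + 1) * (ν * h)) i) := by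
    rw [← Finset.sum_sub_distrib]
    refine Finset.sum_congr rfl fun n _ => ?_
    have h1 : ∑ i ∈ Finset.Icc (-(J : ℤ)) J, ν * F n i *
        (PP φ h ((n + 1) * (ν * h)) (i + 1) - PP φ h ((n + 1) * (ν * h)) i) =
        -(ν * ∑ i ∈ Finset.Icc (-(J : ℤ)) J,
          (F n i - F n (i - 1)) * PP φ h ((n + 1) * (ν * h)) i) := by
      rw [hF n, mul_neg, neg_neg, Finset.mul_sum]
      exact Finset.sum_congr rfl fun i _ => by ring
    rw [h1, sub_neg_eq_add, Finset.mul_sum, ← Finset.sum_add_distrib]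
    exact Finset.sum_congr rfl fun i _ => by ring
  rw [e1, e2]
  have e3 : ∑ n ∈ Finset.range N, ∑ i ∈ Finset.Icc (-(J : ℤ)) J,
      (f n i * (∫ t in (n * (ν * h))..((n + 1) * (ν * h)), (φ (t, (i + 1) * h) - φ (t, i * h))) -
        ν * F n i * (PP φ h ((n + 1) * (ν * h)) (i + 1) - PP φ h ((n + 1) * (ν * h)) i)) =
      (∑ n ∈ Finset.range N, ∑ i ∈ Finset.Icc (-(J : ℤ)) J,
        f n i * (∫ t in (n * (ν * h))..((n + 1) * (ν * h)), (φ (t, (i + 1) * h) - φ (t, i * h)))) -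
      ∑ n ∈ Finset.range N, ∑ i ∈ Finset.Icc (-(J : ℤ)) J, ν * F n i *
        (PP φ h ((n + 1) * (ν * h)) (i + 1) - PP φ h ((n + 1) * (ν * h)) i) := by
    rw [← Finset.sum_sub_distrib]
    exact Finset.sum_congr rfl fun n _ => by rw [← Finset.sum_sub_distrib]
  rw [e3]
  ring

/-! ### estimates -/

private theorem cs_q {h L : ℝ} {φ : ℝ × ℝ → ℝ} (hh : 0 ≤ h)
    (hL : ∀ (h : ℝ) (z z' : ℝ × ℝ), 0 ≤ h →
      |(φ (z + (0, h)) - φ z) - (φ (z' + (0, h)) - φ z')| ≤ L * h * ‖z - z'‖) (s x s' x' : ℝ) :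
    |(φ (s, x + h) - φ (s, x)) - (φ (s', x' + h) - φ (s', x'))| ≤
      L * h * max |s - s'| |x - x'| := by
  have h1 := hL h (s, x) (s', x') hh
  rw [Prod.mk_add_mk, Prod.mk_add_mk, add_zero, add_zero, Prod.mk_sub_mk, Prod.norm_def] at h1
  exact h1

private theorem cs_PPdiff {h : ℝ} {φ : ℝ × ℝ → ℝ} (hφ : Continuous φ) (s : ℝ) (i : ℤ) :
    PP φ h s (i + 1) - PP φ h s i =
      ∫ x in (i * h)..((i + 1) * h), (φ (s, x + h) - φ (s, x)) := by
  have hcx : Continuous (fun x : ℝ => φ (s, x)) := hφ.comp (continuous_const.prodMk continuous_id)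
  have hcx2 : Continuous (fun x : ℝ => φ (s, x + h)) :=
    hcx.comp (continuous_id.add continuous_const)
  rw [intervalIntegral.integral_sub (hcx2.intervalIntegrable _ _) (hcx.intervalIntegrable _ _),
    intervalIntegral.integral_comp_add_right (fun x => φ (s, x)) h, PP, PP]
  congr 2
  · push_cast
    ring
  · push_cast
    ring

private theorem cs_near {h D K : ℝ} {q : ℝ → ℝ} (hq : Continuous q) {a b : ℝ} (hab : a ≤ b)
    (hb : b - a = h) (hK : ∀ x ∈ Icc a b, |q x - D| ≤ K) : |(∫ x in a..b, q x) - h * D| ≤ K * h := by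
  have h1 : (∫ x in a..b, q x) - h * D = ∫ x in a..b, (q x - D) := by
    rw [intervalIntegral.integral_sub (hq.intervalIntegrable _ _)
      (continuous_const.intervalIntegrable _ _), intervalIntegral.integral_const, hb, smul_eq_mul]
  rw [h1]
  have h2 := intervalIntegral.norm_integral_le_of_norm_le_const (a := a) (b := b)
    (f := fun x => q x - D) (C := K) (fun x hx => by
      rw [uIoc_of_le hab] at hx
      exact hK x ⟨hx.1.le, hx.2⟩)
  rw [hb, abs_of_nonneg (by linarith)] at h2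
  exact h2

private theorem cs_dP {h L : ℝ} {φ : ℝ × ℝ → ℝ} (hφ : Continuous φ) (hh : 0 < h)
    (hL : ∀ z z', |φ z - φ z'| ≤ L * ‖z - z'‖) (s : ℝ) (i : ℤ) :
    |PP φ h s (i + 1) - PP φ h s i| ≤ L * h ^ 2 := by
  have hcx : Continuous (fun x : ℝ => φ (s, x)) := hφ.comp (continuous_const.prodMk continuous_id)
  have hcx2 : Continuous (fun x : ℝ => φ (s, x + h)) :=
    hcx.comp (continuous_id.add continuous_const)
  rw [cs_PPdiff hφ]
  have h1 := cs_near (D := 0) (K := L * h) (hcx2.sub hcx) (a := i * h) (b := (i + 1) * h)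
    (h := h) (by nlinarith) (by ring) (fun x _ => by
      rw [sub_zero]
      have h2 := hL (s, x + h) (s, x)
      rw [Prod.mk_sub_mk, Prod.norm_def, sub_self, norm_zero, add_sub_cancel_left,
        Real.norm_eq_abs, abs_of_pos hh, max_eq_right hh.le] at h2
      exact h2)
  rw [mul_zero, sub_zero] at h1
  calc _ ≤ L * h * h := h1
    _ = L * h ^ 2 := by ring

private theorem cs_I {ν h L : ℝ} {φ : ℝ × ℝ → ℝ} (hφ : Continuous φ) (hν : 0 < ν) (hh : 0 < h)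
    (hL0 : 0 ≤ L) (hL : ∀ (h : ℝ) (z z' : ℝ × ℝ), 0 ≤ h →
      |(φ (z + (0, h)) - φ z) - (φ (z' + (0, h)) - φ z')| ≤ L * h * ‖z - z'‖) (n : ℕ) (i : ℤ) :
    |(∫ t in (n * (ν * h))..((n + 1) * (ν * h)), (φ (t, (i + 1) * h) - φ (t, i * h))) -
      ν * (PP φ h ((n + 1) * (ν * h)) (i + 1) - PP φ h ((n + 1) * (ν * h)) i)| ≤
      (ν ^ 2 + ν) * L * h ^ 3 := by
  have hτ : 0 < ν * h := mul_pos hν hh
  obtain ⟨s, hs⟩ : ∃ s : ℝ, s = (n + 1) * (ν * h) := ⟨_, rfl⟩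
  obtain ⟨D, hD⟩ : ∃ D : ℝ, D = φ (s, i * h + h) - φ (s, i * h) := ⟨_, rfl⟩
  have hct : ∀ x : ℝ, Continuous (fun t : ℝ => φ (t, x)) := fun x =>
    hφ.comp (continuous_id.prodMk continuous_const)
  have hcx : Continuous (fun x : ℝ => φ (s, x)) := hφ.comp (continuous_const.prodMk continuous_id)
  have hcx2 : Continuous (fun x : ℝ => φ (s, x + h)) :=
    hcx.comp (continuous_id.add continuous_const)
  have e1 : ((i : ℝ) + 1) * h = i * h + h := by ring
  have h1 : |(∫ t in (n * (ν * h))..((n + 1) * (ν * h)), (φ (t, (i + 1) * h) - φ (t, i * h))) -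
      (ν * h) * D| ≤ L * h * (ν * h) * (ν * h) := by
    refine cs_near ((hct _).sub (hct _)) (by nlinarith) (by ring) (fun t ht => ?_)
    rw [e1, hD]
    refine (cs_q hh.le hL t (i * h) s (i * h)).trans ?_
    refine mul_le_mul_of_nonneg_left ?_ (mul_nonneg hL0 hh.le)
    rw [sub_self, abs_zero]
    refine max_le ?_ hτ.le
    rw [abs_le]
    have h2 := ht.1
    have h3 := ht.2
    rw [← hs] at h3
    constructor <;> nlinarith
  have h2 : |(PP φ h s (i + 1) - PP φ h s i) - h * D| ≤ L * h * h * h := by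
    rw [cs_PPdiff hφ]
    refine cs_near (hcx2.sub hcx) (by nlinarith) (by ring) (fun x hx => ?_)
    rw [hD]
    refine (cs_q hh.le hL s x s (i * h)).trans ?_
    refine mul_le_mul_of_nonneg_left ?_ (mul_nonneg hL0 hh.le)
    rw [sub_self, abs_zero]
    refine max_le hh.le ?_
    rw [abs_of_nonneg (by linarith [hx.1])]
    have h3 := hx.2
    rw [e1] at h3
    linarith
  rw [← hs]
  obtain ⟨Q, hQ⟩ : ∃ Q : ℝ, Q = PP φ h s (i + 1) - PP φ h s i := ⟨_, rfl⟩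
  rw [← hQ] at h2 ⊢
  have h4 : ∀ I : ℝ, |I - (ν * h) * D| ≤ L * h * (ν * h) * (ν * h) →
      |I - ν * Q| ≤ (ν ^ 2 + ν) * L * h ^ 3 := by
    intro I h1
    have h5 : I - ν * Q = (I - (ν * h) * D) - ν * (Q - h * D) := by ring
    rw [h5]
    refine (abs_sub _ _).trans ?_
    rw [abs_mul, abs_of_pos hν]
    have h6 := mul_le_mul_of_nonneg_left h2 hν.le
    calc _ ≤ L * h * (ν * h) * (ν * h) + ν * (L * h * h * h) := add_le_add h1 h6
      _ = (ν ^ 2 + ν) * L * h ^ 3 := by ring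
  rw [← hs] at h1
  exact h4 _ h1

private theorem cs_E {ν h L C₀ R : ℝ} {φ : ℝ × ℝ → ℝ} (hφ : Continuous φ) (hν : 0 < ν)
    (hh : 0 < h) (hL0 : 0 ≤ L) (hC0 : 0 ≤ C₀)
    (hL1 : ∀ z z', |φ z - φ z'| ≤ L * ‖z - z'‖) (hL : ∀ (h : ℝ) (z z' : ℝ × ℝ), 0 ≤ h →
      |(φ (z + (0, h)) - φ z) - (φ (z' + (0, h)) - φ z')| ≤ L * h * ‖z - z'‖)
    (hR : ∀ t x : ℝ, R ≤ |x| → φ (t, x) = 0 ∧ fderiv ℝ φ (t, x) = 0)
    (n : ℕ) (i : ℤ) (f F v : ℝ) (hf : |f| ≤ C₀) (hF : |F - f| ≤ C₀ * v) (hv : 0 ≤ v) :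
    |f * (∫ t in (n * (ν * h))..((n + 1) * (ν * h)), (φ (t, (i + 1) * h) - φ (t, i * h))) -
      ν * F * (PP φ h ((n + 1) * (ν * h)) (i + 1) - PP φ h ((n + 1) * (ν * h)) i)| ≤
    (if |(i : ℝ)| * h < R + 2 * h then C₀ * ((ν ^ 2 + ν) * L * h ^ 3) else 0) +
      ν * (C₀ * (L * h ^ 2)) * v := by
  have hrest : 0 ≤ ν * (C₀ * (L * h ^ 2)) * v := by positivity
  split_ifs with hi
  · have h1 := cs_I hφ hν hh hL0 hL n i
    have h2 := cs_dP hφ hh hL1 ((n + 1) * (ν * h)) i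
    generalize (∫ t in (n * (ν * h))..((n + 1) * (ν * h)), (φ (t, (i + 1) * h) - φ (t, i * h))) = I
      at h1 ⊢
    generalize (PP φ h ((n + 1) * (ν * h)) (i + 1) - PP φ h ((n + 1) * (ν * h)) i) = Q at h1 h2 ⊢
    have h3 : f * I - ν * F * Q = f * (I - ν * Q) - ν * ((F - f) * Q) := by ring
    rw [h3]
    refine (abs_sub _ _).trans (add_le_add ?_ ?_)
    · rw [abs_mul]
      exact mul_le_mul hf h1 (abs_nonneg _) hC0
    · rw [abs_mul, abs_mul, abs_of_pos hν]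
      have h4 : |F - f| * |Q| ≤ (C₀ * v) * (L * h ^ 2) :=
        mul_le_mul hF h2 (abs_nonneg _) (mul_nonneg hC0 hv)
      calc ν * (|F - f| * |Q|) ≤ ν * ((C₀ * v) * (L * h ^ 2)) :=
            mul_le_mul_of_nonneg_left h4 hν.le
        _ = ν * (C₀ * (L * h ^ 2)) * v := by ring
  · push Not at hi
    have hi1 : R + h ≤ |(i : ℝ)| * h := by linarith
    have hi2 : R + h ≤ |((i + 1 : ℤ) : ℝ)| * h := by
      have h1 : |(i : ℝ)| ≤ |((i + 1 : ℤ) : ℝ)| + 1 := by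
        have h2 : (i : ℝ) = ((i + 1 : ℤ) : ℝ) + (-1) := by
          push_cast
          ring
        calc |(i : ℝ)| = |((i + 1 : ℤ) : ℝ) + (-1)| := by rw [← h2]
          _ ≤ |((i + 1 : ℤ) : ℝ)| + |(-1 : ℝ)| := abs_add_le _ _
          _ = |((i + 1 : ℤ) : ℝ)| + 1 := by rw [abs_neg, abs_one]
      nlinarith
    have h1 : (fun t : ℝ => φ (t, ((i : ℝ) + 1) * h) - φ (t, (i : ℝ) * h)) = fun _ => 0 := by
      funext t
      rw [(hR t _ (cs_far hh hi1 (by nlinarith) le_rfl)).1,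
        (hR t _ (cs_far hh hi1 le_rfl (by nlinarith))).1, sub_zero]
    rw [cs_PP_far hh hR hi1, cs_PP_far hh hR hi2, h1, intervalIntegral.integral_zero]
    simpa using hrest

private theorem cs_count {h R c : ℝ} (hh : 0 < h) (hR : 0 < R) (hc : 0 ≤ c) (J : ℕ) :
    ∑ i ∈ Finset.Icc (-(J : ℤ)) J, (if |(i : ℝ)| * h < R + 2 * h then c else 0) ≤
      (2 * R + 5 * h) / h * c := by
  rw [← Finset.sum_filter, Finset.sum_const, nsmul_eq_mul]
  refine mul_le_mul_of_nonneg_right ?_ hc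
  obtain ⟨K, hK⟩ : ∃ K : ℕ, K = ⌊(R + 2 * h) / h⌋₊ := ⟨_, rfl⟩
  have h0 : 0 ≤ (R + 2 * h) / h := by positivity
  have h1 : (Finset.Icc (-(J : ℤ)) J).filter (fun i : ℤ => |(i : ℝ)| * h < R + 2 * h) ⊆
      Finset.Icc (-(K : ℤ)) K := by
    intro i hi
    rw [Finset.mem_filter] at hi
    have h2 : |(i : ℝ)| ≤ (R + 2 * h) / h := by
      rw [le_div_iff₀ hh]
      exact hi.2.le
    have h3 : (i.natAbs : ℝ) ≤ (R + 2 * h) / h := by
      rwa [Nat.cast_natAbs, Int.cast_abs]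
    have h4 : i.natAbs ≤ K := by
      rw [hK]
      exact Nat.le_floor h3
    rw [Finset.mem_Icc]
    omega
  have h2 := Finset.card_le_card h1
  rw [Int.card_Icc] at h2
  have h3 : ((K : ℤ) + 1 - -(K : ℤ)).toNat = 2 * K + 1 := by omega
  rw [h3] at h2
  have h4 : (K : ℝ) ≤ (R + 2 * h) / h := by
    rw [hK]
    exact Nat.floor_le h0
  have h5 : (2 * R + 5 * h) / h = 2 * ((R + 2 * h) / h) + 1 := by
    field_simp
    ring
  rw [h5]
  have h6 : ((((Finset.Icc (-(J : ℤ)) J).filter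
      (fun i : ℤ => |(i : ℝ)| * h < R + 2 * h)).card : ℕ) : ℝ) ≤ ((2 * K + 1 : ℕ) : ℝ) := by
    exact_mod_cast h2
  push_cast at h6
  linarith

theorem cons {ν T C₀ : ℝ} (hν : 0 < ν) (hT : 0 < T) {φ : ℝ × ℝ → ℝ} (hφ : IsTest T φ) :
    ∃ Cφ R : ℝ, 0 < Cφ ∧ 0 < R ∧ ∀ (h : ℝ) (N J : ℕ) (g f F v : ℕ → ℤ → ℝ), 0 < h → h ≤ 1 →
      T ≤ N * (ν * h) → N * (ν * h) ≤ T + 1 → R + h ≤ J * h → 
      (∀ n i, |g n i| ≤ C₀ ∧ |f n i| ≤ C₀ ∧ |F n i| ≤ C₀) →
      (∀ n i, |F n i - f n i| ≤ C₀ * v n i) → (∀ n i, 0 ≤ v n i) →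
      (∀ n (M : ℕ), ∑ i ∈ Finset.Ico (-(M : ℤ)) M, v n i ≤ C₀) →
      |(∫ z in Strip T, (arr ν h g z * dt φ z + arr ν h f z * dx φ z)) +
        ∑ n ∈ Finset.range N, ∑ i ∈ Finset.Icc (-(J : ℤ)) J,
          (g (n + 1) i - g n i + ν * (F n i - F n (i - 1))) *
            ∫ x in (i * h)..((i + 1) * h), φ ((n + 1) * (ν * h), x)| ≤ Cφ * h := by
  obtain ⟨R, hR0, hR⟩ := cs_R hφ
  obtain ⟨L, hL0, hL1, hL⟩ := cs_lip hφ
  have hcφ : Continuous φ := hφ.smooth.continuous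
  obtain ⟨X, hX⟩ : ∃ X : ℝ, X = (2 * R + 5) * (|C₀| * ((ν ^ 2 + ν) * L)) +
    ν * (|C₀| * L) * |C₀| := ⟨_, rfl⟩
  have hX0 : 0 ≤ X := by
    rw [hX]
    positivity
  refine ⟨(T + 1) / ν * X + 1, R, by positivity, hR0, ?_⟩
  intro h N J g f F v hh hh1 hN hN1 hJ hb hFf hv hvs
  have hτ : 0 < ν * h := mul_pos hν hh
  have hC0 : 0 ≤ C₀ := (abs_nonneg _).trans (hb 0 0).1
  rw [abs_of_nonneg hC0] at hX
  have hid := cs_id hφ hτ hh hN hR hJ g f F (fun n i => (hb n i).1) (fun n i => (hb n i).2.1)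
  change |_ + ∑ n ∈ Finset.range N, ∑ i ∈ Finset.Icc (-(J : ℤ)) J,
        (g (n + 1) i - g n i + ν * (F n i - F n (i - 1))) * PP φ h ((n + 1) * (ν * h)) i| ≤ _
  rw [hid]
  have hrow : ∀ n : ℕ, |∑ i ∈ Finset.Icc (-(J : ℤ)) J,
      (f n i * (∫ t in (n * (ν * h))..((n + 1) * (ν * h)), (φ (t, (i + 1) * h) - φ (t, i * h))) -
        ν * F n i * (PP φ h ((n + 1) * (ν * h)) (i + 1) - PP φ h ((n + 1) * (ν * h)) i))| ≤
      X * h ^ 2 := by
    intro n
    refine (Finset.abs_sum_le_sum_abs _ _).trans ?_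
    refine (Finset.sum_le_sum fun i _ => cs_E hcφ hν hh hL0 hC0 hL1 hL hR n i (f n i) (F n i)
      (v n i) (hb n i).2.1 (hFf n i) (hv n i)).trans ?_
    rw [Finset.sum_add_distrib, ← Finset.mul_sum]
    have h1 := cs_count (R := R) (c := C₀ * ((ν ^ 2 + ν) * L * h ^ 3)) hh hR0 (by positivity) J
    have h2 : ∑ i ∈ Finset.Icc (-(J : ℤ)) J, v n i ≤ C₀ := by
      refine le_trans ?_ (hvs n (J + 1))
      refine Finset.sum_le_sum_of_subset_of_nonneg ?_ fun i _ _ => hv n i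
      intro i hi
      rw [Finset.mem_Icc] at hi
      rw [Finset.mem_Ico]
      push_cast
      omega
    have h3 := mul_le_mul_of_nonneg_left h2 (by positivity : 0 ≤ ν * (C₀ * (L * h ^ 2)))
    refine (add_le_add h1 h3).trans ?_
    have h4 : (2 * R + 5 * h) / h * (C₀ * ((ν ^ 2 + ν) * L * h ^ 3)) =
        (2 * R + 5 * h) * (C₀ * ((ν ^ 2 + ν) * L)) * h ^ 2 := by
      field_simp
    have h5 : (2 * R + 5 * h) * (C₀ * ((ν ^ 2 + ν) * L)) * h ^ 2 ≤
        (2 * R + 5) * (C₀ * ((ν ^ 2 + ν) * L)) * h ^ 2 := by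
      refine mul_le_mul_of_nonneg_right (mul_le_mul_of_nonneg_right ?_ (by positivity))
        (by positivity)
      linarith
    rw [h4, hX]
    calc _ ≤ (2 * R + 5) * (C₀ * ((ν ^ 2 + ν) * L)) * h ^ 2 + ν * (C₀ * (L * h ^ 2)) * C₀ :=
          add_le_add h5 le_rfl
      _ = _ := by ring
  refine (Finset.abs_sum_le_sum_abs _ _).trans ?_
  refine (Finset.sum_le_sum fun n _ => hrow n).trans ?_
  rw [Finset.sum_const, Finset.card_range, nsmul_eq_mul]
  have h6 : (N : ℝ) * h ≤ (T + 1) / ν := by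
    rw [le_div_iff₀ hν]
    linarith
  calc (N : ℝ) * (X * h ^ 2) = (N * h) * (X * h) := by ring
    _ ≤ (T + 1) / ν * (X * h) := mul_le_mul_of_nonneg_right h6 (by positivity)
    _ ≤ ((T + 1) / ν * X + 1) * h := by nlinarith

theorem noise {ν T : ℝ} (hν : 0 < ν) (hT : 0 < T) {φ : ℝ × ℝ → ℝ} (hφ : IsTest T φ) :
    ∃ Cφ R : ℝ, 0 < Cφ ∧ 0 < R ∧ ∀ (h B : ℝ) (N J : ℕ) (e : ℕ → ℤ → ℝ), 0 < h → h ≤ 1 → 0 ≤ B →
      T ≤ N * (ν * h) → R + h ≤ J * h →
      (∀ m ≤ N, ∑ j ∈ Finset.Icc (-(J : ℤ)) J,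
        (∑ n ∈ Finset.range m, ∑ i ∈ Finset.Icc (-(J : ℤ)) j, e n i) ^ 2 ≤
          m * (2 * J + 1) * B) →
      |∑ n ∈ Finset.range N, ∑ i ∈ Finset.Icc (-(J : ℤ)) J,
        e n i * ∫ x in (i * h)..((i + 1) * h), φ ((n + 1) * (ν * h), x)| ≤
        Cφ * h ^ 3 * (N * √N) * (2 * J + 1) * √B := by
  obtain ⟨R, hR0, hR⟩ := cs_R hφ
  obtain ⟨L, hL0, hL1, hL⟩ := cs_lip hφ
  have hcφ : Continuous φ := hφ.smooth.continuous
  refine ⟨L * ν + 1, R, by positivity, hR0, ?_⟩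
  intro h B N J e hh hh1 hB hN hJ hS
  have hτ : 0 < ν * h := mul_pos hν hh
  obtain ⟨S, hSd⟩ : ∃ S : ℕ → ℕ → ℝ, S = fun n k => ∑ l ∈ Finset.range k, e n ((l : ℤ) - J) :=
    ⟨_, rfl⟩
  have hS0 : ∀ n, S n 0 = 0 := by
    intro n
    rw [hSd]
    simp
  have hSs : ∀ n k, S n (k + 1) - S n k = e n ((k : ℤ) - J) := by
    intro n k
    rw [hSd]
    simp only [Finset.sum_range_succ]
    ring
  obtain ⟨δ, hδd⟩ : ∃ δ : ℕ → ℕ → ℝ, δ = fun (n k : ℕ) =>
    PP φ h ((n + 1) * (ν * h)) ((k : ℤ) - J + 1) - PP φ h ((n + 1) * (ν * h)) ((k : ℤ) - J) :=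
    ⟨_, rfl⟩
  -- summation by parts in space
  have e1 : ∀ n : ℕ, ∑ i ∈ Finset.Icc (-(J : ℤ)) J, e n i * PP φ h ((n + 1) * (ν * h)) i =
      -∑ k ∈ Finset.range (2 * J + 1), S n (k + 1) * δ n k := by
    intro n
    rw [cs_Icc']
    have h1 := cs_sbp (S n) (fun k => PP φ h ((n + 1) * (ν * h)) ((k : ℤ) - J)) (2 * J + 1)
    have e5 : ∀ k : ℕ, (((k + 1 : ℕ) : ℤ) - J) = (k : ℤ) - J + 1 := by
      intro k
      push_cast
      ring
    have e6 : PP φ h ((n + 1) * (ν * h)) (((2 * J + 1 : ℕ) : ℤ) - J) = 0 := by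
      refine cs_PP_far hh hR ?_
      push_cast
      rw [abs_of_nonneg (by linarith [(Nat.cast_nonneg J : (0 : ℝ) ≤ J)])]
      linarith
    rw [hS0, e6, mul_zero, zero_mul, sub_zero, zero_sub] at h1
    simp only [hSs, e5] at h1
    rw [h1, hδd]
  -- summation by parts in time
  obtain ⟨D, hDd⟩ : ∃ D : ℕ → ℕ → ℝ, D = fun m k => ∑ n ∈ Finset.range m, S n (k + 1) := ⟨_, rfl⟩
  have e2 : ∀ k : ℕ, ∑ n ∈ Finset.range N, S n (k + 1) * δ n k =
      -∑ n ∈ Finset.range N, D (n + 1) k * (δ (n + 1) k - δ n k) := by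
    intro k
    have h1 := cs_sbp (fun n => D n k) (fun n => δ n k) N
    have h2 : D 0 k = 0 := by
      rw [hDd]
      simp
    have h3 : δ N k = 0 := by
      rw [hδd]
      have h4 : T ≤ ((N : ℝ) + 1) * (ν * h) := by nlinarith
      change PP φ h ((N + 1) * (ν * h)) ((k : ℤ) - J + 1) -
        PP φ h ((N + 1) * (ν * h)) ((k : ℤ) - J) = 0
      rw [cs_PP_time hφ (Or.inr h4), cs_PP_time hφ (Or.inr h4), sub_zero]
    have h5 : ∀ n, D (n + 1) k - D n k = S n (k + 1) := by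
      intro n
      rw [hDd]
      simp only [Finset.sum_range_succ]
      ring
    rw [h2, h3, mul_zero, zero_mul, sub_zero, zero_sub] at h1
    simp only [h5] at h1
    exact h1
  have e3 : ∑ n ∈ Finset.range N, ∑ i ∈ Finset.Icc (-(J : ℤ)) J,
      e n i * PP φ h ((n + 1) * (ν * h)) i =
      ∑ n ∈ Finset.range N, ∑ k ∈ Finset.range (2 * J + 1),
        D (n + 1) k * (δ (n + 1) k - δ n k) := by
    rw [Finset.sum_congr rfl fun n _ => e1 n, Finset.sum_neg_distrib, Finset.sum_comm,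
      Finset.sum_congr rfl fun k _ => e2 k, Finset.sum_neg_distrib, neg_neg, Finset.sum_comm]
  -- the second difference
  have e4 : ∀ n k, |δ (n + 1) k - δ n k| ≤ L * ν * h ^ 3 := by
    intro n k
    have hcx : ∀ t : ℝ, Continuous (fun x : ℝ => φ (t, x + h) - φ (t, x)) := fun t =>
      (hcφ.comp (continuous_const.prodMk (continuous_id.add continuous_const))).sub
        (hcφ.comp (continuous_const.prodMk continuous_id))
    rw [hδd]
    change |(PP φ h (((n + 1 : ℕ) + 1) * (ν * h)) ((k : ℤ) - J + 1) -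
      PP φ h (((n + 1 : ℕ) + 1) * (ν * h)) ((k : ℤ) - J)) -
      (PP φ h ((n + 1) * (ν * h)) ((k : ℤ) - J + 1) -
        PP φ h ((n + 1) * (ν * h)) ((k : ℤ) - J))| ≤ _
    rw [cs_PPdiff hcφ, cs_PPdiff hcφ, ← intervalIntegral.integral_sub
      ((hcx _).intervalIntegrable _ _) ((hcx _).intervalIntegrable _ _)]
    have h1 := intervalIntegral.norm_integral_le_of_norm_le_const
      (a := ((((k : ℤ) - J : ℤ)) : ℝ) * h) (b := (((((k : ℤ) - J : ℤ)) : ℝ) + 1) * h)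
      (f := fun x => (φ ((((n + 1 : ℕ) : ℝ) + 1) * (ν * h), x + h) -
        φ ((((n + 1 : ℕ) : ℝ) + 1) * (ν * h), x)) -
        (φ (((n : ℝ) + 1) * (ν * h), x + h) - φ (((n : ℝ) + 1) * (ν * h), x)))
      (C := L * h * (ν * h)) (fun x _ => by
        refine (cs_q hh.le hL _ x _ x).trans ?_
        refine mul_le_mul_of_nonneg_left ?_ (mul_nonneg hL0 hh.le)
        rw [sub_self, abs_zero]
        refine max_le (le_of_eq ?_) hτ.le
        have h2 : (((n + 1 : ℕ) : ℝ) + 1) * (ν * h) - ((n : ℝ) + 1) * (ν * h) = ν * h := by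
          push_cast
          ring
        rw [h2, abs_of_pos hτ])
    have h2 : (((((k : ℤ) - J : ℤ)) : ℝ) + 1) * h - ((((k : ℤ) - J : ℤ)) : ℝ) * h = h := by ring
    rw [h2, abs_of_pos hh] at h1
    refine h1.trans (le_of_eq ?_)
    ring
  -- Cauchy-Schwarz
  have e5 : ∀ n < N, ∑ k ∈ Finset.range (2 * J + 1), |D (n + 1) k| ≤ (2 * J + 1) * (√N * √B) := by
    intro n hn
    have h1 := hS (n + 1) hn
    rw [cs_Icc'] at h1
    have h2 : ∀ k : ℕ, (∑ n ∈ Finset.range (n + 1), ∑ i ∈ Finset.Icc (-(J : ℤ)) ((k : ℤ) - J),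
        e n i) = D (n + 1) k := by
      intro k
      rw [hDd, hSd]
      exact Finset.sum_congr rfl fun n _ => cs_Icc J k (e n)
    simp only [h2] at h1
    have h3 := sq_sum_le_card_mul_sum_sq (s := Finset.range (2 * J + 1))
      (f := fun k => |D (n + 1) k|)
    simp only [sq_abs, Finset.card_range] at h3
    have h4 : ((n + 1 : ℕ) : ℝ) * (2 * J + 1) * B ≤ N * (2 * J + 1) * B := by
      refine mul_le_mul_of_nonneg_right (mul_le_mul_of_nonneg_right ?_ (by positivity)) hB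
      exact_mod_cast hn
    have h5 : (∑ k ∈ Finset.range (2 * J + 1), |D (n + 1) k|) ^ 2 ≤
        ((2 * J + 1) * (√N * √B)) ^ 2 := by
      refine h3.trans ?_
      have h6 : ((2 * J + 1) * (√N * √B)) ^ 2 = (2 * J + 1) * (N * (2 * J + 1) * B) := by
        rw [mul_pow, mul_pow, Real.sq_sqrt (Nat.cast_nonneg N), Real.sq_sqrt hB]
        ring
      rw [h6]
      push_cast
      refine mul_le_mul_of_nonneg_left (h1.trans h4) (by positivity)
    exact le_of_sq_le_sq h5 (by positivity)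
  change |∑ n ∈ Finset.range N, ∑ i ∈ Finset.Icc (-(J : ℤ)) J,
      e n i * PP φ h ((n + 1) * (ν * h)) i| ≤ _
  rw [e3]
  have e6 : ∀ n ∈ Finset.range N, |∑ k ∈ Finset.range (2 * J + 1),
      D (n + 1) k * (δ (n + 1) k - δ n k)| ≤ ((2 * J + 1) * (√N * √B)) * (L * ν * h ^ 3) := by
    intro n hn
    refine (Finset.abs_sum_le_sum_abs _ _).trans ?_
    refine le_trans ?_ (mul_le_mul_of_nonneg_right (e5 n (Finset.mem_range.1 hn))
      (by positivity : 0 ≤ L * ν * h ^ 3))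
    rw [Finset.sum_mul]
    refine Finset.sum_le_sum fun k _ => ?_
    rw [abs_mul]
    exact mul_le_mul_of_nonneg_left (e4 n k) (abs_nonneg _)
  refine (Finset.abs_sum_le_sum_abs _ _).trans ?_
  refine (Finset.sum_le_sum e6).trans ?_
  rw [Finset.sum_const, Finset.card_range, nsmul_eq_mul]
  have h7 : 0 ≤ h ^ 3 * (N * √N) * (2 * J + 1) * √B := by positivity
  calc (N : ℝ) * ((2 * J + 1) * (√N * √B) * (L * ν * h ^ 3)) =
      L * ν * (h ^ 3 * (N * √N) * (2 * J + 1) * √B) := by ring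
    _ ≤ (L * ν + 1) * (h ^ 3 * (N * √N) * (2 * J + 1) * √B) := by linarith
    _ = (L * ν + 1) * h ^ 3 * (N * √N) * (2 * J + 1) * √B := by ring

end Helper51.TH
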