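import Pool.Agent.Helper51.TH.StepId
import Pool.Agent.Helper51.TH.Cons

/-!
TH-P30. Bounds for the piecewise constant functions of the scheme.

PROOF. `arr_var`: for `t ≥ 0`, `n = ⌊t/(νh)⌋₊`, the function `x ↦ f (W n ⌊x/h⌋)` has the variation
`sup_M ∑_{-M ≤ i < M} |f (W n (i+1)) - f (W n i)| = sup_M tvl f (win (W n) M)` (`x ↦ ⌊x/h⌋` is monotone, the composition with a function on
`ℤ`; the variation along a monotone finite sequence of integers in `[-M, M]` is at most the sum over all consecutive pairs).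
`Adm.list` bounds `tvl` (all windows of a good sequence have `FF ≤ δ`, `VV ≤ V₁`): `tvl z, tvl u ≤ C FF`, `tvl l ≤ 2 V₁ + C δ`.
`arr_lip`: for `s ≤ t`, `n = ⌊s/(νh)⌋₊ ≤ m = ⌊t/(νh)⌋₊`, `(m - n) νh ≤ t - s + νh`, and
`∫ |f(W m ⌊x/h⌋) - f(W n ⌊x/h⌋)| dx ≤ ∑_{n ≤ j < m} ∑_i h |f (W (j+1) i) - f (W j i)| ≤ (m - n) h 2 C'^2` (`step_bd`:
`|Δ| ≤ C' (vr (i-1) + vr i)`, `∑ vr ≤ C'`; on `(-R, R)` finitely many cells).
Measurability: `arr` takes countably many values on measurable rectangles (`Int.floor`, `Nat.floor` measurable,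
`measurable_from_top` composed).
-/

open MeasureTheory Set Filter Topology
open scoped ENNReal

namespace Helper51.TH

theorem measurable_arr (ν h : ℝ) (g : ℕ → ℤ → ℝ) : Measurable (arr ν h g) := by
  have h1 : Measurable (fun p : ℕ × ℤ => g p.1 p.2) := measurable_of_countable _
  have h2 : Measurable (fun z : ℝ × ℝ => (⌊z.1 / (ν * h)⌋₊, ⌊z.2 / h⌋)) :=
    ((measurable_fst.div_const _).nat_floor).prodMk ((measurable_snd.div_const _).floor)
  exact h1.comp h2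

/-! ### the variation of a function of the integer part -/

private theorem ab_Ico {a c : ℤ} (hac : a ≤ c) : Finset.Ico a (c + 1) = insert c (Finset.Ico a c) := by
  ext x
  simp only [Finset.mem_insert, Finset.mem_Ico]
  omega

private theorem ab_tel (g : ℤ → ℝ) {a b c : ℤ} (hab : a ≤ b) (hbc : b ≤ c) :
    |g c - g b| ≤ (∑ j ∈ Finset.Ico a c, |g (j + 1) - g j|) -
      ∑ j ∈ Finset.Ico a b, |g (j + 1) - g j| := by
  induction c, hbc using Int.le_induction with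
  | base => simp
  | succ n hn ih =>
    rw [ab_Ico (hab.trans hn), Finset.sum_insert (by simp)]
    have h1 : g (n + 1) - g b = (g (n + 1) - g n) + (g n - g b) := by ring
    rw [h1]
    refine (abs_add_le _ _).trans ?_
    linarith

private theorem ab_var (g : ℤ → ℝ) (B : ℝ)
    (hB : ∀ M : ℕ, ∑ i ∈ Finset.Ico (-(M : ℤ)) M, |g (i + 1) - g i| ≤ B) :
    eVariationOn g univ ≤ ENNReal.ofReal B := by
  refine iSup_le ?_
  rintro ⟨n, u, hu, -⟩
  obtain ⟨M, hM⟩ : ∃ M : ℕ, M = (u 0).natAbs + (u n).natAbs := ⟨_, rfl⟩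
  have h0 : -(M : ℤ) ≤ u 0 := by omega
  have hn : u n ≤ (M : ℤ) := by omega
  have h1 : ∑ i ∈ Finset.range n, |g (u (i + 1)) - g (u i)| ≤ B := by
    have h2 : ∑ i ∈ Finset.range n, |g (u (i + 1)) - g (u i)| ≤
        ∑ i ∈ Finset.range n, ((∑ j ∈ Finset.Ico (-(M : ℤ)) (u (i + 1)), |g (j + 1) - g j|) -
          ∑ j ∈ Finset.Ico (-(M : ℤ)) (u i), |g (j + 1) - g j|) :=
      Finset.sum_le_sum fun i _ => ab_tel g (h0.trans (hu (Nat.zero_le i))) (hu (Nat.le_succ i))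
    rw [Finset.sum_range_sub (fun i => ∑ j ∈ Finset.Ico (-(M : ℤ)) (u i), |g (j + 1) - g j|)] at h2
    have h3 : 0 ≤ ∑ j ∈ Finset.Ico (-(M : ℤ)) (u 0), |g (j + 1) - g j| :=
      Finset.sum_nonneg fun _ _ => abs_nonneg _
    have h4 : ∑ j ∈ Finset.Ico (-(M : ℤ)) (u n), |g (j + 1) - g j| ≤
        ∑ j ∈ Finset.Ico (-(M : ℤ)) M, |g (j + 1) - g j| :=
      Finset.sum_le_sum_of_subset_of_nonneg (Finset.Ico_subset_Ico le_rfl hn)
        fun _ _ _ => abs_nonneg _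
    have h5 := hB M
    linarith
  have h6 : ∑ i ∈ Finset.range n, edist (g (u (i + 1))) (g (u i)) =
      ENNReal.ofReal (∑ i ∈ Finset.range n, |g (u (i + 1)) - g (u i)|) := by
    rw [ENNReal.ofReal_sum_of_nonneg fun _ _ => abs_nonneg _]
    refine Finset.sum_congr rfl fun i _ => ?_
    rw [edist_dist, Real.dist_eq]
  change ∑ i ∈ Finset.range n, edist (g (u (i + 1))) (g (u i)) ≤ ENNReal.ofReal B
  rw [h6]
  exact ENNReal.ofReal_le_ofReal h1

private theorem ab_var_floor (g : ℤ → ℝ) (B : ℝ) {h : ℝ} (hh : 0 < h)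
    (hB : ∀ M : ℕ, ∑ i ∈ Finset.Ico (-(M : ℤ)) M, |g (i + 1) - g i| ≤ B) :
    eVariationOn (fun x : ℝ => g ⌊x / h⌋) univ ≤ ENNReal.ofReal B := by
  have h1 : Monotone (fun x : ℝ => ⌊x / h⌋) := fun x y hxy =>
    Int.floor_mono (div_le_div_of_nonneg_right hxy hh.le)
  have h2 := eVariationOn.comp_le_of_monotoneOn (s := univ) (t := univ) g
    (fun x : ℝ => ⌊x / h⌋) (h1.monotoneOn _) (fun _ _ => mem_univ _)
  exact h2.trans (ab_var g B hB)

/-! ### sums over windows (copied from StepId) -/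

private theorem ab_list (S : List St → ℝ) (F : St → St → ℝ) (h1 : ∀ w, S [w] = 0)
    (h2 : ∀ L R t, S (L :: R :: t) = F L R + S (R :: t)) (n : ℕ) : ∀ g : ℕ → St,
    S ((List.range (n + 1)).map g) = ∑ j ∈ Finset.range n, F (g j) (g (j + 1)) := by
  induction n with
  | zero =>
    intro g
    simp [h1]
  | succ n ih =>
    intro g
    have e1 := ih (fun j => g (j + 1))
    have e2 : (List.range (n + 1)).map (fun j => g (j + 1)) =
        g 1 :: (List.range n).map (fun j => g (j + 2)) := by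
      rw [List.range_succ_eq_map, List.map_cons, List.map_map]
      rfl
    have e3 : (List.range (n + 1 + 1)).map g =
        g 0 :: g 1 :: (List.range n).map (fun j => g (j + 2)) := by
      rw [List.range_succ_eq_map, List.map_cons, List.map_map, ← e2]
      rfl
    rw [e3, h2, ← e2, e1, Finset.sum_range_succ' _ n, add_comm]

private theorem ab_reindex (f : ℤ → ℝ) (M : ℕ) :
    ∑ j ∈ Finset.range (2 * M), f ((j : ℤ) - M) = ∑ i ∈ Finset.Ico (-(M : ℤ)) M, f i := by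
  refine Finset.sum_nbij' (fun j : ℕ => (j : ℤ) - M) (fun i : ℤ => (i + M).toNat) ?_ ?_ ?_ ?_ ?_
  · intro j hj
    rw [Finset.mem_range] at hj
    rw [Finset.mem_Ico]
    omega
  · intro i hi
    rw [Finset.mem_Ico] at hi
    rw [Finset.mem_range]
    omega
  · intro j hj
    omega
  · intro i hi
    rw [Finset.mem_Ico] at hi
    omega
  · intro j _
    rfl

private theorem ab_win (f : St → ℝ) (U : ℤ → St) (M : ℕ) :
    tvl f (win U M) = ∑ i ∈ Finset.Ico (-(M : ℤ)) M, |f (U (i + 1)) - f (U i)| := by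
  rw [← ab_reindex (fun i => |f (U (i + 1)) - f (U i)|) M]
  unfold win
  rw [ab_list (tvl f) (fun L R => |f R - f L|) (fun w => by simp [tvl])
    (fun L R t => by simp [tvl]) (2 * M)]
  refine Finset.sum_congr rfl fun j _ => ?_
  have e : ((j + 1 : ℕ) : ℤ) - M = (j : ℤ) - M + 1 := by push_cast; ring
  rw [e]

theorem arr_var {γ ζ₁ ζ₂ Λ₀ U₀ θ μ V₁ K δ Λc C : ℝ}
    (hA : Adm γ ζ₁ ζ₂ Λ₀ U₀ θ μ V₁ K δ Λc C) {w₀ : St} {W : ℤ → St}
    (hG : Good γ ζ₁ ζ₂ Λ₀ U₀ θ μ V₁ K δ w₀ W) {F h : ℝ} (hh : 0 < h)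
    (hF : ∀ M : ℕ, FF γ θ μ K (win W M) ≤ F) :
    eVariationOn (fun x : ℝ => (W ⌊x / h⌋).z) univ ≤ ENNReal.ofReal (C * F) ∧
    eVariationOn (fun x : ℝ => (W ⌊x / h⌋).u) univ ≤ ENNReal.ofReal (C * F) ∧
    eVariationOn (fun x : ℝ => (W ⌊x / h⌋).l) univ ≤ ENNReal.ofReal (2 * V₁ + C * δ) := by
  have hC := hA.hC
  have hζ := hA.hζ
  have key : ∀ M : ℕ, tvl St.z (win W M) ≤ C * F ∧ tvl St.u (win W M) ≤ C * F ∧
      tvl St.l (win W M) ≤ 2 * V₁ + C * δ := by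
    intro M
    have hwin : ∀ w ∈ win W M, InB (ζ₁ / 4) (4 * ζ₂) (Λ₀ + 6) w := by
      intro w hw
      obtain ⟨i, rfl⟩ := mem_win hw
      obtain ⟨⟨h1, h2, h3⟩, -⟩ := hG.box i
      exact ⟨by linarith, by linarith, by linarith⟩
    obtain ⟨-, -, l1, l2, l3⟩ := hA.list (win W M) hwin (hG.ff M) (hG.vv M)
    have h1 := mul_le_mul_of_nonneg_left (hF M) hC.le
    have h2 := mul_le_mul_of_nonneg_left (hG.ff M) hC.le
    have h3 := hG.vv M
    exact ⟨l1.trans h1, l2.trans h1, by linarith⟩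
  refine ⟨?_, ?_, ?_⟩
  · refine ab_var_floor (fun i => (W i).z) _ hh fun M => ?_
    have h1 := (key M).1
    rw [ab_win] at h1
    exact h1
  · refine ab_var_floor (fun i => (W i).u) _ hh fun M => ?_
    have h1 := (key M).2.1
    rw [ab_win] at h1
    exact h1
  · refine ab_var_floor (fun i => (W i).l) _ hh fun M => ?_
    have h1 := (key M).2.2
    rw [ab_win] at h1
    exact h1

/-! ### integrals of functions of the integer part -/

private theorem ab_cell (g : ℤ → ℝ) {h : ℝ} (hh : 0 < h) (i : ℤ) :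
    IntervalIntegrable (fun x : ℝ => g ⌊x / h⌋) volume (i * h) ((i + 1) * h) ∧
    ∫ x in (i * h)..((i + 1) * h), g ⌊x / h⌋ = h * g i := by
  have hle : (i : ℝ) * h ≤ (i + 1) * h := by nlinarith
  have e1 : EqOn (fun _ : ℝ => g i) (fun x : ℝ => g ⌊x / h⌋) (uIoo (i * h) ((i + 1) * h)) := by
    intro x hx
    rw [uIoo_of_le hle] at hx
    have h1 : ⌊x / h⌋ = i := by
      rw [Int.floor_eq_iff]
      constructor
      · rw [le_div_iff₀ hh]; exact hx.1.le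
      · rw [div_lt_iff₀ hh]; exact hx.2
    show g i = g ⌊x / h⌋
    rw [h1]
  constructor
  · exact (intervalIntegrable_const (c := g i)).congr_uIoo e1
  · rw [← intervalIntegral.integral_congr_uIoo e1, intervalIntegral.integral_const, smul_eq_mul]
    ring

private theorem ab_int (g : ℤ → ℝ) {h : ℝ} (hh : 0 < h) (J : ℕ) :
    IntervalIntegrable (fun x : ℝ => g ⌊x / h⌋) volume (-(J * h)) (J * h) ∧
    ∫ x in (-(J * h))..(J * h), g ⌊x / h⌋ = h * ∑ i ∈ Finset.Ico (-(J : ℤ)) J, g i := by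
  have hc : ∀ k : ℕ, IntervalIntegrable (fun x : ℝ => g ⌊x / h⌋) volume (((k : ℝ) - J) * h)
      ((((k + 1 : ℕ) : ℝ) - J) * h) ∧
      ∫ x in (((k : ℝ) - J) * h)..((((k + 1 : ℕ) : ℝ) - J) * h), g ⌊x / h⌋ =
        h * g ((k : ℤ) - J) := by
    intro k
    have h1 := ab_cell g hh ((k : ℤ) - J)
    have e1 : (((k : ℤ) - J : ℤ) : ℝ) = (k : ℝ) - J := by push_cast; ring
    have e2 : (k : ℝ) - J + 1 = ((k + 1 : ℕ) : ℝ) - J := by push_cast; ring
    rw [e1, e2] at h1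
    exact h1
  have a0 : (((0 : ℕ) : ℝ) - J) * h = -(J * h) := by push_cast; ring
  have a1 : (((2 * J : ℕ) : ℝ) - J) * h = J * h := by push_cast; ring
  constructor
  · have h2 := IntervalIntegrable.trans_iterate (f := fun x : ℝ => g ⌊x / h⌋) (μ := volume)
      (a := fun k : ℕ => ((k : ℝ) - J) * h) (n := 2 * J) (fun k _ => (hc k).1)
    rw [a0, a1] at h2
    exact h2
  · have h2 := intervalIntegral.sum_integral_adjacent_intervals (f := fun x : ℝ => g ⌊x / h⌋)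
      (μ := volume) (a := fun k : ℕ => ((k : ℝ) - J) * h) (n := 2 * J) (fun k _ => (hc k).1)
    rw [a0, a1] at h2
    rw [← h2, ← ab_reindex g J, Finset.mul_sum]
    exact Finset.sum_congr rfl fun k _ => (hc k).2

private theorem ab_vr_nonneg (γ : ℝ) (U : ℤ → St) (i : ℤ) : 0 ≤ vr γ U i := by
  unfold vr
  positivity

private theorem ab_lip {γ C' ν h : ℝ} (hC' : 0 < C') (hν : 0 < ν) (hh : 0 < h) (W : ℕ → ℤ → St)
    (f : St → ℝ)
    (h1 : ∀ n i, |f (W (n + 1) i) - f (W n i)| ≤ C' * (vr γ (W n) (i - 1) + vr γ (W n) i))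
    (h2 : ∀ n (M : ℕ), ∑ i ∈ Finset.Ico (-(M : ℤ)) M, vr γ (W n) i ≤ C') {s t R : ℝ}
    (hs : 0 ≤ s) (hst : s ≤ t) :
    ∫ x in Ioo (-R) R, |f (W ⌊t / (ν * h)⌋₊ ⌊x / h⌋) - f (W ⌊s / (ν * h)⌋₊ ⌊x / h⌋)| ≤
      2 * C' ^ 2 * (1 / ν + 1) * (t - s + h) := by
  have hνh : 0 < ν * h := mul_pos hν hh
  obtain ⟨m, hm⟩ : ∃ m, m = ⌊t / (ν * h)⌋₊ := ⟨_, rfl⟩
  obtain ⟨n, hn⟩ : ∃ n, n = ⌊s / (ν * h)⌋₊ := ⟨_, rfl⟩
  rw [← hm, ← hn]
  have hnm : n ≤ m := by
    rw [hm, hn]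
    exact Nat.floor_mono (div_le_div_of_nonneg_right hst hνh.le)
  obtain ⟨e, he⟩ : ∃ e : ℤ → ℝ, e = fun i => ∑ j ∈ Finset.Ico n m,
    |f (W (j + 1) i) - f (W j i)| := ⟨_, rfl⟩
  have he0 : ∀ i, 0 ≤ e i := fun i => by
    rw [he]
    exact Finset.sum_nonneg fun _ _ => abs_nonneg _
  have hle : ∀ i, |f (W m i) - f (W n i)| ≤ e i := by
    intro i
    rw [he]
    have h3 : f (W m i) - f (W n i) = ∑ j ∈ Finset.Ico n m, (f (W (j + 1) i) - f (W j i)) :=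
      (Finset.sum_Ico_sub (fun j => f (W j i)) hnm).symm
    rw [h3]
    exact Finset.abs_sum_le_sum_abs _ _
  obtain ⟨J, hJ⟩ : ∃ J : ℕ, R ≤ J * h := by
    obtain ⟨J, hJ⟩ := exists_nat_ge (R / h)
    exact ⟨J, by rwa [div_le_iff₀ hh] at hJ⟩
  obtain ⟨hint, hval⟩ := ab_int e hh J
  have hJ0 : -((J : ℝ) * h) ≤ J * h := by
    have : 0 ≤ (J : ℝ) * h := by positivity
    linarith
  rw [intervalIntegrable_iff_integrableOn_Ioc_of_le hJ0] at hint
  rw [intervalIntegral.integral_of_le hJ0] at hval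
  have hsub : Ioo (-R) R ⊆ Ioc (-((J : ℝ) * h)) (J * h) := fun x hx =>
    ⟨by linarith [hx.1], by linarith [hx.2]⟩
  have s1 : ∫ x in Ioo (-R) R, |f (W m ⌊x / h⌋) - f (W n ⌊x / h⌋)| ≤
      ∫ x in Ioo (-R) R, e ⌊x / h⌋ :=
    integral_mono_of_nonneg (Eventually.of_forall fun _ => abs_nonneg _) (hint.mono_set hsub)
      (Eventually.of_forall fun x => hle _)
  have s2 : ∫ x in Ioo (-R) R, e ⌊x / h⌋ ≤ ∫ x in Ioc (-((J : ℝ) * h)) (J * h), e ⌊x / h⌋ :=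
    setIntegral_mono_set hint (Eventually.of_forall fun x => he0 _)
      (Eventually.of_forall hsub)
  have s3 : ∑ i ∈ Finset.Ico (-(J : ℤ)) J, e i ≤ ((m : ℝ) - n) * (2 * C' ^ 2) := by
    rw [he]
    rw [Finset.sum_comm]
    have h4 : ∀ j ∈ Finset.Ico n m, ∑ i ∈ Finset.Ico (-(J : ℤ)) J,
        |f (W (j + 1) i) - f (W j i)| ≤ 2 * C' ^ 2 := by
      intro j _
      have h5 : ∑ i ∈ Finset.Ico (-(J : ℤ)) J, vr γ (W j) (i - 1) ≤ C' := by
        have h6 : ∑ i ∈ Finset.Ico (-(J : ℤ)) J, vr γ (W j) (i - 1) =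
            ∑ i ∈ (Finset.Ico (-(J : ℤ)) J).image (fun i => i - 1), vr γ (W j) i := by
          rw [Finset.sum_image fun a _ b _ hab => by
            have : a - 1 = b - 1 := hab
            omega]
        rw [h6]
        refine le_trans (Finset.sum_le_sum_of_subset_of_nonneg ?_
          fun i _ _ => ab_vr_nonneg γ (W j) i) (h2 j (J + 1))
        intro x hx
        obtain ⟨y, hy, rfl⟩ := Finset.mem_image.1 hx
        rw [Finset.mem_Ico] at hy ⊢
        push_cast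
        omega
      calc ∑ i ∈ Finset.Ico (-(J : ℤ)) J, |f (W (j + 1) i) - f (W j i)|
          ≤ ∑ i ∈ Finset.Ico (-(J : ℤ)) J, C' * (vr γ (W j) (i - 1) + vr γ (W j) i) :=
            Finset.sum_le_sum fun i _ => h1 j i
        _ = C' * ((∑ i ∈ Finset.Ico (-(J : ℤ)) J, vr γ (W j) (i - 1)) +
            ∑ i ∈ Finset.Ico (-(J : ℤ)) J, vr γ (W j) i) := by
            rw [← Finset.sum_add_distrib, Finset.mul_sum]
        _ ≤ C' * (C' + C') := by
            have := h2 j J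
            gcongr
        _ = 2 * C' ^ 2 := by ring
    refine (Finset.sum_le_sum h4).trans ?_
    rw [Finset.sum_const, Nat.card_Ico, nsmul_eq_mul, Nat.cast_sub hnm]
  have s4 : ((m : ℝ) - n) * h ≤ (t - s) / ν + h := by
    have h3 : (m : ℝ) ≤ t / (ν * h) := by
      rw [hm]
      exact Nat.floor_le (div_nonneg (hs.trans hst) hνh.le)
    have h4 : s / (ν * h) < (n : ℝ) + 1 := by
      rw [hn]
      exact Nat.lt_floor_add_one _
    have h5 : (m : ℝ) - n ≤ (t - s) / (ν * h) + 1 := by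
      rw [sub_div]
      linarith
    have h6 := mul_le_mul_of_nonneg_right h5 hh.le
    have h7 : ((t - s) / (ν * h) + 1) * h = (t - s) / ν + h := by
      field_simp
    rw [h7] at h6
    exact h6
  have hts : 0 ≤ t - s := by linarith
  calc ∫ x in Ioo (-R) R, |f (W m ⌊x / h⌋) - f (W n ⌊x / h⌋)|
      ≤ h * ∑ i ∈ Finset.Ico (-(J : ℤ)) J, e i := by
        rw [← hval]
        exact s1.trans s2
    _ ≤ h * (((m : ℝ) - n) * (2 * C' ^ 2)) := mul_le_mul_of_nonneg_left s3 hh.le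
    _ = 2 * C' ^ 2 * (((m : ℝ) - n) * h) := by ring
    _ ≤ 2 * C' ^ 2 * ((t - s) / ν + h) := by gcongr
    _ ≤ 2 * C' ^ 2 * ((1 / ν + 1) * (t - s + h)) := by
        have h8 : (1 / ν + 1) * (t - s + h) = (t - s) / ν + h + ((t - s) + h / ν) := by
          field_simp
          ring
        have h9 : 0 ≤ (t - s) + h / ν := by positivity
        refine mul_le_mul_of_nonneg_left ?_ (by positivity)
        rw [h8]
        linarith
    _ = 2 * C' ^ 2 * (1 / ν + 1) * (t - s + h) := by ring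

theorem arr_lip {γ ζ₁ ζ₂ Λ₀ U₀ θ μ V₁ K δ Λc C ν : ℝ}
    (hA : Adm γ ζ₁ ζ₂ Λ₀ U₀ θ μ V₁ K δ Λc C) (hν : 0 < ν) : ∃ L : ℝ, 0 < L ∧
    ∀ (w₀ : St) (W : ℕ → ℤ → St) (h : ℝ), 0 < h →
      (∀ n, Good γ ζ₁ ζ₂ Λ₀ U₀ θ μ V₁ K δ w₀ (W n)) →
      (∀ n, ∃ θ' ∈ Ico (0 : ℝ) 1, W (n + 1) = stp γ ν (W n) θ') →
      ∀ s t R : ℝ, 0 ≤ s → s ≤ t → 0 < R →
        ∫ x in Ioo (-R) R, |(W ⌊t / (ν * h)⌋₊ ⌊x / h⌋).z - (W ⌊s / (ν * h)⌋₊ ⌊x / h⌋).z| ≤
          L * (t - s + h) ∧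
        ∫ x in Ioo (-R) R, |(W ⌊t / (ν * h)⌋₊ ⌊x / h⌋).u - (W ⌊s / (ν * h)⌋₊ ⌊x / h⌋).u| ≤
          L * (t - s + h) ∧
        ∫ x in Ioo (-R) R, |(W ⌊t / (ν * h)⌋₊ ⌊x / h⌋).l - (W ⌊s / (ν * h)⌋₊ ⌊x / h⌋).l| ≤
          L * (t - s + h) := by
  obtain ⟨C', hC', hbd⟩ := step_bd hA
  refine ⟨2 * C' ^ 2 * (1 / ν + 1), by positivity, fun w₀ W h hh hG hst s t R hs hst' _ => ?_⟩
  have h2 : ∀ n (M : ℕ), ∑ i ∈ Finset.Ico (-(M : ℤ)) M, vr γ (W n) i ≤ C' := fun n M =>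
    (hbd w₀ (W n) (hG n)).2.2.2.2 M
  have h1 : ∀ n i, |(W (n + 1) i).z - (W n i).z| ≤
        C' * (vr γ (W n) (i - 1) + vr γ (W n) i) ∧
      |(W (n + 1) i).u - (W n i).u| ≤ C' * (vr γ (W n) (i - 1) + vr γ (W n) i) ∧
      |(W (n + 1) i).l - (W n i).l| ≤ C' * (vr γ (W n) (i - 1) + vr γ (W n) i) := by
    intro n i
    obtain ⟨θ', -, hθ'⟩ := hst n
    rw [hθ']
    exact (hbd w₀ (W n) (hG n)).2.1 ν θ' i
  exact ⟨ab_lip hC' hν hh W St.z (fun n i => (h1 n i).1) h2 hs hst',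
    ab_lip hC' hν hh W St.u (fun n i => (h1 n i).2.1) h2 hs hst',
    ab_lip hC' hν hh W St.l (fun n i => (h1 n i).2.2) h2 hs hst'⟩

end Helper51.TH
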