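import Pool.Agent.Helper51.TH.PDefs

/-!
TH-P09. The functionals of lists of wave records.

PROOF. All by induction on the list (generalising the outer contents). `As_append`: for `w :: X`,
`Vc ((w :: X) ++ Y) = w.s + Vc X + Vc Y`, so the weight of `w.q` is `wt (R0 + Vc X + Vc Y)` on both sides.
`As_mono`: `sin` is increasing on `[-π/2, π/2]` and 1-Lipschitz; all arguments `θ + μ x` that occur satisfy
`0 ≤ x ≤ L0' + R0' + Vc W`. `As_bounds`: `sin θ ≤ sin(θ + μ x) ≤ 1` for `0 ≤ x`, `θ + μ x ≤ π/2`.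
`Qp_append`: induction; `cross (w :: X) Y = (Y.map (qq2 w)).sum + cross X Y`.
-/

open Set Filter Topology

namespace Helper51.TH

/-- Nonnegative records. -/
def Nn (W : List Wv) : Prop := ∀ w ∈ W, 0 ≤ w.p ∧ 0 ≤ w.q ∧ 0 ≤ w.s

/-- The scaled amplitude. -/
noncomputable def Pq (W : List Wv) : ℝ := (W.map fun w => w.p + w.q).sum

/-- The interaction between two lists. -/
noncomputable def cross (X Y : List Wv) : ℝ := (X.map fun v => (Y.map fun w => qq2 v w).sum).sum

private theorem ng0 (x : ℝ) : 0 ≤ ng x := le_max_right _ _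

private theorem ngl (x : ℝ) : ng x ≤ |x| := max_le (neg_le_abs x) (abs_nonneg x)

private theorem ap0 (x y : ℝ) : 0 ≤ ap x y := by
  unfold ap
  have h1 := ng0 x
  have h2 := ng0 y
  positivity

private theorem apl (x y : ℝ) : ap x y ≤ 2 * |x| * |y| := by
  unfold ap
  have h1 := mul_le_mul_of_nonneg_right (ngl x) (abs_nonneg y)
  have h2 := mul_le_mul_of_nonneg_left (ngl y) (abs_nonneg x)
  linarith

private theorem Vc_cons (w : Wv) (W : List Wv) : Vc (w :: W) = w.s + Vc W := by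
  unfold Vc
  rw [List.map_cons, List.sum_cons]

private theorem Pq_cons (w : Wv) (W : List Wv) : Pq (w :: W) = w.p + w.q + Pq W := by
  unfold Pq
  rw [List.map_cons, List.sum_cons]

private theorem Am_cons (w : Wv) (W : List Wv) : Am (w :: W) = |w.a| + |w.b| + Am W := by
  unfold Am
  rw [List.map_cons, List.sum_cons]

private theorem cross_cons (w : Wv) (X Y : List Wv) :
    cross (w :: X) Y = (Y.map fun v => qq2 w v).sum + cross X Y := by
  unfold cross
  rw [List.map_cons, List.sum_cons]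

private theorem Qp_cons (w : Wv) (W : List Wv) :
    Qp (w :: W) = (W.map fun v => qq2 w v).sum + Qp W := rfl

private theorem As_cons (θ μ L0 R0 : ℝ) (w : Wv) (W : List Wv) :
    As θ μ L0 R0 (w :: W) =
      wt θ μ L0 * w.p + wt θ μ (R0 + Vc W) * w.q + As θ μ (L0 + w.s) R0 W := rfl

private theorem As_nil (θ μ L0 R0 : ℝ) : As θ μ L0 R0 [] = 0 := rfl

private theorem Nn_tail {w : Wv} {W : List Wv} (h : Nn (w :: W)) : Nn W :=
  fun v hv => h v (List.mem_cons_of_mem w hv)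

private theorem qq2_le (v w : Wv) :
    qq2 v w ≤ 2 * (|v.a| + |v.b|) * (|w.a| + |w.b|) := by
  unfold qq2
  have h1 := apl v.a w.a
  have h2 := apl v.b w.b
  have h3 : 0 ≤ |v.a| * |w.b| := by positivity
  have h4 : 0 ≤ |v.b| * |w.a| := by positivity
  nlinarith

private theorem sum_qq2_le (v : Wv) (W : List Wv) :
    (W.map fun w => qq2 v w).sum ≤ 2 * (|v.a| + |v.b|) * Am W := by
  induction W with
  | nil =>
    unfold Am
    simp
  | cons w W ih =>
    rw [List.map_cons, List.sum_cons, Am_cons]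
    have := qq2_le v w
    linarith

private theorem wt_mono {θ μ x y : ℝ} (hθ : 0 ≤ θ) (hμ : 0 ≤ μ) (hx : 0 ≤ x) (hxy : x ≤ y)
    (h : θ + μ * y ≤ Real.pi / 2) :
    wt θ μ x ≤ wt θ μ y ∧ wt θ μ y ≤ wt θ μ x + μ * (y - x) := by
  unfold wt
  have h1 : μ * x ≤ μ * y := mul_le_mul_of_nonneg_left hxy hμ
  have h2 : 0 ≤ μ * x := mul_nonneg hμ hx
  have hpi := Real.pi_pos
  refine ⟨Real.sin_le_sin_of_le_of_le_pi_div_two (by linarith) h (by linarith), ?_⟩
  have h3 := Real.abs_sin_sub_sin_le (θ + μ * y) (θ + μ * x)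
  have h4 : θ + μ * y - (θ + μ * x) = μ * (y - x) := by ring
  rw [h4, abs_of_nonneg (mul_nonneg hμ (by linarith))] at h3
  have h5 := le_abs_self (Real.sin (θ + μ * y) - Real.sin (θ + μ * x))
  linarith

private theorem wt_bds {θ μ x : ℝ} (hθ : 0 ≤ θ) (hμ : 0 ≤ μ) (hx : 0 ≤ x)
    (h : θ + μ * x ≤ Real.pi / 2) : Real.sin θ ≤ wt θ μ x ∧ wt θ μ x ≤ 1 := by
  unfold wt
  have h2 : 0 ≤ μ * x := mul_nonneg hμ hx
  have hpi := Real.pi_pos
  exact ⟨Real.sin_le_sin_of_le_of_le_pi_div_two (by linarith) h (by linarith), Real.sin_le_one _⟩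

theorem Vc_append (X Y : List Wv) : Vc (X ++ Y) = Vc X + Vc Y := by
  unfold Vc
  rw [List.map_append, List.sum_append]

theorem Pq_append (X Y : List Wv) : Pq (X ++ Y) = Pq X + Pq Y := by
  unfold Pq
  rw [List.map_append, List.sum_append]

theorem Am_append (X Y : List Wv) : Am (X ++ Y) = Am X + Am Y := by
  unfold Am
  rw [List.map_append, List.sum_append]

theorem Vc_nonneg {W : List Wv} (h : Nn W) : 0 ≤ Vc W := by
  refine List.sum_nonneg fun x hx => ?_
  obtain ⟨w, hw, rfl⟩ := List.mem_map.1 hx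
  exact (h w hw).2.2

theorem Pq_nonneg {W : List Wv} (h : Nn W) : 0 ≤ Pq W := by
  refine List.sum_nonneg fun x hx => ?_
  obtain ⟨w, hw, rfl⟩ := List.mem_map.1 hx
  exact add_nonneg (h w hw).1 (h w hw).2.1

theorem Am_nonneg (W : List Wv) : 0 ≤ Am W := by
  refine List.sum_nonneg fun x hx => ?_
  obtain ⟨w, hw, rfl⟩ := List.mem_map.1 hx
  positivity

theorem qq2_nonneg (v w : Wv) : 0 ≤ qq2 v w := by
  unfold qq2
  have h1 := ap0 v.a w.a
  have h2 := ap0 v.b w.b
  positivity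

theorem Qp_nonneg (W : List Wv) : 0 ≤ Qp W := by
  induction W with
  | nil => exact le_rfl
  | cons w W ih =>
    rw [Qp_cons]
    refine add_nonneg (List.sum_nonneg fun x hx => ?_) ih
    obtain ⟨v, _, rfl⟩ := List.mem_map.1 hx
    exact qq2_nonneg w v

theorem Qp_append (X Y : List Wv) : Qp (X ++ Y) = Qp X + Qp Y + cross X Y := by
  induction X with
  | nil =>
    unfold cross
    simp [Qp]
  | cons w X ih =>
    rw [List.cons_append, Qp_cons, ih, cross_cons, Qp_cons, List.map_append, List.sum_append]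
    ring

/-- `qq2 v w ≤ 2 (|v.a| + |v.b|) (|w.a| + |w.b|)`, and sum. -/
theorem Qp_le (W : List Wv) : Qp W ≤ 2 * Am W ^ 2 := by
  induction W with
  | nil =>
    have : 0 ≤ 2 * Am [] ^ 2 := by positivity
    exact this
  | cons w W ih =>
    rw [Qp_cons, Am_cons]
    have h1 := sum_qq2_le w W
    have h2 := Am_nonneg W
    have h3 : 0 ≤ (|w.a| + |w.b|) * Am W := by positivity
    have h4 : 0 ≤ (|w.a| + |w.b|) ^ 2 := by positivity
    nlinarith

theorem As_append (θ μ L0 R0 : ℝ) (X Y : List Wv) :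
    As θ μ L0 R0 (X ++ Y) = As θ μ L0 (R0 + Vc Y) X + As θ μ (L0 + Vc X) R0 Y := by
  induction X generalizing L0 with
  | nil =>
    have h : Vc [] = 0 := rfl
    rw [List.nil_append, As_nil, h, add_zero, zero_add]
  | cons w X ih =>
    rw [List.cons_append, As_cons, As_cons, ih, Vc_append, Vc_cons]
    have h1 : R0 + (Vc X + Vc Y) = R0 + Vc Y + Vc X := by ring
    have h2 : L0 + w.s + Vc X = L0 + (w.s + Vc X) := by ring
    rw [h1, h2]
    ring

theorem As_bounds {θ μ L0 R0 : ℝ} {W : List Wv} (hθ : 0 ≤ θ) (hμ : 0 ≤ μ) (hW : Nn W)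
    (hL : 0 ≤ L0) (hR : 0 ≤ R0) (h : θ + μ * (L0 + R0 + Vc W) ≤ Real.pi / 2) :
    Real.sin θ * Pq W ≤ As θ μ L0 R0 W ∧ As θ μ L0 R0 W ≤ Pq W ∧ 0 ≤ As θ μ L0 R0 W := by
  have key : Real.sin θ * Pq W ≤ As θ μ L0 R0 W ∧ As θ μ L0 R0 W ≤ Pq W := by
    induction W generalizing L0 with
    | nil =>
      have h0 : Pq [] = 0 := rfl
      rw [As_nil, h0, mul_zero]
      exact ⟨le_rfl, le_rfl⟩
    | cons w W ih =>
      rw [Vc_cons] at h
      have hw := hW w List.mem_cons_self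
      have hV := Vc_nonneg (Nn_tail hW)
      have hm1 : 0 ≤ μ * L0 := mul_nonneg hμ hL
      have hm2 : 0 ≤ μ * R0 := mul_nonneg hμ hR
      have hm3 : 0 ≤ μ * Vc W := mul_nonneg hμ hV
      have hm4 : 0 ≤ μ * w.s := mul_nonneg hμ hw.2.2
      obtain ⟨i1, i2⟩ := ih (Nn_tail hW) (L0 := L0 + w.s) (add_nonneg hL hw.2.2) (by nlinarith)
      obtain ⟨a1, a2⟩ := wt_bds hθ hμ hL (by nlinarith)
      obtain ⟨b1, b2⟩ := wt_bds hθ hμ (add_nonneg hR hV) (by nlinarith)
      rw [As_cons, Pq_cons]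
      have c1 := mul_le_mul_of_nonneg_right a1 hw.1
      have c2 := mul_le_mul_of_nonneg_right a2 hw.1
      have d1 := mul_le_mul_of_nonneg_right b1 hw.2.1
      have d2 := mul_le_mul_of_nonneg_right b2 hw.2.1
      constructor
      · linarith
      · linarith
  refine ⟨key.1, key.2, le_trans ?_ key.1⟩
  refine mul_nonneg (Real.sin_nonneg_of_nonneg_of_le_pi hθ ?_) (Pq_nonneg hW)
  have hm : 0 ≤ μ * (L0 + R0 + Vc W) := mul_nonneg hμ (by
    have := Vc_nonneg hW
    linarith)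
  have hpi := Real.pi_pos
  linarith

theorem As_mono {θ μ L0 R0 L0' R0' : ℝ} {W : List Wv} (hθ : 0 ≤ θ) (hμ : 0 ≤ μ) (hW : Nn W)
    (hL : 0 ≤ L0) (hR : 0 ≤ R0) (hLL : L0 ≤ L0') (hRR : R0 ≤ R0')
    (h : θ + μ * (L0' + R0' + Vc W) ≤ Real.pi / 2) :
    As θ μ L0 R0 W ≤ As θ μ L0' R0' W ∧
    As θ μ L0' R0' W ≤ As θ μ L0 R0 W + μ * ((L0' - L0) + (R0' - R0)) * Pq W := by
  induction W generalizing L0 L0' with
  | nil =>
    have h0 : Pq [] = 0 := rfl
    rw [As_nil, As_nil, h0, mul_zero, add_zero]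
    exact ⟨le_rfl, le_rfl⟩
  | cons w W ih =>
    rw [Vc_cons] at h
    have hw := hW w List.mem_cons_self
    have hV := Vc_nonneg (Nn_tail hW)
    have hm1 : 0 ≤ μ * L0' := mul_nonneg hμ (hL.trans hLL)
    have hm2 : 0 ≤ μ * R0' := mul_nonneg hμ (hR.trans hRR)
    have hm3 : 0 ≤ μ * Vc W := mul_nonneg hμ hV
    have hm4 : 0 ≤ μ * w.s := mul_nonneg hμ hw.2.2
    obtain ⟨i1, i2⟩ := ih (Nn_tail hW) (L0 := L0 + w.s) (L0' := L0' + w.s)
      (add_nonneg hL hw.2.2) (by linarith) (by nlinarith)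
    obtain ⟨a1, a2⟩ := wt_mono hθ hμ hL hLL (by nlinarith)
    obtain ⟨b1, b2⟩ := wt_mono hθ hμ (add_nonneg hR hV)
      (show R0 + Vc W ≤ R0' + Vc W by linarith) (by nlinarith)
    rw [As_cons, As_cons, Pq_cons]
    have c1 := mul_le_mul_of_nonneg_right a1 hw.1
    have c2 := mul_le_mul_of_nonneg_right a2 hw.1
    have d1 := mul_le_mul_of_nonneg_right b1 hw.2.1
    have d2 := mul_le_mul_of_nonneg_right b2 hw.2.1
    have e1 : 0 ≤ μ * (R0' - R0) * w.p :=
      mul_nonneg (mul_nonneg hμ (by linarith)) hw.1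
    have e2 : 0 ≤ μ * (L0' - L0) * w.q :=
      mul_nonneg (mul_nonneg hμ (by linarith)) hw.2.1
    constructor
    · linarith
    · have f1 : L0' + w.s - (L0 + w.s) = L0' - L0 := by ring
      have f2 : R0' + Vc W - (R0 + Vc W) = R0' - R0 := by ring
      rw [f1] at i2
      rw [f2] at d2
      have f3 : μ * (L0' - L0 + (R0' - R0)) * (w.p + w.q + Pq W) =
          (μ * (L0' - L0) * w.p + μ * (R0' - R0) * w.q) +
          (μ * (R0' - R0) * w.p + μ * (L0' - L0) * w.q) +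
          μ * (L0' - L0 + (R0' - R0)) * Pq W := by ring
      rw [f3]
      rw [add_mul] at c2 d2
      linarith

end Helper51.TH
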