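import Pool.Agent.Helper51.TH.NDefs

/-!
TH-N08. The signal.

PROOF. Let `w > 0` with `w ≤ ε / 4` and `2 w < |q.2 - q'.2|` for all `q, q' ∈ P` with `q.2 ≠ q'.2` (finite list). Let `χ`
be a smooth bump (`ContDiffBump` at `0` with radii `w/2`, `w`): `0 ≤ χ ≤ 1`, `χ 0 = 1`, `χ t = 0` for `|t| ≥ w`. Put
`f t = ∑_{q ∈ P, q.2 ≤ Θ} sign (q.1) * χ (t - (Θ + ε - q.2))` (sum over the list) and `η = ε / 2`.
* smooth, compact support: finite sum.
* `|f| ≤ 1`: for given `t` at most one `q ∈ P` (the second components are pairwise different: `Nodup`) has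
  `|t - (Θ + ε - q.2)| < w`, because two such values of `q.2` would differ by less than `2 w`.
* `f t = 0` for `t < η`: `Θ + ε - q.2 ≥ ε`, and `ε - w ≥ ε / 2`.
* For `q ∈ P`: `f (Θ + ε - q.2) = ∑_{q' ∈ P, q'.2 ≤ Θ} sign q'.1 * χ (q'.2 - q.2)`, and `χ (q'.2 - q.2) = 1` if
  `q' = q`, `= 0` otherwise; so it is `sign q.1` if `q.2 ≤ Θ` and `0` otherwise. `q.1 * sign q.1 = |q.1|`.
(A convenient way: the list `P` with `Nodup` second components is a `Finset` of pairs; `List.sum_toFinset`.)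
-/

namespace Helper51.TH

private theorem abs_sum_le_one_of_unique {α : Type*} (S : Finset α) (g : α → ℝ)
    (h1 : ∀ q ∈ S, |g q| ≤ 1) (h2 : ∀ q ∈ S, ∀ q' ∈ S, g q ≠ 0 → g q' ≠ 0 → q = q') :
    |∑ q ∈ S, g q| ≤ 1 := by
  by_cases h : ∃ q ∈ S, g q ≠ 0
  · obtain ⟨q, hq, hq0⟩ := h
    rw [Finset.sum_eq_single_of_mem q hq fun q' hq' hne => by
      by_contra hc
      exact hne (h2 q' hq' q hq hc hq0)]
    exact h1 q hq
  · push Not at h
    rw [Finset.sum_eq_zero h, abs_zero]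
    exact zero_le_one

private theorem exists_width (S : Finset (ℝ × ℝ)) {ε : ℝ} (hε : 0 < ε) :
    ∃ w : ℝ, 0 < w ∧ w ≤ ε / 4 ∧ ∀ q ∈ S, ∀ q' ∈ S, q.2 ≠ q'.2 → 2 * w < |q.2 - q'.2| := by
  have h1 : ∀ᶠ w : ℝ in nhdsWithin 0 (Set.Ioi 0), 0 < w := self_mem_nhdsWithin
  have h2 : ∀ᶠ w : ℝ in nhdsWithin 0 (Set.Ioi 0), w ≤ ε / 4 := by
    refine nhdsWithin_le_nhds (eventually_le_nhds ?_)
    positivity
  have h3 : ∀ᶠ w : ℝ in nhdsWithin 0 (Set.Ioi 0), ∀ q ∈ S, ∀ q' ∈ S, q.2 ≠ q'.2 →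
      2 * w < |q.2 - q'.2| := by
    rw [Filter.eventually_all_finset]
    intro q _
    rw [Filter.eventually_all_finset]
    intro q' _
    by_cases hne : q.2 = q'.2
    · exact Filter.Eventually.of_forall fun w hw => absurd hne hw
    · have hpos : 0 < |q.2 - q'.2| / 2 := by
        have : 0 < |q.2 - q'.2| := abs_pos.2 (sub_ne_zero.2 hne)
        positivity
      have h4 : ∀ᶠ w : ℝ in nhdsWithin 0 (Set.Ioi 0), w < |q.2 - q'.2| / 2 :=
        nhdsWithin_le_nhds (eventually_lt_nhds hpos)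
      filter_upwards [h4] with w hw _
      linarith
  obtain ⟨w, hw⟩ := (h1.and (h2.and h3)).exists
  exact ⟨w, hw.1, hw.2.1, hw.2.2⟩

theorem exists_signal (P : List (ℝ × ℝ)) (hP : (P.map Prod.snd).Nodup) {Θ ε : ℝ} (hΘ : 0 ≤ Θ)
    (hε : 0 < ε) : ∃ (η : ℝ) (f : ℝ → ℝ), 0 < η ∧ η < ε ∧ ContDiff ℝ 2 f ∧ HasCompactSupport f ∧
      (∀ t, |f t| ≤ 1) ∧ (∀ t < η, f t = 0) ∧
      (P.map fun q => q.1 * f (Θ + ε - q.2)).sum =
        (P.map fun q => if q.2 ≤ Θ then |q.1| else 0).sum := by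
  classical
  have hnd : P.Nodup := hP.of_map
  obtain ⟨S, hS⟩ : ∃ S : Finset (ℝ × ℝ), S = P.toFinset := ⟨_, rfl⟩
  have hinj : ∀ q ∈ S, ∀ q' ∈ S, q.2 = q'.2 → q = q' := by
    intro q hq q' hq' h
    rw [hS, List.mem_toFinset] at hq hq'
    exact List.inj_on_of_nodup_map hP hq hq' h
  obtain ⟨w, hw0, hwε, hw⟩ := exists_width S hε
  obtain ⟨χ, hχr⟩ : ∃ χ : ContDiffBump (0 : ℝ), χ.rOut = w :=
    ⟨⟨w / 2, w, by positivity, by linarith⟩, rfl⟩
  have hχ0 : χ 0 = 1 := χ.one_of_mem_closedBall (by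
    rw [Metric.mem_closedBall, dist_self]
    exact χ.rIn_pos.le)
  have hχz : ∀ t, w ≤ |t| → χ t = 0 := by
    intro t ht
    refine χ.zero_of_le_dist ?_
    rw [hχr, Real.dist_eq, sub_zero]
    exact ht
  obtain ⟨g, hg⟩ : ∃ g : ℝ × ℝ → ℝ → ℝ, ∀ q t, g q t =
      if q.2 ≤ Θ then ((SignType.sign q.1 : SignType) : ℝ) * χ (t - (Θ + ε - q.2)) else 0 :=
    ⟨fun q t => if q.2 ≤ Θ then ((SignType.sign q.1 : SignType) : ℝ) * χ (t - (Θ + ε - q.2))
      else 0, fun _ _ => rfl⟩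
  have hgz : ∀ q t, w ≤ |t - (Θ + ε - q.2)| → g q t = 0 := by
    intro q t h
    rw [hg, hχz _ h, mul_zero, ite_self]
  have hsgn : ∀ x : ℝ, |((SignType.sign x : SignType) : ℝ)| ≤ 1 := by
    intro x
    rcases lt_trichotomy x 0 with h | h | h
    · rw [sign_neg h]; simp
    · rw [h, sign_zero]; simp
    · rw [sign_pos h]; simp
  have hg1 : ∀ q t, |g q t| ≤ 1 := by
    intro q t
    rw [hg]
    split_ifs
    · rw [abs_mul, abs_of_nonneg χ.nonneg]
      exact mul_le_one₀ (hsgn _) χ.nonneg χ.le_one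
    · rw [abs_zero]
      exact zero_le_one
  have hgs : ∀ q, ContDiff ℝ 2 (g q) := by
    intro q
    have h1 : g q = fun t => if q.2 ≤ Θ then
        ((SignType.sign q.1 : SignType) : ℝ) * χ (t - (Θ + ε - q.2)) else 0 := funext (hg q)
    rw [h1]
    by_cases h : q.2 ≤ Θ
    · simp only [if_pos h]
      exact contDiff_const.mul (χ.contDiff.comp (contDiff_id.sub contDiff_const))
    · simp only [if_neg h]
      exact contDiff_const
  refine ⟨ε / 2, fun t => ∑ q ∈ S, g q t, by positivity, by linarith,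
    ContDiff.sum fun q _ => hgs q, ?_, ?_, ?_, ?_⟩
  · refine HasCompactSupport.intro (K := Set.Icc (-(∑ q ∈ S, (w + |Θ + ε - q.2|)))
      (∑ q ∈ S, (w + |Θ + ε - q.2|))) isCompact_Icc fun t ht => ?_
    refine Finset.sum_eq_zero fun q hq => hgz q t ?_
    have h1 : w + |Θ + ε - q.2| ≤ ∑ q ∈ S, (w + |Θ + ε - q.2|) :=
      Finset.single_le_sum (f := fun q : ℝ × ℝ => w + |Θ + ε - q.2|)
        (fun q _ => by positivity) hq
    have h2 : ∑ q ∈ S, (w + |Θ + ε - q.2|) < |t| := by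
      by_contra hc
      push Not at hc
      exact ht (abs_le.1 hc)
    have h3 : |t| - |Θ + ε - q.2| ≤ |t - (Θ + ε - q.2)| := abs_sub_abs_le_abs_sub _ _
    linarith
  · intro t
    refine abs_sum_le_one_of_unique S (fun q => g q t) (fun q _ => hg1 q t) ?_
    intro q hq q' hq' h h'
    by_contra hne
    have hne2 : q.2 ≠ q'.2 := fun h => hne (hinj q hq q' hq' h)
    have h1 := hw q hq q' hq' hne2
    have h2 : |t - (Θ + ε - q.2)| < w := by
      by_contra hc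
      push Not at hc
      exact h (hgz q t hc)
    have h3 : |t - (Θ + ε - q'.2)| < w := by
      by_contra hc
      push Not at hc
      exact h' (hgz q' t hc)
    have h4 : |q.2 - q'.2| ≤ |t - (Θ + ε - q.2)| + |t - (Θ + ε - q'.2)| := by
      have h5 : q.2 - q'.2 = (t - (Θ + ε - q.2)) - (t - (Θ + ε - q'.2)) := by ring
      rw [h5]
      exact abs_sub _ _
    linarith
  · intro t ht
    refine Finset.sum_eq_zero fun q _ => ?_
    by_cases h : q.2 ≤ Θ
    · refine hgz q t ?_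
      rw [abs_of_neg (by linarith)]
      linarith
    · rw [hg, if_neg h]
  · rw [← List.sum_toFinset _ hnd, ← List.sum_toFinset _ hnd, ← hS]
    refine Finset.sum_congr rfl fun q hq => ?_
    have h1 : ∑ q' ∈ S, g q' (Θ + ε - q.2) = g q (Θ + ε - q.2) := by
      refine Finset.sum_eq_single_of_mem q hq fun q' hq' hne => hgz _ _ ?_
      have hne2 : q'.2 ≠ q.2 := fun h => hne (hinj q' hq' q hq h)
      have h2 := hw q' hq' q hq hne2
      have h3 : Θ + ε - q.2 - (Θ + ε - q'.2) = q'.2 - q.2 := by ring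
      rw [h3]
      linarith
    change q.1 * (∑ q' ∈ S, g q' (Θ + ε - q.2)) = _
    rw [h1, hg]
    split_ifs with h
    · rw [sub_self, hχ0, mul_one]
      exact self_mul_sign _
    · rw [mul_zero]

end Helper51.TH
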