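import Pool.Agent.Helper51.TH.Helly

/-!
TH-P27. Compactness of approximate solutions.

PROOF. (1) Subsequence: for every rational `t ≥ 0` apply `helly` to `f k (t, ·)`, diagonal argument over the countably many `t`: a
subsequence (again called `f`) such that `f k (t, ·)` converges pointwise for all rational `t ≥ 0`; by dominated convergence
`f k (t, ·)` is a Cauchy sequence in `L¹(-R, R)` for all `R`. (2) Uniformity in time: for `T, R, η > 0` choose rational
`0 = t_0 < ... < t_m`, mesh `≤ η`, covering `[0, T]`. For `t ∈ [0, T]`, `t_i ≤ t`, `t - t_i ≤ η`: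
`∫ |f j t - f k t| ≤ L (η + ε j) + L (η + ε k) + ∫ |f j t_i - f k t_i|`; so `sup_{t ≤ T} ∫_{|x|<R} |f j - f k| → 0` as `j, k → ∞`.
(`L ≥ 0` may be assumed: replace `L` by `max L 0`, if `t - s + ε k < 0` the hypothesis is still used only for large `k`... simply
enlarge `L (η + ε k)` to `|L| (η + |ε k|)`.) (3) Choose a subsequence with
`sup_{t ≤ k} ∫_{|x|<k} |f (φ (k+1)) - f (φ k)| ≤ 2^(-k)`. For every `t ≥ 0` and `R`, `∑_k ∫_{|x|<R} |f (φ (k+1)) t - f (φ k) t| < ∞`, so
`f (φ k) (t, x)` converges for a.e. `x`. Put `F z = limsup_k f (φ k) z` (measurable, `|F| ≤ M`); for every `t ≥ 0`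
`F(t, x) = lim` for a.e. `x`, and dominated convergence.
-/

open MeasureTheory Set Filter Topology
open scoped ENNReal

namespace Helper51.TH

/-- Convergence along a subsequence at countably many points. -/
private theorem diag_sel' {ι : Type} [Countable ι] {A : ℝ} (g : ℕ → ι → ℝ)
    (hA : ∀ k i, |g k i| ≤ A) :
    ∃ φ : ℕ → ℕ, StrictMono φ ∧ ∃ G : ι → ℝ,
      ∀ i, Tendsto (fun k => g (φ k) i) atTop (𝓝 (G i)) := by
  have hc : IsCompact (Set.pi univ (fun _ : ι => Icc (-A) A)) :=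
    isCompact_univ_pi (fun _ => isCompact_Icc)
  obtain ⟨G, -, φ, hφ, h⟩ := hc.tendsto_subseq (x := g)
    (fun k => fun i _ => abs_le.1 (hA k i))
  exact ⟨φ, hφ, G, fun i => (tendsto_pi_nhds.1 h i)⟩

/-- Limits of monotone functions at the points of continuity of the limit on the rationals. -/
private theorem mono_lim {A : ℝ} (g : ℕ → ℝ → ℝ) (hA : ∀ k x, |g k x| ≤ A)
    (hm : ∀ k, Monotone (g k)) (G : ℚ → ℝ)
    (hG : ∀ q : ℚ, Tendsto (fun k => g k q) atTop (𝓝 (G q))) :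
    ∃ H : ℝ → ℝ, Monotone H ∧
      ∀ x, ContinuousAt H x → Tendsto (fun k => g k x) atTop (𝓝 (H x)) := by
  have hGm : Monotone G := fun p q hpq =>
    le_of_tendsto_of_tendsto' (hG p) (hG q) (fun k => hm _ (by exact_mod_cast hpq))
  have hGA : ∀ q, |G q| ≤ A := fun q => le_of_tendsto' ((hG q).abs) (fun k => hA _ _)
  set H : ℝ → ℝ := fun x => sSup (G '' {q : ℚ | (q : ℝ) ≤ x}) with hH
  have hbdd : ∀ x : ℝ, BddAbove (G '' {q : ℚ | (q : ℝ) ≤ x}) := by
    intro x
    refine ⟨A, ?_⟩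
    rintro y ⟨q, -, rfl⟩
    exact (abs_le.1 (hGA q)).2
  have hne : ∀ x : ℝ, (G '' {q : ℚ | (q : ℝ) ≤ x}).Nonempty := by
    intro x
    obtain ⟨q, hq⟩ := exists_rat_lt x
    exact ⟨G q, q, hq.le, rfl⟩
  have hHm : Monotone H := by
    intro x y hxy
    refine csSup_le_csSup (hbdd y) (hne x) (image_mono ?_)
    intro q hq
    exact le_trans hq hxy
  have hHq : ∀ q : ℚ, H q = G q := by
    intro q
    refine le_antisymm (csSup_le (hne q) ?_) (le_csSup (hbdd q) ⟨q, le_refl (q : ℝ), rfl⟩)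
    rintro y ⟨p, hp, rfl⟩
    exact hGm (by exact_mod_cast hp)
  refine ⟨H, hHm, fun x hx => ?_⟩
  refine tendsto_order.2 ⟨fun a ha => ?_, fun b hb => ?_⟩
  · have h4 : ∀ᶠ y in 𝓝 x, a < H y := hx.eventually (lt_mem_nhds ha)
    obtain ⟨ε, hε, h5⟩ := Metric.eventually_nhds_iff.1 h4
    obtain ⟨q, hq1, hq2⟩ := exists_rat_btwn (show x - ε < x by linarith)
    have h6 : a < H q := h5 (by rw [Real.dist_eq, abs_lt]; constructor <;> linarith)
    rw [hHq] at h6
    filter_upwards [(hG q).eventually (lt_mem_nhds h6)] with k hk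
    exact lt_of_lt_of_le hk (hm _ hq2.le)
  · have h4 : ∀ᶠ y in 𝓝 x, H y < b := hx.eventually (gt_mem_nhds hb)
    obtain ⟨ε, hε, h5⟩ := Metric.eventually_nhds_iff.1 h4
    obtain ⟨q, hq1, hq2⟩ := exists_rat_btwn (show x < x + ε by linarith)
    have h6 : H q < b := h5 (by rw [Real.dist_eq, abs_lt]; constructor <;> linarith)
    rw [hHq] at h6
    filter_upwards [(hG q).eventually (gt_mem_nhds h6)] with k hk
    exact lt_of_le_of_lt (hm _ hq1.le) hk

/-- Helly's theorem for a countable family of sequences of monotone functions. -/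
private theorem mono_fam {ι : Type} [Countable ι] {A : ℝ} (g : ℕ → ι → ℝ → ℝ)
    (hA : ∀ k i x, |g k i x| ≤ A) (hm : ∀ k i, Monotone (g k i)) :
    ∃ φ : ℕ → ℕ, StrictMono φ ∧ ∃ G : ι → ℝ → ℝ,
      ∀ i x, Tendsto (fun k => g (φ k) i x) atTop (𝓝 (G i x)) := by
  obtain ⟨φ₁, h₁, G, hG⟩ := diag_sel' (ι := ι × ℚ) (fun k p => g k p.1 p.2)
    (fun k p => hA k p.1 p.2)
  have h2 : ∀ i, ∃ H : ℝ → ℝ, Monotone H ∧
      ∀ x, ContinuousAt H x → Tendsto (fun k => g (φ₁ k) i x) atTop (𝓝 (H x)) := fun i =>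
    mono_lim (fun k => g (φ₁ k) i) (fun k x => hA _ _ _) (fun k => hm _ _) (fun q => G (i, q))
      (fun q => hG (i, q))
  choose H hHm hH using h2
  have : ∀ i, Countable {x : ℝ // ¬ ContinuousAt (H i) x} := fun i =>
    (hHm i).countable_not_continuousAt.to_subtype
  obtain ⟨φ₂, h₂, G', hG'⟩ := diag_sel' (ι := Σ i, {x : ℝ // ¬ ContinuousAt (H i) x})
    (fun k p => g (φ₁ k) p.1 p.2) (fun k p => hA _ _ _)
  have key : ∀ i x, ∃ L : ℝ, Tendsto (fun k => g (φ₁ (φ₂ k)) i x) atTop (𝓝 L) := by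
    intro i x
    by_cases hx : ContinuousAt (H i) x
    · exact ⟨H i x, (hH i x hx).comp h₂.tendsto_atTop⟩
    · exact ⟨G' ⟨i, ⟨x, hx⟩⟩, hG' ⟨i, ⟨x, hx⟩⟩⟩
  choose L hL using key
  exact ⟨φ₁ ∘ φ₂, h₁.comp h₂, L, hL⟩

private theorem helly_fam {ι : Type} [Countable ι] {M V : ℝ} (f : ℕ → ι → ℝ → ℝ)
    (hM : ∀ k i x, |f k i x| ≤ M)
    (hV : ∀ k i, eVariationOn (f k i) univ ≤ ENNReal.ofReal V) :
    ∃ φ : ℕ → ℕ, StrictMono φ ∧ ∃ g : ι → ℝ → ℝ,
      ∀ i x, Tendsto (fun k => f (φ k) i x) atTop (𝓝 (g i x)) := by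
  have hbv : ∀ k i, BoundedVariationOn (f k i) univ := fun k i =>
    ne_top_of_le_ne_top ENNReal.ofReal_ne_top (hV k i)
  have hloc : ∀ k i, LocallyBoundedVariationOn (f k i) univ := fun k i =>
    (hbv k i).locallyBoundedVariationOn
  set v : ℕ → ι → ℝ → ℝ := fun k i x => variationOnFromTo (f k i) univ 0 x with hvdef
  have hv : ∀ k i x, |v k i x| ≤ (ENNReal.ofReal V).toReal := fun k i x =>
    (variationOnFromTo.abs_le_eVariationOn (hbv k i)).trans
      (ENNReal.toReal_mono ENNReal.ofReal_ne_top (hV k i))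
  have hvm : ∀ k i, Monotone (v k i) := fun k i x y h =>
    variationOnFromTo.monotoneOn (hloc k i) (mem_univ _) (mem_univ _) (mem_univ _) h
  have hwm : ∀ k i, Monotone (fun x => v k i x - f k i x) := fun k i x y h =>
    variationOnFromTo.sub_self_monotoneOn (hloc k i) (mem_univ _) (mem_univ _) (mem_univ _) h
  obtain ⟨φ₁, h₁, G₁, hG₁⟩ := mono_fam v hv hvm
  obtain ⟨φ₂, h₂, G₂, hG₂⟩ := mono_fam (A := (ENNReal.ofReal V).toReal + M)
    (fun k i x => v (φ₁ k) i x - f (φ₁ k) i x)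
    (fun k i x => (abs_sub _ _).trans (add_le_add (hv _ _ _) (hM _ _ _)))
    (fun k i => hwm (φ₁ k) i)
  refine ⟨φ₁ ∘ φ₂, h₁.comp h₂, fun i x => G₁ i x - G₂ i x, fun i x => ?_⟩
  have a := (hG₁ i x).comp h₂.tendsto_atTop
  have b := hG₂ i x
  refine (a.sub b).congr (fun k => ?_)
  simp only [Function.comp_apply]
  ring

private theorem intg {M R : ℝ} {a b : ℝ → ℝ} (ha : Measurable a) (hb : Measurable b)
    (hA : ∀ x, |a x| ≤ M) (hB : ∀ x, |b x| ≤ M) :
    IntegrableOn (fun x => |a x - b x|) (Ioo (-R) R) volume := by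
  refine Measure.integrableOn_of_bounded (M := 2 * M) (by simp)
    ((ha.sub hb).abs).aestronglyMeasurable ?_
  refine Eventually.of_forall (fun x => ?_)
  rw [Real.norm_eq_abs, abs_abs]
  refine (abs_sub _ _).trans ?_
  have := hA x
  have := hB x
  linarith

/-- Dominated convergence for `L¹` distances on bounded intervals. -/
private theorem dom {M R : ℝ} {a : ℕ → ℝ → ℝ} {b : ℝ → ℝ} (ha : ∀ k, Measurable (a k))
    (hb : Measurable b) (hA : ∀ k x, |a k x| ≤ M) (hB : ∀ x, |b x| ≤ M)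
    (hab : ∀ᵐ x : ℝ, Tendsto (fun k => a k x) atTop (𝓝 (b x))) :
    Tendsto (fun k => ∫ x in Ioo (-R) R, |a k x - b x|) atTop (𝓝 0) := by
  have t2 : Tendsto (fun k => ∫ x in Ioo (-R) R, |a k x - b x|) atTop
      (𝓝 (∫ x in Ioo (-R) R, |b x - b x|)) := by
    refine tendsto_integral_of_dominated_convergence (fun _ => 2 * M)
      (fun k => (((ha _).sub hb).abs).aestronglyMeasurable) ?_ (fun k => ?_) ?_
    · exact (integrableOn_const (by simp) : IntegrableOn (fun _ : ℝ => 2 * M) (Ioo (-R) R) volume)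
    · refine Eventually.of_forall (fun x => ?_)
      rw [Real.norm_eq_abs, abs_abs]
      refine (abs_sub _ _).trans ?_
      have := hA k x
      have := hB x
      linarith
    · filter_upwards [ae_restrict_of_ae hab] with x hx
      exact (hx.sub_const _).abs
  simpa using t2

private theorem tri {M R : ℝ} {a b c : ℝ → ℝ} (ha : Measurable a) (hb : Measurable b)
    (hc : Measurable c) (hA : ∀ x, |a x| ≤ M) (hB : ∀ x, |b x| ≤ M) (hC : ∀ x, |c x| ≤ M) :
    ∫ x in Ioo (-R) R, |a x - c x| ≤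
      (∫ x in Ioo (-R) R, |a x - b x|) + ∫ x in Ioo (-R) R, |b x - c x| := by
  rw [← integral_add (intg ha hb hA hB) (intg hb hc hB hC)]
  refine integral_mono (intg ha hc hA hC) ((intg ha hb hA hB).add (intg hb hc hB hC)) (fun x => ?_)
  exact abs_sub_le _ _ _

private theorem sym {R : ℝ} {a b : ℝ → ℝ} :
    ∫ x in Ioo (-R) R, |a x - b x| = ∫ x in Ioo (-R) R, |b x - a x| := by
  congr 1
  ext x
  exact abs_sub_comm _ _

theorem compact_strip {M V L : ℝ} {ε : ℕ → ℝ} (hε : Tendsto ε atTop (𝓝 0))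
    (f : ℕ → ℝ × ℝ → ℝ) (hm : ∀ k, Measurable (f k)) (hM : ∀ k z, |f k z| ≤ M)
    (hV : ∀ k t, 0 ≤ t → eVariationOn (fun x => f k (t, x)) univ ≤ ENNReal.ofReal V)
    (hL : ∀ k s t R, 0 ≤ s → s ≤ t → 0 < R →
      ∫ x in Ioo (-R) R, |f k (t, x) - f k (s, x)| ≤ L * (t - s + ε k)) :
    ∃ φ : ℕ → ℕ, StrictMono φ ∧ ∃ F : ℝ × ℝ → ℝ, Measurable F ∧ (∀ z, |F z| ≤ M) ∧
      ∀ t R : ℝ, 0 ≤ t → 0 < R →
        Tendsto (fun k => ∫ x in Ioo (-R) R, |f (φ k) (t, x) - F (t, x)|) atTop (𝓝 0) := by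
  have hM0 : 0 ≤ M := (abs_nonneg _).trans (hM 0 (0, 0))
  have hms : ∀ k t, Measurable (fun x => f k (t, x)) := fun k t =>
    (hm k).comp measurable_prodMk_left
  -- pointwise convergence at rational times
  obtain ⟨φ, hφ, g, hg⟩ := helly_fam (ι := ℕ × ℕ) (M := M) (V := V)
    (fun k p x => f k ((p.1 : ℝ) / ((p.2 : ℝ) + 1), x)) (fun k p x => hM _ _)
    (fun k p => hV _ _ (by positivity))
  have hgm : ∀ p, Measurable (g p) := fun p =>
    measurable_of_tendsto_metrizable (fun k => hms (φ k) _) (tendsto_pi_nhds.2 (hg p))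
  have hgM : ∀ p x, |g p x| ≤ M := fun p x => le_of_tendsto' (hg p x).abs (fun k => hM _ _)
  -- uniform Cauchy property
  have cau : ∀ (n : ℕ) (η : ℝ), 0 < η → ∃ N, ∀ j ≥ N, ∀ k ≥ N, ∀ t : ℝ, 0 ≤ t → t ≤ n →
      ∫ x in Ioo (-((n : ℝ) + 1)) ((n : ℝ) + 1), |f (φ j) (t, x) - f (φ k) (t, x)| ≤ η := by
    intro n η hη
    obtain ⟨m, hmm⟩ := exists_nat_gt (8 * |L| / η)
    have hm1 : |L| * (1 / ((m : ℝ) + 1)) ≤ η / 8 := by
      rw [div_lt_iff₀ hη] at hmm
      rw [mul_one_div, div_le_iff₀ (by positivity)]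
      nlinarith
    have hcn : ∀ i : ℕ, ∃ N, ∀ j ≥ N,
        ∫ x in Ioo (-((n : ℝ) + 1)) ((n : ℝ) + 1),
          |f (φ j) ((i : ℝ) / ((m : ℝ) + 1), x) - g (i, m) x| < η / 8 := by
      intro i
      have h := dom (R := (n : ℝ) + 1) (fun k => hms (φ k) ((i : ℝ) / ((m : ℝ) + 1)))
        (hgm (i, m)) (fun k x => hM _ _) (hgM _) (Eventually.of_forall (fun x => hg (i, m) x))
      exact eventually_atTop.1 (h.eventually (gt_mem_nhds (by positivity)))
    choose N hN using hcn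
    have hεφ : Tendsto (fun k => |L| * |ε (φ k)|) atTop (𝓝 0) := by
      have h := ((hε.comp hφ.tendsto_atTop).abs).const_mul |L|
      simpa using h
    obtain ⟨N', hN'⟩ := eventually_atTop.1 (hεφ.eventually (gt_mem_nhds (show (0:ℝ) < η / 8 by
      positivity)))
    refine ⟨max N' ((Finset.range (n * (m + 1) + 1)).sup N), fun j hj k hk t ht0 htn => ?_⟩
    set i := ⌊t * ((m : ℝ) + 1)⌋₊ with hi
    have hi1 : (i : ℝ) ≤ t * ((m : ℝ) + 1) := Nat.floor_le (by positivity)
    have hi2 : t * ((m : ℝ) + 1) < (i : ℝ) + 1 := Nat.lt_floor_add_one _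
    have hin : i < n * (m + 1) + 1 := by
      have : (i : ℝ) ≤ (n * (m + 1) : ℕ) := by
        push_cast
        refine hi1.trans ?_
        exact mul_le_mul_of_nonneg_right htn (by positivity)
      have : i ≤ n * (m + 1) := by exact_mod_cast this
      omega
    have hNi : N i ≤ (Finset.range (n * (m + 1) + 1)).sup N :=
      Finset.le_sup (f := N) (Finset.mem_range.2 hin)
    set q : ℝ := (i : ℝ) / ((m : ℝ) + 1) with hq
    have hq0 : 0 ≤ q := by positivity
    have hqt : q ≤ t := by rw [hq, div_le_iff₀ (by positivity)]; exact hi1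
    have hqt' : t - q ≤ 1 / ((m : ℝ) + 1) := by
      rw [hq, sub_le_iff_le_add, ← add_div, le_div_iff₀ (by positivity)]
      linarith
    have one : ∀ l ≥ N', ∫ x in Ioo (-((n : ℝ) + 1)) ((n : ℝ) + 1),
        |f (φ l) (t, x) - f (φ l) (q, x)| ≤ η / 4 := by
      intro l hl
      refine (hL (φ l) q t ((n : ℝ) + 1) hq0 hqt (by positivity)).trans ?_
      have h1 : L * (t - q + ε (φ l)) ≤ |L| * (1 / ((m : ℝ) + 1)) + |L| * |ε (φ l)| := by
        rw [← mul_add]
        refine (le_abs_self _).trans ?_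
        rw [abs_mul]
        refine mul_le_mul_of_nonneg_left ?_ (abs_nonneg _)
        refine (abs_add_le _ _).trans ?_
        rw [abs_of_nonneg (by linarith : 0 ≤ t - q)]
        linarith
      have h2 := hN' l hl
      linarith
    have mid : ∫ x in Ioo (-((n : ℝ) + 1)) ((n : ℝ) + 1),
        |f (φ j) (q, x) - f (φ k) (q, x)| ≤ η / 4 := by
      have h1 := hN i j (hNi.trans ((le_max_right _ _).trans hj))
      have h2 := hN i k (hNi.trans ((le_max_right _ _).trans hk))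
      have h3 := tri (R := (n : ℝ) + 1) (hms (φ j) q) (hgm (i, m)) (hms (φ k) q)
        (fun x => hM _ _) (hgM _) (fun x => hM _ _)
      rw [sym (a := g (i, m))] at h3
      linarith
    have h1 := one j ((le_max_left _ _).trans hj)
    have h2 := one k ((le_max_left _ _).trans hk)
    have h3 := tri (R := (n : ℝ) + 1) (hms (φ j) t) (hms (φ j) q) (hms (φ k) t)
      (fun x => hM _ _) (fun x => hM _ _) (fun x => hM _ _)
    have h4 := tri (R := (n : ℝ) + 1) (hms (φ j) q) (hms (φ k) q) (hms (φ k) t)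
      (fun x => hM _ _) (fun x => hM _ _) (fun x => hM _ _)
    rw [sym (a := fun x => f (φ k) (q, x)) (b := fun x => f (φ k) (t, x))] at h4
    linarith
  -- a rapidly converging subsequence
  obtain ⟨ψ, hψ, hψN⟩ := extraction_forall_of_eventually' (P := fun n N => ∀ j ≥ N, ∀ k ≥ N,
      ∀ t : ℝ, 0 ≤ t → t ≤ n →
      ∫ x in Ioo (-((n : ℝ) + 1)) ((n : ℝ) + 1), |f (φ j) (t, x) - f (φ k) (t, x)| ≤
        (1 / 2) ^ (n + 1)) (fun n => by
        obtain ⟨N, hN⟩ := cau n ((1 / 2) ^ (n + 1)) (by positivity)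
        exact ⟨N, fun k hk i hi j hj => hN i (hk.trans hi) j (hk.trans hj)⟩)
  set f' : ℕ → ℝ × ℝ → ℝ := fun k => f (φ (ψ k)) with hf'
  have hf'm : ∀ k, Measurable (f' k) := fun k => hm _
  -- almost everywhere convergence
  have aeK : ∀ (t : ℝ), 0 ≤ t → ∀ K : ℕ, t ≤ K →
      ∀ᵐ x ∂(volume.restrict (Ioo (-((K : ℝ) + 1)) ((K : ℝ) + 1))),
        ∃ l : ℝ, Tendsto (fun k => f' (k + K) (t, x)) atTop (𝓝 l) := by
    intro t ht K hK
    refine Lp.ae_tendsto_of_cauchy_eLpNorm (p := 1) (f := fun k x => f' (k + K) (t, x))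
      (B := fun N => ENNReal.ofReal ((1 / 2) ^ N))
      (fun k => (hms _ t).aestronglyMeasurable) le_rfl ?_ ?_
    · rw [← ENNReal.ofReal_tsum_of_nonneg (fun n => by positivity) summable_geometric_two]
      exact ENNReal.ofReal_ne_top
    · intro N a b ha hb
      rw [eLpNorm_one_eq_lintegral_enorm]
      have hint : IntegrableOn (fun x => f' (a + K) (t, x) - f' (b + K) (t, x))
          (Ioo (-((K : ℝ) + 1)) ((K : ℝ) + 1)) volume := by
        refine Measure.integrableOn_of_bounded (M := 2 * M) (by simp)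
          ((hms _ t).sub (hms _ t)).aestronglyMeasurable ?_
        refine Eventually.of_forall (fun x => ?_)
        rw [Real.norm_eq_abs]
        refine (abs_sub _ _).trans ?_
        have := hM (φ (ψ (a + K))) (t, x)
        have := hM (φ (ψ (b + K))) (t, x)
        linarith
      have e1 : ∫⁻ x in Ioo (-((K : ℝ) + 1)) ((K : ℝ) + 1),
          ‖((fun x => f' (a + K) (t, x)) - fun x => f' (b + K) (t, x)) x‖ₑ =
          ENNReal.ofReal (∫ x in Ioo (-((K : ℝ) + 1)) ((K : ℝ) + 1),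
            |f' (a + K) (t, x) - f' (b + K) (t, x)|) := by
        have := ofReal_integral_norm_eq_lintegral_enorm hint
        simp only [Real.norm_eq_abs] at this
        rw [this]
        rfl
      rw [e1, ENNReal.ofReal_lt_ofReal_iff (by positivity)]
      have h1 := hψN (N + K) (ψ (a + K)) (hψ.monotone (by omega)) (ψ (b + K))
        (hψ.monotone (by omega)) t ht (hK.trans (by push_cast; linarith [Nat.cast_nonneg (α := ℝ) N]))
      have h2 : ∫ x in Ioo (-((K : ℝ) + 1)) ((K : ℝ) + 1),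
          |f' (a + K) (t, x) - f' (b + K) (t, x)| ≤
          ∫ x in Ioo (-(((N + K : ℕ) : ℝ) + 1)) (((N + K : ℕ) : ℝ) + 1),
            |f' (a + K) (t, x) - f' (b + K) (t, x)| := by
        refine setIntegral_mono_set (intg (hms _ t) (hms _ t) (fun x => hM _ _) (fun x => hM _ _))
          (Eventually.of_forall (fun x => abs_nonneg _)) ?_
        refine HasSubset.Subset.eventuallyLE (Ioo_subset_Ioo ?_ ?_)
        · push_cast
          linarith [Nat.cast_nonneg (α := ℝ) N]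
        · push_cast
          linarith [Nat.cast_nonneg (α := ℝ) N]
      refine (h2.trans h1).trans_lt ?_
      refine pow_lt_pow_right_of_lt_one₀ (by norm_num) (by norm_num) (by omega)
  have aeall : ∀ (t : ℝ), 0 ≤ t → ∀ᵐ x : ℝ, ∃ l : ℝ,
      Tendsto (fun k => f' k (t, x)) atTop (𝓝 l) := by
    intro t ht
    obtain ⟨K₀, hK₀⟩ := exists_nat_ge t
    have h2 : ∀ᵐ x : ℝ, ∀ n : ℕ, x ∈ Ioo (-(((n + K₀ : ℕ) : ℝ) + 1)) (((n + K₀ : ℕ) : ℝ) + 1) →
        ∃ l : ℝ, Tendsto (fun k => f' (k + (n + K₀)) (t, x)) atTop (𝓝 l) := by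
      rw [ae_all_iff]
      intro n
      exact (ae_restrict_iff' measurableSet_Ioo).1 (aeK t ht (n + K₀)
        (hK₀.trans (by push_cast; linarith [Nat.cast_nonneg (α := ℝ) n])))
    filter_upwards [h2] with x hx
    obtain ⟨n, hn⟩ := exists_nat_gt |x|
    rw [abs_lt] at hn
    obtain ⟨l, hl⟩ := hx n ⟨by push_cast; linarith [hn.1, Nat.cast_nonneg (α := ℝ) K₀],
      by push_cast; linarith [hn.2, Nat.cast_nonneg (α := ℝ) K₀]⟩
    exact ⟨l, (tendsto_add_atTop_iff_nat (n + K₀)).1 hl⟩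
  -- the limit
  set S : Set (ℝ × ℝ) := {z | ∃ l, Tendsto (fun k => f' k z) atTop (𝓝 l)} with hS
  have hSm : MeasurableSet S := measurableSet_exists_tendsto hf'm
  have hlim : ∀ z, ∃ l, Tendsto (fun k => S.indicator (f' k) z) atTop (𝓝 l) := by
    intro z
    by_cases hz : z ∈ S
    · obtain ⟨l, hl⟩ := hz
      refine ⟨l, hl.congr (fun k => ?_)⟩
      rw [indicator_of_mem (show z ∈ S from ⟨l, hl⟩)]
    · refine ⟨0, ?_⟩
      simp only [indicator_of_notMem hz]
      exact tendsto_const_nhds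
  choose F hF using hlim
  have hFm : Measurable F :=
    measurable_of_tendsto_metrizable (fun k => (hf'm k).indicator hSm) (tendsto_pi_nhds.2 hF)
  have hFM : ∀ z, |F z| ≤ M := by
    intro z
    refine le_of_tendsto' (hF z).abs (fun k => ?_)
    by_cases hz : z ∈ S
    · rw [indicator_of_mem hz]
      exact hM _ _
    · rw [indicator_of_notMem hz, abs_zero]
      exact hM0
  refine ⟨φ ∘ ψ, hφ.comp hψ, F, hFm, hFM, fun t R ht hR => ?_⟩
  refine dom (fun k => hms _ t) (hFm.comp measurable_prodMk_left) (fun k x => hM _ _)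
    (fun x => hFM _) ?_
  filter_upwards [aeall t ht] with x hx
  have h1 := hF (t, x)
  refine h1.congr (fun k => ?_)
  rw [indicator_of_mem (show (t, x) ∈ S from hx)]
  rfl

end Helper51.TH
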