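import Pool.Agent.Helper51.TH.PDefs

/-!
TH-P02. The velocity curve is an increasing bijection.

PROOF. `GG γ y = k0 γ max y 0 - j(x)`, `x = PR γ y - 1 = (1 + ng y)^E - 1 ≥ 0`, `j(x) = x/(γ √(1 + κ x))`,
`κ = (γ+1)/(2γ) > 0`. `j` is continuous, strictly increasing on `[0, ∞)` (`j(x) = √(x²/(γ²(1+κx)))`, or
`j(x)² = x²/(γ²(1 + κ x))` and `x²/(1+κx)` is strictly increasing: cross-multiply), and tends to `∞`
(`j(x) ≥ c √x` for `x ≥ 1`). `y ↦ x` is continuous, antitone, strictly on `(-∞, 0]`, and tends to `∞` as `y → -∞`.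
`k0 γ > 0`.
-/

open Set Filter Topology

namespace Helper51.TH

private noncomputable def jj (γ x : ℝ) : ℝ := x / (γ * √(1 + (γ + 1) / (2 * γ) * x))

private theorem kap_pos {γ : ℝ} (hγ : 1 < γ) : 0 < (γ + 1) / (2 * γ) := by positivity

private theorem k0_pos {γ : ℝ} (hγ : 1 < γ) : 0 < k0 γ := by
  unfold k0
  exact div_pos two_pos (by linarith)

private theorem ng_nonneg (y : ℝ) : 0 ≤ ng y := le_max_right _ _

private theorem PR_ge_one {γ : ℝ} (hγ : 1 < γ) (y : ℝ) : 1 ≤ PR γ y := by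
  unfold PR
  exact Real.one_le_rpow (by linarith [ng_nonneg y]) (div_nonneg (by linarith) (by linarith))

private theorem ng_cont : Continuous ng := by
  unfold ng
  exact continuous_neg.max continuous_const

private theorem PR_cont {γ : ℝ} (_hγ : 1 < γ) : Continuous (PR γ) := by
  unfold PR
  refine Continuous.rpow_const (continuous_const.add ng_cont) (fun y => Or.inl ?_)
  have h1 := ng_nonneg y
  have h2 : 0 < 1 + ng y := by linarith
  exact h2.ne'

private theorem GG_eq (γ y : ℝ) : GG γ y = k0 γ * max y 0 - jj γ (PR γ y - 1) := rfl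

private theorem sqrt_arg_pos {γ x : ℝ} (hγ : 1 < γ) (hx : 0 ≤ x) :
    0 < 1 + (γ + 1) / (2 * γ) * x := by
  have := kap_pos hγ
  positivity

private theorem jj_lt {γ x y : ℝ} (hγ : 1 < γ) (hx : 0 ≤ x) (hxy : x < y) : jj γ x < jj γ y := by
  have hk := kap_pos hγ
  have hy : 0 < y := by linarith
  have h1 := sqrt_arg_pos hγ hx
  have h2 := sqrt_arg_pos hγ hy.le
  have h0 : 0 < γ := by linarith
  unfold jj
  rw [div_lt_div_iff₀ (mul_pos h0 (Real.sqrt_pos.2 h1)) (mul_pos h0 (Real.sqrt_pos.2 h2))]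
  have h3 : x * √(1 + (γ + 1) / (2 * γ) * y) < y * √(1 + (γ + 1) / (2 * γ) * x) := by
    apply lt_of_pow_lt_pow_left₀ 2 (by positivity)
    rw [mul_pow, mul_pow, Real.sq_sqrt h2.le, Real.sq_sqrt h1.le]
    have h4 : x ^ 2 < y ^ 2 := pow_lt_pow_left₀ hxy hx two_ne_zero
    have h5 : (γ + 1) / (2 * γ) * (x * y) * x ≤ (γ + 1) / (2 * γ) * (x * y) * y :=
      mul_le_mul_of_nonneg_left hxy.le (by positivity)
    nlinarith
  nlinarith

private theorem jj_le {γ x y : ℝ} (hγ : 1 < γ) (hx : 0 ≤ x) (hxy : x ≤ y) : jj γ x ≤ jj γ y := by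
  rcases hxy.lt_or_eq with h | h
  · exact (jj_lt hγ hx h).le
  · rw [h]

private theorem ng_anti {x y : ℝ} (h : x ≤ y) : ng y ≤ ng x :=
  max_le_max (neg_le_neg h) le_rfl

private theorem PR_anti {γ x y : ℝ} (hγ : 1 < γ) (h : x ≤ y) : PR γ y ≤ PR γ x := by
  unfold PR
  exact Real.rpow_le_rpow (by linarith [ng_nonneg y]) (by linarith [ng_anti h])
    (div_nonneg (by linarith) (by linarith))

theorem GG_continuous {γ : ℝ} (hγ : 1 < γ) : Continuous (GG γ) := by
  have h1 : Continuous (fun y => PR γ y - 1) := (PR_cont hγ).sub continuous_const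
  have h2 : Continuous (fun y => jj γ (PR γ y - 1)) := by
    unfold jj
    refine h1.div (continuous_const.mul
      (continuous_const.add (continuous_const.mul h1)).sqrt) fun y => ?_
    have h3 := sqrt_arg_pos hγ (sub_nonneg.2 (PR_ge_one hγ y))
    have h4 : 0 < γ := by linarith
    exact (mul_pos h4 (Real.sqrt_pos.2 h3)).ne'
  exact (continuous_const.mul (continuous_id.max continuous_const)).sub h2

theorem S0_continuous {γ : ℝ} (hγ : 1 < γ) : Continuous (S0 γ) := by
  have h1 := PR_cont hγ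
  have hp : ∀ y, 0 < PR γ y := fun y => lt_of_lt_of_le one_pos (PR_ge_one hγ y)
  have hn : ∀ y, 0 < (γ - 1) * PR γ y + (γ + 1) := fun y => by
    have := mul_pos (sub_pos.2 hγ) (hp y)
    linarith
  have hd : ∀ y, 0 < (γ + 1) * PR γ y + (γ - 1) := fun y => by
    have := mul_pos (by linarith : 0 < γ + 1) (hp y)
    linarith
  unfold S0
  refine Continuous.div_const (Continuous.log ?_ fun y => ?_) 2
  · refine (h1.rpow_const fun y => Or.inl (hp y).ne').mul
      (Continuous.div ((continuous_const.mul h1).add continuous_const)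
        ((continuous_const.mul h1).add continuous_const) fun y => (hd y).ne')
  · exact (mul_pos (Real.rpow_pos_of_pos (hp y) _) (div_pos (hn y) (hd y))).ne'

theorem GG_strictMono {γ : ℝ} (hγ : 1 < γ) : StrictMono (GG γ) := by
  intro x y hxy
  rw [GG_eq, GG_eq]
  have hk := k0_pos hγ
  have h0 : 0 ≤ PR γ y - 1 := sub_nonneg.2 (PR_ge_one hγ y)
  have h1 : PR γ y - 1 ≤ PR γ x - 1 := by linarith [PR_anti hγ hxy.le]
  rcases le_or_gt y 0 with hy | hy
  · have h2 : max y 0 = 0 := max_eq_right hy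
    have h3 : max x 0 = 0 := max_eq_right (by linarith)
    have h4 : PR γ y - 1 < PR γ x - 1 := by
      have h5 : ng y = -y := max_eq_left (by linarith)
      have h6 : ng x = -x := max_eq_left (by linarith)
      have h7 : PR γ y < PR γ x := by
        unfold PR
        rw [h5, h6]
        exact Real.rpow_lt_rpow (by linarith) (by linarith)
          (div_pos (by linarith) (by linarith))
      linarith
    have h8 := jj_lt hγ h0 h4
    rw [h2, h3]
    linarith
  · have h2 : max x 0 < max y 0 := by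
      rw [max_eq_left hy.le]
      exact max_lt hxy hy
    have h3 := jj_le hγ h0 h1
    have h4 := mul_lt_mul_of_pos_left h2 hk
    linarith

theorem GG_atTop {γ : ℝ} (hγ : 1 < γ) : Tendsto (GG γ) atTop atTop := by
  have h1 : Tendsto (fun y : ℝ => k0 γ * y) atTop atTop :=
    Tendsto.const_mul_atTop (k0_pos hγ) tendsto_id
  refine h1.congr' ?_
  filter_upwards [eventually_ge_atTop (0 : ℝ)] with y hy
  have h2 : ng y = 0 := max_eq_right (by linarith)
  rw [GG_eq]
  unfold PR jj
  rw [h2, add_zero, Real.one_rpow, sub_self, zero_div, sub_zero, max_eq_left hy]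

theorem GG_atBot {γ : ℝ} (hγ : 1 < γ) : Tendsto (GG γ) atBot atBot := by
  have hk := kap_pos hγ
  have hγ0 : 0 < γ := by linarith
  set c := (γ * √(1 + (γ + 1) / (2 * γ)))⁻¹ with hc
  have hc0 : 0 < c := by
    rw [hc]
    positivity
  have h1 : Tendsto (fun y : ℝ => -(c * √(-y))) atBot atBot := by
    apply tendsto_neg_atTop_atBot.comp
    exact Tendsto.const_mul_atTop hc0 (Real.tendsto_sqrt_atTop.comp tendsto_neg_atBot_atTop)
  refine tendsto_atBot_mono' _ ?_ h1
  filter_upwards [eventually_le_atBot (-1 : ℝ)] with y hy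
  have h2 : ng y = -y := max_eq_left (by linarith)
  have hE : 1 ≤ 2 * γ / (γ - 1) := by
    rw [le_div_iff₀ (by linarith)]
    linarith
  have h3 : -y ≤ PR γ y - 1 := by
    have h4 : (1 + ng y) ^ (1 : ℝ) ≤ PR γ y := by
      unfold PR
      exact Real.rpow_le_rpow_of_exponent_le (by linarith [ng_nonneg y]) hE
    rw [Real.rpow_one, h2] at h4
    linarith
  have h5 := jj_le hγ (by linarith : (0:ℝ) ≤ -y) h3
  have h6 : c * √(-y) ≤ jj γ (-y) := by
    unfold jj
    set t := -y with ht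
    have ht1 : 1 ≤ t := by linarith
    have h7 : 0 < 1 + (γ + 1) / (2 * γ) * t := sqrt_arg_pos hγ (by linarith)
    rw [le_div_iff₀ (mul_pos hγ0 (Real.sqrt_pos.2 h7)), hc]
    have h8 : √(1 + (γ + 1) / (2 * γ) * t) ≤ √(1 + (γ + 1) / (2 * γ)) * √t := by
      rw [← Real.sqrt_mul (by positivity)]
      apply Real.sqrt_le_sqrt
      nlinarith
    have h9 : 0 < √(1 + (γ + 1) / (2 * γ)) := Real.sqrt_pos.2 (by positivity)
    have h10 : √t * √t = t := Real.mul_self_sqrt (by linarith)
    have h11 : (γ * √(1 + (γ + 1) / (2 * γ)))⁻¹ * √t * (γ * √(1 + (γ + 1) / (2 * γ) * t)) ≤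
        (γ * √(1 + (γ + 1) / (2 * γ)))⁻¹ * √t *
          (γ * (√(1 + (γ + 1) / (2 * γ)) * √t)) :=
      mul_le_mul_of_nonneg_left (mul_le_mul_of_nonneg_left h8 hγ0.le) (by positivity)
    refine h11.trans (le_of_eq ?_)
    have h12 : (γ * √(1 + (γ + 1) / (2 * γ)))⁻¹ * √t *
          (γ * (√(1 + (γ + 1) / (2 * γ)) * √t)) =
          (γ * √(1 + (γ + 1) / (2 * γ)))⁻¹ * (γ * √(1 + (γ + 1) / (2 * γ))) *
            (√t * √t) := by ring
    rw [h12, inv_mul_cancel₀ (by positivity), one_mul, h10]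
  rw [GG_eq, max_eq_right (by linarith : y ≤ 0), mul_zero]
  linarith

end Helper51.TH
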