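import Pool.Agent.Helper51.TH.Glue

/-!
TH-N16. The density of the state of rest.

PROOF. `rho0` has the values `ρA` and `ρA exp (2 π / N)`; measurable, because `reg` is (a finite sum of indicator
functions of half lines). `log (rho0 x) = log ρA + (2 π / N) * ((reg .. x) % 2)`. `reg` is monotone with values in
`{0, ..., N}`. For a monotone sequence `x_0 ≤ ... ≤ x_n`:
`∑ |((reg x_{k+1}) % 2) - ((reg x_k) % 2)| ≤ ∑ (reg x_{k+1} - reg x_k) ≤ N`
(`|(j % 2) - (i % 2)| ≤ j - i` for `i ≤ j`), so the variation of `log rho0` is at most `(2 π / N) N = 2 π`.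
(`eVariationOn` is the supremum of such sums; or compose: `eVariationOn` of `h ∘ reg` with `h : ℕ → ℝ` 1-Lipschitz.)
-/

open MeasureTheory Set Filter Topology
open scoped ENNReal NNReal

namespace Helper51.TH

theorem measurable_regDAT (X : ℕ → ℝ) (N : ℕ) : Measurable (reg X N) := by
  have h : reg X N = fun x => ∑ i ∈ Finset.range N, if X (i + 1) ≤ x then 1 else 0 := by
    funext x
    unfold reg
    rw [Finset.card_filter]
  rw [h]
  refine Finset.measurable_sum _ (fun i _ => ?_)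
  exact Measurable.ite measurableSet_Ici measurable_const measurable_const

theorem monotone_regDAT (X : ℕ → ℝ) (N : ℕ) : Monotone (reg X N) := by
  intro x y hxy
  unfold reg
  refine Finset.card_le_card (fun i hi => ?_)
  rw [Finset.mem_filter] at hi ⊢
  exact ⟨hi.1, hi.2.trans hxy⟩

theorem log_rho0DAT {P ρA δ : ℝ} {N : ℕ} (hρ : 0 < ρA) (x : ℝ) :
    Real.log (rho0 P ρA δ N x) = Real.log ρA +
      2 * Real.pi / N * ((reg (pos P ρA δ N) N x % 2 : ℕ) : ℝ) := by
  unfold rho0 rhoS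
  rw [Real.log_mul hρ.ne' (Real.exp_pos _).ne', Real.log_exp]

theorem mod_two_DAT {i j : ℕ} (h : i ≤ j) :
    |((j % 2 : ℕ) : ℝ) - ((i % 2 : ℕ) : ℝ)| ≤ (j : ℝ) - i := by
  rcases eq_or_lt_of_le h with h1 | h1
  · subst h1
    simp
  · have h2 : (i : ℝ) + 1 ≤ j := by exact_mod_cast h1
    have h3 : ((j % 2 : ℕ) : ℝ) ≤ 1 := by
      have : j % 2 ≤ 1 := by omega
      exact_mod_cast this
    have h4 : ((i % 2 : ℕ) : ℝ) ≤ 1 := by
      have : i % 2 ≤ 1 := by omega
      exact_mod_cast this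
    have h5 : (0 : ℝ) ≤ ((j % 2 : ℕ) : ℝ) := Nat.cast_nonneg _
    have h6 : (0 : ℝ) ≤ ((i % 2 : ℕ) : ℝ) := Nat.cast_nonneg _
    rw [abs_le]
    constructor <;> linarith

theorem measurable_rho0 (P ρA δ : ℝ) (N : ℕ) : Measurable (rho0 P ρA δ N) :=
  (measurable_from_top (f := rhoS ρA N)).comp (measurable_regDAT (pos P ρA δ N) N)

theorem rho0_bounds {P ρA δ : ℝ} {N : ℕ} (hρ : 0 < ρA) (x : ℝ) :
    ρA ≤ rho0 P ρA δ N x ∧ rho0 P ρA δ N x ≤ ρA * Real.exp (2 * Real.pi / N) := by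
  unfold rho0 rhoS
  have hN : 0 ≤ 2 * Real.pi / (N : ℝ) := by positivity
  have h3 : ((reg (pos P ρA δ N) N x % 2 : ℕ) : ℝ) ≤ 1 := by
    have : reg (pos P ρA δ N) N x % 2 ≤ 1 := by omega
    exact_mod_cast this
  have h5 : (0 : ℝ) ≤ ((reg (pos P ρA δ N) N x % 2 : ℕ) : ℝ) := Nat.cast_nonneg _
  constructor
  · exact le_mul_of_one_le_right hρ.le (Real.one_le_exp (mul_nonneg hN h5))
  · refine mul_le_mul_of_nonneg_left (Real.exp_le_exp.2 ?_) hρ.le
    exact mul_le_of_le_one_right hN h3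

theorem variation_log_rho0 {P ρA δ : ℝ} {N : ℕ} (hρ : 0 < ρA) :
    eVariationOn (fun x => Real.log (rho0 P ρA δ N x)) univ ≤
      ENNReal.ofReal (2 * Real.pi) := by
  have hN : 0 ≤ 2 * Real.pi / (N : ℝ) := by positivity
  refine iSup_le ?_
  rintro ⟨n, ⟨u, hu, hus⟩⟩
  have key : ∀ i : ℕ, edist (Real.log (rho0 P ρA δ N (u (i + 1))))
      (Real.log (rho0 P ρA δ N (u i))) ≤
      ENNReal.ofReal (2 * Real.pi / N * (reg (pos P ρA δ N) N (u (i + 1)) : ℝ) -
        2 * Real.pi / N * (reg (pos P ρA δ N) N (u i) : ℝ)) := by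
    intro i
    rw [edist_dist]
    refine ENNReal.ofReal_le_ofReal ?_
    rw [Real.dist_eq, log_rho0DAT hρ, log_rho0DAT hρ]
    have h1 : reg (pos P ρA δ N) N (u i) ≤ reg (pos P ρA δ N) N (u (i + 1)) :=
      monotone_regDAT _ _ (hu (Nat.le_succ i))
    have h2 := mod_two_DAT h1
    rw [add_sub_add_left_eq_sub, ← mul_sub, ← mul_sub, abs_mul, abs_of_nonneg hN]
    exact mul_le_mul_of_nonneg_left h2 hN
  refine (Finset.sum_le_sum (fun i _ => key i)).trans ?_
  rw [← ENNReal.ofReal_sum_of_nonneg]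
  · refine ENNReal.ofReal_le_ofReal ?_
    rw [Finset.sum_range_sub (fun i => 2 * Real.pi / N * (reg (pos P ρA δ N) N (u i) : ℝ))]
    have h1 : (reg (pos P ρA δ N) N (u n) : ℝ) ≤ N := by exact_mod_cast reg_le _ _ _
    have h2 : (0 : ℝ) ≤ reg (pos P ρA δ N) N (u 0) := Nat.cast_nonneg _
    have h3 : 2 * Real.pi / (N : ℝ) * (reg (pos P ρA δ N) N (u n) : ℝ) ≤ 2 * Real.pi := by
      rcases Nat.eq_zero_or_pos N with h | h
      · subst h
        simp
        positivity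
      · have hNR : (0 : ℝ) < N := by exact_mod_cast h
        calc 2 * Real.pi / (N : ℝ) * (reg (pos P ρA δ N) N (u n) : ℝ) ≤
              2 * Real.pi / (N : ℝ) * N := mul_le_mul_of_nonneg_left h1 hN
          _ = 2 * Real.pi := by field_simp
    have h4 : 0 ≤ 2 * Real.pi / (N : ℝ) * (reg (pos P ρA δ N) N (u 0) : ℝ) := mul_nonneg hN h2
    linarith
  · intro i _
    have h1 : reg (pos P ρA δ N) N (u i) ≤ reg (pos P ρA δ N) N (u (i + 1)) :=
      monotone_regDAT _ _ (hu (Nat.le_succ i))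
    have h2 : (reg (pos P ρA δ N) N (u i) : ℝ) ≤ reg (pos P ρA δ N) N (u (i + 1)) := by
      exact_mod_cast h1
    rw [← mul_sub]
    exact mul_nonneg hN (by linarith)

end Helper51.TH
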