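import Mathlib

/-!
Project TH (MP_55694c_an): the sharp threshold `2 π` for the BV stability of gas at rest.
Definitions for the negative half: acoustic waves through `N` interfaces.

Interface `i` (`1 ≤ i ≤ N`) has the reflection coefficient `ϱ_i` and is followed by a region with the
travel time `τ_i` (`1 ≤ i < N`). Lists `l : List (ℝ × ℝ)` contain the pairs `(ϱ_i, τ_i)`, `i < N`; the last
coefficient is a separate parameter `rN`.
-/

open MeasureTheory Set Filter Topology
open scoped ENNReal

namespace Helper51.TH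

/-- The coefficients: `Q r a b` is the sum of the amplitudes (divided by one transmission
coefficient) of the ways in which a signal with `a + 1` arrivals from the left and `b` arrivals from the
right passes an interface with reflection coefficient `r`. -/
noncomputable def Q (r : ℝ) : ℕ → ℕ → ℝ
  | 0, b => (-r) ^ b
  | a + 1, 0 => r * Q r a 0
  | a + 1, b + 1 => r * Q r a (b + 1) + Q r a b - r * Q r (a + 1) b

/-- The secant numbers and their relatives: `wE j a = (G ^ j) a 0` for the infinite matrix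
`G a (a+1) = a + 1`, `G a (a-1) = a`. -/
noncomputable def wE : ℕ → ℕ → ℝ
  | 0, a => if a = 0 then 1 else 0
  | j + 1, a => (a + 1) * wE j (a + 1) + a * wE j (a - 1)

/-- Sums of absolute values of the amplitudes. -/
noncomputable def SA (rN : ℝ) (m : ℕ) : List (ℝ × ℝ) → ℕ → ℝ
  | [], a => |rN| ^ a
  | p :: l, a => ∑ b ∈ Finset.range (m + 1), |Q p.1 a b| * SA rN m l b

/-- The response functions. -/
noncomputable def KK (rN : ℝ) (M : ℕ) : List (ℝ × ℝ) → ℕ → (ℝ → ℝ) → ℝ → ℝ
  | [], a, f, t => rN ^ a * f t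
  | p :: l, a, f, t => ∑ b ∈ Finset.range M, Q p.1 a b * KK rN M l b f (t - 2 * b * p.2)

/-- The transfer polynomials, as operators on functions. -/
noncomputable def AB (rN : ℝ) : List (ℝ × ℝ) → (ℝ → ℝ) → (ℝ → ℝ) × (ℝ → ℝ)
  | [], h => (h, fun t => rN * h t)
  | p :: l, h =>
    (fun t => (AB rN l h).1 t + p.1 * (AB rN l h).2 (t - 2 * p.2),
      fun t => p.1 * (AB rN l h).1 t + (AB rN l h).2 (t - 2 * p.2))

/-- The list of all pairs (amplitude, delay). -/
noncomputable def paths (rN : ℝ) (M : ℕ) : List (ℝ × ℝ) → ℕ → List (ℝ × ℝ)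
  | [], a => [(rN ^ a, 0)]
  | p :: l, a => (List.range M).flatMap fun b =>
      (paths rN M l b).map fun q => (Q p.1 a b * q.1, q.2 + 2 * b * p.2)

/-- The signals on the left side of the first interface of the list, if behind the last interface
the right going signal is `h` and the left going signal is `0`. -/
noncomputable def sig (rN : ℝ) : List (ℝ × ℝ) → (ℝ → ℝ) → (ℝ → ℝ) × (ℝ → ℝ)
  | [], h => (fun t => h t / √(1 - rN ^ 2), fun t => rN * h t / √(1 - rN ^ 2))
  | p :: l, h =>
    (fun t => ((sig rN l h).1 (t + p.2) + p.1 * (sig rN l h).2 (t - p.2)) / √(1 - p.1 ^ 2),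
      fun t => (p.1 * (sig rN l h).1 (t + p.2) + (sig rN l h).2 (t - p.2)) / √(1 - p.1 ^ 2))

/-- The list of the project: reflection coefficients `r, -r, r, ...` and travel times
`δ log 2, δ log 3, δ log 5, ...` (`n` entries, that is `n + 1` interfaces). -/
noncomputable def lst (r δ : ℝ) (n : ℕ) : List (ℝ × ℝ) :=
  (List.range n).map fun i => ((-1) ^ i * r, δ * Real.log (Nat.nth Nat.Prime i))

/-- The travel times of the regions (region `0` has none). -/
noncomputable def tau (δ : ℝ) : ℕ → ℝ
  | 0 => 0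
  | i + 1 => δ * Real.log (Nat.nth Nat.Prime i)

/-- The signals `f i` (right going) and `g i` (left going) in the region `i` (`0 ≤ i ≤ N`), measured
at the interface `i` (at the interface `1` for `i = 0`), with the transmission conditions at the interfaces
`1, ..., N` for the times `t ≤ T0`. -/
structure IsSig (N : ℕ) (r : ℝ) (τ : ℕ → ℝ) (η T0 : ℝ) (f g : ℕ → ℝ → ℝ) : Prop where
  smooth : ∀ i ≤ N, ContDiff ℝ 2 (f i) ∧ ContDiff ℝ 2 (g i)
  compact : ∀ i ≤ N, HasCompactSupport (f i) ∧ HasCompactSupport (g i)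
  zero : ∀ i ≤ N, ∀ t < η, f i t = 0 ∧ g i (t + τ i) = 0
  last : ∀ t, g N t = 0
  jump : ∀ i < N, ∀ t ≤ T0,
    f i (t - τ i) = (f (i + 1) t + (-1) ^ i * r * g (i + 1) t) / √(1 - r ^ 2) ∧
    g i (t + τ i) = ((-1) ^ i * r * f (i + 1) t + g (i + 1) t) / √(1 - r ^ 2)
  bound : ∀ t, |f 0 t| ≤ 1

end Helper51.TH
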