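import Pool.Agent.Helper73.EU.Defs
import Pool.Agent.Helper51.TH.NDefs

/-!
Project TH (MP_55694c_an): the sharp threshold `2 π` for the BV stability of gas at rest.
The definitions of the final statement and of the dual acoustic waves.
-/

open MeasureTheory Set Filter Topology
open scoped ENNReal NNReal

namespace Helper51.TH

open Helper73.EU

/-- The essential total variation: the infimum of the variations of the functions which agree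
with `f` almost everywhere. -/
noncomputable def eTV (f : ℝ → ℝ) : ℝ≥0∞ :=
  ⨅ (g : ℝ → ℝ) (_ : g =ᵐ[volume] f), eVariationOn g univ

/-- The initial total variation of velocity and pressure. -/
noncomputable def tv₀ (γ : ℝ) (ρ₀ u₀ e₀ : ℝ → ℝ) : ℝ≥0∞ :=
  eTV u₀ + eTV (fun x => pr γ (ρ₀ x) (e₀ x))

/-- The data: values in the box, the variation of `log ρ₀` is at most `V`, the variation of
velocity plus pressure is at most `δ`. -/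
structure Small (γ a b V δ : ℝ) (ρ₀ u₀ e₀ : ℝ → ℝ) : Prop where
  datum : IsDatum a b ρ₀ u₀ e₀
  large : eTV (fun x => Real.log (ρ₀ x)) ≤ ENNReal.ofReal V
  small : tv₀ γ ρ₀ u₀ e₀ ≤ ENNReal.ofReal δ

/-- Uniform stability on the time interval `(0, T)`: some solution in a fixed box without vacuum
satisfies the linear bound for the variation of velocity and pressure. -/
def StableOn (γ a b V T : ℝ) : Prop :=
  ∃ δ C a' b' : ℝ, 0 < δ ∧ 0 < a' ∧ ∀ ρ₀ u₀ e₀ : ℝ → ℝ, Small γ a b V δ ρ₀ u₀ e₀ →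
    ∃ ρ u e : ℝ × ℝ → ℝ, IsSol γ T a' b' ρ u e ∧ Attains T ρ u e ρ₀ u₀ e₀ ∧
      ∀ᵐ t : ℝ, t ∈ Ioo 0 T →
        eTV (sl u t) + eTV (fun x => pr γ (ρ (t, x)) (e (t, x))) ≤
          ENNReal.ofReal C * tv₀ γ ρ₀ u₀ e₀

/-- Uniform stability for all times, with global BV solutions: the bounds hold for all times
`t > 0` and the variation of the logarithm of the density stays bounded, too. -/
def StableAll (γ a b V : ℝ) : Prop :=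
  ∃ δ C a' b' : ℝ, 0 < δ ∧ 0 < a' ∧ ∀ ρ₀ u₀ e₀ : ℝ → ℝ, Small γ a b V δ ρ₀ u₀ e₀ →
    ∃ ρ u e : ℝ × ℝ → ℝ, (∀ T : ℝ, 0 < T → IsSol γ T a' b' ρ u e ∧
      Attains T ρ u e ρ₀ u₀ e₀) ∧
      ∀ t : ℝ, 0 < t →
        eTV (sl u t) + eTV (fun x => pr γ (ρ (t, x)) (e (t, x))) ≤
          ENNReal.ofReal C * tv₀ γ ρ₀ u₀ e₀ ∧
        eTV (fun x => Real.log (ρ (t, x))) ≤ ENNReal.ofReal C

/-- The number of the interfaces `X 1, ..., X N` at or to the left of `x`. -/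
noncomputable def reg (X : ℕ → ℝ) (N : ℕ) (x : ℝ) : ℕ :=
  ((Finset.range N).filter fun i => X (i + 1) ≤ x).card

/-- The densities: `ρA` in the regions with even number, `ρA * exp (2 π / N)` in the others. -/
noncomputable def rhoS (ρA : ℝ) (N i : ℕ) : ℝ :=
  ρA * Real.exp (2 * Real.pi / N * ((i % 2 : ℕ) : ℝ))

/-- The sound speeds for `P = γ p`. -/
noncomputable def spd (P ρA : ℝ) (N i : ℕ) : ℝ := √(P / rhoS ρA N i)

/-- The positions of the interfaces for the travel times `tau δ` (`pos 0 = pos 1 = 0`). -/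
noncomputable def pos (P ρA δ : ℝ) (N : ℕ) : ℕ → ℝ
  | 0 => 0
  | i + 1 => pos P ρA δ N i + spd P ρA N i * tau δ i

/-- The density of the state of rest. -/
noncomputable def rho0 (P ρA δ : ℝ) (N : ℕ) (x : ℝ) : ℝ :=
  rhoS ρA N (reg (pos P ρA δ N) N x)

/-- The dual acoustic wave on `0 ≤ t ≤ T0`: `φ₁, φ₂` are Lipschitz with compact support in space and
solve `ρ₀ ∂t φ₁ + P ∂x φ₂ = 0`, `∂t φ₂ + ∂x φ₁ = 0`; `∂x Ψ₁ = ρ₀ φ₁`, `∂x Ψ₂ = φ₂`; at the end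
`|Ψ₁|, |Ψ₂| ≤ Z`, at the beginning `Ψ₁ (0, x0) ≥ K`. -/
structure IsDual (ρ₀ : ℝ → ℝ) (P T0 η R0 Z K x0 : ℝ) (Ψ₁ Ψ₂ φ₁ φ₂ : ℝ × ℝ → ℝ) : Prop where
  lip₁ : ∃ C : ℝ≥0, LipschitzWith C φ₁
  lip₂ : ∃ C : ℝ≥0, LipschitzWith C φ₂
  supp : ∀ t ∈ Icc 0 T0, ∀ x : ℝ, R0 ≤ |x| →
    φ₁ (t, x) = 0 ∧ φ₂ (t, x) = 0 ∧ Ψ₁ (t, x) = 0 ∧ Ψ₂ (t, x) = 0
  cont : ∀ t ∈ Icc 0 T0, Continuous (fun x => Ψ₁ (t, x)) ∧ Continuous (fun x => Ψ₂ (t, x))
  deriv : ∀ t ∈ Icc 0 T0, ∃ s : Set ℝ, s.Countable ∧ ∀ x ∉ s,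
    HasDerivAt (fun x => Ψ₁ (t, x)) (ρ₀ x * φ₁ (t, x)) x ∧
    HasDerivAt (fun x => Ψ₂ (t, x)) (φ₂ (t, x)) x
  eq : ∀ᵐ z : ℝ × ℝ, z ∈ Strip T0 →
    ρ₀ z.2 * dt φ₁ z + P * dx φ₂ z = 0 ∧ dt φ₂ z + dx φ₁ z = 0
  bound : ∀ t ∈ Icc (T0 - η) T0, ∀ x : ℝ, |Ψ₁ (t, x)| ≤ Z ∧ |Ψ₂ (t, x)| ≤ Z
  large : K ≤ Ψ₁ (0, x0)

end Helper51.TH
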