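import Pool.Agent.Helper51.TH.AsLem
import Pool.Agent.Helper51.TH.CubicLem

/-!
TH-P10. Merging two wave records decreases the functional (abstract form).

NOTATION. `W = X ++ w₁ :: w₂ :: Y`, `W' = X ++ w₃ :: Y`, `x = w₁.s |w₂.a| + w₂.s |w₁.b|`, `q = qq2 w₁ w₂`,
`F = As θ μ 0 0 · + K Qp ·`, `ℓᵢ = wᵢ.s`.
PROOF. Take `K = 2 C + 4` and `δ ≤ 1` so small that
`C δ (V₁ δ + 2 δ²) ≤ θ/μ`, `C δ + μ C δ² + 3 K C δ ≤ c/2`, `μ C δ² + 3 K C δ ≤ 1`, `C δ ≤ min (c/2) 3`.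
(1) Contents: `ℓ₃ ≤ ℓ₁ + ℓ₂ + C ε (x + q)`, `x ≤ V₁ Am W ≤ V₁ δ`, `q ≤ 2 δ²`, so all contents that occur are `≤ V₁ + θ/μ`, and
`θ + μ (V₁ + θ/μ) ≤ π/2`.
(2) `As_append`: `As W' - As W = [As 0 (ℓ₃ + Vc Y) X - As 0 (ℓ₁ + ℓ₂ + Vc Y) X]
 + [wt(Vc X) w₃.p + wt(Vc Y) w₃.q - wt(Vc X) w₁.p - wt(Vc Y + ℓ₂) w₁.q - wt(Vc X + ℓ₁) w₂.p - wt(Vc Y) w₂.q]
 + [As (Vc X + ℓ₃) 0 Y - As (Vc X + ℓ₁ + ℓ₂) 0 Y]`. By `As_mono` the first and the last bracket are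
`≤ μ C ε (x + q) Pq X`, `≤ μ C ε (x + q) Pq Y` (if `ℓ₃ ≤ ℓ₁ + ℓ₂` they are `≤ 0`). The middle one is
`≤ - c x + C (ε x + q)` by hypothesis (with `L0 = Vc X`, `R0 = Vc Y`).
(3) `Qp_append`: `Qp W' - Qp W ≤ - q + 3 C (x + q) Am W`: for `v ∈ X`,
`qq2 v w₃ ≤ qq2 v w₁ + qq2 v w₂ + 3 C (x + q) (|v.a| + |v.b|)` (`ap_add_le`, triangle inequality), similarly for `w ∈ Y`.
(4) Sum: `F W' - F W ≤ x (-c + C ε + μ C δ² + 3 K C δ) + q (C + μ C δ² - K + 3 K C δ) ≤ -(c/2) x - 3 q`, and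
`Vc W' - Vc W ≤ C δ (x + q) ≤ (c/2) x + 3 q`.
-/

open Set Filter Topology

namespace Helper51.TH

private theorem Vc_cons (w : Wv) (Y : List Wv) : Vc (w :: Y) = w.s + Vc Y := by
  unfold Vc
  rw [List.map_cons, List.sum_cons]

private theorem Pq_cons (w : Wv) (Y : List Wv) : Pq (w :: Y) = (w.p + w.q) + Pq Y := by
  unfold Pq
  rw [List.map_cons, List.sum_cons]

private theorem Am_cons (w : Wv) (Y : List Wv) : Am (w :: Y) = (|w.a| + |w.b|) + Am Y := by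
  unfold Am
  rw [List.map_cons, List.sum_cons]

private theorem cross_cons (v : Wv) (X Z : List Wv) :
    cross (v :: X) Z = (Z.map fun w => qq2 v w).sum + cross X Z := by
  unfold cross
  rw [List.map_cons, List.sum_cons]

private theorem Qp_cons (w : Wv) (Y : List Wv) :
    Qp (w :: Y) = (Y.map fun v => qq2 w v).sum + Qp Y := rfl

private theorem qq2_left {w₁ w₂ w₃ : Wv} {D : ℝ} (ha : |w₃.a - w₁.a - w₂.a| ≤ D)
    (hb : |w₃.b - w₁.b - w₂.b| ≤ D) (w : Wv) :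
    qq2 w₃ w ≤ qq2 w₁ w + qq2 w₂ w + 3 * D * (|w.a| + |w.b|) := by
  unfold qq2
  have h1 := (ap_add_le w₁.a w₂.a (w₃.a - w₁.a - w₂.a) w.a).1
  have h2 := (ap_add_le w₁.b w₂.b (w₃.b - w₁.b - w₂.b) w.b).1
  have e1 : w₁.a + w₂.a + (w₃.a - w₁.a - w₂.a) = w₃.a := by ring
  have e2 : w₁.b + w₂.b + (w₃.b - w₁.b - w₂.b) = w₃.b := by ring
  rw [e1] at h1
  rw [e2] at h2
  have h3 : |w₃.b| ≤ |w₁.b| + |w₂.b| + |w₃.b - w₁.b - w₂.b| := by
    have h4 := abs_add_three w₁.b w₂.b (w₃.b - w₁.b - w₂.b)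
    rwa [e2] at h4
  have h5 : |w₃.b| * |w.a| ≤ (|w₁.b| + |w₂.b| + D) * |w.a| :=
    mul_le_mul_of_nonneg_right (by linarith) (abs_nonneg _)
  have h6 : |w₃.a - w₁.a - w₂.a| * |w.a| ≤ D * |w.a| := mul_le_mul_of_nonneg_right ha (abs_nonneg _)
  have h7 : |w₃.b - w₁.b - w₂.b| * |w.b| ≤ D * |w.b| := mul_le_mul_of_nonneg_right hb (abs_nonneg _)
  have hD : 0 ≤ D := (abs_nonneg _).trans ha
  have h8 : 0 ≤ D * |w.b| := mul_nonneg hD (abs_nonneg _)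
  nlinarith

private theorem qq2_right {w₁ w₂ w₃ : Wv} {D : ℝ} (ha : |w₃.a - w₁.a - w₂.a| ≤ D)
    (hb : |w₃.b - w₁.b - w₂.b| ≤ D) (v : Wv) :
    qq2 v w₃ ≤ qq2 v w₁ + qq2 v w₂ + 3 * D * (|v.a| + |v.b|) := by
  unfold qq2
  have h1 := (ap_add_le w₁.a w₂.a (w₃.a - w₁.a - w₂.a) v.a).2
  have h2 := (ap_add_le w₁.b w₂.b (w₃.b - w₁.b - w₂.b) v.b).2
  have e1 : w₁.a + w₂.a + (w₃.a - w₁.a - w₂.a) = w₃.a := by ring
  have e2 : w₁.b + w₂.b + (w₃.b - w₁.b - w₂.b) = w₃.b := by ring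
  rw [e1] at h1
  rw [e2] at h2
  have h3 : |w₃.a| ≤ |w₁.a| + |w₂.a| + |w₃.a - w₁.a - w₂.a| := by
    have h4 := abs_add_three w₁.a w₂.a (w₃.a - w₁.a - w₂.a)
    rwa [e1] at h4
  have h5 : |v.b| * |w₃.a| ≤ |v.b| * (|w₁.a| + |w₂.a| + D) :=
    mul_le_mul_of_nonneg_left (by linarith) (abs_nonneg _)
  have h6 : |w₃.a - w₁.a - w₂.a| * |v.a| ≤ D * |v.a| := mul_le_mul_of_nonneg_right ha (abs_nonneg _)
  have h7 : |w₃.b - w₁.b - w₂.b| * |v.b| ≤ D * |v.b| := mul_le_mul_of_nonneg_right hb (abs_nonneg _)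
  have hD : 0 ≤ D := (abs_nonneg _).trans ha
  have h8 : 0 ≤ D * |v.a| := mul_nonneg hD (abs_nonneg _)
  nlinarith

private theorem sumY {w₁ w₂ w₃ : Wv} {D : ℝ} (ha : |w₃.a - w₁.a - w₂.a| ≤ D)
    (hb : |w₃.b - w₁.b - w₂.b| ≤ D) (Y : List Wv) :
    (Y.map fun w => qq2 w₃ w).sum ≤ (Y.map fun w => qq2 w₁ w).sum +
      (Y.map fun w => qq2 w₂ w).sum + 3 * D * Am Y := by
  induction Y with
  | nil => simp [Am]
  | cons w Y ih =>
    rw [List.map_cons, List.map_cons, List.map_cons, List.sum_cons, List.sum_cons, List.sum_cons,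
      Am_cons]
    have h1 := qq2_left ha hb w
    linarith

private theorem sumX {w₁ w₂ w₃ : Wv} {D : ℝ} (ha : |w₃.a - w₁.a - w₂.a| ≤ D)
    (hb : |w₃.b - w₁.b - w₂.b| ≤ D) (X Y : List Wv) :
    cross X (w₃ :: Y) ≤ cross X (w₁ :: w₂ :: Y) + 3 * D * Am X := by
  induction X with
  | nil => simp [Am, cross]
  | cons v X ih =>
    rw [cross_cons, cross_cons, Am_cons, List.map_cons, List.map_cons, List.map_cons, List.sum_cons,
      List.sum_cons, List.sum_cons]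
    have h1 := qq2_right ha hb v
    linarith

private theorem Qp_merge {w₁ w₂ w₃ : Wv} {D : ℝ} (ha : |w₃.a - w₁.a - w₂.a| ≤ D)
    (hb : |w₃.b - w₁.b - w₂.b| ≤ D) (X Y : List Wv) :
    Qp (X ++ w₃ :: Y) ≤ Qp (X ++ w₁ :: w₂ :: Y) - qq2 w₁ w₂ +
      3 * D * Am (X ++ w₁ :: w₂ :: Y) := by
  have hD : 0 ≤ D := (abs_nonneg _).trans ha
  rw [Qp_append, Qp_append, Qp_cons, Qp_cons, Qp_cons, List.map_cons, List.sum_cons, Am_append,
    Am_cons, Am_cons]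
  have h1 := sumX ha hb X Y
  have h2 := sumY ha hb Y
  have h3 : 0 ≤ D * (|w₁.a| + |w₁.b|) := by positivity
  have h4 : 0 ≤ D * (|w₂.a| + |w₂.b|) := by positivity
  nlinarith

/-- the choice of the constant -/
private theorem exists_small {M A B : ℝ} (hM : 0 < M) (hA : 0 < A) (hB : 0 < B) :
    ∃ δ : ℝ, 0 < δ ∧ δ ≤ 1 ∧ δ * M ≤ A ∧ δ * M ≤ B ∧ δ * M ≤ 1 := by
  refine ⟨min 1 (min (A / M) (min (B / M) (1 / M))), by positivity, min_le_left _ _, ?_, ?_, ?_⟩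
  · calc min 1 (min (A / M) (min (B / M) (1 / M))) * M ≤ (A / M) * M :=
          mul_le_mul_of_nonneg_right ((min_le_right _ _).trans (min_le_left _ _)) hM.le
      _ = A := div_mul_cancel₀ _ hM.ne'
  · calc min 1 (min (A / M) (min (B / M) (1 / M))) * M ≤ (B / M) * M :=
          mul_le_mul_of_nonneg_right ((min_le_right _ _).trans ((min_le_right _ _).trans
            (min_le_left _ _))) hM.le
      _ = B := div_mul_cancel₀ _ hM.ne'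
  · calc min 1 (min (A / M) (min (B / M) (1 / M))) * M ≤ (1 / M) * M :=
          mul_le_mul_of_nonneg_right ((min_le_right _ _).trans ((min_le_right _ _).trans
            (min_le_right _ _))) hM.le
      _ = 1 := div_mul_cancel₀ _ hM.ne'

/-- the weighted part -/
private theorem As_merge {θ μ V₁ c C ε x q P : ℝ} (hθ : 0 < θ) (hμ : 0 < μ)
    (hV : 2 * θ + μ * V₁ ≤ Real.pi / 2) (hC : 0 < C) {X Y : List Wv} {w₁ w₂ w₃ : Wv}
    (hε : 0 ≤ ε) (hx : 0 ≤ x) (hq : 0 ≤ q)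
    (hN : Nn (X ++ w₁ :: w₂ :: Y)) (hN3 : Nn [w₃]) (hP : Pq (X ++ w₁ :: w₂ :: Y) ≤ P)
    (hVc : Vc (X ++ w₁ :: w₂ :: Y) ≤ V₁)
    (hs : w₃.s ≤ w₁.s + w₂.s + C * ε * (x + q)) (hsmall : C * ε * (x + q) ≤ θ / μ)
    (hmain : ∀ L0 R0 : ℝ, 0 ≤ L0 → 0 ≤ R0 → L0 + R0 + w₁.s + w₂.s ≤ V₁ →
        wt θ μ L0 * w₃.p + wt θ μ R0 * w₃.q ≤
          wt θ μ L0 * w₁.p + wt θ μ (R0 + w₂.s) * w₁.q +
          wt θ μ (L0 + w₁.s) * w₂.p + wt θ μ R0 * w₂.q - c * x + C * (ε * x + q)) :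
    As θ μ 0 0 (X ++ w₃ :: Y) ≤ As θ μ 0 0 (X ++ w₁ :: w₂ :: Y) + μ * (C * ε * (x + q)) * P -
      c * x + C * (ε * x + q) := by
  obtain ⟨s', hs'⟩ : ∃ s', s' = w₁.s + w₂.s + C * ε * (x + q) := ⟨_, rfl⟩
  rw [← hs'] at hs
  have hXn : Nn X := fun w hw => hN w (List.mem_append_left _ hw)
  have hYn : Nn Y := fun w hw => hN w (List.mem_append_right _ (List.mem_cons_of_mem _
    (List.mem_cons_of_mem _ hw)))
  have h1n := hN w₁ (List.mem_append_right _ List.mem_cons_self)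
  have h2n := hN w₂ (List.mem_append_right _ (List.mem_cons_of_mem _ List.mem_cons_self))
  have h3n := hN3 w₃ List.mem_cons_self
  have hX0 := Vc_nonneg hXn
  have hY0 := Vc_nonneg hYn
  have hPX := Pq_nonneg hXn
  have hPY := Pq_nonneg hYn
  have hdel : 0 ≤ C * ε * (x + q) := by positivity
  rw [Vc_append, Vc_cons, Vc_cons] at hVc
  rw [Pq_append, Pq_cons, Pq_cons] at hP
  have hbig : θ + μ * (s' + Vc Y + Vc X) ≤ Real.pi / 2 := by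
    have h1 : s' + Vc Y + Vc X ≤ V₁ + θ / μ := by linarith
    have h2 : μ * (s' + Vc Y + Vc X) ≤ μ * (V₁ + θ / μ) := mul_le_mul_of_nonneg_left h1 hμ.le
    have h3 : μ * (V₁ + θ / μ) = μ * V₁ + θ := by
      field_simp
    linarith
  have hX1 := As_mono (θ := θ) (μ := μ) (L0 := 0) (R0 := w₃.s + Vc Y) (L0' := 0) (R0' := s' + Vc Y)
    (W := X) hθ.le hμ.le hXn le_rfl (by linarith) le_rfl (by linarith) (by linarith)
  have hX2 := As_mono (θ := θ) (μ := μ) (L0 := 0) (R0 := w₁.s + (w₂.s + Vc Y)) (L0' := 0)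
    (R0' := s' + Vc Y) (W := X) hθ.le hμ.le hXn le_rfl (by linarith) le_rfl (by linarith) (by linarith)
  have hY1 := As_mono (θ := θ) (μ := μ) (L0 := Vc X + w₃.s) (R0 := 0) (L0' := Vc X + s')
    (R0' := 0) (W := Y) hθ.le hμ.le hYn (by linarith) le_rfl (by linarith) le_rfl (by linarith)
  have hY2 := As_mono (θ := θ) (μ := μ) (L0 := Vc X + w₁.s + w₂.s) (R0 := 0) (L0' := Vc X + s')
    (R0' := 0) (W := Y) hθ.le hμ.le hYn (by linarith) le_rfl (by linarith) le_rfl (by linarith)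
  have hm := hmain (Vc X) (Vc Y) hX0 hY0 (by linarith)
  have eW' : As θ μ 0 0 (X ++ w₃ :: Y) = As θ μ 0 (w₃.s + Vc Y) X +
      (wt θ μ (Vc X) * w₃.p + wt θ μ (Vc Y) * w₃.q + As θ μ (Vc X + w₃.s) 0 Y) := by
    rw [As_append, Vc_cons, zero_add, zero_add]
    simp only [As, zero_add]
  have eW : As θ μ 0 0 (X ++ w₁ :: w₂ :: Y) = As θ μ 0 (w₁.s + (w₂.s + Vc Y)) X +
      (wt θ μ (Vc X) * w₁.p + wt θ μ (w₂.s + Vc Y) * w₁.q +
        (wt θ μ (Vc X + w₁.s) * w₂.p + wt θ μ (Vc Y) * w₂.q +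
          As θ μ (Vc X + w₁.s + w₂.s) 0 Y)) := by
    rw [As_append, Vc_cons, Vc_cons, zero_add, zero_add]
    simp only [As, zero_add, Vc_cons]
  rw [eW', eW]
  have e1 : (0 : ℝ) - 0 + (s' + Vc Y - (w₁.s + (w₂.s + Vc Y))) = C * ε * (x + q) := by
    rw [hs']
    ring
  have e2 : Vc X + s' - (Vc X + w₁.s + w₂.s) + (0 - 0) = C * ε * (x + q) := by
    rw [hs']
    ring
  have hX3 := hX2.2
  have hY3 := hY2.2
  rw [e1] at hX3
  rw [e2] at hY3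
  have hPP : μ * (C * ε * (x + q)) * (Pq X + Pq Y) ≤ μ * (C * ε * (x + q)) * P :=
    mul_le_mul_of_nonneg_left (by linarith) (by positivity)
  rw [add_comm (Vc Y) w₂.s] at hm
  have hX4 := hX1.1
  have hY4 := hY1.1
  linarith

theorem del_abs {θ μ V₁ c C : ℝ} (hθ : 0 < θ) (hμ : 0 < μ) (hV₁ : 0 ≤ V₁)
    (hV : 2 * θ + μ * V₁ ≤ Real.pi / 2) (hc : 0 < c) (hC : 0 < C) :
    ∃ K δ : ℝ, 0 < K ∧ 0 < δ ∧ ∀ (ε : ℝ) (X Y : List Wv) (w₁ w₂ w₃ : Wv), 0 ≤ ε → ε ≤ δ →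
      Nn (X ++ w₁ :: w₂ :: Y) → Nn [w₃] →
      Pq (X ++ w₁ :: w₂ :: Y) ≤ δ → Am (X ++ w₁ :: w₂ :: Y) ≤ δ →
      Vc (X ++ w₁ :: w₂ :: Y) ≤ V₁ →
      |w₃.a - w₁.a - w₂.a| ≤ C * (w₁.s * |w₂.a| + w₂.s * |w₁.b| + qq2 w₁ w₂) →
      |w₃.b - w₁.b - w₂.b| ≤ C * (w₁.s * |w₂.a| + w₂.s * |w₁.b| + qq2 w₁ w₂) →
      w₃.s ≤ w₁.s + w₂.s + C * ε * (w₁.s * |w₂.a| + w₂.s * |w₁.b| + qq2 w₁ w₂) →
      (∀ L0 R0 : ℝ, 0 ≤ L0 → 0 ≤ R0 → L0 + R0 + w₁.s + w₂.s ≤ V₁ →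
        wt θ μ L0 * w₃.p + wt θ μ R0 * w₃.q ≤
          wt θ μ L0 * w₁.p + wt θ μ (R0 + w₂.s) * w₁.q +
          wt θ μ (L0 + w₁.s) * w₂.p + wt θ μ R0 * w₂.q -
          c * (w₁.s * |w₂.a| + w₂.s * |w₁.b|) +
          C * (ε * (w₁.s * |w₂.a| + w₂.s * |w₁.b|) + qq2 w₁ w₂)) →
      As θ μ 0 0 (X ++ w₃ :: Y) + K * Qp (X ++ w₃ :: Y) ≤
        As θ μ 0 0 (X ++ w₁ :: w₂ :: Y) + K * Qp (X ++ w₁ :: w₂ :: Y) ∧
      Vc (X ++ w₃ :: Y) + (As θ μ 0 0 (X ++ w₃ :: Y) + K * Qp (X ++ w₃ :: Y)) ≤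
        Vc (X ++ w₁ :: w₂ :: Y) +
          (As θ μ 0 0 (X ++ w₁ :: w₂ :: Y) + K * Qp (X ++ w₁ :: w₂ :: Y)) ∧
      Vc (X ++ w₃ :: Y) ≤ V₁ + θ / μ := by
  obtain ⟨K, hK⟩ : ∃ K, K = 2 * C + 4 := ⟨_, rfl⟩
  have hK0 : 0 < K := by rw [hK]; linarith
  obtain ⟨M, hM⟩ : ∃ M, M = C + μ * C + 3 * K * C + C * (V₁ + 2) := ⟨_, rfl⟩
  have hM0 : 0 < M := by rw [hM]; positivity
  obtain ⟨δ, hδ0, hδ1, hδA, hδB, hδC⟩ := exists_small hM0 (div_pos hθ hμ) (half_pos hc)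
  refine ⟨K, δ, hK0, hδ0, ?_⟩
  intro ε X Y w₁ w₂ w₃ hε hεδ hN hN3 hP hA hVc ha hb hs hmain
  obtain ⟨x, hx⟩ : ∃ x, x = w₁.s * |w₂.a| + w₂.s * |w₁.b| := ⟨_, rfl⟩
  obtain ⟨q, hq⟩ : ∃ q, q = qq2 w₁ w₂ := ⟨_, rfl⟩
  rw [← hx, ← hq] at ha hb hs
  rw [← hx, ← hq] at hmain
  have hXn : Nn X := fun w hw => hN w (List.mem_append_left _ hw)
  have hYn : Nn Y := fun w hw => hN w (List.mem_append_right _ (List.mem_cons_of_mem _
    (List.mem_cons_of_mem _ hw)))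
  obtain ⟨-, -, h1s⟩ := hN w₁ (List.mem_append_right _ List.mem_cons_self)
  obtain ⟨-, -, h2s⟩ := hN w₂ (List.mem_append_right _ (List.mem_cons_of_mem _ List.mem_cons_self))
  have hX0 := Vc_nonneg hXn
  have hY0 := Vc_nonneg hYn
  have hAX := Am_nonneg X
  have hAY := Am_nonneg Y
  have hx0 : 0 ≤ x := by rw [hx]; positivity
  have hq0 : 0 ≤ q := by rw [hq]; exact qq2_nonneg _ _
  have hVc' := hVc
  rw [Vc_append, Vc_cons, Vc_cons] at hVc'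
  have hA' := hA
  rw [Am_append, Am_cons, Am_cons] at hA'
  have ha1 := abs_nonneg w₁.a
  have hb1 := abs_nonneg w₁.b
  have ha2 := abs_nonneg w₂.a
  have hb2 := abs_nonneg w₂.b
  have hxle : x ≤ V₁ * δ := by
    rw [hx]
    have h1 : w₁.s * |w₂.a| ≤ V₁ * |w₂.a| := mul_le_mul_of_nonneg_right (by linarith) ha2
    have h2 : w₂.s * |w₁.b| ≤ V₁ * |w₁.b| := mul_le_mul_of_nonneg_right (by linarith) hb1
    have h3 : V₁ * (|w₂.a| + |w₁.b|) ≤ V₁ * δ := mul_le_mul_of_nonneg_left (by linarith) hV₁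
    linarith
  have hqle : q ≤ 2 * δ := by
    rw [hq]
    unfold qq2
    have h1 := ap_le w₁.a w₂.a
    have h2 := ap_le w₁.b w₂.b
    have h3 : |w₁.b| * |w₂.a| ≤ δ * |w₂.a| := mul_le_mul_of_nonneg_right (by linarith) ha2
    have h4 : |w₁.a| * |w₂.a| ≤ |w₁.a| * δ := mul_le_mul_of_nonneg_left (by linarith) ha1
    have h5 : |w₁.b| * |w₂.b| ≤ |w₁.b| * δ := mul_le_mul_of_nonneg_left (by linarith) hb1
    have h6 : δ * (2 * |w₁.a| + 2 * |w₁.b| + |w₂.a|) ≤ δ * 2 :=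
      mul_le_mul_of_nonneg_left (by linarith) hδ0.le
    nlinarith
  have hxq : C * ε * (x + q) ≤ δ * (C * (V₁ + 2)) := by
    calc C * ε * (x + q) ≤ C * 1 * (V₁ * δ + 2 * δ) := by
          refine mul_le_mul (mul_le_mul_of_nonneg_left (by linarith) hC.le) (by linarith)
            (by linarith) (by linarith)
      _ = δ * (C * (V₁ + 2)) := by ring
  have hsmall : C * ε * (x + q) ≤ θ / μ := by
    refine hxq.trans (le_trans ?_ hδA)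
    refine mul_le_mul_of_nonneg_left ?_ hδ0.le
    rw [hM]
    have : 0 < C + μ * C + 3 * K * C := by positivity
    linarith
  have hAs := As_merge (c := c) hθ hμ hV hC hε hx0 hq0 hN hN3 hP hVc hs hsmall (fun L0 R0 hL hR h => by
    have h1 := hmain L0 R0 hL hR h
    linarith)
  have hQ := Qp_merge ha hb X Y
  have hQ' : Qp (X ++ w₃ :: Y) ≤ Qp (X ++ w₁ :: w₂ :: Y) - q + 3 * (C * (x + q)) * δ := by
    have h1 : 3 * (C * (x + q)) * Am (X ++ w₁ :: w₂ :: Y) ≤ 3 * (C * (x + q)) * δ :=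
      mul_le_mul_of_nonneg_left hA (by positivity)
    rw [← hq] at hQ
    linarith
  have hKQ : K * Qp (X ++ w₃ :: Y) ≤
      K * (Qp (X ++ w₁ :: w₂ :: Y) - q + 3 * (C * (x + q)) * δ) :=
    mul_le_mul_of_nonneg_left hQ' hK0.le
  have hm1 : μ * (C * ε * (x + q)) * δ ≤ δ * (μ * C) * (x + q) := by
    calc μ * (C * ε * (x + q)) * δ = (ε * (δ * (μ * C) * (x + q))) := by ring
      _ ≤ 1 * (δ * (μ * C) * (x + q)) := mul_le_mul_of_nonneg_right (by linarith) (by positivity)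
      _ = δ * (μ * C) * (x + q) := one_mul _
  have hm2 : C * (ε * x + q) ≤ δ * C * x + C * q := by
    have : C * (ε * x) ≤ C * (δ * x) :=
      mul_le_mul_of_nonneg_left (mul_le_mul_of_nonneg_right hεδ hx0) hC.le
    linarith
  have hVle : C * ε * (x + q) ≤ δ * C * (x + q) := by
    calc C * ε * (x + q) ≤ C * δ * (x + q) :=
          mul_le_mul_of_nonneg_right (mul_le_mul_of_nonneg_left hεδ hC.le) (by linarith)
      _ = δ * C * (x + q) := by ring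
  have hMC : δ * (C + μ * C + 3 * K * C) ≤ δ * M := by
    refine mul_le_mul_of_nonneg_left ?_ hδ0.le
    rw [hM]
    have : 0 ≤ C * (V₁ + 2) := by positivity
    linarith
  have hF : As θ μ 0 0 (X ++ w₃ :: Y) + K * Qp (X ++ w₃ :: Y) ≤
      As θ μ 0 0 (X ++ w₁ :: w₂ :: Y) + K * Qp (X ++ w₁ :: w₂ :: Y) - c / 2 * x - 3 * q := by
    have h1 : (δ * (C + μ * C + 3 * K * C)) * x ≤ (c / 2) * x :=
      mul_le_mul_of_nonneg_right (hMC.trans hδB) hx0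
    have h2 : (δ * (μ * C + 3 * K * C)) * q ≤ 1 * q := by
      refine mul_le_mul_of_nonneg_right ?_ hq0
      have h3 : 0 < δ * C := by positivity
      have h4 := hMC.trans hδC
      linarith
    have h5 : K * q = 2 * C * q + 4 * q := by rw [hK]; ring
    have h6 : 0 ≤ C * q := by positivity
    nlinarith
  have hVs : w₃.s ≤ w₁.s + w₂.s + c / 2 * x + 3 * q := by
    have h0 : δ * C ≤ δ * (C + μ * C + 3 * K * C) := by
      refine mul_le_mul_of_nonneg_left ?_ hδ0.le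
      have : 0 < μ * C + 3 * K * C := by positivity
      linarith
    have h1 : (δ * C) * x ≤ (c / 2) * x :=
      mul_le_mul_of_nonneg_right (h0.trans (hMC.trans hδB)) hx0
    have h2 : (δ * C) * q ≤ 1 * q := mul_le_mul_of_nonneg_right (h0.trans (hMC.trans hδC)) hq0
    linarith
  have hcx : 0 ≤ c / 2 * x := by positivity
  refine ⟨by linarith, ?_, ?_⟩
  · rw [Vc_append, Vc_append, Vc_cons, Vc_cons, Vc_cons]
    linarith
  · rw [Vc_append, Vc_cons]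
    linarith

end Helper51.TH
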