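import Pool.Agent.Helper51.TH.Local
import Pool.Agent.Helper51.TH.DelAbs

/-!
TH-P11. Deleting a state decreases the functional.

PROOF. `waves_append`: for a list `ws` and states, `waves γ (xs ++ L :: ys) = waves γ (xs ++ [L]) ++ waves γ (L :: ys)`
(induction on `xs`). So with `X = waves (xs ++ [L])`, `Y = waves (R :: ys)`:
`waves (xs ++ L :: M :: R :: ys) = X ++ wv L M :: wv M R :: Y`, `waves (xs ++ L :: R :: ys) = X ++ wv L R :: Y`.
`VV' ≤ V₁`: the last statement of `del_abs` gives `VV' ≤ V₁ + θ/μ`, so (`θ + μ (V₁ + θ/μ) ≤ π/2`, `As_bounds`, `Qp_nonneg`)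
`FF' ≥ 0`, and `VV' ≤ VV' + FF' ≤ VV + FF ≤ V₁`.
Constants: `inter` (`C₁, ε₁`), `local_est` (`c, C₂, ε₂`), `C = max (2 C₁) C₂ + 1`; `del_abs` gives `K, δ₀`. Let
`FF ≤ δ` (small). By `As_bounds` (`θ + μ V₁ ≤ π/2`, `Vc ≤ V₁`) and `Qp ≥ 0`: `Pq ≤ δ/sin θ`, and
`|a| ≤ exp(Λ/2) p`, `|b| ≤ exp(Λ/2) q`, so `Am ≤ exp(Λ/2) δ/sin θ =: ε`, in particular all four amplitudes are `≤ ε`; for small
`δ`: `ε ≤ min ε₁ ε₂ δ₀`. `inter` gives the first three hypotheses of `del_abs` (`x = 2 X`: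
`|sg L M| |a₂| = 2 (wv L M).s |a₂|`, and `(wv L R).s = |s₃|/2 ≤ |s₁|/2 + |s₂|/2 + |s₃ - s₁ - s₂|/2`), `local_est` the last.
`V₁ ≥ 0` may be assumed (otherwise `VV + FF ≤ V₁` is impossible); `ε = 0` (if `δ` ...) does not occur: use
`ε = exp(Λ/2) δ/sin θ > 0`.
-/

open Set Filter Topology

namespace Helper51.TH

/-- The property of the constants `K, δ`: deletion of an interior state does not increase `FF` and
`VV + FF`, and keeps `VV ≤ V₁`. -/
def DelOK (γ z₁ z₂ Λ θ μ V₁ K δ : ℝ) : Prop :=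
  ∀ (xs ys : List St) (L M R : St), (∀ w ∈ xs ++ L :: M :: R :: ys, InB z₁ z₂ Λ w) →
    FF γ θ μ K (xs ++ L :: M :: R :: ys) ≤ δ → VV γ (xs ++ L :: M :: R :: ys) ≤ V₁ →
    VV γ (xs ++ L :: M :: R :: ys) + FF γ θ μ K (xs ++ L :: M :: R :: ys) ≤ V₁ →
    FF γ θ μ K (xs ++ L :: R :: ys) ≤ FF γ θ μ K (xs ++ L :: M :: R :: ys) ∧
    VV γ (xs ++ L :: R :: ys) + FF γ θ μ K (xs ++ L :: R :: ys) ≤
      VV γ (xs ++ L :: M :: R :: ys) + FF γ θ μ K (xs ++ L :: M :: R :: ys) ∧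
    VV γ (xs ++ L :: R :: ys) ≤ V₁

theorem waves_append (γ : ℝ) (xs ys : List St) (L : St) :
    waves γ (xs ++ L :: ys) = waves γ (xs ++ [L]) ++ waves γ (L :: ys) := by
  induction xs with
  | nil => rfl
  | cons x xs ih =>
    cases xs with
    | nil => rfl
    | cons y t =>
      have h1 : waves γ ((x :: y :: t) ++ L :: ys) = wv γ x y :: waves γ ((y :: t) ++ L :: ys) :=
        rfl
      have h2 : waves γ ((x :: y :: t) ++ [L]) = wv γ x y :: waves γ ((y :: t) ++ [L]) := rfl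
      rw [h1, h2, ih]
      rfl

private theorem wv_nonneg (γ : ℝ) (L R : St) :
    0 ≤ (wv γ L R).p ∧ 0 ≤ (wv γ L R).q ∧ 0 ≤ (wv γ L R).s := by
  refine ⟨?_, ?_, ?_⟩
  · exact mul_nonneg (Real.exp_pos _).le (abs_nonneg _)
  · exact mul_nonneg (Real.exp_pos _).le (abs_nonneg _)
  · exact div_nonneg (abs_nonneg _) (by norm_num)

theorem waves_nonneg (γ : ℝ) (ws : List St) : Nn (waves γ ws) := by
  induction ws with
  | nil =>
    intro w hw
    simp [waves] at hw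
  | cons x t ih =>
    cases t with
    | nil =>
      intro w hw
      simp [waves] at hw
    | cons y t =>
      have h1 : waves γ (x :: y :: t) = wv γ x y :: waves γ (y :: t) := rfl
      intro w hw
      rw [h1, List.mem_cons] at hw
      rcases hw with rfl | hw
      · exact wv_nonneg γ x y
      · exact ih w hw

private theorem amp_le {Λ l a : ℝ} (hl : |l| ≤ Λ) : |a| ≤ Real.exp (Λ / 2) * (Real.exp (l / 2) * |a|) := by
  rw [← mul_assoc, ← Real.exp_add]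
  have h1 : 0 ≤ Λ / 2 + l / 2 := by
    have := neg_abs_le l
    linarith
  exact le_mul_of_one_le_left (abs_nonneg a) (Real.one_le_exp h1)

private theorem Am_le_Pq {γ z₁ z₂ Λ : ℝ} (ws : List St) (h : ∀ w ∈ ws, InB z₁ z₂ Λ w) :
    Am (waves γ ws) ≤ Real.exp (Λ / 2) * Pq (waves γ ws) := by
  induction ws with
  | nil => simp [waves, Am, Pq]
  | cons x t ih =>
    cases t with
    | nil => simp [waves, Am, Pq]
    | cons y t =>
      have h1 : waves γ (x :: y :: t) = wv γ x y :: waves γ (y :: t) := rfl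
      have h2 := ih fun w hw => h w (List.mem_cons_of_mem _ hw)
      have h3 : Am (waves γ (x :: y :: t)) =
          (|ra γ x y| + |rb γ x y|) + Am (waves γ (y :: t)) := by
        rw [h1]
        rfl
      have h4 : Pq (waves γ (x :: y :: t)) =
          (Real.exp (x.l / 2) * |ra γ x y| + Real.exp (y.l / 2) * |rb γ x y|) +
            Pq (waves γ (y :: t)) := by
        rw [h1]
        rfl
      have h5 := amp_le (a := ra γ x y) (h x (by simp)).2.2
      have h6 := amp_le (a := rb γ x y) (h y (by simp)).2.2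
      rw [h3, h4]
      linarith

theorem del_state {γ z₁ z₂ Λ θ μ V₁ : ℝ} (hγ : 1 < γ) (hz : 0 < z₁) (hθ : 0 < θ) (hμ : 1 < μ)
    (hV : 2 * θ + μ * V₁ ≤ Real.pi / 2) :
    ∃ K δ : ℝ, 0 < K ∧ 0 < δ ∧ DelOK γ z₁ z₂ Λ θ μ V₁ K δ := by
  by_cases hV₁ : 0 ≤ V₁
  swap
  · refine ⟨1, 1, one_pos, one_pos, ?_⟩
    intro xs ys L M R _ _ hVV _
    exfalso
    have h1 := Vc_nonneg (waves_nonneg γ (xs ++ L :: M :: R :: ys))
    unfold VV at hVV
    linarith
  have hpi := Real.pi_pos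
  have hμ0 : 0 < μ := by linarith
  have hμV : 0 ≤ μ * V₁ := mul_nonneg hμ0.le hV₁
  have hsin : 0 < Real.sin θ := Real.sin_pos_of_pos_of_lt_pi hθ (by linarith)
  obtain ⟨c, C₂, ε₂, hc, hC₂, hε₂, hloc⟩ := local_est (z₂ := z₂) (Λ := Λ) hγ hz hθ hμ hV
  obtain ⟨C₁, ε₁, hC₁, hε₁, hint⟩ := inter (z₂ := z₂) (Λ := Λ) hγ hz
  obtain ⟨C, hCd⟩ : ∃ C, C = max (2 * C₁) C₂ + 1 := ⟨_, rfl⟩
  have hC1 : 2 * C₁ ≤ C := by
    have := le_max_left (2 * C₁) C₂
    linarith
  have hC2 : C₂ ≤ C := by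
    have := le_max_right (2 * C₁) C₂
    linarith
  have hC : 0 < C := by linarith
  obtain ⟨K, δ₀, hK, hδ₀, hdel⟩ := del_abs hθ hμ0 hV₁ hV hc hC
  have hexp : 0 < Real.exp (Λ / 2) := Real.exp_pos _
  obtain ⟨e₀, he₀⟩ : ∃ e₀, e₀ = min (min ε₁ ε₂) δ₀ := ⟨_, rfl⟩
  have he₀p : 0 < e₀ := by
    rw [he₀]
    exact lt_min (lt_min hε₁ hε₂) hδ₀
  have he1 : e₀ ≤ ε₁ := by
    rw [he₀]
    exact (min_le_left _ _).trans (min_le_left _ _)
  have he2 : e₀ ≤ ε₂ := by
    rw [he₀]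
    exact (min_le_left _ _).trans (min_le_right _ _)
  have he3 : e₀ ≤ δ₀ := by
    rw [he₀]
    exact min_le_right _ _
  obtain ⟨δ, hδ⟩ : ∃ δ, δ = min (Real.sin θ * δ₀) (Real.sin θ * e₀ / Real.exp (Λ / 2)) := ⟨_, rfl⟩
  have hδp : 0 < δ := by
    rw [hδ]
    exact lt_min (by positivity) (by positivity)
  have hδ1 : δ / Real.sin θ ≤ δ₀ := by
    rw [div_le_iff₀ hsin, mul_comm, hδ]
    exact min_le_left _ _
  obtain ⟨ε, hε⟩ : ∃ ε, ε = Real.exp (Λ / 2) * (δ / Real.sin θ) := ⟨_, rfl⟩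
  have hεp : 0 < ε := by
    rw [hε]
    positivity
  have hεe : ε ≤ e₀ := by
    have h1 : δ ≤ Real.sin θ * e₀ / Real.exp (Λ / 2) := by
      rw [hδ]
      exact min_le_right _ _
    rw [le_div_iff₀ hexp] at h1
    rw [hε, mul_div_assoc', div_le_iff₀ hsin]
    linarith
  refine ⟨K, δ, hK, hδp, ?_⟩
  intro xs ys L M R hB hFF hVV hsum
  have hW : waves γ (xs ++ L :: M :: R :: ys) =
      waves γ (xs ++ [L]) ++ wv γ L M :: wv γ M R :: waves γ (R :: ys) := by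
    rw [waves_append]
    rfl
  have hW' : waves γ (xs ++ L :: R :: ys) =
      waves γ (xs ++ [L]) ++ wv γ L R :: waves γ (R :: ys) := by
    rw [waves_append]
    rfl
  have hNn := waves_nonneg γ (xs ++ L :: M :: R :: ys)
  have hNn' := waves_nonneg γ (xs ++ L :: R :: ys)
  have hVc0 := Vc_nonneg hNn
  have hAmPq := Am_le_Pq (γ := γ) _ hB
  unfold FF at hFF hsum ⊢
  unfold VV at hVV hsum ⊢
  have hQ := Qp_nonneg (waves γ (xs ++ L :: M :: R :: ys))
  have hKQ := mul_nonneg hK.le hQ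
  have hVcV : μ * Vc (waves γ (xs ++ L :: M :: R :: ys)) ≤ μ * V₁ :=
    mul_le_mul_of_nonneg_left hVV hμ0.le
  have hAs := (As_bounds hθ.le hμ0.le hNn le_rfl le_rfl (by rw [zero_add, zero_add]; linarith)).1
  have hPq : Pq (waves γ (xs ++ L :: M :: R :: ys)) ≤ δ / Real.sin θ := by
    rw [le_div_iff₀ hsin, mul_comm]
    linarith
  have hAm : Am (waves γ (xs ++ L :: M :: R :: ys)) ≤ ε := by
    rw [hε]
    exact hAmPq.trans (mul_le_mul_of_nonneg_left hPq hexp.le)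
  have hBL : InB z₁ z₂ Λ L := hB L (by simp)
  have hBM : InB z₁ z₂ Λ M := hB M (by simp)
  have hBR : InB z₁ z₂ Λ R := hB R (by simp)
  rw [hW] at hNn hAm hPq hVV hsum ⊢
  rw [hW'] at hNn' ⊢
  have hAm2 : Am (waves γ (xs ++ [L]) ++ wv γ L M :: wv γ M R :: waves γ (R :: ys)) =
      Am (waves γ (xs ++ [L])) + ((|ra γ L M| + |rb γ L M|) + ((|ra γ M R| + |rb γ M R|) +
        Am (waves γ (R :: ys)))) := by
    rw [Am_append]
    rfl
  have hA1 := Am_nonneg (waves γ (xs ++ [L]))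
  have hA2 := Am_nonneg (waves γ (R :: ys))
  have a1 := abs_nonneg (ra γ L M)
  have a2 := abs_nonneg (rb γ L M)
  have a3 := abs_nonneg (ra γ M R)
  have a4 := abs_nonneg (rb γ M R)
  have b1 : |ra γ L M| ≤ ε := by linarith
  have b2 : |rb γ L M| ≤ ε := by linarith
  have b3 : |ra γ M R| ≤ ε := by linarith
  have b4 : |rb γ M R| ≤ ε := by linarith
  obtain ⟨d, hd1, hd2, hd3, -, hd5⟩ := hint ε L M R hεp (hεe.trans he1) hBL hBM hBR b1 b2 b3 b4
  have hl := hloc ε L M R hεp (hεe.trans he2) hBL hBM hBR b1 b2 b3 b4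
  have hq := qq2_nonneg (wv γ L M) (wv γ M R)
  obtain ⟨q, hqd⟩ : ∃ q, q = qq2 (wv γ L M) (wv γ M R) := ⟨_, rfl⟩
  obtain ⟨x, hxd⟩ : ∃ x, x = (wv γ L M).s * |(wv γ M R).a| + (wv γ M R).s * |(wv γ L M).b| := ⟨_, rfl⟩
  have hx0 : 0 ≤ x := by
    rw [hxd]
    exact add_nonneg (mul_nonneg (wv_nonneg γ L M).2.2 (abs_nonneg _))
      (mul_nonneg (wv_nonneg γ M R).2.2 (abs_nonneg _))
  have hx2 : |sg γ L M| * |ra γ M R| + |sg γ M R| * |rb γ L M| = 2 * x := by
    rw [hxd]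
    change _ = 2 * (|sg γ L M| / 2 * |ra γ M R| + |sg γ M R| / 2 * |rb γ L M|)
    ring
  rw [← hqd] at hq hd3 hd5
  rw [hx2] at hd3 hd5
  have hd6 : |d| ≤ C * (x + q) := by
    have h1 : C₁ * (2 * x + q) ≤ (2 * C₁) * (x + q) := by nlinarith
    have h2 : (2 * C₁) * (x + q) ≤ C * (x + q) := mul_le_mul_of_nonneg_right hC1 (by linarith)
    linarith
  have hd7 : |sg γ L R - sg γ L M - sg γ M R| / 2 ≤ C * ε * (x + q) := by
    have h1 : C₁ * ε * (2 * x + q) ≤ (2 * C₁) * ε * (x + q) := by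
      have : 0 ≤ C₁ * ε := by positivity
      nlinarith
    have h2 : (2 * C₁) * ε * (x + q) ≤ C * ε * (x + q) :=
      mul_le_mul_of_nonneg_right (mul_le_mul_of_nonneg_right hC1 hεp.le) (by linarith)
    have h3 := abs_nonneg (sg γ L R - sg γ L M - sg γ M R)
    linarith
  have hmain := hdel ε (waves γ (xs ++ [L])) (waves γ (R :: ys)) (wv γ L M) (wv γ M R) (wv γ L R)
    hεp.le (hεe.trans he3) hNn (by
      intro w hw
      rw [List.mem_singleton] at hw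
      rw [hw]
      exact wv_nonneg γ L R) (hPq.trans hδ1) (hAm.trans (hεe.trans he3)) hVV
    (by
      rw [← hxd, ← hqd]
      refine le_trans (le_of_eq ?_) hd6
      change |ra γ L R - ra γ L M - ra γ M R| = |d|
      rw [hd1]
      congr 1
      ring)
    (by
      rw [← hxd, ← hqd]
      refine le_trans (le_of_eq ?_) hd6
      change |rb γ L R - rb γ L M - rb γ M R| = |d|
      rw [hd2]
      congr 1
      ring)
    (by
      rw [← hxd, ← hqd]
      change |sg γ L R| / 2 ≤ |sg γ L M| / 2 + |sg γ M R| / 2 + C * ε * (x + q)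
      have h1 : |sg γ L R| ≤ |sg γ L R - sg γ L M - sg γ M R| + |sg γ L M| + |sg γ M R| := by
        have h2 : sg γ L R = (sg γ L R - sg γ L M - sg γ M R) + sg γ L M + sg γ M R := by ring
        calc |sg γ L R| = |(sg γ L R - sg γ L M - sg γ M R) + sg γ L M + sg γ M R| := by
              rw [← h2]
          _ ≤ _ := abs_add_three _ _ _
      linarith)
    (by
      intro L0 R0 hL0 hR0 hLR
      have h1 := hl L0 R0 hL0 hR0 hLR
      have h2 : (wv γ L M).s * |ra γ M R| + (wv γ M R).s * |rb γ L M| = x := hxd.symm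
      rw [h2, ← hqd] at h1
      rw [← hxd, ← hqd]
      have h3 : C₂ * (ε * x + q) ≤ C * (ε * x + q) :=
        mul_le_mul_of_nonneg_right hC2 (add_nonneg (mul_nonneg hεp.le hx0) hq)
      linarith)
  obtain ⟨hm1, hm2, hm3⟩ := hmain
  refine ⟨hm1, hm2, ?_⟩
  have hVc' : μ * Vc (waves γ (xs ++ [L]) ++ wv γ L R :: waves γ (R :: ys)) ≤ μ * V₁ + θ := by
    have h1 := mul_le_mul_of_nonneg_left hm3 hμ0.le
    rw [mul_add, mul_div_cancel₀ θ hμ0.ne'] at h1
    exact h1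
  have hAs' := (As_bounds hθ.le hμ0.le hNn' le_rfl le_rfl
    (by rw [zero_add, zero_add]; linarith)).2.2
  have hQ' := mul_nonneg hK.le
    (Qp_nonneg (waves γ (xs ++ [L]) ++ wv γ L R :: waves γ (R :: ys)))
  linarith

end Helper51.TH
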