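import Pool.Agent.Helper51.TH.Glue

/-!
TH-N12. The dual acoustic wave from the signals.

NOTATION. `P > 0`, `ρ_i = rhoS ρA N i`, `c_i = spd P ρA N i = √(P/ρ_i)`, `Z_i = √(P ρ_i)`, so that `Z_i c_i = P`,
`Z_i / c_i = ρ_i`, `c_i² ρ_i = P`; `τ = tau δ`, `X = pos P ρA δ N` (`X 0 = X 1 = 0`, `X (i+1) = X i + c_i τ_i`, strictly
increasing from `X 1` on, because `log (nth Prime i) > 0`); `q_i = √Z_i`, `σ = √(√(P ρA)) = q_0 ≤ q_i`.
For even `i`: `Z_{i+1}/Z_i = exp (π/N)`, for odd `i` the inverse. With `r = tanh (π/(2N))` and `ϱ = (-1)^i r`: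
`(1 + ϱ)/√(1 - r²) = √((1+ϱ)/(1-ϱ)) = √(Z_{i+1}/Z_i) = q_{i+1}/q_i` and `(1 - ϱ)/√(1 - r²) = q_i/q_{i+1}`
(`(1 + tanh y)/(1 - tanh y) = exp (2 y)`). So adding and subtracting the two equations of `IsSig.jump`, for `i < N`,
`t ≤ T0`:
(J) `q_i (f i (t - τ i) + g i (t + τ i)) = q_{i+1} (f (i+1) t + g (i+1) t)`,
    `(f i (t - τ i) - g i (t + τ i)) / q_i = (f (i+1) t - g (i+1) t) / q_{i+1}`,
and, differentiating in `t` for `t < T0` and by continuity for `t = T0`, the same for `f', g'` (deriv).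
DEFINITION. For `(s, x)` (`s` = reversed time) and region `i` let `α = s - (x - X i)/c_i`, `β = s + (x - X i)/c_i` and
`A1 i (s, x) = q_i (f i α + g i β)`, `A2 i (s, x) = (f i α - g i β)/q_i`,
`B1 i (s, x) = -(f i' α - g i' β)/q_i`, `B2 i (s, x) = (f i' α + g i' β)/(c_i q_i)`.
`Ψ₁ (t, x) = A1 (reg X N x) (T0 - t, x)`, `Ψ₂ (t, x) = - A2 (reg X N x) (T0 - t, x)`,
`φ_j (t, x) = B_j (reg X N x) (T0 - max 0 (min t T0), x)`.
At `x = X (i+1)`: `(x - X i)/c_i = τ i`, so (J) gives the matching of `A1, A2` at time `s ∈ [0, T0]`; (J) for the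
derivatives gives the matching of `B1` and (because `1/(c_i q_i) = q_i/P`) of `B2`.
PROOF of the properties.
* lip: `f i', g i'` are `C¹` with compact support, so Lipschitz; `glue` (apply it to the functions
  `(t, x) ↦ B_j i (T0 - t, x)`).
* eq: for `0 < t < T0` and `x` not an interface (a.e.): `dt φ₁ = (f'' - g'')/q`, `dx φ₂ = (-f'' + g'')/(c² q)`, and
  `ρ_i = P/c_i²`; `dt φ₂ = -(f'' + g'')/(c q)`, `dx φ₁ = (f'' + g'')/(c q)`.
* cont, deriv: `glue_slice`; `∂x Ψ₁ = q (-f' + g')/c`, and `ρ φ₁ = -ρ (f' - g')/q` with `q/c = ρ/q` (`Z = ρ c`);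
  `∂x Ψ₂ = (f' + g')/(c q)`. The countable set is the set of the interfaces.
* supp: for `s = T0 - t ∈ [0, T0]`: region `0` (`x < 0`): `f 0` and `f 0'` have compact support, `β = s + x/c_0 < η` if
  `x < -c_0 T0`; regions `1 ≤ i < N` are bounded; region `N`: `α < η` if `x > X N + c_N T0`, `g N = 0`. (`f = 0` for `t < η`
  gives `f' = 0` for `t < η`.)
* bound: `s ∈ [0, η]`: region `0`, `x < 0`: `|f 0 α| ≤ 1`, `β < η` (as `x < 0`), so `g 0 β = 0`: `|Ψ₁| ≤ q_0 = σ`,
  `|Ψ₂| ≤ 1/σ`. Region `i ≥ 1`: `α ≤ s ≤ η`, so `f i α = 0` (continuity at `η`), and `β ≤ η + (x - X i)/c_i` with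
  `(x - X i)/c_i < τ i` for `i < N`, so `g i β = 0` (`IsSig.zero`: `g i (t + τ i) = 0` for `t < η`); for `i = N`: `g N = 0`.
* large: `x0 = X N + c_N (T0 - s)` lies in the region `N`; `Ψ₁ (0, x0) = q_N (f N s + g N (..)) = q_N f N s ≥ σ f N s`.
-/

open MeasureTheory Set Filter Topology
open scoped ENNReal NNReal

namespace Helper51.TH

open Helper73.EU

section consts

variable {P ρA : ℝ} {N : ℕ}

/-- the square root of the impedance -/
private noncomputable def qS (P ρA : ℝ) (N i : ℕ) : ℝ := √(√(P * rhoS ρA N i))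

private lemma rhoS_pos (hρ : 0 < ρA) (i : ℕ) : 0 < rhoS ρA N i := mul_pos hρ (Real.exp_pos _)

private lemma spd_pos (hP : 0 < P) (hρ : 0 < ρA) (i : ℕ) : 0 < spd P ρA N i :=
  Real.sqrt_pos.mpr (div_pos hP (rhoS_pos hρ i))

private lemma spd_sq (hP : 0 < P) (hρ : 0 < ρA) (i : ℕ) : rhoS ρA N i * spd P ρA N i ^ 2 = P := by
  have h := rhoS_pos (N := N) hρ i
  unfold spd
  rw [Real.sq_sqrt (div_nonneg hP.le h.le)]
  field_simp

private lemma qS_pos (hP : 0 < P) (hρ : 0 < ρA) (i : ℕ) : 0 < qS P ρA N i :=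
  Real.sqrt_pos.mpr (Real.sqrt_pos.mpr (mul_pos hP (rhoS_pos hρ i)))

private lemma qS_spd (hP : 0 < P) (hρ : 0 < ρA) (i : ℕ) : qS P ρA N i ^ 2 * spd P ρA N i = P := by
  have h := rhoS_pos (N := N) hρ i
  unfold qS spd
  rw [Real.sq_sqrt (Real.sqrt_nonneg _), ← Real.sqrt_mul (mul_pos hP h).le]
  have h2 : P * rhoS ρA N i * (P / rhoS ρA N i) = P ^ 2 := by field_simp
  rw [h2, Real.sqrt_sq hP.le]

private lemma qS_rho (hP : 0 < P) (hρ : 0 < ρA) (i : ℕ) :
    qS P ρA N i ^ 2 = rhoS ρA N i * spd P ρA N i := by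
  have h1 := qS_spd (N := N) hP hρ i
  have h2 := spd_sq (N := N) hP hρ i
  have h3 := spd_pos (N := N) hP hρ i
  have h4 : qS P ρA N i ^ 2 * spd P ρA N i = rhoS ρA N i * spd P ρA N i * spd P ρA N i := by
    rw [h1, mul_assoc, ← pow_two, h2]
  exact mul_right_cancel₀ h3.ne' h4

private lemma qS_exp (hP : 0 < P) (hρ : 0 < ρA) (i : ℕ) :
    qS P ρA N i = √(√(P * ρA)) * Real.exp (Real.pi / (2 * N) * ((i % 2 : ℕ) : ℝ)) := by
  have h0 : 0 < P * ρA := mul_pos hP hρ
  have h1 : ∀ a : ℝ, √(Real.exp (2 * a)) = Real.exp a := by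
    intro a
    have : Real.exp (2 * a) = Real.exp a ^ 2 := by
      rw [← Real.exp_nat_mul]
      norm_num
    rw [this, Real.sqrt_sq (Real.exp_pos _).le]
  unfold qS rhoS
  have h2 : 2 * Real.pi / N * ((i % 2 : ℕ) : ℝ) =
      2 * (2 * (Real.pi / (2 * N) * ((i % 2 : ℕ) : ℝ))) := by
    rcases Nat.eq_zero_or_pos N with h | h
    · rw [h]; simp
    · have : (N : ℝ) ≠ 0 := by exact_mod_cast h.ne'
      field_simp
  rw [h2, ← mul_assoc, Real.sqrt_mul h0.le, h1, Real.sqrt_mul (Real.sqrt_nonneg _), h1]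

private lemma tanh_fac (y : ℝ) : (1 + Real.tanh y) / √(1 - Real.tanh y ^ 2) = Real.exp y ∧
    (1 - Real.tanh y) / √(1 - Real.tanh y ^ 2) = Real.exp (-y) ∧ 0 < √(1 - Real.tanh y ^ 2) := by
  have hc : 0 < Real.cosh y := Real.cosh_pos y
  have h1 : 1 - Real.tanh y ^ 2 = (1 / Real.cosh y) ^ 2 := by
    rw [Real.tanh_eq_sinh_div_cosh]
    have := Real.cosh_sq_sub_sinh_sq y
    field_simp
    linarith
  have h2 : √(1 - Real.tanh y ^ 2) = 1 / Real.cosh y := by
    rw [h1, Real.sqrt_sq (by positivity)]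
  rw [h2]
  refine ⟨?_, ?_, by positivity⟩
  · rw [← Real.cosh_add_sinh, Real.tanh_eq_sinh_div_cosh]
    field_simp
  · rw [← Real.cosh_sub_sinh, Real.tanh_eq_sinh_div_cosh]
    field_simp

private lemma jump_fac (hP : 0 < P) (hρ : 0 < ρA) (i : ℕ) :
    qS P ρA N i * ((1 + (-1) ^ i * Real.tanh (Real.pi / (2 * N))) /
      √(1 - Real.tanh (Real.pi / (2 * N)) ^ 2)) = qS P ρA N (i + 1) ∧
    qS P ρA N (i + 1) * ((1 - (-1) ^ i * Real.tanh (Real.pi / (2 * N))) /
      √(1 - Real.tanh (Real.pi / (2 * N)) ^ 2)) = qS P ρA N i := by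
  obtain ⟨h1, h2, -⟩ := tanh_fac (Real.pi / (2 * N))
  rw [qS_exp hP hρ i, qS_exp hP hρ (i + 1)]
  rcases Nat.even_or_odd i with he | ho
  · have e1 : i % 2 = 0 := Nat.even_iff.mp he
    have e2 : (i + 1) % 2 = 1 := by omega
    rw [he.neg_one_pow, one_mul, h1, h2, e1, e2, Real.exp_neg]
    have := Real.exp_pos (Real.pi / (2 * N))
    constructor
    · simp
    · simp
  · have e1 : i % 2 = 1 := Nat.odd_iff.mp ho
    have e2 : (i + 1) % 2 = 0 := by omega
    rw [ho.neg_one_pow, neg_one_mul, ← sub_eq_add_neg, sub_neg_eq_add, h1, h2, e1, e2, Real.exp_neg]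
    have := Real.exp_pos (Real.pi / (2 * N))
    constructor
    · simp
    · simp

end consts

private lemma deriv_eq_of_eq {F G : ℝ → ℝ} {F' G' t T0 : ℝ} (hF : HasDerivAt F F' t)
    (hG : HasDerivAt G G' t) (h : ∀ u ≤ T0, F u = G u) (ht : t ≤ T0) : F' = G' := by
  have h1 : HasDerivWithinAt F F' (Iic t) t := hF.hasDerivWithinAt
  have h2 : HasDerivWithinAt F G' (Iic t) t :=
    hG.hasDerivWithinAt.congr (fun u hu => h u (le_trans hu ht)) (h t ht)
  exact (uniqueDiffWithinAt_Iic t).eq_deriv _ h1 h2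

section jumps

variable {N : ℕ} {δ η T0 P ρA : ℝ} {f g : ℕ → ℝ → ℝ}

private lemma jumpJ (h : IsSig N (Real.tanh (Real.pi / (2 * N))) (tau δ) η T0 f g) (hP : 0 < P)
    (hρ : 0 < ρA) {i : ℕ} (hi : i < N) {t : ℝ} (ht : t ≤ T0) :
    qS P ρA N i * (f i (t - tau δ i) + g i (t + tau δ i)) =
      qS P ρA N (i + 1) * (f (i + 1) t + g (i + 1) t) ∧
    (f i (t - tau δ i) - g i (t + tau δ i)) / qS P ρA N i =
      (f (i + 1) t - g (i + 1) t) / qS P ρA N (i + 1) := by
  obtain ⟨h1, h2⟩ := h.jump i hi t ht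
  obtain ⟨h3, h4⟩ := jump_fac (N := N) hP hρ i
  have hq := qS_pos (N := N) hP hρ i
  have hq' := qS_pos (N := N) hP hρ (i + 1)
  rw [h1, h2]
  generalize Real.tanh (Real.pi / (2 * N)) = r at *
  generalize √(1 - r ^ 2) = s at *
  constructor
  · rw [← h3]
    ring
  · rw [div_eq_div_iff hq.ne' hq'.ne', ← h4]
    ring

private lemma jumpJ' (h : IsSig N (Real.tanh (Real.pi / (2 * N))) (tau δ) η T0 f g) (hP : 0 < P)
    (hρ : 0 < ρA) {i : ℕ} (hi : i < N) {t : ℝ} (ht : t ≤ T0) :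
    qS P ρA N i * (deriv (f i) (t - tau δ i) + deriv (g i) (t + tau δ i)) =
      qS P ρA N (i + 1) * (deriv (f (i + 1)) t + deriv (g (i + 1)) t) ∧
    (deriv (f i) (t - tau δ i) - deriv (g i) (t + tau δ i)) / qS P ρA N i =
      (deriv (f (i + 1)) t - deriv (g (i + 1)) t) / qS P ρA N (i + 1) := by
  have hd : ∀ k ≤ N, ∀ u, HasDerivAt (f k) (deriv (f k) u) u ∧ HasDerivAt (g k) (deriv (g k) u) u := by
    intro k hk u
    exact ⟨((h.smooth k hk).1.differentiable (by norm_num) u).hasDerivAt,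
      ((h.smooth k hk).2.differentiable (by norm_num) u).hasDerivAt⟩
  have hi' : i + 1 ≤ N := hi
  have d1 : HasDerivAt (fun t => f i (t - tau δ i)) (deriv (f i) (t - tau δ i)) t := by
    have := (hd i hi.le (t - tau δ i)).1.comp_sub_const t (tau δ i)
    exact this
  have d2 : HasDerivAt (fun t => g i (t + tau δ i)) (deriv (g i) (t + tau δ i)) t := by
    have := (hd i hi.le (t + tau δ i)).2.comp_add_const t (tau δ i)
    exact this
  have d3 := (hd (i + 1) hi' t).1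
  have d4 := (hd (i + 1) hi' t).2
  constructor
  · exact deriv_eq_of_eq ((d1.add d2).const_mul (qS P ρA N i)) ((d3.add d4).const_mul (qS P ρA N (i + 1)))
      (fun u hu => (jumpJ h hP hρ hi hu).1) ht
  · exact deriv_eq_of_eq ((d1.sub d2).div_const (qS P ρA N i)) ((d3.sub d4).div_const (qS P ρA N (i + 1)))
      (fun u hu => (jumpJ h hP hρ hi hu).2) ht

end jumps

section wave

/-- a wave -/
private noncomputable def W (T0 X c k₁ k₂ : ℝ) (a b : ℝ → ℝ) (z : ℝ × ℝ) : ℝ :=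
  k₁ * a (T0 - z.1 - (z.2 - X) / c) + k₂ * b (T0 - z.1 + (z.2 - X) / c)

private lemma lip_aff (T0 X c ε : ℝ) :
    ∃ C : ℝ≥0, LipschitzWith C (fun z : ℝ × ℝ => T0 - z.1 + ε * ((z.2 - X) / c)) := by
  refine ⟨Real.toNNReal (1 + |ε / c|), LipschitzWith.of_dist_le_mul fun z w => ?_⟩
  rw [Real.coe_toNNReal _ (by positivity), Real.dist_eq]
  have h1 : T0 - z.1 + ε * ((z.2 - X) / c) - (T0 - w.1 + ε * ((w.2 - X) / c)) =
      -(z.1 - w.1) + (ε / c) * (z.2 - w.2) := by ring
  rw [h1]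
  have h2 : |z.1 - w.1| ≤ dist z w := by
    rw [Prod.dist_eq, ← Real.dist_eq]; exact le_max_left _ _
  have h3 : |z.2 - w.2| ≤ dist z w := by
    rw [Prod.dist_eq, ← Real.dist_eq]; exact le_max_right _ _
  calc |-(z.1 - w.1) + (ε / c) * (z.2 - w.2)| ≤ |-(z.1 - w.1)| + |(ε / c) * (z.2 - w.2)| :=
        abs_add_le _ _
    _ = |z.1 - w.1| + |ε / c| * |z.2 - w.2| := by rw [abs_neg, abs_mul]
    _ ≤ dist z w + |ε / c| * dist z w :=
        add_le_add h2 (mul_le_mul_of_nonneg_left h3 (abs_nonneg _))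
    _ = (1 + |ε / c|) * dist z w := by ring

private lemma W_lip (T0 X c k₁ k₂ : ℝ) {a b : ℝ → ℝ} (ha : ∃ C : ℝ≥0, LipschitzWith C a)
    (hb : ∃ C : ℝ≥0, LipschitzWith C b) : ∃ C : ℝ≥0, LipschitzWith C (W T0 X c k₁ k₂ a b) := by
  obtain ⟨Ca, ha⟩ := ha
  obtain ⟨Cb, hb⟩ := hb
  obtain ⟨D1, h1⟩ := lip_aff T0 X c (-1)
  obtain ⟨D2, h2⟩ := lip_aff T0 X c 1
  have e : W T0 X c k₁ k₂ a b = fun z => k₁ * a (T0 - z.1 + (-1) * ((z.2 - X) / c)) +
      k₂ * b (T0 - z.1 + 1 * ((z.2 - X) / c)) := by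
    funext z
    unfold W
    rw [neg_one_mul, one_mul, ← sub_eq_add_neg]
  rw [e]
  have l1 : LipschitzWith (‖k₁‖₊ * (Ca * D1))
      (fun z : ℝ × ℝ => k₁ * a (T0 - z.1 + (-1) * ((z.2 - X) / c))) := by
    have := (lipschitzWith_smul k₁).comp (ha.comp h1)
    exact this
  have l2 : LipschitzWith (‖k₂‖₊ * (Cb * D2))
      (fun z : ℝ × ℝ => k₂ * b (T0 - z.1 + 1 * ((z.2 - X) / c))) := by
    have := (lipschitzWith_smul k₂).comp (hb.comp h2)
    exact this
  exact ⟨_, l1.add l2⟩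

private lemma W_fd (T0 X c k₁ k₂ : ℝ) {a b : ℝ → ℝ} {a' b' : ℝ} {z : ℝ × ℝ}
    (ha : HasDerivAt a a' (T0 - z.1 - (z.2 - X) / c)) (hb : HasDerivAt b b' (T0 - z.1 + (z.2 - X) / c)) :
    dt (W T0 X c k₁ k₂ a b) z = -(k₁ * a' + k₂ * b') ∧
      dx (W T0 X c k₁ k₂ a b) z = (-(k₁ * a') + k₂ * b') / c := by
  have f1 : HasFDerivAt (fun z : ℝ × ℝ => z.1) (ContinuousLinearMap.fst ℝ ℝ ℝ) z := hasFDerivAt_fst
  have f2 : HasFDerivAt (fun z : ℝ × ℝ => z.2) (ContinuousLinearMap.snd ℝ ℝ ℝ) z := hasFDerivAt_snd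
  have g1 : HasFDerivAt (fun z : ℝ × ℝ => T0 - z.1) (-(ContinuousLinearMap.fst ℝ ℝ ℝ)) z :=
    f1.const_sub T0
  have g2 : HasFDerivAt (fun z : ℝ × ℝ => (z.2 - X) / c) (c⁻¹ • (ContinuousLinearMap.snd ℝ ℝ ℝ)) z := by
    have := (f2.sub_const X).const_mul c⁻¹
    refine this.congr_of_eventuallyEq (Filter.Eventually.of_forall fun w => ?_)
    change (w.2 - X) / c = c⁻¹ * (w.2 - X)
    rw [div_eq_inv_mul]
  have h1 := (ha.comp_hasFDerivAt z (g1.sub g2)).const_mul k₁
  have h2 := (hb.comp_hasFDerivAt z (g1.add g2)).const_mul k₂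
  have h3 := (h1.add h2).fderiv
  have e : fderiv ℝ (W T0 X c k₁ k₂ a b) z = _ := h3
  unfold dt dx
  rw [e]
  constructor
  · simp
    ring
  · simp
    ring

private lemma W_slice (T0 X c k₁ k₂ t : ℝ) {a b : ℝ → ℝ} {a' b' : ℝ} {x : ℝ}
    (ha : HasDerivAt a a' (T0 - t - (x - X) / c)) (hb : HasDerivAt b b' (T0 - t + (x - X) / c)) :
    HasDerivAt (fun x => W T0 X c k₁ k₂ a b (t, x)) ((-(k₁ * a') + k₂ * b') / c) x := by
  have g2 : HasDerivAt (fun x : ℝ => (x - X) / c) (1 / c) x :=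
    ((hasDerivAt_id x).sub_const X).div_const c
  have h1 := (ha.comp x (g2.const_sub (T0 - t))).const_mul k₁
  have h2 := (hb.comp x (g2.const_add (T0 - t))).const_mul k₂
  have h3 := h1.add h2
  refine h3.congr_deriv ?_
  ring

end wave

theorem exists_dual {N : ℕ} {δ η s T0 P ρA : ℝ} {f g : ℕ → ℝ → ℝ} (hN : 1 ≤ N) (hδ : 0 < δ)
    (hη : 0 < η) (hηs : η < s) (hsT : s < T0)
    (h : IsSig N (Real.tanh (Real.pi / (2 * N))) (tau δ) η T0 f g) (hP : 0 < P) (hρ : 0 < ρA)
    (hf : 0 ≤ f N s) :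
    ∃ (R0 x0 : ℝ) (Ψ₁ Ψ₂ φ₁ φ₂ : ℝ × ℝ → ℝ), 0 < R0 ∧
      IsDual (rho0 P ρA δ N) P T0 η R0 (max (√(√(P * ρA))) (1 / √(√(P * ρA))))
        (√(√(P * ρA)) * f N s) x0 Ψ₁ Ψ₂ φ₁ φ₂ := by
  have hN0 : 0 < N := hN
  obtain ⟨q, hqdef⟩ : ∃ q : ℕ → ℝ, q = qS P ρA N := ⟨_, rfl⟩
  obtain ⟨c, hcdef⟩ : ∃ c : ℕ → ℝ, c = spd P ρA N := ⟨_, rfl⟩
  obtain ⟨X, hXdef⟩ : ∃ X : ℕ → ℝ, X = pos P ρA δ N := ⟨_, rfl⟩
  have hq : ∀ i, 0 < q i := fun i => by rw [hqdef]; exact qS_pos hP hρ i
  have hc : ∀ i, 0 < c i := fun i => by rw [hcdef]; exact spd_pos hP hρ i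
  have hqc : ∀ i, q i ^ 2 * c i = P := fun i => by rw [hqdef, hcdef]; exact qS_spd hP hρ i
  have hqr : ∀ i, q i ^ 2 = rhoS ρA N i * c i := fun i => by rw [hqdef, hcdef]; exact qS_rho hP hρ i
  have hrc : ∀ i, rhoS ρA N i * c i ^ 2 = P := fun i => by rw [hcdef]; exact spd_sq hP hρ i
  have hq0 : q 0 = √(√(P * ρA)) := by
    rw [hqdef, qS_exp hP hρ 0]
    simp
  have hσ : 0 < √(√(P * ρA)) := by rw [← hq0]; exact hq 0
  have hqN : √(√(P * ρA)) ≤ q N := by
    rw [hqdef, qS_exp hP hρ N]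
    refine le_mul_of_one_le_right (Real.sqrt_nonneg _) (Real.one_le_exp ?_)
    have := Real.pi_pos
    positivity
  have hX0 : X 0 = 0 := by rw [hXdef]; rfl
  have hXs : ∀ i, X (i + 1) = X i + c i * tau δ i := fun i => by rw [hXdef, hcdef]; rfl
  have hX1 : X 1 = 0 := by
    rw [hXs 0, hX0]
    change 0 + c 0 * 0 = 0
    ring
  have htau : ∀ i, 1 ≤ i → 0 < tau δ i := by
    intro i hi
    obtain ⟨j, rfl⟩ : ∃ j, i = j + 1 := ⟨i - 1, by omega⟩
    have h1 : 1 < Nat.nth Nat.Prime j := (Nat.prime_nth_prime j).one_lt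
    exact mul_pos hδ (Real.log_pos (by exact_mod_cast h1))
  have hX : ∀ i, 1 ≤ i → X i < X (i + 1) := by
    intro i hi
    rw [hXs i]
    have := mul_pos (hc i) (htau i hi)
    linarith
  have hregl : ∀ x, reg X N x ≤ N := fun x => reg_le X N x
  have hreg0 : ∀ x, x < 0 → reg X N x = 0 := by
    intro x hx
    by_contra hne
    have h1 := (lt_reg_iff hX hN0 (x := x)).mp (Nat.pos_of_ne_zero hne)
    rw [hX1] at h1
    linarith
  have hreg0' : ∀ x, reg X N x = 0 → x < 0 := by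
    intro x hx
    by_contra hcon
    have h1 := (lt_reg_iff hX hN0 (x := x)).mpr (by rw [hX1]; exact not_lt.mp hcon)
    omega
  have hregN : ∀ x, X N ≤ x → reg X N x = N := by
    intro x hx
    have h1 := (lt_reg_iff (N := N) hX (i := N - 1) (by omega) (x := x)).mpr (by
      rw [Nat.sub_add_cancel hN]; exact hx)
    have h2 := hregl x
    omega
  have hreg1 : ∀ x, 1 ≤ reg X N x → X (reg X N x) ≤ x := by
    intro x hx
    have h2 := hregl x
    have h1 := (lt_reg_iff (N := N) hX (i := reg X N x - 1) (by omega) (x := x)).mp (by omega)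
    rw [Nat.sub_add_cancel hx] at h1
    exact h1
  have hreg2 : ∀ x, reg X N x < N → x < X (reg X N x + 1) := by
    intro x hx
    by_contra hcon
    have h1 := (lt_reg_iff hX hx (x := x)).mpr (not_lt.mp hcon)
    exact lt_irrefl _ h1
  have hNreg : rho0 P ρA δ N = fun x => rhoS ρA N (reg X N x) := by
    funext x
    rw [hXdef]
    rfl
  -- derivatives
  have hd : ∀ k ≤ N, ∀ u, HasDerivAt (f k) (deriv (f k) u) u ∧ HasDerivAt (g k) (deriv (g k) u) u := by
    intro k hk u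
    exact ⟨((h.smooth k hk).1.differentiable (by norm_num) u).hasDerivAt,
      ((h.smooth k hk).2.differentiable (by norm_num) u).hasDerivAt⟩
  have hdd : ∀ k ≤ N, ∀ u, HasDerivAt (deriv (f k)) (deriv (deriv (f k)) u) u ∧
      HasDerivAt (deriv (g k)) (deriv (deriv (g k)) u) u := by
    intro k hk u
    exact ⟨((h.smooth k hk).1.differentiable_deriv_two u).hasDerivAt,
      ((h.smooth k hk).2.differentiable_deriv_two u).hasDerivAt⟩
  have hC1 : ∀ F : ℝ → ℝ, ContDiff ℝ 2 F → HasCompactSupport F →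
      ∃ C : ℝ≥0, LipschitzWith C (deriv F) := by
    intro F hF hFc
    have h1 : ContDiff ℝ 1 (deriv F) := ((contDiff_succ_iff_deriv (n := 1)).1 hF).2.2
    exact h1.lipschitzWith_of_hasCompactSupport hFc.deriv one_ne_zero
  have hlipf : ∀ k ≤ N, ∃ C : ℝ≥0, LipschitzWith C (deriv (f k)) := fun k hk =>
    hC1 _ (h.smooth k hk).1 (h.compact k hk).1
  have hlipg : ∀ k ≤ N, ∃ C : ℝ≥0, LipschitzWith C (deriv (g k)) := fun k hk =>
    hC1 _ (h.smooth k hk).2 (h.compact k hk).2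
  -- values at the interfaces
  have hat : ∀ (i : ℕ) (k₁ k₂ : ℝ) (a b : ℝ → ℝ) (t : ℝ), W T0 (X i) (c i) k₁ k₂ a b (t, X (i + 1)) =
      k₁ * a (T0 - t - tau δ i) + k₂ * b (T0 - t + tau δ i) := by
    intro i k₁ k₂ a b t
    have h1 : (X (i + 1) - X i) / c i = tau δ i := by
      rw [hXs i, add_sub_cancel_left, mul_div_assoc, mul_comm, div_mul_cancel₀ _ (hc i).ne']
    unfold W
    simp only
    rw [h1]
  have hat0 : ∀ (i : ℕ) (k₁ k₂ : ℝ) (a b : ℝ → ℝ) (t : ℝ),
      W T0 (X (i + 1)) (c (i + 1)) k₁ k₂ a b (t, X (i + 1)) =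
        k₁ * a (T0 - t) + k₂ * b (T0 - t) := by
    intro i k₁ k₂ a b t
    unfold W
    simp only
    rw [sub_self, zero_div, sub_zero, add_zero]
  have hiq : ∀ i, 1 / (c i * q i) = q i / P := by
    intro i
    have h1 := hqc i
    have h2 := hq i
    have h3 := hc i
    rw [div_eq_div_iff (by positivity) hP.ne', one_mul, ← h1]
    ring
  -- the glued functions
  obtain ⟨A1, hA1⟩ : ∃ A1 : ℕ → ℝ × ℝ → ℝ, A1 = fun i =>
    W T0 (X i) (c i) (-(1 / q i)) (1 / q i) (deriv (f i)) (deriv (g i)) := ⟨_, rfl⟩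
  obtain ⟨A2, hA2⟩ : ∃ A2 : ℕ → ℝ × ℝ → ℝ, A2 = fun i =>
    W T0 (X i) (c i) (1 / (c i * q i)) (1 / (c i * q i)) (deriv (f i)) (deriv (g i)) := ⟨_, rfl⟩
  have hT0 : 0 < T0 := by linarith
  have hg1 := glue (X := X) (N := N) (T0 := T0) hX hT0 (A := A1)
    (fun i hi => by rw [hA1]; exact W_lip _ _ _ _ _ (hlipf i hi) (hlipg i hi))
    (fun i hi t ht => by
      rw [hA1]
      beta_reduce
      rw [hat, hat0]
      have h1 := (jumpJ' h hP hρ hi (t := T0 - t) (by linarith [ht.1])).2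
      rw [← hqdef] at h1
      have h2 := hq i
      have h3 := hq (i + 1)
      calc -(1 / q i) * deriv (f i) (T0 - t - tau δ i) + 1 / q i * deriv (g i) (T0 - t + tau δ i)
          = -((deriv (f i) (T0 - t - tau δ i) - deriv (g i) (T0 - t + tau δ i)) / q i) := by
            field_simp
            ring
        _ = -((deriv (f (i + 1)) (T0 - t) - deriv (g (i + 1)) (T0 - t)) / q (i + 1)) := by rw [h1]
        _ = _ := by
            field_simp
            ring)
  have hg2 := glue (X := X) (N := N) (T0 := T0) hX hT0 (A := A2)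
    (fun i hi => by rw [hA2]; exact W_lip _ _ _ _ _ (hlipf i hi) (hlipg i hi))
    (fun i hi t ht => by
      rw [hA2]
      beta_reduce
      rw [hat, hat0]
      have h1 := (jumpJ' h hP hρ hi (t := T0 - t) (by linarith [ht.1])).1
      rw [← hqdef] at h1
      rw [hiq, hiq]
      calc q i / P * deriv (f i) (T0 - t - tau δ i) + q i / P * deriv (g i) (T0 - t + tau δ i)
          = q i * (deriv (f i) (T0 - t - tau δ i) + deriv (g i) (T0 - t + tau δ i)) / P := by ring
        _ = q (i + 1) * (deriv (f (i + 1)) (T0 - t) + deriv (g (i + 1)) (T0 - t)) / P := by rw [h1]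
        _ = _ := by ring)
  have hclamp : ∀ t ∈ Icc 0 T0, max 0 (min t T0) = t := by
    intro t ht
    rw [min_eq_left ht.2, max_eq_right ht.1]
  -- compact supports
  have hcs : ∀ F : ℝ → ℝ, HasCompactSupport F → ∃ K : ℝ, 0 < K ∧ ∀ u, K ≤ |u| → F u = 0 ∧
      deriv F u = 0 := by
    intro F hF
    obtain ⟨K1, hK1, h1⟩ := hF.exists_pos_le_norm
    obtain ⟨K2, hK2, h2⟩ := (HasCompactSupport.deriv hF).exists_pos_le_norm
    refine ⟨max K1 K2, lt_max_of_lt_left hK1, fun u hu => ⟨h1 u ?_, h2 u ?_⟩⟩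
    · exact (le_max_left _ _).trans hu
    · exact (le_max_right _ _).trans hu
  have hK : ∃ K : ℝ, 0 < K ∧ ∀ i, (i = 0 ∨ i = N) → ∀ u, K ≤ |u| → f i u = 0 ∧ deriv (f i) u = 0 ∧
      g i u = 0 ∧ deriv (g i) u = 0 := by
    obtain ⟨K1, hK1, h1⟩ := hcs (f 0) (h.compact 0 (Nat.zero_le _)).1
    obtain ⟨K2, hK2, h2⟩ := hcs (g 0) (h.compact 0 (Nat.zero_le _)).2
    obtain ⟨K3, hK3, h3⟩ := hcs (f N) (h.compact N le_rfl).1
    obtain ⟨K4, hK4, h4⟩ := hcs (g N) (h.compact N le_rfl).2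
    refine ⟨max (max K1 K2) (max K3 K4), lt_max_of_lt_left (lt_max_of_lt_left hK1), ?_⟩
    intro i hi u hu
    have u1 : K1 ≤ |u| := (le_max_left _ _).trans ((le_max_left _ _).trans hu)
    have u2 : K2 ≤ |u| := (le_max_right _ _).trans ((le_max_left _ _).trans hu)
    have u3 : K3 ≤ |u| := (le_max_left _ _).trans ((le_max_right _ _).trans hu)
    have u4 : K4 ≤ |u| := (le_max_right _ _).trans ((le_max_right _ _).trans hu)
    rcases hi with rfl | rfl
    · exact ⟨(h1 u u1).1, (h1 u u1).2, (h2 u u2).1, (h2 u u2).2⟩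
    · exact ⟨(h3 u u3).1, (h3 u u3).2, (h4 u u4).1, (h4 u u4).2⟩
  obtain ⟨K, hK0, hKz⟩ := hK
  obtain ⟨R0, hR0⟩ : ∃ R0 : ℝ, R0 = 1 + |X N| + (c 0 + c N) * (K + T0) := ⟨_, rfl⟩
  have hKT : 0 < K + T0 := by linarith
  have hR0pos : 0 < R0 := by
    rw [hR0]
    have := abs_nonneg (X N)
    have := mul_pos (add_pos (hc 0) (hc N)) hKT
    linarith
  have hfar : ∀ t ∈ Icc 0 T0, ∀ x : ℝ, R0 ≤ |x| → (reg X N x = 0 ∨ reg X N x = N) ∧
      K ≤ |T0 - t - (x - X (reg X N x)) / c (reg X N x)| ∧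
      K ≤ |T0 - t + (x - X (reg X N x)) / c (reg X N x)| := by
    intro t ht x hx
    have p0 := mul_pos (hc 0) hKT
    have pN := mul_pos (hc N) hKT
    have hxn := abs_nonneg (X N)
    rcases lt_or_ge x 0 with hx0 | hx0
    · have hr := hreg0 x hx0
      rw [hr, hX0, sub_zero]
      refine ⟨Or.inl rfl, ?_, ?_⟩
      · have h1 : x / c 0 ≤ -(K + T0) := by
          rw [div_le_iff₀ (hc 0)]
          rw [abs_of_neg hx0] at hx
          nlinarith
        have h2 : K ≤ T0 - t - x / c 0 := by linarith [ht.2]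
        exact h2.trans (le_abs_self _)
      · have h1 : x / c 0 ≤ -(K + T0) := by
          rw [div_le_iff₀ (hc 0)]
          rw [abs_of_neg hx0] at hx
          nlinarith
        have h2 : K ≤ -(T0 - t + x / c 0) := by linarith [ht.1]
        exact h2.trans (neg_le_abs _)
    · rw [abs_of_nonneg hx0] at hx
      have hxN : X N + c N * (K + T0) ≤ x := by
        have := le_abs_self (X N)
        nlinarith
      have hr := hregN x (by linarith)
      rw [hr]
      have h1 : K + T0 ≤ (x - X N) / c N := by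
        rw [le_div_iff₀ (hc N)]
        linarith
      refine ⟨Or.inr rfl, ?_, ?_⟩
      · have h2 : K ≤ -(T0 - t - (x - X N) / c N) := by linarith [ht.1]
        exact h2.trans (neg_le_abs _)
      · have h2 : K ≤ T0 - t + (x - X N) / c N := by linarith [ht.2]
        exact h2.trans (le_abs_self _)
  -- the slices
  have hs1 : ∀ t ∈ Icc 0 T0, Continuous (fun x => W T0 (X (reg X N x)) (c (reg X N x)) (q (reg X N x))
      (q (reg X N x)) (f (reg X N x)) (g (reg X N x)) (t, x)) ∧ ∀ x : ℝ, (∀ i < N, x ≠ X (i + 1)) →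
      HasDerivAt (fun x => W T0 (X (reg X N x)) (c (reg X N x)) (q (reg X N x))
        (q (reg X N x)) (f (reg X N x)) (g (reg X N x)) (t, x))
        ((-(q (reg X N x) * deriv (f (reg X N x)) (T0 - t - (x - X (reg X N x)) / c (reg X N x))) +
          q (reg X N x) * deriv (g (reg X N x)) (T0 - t + (x - X (reg X N x)) / c (reg X N x))) /
            c (reg X N x)) x := by
    intro t ht
    exact glue_slice hX (N := N)
      (B := fun i x => W T0 (X i) (c i) (q i) (q i) (f i) (g i) (t, x))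
      (B' := fun i x => (-(q i * deriv (f i) (T0 - t - (x - X i) / c i)) +
          q i * deriv (g i) (T0 - t + (x - X i) / c i)) / c i)
      (fun i hi x => W_slice T0 (X i) (c i) (q i) (q i) t (hd i hi _).1 (hd i hi _).2)
      (fun i hi => by
        beta_reduce
        rw [hat, hat0]
        have h1 := (jumpJ h hP hρ hi (t := T0 - t) (by linarith [ht.1])).1
        rw [← hqdef] at h1
        linarith)
  have hs2 : ∀ t ∈ Icc 0 T0, Continuous (fun x => W T0 (X (reg X N x)) (c (reg X N x))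
      (-(1 / q (reg X N x))) (1 / q (reg X N x)) (f (reg X N x)) (g (reg X N x)) (t, x)) ∧
      ∀ x : ℝ, (∀ i < N, x ≠ X (i + 1)) →
      HasDerivAt (fun x => W T0 (X (reg X N x)) (c (reg X N x))
        (-(1 / q (reg X N x))) (1 / q (reg X N x)) (f (reg X N x)) (g (reg X N x)) (t, x))
        ((-(-(1 / q (reg X N x)) * deriv (f (reg X N x)) (T0 - t - (x - X (reg X N x)) / c (reg X N x))) +
          1 / q (reg X N x) * deriv (g (reg X N x)) (T0 - t + (x - X (reg X N x)) / c (reg X N x))) /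
            c (reg X N x)) x := by
    intro t ht
    exact glue_slice hX (N := N)
      (B := fun i x => W T0 (X i) (c i) (-(1 / q i)) (1 / q i) (f i) (g i) (t, x))
      (B' := fun i x => (-(-(1 / q i) * deriv (f i) (T0 - t - (x - X i) / c i)) +
          1 / q i * deriv (g i) (T0 - t + (x - X i) / c i)) / c i)
      (fun i hi x => W_slice T0 (X i) (c i) (-(1 / q i)) (1 / q i) t (hd i hi _).1 (hd i hi _).2)
      (fun i hi => by
        beta_reduce
        rw [hat, hat0]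
        have h1 := (jumpJ h hP hρ hi (t := T0 - t) (by linarith [ht.1])).2
        rw [← hqdef] at h1
        have h2 := hq i
        have h3 := hq (i + 1)
        calc -(1 / q i) * f i (T0 - t - tau δ i) + 1 / q i * g i (T0 - t + tau δ i)
            = -((f i (T0 - t - tau δ i) - g i (T0 - t + tau δ i)) / q i) := by
              field_simp
              ring
          _ = -((f (i + 1) (T0 - t) - g (i + 1) (T0 - t)) / q (i + 1)) := by rw [h1]
          _ = _ := by
              field_simp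
              ring)
  have hcount : {x : ℝ | ∃ i < N, x = X (i + 1)}.Countable := by
    have : {x : ℝ | ∃ i < N, x = X (i + 1)} = (fun i => X (i + 1)) '' {i | i < N} := by
      ext x
      constructor
      · rintro ⟨i, hi, rfl⟩
        exact ⟨i, hi, rfl⟩
      · rintro ⟨i, hi, rfl⟩
        exact ⟨i, hi, rfl⟩
    rw [this]
    exact (Set.to_countable _).image _
  have hzf : ∀ i ≤ N, ∀ u ≤ η, f i u = 0 := by
    intro i hi u hu
    have hcl : IsClosed {u | f i u = 0} :=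
      isClosed_eq (h.smooth i hi).1.continuous continuous_const
    have hsub : Iio η ⊆ {u | f i u = 0} := fun v hv => (h.zero i hi v hv).1
    have h1 := hcl.closure_subset_iff.mpr hsub
    rw [closure_Iio] at h1
    exact h1 hu
  refine ⟨R0, X N + c N * (T0 - s),
    fun z => W T0 (X (reg X N z.2)) (c (reg X N z.2)) (q (reg X N z.2)) (q (reg X N z.2))
      (f (reg X N z.2)) (g (reg X N z.2)) z,
    fun z => W T0 (X (reg X N z.2)) (c (reg X N z.2)) (-(1 / q (reg X N z.2))) (1 / q (reg X N z.2))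
      (f (reg X N z.2)) (g (reg X N z.2)) z,
    fun z => A1 (reg X N z.2) (max 0 (min z.1 T0), z.2),
    fun z => A2 (reg X N z.2) (max 0 (min z.1 T0), z.2), hR0pos, ?_⟩
  refine ⟨hg1.1, hg2.1, ?_, ?_, ?_, ?_, ?_, ?_⟩
  · -- supp
    intro t ht x hx
    obtain ⟨h1, h2, h3⟩ := hfar t ht x hx
    obtain ⟨a1, a2, a3, a4⟩ := hKz _ h1 _ h2
    obtain ⟨b1, b2, b3, b4⟩ := hKz _ h1 _ h3
    rw [hA1, hA2]
    simp only [hclamp t ht]
    unfold W
    simp only
    rw [a1, a2, b3, b4]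
    simp
  · -- cont
    intro t ht
    exact ⟨(hs1 t ht).1, (hs2 t ht).1⟩
  · -- deriv
    intro t ht
    refine ⟨_, hcount, fun x hx => ?_⟩
    have hx' : ∀ i < N, x ≠ X (i + 1) := fun i hi he => hx ⟨i, hi, he⟩
    have e1 := (hs1 t ht).2 x hx'
    have e2 := (hs2 t ht).2 x hx'
    have hqi := hq (reg X N x)
    have hci := hc (reg X N x)
    have hri := hqr (reg X N x)
    rw [hA1, hA2, hNreg]
    simp only [hclamp t ht]
    constructor
    · refine e1.congr_deriv ?_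
      unfold W
      simp only
      field_simp
      rw [hri]
      ring
    · refine e2.congr_deriv ?_
      unfold W
      simp only
      field_simp
  · -- eq
    have hae : ∀ᵐ z : ℝ × ℝ, z.2 ∉ {x : ℝ | ∃ i < N, x = X (i + 1)} := by
      have h1 : ∀ᵐ x : ℝ, x ∉ {x : ℝ | ∃ i < N, x = X (i + 1)} := hcount.ae_notMem volume
      exact Measure.quasiMeasurePreserving_snd.ae h1
    filter_upwards [hae] with z hz hzs
    have hz' : ∀ i < N, z.2 ≠ X (i + 1) := fun i hi he => hz ⟨i, hi, he⟩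
    obtain ⟨d1, d2⟩ := hg1.2 z hzs hz'
    obtain ⟨d3, d4⟩ := hg2.2 z hzs hz'
    rw [d1, d2, d3, d4, hA1, hA2, hNreg]
    beta_reduce
    have hrl := hregl z.2
    generalize reg X N z.2 = i at hrl ⊢
    have w1 := W_fd T0 (X i) (c i) (-(1 / q i)) (1 / q i) (z := z) (hdd i hrl _).1 (hdd i hrl _).2
    have w2 := W_fd T0 (X i) (c i) (1 / (c i * q i)) (1 / (c i * q i)) (z := z) (hdd i hrl _).1 (hdd i hrl _).2
    rw [w1.1, w1.2, w2.1, w2.2]
    have hqi := hq i
    have hci := hc i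
    have hrci := hrc i
    have hrp := rhoS_pos (N := N) hρ i
    constructor
    · rw [← hrci]
      field_simp
      ring
    · field_simp
      ring
  · -- bound
    intro t ht x
    have hs0 : 0 ≤ T0 - t := by linarith [ht.2]
    have hsη : T0 - t ≤ η := by linarith [ht.1]
    simp only
    have key : ∀ i, i = reg X N x → (i = 0 ∨ (1 ≤ i ∧ X i ≤ x ∧ (i < N → x < X (i + 1)))) ∧
        (i = 0 → x < 0) ∧ i ≤ N := by
      intro i hi
      refine ⟨?_, fun h0 => hreg0' x (by rw [← hi]; exact h0), by rw [hi]; exact hregl x⟩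
      rcases Nat.eq_zero_or_pos i with h0 | h0
      · exact Or.inl h0
      · refine Or.inr ⟨h0, by rw [hi]; exact hreg1 x (by rw [← hi]; exact h0), fun hlt => ?_⟩
        rw [hi]
        exact hreg2 x (by rw [← hi]; exact hlt)
    obtain ⟨k1, k2, k3⟩ := key _ rfl
    generalize reg X N x = i at k1 k2 k3 ⊢
    rcases k1 with h0 | ⟨h1, h2, h3⟩
    · subst h0
      have hx := k2 rfl
      have hb : g 0 (T0 - t + (x - X 0) / c 0) = 0 := by
        have h4 := (h.zero 0 (Nat.zero_le _) (T0 - t + (x - X 0) / c 0) (by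
          rw [hX0, sub_zero]
          have : x / c 0 < 0 := div_neg_of_neg_of_pos hx (hc 0)
          linarith)).2
        have h5 : tau δ 0 = 0 := rfl
        rw [h5, add_zero] at h4
        exact h4
      unfold W
      simp only
      rw [hb, mul_zero, add_zero, mul_zero, add_zero]
      have hbd := h.bound (T0 - t - (x - X 0) / c 0)
      rw [abs_mul, abs_mul, abs_neg, abs_of_pos (hq 0), abs_of_pos (one_div_pos.mpr (hq 0)), hq0]
      constructor
      · refine le_trans ?_ (le_max_left _ _)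
        exact mul_le_of_le_one_right hσ.le hbd
      · refine le_trans ?_ (le_max_right _ _)
        exact mul_le_of_le_one_right (by positivity) hbd
    · have ha : f i (T0 - t - (x - X i) / c i) = 0 := by
        apply hzf i k3
        have : 0 ≤ (x - X i) / c i := div_nonneg (by linarith) (hc i).le
        linarith
      have hb : g i (T0 - t + (x - X i) / c i) = 0 := by
        rcases k3.eq_or_lt with h4 | h4
        · rw [h4]
          exact h.last _
        · have h5 := h3 h4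
          have h6 : (x - X i) / c i < tau δ i := by
            rw [div_lt_iff₀ (hc i)]
            rw [hXs i] at h5
            linarith
          have h7 := (h.zero i k3 (T0 - t + (x - X i) / c i - tau δ i) (by linarith)).2
          rw [sub_add_cancel] at h7
          exact h7
      unfold W
      simp only
      simp only [ha, hb, mul_zero, add_zero, abs_zero]
      have hm : 0 ≤ max (√(√(P * ρA))) (1 / √(√(P * ρA))) := hσ.le.trans (le_max_left _ _)
      exact ⟨hm, hm⟩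
  · -- large
    have hTs : 0 ≤ c N * (T0 - s) := mul_nonneg (hc N).le (by linarith)
    have hr : reg X N (X N + c N * (T0 - s)) = N := hregN _ (by linarith)
    simp only [hr]
    unfold W
    simp only
    have h1 : T0 - 0 - (X N + c N * (T0 - s) - X N) / c N = s := by
      rw [add_sub_cancel_left, mul_div_assoc, mul_comm, div_mul_cancel₀ _ (hc N).ne']
      ring
    rw [h1, h.last, mul_zero, add_zero]
    exact mul_le_mul_of_nonneg_right hqN hf

end Helper51.TH
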