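import Pool.Agent.Helper51.TH.L2
import Pool.Agent.Helper73.EU.LipLaw

/-!
TH-N14. The weak formulation tested with the dual acoustic wave.

SETTING. `P = γ p`, `V = (ρ₀(x), 0, e₀(x))`, `e₀ = p/((γ-1) ρ₀)`; `U = (ρ, u, e)` a solution in the box attaining
`(ρ₀, ε 1_{x<x0}, e₀)`. Write `q = pr γ ρ e`, `E = ρ en u e`, so `(γ-1) E = q + (γ-1) ρ u²/2`. Let `φ₁, φ₂` be the dual wave,
`K₀` a common Lipschitz constant, supported in `|x| ≤ R0` for `0 ≤ t ≤ T0`, `M₀ = K₀ R0`-type bound of `|φ_j|` there.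
STEP 1. For a Lipschitz `χ : ℝ → ℝ` with compact support in `(0, T0)`: `φ₁ χ` and `φ₂ χ` are Lipschitz tests (on the
strip `T > T0`), so by `Law.lip` for momentum and (`γ - 1` times) energy
`0 = ∫∫ [ρ u dt(φ₁χ) + (ρ u² + q) dx(φ₁χ) + (γ-1) E dt(φ₂χ) + (γ-1)(E + q) u dx(φ₂χ)]`
`= ∫ χ'(t) J(t) dt + ∫ χ(t) D(t) dt`, `J(t) = ∫ (ρ u φ₁ + (γ-1) E φ₂)(t, x) dx`,
`D(t) = ∫ [ρ u dt φ₁ + (ρ u² + q) dx φ₁ + (q + (γ-1) ρ u²/2) dt φ₂ + (γ q u + (γ-1) ρ u³/2) dx φ₂] dx`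
(`(γ-1)(E + q) u = q u + (γ-1) ρ u³/2 + (γ-1) q u`). By `eq` (a.e.): `q dx φ₁ + q dt φ₂ = 0` and
`ρ u dt φ₁ + γ q u dx φ₂ = u (ρ - ρ₀) dt φ₁ + γ u (q - p) dx φ₂` (`ρ₀ dt φ₁ + γ p dx φ₂ = 0`), so
`|D(t)| ≤ C ∫_{|x|<R0} (|u||ρ - ρ₀| + |u||q - p| + u²) ≤ C ‖u‖ (‖ρ - ρ₀‖ + ‖q - p‖ + ‖u‖)` (norms of `L²(-R0, R0)`, Cauchy-Schwarz,
`|u| ≤ b`).
STEP 2. `l2_bound`: `‖u(t)‖, ‖q(t) - p‖ ≤ C ε` for a.e. `t`. `Helper73.EU.main` (the base is `contact_isBase` with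
`v = 0`): for every `κ' > 0` there is `ε₀` such that for `ε ≤ ε₀` and a.e. `t ∈ (0, T0)`, `∫_{|x|<R0} |ρ(t) - ρ₀| < κ'`, so
`‖ρ - ρ₀‖² ≤ 2 b κ'`. (The distance of the data is `∫_{|x|<R'} ε ≤ 2 R' ε`.) So `|D(t)| ≤ κ₁ ε` for a.e. `t`, with `κ₁` as small
as we like if `ε ≤ ε₀(κ₁)`.
STEP 3. From STEP 1, `|∫ χ' J| ≤ κ₁ ε ∫ |χ|`; with trapezoids (as in `gron`, Gron.lean; apply `gron` to
`Z t = ± J t + κ₁ ε t`, clamped outside `(0, T0)`) this gives `|J(t) - J(s)| ≤ κ₁ ε T0` for a.e. `s < t`. `s → 0`: by `Attains` and the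
Lipschitz continuity of `φ_j`, `J(s) → J(0) = ∫ (ρ₀ u₀ φ₁ + (γ-1) ρ₀ en u₀ e₀ φ₂)(0, x) dx`, where `(γ-1) ρ₀ en u₀ e₀
= p + (γ-1) ρ₀ u₀²/2`, `∫ p φ₂(0, x) dx = p (Ψ₂(0, ∞) - Ψ₂(0, -∞)) = 0`,
`∫ ρ₀ u₀ φ₁(0, x) dx = ε ∫_{x<x0} ∂x Ψ₁(0, x) dx = ε Ψ₁(0, x0)` (`integral_eq_of_hasDerivAt_off_countable`), and the
remaining term is `O(ε²)`.
STEP 4. For a.e. `t`: `J(t) = ∫ (ρ₀ u φ₁ + (q - p) φ₂) + ∫ ((ρ - ρ₀) u φ₁ + (γ-1) ρ u²/2 φ₂)` (`∫ p φ₂(t, ·) = 0` again), the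
last integral is `≤ C ‖ρ - ρ₀‖ ‖u‖ + C ‖u‖² ≤ κ₁ ε`. Collect.
-/

open MeasureTheory Set Filter Topology
open scoped ENNReal NNReal

namespace Helper51.TH

open Helper73.EU

private theorem di_bdd {T0 R0 : ℝ} (hR0 : 0 < R0) {φ : ℝ × ℝ → ℝ} {C : ℝ≥0}
    (hφ : LipschitzWith C φ) (hs : ∀ t ∈ Icc 0 T0, ∀ x : ℝ, R0 ≤ |x| → φ (t, x) = 0)
    {z : ℝ × ℝ} (hz : z.1 ∈ Icc 0 T0) : |φ z| ≤ C * (2 * R0) := by
  by_cases hx : R0 ≤ |z.2|
  · rw [show z = (z.1, z.2) from rfl, hs z.1 hz z.2 hx, abs_zero]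
    positivity
  · push Not at hx
    have h1 : φ (z.1, R0) = 0 := hs z.1 hz R0 (le_abs_self R0)
    have h2 := hφ.dist_le_mul z (z.1, R0)
    rw [h1, Real.dist_eq, sub_zero] at h2
    refine h2.trans (mul_le_mul_of_nonneg_left ?_ C.2)
    rw [Prod.dist_eq]
    refine max_le ?_ ?_
    · rw [dist_self]; linarith
    · rw [Real.dist_eq]
      have := abs_lt.1 hx
      rw [abs_le]
      constructor <;> linarith [this.1, this.2]

private theorem di_test {T T0 R0 : ℝ} (hT : T0 < T) (hR0 : 0 < R0) {φ : ℝ × ℝ → ℝ} {C : ℝ≥0}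
    (hφ : LipschitzWith C φ) (hsp : ∀ t ∈ Icc 0 T0, ∀ x : ℝ, R0 ≤ |x| → φ (t, x) = 0)
    {θ : ℝ → ℝ} {K : ℝ≥0} (hθ : LipschitzWith K θ) {s t : ℝ} (hs : 0 < s) (ht : t < T0)
    (h0 : ∀ x, x ∉ Icc s t → θ x = 0) :
    IsLipTest T (fun z => φ z * θ z.1) ∧
      tsupport (fun z : ℝ × ℝ => φ z * θ z.1) ⊆ Icc s t ×ˢ Icc (-R0) R0 := by
  obtain ⟨M, hM⟩ : ∃ M : ℝ, ∀ x, |θ x| ≤ M := by
    obtain ⟨M, hM⟩ := (isCompact_Icc (a := s) (b := t)).exists_bound_of_continuousOn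
      hθ.continuous.continuousOn
    refine ⟨max M 0, fun x => ?_⟩
    by_cases hx : x ∈ Icc s t
    · exact (hM x hx).trans (le_max_left _ _)
    · rw [h0 x hx, abs_zero]; exact le_max_right _ _
  have hM0 : 0 ≤ M := (abs_nonneg _).trans (hM 0)
  have hsup : ∀ z : ℝ × ℝ, z ∉ Icc s t ×ˢ Icc (-R0) R0 → φ z * θ z.1 = 0 := by
    intro z hz
    by_cases h1 : z.1 ∈ Icc s t
    · have h2 : z.2 ∉ Icc (-R0) R0 := fun h2 => hz ⟨h1, h2⟩
      have h3 : R0 ≤ |z.2| := by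
        by_contra hcon
        push Not at hcon
        exact h2 ⟨(abs_lt.1 hcon).1.le, (abs_lt.1 hcon).2.le⟩
      rw [show φ z = 0 from hsp z.1 ⟨hs.le.trans h1.1, h1.2.trans ht.le⟩ z.2 h3, zero_mul]
    · rw [h0 _ h1, mul_zero]
  have hcl : IsClosed (Icc s t ×ˢ Icc (-R0) R0) := isClosed_Icc.prod isClosed_Icc
  have hsub : tsupport (fun z : ℝ × ℝ => φ z * θ z.1) ⊆ Icc s t ×ˢ Icc (-R0) R0 := by
    apply closure_minimal _ hcl
    intro z hz
    by_contra hcon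
    exact hz (hsup z hcon)
  have key : ∀ z z' : ℝ × ℝ, z.1 ∈ Icc s t →
      |φ z * θ z.1 - φ z' * θ z'.1| ≤ (C * (2 * R0) * K + C * M) * dist z z' := by
    intro z z' hz
    have e : φ z * θ z.1 - φ z' * θ z'.1 =
        φ z * (θ z.1 - θ z'.1) + (φ z - φ z') * θ z'.1 := by ring
    have h1 : |θ z.1 - θ z'.1| ≤ K * dist z z' := by
      have h2 := hθ.dist_le_mul z.1 z'.1
      rw [Real.dist_eq] at h2
      exact h2.trans (mul_le_mul_of_nonneg_left (le_max_left _ _) K.2)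
    have h2 : |φ z - φ z'| ≤ C * dist z z' := by
      have := hφ.dist_le_mul z z'; rwa [Real.dist_eq] at this
    have h3 := di_bdd hR0 hφ hsp (z := z) ⟨hs.le.trans hz.1, hz.2.trans ht.le⟩
    rw [e]
    refine (abs_add_le _ _).trans ?_
    rw [abs_mul, abs_mul]
    have h4 : |φ z| * |θ z.1 - θ z'.1| ≤ (C * (2 * R0)) * (K * dist z z') :=
      mul_le_mul h3 h1 (abs_nonneg _) (by positivity)
    have h5 : |φ z - φ z'| * |θ z'.1| ≤ (C * dist z z') * M :=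
      mul_le_mul h2 (hM _) (abs_nonneg _) (by positivity)
    linarith
  refine ⟨⟨⟨⟨C * (2 * R0) * K + C * M, by positivity⟩,
    LipschitzWith.of_dist_le_mul fun z z' => ?_⟩, ?_, ?_⟩, hsub⟩
  · rw [Real.dist_eq]
    show |φ z * θ z.1 - φ z' * θ z'.1| ≤ (C * (2 * R0) * K + C * M) * dist z z'
    by_cases hz : z.1 ∈ Icc s t
    · exact key z z' hz
    · by_cases hz' : z'.1 ∈ Icc s t
      · rw [abs_sub_comm, dist_comm]
        exact key z' z hz'
      · rw [h0 _ hz, h0 _ hz']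
        simp
        positivity
  · exact (isCompact_Icc.prod isCompact_Icc).of_isClosed_subset (isClosed_tsupport _) hsub
  · intro z hz
    have h1 := hsub hz
    exact ⟨lt_of_lt_of_le hs h1.1.1, lt_of_le_of_lt h1.1.2 (ht.trans hT)⟩

/-- Product rules for `φ θ`. -/
private theorem di_prod {φ : ℝ × ℝ → ℝ} {C : ℝ≥0} (hφ : LipschitzWith C φ) {θ : ℝ → ℝ} {K : ℝ≥0}
    (hθ : LipschitzWith K θ) :
    ∀ᵐ z : ℝ × ℝ, dt (fun z : ℝ × ℝ => φ z * θ z.1) z = dt φ z * θ z.1 + φ z * deriv θ z.1 ∧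
      dx (fun z : ℝ × ℝ => φ z * θ z.1) z = dx φ z * θ z.1 := by
  have hθd : ∀ᵐ z : ℝ × ℝ, DifferentiableAt ℝ θ z.1 := by
    have h1 := hθ.ae_differentiableAt (μ := (volume : Measure ℝ))
    exact (Measure.quasiMeasurePreserving_fst
      (μ := (volume : Measure ℝ)) (ν := (volume : Measure ℝ))).ae h1
  filter_upwards [hθd, hφ.ae_differentiableAt (μ := (volume : Measure (ℝ × ℝ)))] with z d1 d2
  have hf1 : HasFDerivAt (fun z : ℝ × ℝ => θ z.1)
      (deriv θ z.1 • (ContinuousLinearMap.fst ℝ ℝ ℝ)) z :=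
    d1.hasDerivAt.comp_hasFDerivAt z hasFDerivAt_fst
  have k1 : dt (fun z : ℝ × ℝ => θ z.1) z = deriv θ z.1 := by
    unfold dt
    rw [hf1.fderiv]
    simp
  have k2 : dx (fun z : ℝ × ℝ => θ z.1) z = 0 := by
    unfold dx
    rw [hf1.fderiv]
    simp
  rw [dt_mul d2 hf1.differentiableAt, dx_mul d2 hf1.differentiableAt, k1, k2]
  exact ⟨rfl, by ring⟩

/-- Lipschitz functions with compact support: partial integration with `t`. -/
private theorem di_parts {θ : ℝ → ℝ} {K : ℝ≥0} (hθ : LipschitzWith K θ) (hc : HasCompactSupport θ) :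
    ∫ t, deriv θ t * t = -∫ t, θ t := by
  have h1 := LipschitzWith.integral_lineDeriv_mul_eq (μ := (volume : Measure ℝ))
    (f := fun x : ℝ => x) (g := θ) (C := 1) LipschitzWith.id hθ hc 1
  have h3 : ∀ x : ℝ, lineDeriv ℝ (fun x : ℝ => x) x 1 = 1 := fun x => by
    simp [lineDeriv]
  have h2 : ∫ x : ℝ, lineDeriv ℝ θ x (-1) * x = ∫ x, θ x := by
    rw [← h1]
    simp [h3]
  rw [← h2, ← integral_neg]
  apply integral_congr_ae
  filter_upwards [hθ.ae_differentiableAt (μ := (volume : Measure ℝ))] with z hz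
  rw [hz.lineDeriv_eq_fderiv, map_neg, fderiv_apply_one_eq_deriv]
  ring

private theorem di_gron1 {T0 B κ₁ : ℝ} {J : ℝ → ℝ} (hJ : Measurable J)
    (hB : ∀ᵐ t : ℝ, t ∈ Ioo 0 T0 → |J t| ≤ B)
    (h : ∀ θ : ℝ → ℝ, (∃ K : ℝ≥0, LipschitzWith K θ) → (∀ t, 0 ≤ θ t) →
      (∃ s t : ℝ, 0 < s ∧ t < T0 ∧ ∀ x, x ∉ Icc s t → θ x = 0) →
      -(κ₁ * ∫ t, θ t) ≤ ∫ t in Ioo 0 T0, deriv θ t * J t) :
    ∀ᵐ t : ℝ, t ∈ Ioo 0 T0 → ∀ᵐ s : ℝ, s ∈ Ioo 0 t → J t - J s ≤ κ₁ * (t - s) := by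
  set Jc : ℝ → ℝ := fun t => max (-|B|) (min (J t) |B|) with hJc
  have hJcm : Measurable Jc := measurable_const.max (hJ.min measurable_const)
  have hJcB : ∀ t, |Jc t| ≤ |B| := fun t =>
    abs_le.2 ⟨le_max_left _ _, max_le (by linarith [abs_nonneg B]) (min_le_right _ _)⟩
  have hJcJ : ∀ᵐ t : ℝ, t ∈ Ioo 0 T0 → Jc t = J t := by
    filter_upwards [hB] with t ht htT
    have h1 := (ht htT).trans (le_abs_self B)
    simp only [hJc]
    rw [min_eq_left (abs_le.1 h1).2, max_eq_right (abs_le.1 h1).1]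
  set Z : ℝ → ℝ := fun t => (Ioo 0 T0).indicator (fun t => Jc t - κ₁ * t) t with hZ
  have hZm : Measurable Z :=
    (hJcm.sub (measurable_const.mul measurable_id)).indicator measurableSet_Ioo
  have hZB : ∀ t, |Z t| ≤ |B| + |κ₁| * |T0| := by
    intro t
    by_cases ht : t ∈ Ioo 0 T0
    · simp only [hZ, indicator_of_mem ht]
      refine (abs_sub _ _).trans (add_le_add (hJcB t) ?_)
      rw [abs_mul]
      refine mul_le_mul_of_nonneg_left ?_ (abs_nonneg _)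
      rw [abs_of_pos ht.1]
      exact ht.2.le.trans (le_abs_self _)
    · simp only [hZ, indicator_of_notMem ht, abs_zero]
      positivity
  have hmain := gron (T := T0) hZm hZB ?_
  · filter_upwards [hmain, hJcJ] with t ht h1 htT
    filter_upwards [ht htT, hJcJ] with s hs h3 hst
    have hsT : s ∈ Ioo 0 T0 := ⟨hst.1, hst.2.trans htT.2⟩
    have h4 := hs hst
    simp only [hZ, indicator_of_mem htT, indicator_of_mem hsT] at h4
    rw [h1 htT, h3 hsT] at h4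
    linarith
  · intro θ hθL hθ0 hθs
    obtain ⟨K, hK⟩ := hθL
    have hc : HasCompactSupport θ := by
      obtain ⟨s, t, _, _, h0⟩ := hθs
      refine HasCompactSupport.intro (isCompact_Icc (a := s) (b := t)) fun x hx => h0 x hx
    have h1 := h θ ⟨K, hK⟩ hθ0 hθs
    obtain ⟨s, t, hs, ht, h0⟩ := hθs
    have hd0 : ∀ x, x ∉ Icc s t → deriv θ x = 0 := by
      intro x hx
      have : θ =ᶠ[𝓝 x] fun _ => 0 := by
        filter_upwards [isClosed_Icc.isOpen_compl.mem_nhds hx] with y hy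
        exact h0 y hy
      rw [this.deriv_eq, deriv_const]
    have hdK : ∀ x, |deriv θ x| ≤ K := fun x => by
      have := norm_deriv_le_of_lipschitz hK (x₀ := x)
      rwa [Real.norm_eq_abs] at this
    have hdm : Measurable (deriv θ) := measurable_deriv θ
    have e1 : ∫ x, deriv θ x * Z x = ∫ x in Ioo 0 T0, (deriv θ x * Jc x - κ₁ * (deriv θ x * x)) := by
      rw [← integral_indicator measurableSet_Ioo]
      apply integral_congr_ae
      refine Eventually.of_forall fun x => ?_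
      by_cases hx : x ∈ Ioo 0 T0
      · simp only [hZ, indicator_of_mem hx]
        ring
      · simp only [hZ, indicator_of_notMem hx, mul_zero]
    have i1 : IntegrableOn (fun x => deriv θ x * Jc x) (Ioo 0 T0) := by
      apply Measure.integrableOn_of_bounded (M := K * |B|) (by simp)
        (hdm.mul hJcm).aestronglyMeasurable
      refine Eventually.of_forall fun x => ?_
      rw [Real.norm_eq_abs, Pi.mul_apply, abs_mul]
      exact mul_le_mul (hdK x) (hJcB x) (abs_nonneg _) K.2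
    have i2 : IntegrableOn (fun x => κ₁ * (deriv θ x * x)) (Ioo 0 T0) := by
      apply Measure.integrableOn_of_bounded (M := |κ₁| * (K * |T0|)) (by simp)
        (measurable_const.mul (hdm.mul measurable_id)).aestronglyMeasurable
      rw [ae_restrict_iff' measurableSet_Ioo]
      refine Eventually.of_forall fun x hx => ?_
      rw [Real.norm_eq_abs, Pi.mul_apply, Pi.mul_apply, abs_mul, abs_mul]
      refine mul_le_mul_of_nonneg_left (mul_le_mul (hdK x) ?_ (abs_nonneg _) K.2) (abs_nonneg _)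
      show |x| ≤ |T0|
      rw [abs_of_pos hx.1]
      exact hx.2.le.trans (le_abs_self _)
    have e2 : ∫ x in Ioo 0 T0, deriv θ x * Jc x = ∫ x in Ioo 0 T0, deriv θ x * J x := by
      apply setIntegral_congr_ae measurableSet_Ioo
      filter_upwards [hJcJ] with x hx hxT
      rw [hx hxT]
    have e3 : ∫ x in Ioo 0 T0, deriv θ x * x = -∫ x, θ x := by
      rw [← di_parts hK hc]
      apply setIntegral_eq_integral_of_forall_compl_eq_zero
      intro x hx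
      rw [hd0 x (fun hx' => hx ⟨hs.trans_le hx'.1, hx'.2.trans_lt ht⟩), zero_mul]
    rw [e1, integral_sub i1 i2, integral_const_mul, e2, e3]
    linarith

private theorem di_gron {T0 B κ₁ : ℝ} {J : ℝ → ℝ} (hJ : Measurable J)
    (hB : ∀ᵐ t : ℝ, t ∈ Ioo 0 T0 → |J t| ≤ B)
    (h : ∀ θ : ℝ → ℝ, (∃ K : ℝ≥0, LipschitzWith K θ) → (∀ t, 0 ≤ θ t) →
      (∃ s t : ℝ, 0 < s ∧ t < T0 ∧ ∀ x, x ∉ Icc s t → θ x = 0) →
      |∫ t in Ioo 0 T0, deriv θ t * J t| ≤ κ₁ * ∫ t, θ t) :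
    ∀ᵐ t : ℝ, t ∈ Ioo 0 T0 → ∀ᵐ s : ℝ, s ∈ Ioo 0 t → |J t - J s| ≤ κ₁ * (t - s) := by
  have h1 := di_gron1 hJ hB (κ₁ := κ₁) fun θ a1 a2 a3 => (abs_le.1 (h θ a1 a2 a3)).1
  have h2 := di_gron1 (J := fun t => -J t) hJ.neg (B := B) (κ₁ := κ₁) (T0 := T0)
    (by filter_upwards [hB] with t ht htT; rw [abs_neg]; exact ht htT) (by
      intro θ a1 a2 a3
      have h3 := (abs_le.1 (h θ a1 a2 a3)).2
      have h4 : ∫ t in Ioo 0 T0, deriv θ t * -J t = -∫ t in Ioo 0 T0, deriv θ t * J t := by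
        rw [← integral_neg]
        apply integral_congr_ae
        exact Eventually.of_forall fun x => by ring
      rw [h4]
      linarith)
  filter_upwards [h1, h2] with t h1 h2 ht
  filter_upwards [h1 ht, h2 ht] with s h1 h2 hs
  rw [abs_le]
  constructor
  · linarith [h2 hs]
  · exact h1 hs

private theorem di_weak {T T0 R0 M Kg κ₁ : ℝ} (hT : T0 < T) (hR0 : 0 < R0)
    {A1 B1 A2 B2 g φ₁ φ₂ : ℝ × ℝ → ℝ} (l1 : Law T A1 B1) (l2 : Law T A2 B2)
    (mA1 : Measurable A1) (mB1 : Measurable B1) (mA2 : Measurable A2) (mB2 : Measurable B2)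
    (bb : ∀ᵐ z : ℝ × ℝ, z ∈ Strip T → |A1 z| ≤ M ∧ |B1 z| ≤ M ∧ |A2 z| ≤ M ∧ |B2 z| ≤ M)
    {C : ℝ≥0} (hφ₁ : LipschitzWith C φ₁) (hφ₂ : LipschitzWith C φ₂)
    (hs₁ : ∀ t ∈ Icc 0 T0, ∀ x : ℝ, R0 ≤ |x| → φ₁ (t, x) = 0)
    (hs₂ : ∀ t ∈ Icc 0 T0, ∀ x : ℝ, R0 ≤ |x| → φ₂ (t, x) = 0)
    (mg : Measurable g) (bg : ∀ᵐ z : ℝ × ℝ, z ∈ Strip T → |g z| ≤ Kg)
    (hg : ∀ᵐ z : ℝ × ℝ, z ∈ Strip T0 →
      |(A1 z * dt φ₁ z + B1 z * dx φ₁ z) + (A2 z * dt φ₂ z + B2 z * dx φ₂ z)| ≤ g z)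
    (hgi : ∀ᵐ t : ℝ, t ∈ Ioo 0 T0 → ∫ x in Ioo (-R0) R0, g (t, x) ≤ κ₁)
    {θ : ℝ → ℝ} {K : ℝ≥0} (hθ : LipschitzWith K θ) (h0 : ∀ t, 0 ≤ θ t) {s t : ℝ} (hs : 0 < s)
    (ht : t < T0) (hst : ∀ x, x ∉ Icc s t → θ x = 0) :
    |∫ τ in Ioo 0 T0, deriv θ τ * ∫ x in Ioo (-R0) R0,
      (A1 (τ, x) * φ₁ (τ, x) + A2 (τ, x) * φ₂ (τ, x))| ≤ κ₁ * ∫ τ, θ τ := by
  obtain ⟨t1, s1⟩ := di_test hT hR0 hφ₁ hs₁ hθ hs ht hst
  obtain ⟨t2, s2⟩ := di_test hT hR0 hφ₂ hs₂ hθ hs ht hst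
  have bA1 : ∀ᵐ z : ℝ × ℝ, z ∈ Strip T → |A1 z| ≤ M := by
    filter_upwards [bb] with z hz h; exact (hz h).1
  have bB1 : ∀ᵐ z : ℝ × ℝ, z ∈ Strip T → |B1 z| ≤ M := by
    filter_upwards [bb] with z hz h; exact (hz h).2.1
  have bA2 : ∀ᵐ z : ℝ × ℝ, z ∈ Strip T → |A2 z| ≤ M := by
    filter_upwards [bb] with z hz h; exact (hz h).2.2.1
  have bB2 : ∀ᵐ z : ℝ × ℝ, z ∈ Strip T → |B2 z| ≤ M := by
    filter_upwards [bb] with z hz h; exact (hz h).2.2.2
  have e1 := Law.lip l1 mA1 mB1 bA1 bB1 t1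
  have e2 := Law.lip l2 mA2 mB2 bA2 bB2 t2
  set f1 : ℝ × ℝ → ℝ := fun z => φ₁ z * θ z.1 with hf1
  set f2 : ℝ × ℝ → ℝ := fun z => φ₂ z * θ z.1 with hf2
  set F : ℝ × ℝ → ℝ := fun z => (A1 z * dt f1 z + B1 z * dx f1 z) +
    (A2 z * dt f2 z + B2 z * dx f2 z) with hF
  have e3 : ∫ z in Strip T, F z = 0 := by
    have i1 : IntegrableOn (fun z => A1 z * dt f1 z + B1 z * dx f1 z) (Strip T) :=
      (t1.integrableOn_dt mA1 bA1).add (t1.integrableOn_dx mB1 bB1)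
    have i2 : IntegrableOn (fun z => A2 z * dt f2 z + B2 z * dx f2 z) (Strip T) :=
      (t2.integrableOn_dt mA2 bA2).add (t2.integrableOn_dx mB2 bB2)
    simp only [hF]
    rw [integral_add i1 i2, e1, e2, add_zero]
  set Qs : Set (ℝ × ℝ) := Ioo 0 T0 ×ˢ Ioo (-R0) R0 with hQs
  have hQm : MeasurableSet Qs := measurableSet_Ioo.prod measurableSet_Ioo
  have hQT0 : Qs ⊆ Strip T0 := fun z hz => ⟨hz.1.1, hz.1.2⟩
  have hQT : Qs ⊆ Strip T := fun z hz => ⟨hz.1.1, hz.1.2.trans hT⟩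
  have hQfin : (volume : Measure (ℝ × ℝ)) Qs ≠ ⊤ := by
    rw [hQs, Measure.volume_eq_prod, Measure.prod_prod]
    simp [ENNReal.mul_eq_top]
  have e4 : ∫ z in Qs, F z = 0 := by
    rw [← e3]
    symm
    apply setIntegral_eq_of_subset_of_ae_sdiff_eq_zero (measurableSet_strip T).nullMeasurableSet hQT
    have hne : ∀ᵐ x : ℝ, x ≠ R0 ∧ x ≠ -R0 := by
      filter_upwards [Measure.ae_ne volume R0, Measure.ae_ne volume (-R0)] with x h1 h2
      exact ⟨h1, h2⟩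
    have hne2 : ∀ᵐ z : ℝ × ℝ, z.2 ≠ R0 ∧ z.2 ≠ -R0 :=
      (Measure.quasiMeasurePreserving_snd
        (μ := (volume : Measure ℝ)) (ν := (volume : Measure ℝ))).ae hne
    filter_upwards [hne2] with z hz hzd
    have hz1 : z ∉ Icc s t ×ˢ Icc (-R0) R0 := by
      intro h1
      apply hzd.2
      exact ⟨⟨hs.trans_le h1.1.1, h1.1.2.trans_lt ht⟩,
        ⟨lt_of_le_of_ne h1.2.1 (Ne.symm hz.2), lt_of_le_of_ne h1.2.2 hz.1⟩⟩
    simp only [hF]
    rw [dt_eq_zero_of_notMem fun h => hz1 (s1 h), dx_eq_zero_of_notMem fun h => hz1 (s1 h),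
      dt_eq_zero_of_notMem fun h => hz1 (s2 h), dx_eq_zero_of_notMem fun h => hz1 (s2 h)]
    ring
  set D : ℝ × ℝ → ℝ := fun z => (A1 z * dt φ₁ z + B1 z * dx φ₁ z) +
    (A2 z * dt φ₂ z + B2 z * dx φ₂ z) with hD
  set N : ℝ × ℝ → ℝ := fun z => A1 z * φ₁ z + A2 z * φ₂ z with hN
  have hDm : Measurable D :=
    ((mA1.mul (measurable_dt φ₁)).add (mB1.mul (measurable_dx φ₁))).add
      ((mA2.mul (measurable_dt φ₂)).add (mB2.mul (measurable_dx φ₂)))
  have hNm : Measurable N :=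
    (mA1.mul hφ₁.continuous.measurable).add (mA2.mul hφ₂.continuous.measurable)
  have hθm : Measurable (fun z : ℝ × ℝ => θ z.1) := hθ.continuous.measurable.comp measurable_fst
  have hdm : Measurable (fun z : ℝ × ℝ => deriv θ z.1) := (measurable_deriv θ).comp measurable_fst
  have hdK : ∀ x, |deriv θ x| ≤ K := fun x => by
    have := norm_deriv_le_of_lipschitz hθ (x₀ := x)
    rwa [Real.norm_eq_abs] at this
  obtain ⟨M', hM'⟩ : ∃ M : ℝ, ∀ x, |θ x| ≤ M := by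
    obtain ⟨M, hM⟩ := (isCompact_Icc (a := s) (b := t)).exists_bound_of_continuousOn
      hθ.continuous.continuousOn
    refine ⟨max M 0, fun x => ?_⟩
    by_cases hx : x ∈ Icc s t
    · exact (hM x hx).trans (le_max_left _ _)
    · rw [hst x hx, abs_zero]; exact le_max_right _ _
  have hFe : ∀ᵐ z : ℝ × ℝ, F z = θ z.1 * D z + deriv θ z.1 * N z := by
    filter_upwards [di_prod hφ₁ hθ, di_prod hφ₂ hθ] with z h1 h2
    simp only [hF, hD, hN, hf1, hf2]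
    rw [h1.1, h1.2, h2.1, h2.2]
    ring
  have i1 : IntegrableOn (fun z => θ z.1 * D z) Qs := by
    apply Measure.integrableOn_of_bounded (M := M' * |Kg|) hQfin (hθm.mul hDm).aestronglyMeasurable
    rw [ae_restrict_iff' hQm]
    filter_upwards [hg, bg] with z h1 h2 hz
    rw [Real.norm_eq_abs, Pi.mul_apply, abs_mul]
    refine mul_le_mul (hM' _) ?_ (abs_nonneg _) ((abs_nonneg _).trans (hM' 0))
    exact (h1 (hQT0 hz)).trans ((le_abs_self _).trans ((h2 (hQT hz)).trans (le_abs_self _)))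
  have i2 : IntegrableOn (fun z => deriv θ z.1 * N z) Qs := by
    apply Measure.integrableOn_of_bounded (M := K * (M * (C * (2 * R0)) + M * (C * (2 * R0)))) hQfin
      (hdm.mul hNm).aestronglyMeasurable
    rw [ae_restrict_iff' hQm]
    filter_upwards [bA1, bA2] with z h1 h2 hz
    rw [Real.norm_eq_abs, Pi.mul_apply, abs_mul]
    refine mul_le_mul (hdK _) ?_ (abs_nonneg _) K.2
    refine (abs_add_le _ _).trans ?_
    rw [abs_mul, abs_mul]
    have hzI : z.1 ∈ Icc 0 T0 := ⟨hz.1.1.le, hz.1.2.le⟩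
    have g1 := h1 (hQT hz)
    have g2 := h2 (hQT hz)
    have hM0 : 0 ≤ M := (abs_nonneg _).trans g1
    exact add_le_add (mul_le_mul g1 (di_bdd hR0 hφ₁ hs₁ hzI) (abs_nonneg _) hM0)
      (mul_le_mul g2 (di_bdd hR0 hφ₂ hs₂ hzI) (abs_nonneg _) hM0)
  have i3 : IntegrableOn (fun z => θ z.1 * g z) Qs := by
    apply Measure.integrableOn_of_bounded (M := M' * |Kg|) hQfin (hθm.mul mg).aestronglyMeasurable
    rw [ae_restrict_iff' hQm]
    filter_upwards [bg] with z h2 hz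
    rw [Real.norm_eq_abs, Pi.mul_apply, abs_mul]
    exact mul_le_mul (hM' _) ((h2 (hQT hz)).trans (le_abs_self _)) (abs_nonneg _)
      ((abs_nonneg _).trans (hM' 0))
  have e5 : (∫ z in Qs, θ z.1 * D z) + ∫ z in Qs, deriv θ z.1 * N z = 0 := by
    rw [← integral_add i1 i2, ← e4]
    apply integral_congr_ae
    exact ae_restrict_of_ae (hFe.mono fun z hz => hz.symm)
  have e6 : ∫ z in Qs, deriv θ z.1 * N z =
      ∫ τ in Ioo 0 T0, deriv θ τ * ∫ x in Ioo (-R0) R0, N (τ, x) := by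
    rw [hQs, Measure.volume_eq_prod, setIntegral_prod _ (by rwa [← Measure.volume_eq_prod])]
    apply integral_congr_ae
    refine Eventually.of_forall fun τ => ?_
    simp only
    rw [integral_const_mul]
  have e7 : ∫ z in Qs, θ z.1 * g z = ∫ τ in Ioo 0 T0, θ τ * ∫ x in Ioo (-R0) R0, g (τ, x) := by
    rw [hQs, Measure.volume_eq_prod, setIntegral_prod _ (by rwa [← Measure.volume_eq_prod])]
    apply integral_congr_ae
    refine Eventually.of_forall fun τ => ?_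
    simp only
    rw [integral_const_mul]
  have e8 : |∫ z in Qs, θ z.1 * D z| ≤ ∫ z in Qs, θ z.1 * g z := by
    refine (abs_integral_le_integral_abs).trans ?_
    apply integral_mono_ae i1.abs i3
    rw [EventuallyLE, ae_restrict_iff' hQm]
    filter_upwards [hg] with z h1 hz
    rw [abs_mul, abs_of_nonneg (h0 z.1)]
    exact mul_le_mul_of_nonneg_left (h1 (hQT0 hz)) (h0 _)
  have hθi : IntegrableOn θ (Ioo 0 T0) := by
    apply Measure.integrableOn_of_bounded (M := M') (by simp)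
      hθ.continuous.measurable.aestronglyMeasurable
    exact Eventually.of_forall fun x => hM' x
  have e9 : ∫ τ in Ioo 0 T0, θ τ * ∫ x in Ioo (-R0) R0, g (τ, x) ≤ κ₁ * ∫ τ, θ τ := by
    have h1 : ∫ τ, θ τ = ∫ τ in Ioo 0 T0, θ τ := by
      symm
      apply setIntegral_eq_integral_of_forall_compl_eq_zero
      intro x hx
      exact hst x (fun hx' => hx ⟨hs.trans_le hx'.1, hx'.2.trans_lt ht⟩)
    rw [h1, ← integral_const_mul]
    apply integral_mono_ae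
    · have := i3
      rw [hQs, Measure.volume_eq_prod, IntegrableOn, ← Measure.prod_restrict] at this
      have h2 := this.integral_prod_left
      refine h2.congr (Eventually.of_forall fun τ => ?_)
      simp only
      rw [integral_const_mul]
    · exact hθi.const_mul κ₁
    · rw [EventuallyLE, ae_restrict_iff' measurableSet_Ioo]
      filter_upwards [hgi] with τ h2 hτ
      rw [mul_comm κ₁]
      exact mul_le_mul_of_nonneg_left (h2 hτ) (h0 _)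
  have e10 : ∫ τ in Ioo 0 T0, deriv θ τ * ∫ x in Ioo (-R0) R0, N (τ, x) =
      -∫ z in Qs, θ z.1 * D z := by
    rw [← e6]; linarith
  have e11 : |∫ τ in Ioo 0 T0, deriv θ τ * ∫ x in Ioo (-R0) R0, N (τ, x)| ≤ κ₁ * ∫ τ, θ τ := by
    rw [e10, abs_neg]
    exact e8.trans (e7.le.trans e9)
  exact e11

private theorem di_alg {γ a b p ρ u e r C d1 x1 d2 x2 : ℝ} (hγ : 1 < γ) (ha : 0 < a)
    (hb : Box a b ρ u e) (h1 : r * d1 + γ * p * x2 = 0) (h2 : d2 + x1 = 0)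
    (k1 : |d1| ≤ C) (k2 : |x1| ≤ C) (k3 : |d2| ≤ C) (k4 : |x2| ≤ C) :
    |(ρ * u * d1 + (ρ * u ^ 2 + pr γ ρ e) * x1) +
      ((γ - 1) * (ρ * en u e) * d2 + (γ - 1) * (ρ * en u e * u + pr γ ρ e * u) * x2)| ≤
      C * (|ρ - r| * |u| + γ * (|pr γ ρ e - p| * |u|) +
        (b + (γ - 1) * b / 2 + (γ - 1) * b ^ 2 / 2) * u ^ 2) := by
  obtain ⟨a1, a2, a3, a4, a5⟩ := hb
  have hρ : 0 < ρ := ha.trans_le a1
  have hb0 : 0 < b := hρ.trans_le a2
  have hγ0 : 0 < γ - 1 := by linarith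
  have hC : 0 ≤ C := (abs_nonneg _).trans k1
  have e1 : (ρ * u * d1 + (ρ * u ^ 2 + pr γ ρ e) * x1) +
      ((γ - 1) * (ρ * en u e) * d2 + (γ - 1) * (ρ * en u e * u + pr γ ρ e * u) * x2) =
      (ρ - r) * u * d1 + γ * ((pr γ ρ e - p) * u * x2) + ρ * u ^ 2 * x1 +
        (γ - 1) * ρ / 2 * u ^ 2 * d2 + (γ - 1) * ρ / 2 * u * u ^ 2 * x2 := by
    unfold pr en
    linear_combination u * h1 + ((γ - 1) * ρ * e) * h2
  have hu2 : 0 ≤ u ^ 2 := sq_nonneg u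
  have t1 : |(ρ - r) * u * d1| ≤ C * (|ρ - r| * |u|) := by
    rw [abs_mul, abs_mul, mul_comm C]
    exact mul_le_mul_of_nonneg_left k1 (by positivity)
  have t2 : |γ * ((pr γ ρ e - p) * u * x2)| ≤ C * (γ * (|pr γ ρ e - p| * |u|)) := by
    rw [abs_mul, abs_mul, abs_mul, abs_of_pos (by linarith : 0 < γ)]
    have := mul_le_mul_of_nonneg_left k4 (by positivity : 0 ≤ γ * (|pr γ ρ e - p| * |u|))
    linarith
  have t3 : |ρ * u ^ 2 * x1| ≤ C * (b * u ^ 2) := by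
    rw [abs_mul, abs_mul, abs_of_pos hρ, abs_of_nonneg hu2, mul_comm C]
    exact mul_le_mul (mul_le_mul_of_nonneg_right a2 hu2) k2 (abs_nonneg _) (by positivity)
  have t4 : |(γ - 1) * ρ / 2 * u ^ 2 * d2| ≤ C * ((γ - 1) * b / 2 * u ^ 2) := by
    rw [abs_mul, abs_mul, abs_of_nonneg (by positivity : 0 ≤ (γ - 1) * ρ / 2), abs_of_nonneg hu2,
      mul_comm C]
    refine mul_le_mul (mul_le_mul_of_nonneg_right ?_ hu2) k3 (abs_nonneg _) (by positivity)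
    have := mul_le_mul_of_nonneg_left a2 hγ0.le
    linarith
  have t5 : |(γ - 1) * ρ / 2 * u * u ^ 2 * x2| ≤ C * ((γ - 1) * b ^ 2 / 2 * u ^ 2) := by
    rw [abs_mul, abs_mul, abs_mul, abs_of_nonneg (by positivity : 0 ≤ (γ - 1) * ρ / 2),
      abs_of_nonneg hu2, mul_comm C]
    refine mul_le_mul (mul_le_mul_of_nonneg_right ?_ hu2) k4 (abs_nonneg _) (by positivity)
    have h3 : (γ - 1) * ρ / 2 ≤ (γ - 1) * b / 2 := by
      have := mul_le_mul_of_nonneg_left a2 hγ0.le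
      linarith
    calc (γ - 1) * ρ / 2 * |u| ≤ (γ - 1) * b / 2 * b :=
          mul_le_mul h3 a3 (abs_nonneg _) (by positivity)
      _ = (γ - 1) * b ^ 2 / 2 := by ring
  rw [e1]
  have s1 := abs_add_le ((ρ - r) * u * d1 + γ * ((pr γ ρ e - p) * u * x2) + ρ * u ^ 2 * x1 +
        (γ - 1) * ρ / 2 * u ^ 2 * d2) ((γ - 1) * ρ / 2 * u * u ^ 2 * x2)
  have s2 := abs_add_le ((ρ - r) * u * d1 + γ * ((pr γ ρ e - p) * u * x2) + ρ * u ^ 2 * x1)
        ((γ - 1) * ρ / 2 * u ^ 2 * d2)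
  have s3 := abs_add_le ((ρ - r) * u * d1 + γ * ((pr γ ρ e - p) * u * x2)) (ρ * u ^ 2 * x1)
  have s4 := abs_add_le ((ρ - r) * u * d1) (γ * ((pr γ ρ e - p) * u * x2))
  calc _ ≤ C * (|ρ - r| * |u|) + C * (γ * (|pr γ ρ e - p| * |u|)) + C * (b * u ^ 2) +
        C * ((γ - 1) * b / 2 * u ^ 2) + C * ((γ - 1) * b ^ 2 / 2 * u ^ 2) := by linarith
    _ = _ := by ring

private theorem di_alg2 {γ a b ρ u e r v z M D f1 f2 h1 h2 : ℝ} (hγ : 1 < γ) (ha : 0 < a)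
    (hb : Box a b ρ u e) (hb' : Box a b r v z) (k1 : |f1| ≤ M) (k2 : |f2| ≤ M)
    (k3 : |f1 - h1| ≤ D) (k4 : |f2 - h2| ≤ D) :
    |(ρ * u * f1 + (γ - 1) * (ρ * en u e) * f2) - (r * v * h1 + (γ - 1) * (r * en v z) * h2)| ≤
      M * (b + (γ - 1) * (b + b ^ 2)) * (|ρ - r| + |u - v| + |e - z|) +
        (b ^ 2 + (γ - 1) * (b * (b + b ^ 2 / 2))) * D := by
  obtain ⟨a1, a2, a3, a4, a5⟩ := hb
  obtain ⟨c1, c2, c3, c4, c5⟩ := hb'
  have hρ : 0 < ρ := ha.trans_le a1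
  have hr : 0 < r := ha.trans_le c1
  have he : 0 < e := ha.trans_le a4
  have hz : 0 < z := ha.trans_le c4
  have hb0 : 0 < b := hρ.trans_le a2
  have hγ0 : 0 < γ - 1 := by linarith
  have hM : 0 ≤ M := (abs_nonneg _).trans k1
  have hD : 0 ≤ D := (abs_nonneg _).trans k3
  have e1 : (ρ * u * f1 + (γ - 1) * (ρ * en u e) * f2) -
      (r * v * h1 + (γ - 1) * (r * en v z) * h2) =
      ((ρ * (u - v) + (ρ - r) * v) * f1 +
      (γ - 1) * ((ρ * (e - z) + ρ * ((u - v) * ((u + v) / 2)) + (ρ - r) * en v z)) * f2) +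
      (r * v * (f1 - h1) + (γ - 1) * (r * en v z) * (f2 - h2)) := by
    unfold en
    ring
  have hv2 : v ^ 2 ≤ b ^ 2 := by
    rw [← sq_abs v]; exact pow_le_pow_left₀ (abs_nonneg _) c3 2
  have hen0 : 0 ≤ en v z := by unfold en; positivity
  have hen : en v z ≤ b + b ^ 2 / 2 := by unfold en; linarith
  have p1 : |ρ * (u - v) + (ρ - r) * v| ≤ b * |u - v| + |ρ - r| * b := by
    refine (abs_add_le _ _).trans ?_
    rw [abs_mul, abs_mul, abs_of_pos hρ]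
    exact add_le_add (mul_le_mul_of_nonneg_right a2 (abs_nonneg _))
      (mul_le_mul_of_nonneg_left c3 (abs_nonneg _))
  have huv : |(u + v) / 2| ≤ b := by
    rw [abs_div, abs_two]
    have := abs_add_le u v
    linarith
  have p2 : |ρ * (e - z) + ρ * ((u - v) * ((u + v) / 2)) + (ρ - r) * en v z| ≤
      b * |e - z| + b * (|u - v| * b) + |ρ - r| * (b + b ^ 2 / 2) := by
    refine (abs_add_le _ _).trans (add_le_add ((abs_add_le _ _).trans (add_le_add ?_ ?_)) ?_)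
    · rw [abs_mul, abs_of_pos hρ]
      exact mul_le_mul_of_nonneg_right a2 (abs_nonneg _)
    · rw [abs_mul, abs_of_pos hρ, abs_mul]
      exact mul_le_mul a2 (mul_le_mul_of_nonneg_left huv (abs_nonneg _)) (by positivity) hb0.le
    · rw [abs_mul, abs_of_nonneg hen0]
      exact mul_le_mul_of_nonneg_left hen (abs_nonneg _)
  have p3 : |(ρ * (u - v) + (ρ - r) * v) * f1| ≤ (b * |u - v| + |ρ - r| * b) * M := by
    rw [abs_mul]
    exact mul_le_mul p1 k1 (abs_nonneg _) (by positivity)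
  have p4 : |(γ - 1) * ((ρ * (e - z) + ρ * ((u - v) * ((u + v) / 2)) + (ρ - r) * en v z)) * f2| ≤
      (γ - 1) * (b * |e - z| + b * (|u - v| * b) + |ρ - r| * (b + b ^ 2 / 2)) * M := by
    rw [abs_mul, abs_mul, abs_of_pos hγ0]
    exact mul_le_mul (mul_le_mul_of_nonneg_left p2 hγ0.le) k2 (abs_nonneg _) (by positivity)
  have p5 : |r * v * (f1 - h1)| ≤ b ^ 2 * D := by
    rw [abs_mul, abs_mul, abs_of_pos hr]
    have : r * |v| ≤ b ^ 2 := by
      rw [sq]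
      exact mul_le_mul c2 c3 (abs_nonneg _) hb0.le
    exact mul_le_mul this k3 (abs_nonneg _) (by positivity)
  have p6 : |(γ - 1) * (r * en v z) * (f2 - h2)| ≤ (γ - 1) * (b * (b + b ^ 2 / 2)) * D := by
    rw [abs_mul, abs_mul, abs_mul, abs_of_pos hγ0, abs_of_pos hr, abs_of_nonneg hen0]
    exact mul_le_mul (mul_le_mul_of_nonneg_left (mul_le_mul c2 hen hen0 hb0.le) hγ0.le) k4
      (abs_nonneg _) (by positivity)
  rw [e1]
  have s1 := abs_add_le ((ρ * (u - v) + (ρ - r) * v) * f1 +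
      (γ - 1) * ((ρ * (e - z) + ρ * ((u - v) * ((u + v) / 2)) + (ρ - r) * en v z)) * f2)
      (r * v * (f1 - h1) + (γ - 1) * (r * en v z) * (f2 - h2))
  have s2 := abs_add_le ((ρ * (u - v) + (ρ - r) * v) * f1)
    ((γ - 1) * ((ρ * (e - z) + ρ * ((u - v) * ((u + v) / 2)) + (ρ - r) * en v z)) * f2)
  have s3 := abs_add_le (r * v * (f1 - h1)) ((γ - 1) * (r * en v z) * (f2 - h2))
  have q1 : 0 ≤ M * ((γ - 1) * (b ^ 2 / 2) * |ρ - r|) := by positivity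
  have q2 : 0 ≤ M * ((γ - 1) * b * |u - v|) := by positivity
  have q3 : 0 ≤ M * ((b + (γ - 1) * b ^ 2) * |e - z|) := by positivity
  have q4 : M * (b + (γ - 1) * (b + b ^ 2)) * (|ρ - r| + |u - v| + |e - z|) =
      (b * |u - v| + |ρ - r| * b) * M +
      (γ - 1) * (b * |e - z| + b * (|u - v| * b) + |ρ - r| * (b + b ^ 2 / 2)) * M +
      M * ((γ - 1) * (b ^ 2 / 2) * |ρ - r|) + M * ((γ - 1) * b * |u - v|) +
      M * ((b + (γ - 1) * b ^ 2) * |e - z|) := by ring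
  rw [q4]
  linarith

private theorem di_intg {R0 M : ℝ} {f : ℝ → ℝ} (hf : Measurable f) (h : ∀ᵐ x : ℝ, |f x| ≤ M) :
    IntegrableOn f (Ioo (-R0) R0) := by
  apply Measure.integrableOn_of_bounded (M := M) (by simp) hf.aestronglyMeasurable
  exact ae_restrict_of_ae (by simpa [Real.norm_eq_abs] using h)

/-- The bounds of the quadratic integrals. -/
private theorem di_cs {R0 b M C₂ ε σ : ℝ} (hb : 0 < b) (hε : 0 < ε) (hσ : 0 < σ)
    {r v w : ℝ → ℝ} (mr : Measurable r) (mv : Measurable v) (mw : Measurable w)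
    (br : ∀ᵐ x : ℝ, |r x| ≤ b) (bv : ∀ᵐ x : ℝ, |v x| ≤ b) (bw : ∀ᵐ x : ℝ, |w x| ≤ M)
    (h1 : ∫ x in Ioo (-R0) R0, |r x| ≤ σ ^ 2)
    (h2 : ∫ x in Ioo (-R0) R0, (v x ^ 2 + w x ^ 2) ≤ C₂ * ε ^ 2) :
    ∀ α β δ : ℝ, 0 ≤ α → 0 ≤ β → 0 ≤ δ →
      ∫ x in Ioo (-R0) R0, (α * (|r x| * |v x|) + β * (|w x| * |v x|) + δ * v x ^ 2) ≤
        α * (ε * σ * (b + C₂) / 2) + β * (C₂ * ε ^ 2 / 2) + δ * (C₂ * ε ^ 2) := by
  have ir : IntegrableOn (fun x => |r x|) (Ioo (-R0) R0) :=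
    di_intg mr.abs (M := b) (by filter_upwards [br] with x h; rwa [abs_abs])
  have iv : IntegrableOn (fun x => v x ^ 2) (Ioo (-R0) R0) :=
    di_intg (mv.pow_const 2) (M := b ^ 2) (by
      filter_upwards [bv] with x h
      rw [abs_pow]
      exact pow_le_pow_left₀ (abs_nonneg _) h 2)
  have iw : IntegrableOn (fun x => w x ^ 2) (Ioo (-R0) R0) :=
    di_intg (mw.pow_const 2) (M := M ^ 2) (by
      filter_upwards [bw] with x h
      rw [abs_pow]
      exact pow_le_pow_left₀ (abs_nonneg _) h 2)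
  have irv : IntegrableOn (fun x => |r x| * |v x|) (Ioo (-R0) R0) :=
    di_intg (mr.abs.mul mv.abs) (M := b * b) (by
      filter_upwards [br, bv] with x h h'
      rw [abs_mul, abs_abs, abs_abs]
      exact mul_le_mul h h' (abs_nonneg _) hb.le)
  have iwv : IntegrableOn (fun x => |w x| * |v x|) (Ioo (-R0) R0) :=
    di_intg (mw.abs.mul mv.abs) (M := M * b) (by
      filter_upwards [bw, bv] with x h h'
      rw [abs_mul, abs_abs, abs_abs]
      exact mul_le_mul h h' (abs_nonneg _) ((abs_nonneg _).trans h))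
  have e1 : ∫ x in Ioo (-R0) R0, (v x ^ 2 + w x ^ 2) =
      (∫ x in Ioo (-R0) R0, v x ^ 2) + ∫ x in Ioo (-R0) R0, w x ^ 2 := integral_add iv iw
  have e2 : 0 ≤ ∫ x in Ioo (-R0) R0, w x ^ 2 := integral_nonneg fun x => sq_nonneg _
  have hv : ∫ x in Ioo (-R0) R0, v x ^ 2 ≤ C₂ * ε ^ 2 := by linarith
  have g1 : ∫ x in Ioo (-R0) R0, |r x| * |v x| ≤ ε * σ * (b + C₂) / 2 := by
    have h3 : ∫ x in Ioo (-R0) R0, |r x| * |v x| ≤
        ∫ x in Ioo (-R0) R0, (ε / σ * b / 2 * |r x| + σ / ε / 2 * v x ^ 2) := by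
      apply integral_mono_ae irv ((ir.const_mul _).add (iv.const_mul _))
      apply ae_restrict_of_ae
      filter_upwards [br] with x hx
      have h4 : 0 ≤ (ε / σ * |r x| - |v x|) ^ 2 := sq_nonneg _
      have h5 : |v x| ^ 2 = v x ^ 2 := sq_abs _
      have h6 : ε / σ * |r x| ^ 2 ≤ ε / σ * (b * |r x|) := by
        refine mul_le_mul_of_nonneg_left ?_ (by positivity)
        rw [sq]
        exact mul_le_mul_of_nonneg_right hx (abs_nonneg _)
      have h7 : |r x| * |v x| ≤ ε / σ / 2 * |r x| ^ 2 + σ / ε / 2 * v x ^ 2 := by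
        have h8 : 0 ≤ σ / ε / 2 * (ε / σ * |r x| - |v x|) ^ 2 := by positivity
        have h9 : σ / ε / 2 * (ε / σ * |r x| - |v x|) ^ 2 =
            ε / σ / 2 * |r x| ^ 2 + σ / ε / 2 * |v x| ^ 2 - |r x| * |v x| := by
          field_simp
          ring
        rw [h9, h5] at h8
        linarith
      calc |r x| * |v x| ≤ ε / σ / 2 * |r x| ^ 2 + σ / ε / 2 * v x ^ 2 := h7
        _ ≤ ε / σ * b / 2 * |r x| + σ / ε / 2 * v x ^ 2 := by linarith
    rw [integral_add (ir.const_mul _) (iv.const_mul _), integral_const_mul,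
      integral_const_mul] at h3
    refine h3.trans ?_
    have h4 : ε / σ * b / 2 * (∫ x in Ioo (-R0) R0, |r x|) ≤ ε / σ * b / 2 * σ ^ 2 :=
      mul_le_mul_of_nonneg_left h1 (by positivity)
    have h5 : σ / ε / 2 * (∫ x in Ioo (-R0) R0, v x ^ 2) ≤ σ / ε / 2 * (C₂ * ε ^ 2) :=
      mul_le_mul_of_nonneg_left hv (by positivity)
    refine (add_le_add h4 h5).trans (le_of_eq ?_)
    field_simp
  have g2 : ∫ x in Ioo (-R0) R0, |w x| * |v x| ≤ C₂ * ε ^ 2 / 2 := by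
    have h3 : ∫ x in Ioo (-R0) R0, |w x| * |v x| ≤
        ∫ x in Ioo (-R0) R0, (1 / 2 * (v x ^ 2 + w x ^ 2)) := by
      apply integral_mono_ae iwv ((iv.add iw).const_mul _)
      apply ae_restrict_of_ae
      refine Eventually.of_forall fun x => ?_
      have h4 : 0 ≤ (|w x| - |v x|) ^ 2 := sq_nonneg _
      have h5 : |v x| ^ 2 = v x ^ 2 := sq_abs _
      have h6 : |w x| ^ 2 = w x ^ 2 := sq_abs _
      show |w x| * |v x| ≤ 1 / 2 * (v x ^ 2 + w x ^ 2)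
      nlinarith
    rw [integral_const_mul] at h3
    linarith
  intro α β δ hα hβ hδ
  have i1 : IntegrableOn (fun x => α * (|r x| * |v x|) + β * (|w x| * |v x|)) (Ioo (-R0) R0) :=
    (irv.const_mul α).add (iwv.const_mul β)
  rw [integral_add i1 (iv.const_mul δ), integral_add (irv.const_mul α) (iwv.const_mul β),
    integral_const_mul, integral_const_mul, integral_const_mul]
  exact add_le_add (add_le_add (mul_le_mul_of_nonneg_left g1 hα)
    (mul_le_mul_of_nonneg_left g2 hβ)) (mul_le_mul_of_nonneg_left hv hδ)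

/-- The fundamental theorem for potentials with support in `[-R0, R0]`. -/
private theorem di_ftc {R0 : ℝ} (hR0 : 0 < R0) {F f : ℝ → ℝ} {s : Set ℝ} (hs : s.Countable)
    (hF : Continuous F) (hd : ∀ x ∉ s, HasDerivAt F (f x) x) (h0 : ∀ x, R0 ≤ |x| → F x = 0)
    (hi : IntegrableOn f (Ioo (-R0) R0)) (x0 : ℝ) :
    ∫ x in Ioo (-R0) R0, (if x < x0 then f x else 0) = F x0 := by
  have key : ∀ c, -R0 ≤ c → c ≤ R0 → ∫ x in Ioo (-R0) c, f x = F c := by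
    intro c h1 h2
    have hi' : IntervalIntegrable f volume (-R0) c := by
      rw [intervalIntegrable_iff_integrableOn_Ioo_of_le h1]
      exact hi.mono_set (Ioo_subset_Ioo_right h2)
    have h3 := integral_eq_of_hasDerivAt_off_countable F f hs hF.continuousOn
      (fun x hx => hd x hx.2) hi'
    rw [intervalIntegral.integral_of_le h1, integral_Ioc_eq_integral_Ioo] at h3
    rw [h3, h0 (-R0) (by rw [abs_neg, abs_of_pos hR0]), sub_zero]
  have e1 : ∫ x in Ioo (-R0) R0, (if x < x0 then f x else 0) =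
      ∫ x in Ioo (-R0) R0 ∩ Iio x0, f x := by
    rw [← setIntegral_indicator measurableSet_Iio]
    rfl
  rw [e1]
  rcases le_total x0 (-R0) with h1 | h1
  · have : Ioo (-R0) R0 ∩ Iio x0 = ∅ := by
      ext x
      simp only [mem_inter_iff, mem_Ioo, mem_Iio, mem_empty_iff_false, iff_false]
      rintro ⟨⟨h2, _⟩, h3⟩
      linarith
    rw [this, h0 x0 (by rw [abs_of_nonpos (by linarith)]; linarith)]
    simp
  · rcases le_total x0 R0 with h2 | h2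
    · have : Ioo (-R0) R0 ∩ Iio x0 = Ioo (-R0) x0 := by
        ext x
        simp only [mem_inter_iff, mem_Ioo, mem_Iio]
        constructor
        · rintro ⟨⟨h2, _⟩, h3⟩; exact ⟨h2, h3⟩
        · rintro ⟨h3, h4⟩; exact ⟨⟨h3, by linarith⟩, h4⟩
      rw [this]
      exact key x0 h1 h2
    · have : Ioo (-R0) R0 ∩ Iio x0 = Ioo (-R0) R0 := by
        ext x
        simp only [mem_inter_iff, mem_Ioo, mem_Iio]
        constructor
        · rintro ⟨⟨h2, h4⟩, h3⟩; exact ⟨h2, h4⟩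
        · rintro ⟨h3, h4⟩; exact ⟨⟨h3, h4⟩, by linarith⟩
      rw [this, key R0 (by linarith) le_rfl, h0 R0 (by rw [abs_of_pos hR0]),
        h0 x0 (h2.trans (le_abs_self _))]

private theorem di_ftc0 {R0 : ℝ} (hR0 : 0 < R0) {F f : ℝ → ℝ} {s : Set ℝ} (hs : s.Countable)
    (hF : Continuous F) (hd : ∀ x ∉ s, HasDerivAt F (f x) x) (h0 : ∀ x, R0 ≤ |x| → F x = 0)
    (hi : IntegrableOn f (Ioo (-R0) R0)) : ∫ x in Ioo (-R0) R0, f x = 0 := by
  have h1 := di_ftc hR0 hs hF hd h0 hi R0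
  rw [h0 R0 (by rw [abs_of_pos hR0])] at h1
  rw [← h1]
  apply setIntegral_congr_fun measurableSet_Ioo
  intro x hx
  simp only
  rw [if_pos hx.2]

private theorem di_frac {x k m : ℝ} (hx : 0 ≤ x) (hk : 0 ≤ k) (hm : 0 < m) :
    x * (k / (m * (x + 1))) ≤ k / m := by
  rw [mul_div_assoc', div_le_div_iff₀ (by positivity) hm]
  nlinarith [mul_nonneg hk hm.le, mul_nonneg (mul_nonneg hx hk) hm.le]

theorem dual_pairing {γ T a b p T0 η R0 Z K x0 κ : ℝ} (hγ : 1 < γ) (hT0 : 0 < T0) (hT : T0 < T)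
    (ha : 0 < a) (hR0 : 0 < R0) {ρ₀ : ℝ → ℝ} (hm : Measurable ρ₀)
    (hbox : ∀ x, Box a b (ρ₀ x) 0 (p / ((γ - 1) * ρ₀ x))) {Ψ₁ Ψ₂ φ₁ φ₂ : ℝ × ℝ → ℝ}
    (hD : IsDual ρ₀ (γ * p) T0 η R0 Z K x0 Ψ₁ Ψ₂ φ₁ φ₂) (hκ : 0 < κ) :
    ∃ ε₀ : ℝ, 0 < ε₀ ∧ ∀ (ε : ℝ) (ρ u e : ℝ × ℝ → ℝ), 0 < ε → ε ≤ ε₀ → IsSol γ T a b ρ u e →
      Attains T ρ u e ρ₀ (fun x => if x < x0 then ε else 0)
        (fun x => p / ((γ - 1) * ρ₀ x)) →
      ∀ᵐ t : ℝ, t ∈ Ioo 0 T0 →
        |(∫ x, (u (t, x) * (ρ₀ x * φ₁ (t, x)) +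
          (pr γ (ρ (t, x)) (e (t, x)) - p) * φ₂ (t, x))) - ε * Ψ₁ (0, x0)| ≤ κ * ε := by
  have hb0 : 0 < b := ha.trans_le ((hbox 0).1.trans (hbox 0).2.1)
  have hγ0 : 0 < γ - 1 := by linarith
  have hγ1 : 0 < γ := by linarith
  have hTT : 0 < T := hT0.trans hT
  obtain ⟨C₁, hC₁⟩ := hD.lip₁
  obtain ⟨C₂', hC₂⟩ := hD.lip₂
  obtain ⟨C, hφ₁, hφ₂⟩ : ∃ C : ℝ≥0, LipschitzWith C φ₁ ∧ LipschitzWith C φ₂ :=
    ⟨max C₁ C₂', hC₁.weaken (le_max_left _ _), hC₂.weaken (le_max_right _ _)⟩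
  have hC0 : (0 : ℝ) ≤ C := C.2
  have hs₁ : ∀ t ∈ Icc 0 T0, ∀ x : ℝ, R0 ≤ |x| → φ₁ (t, x) = 0 :=
    fun t ht x hx => (hD.supp t ht x hx).1
  have hs₂ : ∀ t ∈ Icc 0 T0, ∀ x : ℝ, R0 ≤ |x| → φ₂ (t, x) = 0 :=
    fun t ht x hx => (hD.supp t ht x hx).2.1
  obtain ⟨M, hM⟩ : ∃ M : ℝ, M = C * (2 * R0) := ⟨_, rfl⟩
  have hM0 : 0 ≤ M := by rw [hM]; positivity
  have hM₁ : ∀ t ∈ Icc 0 T0, ∀ x, |φ₁ (t, x)| ≤ M := fun t ht x => by
    rw [hM]; exact di_bdd hR0 hφ₁ hs₁ ht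
  have hM₂ : ∀ t ∈ Icc 0 T0, ∀ x, |φ₂ (t, x)| ≤ M := fun t ht x => by
    rw [hM]; exact di_bdd hR0 hφ₂ hs₂ ht
  obtain ⟨C₂, hC₂0, hl2⟩ := l2_bound hγ hTT ha hR0 hm hbox
  obtain ⟨ME, hME0, hME⟩ := exists_bound (γ := γ) (a := a) (b := b) hγ ha
  obtain ⟨c, hc⟩ : ∃ c : ℝ, c = b + (γ - 1) * b / 2 + (γ - 1) * b ^ 2 / 2 := ⟨_, rfl⟩
  have hc0 : 0 < c := by rw [hc]; positivity
  obtain ⟨P1, hP1⟩ : ∃ P1 : ℝ, P1 = (M + T0 * C) * (b + C₂) / 2 := ⟨_, rfl⟩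
  obtain ⟨P2, hP2⟩ : ∃ P2 : ℝ, P2 = (γ - 1) * b / 2 * M * C₂ + T0 * C * (γ / 2 + c) * C₂ +
    (γ - 1) * b * M * R0 := ⟨_, rfl⟩
  have hP10 : 0 ≤ P1 := by rw [hP1]; positivity
  have hP20 : 0 ≤ P2 := by rw [hP2]; positivity
  obtain ⟨σ, hσ⟩ : ∃ σ : ℝ, σ = κ / (4 * (P1 + 1)) := ⟨_, rfl⟩
  have hσ0 : 0 < σ := by rw [hσ]; positivity
  obtain ⟨R', δ, hR', hδ, hmain⟩ := Helper73.EU.main γ T a b 0 hγ hTT ha _ _ _ _ _ _
    (contact_isBase (v := 0) (p₀ := p) hγ hTT ha hm hbox) R0 T0 (σ ^ 2) hR0 hT0 hT (by positivity)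
  refine ⟨min b (min (κ / (4 * (P2 + 1))) (δ / (4 * (R' + 1)))), by positivity, ?_⟩
  intro ε ρ u e hε hεle hsol hatt
  have hεb : ε ≤ b := hεle.trans (min_le_left _ _)
  have hε2 : ε ≤ κ / (4 * (P2 + 1)) := hεle.trans ((min_le_right _ _).trans (min_le_left _ _))
  have hε3 : ε ≤ δ / (4 * (R' + 1)) := hεle.trans ((min_le_right _ _).trans (min_le_right _ _))
  obtain ⟨u₀, hu₀⟩ : ∃ u₀ : ℝ → ℝ, u₀ = fun x => if x < x0 then ε else 0 := ⟨_, rfl⟩
  obtain ⟨e₀, he₀⟩ : ∃ e₀ : ℝ → ℝ, e₀ = fun x => p / ((γ - 1) * ρ₀ x) := ⟨_, rfl⟩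
  rw [← hu₀, ← he₀] at hatt
  have mu₀ : Measurable u₀ := by
    rw [hu₀]; exact Measurable.ite measurableSet_Iio measurable_const measurable_const
  have me₀ : Measurable e₀ := by rw [he₀]; fun_prop
  have hu₀ε : ∀ x, |u₀ x| ≤ ε := by
    intro x
    rw [hu₀]
    simp only
    split_ifs
    · rw [abs_of_pos hε]
    · rw [abs_zero]; exact hε.le
  have hbox₀ : ∀ x, Box a b (ρ₀ x) (u₀ x) (e₀ x) := by
    intro x
    have h := hbox x
    refine ⟨h.1, h.2.1, (hu₀ε x).trans hεb, ?_, ?_⟩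
    · rw [he₀]; exact h.2.2.2.1
    · rw [he₀]; exact h.2.2.2.2
  have hdat : IsDatum a b ρ₀ u₀ e₀ := ⟨hm, mu₀, me₀, Eventually.of_forall hbox₀⟩
  have hdist : dist1 R' ρ₀ u₀ e₀ ρ₀ (fun _ => 0) (fun x => p / ((γ - 1) * ρ₀ x)) < δ := by
    rw [← he₀]
    unfold dist1
    have h1 : ∫ x in Ioo (-R') R', (|ρ₀ x - ρ₀ x| + |u₀ x - 0| + |e₀ x - e₀ x|) ≤
        ∫ _ in Ioo (-R') R', ε := by
      apply integral_mono_ae
      · apply integrableOn_Ioo_of_ae (M := ε)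
        · fun_prop
        · refine Eventually.of_forall fun x => ?_
          simp only [sub_self, abs_zero, zero_add, add_zero, sub_zero, abs_abs]
          exact hu₀ε x
      · simp
      · refine Eventually.of_forall fun x => ?_
        simp only [sub_self, abs_zero, zero_add, add_zero, sub_zero]
        exact hu₀ε x
    refine h1.trans_lt ?_
    rw [integral_const_Ioo (by linarith)]
    have h2 : (R' - -R') * ε ≤ (2 * R') * (δ / (4 * (R' + 1))) := by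
      have : R' - -R' = 2 * R' := by ring
      rw [this]
      exact mul_le_mul_of_nonneg_left hε3 (by positivity)
    have h3 := di_frac hR'.le hδ.le (by norm_num : (0 : ℝ) < 4)
    have h4 : (2 * R') * (δ / (4 * (R' + 1))) = 2 * (R' * (δ / (4 * (R' + 1)))) := by ring
    refine h2.trans_lt ?_
    rw [h4]
    linarith only [h3, hδ]
  have hE2 := hmain ρ u e ρ₀ u₀ e₀ hsol hdat hatt hdist
  have hE1 := ae_slice hsol.box
  have hE3 := hl2 ε ρ u e u₀ hε.le hεb mu₀ hu₀ε hsol (by rw [← he₀]; exact hatt)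
  -- slices are measurable
  have sm : ∀ {f : ℝ × ℝ → ℝ}, Measurable f → ∀ t : ℝ, Measurable fun x => f (t, x) :=
    fun hf t => hf.comp (measurable_const.prodMk measurable_id)
  have mq : Measurable fun z : ℝ × ℝ => pr γ (ρ z) (e z) := by
    have h1 := hsol.meas_ρ
    have h2 := hsol.meas_e
    unfold pr
    fun_prop
  have hqb : ∀ {r v z : ℝ}, Box a b r v z → |pr γ r z - p| ≤ (γ - 1) * b * b + |p| := by
    rintro r v z ⟨k1, k2, k3, k4, k5⟩
    refine (abs_sub _ _).trans (add_le_add ?_ le_rfl)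
    unfold pr
    have hr : 0 < r := ha.trans_le k1
    have hz : 0 < z := ha.trans_le k4
    rw [abs_of_pos (by positivity)]
    exact mul_le_mul (mul_le_mul_of_nonneg_left k2 hγ0.le) k5 hz.le (by positivity)
  have key : ∀ᵐ t : ℝ, t ∈ Ioo 0 T0 → ∀ α β δ : ℝ, 0 ≤ α → 0 ≤ β → 0 ≤ δ →
      ∫ x in Ioo (-R0) R0, (α * (|ρ (t, x) - ρ₀ x| * |u (t, x)|) +
        β * (|pr γ (ρ (t, x)) (e (t, x)) - p| * |u (t, x)|) + δ * u (t, x) ^ 2) ≤
        α * (ε * σ * (b + C₂) / 2) + β * (C₂ * ε ^ 2 / 2) + δ * (C₂ * ε ^ 2) := by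
    filter_upwards [hE1, hE2, hE3] with t h1 h2 h3 ht
    have htT : t ∈ Ioo 0 T := ⟨ht.1, ht.2.trans hT⟩
    have h1 := h1 htT
    have h2 := h2 ht
    have h3 := h3 htT
    have br : ∀ᵐ x : ℝ, |ρ (t, x) - ρ₀ x| ≤ b := by
      filter_upwards [h1] with x hx
      have k := hbox₀ x
      rw [abs_le]
      constructor
      · linarith [hx.1, k.2.1]
      · linarith [hx.2.1, k.1]
    have bq : ∀ᵐ x : ℝ, |pr γ (ρ (t, x)) (e (t, x)) - p| ≤ (γ - 1) * b * b + |p| := by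
      filter_upwards [h1] with x hx
      exact hqb hx
    refine di_cs (M := (γ - 1) * b * b + |p|) hb0 hε hσ0
      (r := fun x => ρ (t, x) - ρ₀ x) (v := fun x => u (t, x))
      (w := fun x => pr γ (ρ (t, x)) (e (t, x)) - p)
      ((sm hsol.meas_ρ t).sub hm) (sm hsol.meas_u t) ((sm mq t).sub measurable_const)
      br (h1.mono fun x hx => hx.2.2.1) bq ?_ h3
    refine le_trans ?_ h2.le
    unfold dist1
    simp only [sl, zero_mul, sub_zero]
    apply integral_mono_ae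
    · exact (integrableOn_Ioo_of_ae (M := b) ((sm hsol.meas_ρ t).sub hm) br).abs
    · apply integrableOn_Ioo_of_ae (M := b + b + b)
      · have m1 := sm hsol.meas_ρ t
        have m2 := sm hsol.meas_u t
        have m3 := sm hsol.meas_e t
        have m4 : Measurable fun x => p / ((γ - 1) * ρ₀ x) := by fun_prop
        exact ((m1.sub hm).abs.add m2.abs).add (m3.sub m4).abs
      · filter_upwards [h1, br] with x hx hx2
        have k := hbox x
        have h5 : |e (t, x) - p / ((γ - 1) * ρ₀ x)| ≤ b := by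
          rw [abs_le]
          constructor
          · linarith [hx.2.2.2.1, k.2.2.2.2]
          · linarith [hx.2.2.2.2, k.2.2.2.1]
        rw [abs_of_nonneg (by positivity)]
        exact add_le_add (add_le_add hx2 hx.2.2.1) h5
    · refine Eventually.of_forall fun x => ?_
      have h5 := abs_nonneg (u (t, x))
      have h6 := abs_nonneg (e (t, x) - p / ((γ - 1) * ρ₀ x))
      simp only
      linarith
  -- the laws
  obtain ⟨A1, hA1⟩ : ∃ A : ℝ × ℝ → ℝ, A = fun z => ρ z * u z := ⟨_, rfl⟩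
  obtain ⟨B1, hB1⟩ : ∃ A : ℝ × ℝ → ℝ, A = fun z => ρ z * u z ^ 2 + pr γ (ρ z) (e z) := ⟨_, rfl⟩
  obtain ⟨A2, hA2⟩ : ∃ A : ℝ × ℝ → ℝ, A = fun z => (γ - 1) * (ρ z * en (u z) (e z)) := ⟨_, rfl⟩
  obtain ⟨B2, hB2⟩ : ∃ A : ℝ × ℝ → ℝ, A = fun z =>
    (γ - 1) * (ρ z * en (u z) (e z) * u z + pr γ (ρ z) (e z) * u z) := ⟨_, rfl⟩
  obtain ⟨g, hg⟩ : ∃ g : ℝ × ℝ → ℝ, g = fun z => C * (|ρ z - ρ₀ z.2| * |u z| +
    γ * (|pr γ (ρ z) (e z) - p| * |u z|) + c * u z ^ 2) := ⟨_, rfl⟩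
  have mρ := hsol.meas_ρ
  have mu := hsol.meas_u
  have me := hsol.meas_e
  have mA1 : Measurable A1 := by rw [hA1]; fun_prop
  have mB1 : Measurable B1 := by rw [hB1]; fun_prop
  have mA2 : Measurable A2 := by rw [hA2]; unfold en; fun_prop
  have mB2 : Measurable B2 := by rw [hB2]; unfold en; fun_prop
  have mg : Measurable g := by
    rw [hg]
    have h1 : Measurable fun z : ℝ × ℝ => ρ₀ z.2 := hm.comp measurable_snd
    fun_prop
  have l1 : Law T A1 B1 := by rw [hA1, hB1]; exact hsol.momentum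
  have l2 : Law T A2 B2 := by
    intro φ hφ
    have h1 := hsol.energy φ hφ
    rw [hA2, hB2]
    have h2 : ∀ z, (γ - 1) * (ρ z * en (u z) (e z)) * dt φ z +
        (γ - 1) * (ρ z * en (u z) (e z) * u z + pr γ (ρ z) (e z) * u z) * dx φ z =
        (γ - 1) * (ρ z * en (u z) (e z) * dt φ z +
          (ρ z * en (u z) (e z) * u z + pr γ (ρ z) (e z) * u z) * dx φ z) := fun z => by ring
    simp only [h2]
    rw [integral_const_mul, h1, mul_zero]
  obtain ⟨MA, hMA⟩ : ∃ MA : ℝ, MA = ME + (γ - 1) * ME := ⟨_, rfl⟩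
  have hMA1 : ME ≤ MA := by
    rw [hMA]
    exact le_add_of_nonneg_right (mul_nonneg hγ0.le hME0.le)
  have hMA2 : (γ - 1) * ME ≤ MA := by rw [hMA]; linarith
  have hMA0 : 0 < MA := hME0.trans_le hMA1
  have bb : ∀ᵐ z : ℝ × ℝ, z ∈ Strip T → |A1 z| ≤ MA ∧ |B1 z| ≤ MA ∧ |A2 z| ≤ MA ∧ |B2 z| ≤ MA := by
    filter_upwards [hsol.box] with z hz hzT
    obtain ⟨-, k1, k2, k3, k4, -⟩ := hME _ _ _ (hz hzT)
    rw [hA1, hB1, hA2, hB2]
    refine ⟨k1.trans hMA1, k2.trans hMA1, ?_, ?_⟩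
    · rw [abs_mul, abs_of_pos hγ0]
      exact (mul_le_mul_of_nonneg_left k3 hγ0.le).trans hMA2
    · rw [abs_mul, abs_of_pos hγ0]
      exact (mul_le_mul_of_nonneg_left k4 hγ0.le).trans hMA2
  have bg : ∀ᵐ z : ℝ × ℝ, z ∈ Strip T → |g z| ≤
      C * (b * b + γ * (((γ - 1) * b * b + |p|) * b) + c * b ^ 2) := by
    filter_upwards [hsol.box] with z hz hzT
    have h1 := hz hzT
    have k := hbox₀ z.2
    have h2 : |ρ z - ρ₀ z.2| ≤ b := by
      rw [abs_le]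
      constructor
      · linarith [h1.1, k.2.1]
      · linarith [h1.2.1, k.1]
    have h3 := hqb h1
    have h4 : |u z| ≤ b := h1.2.2.1
    have h5 : u z ^ 2 ≤ b ^ 2 := by
      rw [← sq_abs (u z)]
      exact pow_le_pow_left₀ (abs_nonneg _) h4 2
    rw [hg, abs_of_nonneg (by positivity)]
    refine mul_le_mul_of_nonneg_left (add_le_add (add_le_add ?_ ?_) ?_) hC0
    · exact mul_le_mul h2 h4 (abs_nonneg _) hb0.le
    · exact mul_le_mul_of_nonneg_left (mul_le_mul h3 h4 (abs_nonneg _) (by positivity)) hγ1.le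
    · exact mul_le_mul_of_nonneg_left h5 hc0.le
  have hgD : ∀ᵐ z : ℝ × ℝ, z ∈ Strip T0 →
      |(A1 z * dt φ₁ z + B1 z * dx φ₁ z) + (A2 z * dt φ₂ z + B2 z * dx φ₂ z)| ≤ g z := by
    filter_upwards [hsol.box, hD.eq] with z hz hz2 hzT
    have h1 := hz ⟨hzT.1, hzT.2.trans hT⟩
    obtain ⟨h2, h3⟩ := hz2 hzT
    rw [hA1, hB1, hA2, hB2, hg, hc]
    exact di_alg hγ ha h1 h2 h3 (abs_dt_le hφ₁ z) (abs_dx_le hφ₁ z) (abs_dt_le hφ₂ z)
      (abs_dx_le hφ₂ z)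
  obtain ⟨κ₁, hκ₁⟩ : ∃ κ₁ : ℝ, κ₁ = C * (ε * σ * (b + C₂) / 2) +
    C * γ * (C₂ * ε ^ 2 / 2) + C * c * (C₂ * ε ^ 2) := ⟨_, rfl⟩
  have hκ₁0 : 0 ≤ κ₁ := by rw [hκ₁]; positivity
  have hgi : ∀ᵐ t : ℝ, t ∈ Ioo 0 T0 → ∫ x in Ioo (-R0) R0, g (t, x) ≤ κ₁ := by
    filter_upwards [key] with t h1 ht
    have h2 := h1 ht C (C * γ) (C * c) hC0 (by positivity) (by positivity)
    rw [hκ₁]
    refine le_trans (le_of_eq ?_) h2
    apply setIntegral_congr_fun measurableSet_Ioo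
    intro x _
    rw [hg]
    simp only
    ring
  obtain ⟨J, hJ⟩ : ∃ J : ℝ → ℝ, J = fun t => ∫ x in Ioo (-R0) R0,
    (A1 (t, x) * φ₁ (t, x) + A2 (t, x) * φ₂ (t, x)) := ⟨_, rfl⟩
  have mN : Measurable fun z : ℝ × ℝ => A1 z * φ₁ z + A2 z * φ₂ z := by
    have m1 := hφ₁.continuous.measurable
    have m2 := hφ₂.continuous.measurable
    fun_prop
  have mJ : Measurable J := by
    rw [hJ]
    exact (mN.stronglyMeasurable.integral_prod_right' (ν := volume.restrict (Ioo (-R0) R0))).measurable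
  have bN : ∀ᵐ t : ℝ, t ∈ Ioo 0 T0 → ∀ᵐ x : ℝ,
      |A1 (t, x) * φ₁ (t, x) + A2 (t, x) * φ₂ (t, x)| ≤ MA * M + MA * M := by
    filter_upwards [ae_slice bb] with t h1 ht
    filter_upwards [h1 ⟨ht.1, ht.2.trans hT⟩] with x hx
    refine (abs_add_le _ _).trans ?_
    rw [abs_mul, abs_mul]
    exact add_le_add
      (mul_le_mul hx.1 (hM₁ t ⟨ht.1.le, ht.2.le⟩ x) (abs_nonneg _) hMA0.le)
      (mul_le_mul hx.2.2.1 (hM₂ t ⟨ht.1.le, ht.2.le⟩ x) (abs_nonneg _) hMA0.le)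
  have iN : ∀ᵐ t : ℝ, t ∈ Ioo 0 T0 →
      IntegrableOn (fun x => A1 (t, x) * φ₁ (t, x) + A2 (t, x) * φ₂ (t, x)) (Ioo (-R0) R0) := by
    filter_upwards [bN] with t h1 ht
    exact integrableOn_Ioo_of_ae (sm mN t) (h1 ht)
  have bJ : ∀ᵐ t : ℝ, t ∈ Ioo 0 T0 → |J t| ≤ (R0 - -R0) * (MA * M + MA * M) := by
    filter_upwards [bN, iN] with t h1 h2 ht
    rw [hJ]
    refine abs_integral_le_integral_abs.trans ?_
    rw [← integral_const_Ioo (by linarith)]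
    apply integral_mono_ae (h2 ht).abs (by simp)
    exact ae_restrict_of_ae (h1 ht)
  have hJJ := di_gron (κ₁ := κ₁) mJ bJ (by
    rintro θ ⟨Kθ, hKθ⟩ hθ0 ⟨s, t, hs, ht, hst⟩
    rw [hJ]
    exact di_weak hT hR0 l1 l2 mA1 mB1 mA2 mB2 bb hφ₁ hφ₂ hs₁ hs₂ mg bg hgD hgi hKθ hθ0 hs ht hst)
  -- the initial value
  obtain ⟨J0, hJ0⟩ : ∃ J0 : ℝ, J0 = ∫ x in Ioo (-R0) R0, (ρ₀ x * u₀ x * φ₁ (0, x) +
    (γ - 1) * (ρ₀ x * en (u₀ x) (e₀ x)) * φ₂ (0, x)) := ⟨_, rfl⟩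
  have h00 : (0 : ℝ) ∈ Icc 0 T0 := ⟨le_rfl, hT0.le⟩
  have mφ₁ := hφ₁.continuous.measurable
  have mφ₂ := hφ₂.continuous.measurable
  have mN0 : Measurable fun x => ρ₀ x * u₀ x * φ₁ (0, x) +
      (γ - 1) * (ρ₀ x * en (u₀ x) (e₀ x)) * φ₂ (0, x) := by
    have m1 := sm mφ₁ 0
    have m2 := sm mφ₂ 0
    unfold en
    fun_prop
  have bN0 : ∀ x, |ρ₀ x * u₀ x * φ₁ (0, x) +
      (γ - 1) * (ρ₀ x * en (u₀ x) (e₀ x)) * φ₂ (0, x)| ≤ MA * M + MA * M := by
    intro x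
    obtain ⟨-, k1, k2, k3, k4, -⟩ := hME _ _ _ (hbox₀ x)
    refine (abs_add_le _ _).trans (add_le_add ?_ ?_)
    · rw [abs_mul]
      exact mul_le_mul (k1.trans hMA1) (hM₁ 0 h00 x) (abs_nonneg _) hMA0.le
    · rw [abs_mul, abs_mul, abs_of_pos hγ0]
      exact mul_le_mul ((mul_le_mul_of_nonneg_left k3 hγ0.le).trans hMA2) (hM₂ 0 h00 x)
        (abs_nonneg _) hMA0.le
  have iN0 := integrableOn_Ioo_of_ae (R := R0) mN0 (Eventually.of_forall bN0)
  obtain ⟨C5, hC5⟩ : ∃ C5 : ℝ, C5 = M * (b + (γ - 1) * (b + b ^ 2)) := ⟨_, rfl⟩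
  obtain ⟨C6, hC6⟩ : ∃ C6 : ℝ, C6 = (b ^ 2 + (γ - 1) * (b * (b + b ^ 2 / 2))) * C := ⟨_, rfl⟩
  have hC50 : 0 ≤ C5 := by rw [hC5]; positivity
  have hC60 : 0 ≤ C6 := by rw [hC6]; positivity
  have hJs : ∃ τ : ℝ, 0 < τ ∧ ∀ᵐ s : ℝ, s ∈ Ioo 0 τ → |J s - J0| ≤ κ / 4 * ε := by
    obtain ⟨τ₁, hτ₁, hτT, h1⟩ := hatt R0 (κ * ε / (8 * (C5 + 1))) hR0 (by positivity)
    refine ⟨min τ₁ (min T0 (κ * ε / (16 * (C6 * R0 + 1)))), by positivity, ?_⟩
    filter_upwards [h1, hE1, iN] with s h1 h2 h3 hs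
    have hsτ : s < τ₁ := hs.2.trans_le (min_le_left _ _)
    have hsT : s < T0 := hs.2.trans_le ((min_le_right _ _).trans (min_le_left _ _))
    have hs3 : s ≤ κ * ε / (16 * (C6 * R0 + 1)) :=
      hs.2.le.trans ((min_le_right _ _).trans (min_le_right _ _))
    have h1 := h1 ⟨hs.1, hsτ⟩
    have h2 := h2 ⟨hs.1, hsT.trans hT⟩
    have h3 := h3 ⟨hs.1, hsT⟩
    have hsI : s ∈ Icc 0 T0 := ⟨hs.1.le, hsT.le⟩
    have e1 : J s - J0 = ∫ x in Ioo (-R0) R0,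
        ((A1 (s, x) * φ₁ (s, x) + A2 (s, x) * φ₂ (s, x)) -
        (ρ₀ x * u₀ x * φ₁ (0, x) + (γ - 1) * (ρ₀ x * en (u₀ x) (e₀ x)) * φ₂ (0, x))) := by
      rw [integral_sub h3 iN0, hJ, hJ0]
    have iD : IntegrableOn (fun x => |ρ (s, x) - ρ₀ x| + |u (s, x) - u₀ x| + |e (s, x) - e₀ x|)
        (Ioo (-R0) R0) := by
      apply integrableOn_Ioo_of_ae (M := b + 2 * b + b)
      · exact (((sm mρ s).sub hm).abs.add ((sm mu s).sub mu₀).abs).add ((sm me s).sub me₀).abs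
      · filter_upwards [h2] with x hx
        have k := hbox₀ x
        have g1 : |ρ (s, x) - ρ₀ x| ≤ b := by
          rw [abs_le]
          constructor
          · linarith [hx.1, k.2.1]
          · linarith [hx.2.1, k.1]
        have g2 : |u (s, x) - u₀ x| ≤ 2 * b := by
          have := abs_sub (u (s, x)) (u₀ x)
          linarith [hx.2.2.1, k.2.2.1]
        have g3 : |e (s, x) - e₀ x| ≤ b := by
          rw [abs_le]
          constructor
          · linarith [hx.2.2.2.1, k.2.2.2.2]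
          · linarith [hx.2.2.2.2, k.2.2.2.1]
        rw [abs_of_nonneg (by positivity)]
        exact add_le_add (add_le_add g1 g2) g3
    have iC : IntegrableOn (fun _ : ℝ => C6 * s) (Ioo (-R0) R0) :=
      integrableOn_Ioo_of_ae (M := |C6 * s|) measurable_const (Eventually.of_forall fun _ => le_rfl)
    have iDC : IntegrableOn (fun x => C5 * (|ρ (s, x) - ρ₀ x| + |u (s, x) - u₀ x| +
        |e (s, x) - e₀ x|) + C6 * s) (Ioo (-R0) R0) := (iD.const_mul C5).add iC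
    have e2 : |J s - J0| ≤ ∫ x in Ioo (-R0) R0,
        (C5 * (|ρ (s, x) - ρ₀ x| + |u (s, x) - u₀ x| + |e (s, x) - e₀ x|) + C6 * s) := by
      rw [e1]
      refine abs_integral_le_integral_abs.trans ?_
      apply integral_mono_ae (h3.sub iN0).abs iDC
      apply ae_restrict_of_ae
      filter_upwards [h2] with x hx
      have hd : dist ((s, x) : ℝ × ℝ) (0, x) = s := by
        rw [Prod.dist_eq, dist_self, Real.dist_eq, sub_zero, abs_of_pos hs.1]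
        exact max_eq_left hs.1.le
      have k1 : |φ₁ (s, x) - φ₁ (0, x)| ≤ C * s := by
        have := hφ₁.dist_le_mul (s, x) (0, x)
        rwa [Real.dist_eq, hd] at this
      have k2 : |φ₂ (s, x) - φ₂ (0, x)| ≤ C * s := by
        have := hφ₂.dist_le_mul (s, x) (0, x)
        rwa [Real.dist_eq, hd] at this
      have k3 := di_alg2 hγ ha hx (hbox₀ x) (hM₁ s hsI x) (hM₂ s hsI x) k1 k2
      rw [hA1, hA2, hC5, hC6]
      refine k3.trans (le_of_eq ?_)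
      ring
    refine e2.trans ?_
    rw [integral_add (iD.const_mul C5) iC, integral_const_mul, integral_const_Ioo (by linarith)]
    have e3 : C5 * (∫ x in Ioo (-R0) R0,
        (|ρ (s, x) - ρ₀ x| + |u (s, x) - u₀ x| + |e (s, x) - e₀ x|)) ≤
        C5 * (κ * ε / (8 * (C5 + 1))) := mul_le_mul_of_nonneg_left h1.le hC50
    have hκε : 0 ≤ κ * ε := by positivity
    have e4 : C5 * (κ * ε / (8 * (C5 + 1))) ≤ κ * ε / 8 :=
      di_frac hC50 hκε (by norm_num)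
    have e5 : (R0 - -R0) * (C6 * s) ≤ (R0 - -R0) * (C6 * (κ * ε / (16 * (C6 * R0 + 1)))) :=
      mul_le_mul_of_nonneg_left (mul_le_mul_of_nonneg_left hs3 hC60) (by linarith)
    have e6 : (R0 - -R0) * (C6 * (κ * ε / (16 * (C6 * R0 + 1)))) ≤ κ * ε / 8 := by
      have h5 : (R0 - -R0) * (C6 * (κ * ε / (16 * (C6 * R0 + 1)))) =
          2 * ((C6 * R0) * (κ * ε / (16 * (C6 * R0 + 1)))) := by ring
      have h6 := di_frac (mul_nonneg hC60 hR0.le) hκε (by norm_num : (0 : ℝ) < 16)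
      rw [h5]
      linarith only [h6]
    linarith only [e3, e4, e5, e6]
  obtain ⟨hΨ₁c, hΨ₂c⟩ := hD.cont 0 h00
  have hJ0' : |J0 - ε * Ψ₁ (0, x0)| ≤ (γ - 1) * b * M * R0 * ε ^ 2 := by
    obtain ⟨S, hS, hSd⟩ := hD.deriv 0 h00
    have i1 : IntegrableOn (fun x => ρ₀ x * φ₁ (0, x)) (Ioo (-R0) R0) := by
      apply integrableOn_Ioo_of_ae (M := b * M) (hm.mul (sm mφ₁ 0))
      refine Eventually.of_forall fun x => ?_
      rw [Pi.mul_apply, abs_mul]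
      have k := hbox₀ x
      rw [abs_of_pos (ha.trans_le k.1)]
      exact mul_le_mul k.2.1 (hM₁ 0 h00 x) (abs_nonneg _) hb0.le
    have i2 : IntegrableOn (fun x => φ₂ (0, x)) (Ioo (-R0) R0) :=
      integrableOn_Ioo_of_ae (M := M) (sm mφ₂ 0) (Eventually.of_forall fun x => hM₂ 0 h00 x)
    have f1 := di_ftc hR0 hS hΨ₁c (fun x hx => (hSd x hx).1)
      (fun x hx => (hD.supp 0 h00 x hx).2.2.1) i1 x0
    have f2 := di_ftc0 hR0 hS hΨ₂c (fun x hx => (hSd x hx).2)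
      (fun x hx => (hD.supp 0 h00 x hx).2.2.2) i2
    have i3 : IntegrableOn (fun x => (γ - 1) * ρ₀ x * u₀ x ^ 2 / 2 * φ₂ (0, x))
        (Ioo (-R0) R0) := by
      apply integrableOn_Ioo_of_ae (M := (γ - 1) * b * ε ^ 2 / 2 * M)
      · have := sm mφ₂ 0
        fun_prop
      · refine Eventually.of_forall fun x => ?_
        have k := hbox₀ x
        have hr : 0 < ρ₀ x := ha.trans_le k.1
        have h5 : u₀ x ^ 2 ≤ ε ^ 2 := by
          rw [← sq_abs (u₀ x)]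
          exact pow_le_pow_left₀ (abs_nonneg _) (hu₀ε x) 2
        rw [abs_mul, abs_of_nonneg (by positivity)]
        refine mul_le_mul ?_ (hM₂ 0 h00 x) (abs_nonneg _) (by positivity)
        have h6 : (γ - 1) * ρ₀ x * u₀ x ^ 2 ≤ (γ - 1) * b * ε ^ 2 :=
          mul_le_mul (mul_le_mul_of_nonneg_left k.2.1 hγ0.le) h5 (sq_nonneg _) (by positivity)
        linarith
    have i4 : IntegrableOn (fun x => ε * (if x < x0 then ρ₀ x * φ₁ (0, x) else 0))
        (Ioo (-R0) R0) := by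
      apply integrableOn_Ioo_of_ae (M := ε * (b * M))
      · exact measurable_const.mul (Measurable.ite measurableSet_Iio (hm.mul (sm mφ₁ 0))
          measurable_const)
      · refine Eventually.of_forall fun x => ?_
        rw [abs_mul, abs_of_pos hε]
        refine mul_le_mul_of_nonneg_left ?_ hε.le
        split_ifs
        · have k := hbox₀ x
          rw [abs_mul, abs_of_pos (ha.trans_le k.1)]
          exact mul_le_mul k.2.1 (hM₁ 0 h00 x) (abs_nonneg _) hb0.le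
        · rw [abs_zero]; positivity
    have hpt : ∀ x, ρ₀ x * u₀ x * φ₁ (0, x) + (γ - 1) * (ρ₀ x * en (u₀ x) (e₀ x)) * φ₂ (0, x) =
        ε * (if x < x0 then ρ₀ x * φ₁ (0, x) else 0) +
        (p * φ₂ (0, x) + (γ - 1) * ρ₀ x * u₀ x ^ 2 / 2 * φ₂ (0, x)) := by
      intro x
      have k := hbox₀ x
      have hr : ρ₀ x ≠ 0 := (ha.trans_le k.1).ne'
      have h6 : (γ - 1) * (ρ₀ x * e₀ x) = p := by
        rw [he₀]
        have : γ - 1 ≠ 0 := hγ0.ne'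
        field_simp
      have h7 : ρ₀ x * u₀ x * φ₁ (0, x) = ε * (if x < x0 then ρ₀ x * φ₁ (0, x) else 0) := by
        rw [hu₀]
        simp only
        split_ifs
        · ring
        · ring
      rw [h7]
      unfold en
      rw [← h6]
      ring
    have e1 : J0 = ε * Ψ₁ (0, x0) + ∫ x in Ioo (-R0) R0,
        (γ - 1) * ρ₀ x * u₀ x ^ 2 / 2 * φ₂ (0, x) := by
      have i5 : IntegrableOn (fun x => p * φ₂ (0, x) +
          (γ - 1) * ρ₀ x * u₀ x ^ 2 / 2 * φ₂ (0, x)) (Ioo (-R0) R0) := (i2.const_mul p).add i3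
      rw [hJ0]
      simp only [hpt]
      rw [integral_add i4 i5, integral_add (i2.const_mul p) i3,
        integral_const_mul, integral_const_mul, f1, f2]
      ring
    rw [e1, add_sub_cancel_left]
    refine abs_integral_le_integral_abs.trans ?_
    have ic : IntegrableOn (fun _ : ℝ => (γ - 1) * b * ε ^ 2 / 2 * M) (Ioo (-R0) R0) :=
      integrableOn_Ioo_of_ae (M := |(γ - 1) * b * ε ^ 2 / 2 * M|) measurable_const
        (Eventually.of_forall fun _ => le_rfl)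
    have e2 : ∫ x in Ioo (-R0) R0, |(γ - 1) * ρ₀ x * u₀ x ^ 2 / 2 * φ₂ (0, x)| ≤
        ∫ _ in Ioo (-R0) R0, (γ - 1) * b * ε ^ 2 / 2 * M := by
      apply integral_mono_ae i3.abs ic
      refine Eventually.of_forall fun x => ?_
      have k := hbox₀ x
      have hr : 0 < ρ₀ x := ha.trans_le k.1
      have h5 : u₀ x ^ 2 ≤ ε ^ 2 := by
        rw [← sq_abs (u₀ x)]
        exact pow_le_pow_left₀ (abs_nonneg _) (hu₀ε x) 2
      simp only
      rw [abs_mul, abs_of_nonneg (by positivity)]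
      refine mul_le_mul ?_ (hM₂ 0 h00 x) (abs_nonneg _) (by positivity)
      have h6 : (γ - 1) * ρ₀ x * u₀ x ^ 2 ≤ (γ - 1) * b * ε ^ 2 :=
        mul_le_mul (mul_le_mul_of_nonneg_left k.2.1 hγ0.le) h5 (sq_nonneg _) (by positivity)
      linarith
    refine e2.trans ?_
    rw [integral_const_Ioo (by linarith)]
    exact le_of_eq (by ring)
  -- the functional
  have hJI : ∀ᵐ t : ℝ, t ∈ Ioo 0 T0 →
      |(∫ x, (u (t, x) * (ρ₀ x * φ₁ (t, x)) +
          (pr γ (ρ (t, x)) (e (t, x)) - p) * φ₂ (t, x))) - J t| ≤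
      M * (ε * σ * (b + C₂) / 2) + (γ - 1) * b / 2 * M * (C₂ * ε ^ 2) := by
    filter_upwards [key, iN, hE1] with t h1 h2 h3 ht
    have h1 := h1 ht M 0 ((γ - 1) * b / 2 * M) hM0 le_rfl (by positivity)
    have h2 := h2 ht
    have h3 := h3 ⟨ht.1, ht.2.trans hT⟩
    have htI : t ∈ Icc 0 T0 := ⟨ht.1.le, ht.2.le⟩
    obtain ⟨hc₁, hc₂⟩ := hD.cont t htI
    obtain ⟨S, hS, hSd⟩ := hD.deriv t htI
    have i2 : IntegrableOn (fun x => φ₂ (t, x)) (Ioo (-R0) R0) :=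
      integrableOn_Ioo_of_ae (M := M) (sm mφ₂ t) (Eventually.of_forall fun x => hM₂ t htI x)
    have f2 := di_ftc0 hR0 hS hc₂ (fun x hx => (hSd x hx).2)
      (fun x hx => (hD.supp t htI x hx).2.2.2) i2
    have hI : ∫ x, (u (t, x) * (ρ₀ x * φ₁ (t, x)) +
          (pr γ (ρ (t, x)) (e (t, x)) - p) * φ₂ (t, x)) =
        ∫ x in Ioo (-R0) R0, (u (t, x) * (ρ₀ x * φ₁ (t, x)) +
          (pr γ (ρ (t, x)) (e (t, x)) - p) * φ₂ (t, x)) := by
      symm
      apply setIntegral_eq_integral_of_forall_compl_eq_zero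
      intro x hx
      have h5 : R0 ≤ |x| := by
        by_contra hcon
        push Not at hcon
        exact hx ⟨(abs_lt.1 hcon).1, (abs_lt.1 hcon).2⟩
      rw [hs₁ t htI x h5, hs₂ t htI x h5]
      ring
    have m1 := sm mφ₁ t
    have m2 := sm mφ₂ t
    have m3 := sm mρ t
    have m4 := sm mu t
    have m5 := sm mq t
    have i1 : IntegrableOn (fun x => u (t, x) * (ρ₀ x * φ₁ (t, x)) +
          (pr γ (ρ (t, x)) (e (t, x)) - p) * φ₂ (t, x)) (Ioo (-R0) R0) := by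
      apply integrableOn_Ioo_of_ae (M := b * (b * M) + ((γ - 1) * b * b + |p|) * M)
      · exact (m4.mul (hm.mul m1)).add ((m5.sub measurable_const).mul m2)
      · filter_upwards [h3] with x hx
        refine (abs_add_le _ _).trans (add_le_add ?_ ?_)
        · rw [abs_mul, abs_mul]
          have k := hbox₀ x
          rw [abs_of_pos (ha.trans_le k.1)]
          exact mul_le_mul hx.2.2.1 (mul_le_mul k.2.1 (hM₁ t htI x) (abs_nonneg _) hb0.le)
            (mul_nonneg (ha.trans_le k.1).le (abs_nonneg _)) hb0.le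
        · rw [abs_mul]
          exact mul_le_mul (hqb hx) (hM₂ t htI x) (abs_nonneg _) (by positivity)
    rw [hI, hJ]
    simp only
    rw [abs_sub_comm]
    have i5 : IntegrableOn (fun x => (A1 (t, x) * φ₁ (t, x) + A2 (t, x) * φ₂ (t, x)) -
        (u (t, x) * (ρ₀ x * φ₁ (t, x)) +
        (pr γ (ρ (t, x)) (e (t, x)) - p) * φ₂ (t, x))) (Ioo (-R0) R0) := h2.sub i1
    have i6 : IntegrableOn (fun x => (A1 (t, x) * φ₁ (t, x) + A2 (t, x) * φ₂ (t, x)) -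
        (u (t, x) * (ρ₀ x * φ₁ (t, x)) +
        (pr γ (ρ (t, x)) (e (t, x)) - p) * φ₂ (t, x)) - p * φ₂ (t, x)) (Ioo (-R0) R0) :=
      i5.sub (i2.const_mul p)
    have e1 : (∫ x in Ioo (-R0) R0, (A1 (t, x) * φ₁ (t, x) + A2 (t, x) * φ₂ (t, x))) -
        ∫ x in Ioo (-R0) R0, (u (t, x) * (ρ₀ x * φ₁ (t, x)) +
          (pr γ (ρ (t, x)) (e (t, x)) - p) * φ₂ (t, x)) =
        ∫ x in Ioo (-R0) R0, ((A1 (t, x) * φ₁ (t, x) + A2 (t, x) * φ₂ (t, x)) -
          (u (t, x) * (ρ₀ x * φ₁ (t, x)) +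
          (pr γ (ρ (t, x)) (e (t, x)) - p) * φ₂ (t, x)) - p * φ₂ (t, x)) := by
      rw [integral_sub i5 (i2.const_mul p), integral_sub h2 i1, integral_const_mul, f2]
      ring
    rw [e1]
    refine abs_integral_le_integral_abs.trans (le_trans ?_ (h1.trans (le_of_eq (by ring))))
    apply integral_mono_ae i6.abs
    · apply integrableOn_Ioo_of_ae (M := M * (b * b) + 0 + (γ - 1) * b / 2 * M * b ^ 2)
      · exact ((measurable_const.mul ((m3.sub hm).abs.mul m4.abs)).add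
          (measurable_const.mul ((m5.sub measurable_const).abs.mul m4.abs))).add
          (measurable_const.mul (m4.pow_const 2))
      · filter_upwards [h3] with x hx
        have k := hbox₀ x
        have g1 : |ρ (t, x) - ρ₀ x| ≤ b := by
          rw [abs_le]
          constructor
          · linarith [hx.1, k.2.1]
          · linarith [hx.2.1, k.1]
        have g5 : u (t, x) ^ 2 ≤ b ^ 2 := by
          rw [← sq_abs (u (t, x))]
          exact pow_le_pow_left₀ (abs_nonneg _) hx.2.2.1 2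
        rw [abs_of_nonneg (by positivity), zero_mul]
        refine add_le_add (add_le_add ?_ le_rfl) ?_
        · exact mul_le_mul_of_nonneg_left (mul_le_mul g1 hx.2.2.1 (abs_nonneg _) hb0.le) hM0
        · exact mul_le_mul_of_nonneg_left g5 (by positivity)
    · apply ae_restrict_of_ae
      filter_upwards [h3] with x hx
      have hρ : 0 < ρ (t, x) := ha.trans_le hx.1
      have e2 : (A1 (t, x) * φ₁ (t, x) + A2 (t, x) * φ₂ (t, x)) -
          (u (t, x) * (ρ₀ x * φ₁ (t, x)) +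
          (pr γ (ρ (t, x)) (e (t, x)) - p) * φ₂ (t, x)) - p * φ₂ (t, x) =
          (ρ (t, x) - ρ₀ x) * u (t, x) * φ₁ (t, x) +
          (γ - 1) * ρ (t, x) / 2 * u (t, x) ^ 2 * φ₂ (t, x) := by
        rw [hA1, hA2]
        unfold en pr
        ring
      rw [e2, zero_mul, add_zero]
      refine (abs_add_le _ _).trans (add_le_add ?_ ?_)
      · rw [abs_mul, abs_mul, mul_comm M]
        exact mul_le_mul_of_nonneg_left (hM₁ t htI x) (by positivity)
      · rw [abs_mul, abs_of_nonneg (by positivity)]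
        have h6 : (γ - 1) * ρ (t, x) / 2 ≤ (γ - 1) * b / 2 := by
          have := mul_le_mul_of_nonneg_left hx.2.1 hγ0.le
          linarith
        calc (γ - 1) * ρ (t, x) / 2 * u (t, x) ^ 2 * |φ₂ (t, x)| ≤
              (γ - 1) * b / 2 * u (t, x) ^ 2 * M :=
              mul_le_mul (mul_le_mul_of_nonneg_right h6 (sq_nonneg _)) (hM₂ t htI x)
                (abs_nonneg _) (by positivity)
          _ = (γ - 1) * b / 2 * M * u (t, x) ^ 2 := by ring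
  -- collect
  obtain ⟨τ, hτ, hJτ⟩ := hJs
  filter_upwards [hJI, hJJ] with t h1 h2 ht
  have h1 := h1 ht
  have h2 := h2 ht
  obtain ⟨s, hs, h3, h4⟩ : ∃ s : ℝ, s ∈ Ioo 0 (min t τ) ∧ |J t - J s| ≤ κ₁ * (t - s) ∧
      |J s - J0| ≤ κ / 4 * ε := by
    have hne : (ae (volume.restrict (Ioo 0 (min t τ)))).NeBot := by
      rw [ae_neBot, Ne, Measure.restrict_eq_zero, Real.volume_Ioo, ENNReal.ofReal_eq_zero, not_le,
        sub_zero]
      exact lt_min ht.1 hτ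
    have h5 : ∀ᵐ s ∂(volume.restrict (Ioo 0 (min t τ))), s ∈ Ioo 0 (min t τ) ∧
        |J t - J s| ≤ κ₁ * (t - s) ∧ |J s - J0| ≤ κ / 4 * ε := by
      rw [ae_restrict_iff' measurableSet_Ioo]
      filter_upwards [h2, hJτ] with s h2 h3 hs
      exact ⟨hs, h2 ⟨hs.1, hs.2.trans_le (min_le_left _ _)⟩,
        h3 ⟨hs.1, hs.2.trans_le (min_le_right _ _)⟩⟩
    obtain ⟨s, hs⟩ := h5.exists
    exact ⟨s, hs⟩
  have h5 : κ₁ * (t - s) ≤ κ₁ * T0 :=
    mul_le_mul_of_nonneg_left (by linarith [hs.1, ht.2]) hκ₁0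
  have h6 : κ₁ * T0 + (M * (ε * σ * (b + C₂) / 2) + (γ - 1) * b / 2 * M * (C₂ * ε ^ 2)) +
      (γ - 1) * b * M * R0 * ε ^ 2 = ε * (σ * P1 + ε * P2) := by
    rw [hκ₁, hP1, hP2]
    ring
  have h7 : σ * P1 ≤ κ / 4 := by
    rw [hσ, mul_comm]
    exact di_frac hP10 hκ.le (by norm_num)
  have h8 : ε * P2 ≤ κ / 4 := by
    have h9 : ε * P2 ≤ κ / (4 * (P2 + 1)) * P2 := mul_le_mul_of_nonneg_right hε2 hP20
    refine h9.trans ?_
    rw [mul_comm]
    exact di_frac hP20 hκ.le (by norm_num)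
  have h9 : ε * (σ * P1 + ε * P2) ≤ ε * (κ / 4 + κ / 4) :=
    mul_le_mul_of_nonneg_left (add_le_add h7 h8) hε.le
  obtain ⟨I, hI⟩ : ∃ I : ℝ, I = ∫ x, (u (t, x) * (ρ₀ x * φ₁ (t, x)) +
      (pr γ (ρ (t, x)) (e (t, x)) - p) * φ₂ (t, x)) := ⟨_, rfl⟩
  rw [← hI] at h1 ⊢
  have t1 := abs_le.1 h1
  have t2 := abs_le.1 h3
  have t3 := abs_le.1 h4
  have t4 := abs_le.1 hJ0'
  have t5 : 0 < κ * ε := by positivity
  rw [abs_le]
  constructor
  · linarith only [t1.1, t2.1, t3.1, t4.1, t5, h5, h6, h9]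
  · linarith only [t1.2, t2.2, t3.2, t4.2, t5, h5, h6, h9]

end Helper51.TH
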