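import Pool.Agent.Helper51.TH.Defs

/-!
TH-N11. Gluing Lipschitz functions along vertical lines.

PROOF. Let `clamp t = max 0 (min t T0)` (1-Lipschitz, `= t` on `[0, T0]`) and
`F (t, y) = A (reg X N y) (clamp t, y)`. For `y` let `k = reg X N y`; since `X 1 < X 2 < ... < X N`, the filter set in `reg`
is `{i < k}` (`i < N` and `X (i+1) ≤ y` iff `i < k`). Then for all `(t, y)`
`F (t, y) = A 0 (clamp t, y) + ∑_{i < N} (A (i+1) - A i) (clamp t, max y (X (i+1)))`: for `i < k` the summand is
`(A (i+1) - A i) (clamp t, y)`, for `i ≥ k` it is `(A (i+1) - A i) (clamp t, X (i+1)) = 0` (matching); the sum telescopes.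
Every summand is Lipschitz (composition with the 1-Lipschitz map `(t, y) ↦ (clamp t, max y c)`; sup distance of
`ℝ × ℝ`), hence `F` is. Derivatives: if `0 < t < T0` and `y ≠ X (i+1)` for all `i < N` then near `(t, y)` one has
`F = A (reg X N y)` (locally constant `reg`, `clamp t = t`), so the `fderiv`s agree (`Filter.EventuallyEq.fderiv_eq`).
-/

open MeasureTheory Set Filter Topology
open scoped ENNReal NNReal

namespace Helper51.TH

open Helper73.EU

theorem reg_le (X : ℕ → ℝ) (N : ℕ) (x : ℝ) : reg X N x ≤ N := by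
  unfold reg
  exact (Finset.card_filter_le _ _).trans (Finset.card_range N).le

/-- `i < reg X N x` iff the interface `i + 1` is at or to the left of `x`. -/
theorem lt_reg_iff {X : ℕ → ℝ} {N : ℕ} (hX : ∀ i, 1 ≤ i → X i < X (i + 1)) {x : ℝ} {i : ℕ}
    (hi : i < N) : i < reg X N x ↔ X (i + 1) ≤ x := by
  have hmono : StrictMono (fun j => X (j + 1)) :=
    strictMono_nat_of_lt_succ fun j => hX (j + 1) (by omega)
  unfold reg
  constructor
  · intro h
    by_contra hc
    have h1 : ((Finset.range N).filter fun j => X (j + 1) ≤ x) ⊆ Finset.range i := by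
      intro j hj
      rw [Finset.mem_filter] at hj
      rw [Finset.mem_range]
      by_contra hji
      have h2 : X (i + 1) ≤ X (j + 1) := hmono.monotone (not_lt.1 hji)
      exact hc (h2.trans hj.2)
    have h3 := Finset.card_le_card h1
    rw [Finset.card_range] at h3
    omega
  · intro h
    have h1 : Finset.range (i + 1) ⊆ ((Finset.range N).filter fun j => X (j + 1) ≤ x) := by
      intro j hj
      rw [Finset.mem_range] at hj
      rw [Finset.mem_filter, Finset.mem_range]
      have h2 : X (j + 1) ≤ X (i + 1) := hmono.monotone (by omega)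
      exact ⟨by omega, h2.trans h⟩
    have h3 := Finset.card_le_card h1
    rw [Finset.card_range] at h3
    omega

/-- telescoping sum up to `k ≤ N` -/
private theorem glue_tele (a : ℕ → ℝ) {k N : ℕ} (h : k ≤ N) :
    a k = a 0 + ∑ i ∈ Finset.range N, if i < k then a (i + 1) - a i else 0 := by
  rw [← Finset.sum_filter]
  have h1 : (Finset.range N).filter (fun i => i < k) = Finset.range k := by
    ext i
    rw [Finset.mem_filter, Finset.mem_range, Finset.mem_range]
    omega
  rw [h1, Finset.sum_range_sub]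
  ring

/-- the region is locally constant away from the interfaces -/
private theorem glue_loc (X : ℕ → ℝ) (N : ℕ) (x : ℝ) (hx : ∀ i < N, x ≠ X (i + 1)) :
    ∀ᶠ y in 𝓝 x, reg X N y = reg X N x := by
  have h1 : ∀ i ∈ Finset.range N, ∀ᶠ y in 𝓝 x, (X (i + 1) ≤ y ↔ X (i + 1) ≤ x) := by
    intro i hi
    rcases lt_or_gt_of_ne (hx i (Finset.mem_range.1 hi)) with h | h
    · filter_upwards [Iio_mem_nhds h] with y hy
      have hy' : y < X (i + 1) := hy
      constructor
      · intro h2
        exact absurd h2 (not_le.2 hy')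
      · intro h2
        exact absurd h2 (not_le.2 h)
    · filter_upwards [Ioi_mem_nhds h] with y hy
      have hy' : X (i + 1) < y := hy
      exact ⟨fun _ => le_of_lt h, fun _ => hy'.le⟩
  have h2 := (Filter.eventually_all_finset (Finset.range N)).2 h1
  filter_upwards [h2] with y hy
  unfold reg
  rw [Finset.filter_congr hy]

/-- the glued function as a sum -/
private theorem glue_sum {X : ℕ → ℝ} {N : ℕ} (hX : ∀ i, 1 ≤ i → X i < X (i + 1))
    (b : ℕ → ℝ → ℝ) (hm : ∀ i < N, b i (X (i + 1)) = b (i + 1) (X (i + 1))) (y : ℝ) :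
    b (reg X N y) y = b 0 y + ∑ i ∈ Finset.range N,
      (b (i + 1) (max y (X (i + 1))) - b i (max y (X (i + 1)))) := by
  rw [glue_tele (fun k => b k y) (reg_le X N y)]
  congr 1
  refine Finset.sum_congr rfl fun i hi => ?_
  rw [Finset.mem_range] at hi
  split_ifs with h
  · rw [max_eq_left ((lt_reg_iff hX hi).1 h)]
  · have h1 : ¬ X (i + 1) ≤ y := fun h2 => h ((lt_reg_iff hX hi).2 h2)
    rw [max_eq_right (not_le.1 h1).le, hm i hi, sub_self]

theorem glue {X : ℕ → ℝ} {N : ℕ} {T0 : ℝ} (hX : ∀ i, 1 ≤ i → X i < X (i + 1)) (hT0 : 0 < T0)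
    {A : ℕ → ℝ × ℝ → ℝ} (hA : ∀ i ≤ N, ∃ C : ℝ≥0, LipschitzWith C (A i))
    (hm : ∀ i < N, ∀ t ∈ Icc 0 T0, A i (t, X (i + 1)) = A (i + 1) (t, X (i + 1))) :
    (∃ C : ℝ≥0, LipschitzWith C
      (fun z : ℝ × ℝ => A (reg X N z.2) (max 0 (min z.1 T0), z.2))) ∧
    ∀ z : ℝ × ℝ, z ∈ Strip T0 → (∀ i < N, z.2 ≠ X (i + 1)) →
      dt (fun z : ℝ × ℝ => A (reg X N z.2) (max 0 (min z.1 T0), z.2)) z =
        dt (A (reg X N z.2)) z ∧
      dx (fun z : ℝ × ℝ => A (reg X N z.2) (max 0 (min z.1 T0), z.2)) z =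
        dx (A (reg X N z.2)) z := by
  constructor
  · have hF : (fun z : ℝ × ℝ => A (reg X N z.2) (max 0 (min z.1 T0), z.2)) =
        fun z : ℝ × ℝ => A 0 (max 0 (min z.1 T0), z.2) + ∑ i ∈ Finset.range N,
          (A (i + 1) (max 0 (min z.1 T0), max z.2 (X (i + 1))) -
            A i (max 0 (min z.1 T0), max z.2 (X (i + 1)))) := by
      funext z
      have hcl : max 0 (min z.1 T0) ∈ Icc 0 T0 :=
        ⟨le_max_left _ _, max_le hT0.le (min_le_right _ _)⟩
      exact glue_sum hX (fun i y => A i (max 0 (min z.1 T0), y))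
        (fun i hi => hm i hi _ hcl) z.2
    rw [hF]
    have hc1 : LipschitzWith 1 (fun z : ℝ × ℝ => max 0 (min z.1 T0)) :=
      (LipschitzWith.prod_fst.min_const T0).const_max 0
    have hc2 : ∀ c : ℝ, LipschitzWith 1
        (fun z : ℝ × ℝ => ((max 0 (min z.1 T0), max z.2 c) : ℝ × ℝ)) := by
      intro c
      have := hc1.prodMk (LipschitzWith.prod_snd.max_const c)
      simpa using this
    have hc3 : LipschitzWith 1
        (fun z : ℝ × ℝ => ((max 0 (min z.1 T0), z.2) : ℝ × ℝ)) := by
      have := hc1.prodMk LipschitzWith.prod_snd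
      simpa using this
    have hs : ∀ s : Finset ℕ, s ⊆ Finset.range N → ∃ C : ℝ≥0, LipschitzWith C
        (fun z : ℝ × ℝ => ∑ i ∈ s,
          (A (i + 1) (max 0 (min z.1 T0), max z.2 (X (i + 1))) -
            A i (max 0 (min z.1 T0), max z.2 (X (i + 1))))) := by
      intro s
      induction s using Finset.induction_on with
      | empty =>
        intro _
        exact ⟨0, by simp⟩
      | insert a s ha ih =>
        intro hsub
        obtain ⟨C, hC⟩ := ih ((Finset.subset_insert a s).trans hsub)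
        have haN : a < N := Finset.mem_range.1 (hsub (Finset.mem_insert_self a s))
        obtain ⟨C1, hC1⟩ := hA (a + 1) (by omega)
        obtain ⟨C2, hC2⟩ := hA a (by omega)
        have h4 := ((hC1.comp (hc2 (X (a + 1)))).sub (hC2.comp (hc2 (X (a + 1))))).add hC
        refine ⟨C1 * 1 + C2 * 1 + C, ?_⟩
        simp only [Finset.sum_insert ha]
        exact h4
    obtain ⟨C, hC⟩ := hs (Finset.range N) subset_rfl
    obtain ⟨C0, hC0⟩ := hA 0 (by omega)
    exact ⟨_, (hC0.comp hc3).add hC⟩
  · intro z hz hx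
    have h1 : ∀ᶠ w : ℝ × ℝ in 𝓝 z, reg X N w.2 = reg X N z.2 :=
      continuous_snd.continuousAt.eventually (glue_loc X N z.2 hx)
    have h2 : ∀ᶠ w : ℝ × ℝ in 𝓝 z, w.1 ∈ Ioo 0 T0 :=
      continuous_fst.continuousAt.eventually (Ioo_mem_nhds hz.1 hz.2)
    have h3 : (fun w : ℝ × ℝ => A (reg X N w.2) (max 0 (min w.1 T0), w.2)) =ᶠ[𝓝 z]
        A (reg X N z.2) := by
      filter_upwards [h1, h2] with w hw1 hw2
      rw [hw1, min_eq_left hw2.2.le, max_eq_right hw2.1.le]
    unfold dt dx
    rw [h3.fderiv_eq]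
    exact ⟨rfl, rfl⟩

/-- The same gluing for functions of `x`: continuity, and the derivative away from the
interfaces. -/
theorem glue_slice {X : ℕ → ℝ} {N : ℕ} (hX : ∀ i, 1 ≤ i → X i < X (i + 1))
    {B B' : ℕ → ℝ → ℝ} (hB : ∀ i ≤ N, ∀ x, HasDerivAt (B i) (B' i x) x)
    (hm : ∀ i < N, B i (X (i + 1)) = B (i + 1) (X (i + 1))) :
    Continuous (fun x => B (reg X N x) x) ∧
    ∀ x : ℝ, (∀ i < N, x ≠ X (i + 1)) →
      HasDerivAt (fun x => B (reg X N x) x) (B' (reg X N x) x) x := by
  constructor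
  · have hF : (fun x => B (reg X N x) x) = fun y => B 0 y + ∑ i ∈ Finset.range N,
        (B (i + 1) (max y (X (i + 1))) - B i (max y (X (i + 1)))) := by
      funext y
      exact glue_sum hX B hm y
    rw [hF]
    have hc : ∀ i ≤ N, Continuous (B i) := fun i hi =>
      continuous_iff_continuousAt.2 fun x => (hB i hi x).continuousAt
    refine (hc 0 (by omega)).add (continuous_finsetSum _ fun i hi => ?_)
    have hiN : i < N := Finset.mem_range.1 hi
    exact ((hc (i + 1) (by omega)).comp (continuous_id.max continuous_const)).sub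
      ((hc i (by omega)).comp (continuous_id.max continuous_const))
  · intro x hx
    refine (hB (reg X N x) (reg_le X N x) x).congr_of_eventuallyEq ?_
    filter_upwards [glue_loc X N x hx] with y hy
    rw [hy]

end Helper51.TH
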