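import Pool.Agent.Helper51.TH.Adm

/-!
TH-P22. One step of the Glimm scheme preserves the good sequences.

PROOF. Let `f L R = fan γ L R ξ` with `ξ = θ'/ν` (`θ' < 1/2`) or `ξ = (θ' - 1)/ν`. `win_step` with `U' = stp γ ν U θ'`: for
every `M`, `win U' M <+ ileave f (win U (M+1))`.
For each pair `L = U i`, `R = U (i+1)`: `|ra|, |rb| ≤ Am (waves (win U M)) ≤ C FF ≤ C δ ≤ ζ₁/8` for large `M`
(`Adm.list`; the pair is an infix of the window), so `L.z - ra ≥ ζ₁/2 - ζ₁/8 > 0` and `fan_split` applies (`infix_win`).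
`FF_ileave`: the functionals of `ileave f (win U (M+1))` are those of `win U (M+1)`. All its states are in the wide box
(`mem_ileave`, `fan_bounds`, `Adm.pair`): `z ∈ [ζ₁/2 - ζ₁/8, 2 ζ₂ + ζ₁/8]` (more precisely `|a| + |b| ≤ Am ≤ ζ₁/8`),
`|l| ≤ Λ₀ + 5 + C |a| ≤ Λ₀ + 5 + 1/8`. (`ζ₁ ≤ ζ₂` because `w₀` is in the box.) `sub_state` gives `ff, vv, gg` for `U'` and the
monotonicity. `left`: for `i ≤ N - 1` all states involved are `w₀`, and `fan γ w₀ w₀ ξ = w₀` (`ra = rb = 0` by `ra_eq`; the fan with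
zero amplitudes is constant). `box`: for `i` take `M` so large that the window contains `i` and an index `≤ N - 1`; its states are
in the wide box, so `Adm.list` and `osc_le` give `|z - w₀.z| ≤ C δ ≤ ζ₁/8`, `|u - w₀.u| ≤ 1/8`,
`|l - w₀.l| ≤ 2 V₁ + 1/8 ≤ π + 1/8 < 5` (`V₁ ≤ π/2`: from `hV`, `hθ`, `hμ`; if `V₁ < 0` then `vv` is impossible since
`VV ≥ 0`).
NOTE (used instead of `C |a| ≤ 1/8`, which does not follow from `Adm`): `left_small`: the two-element list `[L, m]`, `m` the state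
behind the 1-shock of amplitude `a'`, `|a'| ≤ |a|`, has no content and `FF = sin θ exp(L.l/2) |a'| ≤ δ`, so if `sj a' ≤ 1` then
`Adm.list` gives `sj a' = |m.l - L.l| ≤ C δ ≤ 1/8`; by continuity of `t ↦ sj (t a)` on `[0, 1]` this holds for `a` itself.
-/

open Set Filter Topology

namespace Helper51.TH

/-- The good sequences of states. -/
structure Good (γ ζ₁ ζ₂ Λ₀ U₀ θ μ V₁ K δ : ℝ) (w₀ : St) (U : ℤ → St) : Prop where
  left : ∃ N : ℤ, ∀ i ≤ N, U i = w₀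
  box : ∀ i, InB (ζ₁ / 2) (2 * ζ₂) (Λ₀ + 5) (U i) ∧ |(U i).u| ≤ U₀ + 1
  ff : ∀ M : ℕ, FF γ θ μ K (win U M) ≤ δ
  vv : ∀ M : ℕ, VV γ (win U M) ≤ V₁
  gg : ∀ M : ℕ, VV γ (win U M) + FF γ θ μ K (win U M) ≤ V₁

/-- One step of the scheme with the sampling parameter `θ'` (position in the cell); `ν` is the ratio
of time step and mesh width. -/
noncomputable def stp (γ ν : ℝ) (U : ℤ → St) (θ' : ℝ) : ℤ → St := fun i =>
  if θ' < 1 / 2 then fan γ (U (i - 1)) (U i) (θ' / ν)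
  else fan γ (U i) (U (i + 1)) ((θ' - 1) / ν)

private theorem sj_zero {γ : ℝ} (hγ : 1 < γ) (z : ℝ) : sj γ 0 z = 0 := by
  obtain ⟨C, _, h⟩ := cubic_S hγ
  unfold sj
  rw [zero_div]
  exact h.1 0 le_rfl

private theorem hj_zero (γ z l : ℝ) : hj γ 0 z l = 0 := by
  unfold hj
  rw [zero_div, GG_of_nonneg le_rfl, mul_zero, mul_zero]

private theorem FF_two (γ θ μ K : ℝ) (L R : St) : FF γ θ μ K [L, R] =
    Real.sin θ * (Real.exp (L.l / 2) * |ra γ L R| + Real.exp (R.l / 2) * |rb γ L R|) := by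
  unfold FF
  simp only [waves, As, Qp, Vc, wt, wv, List.map_nil, List.sum_nil, mul_zero, add_zero]
  ring

private theorem VV_two (γ : ℝ) (L R : St) : VV γ [L, R] = |sg γ L R| / 2 := by
  simp [VV, waves, Vc, wv]

private theorem Am_two (γ : ℝ) (L R : St) : Am (waves γ [L, R]) = |ra γ L R| + |rb γ L R| := by
  simp [waves, Am, wv]

private theorem tvl_two (f : St → ℝ) (L R : St) : tvl f [L, R] = |f R - f L| := by
  simp [tvl]

/-- the pair `U i, U (i + 1)` is an infix of the window -/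
private theorem pair_infix (U : ℤ → St) (M : ℕ) (i : ℤ) (h1 : -(M : ℤ) ≤ i)
    (h2 : i + 1 ≤ (M : ℤ)) : [U i, U (i + 1)] <:+: win U M := by
  obtain ⟨k, hk⟩ : ∃ k : ℕ, (k : ℤ) = i + M := ⟨(i + M).toNat, Int.toNat_of_nonneg (by linarith)⟩
  obtain ⟨r, hr⟩ : ∃ r : ℕ, 2 * M + 1 = k + (2 + r) := ⟨2 * M + 1 - k - 2, by omega⟩
  unfold win
  rw [hr, List.range_add, List.range_add, List.map_append, List.map_append, List.map_append]
  have e1 : ((k + 0 : ℕ) : ℤ) - M = i := by push_cast; omega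
  have e2 : ((k + 1 : ℕ) : ℤ) - M = i + 1 := by push_cast; omega
  have e : [U i, U (i + 1)] =
      List.map (fun j : ℕ => U ((j : ℤ) - M)) (List.map (fun x => k + x) (List.range 2)) := by
    simp only [show List.range 2 = [0, 1] from rfl, List.map_cons, List.map_nil]
    rw [e1, e2]
  rw [e]
  exact ⟨_, _, List.append_assoc _ _ _⟩

private theorem mem_win' (U : ℤ → St) (M : ℕ) (i : ℤ) (h1 : -(M : ℤ) ≤ i)
    (h2 : i ≤ (M : ℤ)) : U i ∈ win U M := by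
  obtain ⟨k, hk⟩ : ∃ k : ℕ, (k : ℤ) = i + M := ⟨(i + M).toNat, Int.toNat_of_nonneg (by linarith)⟩
  unfold win
  rw [List.mem_map]
  refine ⟨k, List.mem_range.2 (by omega), ?_⟩
  congr 1
  omega

/-- the entropy jump of a 1-wave of the scheme is small -/
private theorem left_small {γ ζ₁ ζ₂ Λ₀ U₀ θ μ V₁ K δ Λc C : ℝ}
    (hA : Adm γ ζ₁ ζ₂ Λ₀ U₀ θ μ V₁ K δ Λc C) (hζ : ζ₁ ≤ ζ₂) (hV : 0 ≤ V₁) {L : St}
    (hL : InB (ζ₁ / 2) (2 * ζ₂) (Λ₀ + 5) L) {a : ℝ} (ha : |a| ≤ ζ₁ / 8)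
    (hF : Real.sin θ * (Real.exp (L.l / 2) * |a|) ≤ δ) : sj γ a L.z ≤ 1 / 8 := by
  have hζ0 := hA.hζ
  have hθ := hA.hθ
  have hsin : 0 ≤ Real.sin θ := by
    have h1 : 0 ≤ μ * V₁ := mul_nonneg (by linarith [hA.hμ]) hV
    have h2 := hA.hV
    exact Real.sin_nonneg_of_nonneg_of_le_pi hθ.le (by linarith [Real.pi_pos])
  obtain ⟨hz1, hz2, hl⟩ := hL
  have hLz : 0 < L.z := by linarith
  have key : ∀ a', |a'| ≤ |a| → sj γ a' L.z ≤ 1 → sj γ a' L.z ≤ 1 / 8 := by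
    intro a' ha' hs
    have hs0 : 0 ≤ sj γ a' L.z := S0_nonneg hA.hγ _
    obtain ⟨m, hm⟩ : ∃ m : St, m = ⟨L.z - a', L.u + hj γ a' L.z L.l, L.l + sj γ a' L.z⟩ := ⟨_, rfl⟩
    have hmz : m.z = L.z - a' := by rw [hm]
    have hmu : m.u = L.u + hj γ a' L.z L.l := by rw [hm]
    have hml : m.l = L.l + sj γ a' L.z := by rw [hm]
    have ha2 := abs_le.1 (ha'.trans ha)
    have hl2 := abs_le.1 hl
    have hBL : InB (ζ₁ / 4) (4 * ζ₂) (Λ₀ + 6) L :=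
      ⟨by linarith, by linarith, by linarith⟩
    have hBm : InB (ζ₁ / 4) (4 * ζ₂) (Λ₀ + 6) m := by
      refine ⟨by rw [hmz]; linarith [ha2.2], by rw [hmz]; linarith [ha2.1], ?_⟩
      rw [hml, abs_le]
      constructor <;> linarith [hl2.1, hl2.2]
    have hmz0 : 0 < m.z := by linarith [hBm.1]
    have hR : Rie γ L m a' 0 := by
      refine ⟨by rw [hmz]; ring, ?_⟩
      rw [hmu, hj_zero]
      ring
    obtain ⟨hra, hrb⟩ := ra_eq hA.hγ hLz hmz0 hR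
    have hsg : sg γ L m = 0 := by
      unfold sg
      rw [hra, hrb, sj_zero hA.hγ, hml]
      ring
    have hFF : FF γ θ μ K [L, m] ≤ δ := by
      rw [FF_two, hra, hrb, abs_zero, mul_zero, add_zero]
      refine le_trans ?_ hF
      exact mul_le_mul_of_nonneg_left (mul_le_mul_of_nonneg_left ha' (Real.exp_pos _).le) hsin
    have hVV : VV γ [L, m] ≤ V₁ := by
      rw [VV_two, hsg, abs_zero, zero_div]
      exact hV
    have h1 := (hA.list [L, m] (by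
      intro w hw
      rcases List.mem_cons.1 hw with h | h
      · rw [h]; exact hBL
      · rw [List.mem_singleton.1 h]; exact hBm) hFF hVV).2.2.2.2
    rw [tvl_two, VV_two, hsg, abs_zero, zero_div, mul_zero, zero_add, hml, add_sub_cancel_left,
      abs_of_nonneg hs0] at h1
    exact h1.trans ((mul_le_mul_of_nonneg_left hFF hA.hC.le).trans hA.small.2)
  by_contra hcon
  have h1 : 1 < sj γ a L.z := by
    by_contra h
    exact hcon (key a le_rfl (not_lt.1 h))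
  have hcont : Continuous (fun t : ℝ => sj γ (t * a) L.z) := by
    unfold sj
    exact (S0_continuous hA.hγ).comp ((continuous_id.mul continuous_const).div_const _)
  have h2 := intermediate_value_Icc (zero_le_one' ℝ) hcont.continuousOn
  beta_reduce at h2
  rw [zero_mul, sj_zero hA.hγ, one_mul] at h2
  obtain ⟨t, ht, ht1⟩ := h2 (mem_Icc.2 ⟨zero_le_one, h1.le⟩)
  beta_reduce at ht1
  have h3 := key (t * a) (by
    rw [abs_mul, abs_of_nonneg ht.1]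
    exact mul_le_of_le_one_left (abs_nonneg a) ht.2) ht1.le
  rw [ht1] at h3
  norm_num at h3

/-- the entropy jump of a 3-wave of the scheme is small -/
private theorem right_small {γ ζ₁ ζ₂ Λ₀ U₀ θ μ V₁ K δ Λc C : ℝ}
    (hA : Adm γ ζ₁ ζ₂ Λ₀ U₀ θ μ V₁ K δ Λc C) (hζ : ζ₁ ≤ ζ₂) (hV : 0 ≤ V₁) {R : St}
    (hR : InB (ζ₁ / 2) (2 * ζ₂) (Λ₀ + 5) R) {b : ℝ} (hb : |b| ≤ ζ₁ / 8)
    (hF : Real.sin θ * (Real.exp (R.l / 2) * |b|) ≤ δ) : sj γ b R.z ≤ 1 / 8 := by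
  exact left_small hA hζ hV hR hb hF

/-- the facts for a pair of neighbours in a good sequence -/
private theorem pair_facts {γ ζ₁ ζ₂ Λ₀ U₀ θ μ V₁ K δ Λc C : ℝ} {w₀ : St} {U : ℤ → St}
    (hA : Adm γ ζ₁ ζ₂ Λ₀ U₀ θ μ V₁ K δ Λc C) (h : Good γ ζ₁ ζ₂ Λ₀ U₀ θ μ V₁ K δ w₀ U) (i : ℤ) :
    FF γ θ μ K [U i, U (i + 1)] ≤ δ ∧
    |ra γ (U i) (U (i + 1))| + |rb γ (U i) (U (i + 1))| ≤ ζ₁ / 8 ∧
    |ra γ (U i) (U (i + 1))| + |rb γ (U i) (U (i + 1))| ≤ 1 / 8 := by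
  have hζ0 := hA.hζ
  obtain ⟨M, hM⟩ : ∃ M : ℕ, M = i.natAbs + 1 := ⟨_, rfl⟩
  have hinf := pair_infix U M i (by omega) (by omega)
  have hwide : ∀ j, InB (ζ₁ / 4) (4 * ζ₂) (Λ₀ + 6) (U j) := by
    intro j
    obtain ⟨h1, h2, h3⟩ := (h.box j).1
    exact ⟨by linarith, by linarith, by linarith⟩
  have hBw : ∀ w ∈ win U M, InB (ζ₁ / 4) (4 * ζ₂) (Λ₀ + 6) w := by
    intro w hw
    obtain ⟨j, rfl⟩ := mem_win hw
    exact hwide j
  obtain ⟨h1, _, h3⟩ := sub_state hA.hθ hA.hμ hA.hK hA.hV hA.del hinf.sublist hBw (h.ff M)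
    (h.vv M) (h.gg M)
  have h1' := h1.trans (h.ff M)
  obtain ⟨h5, h6, _⟩ := hA.list [U i, U (i + 1)] (by
    intro w hw
    rcases List.mem_cons.1 hw with h | h
    · rw [h]; exact hwide _
    · rw [List.mem_singleton.1 h]; exact hwide _) h1' h3
  rw [Am_two] at h6
  have h7 := mul_le_mul_of_nonneg_left h1' hA.hC.le
  exact ⟨h1', h6.trans (h7.trans hA.small.1), h6.trans (h7.trans hA.small.2)⟩

theorem fan_const {γ : ℝ} (hγ : 1 < γ) {w : St} (hw : 0 < w.z) (ξ : ℝ) : fan γ w w ξ = w := by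
  have h : Rie γ w w 0 0 := ⟨rfl, by rw [hj_zero]; ring⟩
  obtain ⟨h1, h2⟩ := ra_eq hγ hw hw h
  have h3 : ∀ (v : St) (x : ℝ), fan1 γ v 0 x = v := by
    intro v x
    have h4 : ∀ y : ℝ, max 0 (min 0 y) = 0 := fun y => max_eq_left (min_le_left _ _)
    unfold fan1
    rw [if_pos le_rfl, h4, sub_zero, mul_zero, add_zero]
  unfold fan
  rw [h1, h2, h3, h3]
  split_ifs
  · rfl
  · unfold mir
    rw [neg_neg]

theorem good_pair {γ ζ₁ ζ₂ Λ₀ U₀ θ μ V₁ K δ Λc C : ℝ} {w₀ : St} {U : ℤ → St}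
    (hA : Adm γ ζ₁ ζ₂ Λ₀ U₀ θ μ V₁ K δ Λc C) (h : Good γ ζ₁ ζ₂ Λ₀ U₀ θ μ V₁ K δ w₀ U) (i : ℤ) :
    |ra γ (U i) (U (i + 1))| ≤ ζ₁ / 8 ∧ |rb γ (U i) (U (i + 1))| ≤ ζ₁ / 8 ∧
    |ra γ (U i) (U (i + 1))| ≤ 1 / 8 ∧ |rb γ (U i) (U (i + 1))| ≤ 1 / 8 ∧
    0 < (U i).z - ra γ (U i) (U (i + 1)) := by
  obtain ⟨_, h2, h3⟩ := pair_facts hA h i
  have hζ0 := hA.hζ
  have ha := abs_nonneg (ra γ (U i) (U (i + 1)))
  have hb := abs_nonneg (rb γ (U i) (U (i + 1)))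
  have h4 := (h.box i).1.1
  have h5 := le_abs_self (ra γ (U i) (U (i + 1)))
  exact ⟨by linarith, by linarith, by linarith, by linarith, by linarith⟩

private theorem step_gen {γ ζ₁ ζ₂ Λ₀ U₀ θ μ V₁ K δ Λc C ξ : ℝ} {w₀ : St} {U U' : ℤ → St}
    (hA : Adm γ ζ₁ ζ₂ Λ₀ U₀ θ μ V₁ K δ Λc C) (hw : InB ζ₁ ζ₂ Λ₀ w₀) (hu : |w₀.u| ≤ U₀)
    (h : Good γ ζ₁ ζ₂ Λ₀ U₀ θ μ V₁ K δ w₀ U)
    (hU : (∀ i, U' i = fan γ (U (i - 1)) (U i) ξ) ∨ (∀ i, U' i = fan γ (U i) (U (i + 1)) ξ)) :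
    Good γ ζ₁ ζ₂ Λ₀ U₀ θ μ V₁ K δ w₀ U' ∧
    ∀ M : ℕ, FF γ θ μ K (win U' M) ≤ FF γ θ μ K (win U (M + 1)) := by
  have hζ0 := hA.hζ
  have hζ : ζ₁ ≤ ζ₂ := hw.1.trans hw.2.1
  have hV0 : 0 ≤ V₁ := (VV_nonneg γ (win U 0)).trans (h.vv 0)
  have hsin : 0 ≤ Real.sin θ := by
    have h1 : 0 ≤ μ * V₁ := mul_nonneg (by linarith [hA.hμ]) hV0
    have h2 := hA.hV
    exact Real.sin_nonneg_of_nonneg_of_le_pi hA.hθ.le (by linarith [Real.pi_pos, hA.hθ])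
  have hw0 : 0 < w₀.z := by linarith [hw.1]
  have hz0 : ∀ i, 0 < (U i).z := fun i => by linarith [(h.box i).1.1]
  -- the new states are in the wide box
  have hfan : ∀ i, InB (ζ₁ / 4) (4 * ζ₂) (Λ₀ + 6) (fan γ (U i) (U (i + 1)) ξ) := by
    intro i
    obtain ⟨hF, h2, h3⟩ := pair_facts hA h i
    obtain ⟨ga, gb, _, _, hm⟩ := good_pair hA h i
    have ha := abs_nonneg (ra γ (U i) (U (i + 1)))
    have hb := abs_nonneg (rb γ (U i) (U (i + 1)))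
    obtain ⟨b1, _, _, _, b5⟩ := fan_bounds hA.hγ (hz0 i) (hz0 (i + 1)) hm ξ
    have b1' := abs_le.1 b1
    obtain ⟨x1, x2, x3⟩ := (h.box i).1
    obtain ⟨y1, y2, y3⟩ := (h.box (i + 1)).1
    rw [FF_two, mul_add] at hF
    have e1 : 0 ≤ Real.sin θ * (Real.exp ((U i).l / 2) * |ra γ (U i) (U (i + 1))|) :=
      mul_nonneg hsin (mul_nonneg (Real.exp_pos _).le ha)
    have e2 : 0 ≤ Real.sin θ * (Real.exp ((U (i + 1)).l / 2) * |rb γ (U i) (U (i + 1))|) :=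
      mul_nonneg hsin (mul_nonneg (Real.exp_pos _).le hb)
    have s1 := left_small hA hζ hV0 (h.box i).1 ga (by linarith)
    have s2 := right_small hA hζ hV0 (h.box (i + 1)).1 gb (by linarith)
    have s1' : 0 ≤ sj γ (ra γ (U i) (U (i + 1))) (U i).z := S0_nonneg hA.hγ _
    have s2' : 0 ≤ sj γ (rb γ (U i) (U (i + 1))) (U (i + 1)).z := S0_nonneg hA.hγ _
    have x3' := abs_le.1 x3
    have y3' := abs_le.1 y3
    refine ⟨by linarith [b1'.1], by linarith [b1'.2], ?_⟩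
    rw [abs_le]
    rcases b5 with b5 | b5 | b5 | b5 <;> rw [b5] <;> constructor <;>
      linarith [x3'.1, x3'.2, y3'.1, y3'.2]
  obtain ⟨f, hf⟩ : ∃ f : St → St → St, ∀ L R, f L R = fan γ L R ξ := ⟨_, fun _ _ => rfl⟩
  have hUf : (∀ i, U' i = f (U (i - 1)) (U i)) ∨ (∀ i, U' i = f (U i) (U (i + 1))) := by
    rcases hU with hU | hU
    · exact Or.inl fun i => by rw [hf]; exact hU i
    · exact Or.inr fun i => by rw [hf]; exact hU i
  have hwide : ∀ j, InB (ζ₁ / 4) (4 * ζ₂) (Λ₀ + 6) (U j) := by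
    intro j
    obtain ⟨h1, h2, h3⟩ := (h.box j).1
    exact ⟨by linarith, by linarith, by linarith⟩
  have hil : ∀ M : ℕ, ∀ w ∈ ileave f (win U (M + 1)), InB (ζ₁ / 4) (4 * ζ₂) (Λ₀ + 6) w := by
    intro M w hw
    rcases mem_ileave hw with h1 | ⟨L, R, h1, h2⟩
    · obtain ⟨j, rfl⟩ := mem_win h1
      exact hwide j
    · obtain ⟨j, rfl, rfl⟩ := infix_win h1
      rw [h2, hf]
      exact hfan j
  have hsub : ∀ M : ℕ, (win U' M).Sublist (ileave f (win U (M + 1))) := fun M => win_step hUf M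
  have hFV : ∀ M : ℕ, FF γ θ μ K (ileave f (win U (M + 1))) = FF γ θ μ K (win U (M + 1)) ∧
      VV γ (ileave f (win U (M + 1))) = VV γ (win U (M + 1)) := by
    intro M
    refine FF_ileave fun L R hLR => ?_
    obtain ⟨j, rfl, rfl⟩ := infix_win hLR
    rw [hf]
    exact (fan_split hA.hγ (hz0 j) (hz0 (j + 1)) (good_pair hA h j).2.2.2.2 ξ).2
  have hst : ∀ M : ℕ, FF γ θ μ K (win U' M) ≤ FF γ θ μ K (win U (M + 1)) ∧
      VV γ (win U' M) + FF γ θ μ K (win U' M) ≤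
        VV γ (win U (M + 1)) + FF γ θ μ K (win U (M + 1)) ∧ VV γ (win U' M) ≤ V₁ := by
    intro M
    obtain ⟨e1, e2⟩ := hFV M
    have h1 := sub_state hA.hθ hA.hμ hA.hK hA.hV hA.del (hsub M) (hil M)
      (by rw [e1]; exact h.ff _) (by rw [e2]; exact h.vv _) (by rw [e1, e2]; exact h.gg _)
    rw [e1, e2] at h1
    exact h1
  have hleft : ∃ N : ℤ, ∀ i ≤ N, U' i = w₀ := by
    obtain ⟨N, hN⟩ := h.left
    refine ⟨N - 1, fun i hi => ?_⟩
    rcases hU with hU | hU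
    · rw [hU, hN (i - 1) (by linarith), hN i (by linarith)]
      exact fan_const hA.hγ hw0 ξ
    · rw [hU, hN i (by linarith), hN (i + 1) (by linarith)]
      exact fan_const hA.hγ hw0 ξ
  have hff : ∀ M : ℕ, FF γ θ μ K (win U' M) ≤ δ := fun M => (hst M).1.trans (h.ff _)
  have hvv : ∀ M : ℕ, VV γ (win U' M) ≤ V₁ := fun M => (hst M).2.2
  refine ⟨⟨hleft, ?_, hff, hvv, fun M => (hst M).2.1.trans (h.gg _)⟩, fun M => (hst M).1⟩
  intro i
  obtain ⟨N, hN⟩ := hleft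
  obtain ⟨j, hj⟩ : ∃ j : ℤ, j = min i N := ⟨_, rfl⟩
  have hjw : U' j = w₀ := hN j (by rw [hj]; exact min_le_right _ _)
  obtain ⟨M, hM⟩ : ∃ M : ℕ, M = i.natAbs + j.natAbs := ⟨_, rfl⟩
  have hi := mem_win' U' M i (by omega) (by omega)
  have hjm := mem_win' U' M j (by omega) (by omega)
  rw [hjw] at hjm
  obtain ⟨_, _, t1, t2, t3⟩ := hA.list (win U' M) (fun w hw => hil M w ((hsub M).subset hw))
    (hff M) (hvv M)
  have hCF := mul_le_mul_of_nonneg_left (hff M) hA.hC.le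
  have o1 := (osc_le St.z hi hjm).trans t1
  have o2 := (osc_le St.u hi hjm).trans t2
  have o3 := (osc_le St.l hi hjm).trans t3
  have hVl : V₁ ≤ Real.pi / 2 := by
    have h1 : V₁ ≤ μ * V₁ := le_mul_of_one_le_left hV0 hA.hμ.le
    linarith [hA.hV, hA.hθ]
  have hpi := Real.pi_le_four
  have p1 := abs_le.1 o1
  have p2 := abs_le.1 o2
  have p3 := abs_le.1 o3
  have w1 := abs_le.1 hu
  have w2 := abs_le.1 hw.2.2
  have hs1 := hA.small.1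
  have hs2 := hA.small.2
  have hvM := hvv M
  refine ⟨⟨?_, ?_, ?_⟩, ?_⟩
  · linarith [p1.1, hw.1]
  · linarith [p1.2, hw.2.1]
  · rw [abs_le]
    constructor
    · linarith [p3.1, w2.1]
    · linarith [p3.2, w2.2]
  · rw [abs_le]
    constructor
    · linarith [p2.1, w1.1]
    · linarith [p2.2, w1.2]

theorem good_step {γ ζ₁ ζ₂ Λ₀ U₀ θ μ V₁ K δ Λc C ν θ' : ℝ} {w₀ : St} {U : ℤ → St}
    (hA : Adm γ ζ₁ ζ₂ Λ₀ U₀ θ μ V₁ K δ Λc C) (hw : InB ζ₁ ζ₂ Λ₀ w₀) (hu : |w₀.u| ≤ U₀)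
    (h : Good γ ζ₁ ζ₂ Λ₀ U₀ θ μ V₁ K δ w₀ U) :
    Good γ ζ₁ ζ₂ Λ₀ U₀ θ μ V₁ K δ w₀ (stp γ ν U θ') ∧
    ∀ M : ℕ, FF γ θ μ K (win (stp γ ν U θ') M) ≤ FF γ θ μ K (win U (M + 1)) := by
  by_cases hθ' : θ' < 1 / 2
  · refine step_gen (ξ := θ' / ν) hA hw hu h (Or.inl fun i => ?_)
    unfold stp
    rw [if_pos hθ']
  · refine step_gen (ξ := (θ' - 1) / ν) hA hw hu h (Or.inr fun i => ?_)
    unfold stp
    rw [if_neg hθ']

end Helper51.TH
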