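import Mathlib

/-!
TH-P24. Greedy choice of the sampling parameters.

PROOF. Choose `θ n` recursively. Let `x n` be the current point (`P (x n)`), `D = ∑_{m<n} noise (x m) (θ m)` the current
sum. The function `θ' ↦ ∑_j D j * noise (x n) θ' j` is integrable on `[0, 1]` with integral `0`, so there is
`θ' ∈ [0, 1)` (interior points have full measure) with value `≤ 0`. Then
`∑_j (D j + noise j)² = ∑ D j² + 2 ∑ D j noise j + ∑ noise j² ≤ n card B² + card B²`. Formally: construct the
sequence of pairs `(x n, D n)` with `Nat.rec` and `Classical.choose`.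
-/

open MeasureTheory Set Filter Topology

namespace Helper51.TH

theorem greedy {X ι : Type} [Fintype ι] (P : X → Prop) (step : X → ℝ → X)
    (noise : X → ℝ → ι → ℝ) {B : ℝ}
    (hstep : ∀ x θ, P x → θ ∈ Ico (0 : ℝ) 1 → P (step x θ))
    (hint : ∀ x j, P x → IntervalIntegrable (fun θ => noise x θ j) volume 0 1)
    (hzero : ∀ x j, P x → ∫ θ in (0 : ℝ)..1, noise x θ j = 0)
    (hB : ∀ x θ j, P x → θ ∈ Ico (0 : ℝ) 1 → |noise x θ j| ≤ B) (x₀ : X) (hx₀ : P x₀) :
    ∃ (x : ℕ → X) (θ : ℕ → ℝ), x 0 = x₀ ∧ (∀ n, P (x n)) ∧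
      (∀ n, θ n ∈ Ico (0 : ℝ) 1 ∧ x (n + 1) = step (x n) (θ n)) ∧
      ∀ n : ℕ, ∑ j, (∑ m ∈ Finset.range n, noise (x m) (θ m) j) ^ 2 ≤
        n * Fintype.card ι * B ^ 2 := by
  classical
  have hex : ∀ (x : X) (D : ι → ℝ), ∃ t : ℝ, P x →
      (t ∈ Ico (0 : ℝ) 1 ∧ ∑ j, D j * noise x t j ≤ 0) := by
    intro x D
    by_cases hx : P x
    · by_contra hcon
      push Not at hcon
      have hpos : ∀ t ∈ Ioo (0 : ℝ) 1, 0 < ∑ j, D j * noise x t j := fun t ht =>
        (hcon t).2 ⟨ht.1.le, ht.2⟩
      have hi : IntervalIntegrable (fun t => ∑ j, D j * noise x t j) volume 0 1 := by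
        have h0 := IntervalIntegrable.sum Finset.univ
          (fun j (_ : j ∈ (Finset.univ : Finset ι)) => (hint x j hx).const_mul (D j))
        have h1 : (fun t => ∑ j, D j * noise x t j) =
            ∑ j, fun t => D j * noise x t j := by
          funext t
          rw [Finset.sum_apply]
        rw [h1]
        exact h0
      have h1 := intervalIntegral.intervalIntegral_pos_of_pos_on hi hpos one_pos
      rw [intervalIntegral.integral_finsetSum
        (fun j _ => (hint x j hx).const_mul (D j))] at h1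
      rw [Finset.sum_eq_zero] at h1
      · exact lt_irrefl _ h1
      · intro j _
        rw [intervalIntegral.integral_const_mul, hzero x j hx, mul_zero]
    · exact ⟨0, fun h => absurd h hx⟩
  choose g hg using hex
  let s : ℕ → X × (ι → ℝ) := fun n => Nat.rec (x₀, fun _ => 0)
    (fun _ p => (step p.1 (g p.1 p.2), fun j => p.2 j + noise p.1 (g p.1 p.2) j)) n
  have hs0 : s 0 = (x₀, fun _ => 0) := rfl
  have hss : ∀ n, s (n + 1) = (step (s n).1 (g (s n).1 (s n).2),
      fun j => (s n).2 j + noise (s n).1 (g (s n).1 (s n).2) j) := fun _ => rfl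
  have hP : ∀ n, P (s n).1 := by
    intro n
    induction n with
    | zero => exact hx₀
    | succ n ih =>
      rw [hss]
      exact hstep _ _ ih (hg _ _ ih).1
  have hD : ∀ n j, (s n).2 j = ∑ m ∈ Finset.range n, noise (s m).1 (g (s m).1 (s m).2) j := by
    intro n j
    induction n with
    | zero => rw [hs0]; simp
    | succ n ih =>
      rw [Finset.sum_range_succ, ← ih, hss]
  have hbound : ∀ n : ℕ, ∑ j, ((s n).2 j) ^ 2 ≤ n * Fintype.card ι * B ^ 2 := by
    intro n
    induction n with
    | zero => rw [hs0]; simp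
    | succ n ih =>
      have h1 := (hg (s n).1 (s n).2 (hP n)).2
      have h2 := (hg (s n).1 (s n).2 (hP n)).1
      have h3 : ∑ j, ((s (n + 1)).2 j) ^ 2 = ∑ j, ((s n).2 j) ^ 2 +
          2 * ∑ j, (s n).2 j * noise (s n).1 (g (s n).1 (s n).2) j +
          ∑ j, (noise (s n).1 (g (s n).1 (s n).2) j) ^ 2 := by
        rw [Finset.mul_sum, ← Finset.sum_add_distrib, ← Finset.sum_add_distrib]
        refine Finset.sum_congr rfl fun j _ => ?_
        rw [hss]
        ring
      have h4 : ∑ j, (noise (s n).1 (g (s n).1 (s n).2) j) ^ 2 ≤ Fintype.card ι * B ^ 2 := by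
        have h5 : ∀ j ∈ (Finset.univ : Finset ι),
            (noise (s n).1 (g (s n).1 (s n).2) j) ^ 2 ≤ B ^ 2 := by
          intro j _
          have h6 := hB (s n).1 (g (s n).1 (s n).2) j (hP n) h2
          rw [← sq_abs]
          exact pow_le_pow_left₀ (abs_nonneg _) h6 2
        refine (Finset.sum_le_sum h5).trans ?_
        rw [Finset.sum_const, nsmul_eq_mul, Finset.card_univ]
      rw [h3]
      push_cast
      have h7 : ((n : ℝ) + 1) * Fintype.card ι * B ^ 2 =
        n * Fintype.card ι * B ^ 2 + Fintype.card ι * B ^ 2 := by ring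
      rw [h7]
      linarith
  refine ⟨fun n => (s n).1, fun n => g (s n).1 (s n).2, rfl, hP, fun n => ⟨(hg _ _ (hP n)).1, ?_⟩,
    fun n => ?_⟩
  · change (s (n + 1)).1 = _
    rw [hss]
  · have h1 := hbound n
    have h2 : ∑ j, (∑ m ∈ Finset.range n, noise (s m).1 (g (s m).1 (s m).2) j) ^ 2 =
        ∑ j, ((s n).2 j) ^ 2 := Finset.sum_congr rfl fun j _ => by rw [hD]
    exact h2.le.trans h1

end Helper51.TH
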