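import Pool.Agent.Helper51.TH.Defs

/-!
TH-P26. Helly's selection theorem and lower semicontinuity of the essential variation.

PROOF of `helly`. (1) Monotone functions: a sequence of monotone `g k : ℝ → [-A, A]` has a subsequence converging at every
rational point (countable product of compact metrisable spaces: `isCompact_univ_pi`, `IsCompact.tendsto_subseq`), limit `G` on `ℚ`,
monotone. Outside the countable set of jumps of the monotone function `x ↦ ⨅_{q > x, q rational} G q` the subsequence converges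
(sandwich between rational points); a further subsequence converges also at the countably many remaining points (product
again). (2) `f k = v k - w k`, `v k x = (eVariationOn (f k) (Iic x)).toReal`, both `v k` and `w k = v k - f k` are monotone and bounded
by `V + M` (or `variationOnFromTo`, `LocallyBoundedVariationOn.exists_monotoneOn_sub_monotoneOn` in a bounded form). Apply (1)
twice. (3) `eVariationOn g univ ≤ ofReal V`: every finite sum is the limit of the sums for `f (φ k)`
(`eVariationOn.lowerSemicontinuous`, or directly).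
PROOF of `eTV_le_of_tendsto`. Pass to a subsequence with `f k → g` almost everywhere
(`L¹` convergence on every `(-n, n)`, `MeasureTheory.TendstoInMeasure.exists_seq_tendsto_ae` and a diagonal argument, or rapid
convergence), then for every `η > 0` `V k ≤ V₀ + η` eventually and `helly` gives a further subsequence converging everywhere to `g'`
with variation `≤ V₀ + η`; `g' = g` a.e. So `eTV g ≤ ofReal (V₀ + η)` for all `η > 0`.
-/

open MeasureTheory Set Filter Topology
open scoped ENNReal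

namespace Helper51.TH

/-- Convergence along a subsequence at countably many points. -/
private theorem diag_sel {ι : Type} [Countable ι] {A : ℝ} (g : ℕ → ι → ℝ)
    (hA : ∀ k i, |g k i| ≤ A) :
    ∃ φ : ℕ → ℕ, StrictMono φ ∧ ∃ G : ι → ℝ,
      ∀ i, Tendsto (fun k => g (φ k) i) atTop (𝓝 (G i)) := by
  have hc : IsCompact (Set.pi univ (fun _ : ι => Icc (-A) A)) :=
    isCompact_univ_pi (fun _ => isCompact_Icc)
  obtain ⟨G, -, φ, hφ, h⟩ := hc.tendsto_subseq (x := g)
    (fun k => fun i _ => abs_le.1 (hA k i))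
  exact ⟨φ, hφ, G, fun i => (tendsto_pi_nhds.1 h i)⟩

/-- Helly's theorem for monotone functions. -/
private theorem mono_sel {A : ℝ} (g : ℕ → ℝ → ℝ) (hA : ∀ k x, |g k x| ≤ A)
    (hm : ∀ k, Monotone (g k)) :
    ∃ φ : ℕ → ℕ, StrictMono φ ∧ ∃ G : ℝ → ℝ,
      ∀ x, Tendsto (fun k => g (φ k) x) atTop (𝓝 (G x)) := by
  obtain ⟨φ₁, h₁, G, hG⟩ := diag_sel (fun k (q : ℚ) => g k q) (fun k q => hA k q)
  have hGm : Monotone G := fun p q hpq =>
    le_of_tendsto_of_tendsto' (hG p) (hG q) (fun k => hm _ (by exact_mod_cast hpq))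
  have hGA : ∀ q, |G q| ≤ A := fun q => le_of_tendsto' ((hG q).abs) (fun k => hA _ _)
  set H : ℝ → ℝ := fun x => sSup (G '' {q : ℚ | (q : ℝ) ≤ x}) with hH
  have hbdd : ∀ x : ℝ, BddAbove (G '' {q : ℚ | (q : ℝ) ≤ x}) := by
    intro x
    refine ⟨A, ?_⟩
    rintro y ⟨q, -, rfl⟩
    exact (abs_le.1 (hGA q)).2
  have hne : ∀ x : ℝ, (G '' {q : ℚ | (q : ℝ) ≤ x}).Nonempty := by
    intro x
    obtain ⟨q, hq⟩ := exists_rat_lt x
    exact ⟨G q, q, hq.le, rfl⟩
  have hHm : Monotone H := by
    intro x y hxy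
    refine csSup_le_csSup (hbdd y) (hne x) (image_mono ?_)
    intro q hq
    exact le_trans hq hxy
  have hHq : ∀ q : ℚ, H q = G q := by
    intro q
    refine le_antisymm (csSup_le (hne q) ?_) (le_csSup (hbdd q) ⟨q, le_refl (q : ℝ), rfl⟩)
    rintro y ⟨p, hp, rfl⟩
    exact hGm (by exact_mod_cast hp)
  have : Countable {x : ℝ // ¬ ContinuousAt H x} :=
    hHm.countable_not_continuousAt.to_subtype
  obtain ⟨φ₂, h₂, G', hG'⟩ := diag_sel (ι := {x : ℝ // ¬ ContinuousAt H x})
    (fun k x => g (φ₁ k) x) (fun k x => hA _ _)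
  have key : ∀ x, ∃ L : ℝ, Tendsto (fun k => g (φ₁ (φ₂ k)) x) atTop (𝓝 L) := by
    intro x
    by_cases hx : ContinuousAt H x
    · refine ⟨H x, ?_⟩
      have h3 : Tendsto (fun k => g (φ₁ k) x) atTop (𝓝 (H x)) := by
        refine tendsto_order.2 ⟨fun a ha => ?_, fun b hb => ?_⟩
        · have h4 : ∀ᶠ y in 𝓝 x, a < H y := hx.eventually (lt_mem_nhds ha)
          obtain ⟨ε, hε, h5⟩ := Metric.eventually_nhds_iff.1 h4
          obtain ⟨q, hq1, hq2⟩ := exists_rat_btwn (show x - ε < x by linarith)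
          have h6 : a < H q := h5 (by rw [Real.dist_eq, abs_lt]; constructor <;> linarith)
          rw [hHq] at h6
          filter_upwards [(hG q).eventually (lt_mem_nhds h6)] with k hk
          exact lt_of_lt_of_le hk (hm _ hq2.le)
        · have h4 : ∀ᶠ y in 𝓝 x, H y < b := hx.eventually (gt_mem_nhds hb)
          obtain ⟨ε, hε, h5⟩ := Metric.eventually_nhds_iff.1 h4
          obtain ⟨q, hq1, hq2⟩ := exists_rat_btwn (show x < x + ε by linarith)
          have h6 : H q < b := h5 (by rw [Real.dist_eq, abs_lt]; constructor <;> linarith)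
          rw [hHq] at h6
          filter_upwards [(hG q).eventually (gt_mem_nhds h6)] with k hk
          exact lt_of_le_of_lt (hm _ hq1.le) hk
      exact h3.comp h₂.tendsto_atTop
    · exact ⟨G' ⟨x, hx⟩, hG' ⟨x, hx⟩⟩
  choose L hL using key
  exact ⟨φ₁ ∘ φ₂, h₁.comp h₂, L, hL⟩

theorem helly {M V : ℝ} (f : ℕ → ℝ → ℝ) (hM : ∀ k x, |f k x| ≤ M)
    (hV : ∀ k, eVariationOn (f k) univ ≤ ENNReal.ofReal V) :
    ∃ φ : ℕ → ℕ, StrictMono φ ∧ ∃ g : ℝ → ℝ,
      (∀ x, Tendsto (fun k => f (φ k) x) atTop (𝓝 (g x))) ∧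
      eVariationOn g univ ≤ ENNReal.ofReal V := by
  have hbv : ∀ k, BoundedVariationOn (f k) univ := fun k =>
    ne_top_of_le_ne_top ENNReal.ofReal_ne_top (hV k)
  have hloc : ∀ k, LocallyBoundedVariationOn (f k) univ := fun k =>
    (hbv k).locallyBoundedVariationOn
  set v : ℕ → ℝ → ℝ := fun k x => variationOnFromTo (f k) univ 0 x with hvdef
  have hv : ∀ k x, |v k x| ≤ (ENNReal.ofReal V).toReal := fun k x =>
    (variationOnFromTo.abs_le_eVariationOn (hbv k)).trans
      (ENNReal.toReal_mono ENNReal.ofReal_ne_top (hV k))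
  have hvm : ∀ k, Monotone (v k) := fun k x y h =>
    variationOnFromTo.monotoneOn (hloc k) (mem_univ _) (mem_univ _) (mem_univ _) h
  have hwm : ∀ k, Monotone (fun x => v k x - f k x) := fun k x y h =>
    variationOnFromTo.sub_self_monotoneOn (hloc k) (mem_univ _) (mem_univ _) (mem_univ _) h
  obtain ⟨φ₁, h₁, G₁, hG₁⟩ := mono_sel v hv hvm
  obtain ⟨φ₂, h₂, G₂, hG₂⟩ := mono_sel (A := (ENNReal.ofReal V).toReal + M)
    (fun k x => v (φ₁ k) x - f (φ₁ k) x)
    (fun k x => (abs_sub _ _).trans (add_le_add (hv _ _) (hM _ _)))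
    (fun k => hwm (φ₁ k))
  have hconv : ∀ x, Tendsto (fun k => f ((φ₁ ∘ φ₂) k) x) atTop (𝓝 (G₁ x - G₂ x)) := by
    intro x
    have a := (hG₁ x).comp h₂.tendsto_atTop
    have b := hG₂ x
    refine (a.sub b).congr (fun k => ?_)
    simp only [Function.comp_apply]
    ring
  refine ⟨φ₁ ∘ φ₂, h₁.comp h₂, fun x => G₁ x - G₂ x, hconv, ?_⟩
  by_contra hcon
  rw [not_le] at hcon
  have h3 := eVariationOn.lowerSemicontinuous_aux (s := (univ : Set ℝ))
    (F := fun k => f ((φ₁ ∘ φ₂) k)) (p := atTop) (fun x _ => hconv x) hcon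
  obtain ⟨k, hk⟩ := h3.exists
  exact absurd (hV _) (not_le.2 hk)

theorem eTV_le_of_tendsto {M V₀ : ℝ} {V : ℕ → ℝ} {f : ℕ → ℝ → ℝ} {g : ℝ → ℝ}
    (hm : ∀ k, Measurable (f k)) (hg : Measurable g) (hM : ∀ k x, |f k x| ≤ M)
    (hgM : ∀ x, |g x| ≤ M) (hV : ∀ k, eVariationOn (f k) univ ≤ ENNReal.ofReal (V k))
    (hVV : Tendsto V atTop (𝓝 V₀))
    (hL : ∀ R : ℝ, 0 < R → Tendsto (fun k => ∫ x in Ioo (-R) R, |f k x - g x|) atTop (𝓝 0)) :
    eTV g ≤ ENNReal.ofReal V₀ := by
  refine ENNReal.le_of_forall_pos_le_add (fun ε hε _ => ?_)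
  have hε' : (0 : ℝ) < ε := by exact_mod_cast hε
  have h1 : ∀ᶠ k in atTop, V k < V₀ + ε := hVV.eventually (gt_mem_nhds (by linarith))
  obtain ⟨N, hN⟩ := eventually_atTop.1 h1
  obtain ⟨φ, hφ, g', hg', hvar⟩ := helly (M := M) (V := V₀ + ε) (fun k => f (k + N))
    (fun k x => hM _ x)
    (fun k => (hV _).trans (ENNReal.ofReal_le_ofReal (hN _ (by omega)).le))
  have hg'm : Measurable g' :=
    measurable_of_tendsto_metrizable (fun k => hm (φ k + N)) (tendsto_pi_nhds.2 hg')
  have hg'M : ∀ x, |g' x| ≤ M := fun x => le_of_tendsto' (hg' x).abs (fun k => hM _ _)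
  have hR : ∀ R : ℝ, 0 < R → ∀ᵐ x ∂(volume.restrict (Ioo (-R) R)), g' x = g x := by
    intro R hR
    have hsub : Tendsto (fun k => φ k + N) atTop atTop :=
      tendsto_atTop_mono (fun k => Nat.le_add_right _ _) hφ.tendsto_atTop
    have t1 : Tendsto (fun k => ∫ x in Ioo (-R) R, |f (φ k + N) x - g x|) atTop (𝓝 0) :=
      (hL R hR).comp hsub
    have t2 : Tendsto (fun k => ∫ x in Ioo (-R) R, |f (φ k + N) x - g x|) atTop
        (𝓝 (∫ x in Ioo (-R) R, |g' x - g x|)) := by
      refine tendsto_integral_of_dominated_convergence (fun _ => 2 * M)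
        (fun k => (((hm _).sub hg).abs).aestronglyMeasurable) ?_ (fun k => ?_) ?_
      · exact (integrableOn_const (by simp) : IntegrableOn (fun _ : ℝ => 2 * M) (Ioo (-R) R) volume)
      · refine Eventually.of_forall (fun x => ?_)
        rw [Real.norm_eq_abs, abs_abs]
        refine (abs_sub _ _).trans ?_
        have := hM (φ k + N) x
        have := hgM x
        linarith
      · exact Eventually.of_forall (fun x => ((hg' x).sub_const _).abs)
    have h0 : ∫ x in Ioo (-R) R, |g' x - g x| = 0 := tendsto_nhds_unique t2 t1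
    have hint : IntegrableOn (fun x => |g' x - g x|) (Ioo (-R) R) volume := by
      refine Measure.integrableOn_of_bounded (M := 2 * M) (by simp)
        ((hg'm.sub hg).abs).aestronglyMeasurable ?_
      refine Eventually.of_forall (fun x => ?_)
      rw [Real.norm_eq_abs, abs_abs]
      refine (abs_sub _ _).trans ?_
      have := hg'M x
      have := hgM x
      linarith
    have h1 := (integral_eq_zero_iff_of_nonneg (fun x => abs_nonneg _) hint).1 h0
    filter_upwards [h1] with x hx
    have : g' x - g x = 0 := abs_eq_zero.1 hx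
    linarith
  have hae : g' =ᵐ[volume] g := by
    have h2 : ∀ᵐ x : ℝ, ∀ n : ℕ, x ∈ Ioo (-((n : ℝ) + 1)) ((n : ℝ) + 1) → g' x = g x := by
      rw [ae_all_iff]
      intro n
      exact (ae_restrict_iff' measurableSet_Ioo).1 (hR ((n : ℝ) + 1) (by positivity))
    filter_upwards [h2] with x hx
    obtain ⟨n, hn⟩ := exists_nat_gt |x|
    rw [abs_lt] at hn
    exact hx n ⟨by linarith [hn.1], by linarith [hn.2]⟩
  calc eTV g ≤ eVariationOn g' univ := iInf₂_le g' hae
    _ ≤ ENNReal.ofReal (V₀ + ε) := hvar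
    _ ≤ ENNReal.ofReal V₀ + ENNReal.ofReal ε := ENNReal.ofReal_add_le
    _ = ENNReal.ofReal V₀ + ε := by rw [ENNReal.ofReal_coe_nnreal]

end Helper51.TH
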