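import Pool.Agent.Helper51.TH.PDefs

/-!
TH-P17. Thermodynamics in the variables `z, u, l`.

PROOF. `ρ = γ z^(2/(γ-1)) exp(-2l)`, `p = z^(2γ/(γ-1))`, `e = p/((γ-1)ρ)`. `pr γ ρ e = p`. `ent = log(p ρ^(-γ))
= (2γ/(γ-1)) log z - γ (log γ + (2/(γ-1)) log z - 2 l) = 2 γ l - γ log γ`. `γ p = ρ (exp l z)²`
(`2γ/(γ-1) - 2/(γ-1) = 2`). `rho_inv`: given `ρ, p > 0`, put `z = p^((γ-1)/(2γ))`, `l = (log γ + (1/γ) log p - log ρ)/2`.
-/

open Set Filter Topology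

namespace Helper51.TH

open Helper73.EU

theorem rho_pos {γ : ℝ} (hγ : 1 < γ) {w : St} (hw : 0 < w.z) : 0 < rho γ w := by
  have h1 : 0 < w.z ^ (2 / (γ - 1)) := Real.rpow_pos_of_pos hw _
  have h2 : 0 < γ := by linarith
  unfold rho
  positivity

theorem prs_pos {γ : ℝ} {w : St} (hw : 0 < w.z) : 0 < prs γ w :=
  Real.rpow_pos_of_pos hw _

private theorem rho_mul_ien {γ : ℝ} (hγ : 1 < γ) {w : St} (hw : 0 < w.z) :
    rho γ w * ien γ w = prs γ w / (γ - 1) := by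
  have h1 : rho γ w ≠ 0 := (rho_pos hγ hw).ne'
  have h2 : γ - 1 ≠ 0 := by
    have : 0 < γ - 1 := by linarith
    exact this.ne'
  unfold ien
  field_simp

private theorem log_prs' {γ : ℝ} {w : St} (hw : 0 < w.z) :
    Real.log (prs γ w) = 2 * γ / (γ - 1) * Real.log w.z := by
  unfold prs
  rw [Real.log_rpow hw]

private theorem log_rho' {γ : ℝ} (hγ : 1 < γ) {w : St} (hw : 0 < w.z) :
    Real.log (rho γ w) = Real.log γ + 2 / (γ - 1) * Real.log w.z - 2 * w.l := by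
  have h1 : w.z ^ (2 / (γ - 1)) ≠ 0 := (Real.rpow_pos_of_pos hw _).ne'
  have h2 : γ ≠ 0 := by
    have : 0 < γ := by linarith
    exact this.ne'
  unfold rho
  rw [Real.log_mul (mul_ne_zero h2 h1) (Real.exp_pos _).ne', Real.log_mul h2 h1, Real.log_exp,
    Real.log_rpow hw]
  ring

theorem pr_eq {γ : ℝ} (hγ : 1 < γ) {w : St} (hw : 0 < w.z) :
    pr γ (rho γ w) (ien γ w) = prs γ w := by
  have h1 := rho_mul_ien hγ hw
  have h2 : γ - 1 ≠ 0 := by
    have : 0 < γ - 1 := by linarith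
    exact this.ne'
  unfold pr
  rw [mul_assoc, h1]
  field_simp

theorem ent_eq {γ : ℝ} (hγ : 1 < γ) {w : St} (hw : 0 < w.z) :
    ent γ (rho γ w) (ien γ w) = 2 * γ * w.l - γ * Real.log γ := by
  have h0 := rho_pos hγ hw
  have hp : 0 < prs γ w := prs_pos hw
  have h2 : γ - 1 ≠ 0 := by
    have : 0 < γ - 1 := by linarith
    exact this.ne'
  unfold ent
  rw [pr_eq hγ hw, Real.log_mul hp.ne' (Real.rpow_pos_of_pos h0 _).ne', Real.log_rpow h0,
    log_prs' hw, log_rho' hγ hw]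
  field_simp
  ring

theorem sound_sq {γ : ℝ} (hγ : 1 < γ) {w : St} (hw : 0 < w.z) :
    γ * prs γ w = rho γ w * (Real.exp w.l * w.z) ^ 2 := by
  have h2 : γ - 1 ≠ 0 := by
    have : 0 < γ - 1 := by linarith
    exact this.ne'
  have h3 : 2 * γ / (γ - 1) = 2 / (γ - 1) + (2 : ℕ) := by
    push_cast
    field_simp
    ring
  have h4 : w.z ^ (2 * γ / (γ - 1)) = w.z ^ (2 / (γ - 1)) * w.z ^ 2 := by
    rw [h3, Real.rpow_add hw, Real.rpow_natCast]
  have h5 : Real.exp (-(2 * w.l)) * Real.exp w.l ^ 2 = 1 := by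
    rw [← Real.exp_nat_mul, ← Real.exp_add]
    push_cast
    rw [neg_add_cancel, Real.exp_zero]
  unfold prs rho
  rw [h4]
  calc γ * (w.z ^ (2 / (γ - 1)) * w.z ^ 2)
      = γ * w.z ^ (2 / (γ - 1)) * w.z ^ 2 * (Real.exp (-(2 * w.l)) * Real.exp w.l ^ 2) := by
        rw [h5]
        ring
    _ = _ := by ring

theorem log_rho {γ : ℝ} (hγ : 1 < γ) {w : St} (hw : 0 < w.z) :
    Real.log (rho γ w) = Real.log γ + 1 / γ * Real.log (prs γ w) - 2 * w.l := by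
  have h1 : γ ≠ 0 := by
    have : 0 < γ := by linarith
    exact this.ne'
  have h2 : γ - 1 ≠ 0 := by
    have : 0 < γ - 1 := by linarith
    exact this.ne'
  rw [log_rho' hγ hw, log_prs' hw]
  field_simp

theorem exists_state {γ ρ u e : ℝ} (hγ : 1 < γ) (hρ : 0 < ρ) (he : 0 < e) :
    ∃ w : St, 0 < w.z ∧ rho γ w = ρ ∧ w.u = u ∧ ien γ w = e ∧
      w.z = pr γ ρ e ^ ((γ - 1) / (2 * γ)) ∧
      w.l = (Real.log γ + 1 / γ * Real.log (pr γ ρ e) - Real.log ρ) / 2 := by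
  have h1 : 0 < γ := by linarith
  have h2 : 0 < γ - 1 := by linarith
  have hp : 0 < pr γ ρ e := by
    unfold pr
    positivity
  obtain ⟨p, hpe⟩ : ∃ p, p = pr γ ρ e := ⟨_, rfl⟩
  rw [← hpe] at hp
  rw [← hpe]
  have hz : 0 < p ^ ((γ - 1) / (2 * γ)) := Real.rpow_pos_of_pos hp _
  obtain ⟨w, hw⟩ : ∃ w : St, w = ⟨p ^ ((γ - 1) / (2 * γ)), u,
      (Real.log γ + 1 / γ * Real.log p - Real.log ρ) / 2⟩ := ⟨_, rfl⟩
  have hwz : w.z = p ^ ((γ - 1) / (2 * γ)) := by rw [hw]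
  have hwu : w.u = u := by rw [hw]
  have hwl : w.l = (Real.log γ + 1 / γ * Real.log p - Real.log ρ) / 2 := by rw [hw]
  have hwz0 : 0 < w.z := by rw [hwz]; exact hz
  have hprs : prs γ w = p := by
    unfold prs
    rw [hwz, ← Real.rpow_mul hp.le]
    have h3 : (γ - 1) / (2 * γ) * (2 * γ / (γ - 1)) = 1 := by
      field_simp
    rw [h3, Real.rpow_one]
  have hrho : rho γ w = ρ := by
    have h3 : Real.log (rho γ w) = Real.log ρ := by
      rw [log_rho hγ hwz0, hprs, hwl]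
      ring
    exact Real.log_injOn_pos (mem_Ioi.2 (rho_pos hγ hwz0)) (mem_Ioi.2 hρ) h3
  refine ⟨w, hwz0, hrho, hwu, ?_, hwz, hwl⟩
  unfold ien
  rw [hprs, hrho, hpe]
  unfold pr
  field_simp

/-- The conserved quantities in terms of the state (for `w.z > 0`). -/
theorem cq_eq {γ : ℝ} (hγ : 1 < γ) {w : St} (hw : 0 < w.z) :
    cq γ 0 w = rho γ w ∧ cq γ 1 w = rho γ w * w.u ∧
    cq γ 2 w = rho γ w * w.u ^ 2 / 2 + prs γ w / (γ - 1) ∧
    cq γ 3 w = rho γ w * (2 * γ * w.l - γ * Real.log γ) ∧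
    cf γ 0 w = rho γ w * w.u ∧ cf γ 1 w = rho γ w * w.u ^ 2 + prs γ w ∧
    cf γ 2 w = (rho γ w * w.u ^ 2 / 2 + γ / (γ - 1) * prs γ w) * w.u ∧
    cf γ 3 w = rho γ w * w.u * (2 * γ * w.l - γ * Real.log γ) := by
  have h2 : γ - 1 ≠ 0 := by
    have : 0 < γ - 1 := by linarith
    exact this.ne'
  have h3 := rho_mul_ien hγ hw
  have h4 : rho γ w * en w.u (ien γ w) = rho γ w * w.u ^ 2 / 2 + prs γ w / (γ - 1) := by
    unfold en
    rw [mul_add, h3]
    ring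
  refine ⟨rfl, rfl, h4, ?_, rfl, ?_, ?_, ?_⟩
  · change rho γ w * ent γ (rho γ w) (ien γ w) = _
    rw [ent_eq hγ hw]
  · change rho γ w * w.u ^ 2 + pr γ (rho γ w) (ien γ w) = _
    rw [pr_eq hγ hw]
  · change rho γ w * en w.u (ien γ w) * w.u + pr γ (rho γ w) (ien γ w) * w.u = _
    rw [pr_eq hγ hw, h4]
    field_simp
    ring
  · change rho γ w * w.u * ent γ (rho γ w) (ien γ w) = _
    rw [ent_eq hγ hw]

end Helper51.TH
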