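import Pool.Agent.Helper51.TH.Good
import Pool.Agent.Helper51.TH.Phys

/-!
TH-P28. The initial states.

PROOF of `data_box`: `p = (γ-1) ρ e` is between `(γ-1) a²` and `(γ-1) b²`, `z = p^((γ-1)/(2γ))` (`prs γ w = w.z^(2γ/(γ-1))`), `l` from
`log_rho`. (`b ≥ a` if the box is not empty; else take any constants.)
PROOF of `init`. Let `h ≤ δ'`, `τ = (tv₀).toReal`. Choose `g₁ =ᵐ log ρ₀`, `g₂ =ᵐ u₀`, `g₃ =ᵐ p₀ = pr γ ρ₀ e₀` with
`eVariationOn g₁ ≤ V + h` (`ofReal`; if `V < 0` use `max V 0`), `eVariationOn g₂ ≤ eTV u₀ + h`, `eVariationOn g₃ ≤ eTV p₀ + h` (infimum;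
finite because of `Small`). In every cell `(ih, (i+1)h)` there is a point `y i` at which `g₁, g₂, g₃` agree with the functions and the box
condition holds (a.e. point). `J` with `J h ≥ 1/h + 1`; `U i` = the state (`exists_state`) of `(ρ₀, u₀, e₀)(y (max i (-J)))`.
The sequence `y (max i (-J))` is monotone in `i`, so `∑_window |Δ log ρ| ≤ V + h`, `∑ |Δu| ≤ eTV u₀ + h`, `∑ |Δp| ≤ eTV p₀ + h`.
`|Δz| ≤ C₁ |Δp|` (`z = p^((γ-1)/(2γ))` on a compact interval), `|Δl| ≤ |Δ log ρ|/2 + |Δ log p|/(2γ) ≤ |Δ log ρ|/2 + C₁ |Δp|`.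
For small `δ'` consecutive states satisfy the hypothesis of `ra_bound` (box `ζ₁, ζ₂, Λ₀`), so
`|a| + |b| ≤ C₂ (|Δz| + |Δu|)`, `Am ≤ C₃ (τ + 2h) ≤ 1/8`, and (`jump_bound`) `|sg| ≤ |Δl| + C₂ (|a| + |b|)`, so
`VV = ∑ |sg|/2 ≤ (V + h)/4 + C₄ (τ + 2h) ≤ V₁`, even `VV + FF ≤ V₁`, `FF ≤ C Am ≤ C C₃ (τ + 2 h) ≤ δ` (`Adm.upper`), if `δ'` is
small (`τ ≤ δ'`, `h ≤ δ'`, `V/4 < V₁`). `left`: `N = -J`, `w₀ = U (-J)`.
`L¹` distance: for `|x| < R ≤ 1/h` the cell index is `≥ -J`, and for a.e. `x` in the cell `i`: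
`|log ρ₀ x - log ρ₀ (y i)| ≤ eVariationOn g₁ (cell)`; sum over the cells: `∫ ≤ h (V + h)`, etc.; `ρ₀ = exp(log ρ₀)`,
`e₀ = p₀/((γ-1)ρ₀)` are Lipschitz functions of `(log ρ₀, p₀)` in the box; `∑` of the variations over disjoint cells is `≤` the
variation on the line.
-/

open MeasureTheory Set Filter Topology
open scoped ENNReal

namespace Helper51.TH

open Helper73.EU

/-! ### representatives -/

private theorem in_rep {f : ℝ → ℝ} {T : ℝ} (hT0 : 0 ≤ T) (hT : eTV f < ENNReal.ofReal T) :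
    ∃ g F : ℝ → ℝ, g =ᵐ[volume] f ∧ Monotone F ∧ (∀ x, 0 ≤ F x ∧ F x ≤ T) ∧
      ∀ x y, x ≤ y → |g y - g x| ≤ F y - F x := by
  unfold eTV at hT
  obtain ⟨g, hg⟩ := iInf_lt_iff.1 hT
  obtain ⟨hgf, hg⟩ := iInf_lt_iff.1 hg
  have hfin : eVariationOn g univ ≠ ⊤ := (hg.trans ENNReal.ofReal_lt_top).ne
  have hsub : ∀ s : Set ℝ, eVariationOn g s ≤ eVariationOn g univ := fun s =>
    eVariationOn.mono g (subset_univ s)
  have hfin' : ∀ s : Set ℝ, eVariationOn g s ≠ ⊤ := fun s => ne_top_of_le_ne_top hfin (hsub s)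
  have hadd : ∀ x y, x ≤ y → eVariationOn g (Iic y) =
      eVariationOn g (Iic x) + eVariationOn g (Icc x y) := by
    intro x y hxy
    rw [← eVariationOn.union g (s := Iic x) (t := Icc x y) (x := x) isGreatest_Iic
      (isLeast_Icc hxy), Iic_union_Icc_eq_Iic hxy]
  have key : ∀ x y, x ≤ y → |g y - g x| ≤
      (eVariationOn g (Iic y)).toReal - (eVariationOn g (Iic x)).toReal := by
    intro x y hxy
    rw [hadd x y hxy, ENNReal.toReal_add (hfin' _) (hfin' _), add_sub_cancel_left]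
    have h1 := eVariationOn.edist_le g (right_mem_Icc.2 hxy) (left_mem_Icc.2 hxy)
    rw [edist_dist, Real.dist_eq] at h1
    exact (ENNReal.ofReal_le_iff_le_toReal (hfin' _)).1 h1
  refine ⟨g, fun x => (eVariationOn g (Iic x)).toReal, hgf, ?_, ?_, key⟩
  · intro x y hxy
    exact sub_nonneg.1 ((abs_nonneg _).trans (key x y hxy))
  · intro x
    exact ⟨ENNReal.toReal_nonneg, ENNReal.toReal_le_of_le_ofReal hT0 ((hsub _).trans hg.le)⟩

/-! ### logarithms -/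

private theorem in_log' {s t m : ℝ} (hm : 0 < m) (hs : m ≤ s) (ht : m ≤ t) (hts : t ≤ s) :
    |Real.log s - Real.log t| ≤ |s - t| / m := by
  have hs0 : 0 < s := hm.trans_le hs
  have ht0 : 0 < t := hm.trans_le ht
  have h1 : 0 ≤ Real.log s - Real.log t := sub_nonneg.2 (Real.log_le_log ht0 hts)
  rw [abs_of_nonneg h1, abs_of_nonneg (sub_nonneg.2 hts), ← Real.log_div hs0.ne' ht0.ne']
  have h2 := Real.log_le_sub_one_of_pos (div_pos hs0 ht0)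
  have h3 : s / t - 1 = (s - t) / t := by field_simp
  rw [h3] at h2
  exact h2.trans (div_le_div_of_nonneg_left (sub_nonneg.2 hts) hm ht)

private theorem in_log {s t m : ℝ} (hm : 0 < m) (hs : m ≤ s) (ht : m ≤ t) :
    |Real.log s - Real.log t| ≤ |s - t| / m := by
  rcases le_total t s with h | h
  · exact in_log' hm hs ht h
  · rw [abs_sub_comm, abs_sub_comm s]
    exact in_log' hm ht hs h

private theorem in_exp' {s t M : ℝ} (hs : 0 < s) (ht : 0 < t) (hsM : s ≤ M) (hts : t ≤ s) :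
    |s - t| ≤ M * |Real.log s - Real.log t| := by
  have h1 : 0 ≤ Real.log s - Real.log t := sub_nonneg.2 (Real.log_le_log ht hts)
  rw [abs_of_nonneg h1, abs_of_nonneg (sub_nonneg.2 hts)]
  have h2 := Real.log_le_sub_one_of_pos (div_pos ht hs)
  rw [Real.log_div ht.ne' hs.ne'] at h2
  have h3 : s * (Real.log t - Real.log s) ≤ s * (t / s - 1) := mul_le_mul_of_nonneg_left h2 hs.le
  have h4 : s * (t / s - 1) = t - s := by field_simp
  have h5 : s * (Real.log s - Real.log t) ≤ M * (Real.log s - Real.log t) :=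
    mul_le_mul_of_nonneg_right hsM h1
  rw [h4] at h3
  linarith

private theorem in_exp {s t M : ℝ} (hs : 0 < s) (ht : 0 < t) (hsM : s ≤ M) (htM : t ≤ M) :
    |s - t| ≤ M * |Real.log s - Real.log t| := by
  rcases le_total t s with h | h
  · exact in_exp' hs ht hsM h
  · rw [abs_sub_comm, abs_sub_comm (Real.log s)]
    exact in_exp' ht hs htM h

/-! ### states -/

private theorem in_pr_ge {γ a b ρ u e : ℝ} (hγ : 1 < γ) (ha : 0 < a) (hB : Box a b ρ u e) :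
    (γ - 1) * a ^ 2 ≤ pr γ ρ e := by
  obtain ⟨h1, _, _, h4, _⟩ := hB
  have h5 : a * a ≤ ρ * e := mul_le_mul h1 h4 ha.le (ha.le.trans h1)
  have h6 : 0 ≤ γ - 1 := by linarith
  have h7 := mul_le_mul_of_nonneg_left h5 h6
  unfold pr
  rw [mul_assoc, sq]
  exact h7

private theorem in_pr_le {γ a b ρ u e : ℝ} (hγ : 1 < γ) (ha : 0 < a) (hB : Box a b ρ u e) :
    pr γ ρ e ≤ (γ - 1) * b ^ 2 := by
  obtain ⟨h1, h2, _, h4, h5⟩ := hB
  have h5 : ρ * e ≤ b * b := mul_le_mul h2 h5 (ha.le.trans h4) (ha.le.trans (h1.trans h2))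
  have h6 : 0 ≤ γ - 1 := by linarith
  have h7 := mul_le_mul_of_nonneg_left h5 h6
  unfold pr
  rw [mul_assoc, sq]
  exact h7

private theorem in_pair {γ a b ζ₂ : ℝ} (hγ : 1 < γ) (ha : 0 < a) {ρ u e ρ' u' e' : ℝ} {w w' : St}
    (hB : Box a b ρ u e) (hB' : Box a b ρ' u' e') (hz : 0 < w.z) (hz' : 0 < w'.z)
    (hzm : w.z ≤ ζ₂) (hzm' : w'.z ≤ ζ₂)
    (h1 : w.z = pr γ ρ e ^ ((γ - 1) / (2 * γ)))
    (h2 : w.l = (Real.log γ + 1 / γ * Real.log (pr γ ρ e) - Real.log ρ) / 2)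
    (h1' : w'.z = pr γ ρ' e' ^ ((γ - 1) / (2 * γ)))
    (h2' : w'.l = (Real.log γ + 1 / γ * Real.log (pr γ ρ' e') - Real.log ρ') / 2) :
    |w'.z - w.z| ≤ (|ζ₂| + 1) / ((γ - 1) * a ^ 2) * |pr γ ρ' e' - pr γ ρ e| ∧
    |w'.l - w.l| ≤ |Real.log ρ' - Real.log ρ| / 2 +
      (|ζ₂| + 1) / ((γ - 1) * a ^ 2) * |pr γ ρ' e' - pr γ ρ e| := by
  have hγ0 : 0 < γ := by linarith
  have hγ1 : 0 < γ - 1 := by linarith
  obtain ⟨p₁, hp₁⟩ : ∃ p₁ : ℝ, p₁ = (γ - 1) * a ^ 2 := ⟨_, rfl⟩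
  have hp₁0 : 0 < p₁ := by rw [hp₁]; positivity
  have hp := in_pr_ge hγ ha hB
  have hp' := in_pr_ge hγ ha hB'
  rw [← hp₁] at hp hp' ⊢
  obtain ⟨p, hpe⟩ : ∃ p, p = pr γ ρ e := ⟨_, rfl⟩
  obtain ⟨p', hpe'⟩ : ∃ p', p' = pr γ ρ' e' := ⟨_, rfl⟩
  rw [← hpe] at hp h1 h2
  rw [← hpe'] at hp' h1' h2'
  rw [← hpe, ← hpe']
  have hp0 : 0 < p := hp₁0.trans_le hp
  have hp0' : 0 < p' := hp₁0.trans_le hp'
  obtain ⟨α, hα⟩ : ∃ α : ℝ, α = (γ - 1) / (2 * γ) := ⟨_, rfl⟩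
  have hα0 : 0 ≤ α := by rw [hα]; positivity
  have hα1 : α ≤ 1 := by
    rw [hα, div_le_one (by positivity)]
    linarith
  rw [← hα] at h1 h1'
  have hl1 : Real.log w.z = α * Real.log p := by rw [h1, Real.log_rpow hp0]
  have hl2 : Real.log w'.z = α * Real.log p' := by rw [h1', Real.log_rpow hp0']
  have hL := in_log hp₁0 hp' hp
  have hD : 0 ≤ |p' - p| / p₁ := by positivity
  have hζ : ζ₂ ≤ |ζ₂| := le_abs_self _
  have hζ0 : 0 ≤ |ζ₂| := abs_nonneg _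
  constructor
  · have h3 := in_exp hz' hz hzm' hzm
    rw [hl1, hl2, ← mul_sub, abs_mul, abs_of_nonneg hα0] at h3
    have h4 : α * |Real.log p' - Real.log p| ≤ 1 * (|p' - p| / p₁) :=
      mul_le_mul hα1 hL (abs_nonneg _) zero_le_one
    calc |w'.z - w.z| ≤ ζ₂ * (α * |Real.log p' - Real.log p|) := h3
      _ ≤ (|ζ₂| + 1) * (|p' - p| / p₁) := by
          rw [one_mul] at h4
          exact mul_le_mul (by linarith) h4 (by positivity) (by linarith)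
      _ = _ := by ring
  · have h3 : w'.l - w.l = (1 / γ * (Real.log p' - Real.log p)) / 2 -
        (Real.log ρ' - Real.log ρ) / 2 := by
      rw [h2, h2']; ring
    have h4 : |(1 / γ * (Real.log p' - Real.log p)) / 2| ≤ |p' - p| / p₁ := by
      rw [abs_div, abs_mul, abs_of_pos (by positivity : (0 : ℝ) < 1 / γ), abs_two]
      have h5 : 1 / γ ≤ 1 := (div_le_one hγ0).2 hγ.le
      have h6 : 1 / γ * |Real.log p' - Real.log p| ≤ 1 * (|p' - p| / p₁) :=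
        mul_le_mul h5 hL (abs_nonneg _) zero_le_one
      linarith
    have h5 : |(Real.log ρ' - Real.log ρ) / 2| = |Real.log ρ' - Real.log ρ| / 2 := by
      rw [abs_div, abs_two]
    have h6 : |p' - p| / p₁ ≤ (|ζ₂| + 1) / p₁ * |p' - p| := by
      have h7 : (|ζ₂| + 1) / p₁ * |p' - p| = (|ζ₂| + 1) * (|p' - p| / p₁) := by ring
      rw [h7]
      nlinarith
    rw [h3]
    have h8 := abs_sub ((1 / γ * (Real.log p' - Real.log p)) / 2) ((Real.log ρ' - Real.log ρ) / 2)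
    rw [h5] at h8
    linarith

theorem data_box {γ a b : ℝ} (hγ : 1 < γ) (ha : 0 < a) : ∃ ζ₁ ζ₂ Λ₀ U₀ : ℝ, 0 < ζ₁ ∧
    ∀ w : St, 0 < w.z → Box a b (rho γ w) w.u (ien γ w) → InB ζ₁ ζ₂ Λ₀ w ∧ |w.u| ≤ U₀ := by
  have hγ0 : 0 < γ := by linarith
  have hγ1 : 0 < γ - 1 := by linarith
  obtain ⟨p₁, hp₁⟩ : ∃ p₁ : ℝ, p₁ = (γ - 1) * a ^ 2 := ⟨_, rfl⟩
  obtain ⟨p₂, hp₂⟩ : ∃ p₂ : ℝ, p₂ = (γ - 1) * b ^ 2 := ⟨_, rfl⟩
  have hp₁0 : 0 < p₁ := by rw [hp₁]; positivity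
  refine ⟨p₁ ^ ((γ - 1) / (2 * γ)), p₂ ^ ((γ - 1) / (2 * γ)),
    |Real.log γ| + (|Real.log p₁| + |Real.log p₂|) + (|Real.log a| + |Real.log b|), b,
    Real.rpow_pos_of_pos hp₁0 _, ?_⟩
  intro w hw hB
  have h1 := in_pr_ge hγ ha hB
  have h2 := in_pr_le hγ ha hB
  rw [pr_eq hγ hw, ← hp₁] at h1
  rw [pr_eq hγ hw, ← hp₂] at h2
  have hz : w.z = prs γ w ^ ((γ - 1) / (2 * γ)) := by
    unfold prs
    rw [← Real.rpow_mul hw.le]
    have h3 : 2 * γ / (γ - 1) * ((γ - 1) / (2 * γ)) = 1 := by field_simp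
    rw [h3, Real.rpow_one]
  have hα0 : 0 ≤ (γ - 1) / (2 * γ) := by positivity
  have hprs := prs_pos (γ := γ) hw
  have hab : ∀ {s t x : ℝ}, 0 < s → s ≤ x → x ≤ t →
      |Real.log x| ≤ |Real.log s| + |Real.log t| := by
    intro s t x hs hsx hxt
    have e1 := Real.log_le_log hs hsx
    have e2 := Real.log_le_log (hs.trans_le hsx) hxt
    have e3 := neg_abs_le (Real.log s)
    have e4 := le_abs_self (Real.log t)
    have e5 := abs_nonneg (Real.log s)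
    have e6 := abs_nonneg (Real.log t)
    rw [abs_le]
    constructor <;> linarith
  refine ⟨⟨?_, ?_, ?_⟩, hB.2.2.1⟩
  · rw [hz]
    exact Real.rpow_le_rpow hp₁0.le h1 hα0
  · rw [hz]
    exact Real.rpow_le_rpow hprs.le h2 hα0
  · have h3 := log_rho hγ hw
    have h4 : w.l = (Real.log γ + 1 / γ * Real.log (prs γ w) - Real.log (rho γ w)) / 2 := by
      rw [h3]; ring
    have h5 := hab hp₁0 h1 h2
    have h6 := hab ha hB.1 hB.2.1
    have h7 : |1 / γ * Real.log (prs γ w)| ≤ |Real.log p₁| + |Real.log p₂| := by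
      rw [abs_mul, abs_of_pos (by positivity : (0 : ℝ) < 1 / γ)]
      have h8 : 1 / γ ≤ 1 := (div_le_one hγ0).2 hγ.le
      have h9 := mul_le_mul h8 h5 (abs_nonneg _) zero_le_one
      linarith
    rw [h4, abs_div, abs_two]
    have h8 := abs_sub (Real.log γ + 1 / γ * Real.log (prs γ w)) (Real.log (rho γ w))
    have h9 := abs_add_le (Real.log γ) (1 / γ * Real.log (prs γ w))
    have h10 : 0 ≤ |Real.log γ + 1 / γ * Real.log (prs γ w) - Real.log (rho γ w)| := abs_nonneg _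
    linarith

theorem box_of {γ z₁ z₂ Λ U : ℝ} (hγ : 1 < γ) (hz : 0 < z₁) : ∃ a' b' : ℝ, 0 < a' ∧
    ∀ w : St, InB z₁ z₂ Λ w → |w.u| ≤ U → Box a' b' (rho γ w) w.u (ien γ w) := by
  have hγ0 : 0 < γ := by linarith
  have hγ1 : 0 < γ - 1 := by linarith
  obtain ⟨zm, hzm⟩ : ∃ zm : ℝ, zm = max z₁ z₂ := ⟨_, rfl⟩
  have hzm0 : 0 < zm := by rw [hzm]; exact hz.trans_le (le_max_left _ _)
  have he1 : 0 ≤ 2 / (γ - 1) := by positivity
  have he2 : 0 ≤ 2 * γ / (γ - 1) := by positivity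
  obtain ⟨r₁, hr₁⟩ : ∃ r₁ : ℝ, r₁ = γ * z₁ ^ (2 / (γ - 1)) * Real.exp (-(2 * Λ)) := ⟨_, rfl⟩
  obtain ⟨r₂, hr₂⟩ : ∃ r₂ : ℝ, r₂ = γ * zm ^ (2 / (γ - 1)) * Real.exp (2 * Λ) := ⟨_, rfl⟩
  obtain ⟨p₁, hp₁⟩ : ∃ p₁ : ℝ, p₁ = z₁ ^ (2 * γ / (γ - 1)) := ⟨_, rfl⟩
  obtain ⟨p₂, hp₂⟩ : ∃ p₂ : ℝ, p₂ = zm ^ (2 * γ / (γ - 1)) := ⟨_, rfl⟩
  have a1 : 0 < z₁ ^ (2 / (γ - 1)) := Real.rpow_pos_of_pos hz _
  have a2 : 0 < zm ^ (2 / (γ - 1)) := Real.rpow_pos_of_pos hzm0 _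
  have hr₁0 : 0 < r₁ := by rw [hr₁]; positivity
  have hr₂0 : 0 < r₂ := by rw [hr₂]; positivity
  have hp₁0 : 0 < p₁ := by rw [hp₁]; exact Real.rpow_pos_of_pos hz _
  have hp₂0 : 0 < p₂ := by rw [hp₂]; exact Real.rpow_pos_of_pos hzm0 _
  refine ⟨min r₁ (p₁ / ((γ - 1) * r₂)), r₂ + |U| + p₂ / ((γ - 1) * r₁), ?_, ?_⟩
  · exact lt_min hr₁0 (by positivity)
  · rintro w ⟨h1, h2, h3⟩ hu
    have hw : 0 < w.z := hz.trans_le h1
    have hwm : w.z ≤ zm := by rw [hzm]; exact h2.trans (le_max_right _ _)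
    have h3' := abs_le.1 h3
    have b1 : z₁ ^ (2 / (γ - 1)) ≤ w.z ^ (2 / (γ - 1)) := Real.rpow_le_rpow hz.le h1 he1
    have b2 : w.z ^ (2 / (γ - 1)) ≤ zm ^ (2 / (γ - 1)) := Real.rpow_le_rpow hw.le hwm he1
    have b3 : Real.exp (-(2 * Λ)) ≤ Real.exp (-(2 * w.l)) := Real.exp_le_exp.2 (by linarith)
    have b4 : Real.exp (-(2 * w.l)) ≤ Real.exp (2 * Λ) := Real.exp_le_exp.2 (by linarith)
    have c1 : r₁ ≤ rho γ w := by
      rw [hr₁]
      unfold rho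
      exact mul_le_mul (mul_le_mul_of_nonneg_left b1 hγ0.le) b3 (Real.exp_pos _).le
        (by positivity)
    have c2 : rho γ w ≤ r₂ := by
      rw [hr₂]
      unfold rho
      exact mul_le_mul (mul_le_mul_of_nonneg_left b2 hγ0.le) b4 (Real.exp_pos _).le
        (by positivity)
    have c3 : p₁ ≤ prs γ w := by
      rw [hp₁]; exact Real.rpow_le_rpow hz.le h1 he2
    have c4 : prs γ w ≤ p₂ := by
      rw [hp₂]; exact Real.rpow_le_rpow hw.le hwm he2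
    have hr0 : 0 < rho γ w := rho_pos hγ hw
    have c5 : p₁ / ((γ - 1) * r₂) ≤ ien γ w := by
      unfold ien
      exact div_le_div₀ (prs_pos hw).le c3 (by positivity)
        (mul_le_mul_of_nonneg_left c2 hγ1.le)
    have c6 : ien γ w ≤ p₂ / ((γ - 1) * r₁) := by
      unfold ien
      exact div_le_div₀ hp₂0.le c4 (by positivity)
        (mul_le_mul_of_nonneg_left c1 hγ1.le)
    have d1 : 0 ≤ |U| := abs_nonneg _
    have d2 : 0 < p₂ / ((γ - 1) * r₁) := by positivity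
    exact ⟨(min_le_left _ _).trans c1, by linarith, by linarith [le_abs_self U],
      (min_le_right _ _).trans c5, by linarith⟩


/-! ### windows -/

private theorem in_waves (γ : ℝ) (n : ℕ) (F : ℕ → St) :
    waves γ ((List.range (n + 1)).map F) =
      (List.range n).map (fun j => wv γ (F j) (F (j + 1))) := by
  induction n generalizing F with
  | zero => simp [waves]
  | succ n ih =>
    have h1 : (List.range (n + 1 + 1)).map F =
        F 0 :: (List.range (n + 1)).map (fun j => F (j + 1)) := by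
      rw [List.range_succ_eq_map, List.map_cons, List.map_map]
      rfl
    have h2 : (List.range (n + 1)).map (fun j => F (j + 1)) =
        F 1 :: (List.range n).map (fun j => F (j + 1 + 1)) := by
      rw [List.range_succ_eq_map, List.map_cons, List.map_map]
      rfl
    have h3 : (List.range (n + 1)).map (fun j => wv γ (F j) (F (j + 1))) =
        wv γ (F 0) (F 1) :: (List.range n).map (fun j => wv γ (F (j + 1)) (F (j + 1 + 1))) := by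
      rw [List.range_succ_eq_map, List.map_cons, List.map_map]
      rfl
    rw [h1, h3, ← ih (fun j => F (j + 1)), h2]
    rfl

private theorem in_sum (f : ℕ → ℝ) (n : ℕ) :
    ((List.range n).map f).sum = ∑ j ∈ Finset.range n, f j := by
  induction n with
  | zero => simp
  | succ n ih => rw [List.range_succ, List.map_append, List.sum_append, ih,
      Finset.sum_range_succ]; simp

private theorem in_win_waves (γ : ℝ) (U : ℤ → St) (M : ℕ) :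
    waves γ (win U M) = (List.range (2 * M)).map
      (fun j : ℕ => wv γ (U ((j : ℤ) - M)) (U ((j : ℤ) - M + 1))) := by
  unfold win
  rw [in_waves γ (2 * M) (fun j : ℕ => U ((j : ℤ) - M))]
  refine List.map_congr_left fun j _ => ?_
  have h : (((j + 1 : ℕ) : ℤ) - M) = (j : ℤ) - M + 1 := by push_cast; ring
  rw [h]

/-- sums over a window -/
private theorem in_win_sum {γ c₃ c₅ T₁ T₂ : ℝ} {U : ℤ → St} {F₁ F₂ : ℤ → ℝ}
    (hF₁ : ∀ i, 0 ≤ F₁ i ∧ F₁ i ≤ T₁) (hF₂ : ∀ i, 0 ≤ F₂ i ∧ F₂ i ≤ T₂) (hc₃ : 0 ≤ c₃)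
    (hc₅ : 0 ≤ c₅)
    (hA : ∀ i, |ra γ (U i) (U (i + 1))| + |rb γ (U i) (U (i + 1))| ≤ c₃ * (F₂ (i + 1) - F₂ i))
    (hS : ∀ i, |sg γ (U i) (U (i + 1))| / 2 ≤ (F₁ (i + 1) - F₁ i) / 4 +
      c₅ * (F₂ (i + 1) - F₂ i)) (M : ℕ) :
    Am (waves γ (win U M)) ≤ c₃ * T₂ ∧ VV γ (win U M) ≤ T₁ / 4 + c₅ * T₂ := by
  have tel : ∀ F : ℤ → ℝ, ∑ j ∈ Finset.range (2 * M),
      (F ((j : ℤ) - M + 1) - F ((j : ℤ) - M)) = F M - F (-M) := by
    intro F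
    have h1 := Finset.sum_range_sub (fun j : ℕ => F ((j : ℤ) - M)) (2 * M)
    have h2 : (((2 * M : ℕ) : ℤ) - M) = M := by push_cast; ring
    have h3 : (((0 : ℕ) : ℤ) - M) = -M := by push_cast; ring
    rw [h2, h3] at h1
    rw [← h1]
    refine Finset.sum_congr rfl fun j _ => ?_
    have h : (((j + 1 : ℕ) : ℤ) - M) = (j : ℤ) - M + 1 := by push_cast; ring
    rw [h]
  have t₁ : F₁ M - F₁ (-M) ≤ T₁ := by linarith [(hF₁ M).2, (hF₁ (-M)).1]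
  have t₂ : F₂ M - F₂ (-M) ≤ T₂ := by linarith [(hF₂ M).2, (hF₂ (-M)).1]
  constructor
  · unfold Am
    rw [in_win_waves, List.map_map, in_sum]
    calc ∑ j ∈ Finset.range (2 * M), ((fun w : Wv => |w.a| + |w.b|) ∘
          fun j : ℕ => wv γ (U ((j : ℤ) - M)) (U ((j : ℤ) - M + 1))) j
        ≤ ∑ j ∈ Finset.range (2 * M), c₃ * (F₂ ((j : ℤ) - M + 1) - F₂ ((j : ℤ) - M)) :=
          Finset.sum_le_sum fun j _ => hA _
      _ = c₃ * (F₂ M - F₂ (-M)) := by rw [← Finset.mul_sum, tel]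
      _ ≤ c₃ * T₂ := mul_le_mul_of_nonneg_left t₂ hc₃
  · unfold VV Vc
    rw [in_win_waves, List.map_map, in_sum]
    calc ∑ j ∈ Finset.range (2 * M), (Wv.s ∘
          fun j : ℕ => wv γ (U ((j : ℤ) - M)) (U ((j : ℤ) - M + 1))) j
        ≤ ∑ j ∈ Finset.range (2 * M), ((F₁ ((j : ℤ) - M + 1) - F₁ ((j : ℤ) - M)) / 4 +
            c₅ * (F₂ ((j : ℤ) - M + 1) - F₂ ((j : ℤ) - M))) :=
          Finset.sum_le_sum fun j _ => hS _
      _ = (F₁ M - F₁ (-M)) / 4 + c₅ * (F₂ M - F₂ (-M)) := by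
          rw [Finset.sum_add_distrib, ← Finset.mul_sum, ← Finset.sum_div, tel, tel]
      _ ≤ T₁ / 4 + c₅ * T₂ := by
          have := mul_le_mul_of_nonneg_left t₂ hc₅
          linarith

/-! ### the integral of a monotone function -/

private theorem in_int {F : ℝ → ℝ} {T h R : ℝ} (hF : Monotone F)
    (hb : ∀ x, 0 ≤ F x ∧ F x ≤ T) (hh : 0 < h) (hR : 0 < R) :
    IntegrableOn (fun x => F (x + h) - F (x - h)) (Ioo (-R) R) ∧
    ∫ x in Ioo (-R) R, (F (x + h) - F (x - h)) ≤ 2 * h * T := by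
  have hI : ∀ a b : ℝ, IntervalIntegrable F volume a b := fun a b =>
    (hF.monotoneOn _).intervalIntegrable
  have hm1 : Monotone (fun x => F (x + h)) := fun x y hxy => hF (by linarith)
  have hm2 : Monotone (fun x => F (x - h)) := fun x y hxy => hF (by linarith)
  have hI1 : ∀ a b : ℝ, IntervalIntegrable (fun x => F (x + h)) volume a b := fun a b =>
    (hm1.monotoneOn _).intervalIntegrable
  have hI2 : ∀ a b : ℝ, IntervalIntegrable (fun x => F (x - h)) volume a b := fun a b =>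
    (hm2.monotoneOn _).intervalIntegrable
  have hRR : -R ≤ R := by linarith
  constructor
  · have h1 := ((hI1 (-R) R).sub (hI2 (-R) R)).1
    exact h1.mono_set Ioo_subset_Ioc_self
  · rw [← integral_Ioc_eq_integral_Ioo, ← intervalIntegral.integral_of_le hRR,
      intervalIntegral.integral_sub (hI1 _ _) (hI2 _ _),
      intervalIntegral.integral_comp_add_right (fun x => F x) h,
      intervalIntegral.integral_comp_sub_right (fun x => F x) h,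
      intervalIntegral.integral_interval_sub_interval_comm (hI _ _) (hI _ _) (hI _ _),
      intervalIntegral.integral_symm (-R - h) (-R + h), intervalIntegral.integral_symm (R - h) (R + h)]
    have h1 : 0 ≤ ∫ x in (-R - h)..(-R + h), F x :=
      intervalIntegral.integral_nonneg (by linarith) fun x _ => (hb x).1
    have h2 : ∫ x in (R - h)..(R + h), F x ≤ ∫ _ in (R - h)..(R + h), T :=
      intervalIntegral.integral_mono_on (by linarith) (hI _ _) intervalIntegrable_const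
        fun x _ => (hb x).2
    rw [intervalIntegral.integral_const, smul_eq_mul] at h2
    have h3 : (R + h - (R - h)) * T = 2 * h * T := by ring
    rw [h3] at h2
    linarith

/-! ### the differences of the data -/

private theorem in_diff {γ a b : ℝ} (hγ : 1 < γ) (ha : 0 < a) {ρ u e ρ' u' e' d₁ d₂ d₃ : ℝ}
    (hB : Box a b ρ u e) (hB' : Box a b ρ' u' e') (h1 : |Real.log ρ - Real.log ρ'| ≤ d₁)
    (h2 : |u - u'| ≤ d₂) (h3 : |pr γ ρ e - pr γ ρ' e'| ≤ d₃) :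
    |ρ - ρ'| + |u - u'| + |e - e'| ≤
      (|b| + 1 + (1 / (γ - 1) + b ^ 2) / a) * (d₁ + d₂ + d₃) := by
  have hγ1 : 0 < γ - 1 := by linarith
  obtain ⟨x1, x2, x3, x4, x5⟩ := hB
  obtain ⟨y1, y2, y3, y4, y5⟩ := hB'
  have hb : 0 < b := ha.trans_le (x1.trans x2)
  have hd₁ : 0 ≤ d₁ := (abs_nonneg _).trans h1
  have hd₂ : 0 ≤ d₂ := (abs_nonneg _).trans h2
  have hd₃ : 0 ≤ d₃ := (abs_nonneg _).trans h3
  have e1 : |ρ - ρ'| ≤ b * d₁ :=
    (in_exp (ha.trans_le x1) (ha.trans_le y1) x2 y2).trans (mul_le_mul_of_nonneg_left h1 hb.le)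
  have e2 : ρ * (e - e') = (pr γ ρ e - pr γ ρ' e') / (γ - 1) - e' * (ρ - ρ') := by
    unfold pr
    field_simp
    ring
  have e3 : |ρ * (e - e')| ≤ d₃ / (γ - 1) + b * (b * d₁) := by
    rw [e2]
    refine (abs_sub _ _).trans (add_le_add ?_ ?_)
    · rw [abs_div, abs_of_pos hγ1]
      exact div_le_div_of_nonneg_right h3 hγ1.le
    · rw [abs_mul, abs_of_pos (ha.trans_le y4)]
      exact mul_le_mul y5 e1 (abs_nonneg _) hb.le
  have e4 : |e - e'| ≤ (d₃ / (γ - 1) + b * (b * d₁)) / a := by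
    rw [le_div_iff₀ ha]
    rw [abs_mul, abs_of_pos (ha.trans_le x1)] at e3
    have e5 : a * |e - e'| ≤ ρ * |e - e'| := mul_le_mul_of_nonneg_right x1 (abs_nonneg _)
    linarith
  have e6 : (d₃ / (γ - 1) + b * (b * d₁)) / a ≤ (1 / (γ - 1) + b ^ 2) / a * (d₁ + d₂ + d₃) := by
    have e7 : (1 / (γ - 1) + b ^ 2) / a * (d₁ + d₂ + d₃) =
        (d₃ / (γ - 1) + b * (b * d₁)) / a + ((d₁ + d₂) / (γ - 1) + b ^ 2 * (d₂ + d₃)) / a := by
      field_simp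
      ring
    rw [e7]
    have : 0 ≤ ((d₁ + d₂) / (γ - 1) + b ^ 2 * (d₂ + d₃)) / a := by positivity
    linarith
  rw [abs_of_pos hb]
  have e8 : (b + 1 + (1 / (γ - 1) + b ^ 2) / a) * (d₁ + d₂ + d₃) =
      b * d₁ + d₂ + (1 / (γ - 1) + b ^ 2) / a * (d₁ + d₂ + d₃) + (b * (d₂ + d₃) + d₁ + d₃) := by
    ring
  have e9 : 0 ≤ b * (d₂ + d₃) + d₁ + d₃ := by positivity
  rw [e8]
  linarith

/-! ### the initial states -/

private theorem in_delta {c₁ c₃ c₅ C r ζ₁ v δ : ℝ} (hc₁ : 0 < c₁) (hc₃ : 0 < c₃) (hc₅ : 0 < c₅)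
    (hC : 0 < C) (hr : 0 < r) (hζ : 0 < ζ₁) (hv : 0 < v) (hδ : 0 < δ) :
    ∃ δ' : ℝ, 0 < δ' ∧ δ' ≤ 1 ∧ (c₁ + 1) * (3 * δ') ≤ r ∧ c₃ * (3 * δ') ≤ ζ₁ / 2 ∧
      c₃ * (3 * δ') ≤ 1 ∧ δ' / 4 + c₅ * (3 * δ') + C * (c₃ * (3 * δ')) ≤ v ∧
      C * (c₃ * (3 * δ')) ≤ δ := by
  obtain ⟨m, hm⟩ : ∃ m : ℝ, m = min 1 (min r (min (ζ₁ / 2) (min v δ))) := ⟨_, rfl⟩
  have hm0 : 0 < m := by
    rw [hm]
    exact lt_min one_pos (lt_min hr (lt_min (by linarith) (lt_min hv hδ)))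
  have m1 : m ≤ 1 := by rw [hm]; exact min_le_left _ _
  have m2 : m ≤ r := by rw [hm]; exact (min_le_right _ _).trans (min_le_left _ _)
  have m3 : m ≤ ζ₁ / 2 := by
    rw [hm]; exact (min_le_right _ _).trans ((min_le_right _ _).trans (min_le_left _ _))
  have m4 : m ≤ v := by
    rw [hm]
    exact (min_le_right _ _).trans ((min_le_right _ _).trans ((min_le_right _ _).trans
      (min_le_left _ _)))
  have m5 : m ≤ δ := by
    rw [hm]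
    exact (min_le_right _ _).trans ((min_le_right _ _).trans ((min_le_right _ _).trans
      (min_le_right _ _)))
  obtain ⟨B, hB⟩ : ∃ B : ℝ, B = 1 + (c₁ + 1) * 3 + c₃ * 3 + (1 / 4 + c₅ * 3 + C * (c₃ * 3)) :=
    ⟨_, rfl⟩
  have p1 : 0 < (c₁ + 1) * 3 := by positivity
  have p2 : 0 < c₃ * 3 := by positivity
  have p3 : 0 < c₅ * 3 := by positivity
  have p4 : 0 < C * (c₃ * 3) := by positivity
  have hB0 : 0 < B := by rw [hB]; positivity
  have hδ0 : 0 < m / B := div_pos hm0 hB0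
  have hBm : B * (m / B) = m := by field_simp
  have key : ∀ c : ℝ, c ≤ B → c * (m / B) ≤ m := fun c hc => by
    have h := mul_le_mul_of_nonneg_right hc hδ0.le
    rwa [hBm] at h
  have q1 := key 1 (by rw [hB]; linarith)
  have q2 := key ((c₁ + 1) * 3) (by rw [hB]; linarith)
  have q3 := key (c₃ * 3) (by rw [hB]; linarith)
  have q4 := key (1 / 4 + c₅ * 3 + C * (c₃ * 3)) (by rw [hB]; linarith)
  have q5 := key (C * (c₃ * 3)) (by rw [hB]; linarith)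
  refine ⟨m / B, hδ0, by linarith, ?_, ?_, ?_, ?_, ?_⟩
  · calc (c₁ + 1) * (3 * (m / B)) = (c₁ + 1) * 3 * (m / B) := by ring
      _ ≤ r := q2.trans m2
  · calc c₃ * (3 * (m / B)) = c₃ * 3 * (m / B) := by ring
      _ ≤ ζ₁ / 2 := q3.trans m3
  · calc c₃ * (3 * (m / B)) = c₃ * 3 * (m / B) := by ring
      _ ≤ 1 := q3.trans m1
  · calc m / B / 4 + c₅ * (3 * (m / B)) + C * (c₃ * (3 * (m / B)))
        = (1 / 4 + c₅ * 3 + C * (c₃ * 3)) * (m / B) := by ring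
      _ ≤ v := q4.trans m4
  · calc C * (c₃ * (3 * (m / B))) = C * (c₃ * 3) * (m / B) := by ring
      _ ≤ δ := q5.trans m5

private theorem in_osc {g F : ℝ → ℝ} (hF : Monotone F)
    (hg : ∀ x y, x ≤ y → |g y - g x| ≤ F y - F x) {x h s t : ℝ} (hs1 : x - h ≤ s)
    (hs2 : s ≤ x + h) (ht1 : x - h ≤ t) (ht2 : t ≤ x + h) :
    |g s - g t| ≤ F (x + h) - F (x - h) := by
  rcases le_total s t with hst | hst
  · rw [abs_sub_comm]
    exact (hg s t hst).trans (sub_le_sub (hF ht2) (hF hs1))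
  · exact (hg t s hst).trans (sub_le_sub (hF hs2) (hF ht1))

private theorem in_cube {x : ℝ} (hx : |x| ≤ 1) : ng x ^ 3 ≤ |x| := by
  have h0 := ng_nonneg x
  have h1 := ng_le_abs x
  have h2 : ng x ≤ 1 := h1.trans hx
  have h3 : ng x ^ 3 ≤ ng x := by
    have h4 : ng x ^ 2 ≤ 1 := pow_le_one₀ h0 h2
    calc ng x ^ 3 = ng x ^ 2 * ng x := by ring
      _ ≤ 1 * ng x := mul_le_mul_of_nonneg_right h4 h0
      _ = ng x := one_mul _
  exact h3.trans h1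

theorem init {γ ζ₁ ζ₂ Λ₀ U₀ θ μ V₁ K δ Λc C a b V : ℝ}
    (hA : Adm γ ζ₁ ζ₂ Λ₀ U₀ θ μ V₁ K δ Λc C) (ha : 0 < a)
    (hbox : ∀ w : St, 0 < w.z → Box a b (rho γ w) w.u (ien γ w) →
      InB ζ₁ ζ₂ Λ₀ w ∧ |w.u| ≤ U₀) (hV : V / 4 < V₁) (hV₁ : 0 < V₁) :
    ∃ δ' C' : ℝ, 0 < δ' ∧ 0 < C' ∧ ∀ ρ₀ u₀ e₀ : ℝ → ℝ, Small γ a b V δ' ρ₀ u₀ e₀ →
      ∀ h : ℝ, 0 < h → h ≤ δ' → ∃ (w₀ : St) (U : ℤ → St), InB ζ₁ ζ₂ Λ₀ w₀ ∧ |w₀.u| ≤ U₀ ∧
        Good γ ζ₁ ζ₂ Λ₀ U₀ θ μ V₁ K δ w₀ U ∧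
        (∀ M : ℕ, FF γ θ μ K (win U M) ≤ C' * ((tv₀ γ ρ₀ u₀ e₀).toReal + h)) ∧
        ∀ R : ℝ, 0 < R → R ≤ 1 / h → ∫ x in Ioo (-R) R,
          (|rho γ (U ⌊x / h⌋) - ρ₀ x| + |(U ⌊x / h⌋).u - u₀ x| +
            |ien γ (U ⌊x / h⌋) - e₀ x|) ≤ C' * h := by
  have hγ := hA.hγ
  have hζ := hA.hζ
  have hC := hA.hC
  have hγ1 : 0 < γ - 1 := by linarith
  obtain ⟨Cr, r, hCr, hr, hra⟩ := ra_bound (γ := γ) (z₁ := ζ₁) (z₂ := ζ₂) (Λ := Λ₀) hγ hζ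
  obtain ⟨Cj, hCj, hjb⟩ := jump_bound (γ := γ) (z₁ := ζ₁) (z₂ := ζ₂) (Λ := Λ₀) hγ hζ
  obtain ⟨c₁, hc₁⟩ : ∃ c₁ : ℝ, c₁ = (|ζ₂| + 1) / ((γ - 1) * a ^ 2) := ⟨_, rfl⟩
  have hc₁0 : 0 < c₁ := by rw [hc₁]; positivity
  obtain ⟨c₃, hc₃⟩ : ∃ c₃ : ℝ, c₃ = Cr * (c₁ + 1) := ⟨_, rfl⟩
  have hc₃0 : 0 < c₃ := by rw [hc₃]; positivity
  obtain ⟨c₅, hc₅⟩ : ∃ c₅ : ℝ, c₅ = c₁ + Cj * c₃ := ⟨_, rfl⟩
  have hc₅0 : 0 < c₅ := by rw [hc₅]; positivity
  obtain ⟨c₆, hc₆⟩ : ∃ c₆ : ℝ, c₆ = |b| + 1 + (1 / (γ - 1) + b ^ 2) / a := ⟨_, rfl⟩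
  have hc₆0 : 0 < c₆ := by rw [hc₆]; positivity
  obtain ⟨Vm, hVm⟩ : ∃ Vm : ℝ, Vm = max V 0 := ⟨_, rfl⟩
  have hVm0 : 0 ≤ Vm := by rw [hVm]; exact le_max_right _ _
  have hVVm : V ≤ Vm := by rw [hVm]; exact le_max_left _ _
  have hv : 0 < V₁ - Vm / 4 := by
    rw [hVm]
    rcases le_total V 0 with h | h
    · rw [max_eq_right h]; linarith
    · rw [max_eq_left h]; linarith
  obtain ⟨δ', hδ'0, k1, k2, k3, k4, k5, k6⟩ :=
    in_delta hc₁0 hc₃0 hc₅0 hC hr hζ hv hA.hδ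
  refine ⟨δ', 2 * (C * c₃) + 2 * c₆ * (Vm + 4), hδ'0, by positivity, ?_⟩
  intro ρ₀ u₀ e₀ hS h hh hhδ
  -- the total variations
  have htv : tv₀ γ ρ₀ u₀ e₀ ≠ ⊤ := ne_top_of_le_ne_top ENNReal.ofReal_ne_top hS.small
  obtain ⟨hf2, hf3⟩ := ENNReal.add_ne_top.1 htv
  obtain ⟨τ₂, hτ₂⟩ : ∃ τ₂ : ℝ, τ₂ = (eTV u₀).toReal := ⟨_, rfl⟩
  obtain ⟨τ₃, hτ₃⟩ : ∃ τ₃ : ℝ, τ₃ = (eTV (fun x => pr γ (ρ₀ x) (e₀ x))).toReal := ⟨_, rfl⟩
  have hτ₂0 : 0 ≤ τ₂ := by rw [hτ₂]; exact ENNReal.toReal_nonneg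
  have hτ₃0 : 0 ≤ τ₃ := by rw [hτ₃]; exact ENNReal.toReal_nonneg
  have hτs : (tv₀ γ ρ₀ u₀ e₀).toReal = τ₂ + τ₃ := by
    rw [hτ₂, hτ₃, ← ENNReal.toReal_add hf2 hf3]
    rfl
  have hτδ : τ₂ + τ₃ ≤ δ' := by
    rw [← hτs]
    exact ENNReal.toReal_le_of_le_ofReal hδ'0.le hS.small
  obtain ⟨g₁, F₁, hg₁, mF₁, bF₁, vF₁⟩ := in_rep (f := fun x => Real.log (ρ₀ x)) (T := Vm + h)
    (by linarith) (hS.large.trans_lt ((ENNReal.ofReal_lt_ofReal_iff (by linarith)).2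
      (by linarith)))
  obtain ⟨g₂, F₂, hg₂, mF₂, bF₂, vF₂⟩ := in_rep (f := u₀) (T := τ₂ + h) (by linarith) (by
    rw [← ENNReal.ofReal_toReal hf2, ← hτ₂]
    exact (ENNReal.ofReal_lt_ofReal_iff (by linarith)).2 (by linarith))
  obtain ⟨g₃, F₃, hg₃, mF₃, bF₃, vF₃⟩ := in_rep (f := fun x => pr γ (ρ₀ x) (e₀ x))
    (T := τ₃ + h) (by linarith) (by
    rw [← ENNReal.ofReal_toReal hf3, ← hτ₃]
    exact (ENNReal.ofReal_lt_ofReal_iff (by linarith)).2 (by linarith))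
  -- the good points
  let Gp : ℝ → Prop := fun x => g₁ x = Real.log (ρ₀ x) ∧ g₂ x = u₀ x ∧
    g₃ x = pr γ (ρ₀ x) (e₀ x) ∧ Box a b (ρ₀ x) (u₀ x) (e₀ x)
  have hG : ∀ᵐ x : ℝ, Gp x := by
    filter_upwards [hg₁, hg₂, hg₃, hS.datum.box] with x h1 h2 h3 h4
    exact ⟨h1, h2, h3, h4⟩
  have hd : Dense {x | Gp x} := Measure.dense_of_ae hG
  have hy : ∀ i : ℤ, ∃ y : ℝ, Gp y ∧ y ∈ Ioo ((i : ℝ) * h) (((i : ℝ) + 1) * h) := by
    intro i
    obtain ⟨y, h1, h2⟩ := hd.exists_mem_open isOpen_Ioo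
      (nonempty_Ioo.2 (by nlinarith : (i : ℝ) * h < ((i : ℝ) + 1) * h))
    exact ⟨y, h1, h2⟩
  choose y hyG hyI using hy
  have hW : ∀ x, ∃ w : St, Gp x → 0 < w.z ∧ rho γ w = ρ₀ x ∧ w.u = u₀ x ∧ ien γ w = e₀ x ∧
      w.z = pr γ (ρ₀ x) (e₀ x) ^ ((γ - 1) / (2 * γ)) ∧
      w.l = (Real.log γ + 1 / γ * Real.log (pr γ (ρ₀ x) (e₀ x)) - Real.log (ρ₀ x)) / 2 := by
    intro x
    by_cases hx : Gp x
    · obtain ⟨w, hw⟩ := exists_state (γ := γ) (ρ := ρ₀ x) (u := u₀ x) (e := e₀ x) hγ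
        (ha.trans_le hx.2.2.2.1) (ha.trans_le hx.2.2.2.2.2.2.1)
      exact ⟨w, fun _ => hw⟩
    · exact ⟨⟨0, 0, 0⟩, fun h => absurd h hx⟩
  choose W hW using hW
  have hWB : ∀ x, Gp x → InB ζ₁ ζ₂ Λ₀ (W x) ∧ |(W x).u| ≤ U₀ := by
    intro x hx
    obtain ⟨h1, h2, h3, h4, _, _⟩ := hW x hx
    refine hbox (W x) h1 ?_
    rw [h2, h3, h4]
    exact hx.2.2.2
  obtain ⟨J, hJ⟩ := exists_nat_ge (1 / h ^ 2 + 1)
  obtain ⟨yy, hyy⟩ : ∃ yy : ℤ → ℝ, ∀ i, yy i = y (max i (-(J : ℤ))) := ⟨_, fun _ => rfl⟩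
  obtain ⟨U, hU⟩ : ∃ U : ℤ → St, ∀ i, U i = W (yy i) := ⟨_, fun _ => rfl⟩
  have hyyG : ∀ i, Gp (yy i) := fun i => by rw [hyy]; exact hyG _
  have hym : ∀ i, yy i ≤ yy (i + 1) := by
    intro i
    rw [hyy, hyy]
    rcases le_or_gt (-(J : ℤ)) i with hi | hi
    · rw [max_eq_left hi, max_eq_left (by linarith)]
      have h1 := (hyI i).2
      have h2 := (hyI (i + 1)).1
      push_cast at h2
      linarith
    · rw [max_eq_right hi.le, max_eq_right (by omega)]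
  -- differences of neighbours
  have hpair : ∀ i, |ra γ (U i) (U (i + 1))| + |rb γ (U i) (U (i + 1))| ≤
        c₃ * ((F₂ (yy (i + 1)) + F₃ (yy (i + 1))) - (F₂ (yy i) + F₃ (yy i))) ∧
      |sg γ (U i) (U (i + 1))| / 2 ≤ (F₁ (yy (i + 1)) - F₁ (yy i)) / 4 +
        c₅ * ((F₂ (yy (i + 1)) + F₃ (yy (i + 1))) - (F₂ (yy i) + F₃ (yy i))) := by
    intro i
    have hx := hyyG i
    have hx' := hyyG (i + 1)
    obtain ⟨D₁, hD₁⟩ : ∃ D₁, D₁ = F₁ (yy (i + 1)) - F₁ (yy i) := ⟨_, rfl⟩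
    obtain ⟨D₂, hD₂⟩ : ∃ D₂, D₂ = F₂ (yy (i + 1)) - F₂ (yy i) := ⟨_, rfl⟩
    obtain ⟨D₃, hD₃⟩ : ∃ D₃, D₃ = F₃ (yy (i + 1)) - F₃ (yy i) := ⟨_, rfl⟩
    have v1 := vF₁ _ _ (hym i)
    have v2 := vF₂ _ _ (hym i)
    have v3 := vF₃ _ _ (hym i)
    rw [hx.1, hx'.1, ← hD₁] at v1
    rw [hx.2.1, hx'.2.1, ← hD₂] at v2
    rw [hx.2.2.1, hx'.2.2.1, ← hD₃] at v3
    have hDD : (F₂ (yy (i + 1)) + F₃ (yy (i + 1))) - (F₂ (yy i) + F₃ (yy i)) = D₂ + D₃ := by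
      rw [hD₂, hD₃]; ring
    rw [hDD, ← hD₁]
    have hD₁0 : 0 ≤ D₁ := (abs_nonneg _).trans v1
    have hD₂0 : 0 ≤ D₂ := (abs_nonneg _).trans v2
    have hD₃0 : 0 ≤ D₃ := (abs_nonneg _).trans v3
    have hDle : D₂ + D₃ ≤ 3 * δ' := by
      have e1 := (bF₂ (yy (i + 1))).2
      have e2 := (bF₂ (yy i)).1
      have e3 := (bF₃ (yy (i + 1))).2
      have e4 := (bF₃ (yy i)).1
      rw [hD₂, hD₃]
      linarith
    obtain ⟨z1, z2, z3, z4, z5, z6⟩ := hW _ hx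
    obtain ⟨z1', z2', z3', z4', z5', z6'⟩ := hW _ hx'
    rw [← hU] at z1 z2 z3 z4 z5 z6
    rw [← hU] at z1' z2' z3' z4' z5' z6'
    have hB := (hWB _ hx).1
    have hB' := (hWB _ hx').1
    rw [← hU] at hB hB'
    obtain ⟨dz, dl⟩ := in_pair (ζ₂ := ζ₂) hγ ha hx.2.2.2 hx'.2.2.2 z1 z1' hB.2.1 hB'.2.1
      z5 z6 z5' z6'
    rw [← hc₁] at dz dl
    have du : |(U (i + 1)).u - (U i).u| ≤ D₂ := by rw [z3, z3']; exact v2
    have e3 : c₁ * |pr γ (ρ₀ (yy (i + 1))) (e₀ (yy (i + 1))) - pr γ (ρ₀ (yy i)) (e₀ (yy i))| ≤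
        c₁ * D₃ := mul_le_mul_of_nonneg_left v3 hc₁0.le
    have dzu : |(U i).z - (U (i + 1)).z| + |(U i).u - (U (i + 1)).u| ≤ (c₁ + 1) * (D₂ + D₃) := by
      rw [abs_sub_comm, abs_sub_comm (U i).u]
      have e4 : (c₁ + 1) * (D₂ + D₃) = c₁ * D₃ + D₂ + (c₁ * D₂ + D₃) := by ring
      have e5 : 0 ≤ c₁ * D₂ + D₃ := by positivity
      linarith
    have dzr : |(U i).z - (U (i + 1)).z| + |(U i).u - (U (i + 1)).u| ≤ r := by
      refine dzu.trans (le_trans ?_ k2)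
      exact mul_le_mul_of_nonneg_left hDle (by linarith)
    have hab := hra (U i) (U (i + 1)) hB hB' dzr
    have hab' : |ra γ (U i) (U (i + 1))| + |rb γ (U i) (U (i + 1))| ≤ c₃ * (D₂ + D₃) := by
      refine hab.trans ?_
      rw [hc₃, mul_assoc]
      exact mul_le_mul_of_nonneg_left dzu hCr.le
    have hab3 : c₃ * (D₂ + D₃) ≤ c₃ * (3 * δ') := mul_le_mul_of_nonneg_left hDle hc₃0.le
    have na := abs_nonneg (ra γ (U i) (U (i + 1)))
    have nb := abs_nonneg (rb γ (U i) (U (i + 1)))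
    obtain ⟨_, _, hj3⟩ := hjb (U i) (U (i + 1)) hB hB' (by linarith) (by linarith)
    have c1 := in_cube (x := ra γ (U i) (U (i + 1))) (by linarith)
    have c2 := in_cube (x := rb γ (U i) (U (i + 1))) (by linarith)
    have hj4 : Cj * (ng (ra γ (U i) (U (i + 1))) ^ 3 + ng (rb γ (U i) (U (i + 1))) ^ 3) ≤
        Cj * (c₃ * (D₂ + D₃)) := mul_le_mul_of_nonneg_left (by linarith) hCj.le
    refine ⟨hab', ?_⟩
    have hs1 : |sg γ (U i) (U (i + 1))| ≤ |(U (i + 1)).l - (U i).l| +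
        |(U (i + 1)).l - (U i).l - sg γ (U i) (U (i + 1))| := by
      have e := abs_sub ((U (i + 1)).l - (U i).l)
        ((U (i + 1)).l - (U i).l - sg γ (U i) (U (i + 1)))
      rwa [sub_sub_cancel] at e
    have e6 : c₅ * (D₂ + D₃) = c₁ * D₃ + Cj * (c₃ * (D₂ + D₃)) + c₁ * D₂ := by
      rw [hc₅]; ring
    have e7 : 0 ≤ c₁ * D₂ := by positivity
    have e8 : 0 ≤ c₁ * D₃ + Cj * (c₃ * (D₂ + D₃)) := by positivity
    linarith
  have hwin := in_win_sum (γ := γ) (U := U) (F₁ := fun i => F₁ (yy i))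
    (F₂ := fun i => F₂ (yy i) + F₃ (yy i)) (T₁ := Vm + h) (T₂ := (τ₂ + h) + (τ₃ + h))
    (c₃ := c₃) (c₅ := c₅) (fun i => bF₁ _)
    (fun i => ⟨add_nonneg (bF₂ _).1 (bF₃ _).1, add_le_add (bF₂ _).2 (bF₃ _).2⟩) hc₃0.le hc₅0.le
    (fun i => (hpair i).1) (fun i => (hpair i).2)
  have hT3 : (τ₂ + h) + (τ₃ + h) ≤ 3 * δ' := by linarith
  have hcT : c₃ * ((τ₂ + h) + (τ₃ + h)) ≤ c₃ * (3 * δ') := mul_le_mul_of_nonneg_left hT3 hc₃0.le
  have hcT5 : c₅ * ((τ₂ + h) + (τ₃ + h)) ≤ c₅ * (3 * δ') :=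
    mul_le_mul_of_nonneg_left hT3 hc₅0.le
  have hUB : ∀ i, InB ζ₁ ζ₂ Λ₀ (U i) ∧ |(U i).u| ≤ U₀ := fun i => by
    rw [hU]; exact hWB _ (hyyG i)
  have hUw : ∀ M : ℕ, ∀ w ∈ win U M, InB (ζ₁ / 4) (4 * ζ₂) (Λ₀ + 6) w := by
    intro M w hw
    obtain ⟨i, rfl⟩ := mem_win hw
    obtain ⟨⟨h1, h2, h3⟩, _⟩ := hUB i
    exact ⟨by linarith, by linarith, by linarith⟩
  have hCc : 0 ≤ C * (c₃ * (3 * δ')) := by positivity
  have hVV : ∀ M : ℕ, VV γ (win U M) ≤ Vm / 4 + δ' / 4 + c₅ * (3 * δ') := by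
    intro M
    have h1 := (hwin M).2
    linarith
  have hVV1 : ∀ M : ℕ, VV γ (win U M) ≤ V₁ := fun M => (hVV M).trans (by linarith)
  have hFF : ∀ M : ℕ, FF γ θ μ K (win U M) ≤ C * (c₃ * ((τ₂ + h) + (τ₃ + h))) := by
    intro M
    have h1 := (hwin M).1
    refine (hA.upper (win U M) (hUw M) (by linarith) (hVV1 M)).trans ?_
    exact mul_le_mul_of_nonneg_left h1 hC.le
  have hFF' : ∀ M : ℕ, FF γ θ μ K (win U M) ≤ C * (c₃ * (3 * δ')) := fun M =>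
    (hFF M).trans (mul_le_mul_of_nonneg_left hcT hC.le)
  refine ⟨U (-(J : ℤ)), U, (hUB _).1, (hUB _).2, ⟨⟨-(J : ℤ), ?_⟩, ?_, ?_, hVV1, ?_⟩, ?_, ?_⟩
  · intro i hi
    rw [hU, hU, hyy, hyy, max_eq_right hi, max_self]
  · intro i
    obtain ⟨⟨h1, h2, h3⟩, h4⟩ := hUB i
    exact ⟨⟨by linarith, by linarith, by linarith⟩, by linarith⟩
  · intro M
    exact (hFF' M).trans k6
  · intro M
    have h1 := hVV M
    have h2 := hFF' M
    linarith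
  · intro M
    rw [hτs]
    refine (hFF M).trans ?_
    have h1 : (τ₂ + h) + (τ₃ + h) ≤ 2 * (τ₂ + τ₃ + h) := by linarith
    have h2 : C * (c₃ * ((τ₂ + h) + (τ₃ + h))) ≤ C * (c₃ * (2 * (τ₂ + τ₃ + h))) :=
      mul_le_mul_of_nonneg_left (mul_le_mul_of_nonneg_left h1 hc₃0.le) hC.le
    have h3 : (2 * (C * c₃) + 2 * c₆ * (Vm + 4)) * (τ₂ + τ₃ + h) =
        C * (c₃ * (2 * (τ₂ + τ₃ + h))) + 2 * c₆ * (Vm + 4) * (τ₂ + τ₃ + h) := by ring
    have h4 : 0 ≤ 2 * c₆ * (Vm + 4) * (τ₂ + τ₃ + h) := by positivity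
    linarith
  · intro R hR hRh
    obtain ⟨F, hF⟩ : ∃ F : ℝ → ℝ, F = fun x => F₁ x + F₂ x + F₃ x := ⟨_, rfl⟩
    have mF : Monotone F := by
      rw [hF]
      exact (mF₁.add mF₂).add mF₃
    obtain ⟨T, hTd⟩ : ∃ T : ℝ, T = (Vm + h) + (τ₂ + h) + (τ₃ + h) := ⟨_, rfl⟩
    have bF : ∀ x, 0 ≤ F x ∧ F x ≤ T := by
      intro x
      rw [hF, hTd]
      exact ⟨add_nonneg (add_nonneg (bF₁ x).1 (bF₂ x).1) (bF₃ x).1,
        add_le_add (add_le_add (bF₁ x).2 (bF₂ x).2) (bF₃ x).2⟩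
    obtain ⟨hint, hle⟩ := in_int mF bF hh hR
    have hmono : ∫ x in Ioo (-R) R,
          (|rho γ (U ⌊x / h⌋) - ρ₀ x| + |(U ⌊x / h⌋).u - u₀ x| +
            |ien γ (U ⌊x / h⌋) - e₀ x|) ≤
        ∫ x in Ioo (-R) R, c₆ * (F (x + h) - F (x - h)) := by
      refine integral_mono_of_nonneg (ae_of_all _ fun x => ?_) (hint.const_mul c₆) ?_
      · positivity
      · rw [Filter.EventuallyLE, ae_restrict_iff' measurableSet_Ioo]
        filter_upwards [hG] with x hx hxR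
        obtain ⟨i, hi⟩ : ∃ i : ℤ, i = ⌊x / h⌋ := ⟨_, rfl⟩
        rw [← hi]
        have i1 : (i : ℝ) ≤ x / h := by rw [hi]; exact Int.floor_le _
        have i2 : x / h < (i : ℝ) + 1 := by rw [hi]; exact Int.lt_floor_add_one _
        rw [le_div_iff₀ hh] at i1
        rw [div_lt_iff₀ hh] at i2
        have hiJ : -(J : ℤ) ≤ i := by
          have e1 : R * h ≤ 1 := by
            have := mul_le_mul_of_nonneg_right hRh hh.le
            rwa [one_div_mul_cancel hh.ne'] at this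
          have e2 : -(1 / h ^ 2 + 1) < (i : ℝ) := by
            have e3 : -R < ((i : ℝ) + 1) * h := hxR.1.trans i2
            have e4 : -(1 / h) < ((i : ℝ) + 1) * h := by
              have : R ≤ 1 / h := hRh
              linarith
            have e5 : -(1 / h) / h < (i : ℝ) + 1 := by
              rw [div_lt_iff₀ hh]; exact e4
            have e6 : -(1 / h) / h = -(1 / h ^ 2) := by
              field_simp
            rw [e6] at e5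
            linarith
          have e3 : -(J : ℝ) < (i : ℝ) := by linarith
          have e4 : ((-(J : ℤ) : ℤ) : ℝ) < ((i : ℤ) : ℝ) := by push_cast; exact e3
          exact (Int.cast_lt.1 e4).le
        have hyi : yy i = y i := by rw [hyy, max_eq_left hiJ]
        have hGi := hyyG i
        obtain ⟨z1, z2, z3, z4, z5, z6⟩ := hW _ hGi
        rw [← hU] at z1 z2 z3 z4 z5 z6
        rw [z2, z3, z4]
        have s1 : x - h ≤ yy i := by rw [hyi]; linarith [(hyI i).1]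
        have s2 : yy i ≤ x + h := by rw [hyi]; linarith [(hyI i).2]
        have o1 := in_osc mF₁ vF₁ s1 s2 (by linarith : x - h ≤ x) (by linarith : x ≤ x + h)
        have o2 := in_osc mF₂ vF₂ s1 s2 (by linarith : x - h ≤ x) (by linarith : x ≤ x + h)
        have o3 := in_osc mF₃ vF₃ s1 s2 (by linarith : x - h ≤ x) (by linarith : x ≤ x + h)
        rw [hGi.1, hx.1] at o1
        rw [hGi.2.1, hx.2.1] at o2
        rw [hGi.2.2.1, hx.2.2.1] at o3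
        have hfin := in_diff hγ ha hGi.2.2.2 hx.2.2.2 o1 o2 o3
        rw [← hc₆] at hfin
        refine hfin.trans (le_of_eq ?_)
        rw [hF]
        ring
    refine hmono.trans ?_
    rw [integral_const_mul]
    have hT4 : T ≤ Vm + 4 := by rw [hTd]; linarith
    have h1 : c₆ * ∫ x in Ioo (-R) R, (F (x + h) - F (x - h)) ≤ c₆ * (2 * h * (Vm + 4)) :=
      mul_le_mul_of_nonneg_left (hle.trans (mul_le_mul_of_nonneg_left hT4 (by linarith))) hc₆0.le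
    refine h1.trans ?_
    have h2 : (2 * (C * c₃) + 2 * c₆ * (Vm + 4)) * h =
        c₆ * (2 * h * (Vm + 4)) + 2 * (C * c₃) * h := by ring
    have h3 : 0 ≤ 2 * (C * c₃) * h := by positivity
    linarith

end Helper51.TH
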