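import Pool.Agent.Helper51.TH.DelSt
import Pool.Agent.Helper51.TH.Solve

/-!
TH-P13. Inserting states of the Riemann fans does not change the functionals.

PROOF. `ins_state`: with `X = waves (xs ++ [L])`, `Y = waves (R :: ys)` (`waves_append`),
`waves (xs ++ L :: w :: R :: ys) = X ++ v₁ :: v₂ :: Y` and `waves (xs ++ L :: R :: ys) = X ++ v :: Y` with
`v = wv L R`, `v₁ = wv L w`, `v₂ = wv w R` and `Split v v₁ v₂`. `As_append`; `As L0 R0 (v₁ :: v₂ :: Y)
= wt L0 v₁.p + wt(R0 + v₂.s + Vc Y) v₁.q + wt(L0 + v₁.s) v₂.p + wt(R0 + Vc Y) v₂.q + As (L0 + v₁.s + v₂.s) R0 Y`, and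
`wt(L0 + v₁.s) v₂.p = wt L0 v₂.p` (`sp`), `wt(R0 + v₂.s + ..) v₁.q = wt(R0 + ..) v₁.q` (`sq`). `Qp_append`: for every `u`,
`qq2 u v₁ + qq2 u v₂ = qq2 u v` and `qq2 v₁ u + qq2 v₂ u = qq2 v u` (from `a, na, b, nb`; `qq2`, `ap` are linear in
`(|·|, ng ·)` of each argument), and `qq2 v₁ v₂ = 0`.
`FF_ileave`: induction with a context `xs`: `ileave f (L :: R :: t) = L :: f L R :: ileave f (R :: t)`; first use the induction
hypothesis with the context `xs ++ [L, f L R]`, then `ins_state`. (`ileave f (R :: t)` starts with `R`.)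
-/

open Set Filter Topology

namespace Helper51.TH

/-- The wave record `v` is split into `v₁` (left) and `v₂` (right). -/
structure Split (v v₁ v₂ : Wv) : Prop where
  p : v₁.p + v₂.p = v.p
  q : v₁.q + v₂.q = v.q
  s : v₁.s + v₂.s = v.s
  sp : v₁.s = 0 ∨ v₂.p = 0
  sq : v₂.s = 0 ∨ v₁.q = 0
  a : |v₁.a| + |v₂.a| = |v.a|
  na : ng v₁.a + ng v₂.a = ng v.a
  b : |v₁.b| + |v₂.b| = |v.b|
  nb : ng v₁.b + ng v₂.b = ng v.b
  qq : qq2 v₁ v₂ = 0

private theorem h99_left {v v₁ v₂ : Wv} (h : Split v v₁ v₂) (u : Wv) :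
    qq2 v₁ u + qq2 v₂ u = qq2 v u := by
  unfold qq2 ap
  rw [← h.a, ← h.na, ← h.b, ← h.nb]
  ring

private theorem h99_right {v v₁ v₂ : Wv} (h : Split v v₁ v₂) (u : Wv) :
    qq2 u v₁ + qq2 u v₂ = qq2 u v := by
  unfold qq2 ap
  rw [← h.a, ← h.na, ← h.b, ← h.nb]
  ring

private theorem h99_sum {v v₁ v₂ : Wv} (h : Split v v₁ v₂) (Y : List Wv) :
    (Y.map fun u => qq2 v₁ u).sum + (Y.map fun u => qq2 v₂ u).sum =
      (Y.map fun u => qq2 v u).sum := by
  induction Y with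
  | nil => simp
  | cons u Y ih =>
    rw [List.map_cons, List.map_cons, List.map_cons, List.sum_cons, List.sum_cons, List.sum_cons,
      ← ih, ← h99_left h u]
    ring

private theorem h99_cross {v v₁ v₂ : Wv} (h : Split v v₁ v₂) (X Y : List Wv) :
    cross X (v₁ :: v₂ :: Y) = cross X (v :: Y) := by
  unfold cross
  congr 1
  refine List.map_congr_left fun u _ => ?_
  rw [List.map_cons, List.map_cons, List.map_cons, List.sum_cons, List.sum_cons, List.sum_cons,
    ← h99_right h u]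
  ring

private theorem h99_Vc_cons (w : Wv) (W : List Wv) : Vc (w :: W) = w.s + Vc W := by
  unfold Vc
  rw [List.map_cons, List.sum_cons]

private theorem h99_Vc {v v₁ v₂ : Wv} (h : Split v v₁ v₂) (Y : List Wv) :
    Vc (v₁ :: v₂ :: Y) = Vc (v :: Y) := by
  rw [h99_Vc_cons, h99_Vc_cons, h99_Vc_cons, ← h.s]
  ring

private theorem h99_Qp {v v₁ v₂ : Wv} (h : Split v v₁ v₂) (Y : List Wv) :
    Qp (v₁ :: v₂ :: Y) = Qp (v :: Y) := by
  have h1 : ∀ (w : Wv) (W : List Wv), Qp (w :: W) = (W.map fun v => qq2 w v).sum + Qp W :=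
    fun _ _ => rfl
  rw [h1, h1, h1, List.map_cons, List.sum_cons, h.qq, ← h99_sum h Y]
  ring

private theorem h99_As {v v₁ v₂ : Wv} (h : Split v v₁ v₂) (θ μ L0 R0 : ℝ) (Y : List Wv) :
    As θ μ L0 R0 (v₁ :: v₂ :: Y) = As θ μ L0 R0 (v :: Y) := by
  have h1 : ∀ (L0 : ℝ) (w : Wv) (W : List Wv), As θ μ L0 R0 (w :: W) =
    wt θ μ L0 * w.p + wt θ μ (R0 + Vc W) * w.q + As θ μ (L0 + w.s) R0 W := fun _ _ _ => rfl
  rw [h1, h1, h1, h99_Vc_cons]
  have h2 : wt θ μ (L0 + v₁.s) * v₂.p = wt θ μ L0 * v₂.p := by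
    rcases h.sp with h3 | h3
    · rw [h3, add_zero]
    · rw [h3, mul_zero, mul_zero]
  have h4 : wt θ μ (R0 + (v₂.s + Vc Y)) * v₁.q = wt θ μ (R0 + Vc Y) * v₁.q := by
    rcases h.sq with h3 | h3
    · rw [h3, zero_add]
    · rw [h3, mul_zero, mul_zero]
  have h5 : L0 + v₁.s + v₂.s = L0 + v.s := by rw [add_assoc, h.s]
  rw [h2, h4, h5, ← h.p, ← h.q]
  ring

theorem ins_state {γ θ μ K : ℝ} (xs ys : List St) {L w R : St}
    (h : Split (wv γ L R) (wv γ L w) (wv γ w R)) :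
    FF γ θ μ K (xs ++ L :: w :: R :: ys) = FF γ θ μ K (xs ++ L :: R :: ys) ∧
    VV γ (xs ++ L :: w :: R :: ys) = VV γ (xs ++ L :: R :: ys) := by
  have h1 : waves γ (xs ++ L :: w :: R :: ys) =
      waves γ (xs ++ [L]) ++ (wv γ L w :: wv γ w R :: waves γ (R :: ys)) := by
    rw [waves_append]
    rfl
  have h2 : waves γ (xs ++ L :: R :: ys) =
      waves γ (xs ++ [L]) ++ (wv γ L R :: waves γ (R :: ys)) := by
    rw [waves_append]
    rfl
  unfold FF VV
  rw [h1, h2]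
  refine ⟨?_, ?_⟩
  · rw [As_append, As_append, h99_Vc h, h99_As h, Qp_append, Qp_append, h99_Qp h, h99_cross h]
  · rw [Vc_append, Vc_append, h99_Vc h]

/-- Insert a state between any two consecutive states. -/
def ileave (f : St → St → St) : List St → List St
  | [] => []
  | [w] => [w]
  | L :: R :: t => L :: f L R :: ileave f (R :: t)

private theorem h99_ileave {γ θ μ K : ℝ} {f : St → St → St} : ∀ (ws xs : List St),
    (∀ L R : St, [L, R] <:+: ws → Split (wv γ L R) (wv γ L (f L R)) (wv γ (f L R) R)) →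
    FF γ θ μ K (xs ++ ileave f ws) = FF γ θ μ K (xs ++ ws) ∧
      VV γ (xs ++ ileave f ws) = VV γ (xs ++ ws)
  | [], xs, _ => ⟨rfl, rfl⟩
  | [w], xs, _ => ⟨rfl, rfl⟩
  | L :: R :: t, xs, h => by
    have ih := h99_ileave (γ := γ) (θ := θ) (μ := μ) (K := K) (f := f) (R :: t)
      (xs ++ [L, f L R]) fun L' R' h' => h L' R' (List.infix_cons h')
    have h1 := ins_state (γ := γ) (θ := θ) (μ := μ) (K := K) xs t (h L R ⟨[], t, rfl⟩)
    have e1 : xs ++ ileave f (L :: R :: t) = (xs ++ [L, f L R]) ++ ileave f (R :: t) := by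
      rw [List.append_assoc]
      rfl
    have e2 : (xs ++ [L, f L R]) ++ R :: t = xs ++ L :: f L R :: R :: t := by
      rw [List.append_assoc]
      rfl
    rw [e2] at ih
    rw [e1]
    exact ⟨ih.1.trans h1.1, ih.2.trans h1.2⟩

theorem FF_ileave {γ θ μ K : ℝ} {f : St → St → St} {ws : List St}
    (h : ∀ L R : St, [L, R] <:+: ws → Split (wv γ L R) (wv γ L (f L R)) (wv γ (f L R) R)) :
    FF γ θ μ K (ileave f ws) = FF γ θ μ K ws ∧ VV γ (ileave f ws) = VV γ ws :=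
  h99_ileave ws [] h

private theorem h99_mem {f : St → St → St} : ∀ (ws : List St) (w : St), w ∈ ileave f ws →
    w ∈ ws ∨ ∃ L R : St, [L, R] <:+: ws ∧ w = f L R
  | [], w, hw => Or.inl hw
  | [w'], w, hw => Or.inl hw
  | L :: R :: t, w, hw => by
    have e1 : ileave f (L :: R :: t) = L :: f L R :: ileave f (R :: t) := rfl
    rw [e1, List.mem_cons, List.mem_cons] at hw
    rcases hw with hw | hw | hw
    · left
      rw [hw]
      exact List.mem_cons_self
    · right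
      exact ⟨L, R, ⟨[], t, rfl⟩, hw⟩
    · rcases h99_mem (R :: t) w hw with h1 | ⟨L', R', h1, h2⟩
      · left
        exact List.mem_cons_of_mem L h1
      · right
        exact ⟨L', R', List.infix_cons h1, h2⟩

/-- PROOF: induction. -/
theorem mem_ileave {f : St → St → St} {ws : List St} {w : St} (hw : w ∈ ileave f ws) :
    w ∈ ws ∨ ∃ L R : St, [L, R] <:+: ws ∧ w = f L R :=
  h99_mem ws w hw

end Helper51.TH
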