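import Pool.Agent.Helper51.TH.SolveBd

/-!
TH-P06. The interaction estimate.

NOTATION. `a₁ = ra L M, b₁ = rb L M, a₂ = ra M R, b₂ = rb M R, a₃ = ra L R, b₃ = rb L R`, `s₁ = sg L M, s₂ = sg M R`,
`s₃ = sg L R`, `x = |s₁||a₂| + |s₂||b₁|`, `q₀ = qq2 (wv L M) (wv M R) = |b₁||a₂| + ap a₁ a₂ + ap b₁ b₂`; `e_L = exp L.l`,
..., `f y = GG γ y/k0 - y` (cubic, constant `C₁`), so `hj γ a z l = k0 exp l (a + z f(a/z))`. `C` denotes constants which depend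
only on `γ, z₁, z₂, Λ`; all four amplitudes are `≤ ε`.
STEP 0. `|L.z - R.z| + |L.u - R.u| ≤ C ε` (`jump_bound` twice), so for small `ε₀` `|a₃| + |b₃| ≤ C ε` (`ra_bound`), all
relative amplitudes are `≤ 1/2`. `|s₁|, |s₂| ≤ 2 Λ + 1`.
STEP 1. The equations `Rie.z` give `a₃ - b₃ = (a₁ + a₂) - (b₁ + b₂)`; put `d = a₃ - a₁ - a₂ = b₃ - b₁ - b₂`.
STEP 2. `Rie.u` (divided by `k0`): `(e_L + e_R) d = (e_M - e_L) a₂ + (e_M - e_R) b₁ + e_M N_M - e_L N_L - e_R N_R`,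
`N_L = L.z (f(a₃/L.z) - f(a₁/L.z))`, `N_R = R.z (f(b₃/R.z) - f(b₂/R.z))`, `N_M = M.z (f(a₂/M.z) + f(b₁/M.z))`.
STEP 3. `|f(a₃/L.z) - f((a₁+a₂)/L.z)| ≤ C ε² |d|`, the same for `b`. And
`|e_M M.z f(a₂/M.z) - e_L L.z (f((a₁+a₂)/L.z) - f(a₁/L.z))| ≤ |e_M - e_L| |M.z f(a₂/M.z)|
 + e_L |M.z f(a₂/M.z) - L.z f(a₂/L.z)| + e_L L.z |f((a₁+a₂)/L.z) - f(a₁/L.z) - f(a₂/L.z)|
 ≤ C |M.l - L.l| (ng a₂)³ + C (ng a₂)³ |M.z - L.z| + C ε ap a₁ a₂` (`Cubic.le`, `Cubic.scale`, `Cubic.add`). Here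
`M.l - L.l = s₁ + sj a₁ - sj b₁` (so `≤ |s₁| + C (ng a₁)³ + C (ng b₁)³`), `|M.z - L.z| = |a₁ - b₁|`, and
`(ng a₁)(ng a₂) ≤ ap a₁ a₂`, `|a₁| ng a₂ ≤ ap a₁ a₂`, `(ng b₁) |a₂| ≤ |b₁||a₂|`: altogether `≤ C ε (x + q₀)`. The same for the
`b`-part with `R.l - M.l = s₂ + sj a₂ - sj b₂`, `R.z - M.z = b₂ - a₂`.
STEP 4. `e_M - e_L = (e_M - exp(M.l - s₁)) + (exp(M.l - s₁) - e_L)`, the second bracket is `≤ C ((ng a₁)³ + (ng b₁)³)`
(`L.l = M.l - s₁ - sj a₁ + sj b₁`), times `|a₂|` this is `≤ C ε² q₀`. Similarly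
`e_M - e_R = (e_M - exp(M.l + s₂)) + O((ng a₂)³ + (ng b₂)³)`, times `|b₁|`. And
`e_L + e_R = exp(M.l - s₁) + exp(M.l + s₂) + O(ε³)`.
STEP 5. With `T = (e_M - exp(M.l - s₁)) a₂ + (e_M - exp(M.l + s₂)) b₁`, `|T| ≤ C x`, `D = exp(M.l - s₁) + exp(M.l + s₂) ≥ c`:
`(D + O(ε³)) d = T + O(ε (x + q₀)) + O(ε² |d|)`, so for small `ε₀`: `|d| ≤ C (x + q₀)` and
`|d - T/D| ≤ C ε (x + q₀)`; `T/D` is the quotient in the statement (divide by `e_M`).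
STEP 6. `s₃ - s₁ - s₂ = [sj b₃ R.z - sj b₂ R.z - sj b₁ M.z] - [sj a₃ L.z - sj a₁ L.z - sj a₂ M.z]`, and as in STEP 3
(with `S0` instead of `f`, second part of `Cubic.scale`) each bracket is `≤ C ε² |d| + C ε (x + q₀)`.
-/

open Set Filter Topology

namespace Helper51.TH

private theorem ng_div {x z : ℝ} (hz : 0 < z) : ng (x / z) = ng x / z := by
  unfold ng
  rw [← max_div_div_right hz.le, zero_div, neg_div]

private theorem ap_div {x y z : ℝ} (hz : 0 < z) : ap (x / z) (y / z) = ap x y / z ^ 2 := by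
  unfold ap
  rw [ng_div hz, ng_div hz, abs_div, abs_div, abs_of_pos hz]
  field_simp

private theorem ap_comm' (x y : ℝ) : ap x y = ap y x := by
  unfold ap
  ring

private theorem exp_sub_le {x y B : ℝ} (hx : x ≤ B) (hy : y ≤ B) :
    |Real.exp x - Real.exp y| ≤ Real.exp B * |x - y| := by
  have key : ∀ x y : ℝ, x ≤ B → y ≤ x → |Real.exp x - Real.exp y| ≤ Real.exp B * |x - y| := by
    intro x y hx h
    rw [abs_of_nonneg (sub_nonneg.2 (Real.exp_le_exp.2 h)), abs_of_nonneg (sub_nonneg.2 h)]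
    have h1 := Real.add_one_le_exp (y - x)
    have h2 : Real.exp y = Real.exp x * Real.exp (y - x) := by
      rw [← Real.exp_add]
      congr 1
      ring
    have h3 : Real.exp x ≤ Real.exp B := Real.exp_le_exp.2 hx
    have h4 := Real.exp_pos x
    calc Real.exp x - Real.exp y = Real.exp x * (1 - Real.exp (y - x)) := by
          rw [h2]
          ring
      _ ≤ Real.exp x * (x - y) := mul_le_mul_of_nonneg_left (by linarith) h4.le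
      _ ≤ Real.exp B * (x - y) := mul_le_mul_of_nonneg_right h3 (by linarith)
  rcases le_total y x with h | h
  · exact key x y hx h
  · rw [abs_sub_comm, abs_sub_comm x y]
    exact key y x hy h

private theorem brk {f : ℝ → ℝ} {C z₁ K : ℝ} (h : Cubic f C) (hC : 0 ≤ C) (hz₁ : 0 < z₁)
    (hK : 2 ≤ K) :
    ∃ Cb : ℝ, 0 ≤ Cb ∧ ∀ z z' a₁ a₂ a₃ d ε : ℝ, 0 < ε → z₁ ≤ z → z₁ ≤ z' → |a₁| ≤ ε → |a₂| ≤ ε →
      |a₃| ≤ K * ε → K * ε ≤ z₁ / 2 → a₃ = a₁ + a₂ + d →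
      |z' * f (a₂ / z') - z * (f (a₃ / z) - f (a₁ / z))| ≤
        Cb * (ng a₂ ^ 3 * |z' - z| + ε * ap a₁ a₂ + ε ^ 2 * |d|) ∧
      |f (a₂ / z') - (f (a₃ / z) - f (a₁ / z))| ≤
        Cb * (ng a₂ ^ 3 * |z' - z| + ε * ap a₁ a₂ + ε ^ 2 * |d|) := by
  refine ⟨2 * C / z₁ ^ 3 + C / z₁ ^ 4 + (5 * C + C * K ^ 2) / z₁ ^ 2 + (5 * C + C * K ^ 2) / z₁ ^ 3,
    by positivity, ?_⟩
  intro z z' a₁ a₂ a₃ d ε hε hz hz' h1 h2 h3 hKε h4
  have hz0 : 0 < z := by linarith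
  have hz'0 : 0 < z' := by linarith
  have h2ε : 2 * ε ≤ K * ε := mul_le_mul_of_nonneg_right hK hε.le
  have h12 : |a₁ + a₂| ≤ K * ε := by
    have := abs_add_le a₁ a₂
    linarith
  have hq : ∀ a, |a| ≤ K * ε → |a / z| ≤ 1 / 2 ∧ |a / z| ≤ K * ε / z := by
    intro a ha
    have e1 : |a / z| ≤ K * ε / z := by
      rw [abs_div, abs_of_pos hz0]
      exact div_le_div_of_nonneg_right ha hz0.le
    refine ⟨e1.trans ?_, e1⟩
    rw [div_le_iff₀ hz0]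
    linarith
  obtain ⟨p1, -⟩ := hq a₁ (by linarith)
  obtain ⟨p2, -⟩ := hq a₂ (by linarith)
  obtain ⟨p3, p3'⟩ := hq a₃ h3
  obtain ⟨p4, p4'⟩ := hq (a₁ + a₂) h12
  -- the two main estimates
  have I1 : |f (a₃ / z) - f ((a₁ + a₂) / z)| ≤ C * K ^ 2 * (ε ^ 2 * |d|) / z ^ 3 := by
    have e1 := h.2 (a₃ / z) ((a₁ + a₂) / z) p3 p4
    have e2 : max (ng (a₃ / z)) (ng ((a₁ + a₂) / z)) ≤ K * ε / z :=
      max_le ((ng_le_abs _).trans p3') ((ng_le_abs _).trans p4')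
    have e3 : |a₃ / z - (a₁ + a₂) / z| = |d| / z := by
      rw [← sub_div, h4, abs_div, abs_of_pos hz0]
      congr 2
      ring
    have e4 : 0 ≤ max (ng (a₃ / z)) (ng ((a₁ + a₂) / z)) := le_max_of_le_left (ng_nonneg _)
    rw [e3] at e1
    refine e1.trans ?_
    calc C * max (ng (a₃ / z)) (ng ((a₁ + a₂) / z)) ^ 2 * (|d| / z)
        ≤ C * (K * ε / z) ^ 2 * (|d| / z) := by
          refine mul_le_mul_of_nonneg_right ?_ (by positivity)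
          exact mul_le_mul_of_nonneg_left (pow_le_pow_left₀ e4 e2 2) hC
      _ = C * K ^ 2 * (ε ^ 2 * |d|) / z ^ 3 := by
          field_simp
  have I2 : |f ((a₁ + a₂) / z) - f (a₁ / z) - f (a₂ / z)| ≤ 5 * C * (ε * ap a₁ a₂) / z ^ 3 := by
    have e0 : (a₁ + a₂) / z = a₁ / z + a₂ / z := add_div _ _ _
    have e1 := h.add hC p1 p2 (by rw [← e0]; exact p4)
    rw [← e0, ap_div hz0] at e1
    refine e1.trans ?_
    have e2 : max |a₁ / z| |a₂ / z| ≤ ε / z := by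
      rw [abs_div, abs_div, abs_of_pos hz0]
      exact max_le (div_le_div_of_nonneg_right h1 hz0.le) (div_le_div_of_nonneg_right h2 hz0.le)
    have e3 := ap_nonneg a₁ a₂
    calc 5 * C * max |a₁ / z| |a₂ / z| * (ap a₁ a₂ / z ^ 2)
        ≤ 5 * C * (ε / z) * (ap a₁ a₂ / z ^ 2) := by
          refine mul_le_mul_of_nonneg_right ?_ (by positivity)
          exact mul_le_mul_of_nonneg_left e2 (by positivity)
      _ = 5 * C * (ε * ap a₁ a₂) / z ^ 3 := by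
          field_simp
  have hap := ap_nonneg a₁ a₂
  obtain ⟨P, hP⟩ : ∃ P, P = ng a₂ ^ 3 * |z' - z| := ⟨_, rfl⟩
  obtain ⟨Q, hQ⟩ : ∃ Q, Q = ε * ap a₁ a₂ := ⟨_, rfl⟩
  obtain ⟨R, hR⟩ : ∃ R, R = ε ^ 2 * |d| := ⟨_, rfl⟩
  have hP0 : 0 ≤ P := by
    rw [hP]
    have := ng_nonneg a₂
    positivity
  have hQ0 : 0 ≤ Q := by
    rw [hQ]
    positivity
  have hR0 : 0 ≤ R := by
    rw [hR]
    positivity
  rw [← hR] at I1
  rw [← hQ] at I2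
  rw [← hP, ← hQ, ← hR]
  have G : |f (a₂ / z) - (f (a₃ / z) - f (a₁ / z))| ≤ C * (5 * Q + K ^ 2 * R) / z ^ 3 := by
    have e1 : f (a₂ / z) - (f (a₃ / z) - f (a₁ / z)) =
        -(f (a₃ / z) - f ((a₁ + a₂) / z)) - (f ((a₁ + a₂) / z) - f (a₁ / z) - f (a₂ / z)) := by
      ring
    rw [e1]
    refine (abs_sub _ _).trans ?_
    rw [abs_neg]
    have e2 : C * (5 * Q + K ^ 2 * R) / z ^ 3 =
        C * K ^ 2 * R / z ^ 3 + 5 * C * Q / z ^ 3 := by ring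
    rw [e2]
    exact add_le_add I1 I2
  have hq0 : 0 ≤ C * (5 * Q + K ^ 2 * R) := by positivity
  have ha2 : |a₂| ≤ z₁ / 2 := by linarith
  obtain ⟨s1, s2⟩ := h.scale hC hz₁ hz' hz ha2
  have s1' : |z' * f (a₂ / z') - z * f (a₂ / z)| ≤ 2 * C / z₁ ^ 3 * P := by
    rw [hP, ← mul_assoc]
    exact s1
  have s2' : |f (a₂ / z') - f (a₂ / z)| ≤ C / z₁ ^ 4 * P := by
    rw [hP, ← mul_assoc]
    exact s2
  have c1 : 0 ≤ C / z₁ ^ 4 := by positivity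
  have c2 : 0 ≤ 2 * C / z₁ ^ 3 := by positivity
  have c3 : 0 ≤ 5 * C / z₁ ^ 2 := by positivity
  have c4 : 0 ≤ C * K ^ 2 / z₁ ^ 2 := by positivity
  have c5 : 0 ≤ 5 * C / z₁ ^ 3 := by positivity
  have c6 : 0 ≤ C * K ^ 2 / z₁ ^ 3 := by positivity
  have expand : (2 * C / z₁ ^ 3 + C / z₁ ^ 4 + (5 * C + C * K ^ 2) / z₁ ^ 2 +
      (5 * C + C * K ^ 2) / z₁ ^ 3) * (P + Q + R) =
      (2 * C / z₁ ^ 3 + C / z₁ ^ 4 + 5 * C / z₁ ^ 2 + C * K ^ 2 / z₁ ^ 2 +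
      5 * C / z₁ ^ 3 + C * K ^ 2 / z₁ ^ 3) * (P + Q + R) := by
    congr 1
    ring
  rw [expand]
  constructor
  · have e1 : z' * f (a₂ / z') - z * (f (a₃ / z) - f (a₁ / z)) =
        (z' * f (a₂ / z') - z * f (a₂ / z)) + z * (f (a₂ / z) - (f (a₃ / z) - f (a₁ / z))) := by
      ring
    have e2 : z * |f (a₂ / z) - (f (a₃ / z) - f (a₁ / z))| ≤
        C * (5 * Q + K ^ 2 * R) / z₁ ^ 2 := by
      calc z * |f (a₂ / z) - (f (a₃ / z) - f (a₁ / z))|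
          ≤ z * (C * (5 * Q + K ^ 2 * R) / z ^ 3) := mul_le_mul_of_nonneg_left G hz0.le
        _ = C * (5 * Q + K ^ 2 * R) / z ^ 2 := by
            field_simp
        _ ≤ C * (5 * Q + K ^ 2 * R) / z₁ ^ 2 :=
            div_le_div_of_nonneg_left hq0 (by positivity) (pow_le_pow_left₀ hz₁.le hz 2)
    have e3 : C * (5 * Q + K ^ 2 * R) / z₁ ^ 2 =
        5 * C / z₁ ^ 2 * Q + C * K ^ 2 / z₁ ^ 2 * R := by ring
    rw [e3] at e2
    calc |z' * f (a₂ / z') - z * (f (a₃ / z) - f (a₁ / z))|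
        ≤ |z' * f (a₂ / z') - z * f (a₂ / z)| +
          z * |f (a₂ / z) - (f (a₃ / z) - f (a₁ / z))| := by
          rw [e1]
          refine (abs_add_le _ _).trans ?_
          rw [abs_mul, abs_of_pos hz0]
      _ ≤ 2 * C / z₁ ^ 3 * P + (5 * C / z₁ ^ 2 * Q + C * K ^ 2 / z₁ ^ 2 * R) :=
          add_le_add s1' e2
      _ ≤ _ := by
          have d1 := mul_nonneg c1 hP0
          have d2 := mul_nonneg c1 hQ0
          have d3 := mul_nonneg c1 hR0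
          have d4 := mul_nonneg c2 hQ0
          have d5 := mul_nonneg c2 hR0
          have d6 := mul_nonneg c3 hP0
          have d7 := mul_nonneg c3 hR0
          have d8 := mul_nonneg c4 hP0
          have d9 := mul_nonneg c4 hQ0
          have d10 := mul_nonneg c5 hP0
          have d11 := mul_nonneg c5 hQ0
          have d12 := mul_nonneg c5 hR0
          have d13 := mul_nonneg c6 hP0
          have d14 := mul_nonneg c6 hQ0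
          have d15 := mul_nonneg c6 hR0
          linarith
  · have e1 : f (a₂ / z') - (f (a₃ / z) - f (a₁ / z)) =
        (f (a₂ / z') - f (a₂ / z)) + (f (a₂ / z) - (f (a₃ / z) - f (a₁ / z))) := by
      ring
    have e2 : |f (a₂ / z) - (f (a₃ / z) - f (a₁ / z))| ≤
        C * (5 * Q + K ^ 2 * R) / z₁ ^ 3 :=
      G.trans (div_le_div_of_nonneg_left hq0 (by positivity) (pow_le_pow_left₀ hz₁.le hz 3))
    have e3 : C * (5 * Q + K ^ 2 * R) / z₁ ^ 3 =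
        5 * C / z₁ ^ 3 * Q + C * K ^ 2 / z₁ ^ 3 * R := by ring
    rw [e3] at e2
    calc |f (a₂ / z') - (f (a₃ / z) - f (a₁ / z))|
        ≤ |f (a₂ / z') - f (a₂ / z)| + |f (a₂ / z) - (f (a₃ / z) - f (a₁ / z))| := by
          rw [e1]
          exact abs_add_le _ _
      _ ≤ C / z₁ ^ 4 * P + (5 * C / z₁ ^ 3 * Q + C * K ^ 2 / z₁ ^ 3 * R) :=
          add_le_add s2' e2
      _ ≤ _ := by
          have d2 := mul_nonneg c1 hQ0
          have d3 := mul_nonneg c1 hR0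
          have d1 := mul_nonneg c2 hP0
          have d4 := mul_nonneg c2 hQ0
          have d5 := mul_nonneg c2 hR0
          have d6 := mul_nonneg c3 hP0
          have d7 := mul_nonneg c3 hR0
          have d16 := mul_nonneg c3 hQ0
          have d8 := mul_nonneg c4 hP0
          have d9 := mul_nonneg c4 hQ0
          have d17 := mul_nonneg c4 hR0
          have d10 := mul_nonneg c5 hP0
          have d12 := mul_nonneg c5 hR0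
          have d13 := mul_nonneg c6 hP0
          have d14 := mul_nonneg c6 hQ0
          linarith

private theorem cube_le {n ε : ℝ} (h0 : 0 ≤ n) (h1 : n ≤ ε) (h2 : ε ≤ 1) : n ^ 3 ≤ ε * n := by
  have h3 : n ^ 2 ≤ ε := by nlinarith
  calc n ^ 3 = n ^ 2 * n := by ring
    _ ≤ ε * n := mul_le_mul_of_nonneg_right h3 h0

private theorem side {γ z₁ Λ K C₄ C₁ C₂ : ℝ} {f : ℝ → ℝ} (hf : Cubic f C₁) (hC₁ : 0 ≤ C₁)
    (hS : Cubic (S0 γ) C₂) (hC₂ : 0 ≤ C₂) (hz₁ : 0 < z₁) (hK : 2 ≤ K) (hC₄ : 0 ≤ C₄) :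
    ∃ Cs : ℝ, 0 ≤ Cs ∧ ∀ z z' l l' a₁ a₂ a₃ b σ d ε : ℝ, 0 < ε → ε ≤ 1 → z₁ ≤ z → z₁ ≤ z' →
      |l| ≤ Λ → |l'| ≤ Λ → |a₁| ≤ ε → |a₂| ≤ ε → |b| ≤ ε → |a₃| ≤ K * ε → K * ε ≤ z₁ / 2 →
      a₃ = a₁ + a₂ + d → |z' - z| ≤ |a₁| + |b| →
      |l' - l - σ| ≤ C₄ * (ng a₁ ^ 3 + ng b ^ 3) → 2 * C₄ * ε ≤ 1 →
      |Real.exp l' * (z' * f (a₂ / z')) - Real.exp l * (z * (f (a₃ / z) - f (a₁ / z)))| ≤
        Cs * (ε * (|σ| * |a₂| + |b| * |a₂| + ap a₁ a₂ + |d|)) ∧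
      |S0 γ (a₂ / z') - (S0 γ (a₃ / z) - S0 γ (a₁ / z))| ≤
        Cs * (ε * (|σ| * |a₂| + |b| * |a₂| + ap a₁ a₂ + |d|)) ∧
      |Real.exp (l' - σ) - Real.exp l| ≤ Cs * ε ∧
      |Real.exp (l' - σ) - Real.exp l| * |a₂| ≤
        Cs * (ε * (|σ| * |a₂| + |b| * |a₂| + ap a₁ a₂ + |d|)) := by
  obtain ⟨Cb, hCb, hb⟩ := brk hf hC₁ hz₁ hK
  obtain ⟨Cb', hCb', hb'⟩ := brk hS hC₂ hz₁ hK
  obtain ⟨B, hB⟩ : ∃ B, B = Real.exp (Λ + 1) := ⟨_, rfl⟩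
  have hB0 : 0 ≤ B := by
    rw [hB]
    exact (Real.exp_pos _).le
  refine ⟨B * ((1 + C₄) * (C₁ / z₁ ^ 2)) + B * (Cb * 2) + Cb' * 2 + 2 * (B * C₄),
    by positivity, ?_⟩
  intro z z' l l' a₁ a₂ a₃ b σ d ε hε hε1 hz hz' hl hl' h1 h2 h3 h4 h5 h6 h7 h8 h9
  have hz0 : 0 < z := by linarith
  have hz'0 : 0 < z' := by linarith
  have n1 := ng_nonneg a₁
  have n2 := ng_nonneg a₂
  have n3 := ng_nonneg b
  have m1 := ng_le_abs a₁
  have m2 := ng_le_abs a₂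
  have m3 := ng_le_abs b
  have k1 := cube_le n1 (m1.trans h1) hε1
  have k2 := cube_le n2 (m2.trans h2) hε1
  have k3 := cube_le n3 (m3.trans h3) hε1
  have hap := ap_nonneg a₁ a₂
  have hx1 : ng a₁ * |a₂| ≤ ap a₁ a₂ := by
    unfold ap
    have := mul_nonneg (abs_nonneg a₁) n2
    linarith
  have hx2 : |a₁| * ng a₂ ≤ ap a₁ a₂ := by
    unfold ap
    have := mul_nonneg n1 (abs_nonneg a₂)
    linarith
  have hσa : 0 ≤ |σ| * |a₂| := by positivity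
  have hba : 0 ≤ |b| * |a₂| := by positivity
  obtain ⟨N, hN⟩ : ∃ N, N = |σ| * |a₂| + |b| * |a₂| + ap a₁ a₂ := ⟨_, rfl⟩
  have hN0 : 0 ≤ N := by
    rw [hN]
    positivity
  rw [← hN]
  have hd0 : 0 ≤ |d| := abs_nonneg d
  have hND : 0 ≤ ε * (N + |d|) := by positivity
  -- the elementary products
  have e1 : ng a₂ ^ 3 * |σ| ≤ ε * (|σ| * |a₂|) := by
    calc ng a₂ ^ 3 * |σ| ≤ (ε * |a₂|) * |σ| :=
          mul_le_mul_of_nonneg_right (k2.trans (mul_le_mul_of_nonneg_left m2 hε.le)) (abs_nonneg σ)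
      _ = ε * (|σ| * |a₂|) := by ring
  have j1 : ng a₁ ^ 3 ≤ |a₁| := by
    refine k1.trans ?_
    nlinarith
  have j3 : ng b ^ 3 ≤ |b| := by
    refine k3.trans ?_
    nlinarith
  have e2 : ng a₂ ^ 3 * ng a₁ ^ 3 ≤ ε * ap a₁ a₂ := by
    calc ng a₂ ^ 3 * ng a₁ ^ 3 ≤ (ε * ng a₂) * |a₁| :=
          mul_le_mul k2 j1 (by positivity) (by positivity)
      _ = ε * (|a₁| * ng a₂) := by ring
      _ ≤ ε * ap a₁ a₂ := mul_le_mul_of_nonneg_left hx2 hε.le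
  have e3 : ng a₂ ^ 3 * ng b ^ 3 ≤ ε * (|b| * |a₂|) := by
    calc ng a₂ ^ 3 * ng b ^ 3 ≤ (ε * |a₂|) * |b| :=
          mul_le_mul (k2.trans (mul_le_mul_of_nonneg_left m2 hε.le)) j3 (by positivity)
            (by positivity)
      _ = ε * (|b| * |a₂|) := by ring
  have e4 : ng a₂ ^ 3 * |z' - z| ≤ ε * N := by
    calc ng a₂ ^ 3 * |z' - z| ≤ (ε * ng a₂) * (|a₁| + |b|) :=
          mul_le_mul k2 h7 (abs_nonneg _) (by positivity)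
      _ = ε * (|a₁| * ng a₂) + ε * (|b| * ng a₂) := by ring
      _ ≤ ε * ap a₁ a₂ + ε * (|b| * |a₂|) := by
          refine add_le_add (mul_le_mul_of_nonneg_left hx2 hε.le)
            (mul_le_mul_of_nonneg_left (mul_le_mul_of_nonneg_left m2 (abs_nonneg b)) hε.le)
      _ ≤ ε * N := by
          rw [← mul_add]
          refine mul_le_mul_of_nonneg_left ?_ hε.le
          rw [hN]
          linarith
  have e5 : (ng a₁ ^ 3 + ng b ^ 3) * |a₂| ≤ ε * N := by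
    calc (ng a₁ ^ 3 + ng b ^ 3) * |a₂| ≤ (ε * ng a₁ + ε * |b|) * |a₂| := by
          refine mul_le_mul_of_nonneg_right (add_le_add k1 ?_) (abs_nonneg _)
          exact k3.trans (mul_le_mul_of_nonneg_left m3 hε.le)
      _ = ε * (ng a₁ * |a₂| + |b| * |a₂|) := by ring
      _ ≤ ε * N := by
          refine mul_le_mul_of_nonneg_left ?_ hε.le
          rw [hN]
          linarith
  have hcub : C₄ * (ng a₁ ^ 3 + ng b ^ 3) ≤ 2 * C₄ * ε := by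
    have e1 : ng a₁ ^ 3 + ng b ^ 3 ≤ 2 * ε := by linarith
    calc C₄ * (ng a₁ ^ 3 + ng b ^ 3) ≤ C₄ * (2 * ε) := mul_le_mul_of_nonneg_left e1 hC₄
      _ = 2 * C₄ * ε := by ring
  have hl1 : l ≤ Λ + 1 := by
    have := le_abs_self l
    linarith
  have hl2 : l' ≤ Λ + 1 := by
    have := le_abs_self l'
    linarith
  have hl3 : l' - σ ≤ Λ + 1 := by
    have e1 := le_abs_self (l' - l - σ)
    have e2 := le_abs_self l
    linarith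
  have hE1 : |Real.exp l' - Real.exp l| ≤ B * (|σ| + C₄ * (ng a₁ ^ 3 + ng b ^ 3)) := by
    have e1 := exp_sub_le hl2 hl1
    rw [← hB] at e1
    refine e1.trans (mul_le_mul_of_nonneg_left ?_ hB0)
    have e2 : l' - l = (l' - l - σ) + σ := by ring
    calc |l' - l| = |(l' - l - σ) + σ| := by rw [← e2]
      _ ≤ |l' - l - σ| + |σ| := abs_add_le _ _
      _ ≤ |σ| + C₄ * (ng a₁ ^ 3 + ng b ^ 3) := by linarith
  have hE2 : |Real.exp (l' - σ) - Real.exp l| ≤ B * (C₄ * (ng a₁ ^ 3 + ng b ^ 3)) := by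
    have e1 := exp_sub_le hl3 hl1
    rw [← hB] at e1
    refine e1.trans (mul_le_mul_of_nonneg_left ?_ hB0)
    have e2 : l' - σ - l = l' - l - σ := by ring
    rw [e2]
    exact h8
  have hEl : Real.exp l ≤ B := by
    rw [hB]
    exact Real.exp_le_exp.2 hl1
  have hEl0 := Real.exp_pos l
  have hzf : |z' * f (a₂ / z')| ≤ C₁ / z₁ ^ 2 * ng a₂ ^ 3 := by
    have e0 : |a₂ / z'| ≤ 1 / 2 := by
      rw [abs_div, abs_of_pos hz'0, div_le_iff₀ hz'0]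
      have : 2 * ε ≤ K * ε := mul_le_mul_of_nonneg_right hK hε.le
      linarith
    have e1 := hf.le e0
    rw [ng_div hz'0, div_pow] at e1
    rw [abs_mul, abs_of_pos hz'0]
    calc z' * |f (a₂ / z')| ≤ z' * (C₁ * (ng a₂ ^ 3 / z' ^ 3)) :=
          mul_le_mul_of_nonneg_left e1 hz'0.le
      _ = C₁ * ng a₂ ^ 3 / z' ^ 2 := by
          field_simp
      _ ≤ C₁ * ng a₂ ^ 3 / z₁ ^ 2 :=
          div_le_div_of_nonneg_left (by positivity) (by positivity)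
            (pow_le_pow_left₀ hz₁.le hz' 2)
      _ = C₁ / z₁ ^ 2 * ng a₂ ^ 3 := by ring
  obtain ⟨b1, -⟩ := hb z z' a₁ a₂ a₃ d ε hε hz hz' h1 h2 h4 h5 h6
  obtain ⟨-, b2⟩ := hb' z z' a₁ a₂ a₃ d ε hε hz hz' h1 h2 h4 h5 h6
  have hP : ng a₂ ^ 3 * |z' - z| + ε * ap a₁ a₂ + ε ^ 2 * |d| ≤ 2 * (ε * (N + |d|)) := by
    have e6 : ε * ap a₁ a₂ ≤ ε * N := by
      refine mul_le_mul_of_nonneg_left ?_ hε.le
      rw [hN]
      linarith
    have e7 : ε ^ 2 * |d| ≤ ε * |d| := by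
      refine mul_le_mul_of_nonneg_right ?_ hd0
      nlinarith
    have e8 : 0 ≤ ε * |d| := by positivity
    have e9 : 2 * (ε * (N + |d|)) = ε * N + ε * N + 2 * (ε * |d|) := by ring
    linarith
  have q1 : 0 ≤ B * ((1 + C₄) * (C₁ / z₁ ^ 2)) := by positivity
  have q2 : 0 ≤ B * (Cb * 2) := by positivity
  have q3 : 0 ≤ Cb' * 2 := by positivity
  have q4 : 0 ≤ 2 * (B * C₄) := by positivity
  have r1 := mul_nonneg q1 hND
  have r2 := mul_nonneg q2 hND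
  have r3 := mul_nonneg q3 hND
  have r4 := mul_nonneg q4 hND
  have expand : (B * ((1 + C₄) * (C₁ / z₁ ^ 2)) + B * (Cb * 2) + Cb' * 2 + 2 * (B * C₄)) *
      (ε * (N + |d|)) = B * ((1 + C₄) * (C₁ / z₁ ^ 2)) * (ε * (N + |d|)) +
      B * (Cb * 2) * (ε * (N + |d|)) + Cb' * 2 * (ε * (N + |d|)) +
      2 * (B * C₄) * (ε * (N + |d|)) := by ring
  have hεN : ε * N ≤ ε * (N + |d|) := mul_le_mul_of_nonneg_left (by linarith) hε.le
  refine ⟨?_, ?_, ?_, ?_⟩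
  · have f1 : Real.exp l' * (z' * f (a₂ / z')) - Real.exp l * (z * (f (a₃ / z) - f (a₁ / z))) =
        (Real.exp l' - Real.exp l) * (z' * f (a₂ / z')) +
        Real.exp l * (z' * f (a₂ / z') - z * (f (a₃ / z) - f (a₁ / z))) := by ring
    have f2 : |(Real.exp l' - Real.exp l) * (z' * f (a₂ / z'))| ≤
        B * ((1 + C₄) * (C₁ / z₁ ^ 2)) * (ε * (N + |d|)) := by
      rw [abs_mul]
      calc |Real.exp l' - Real.exp l| * |z' * f (a₂ / z')|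
          ≤ (B * (|σ| + C₄ * (ng a₁ ^ 3 + ng b ^ 3))) * (C₁ / z₁ ^ 2 * ng a₂ ^ 3) :=
            mul_le_mul hE1 hzf (abs_nonneg _) (by positivity)
        _ = B * (C₁ / z₁ ^ 2) * (ng a₂ ^ 3 * |σ| + C₄ * (ng a₂ ^ 3 * ng a₁ ^ 3 +
              ng a₂ ^ 3 * ng b ^ 3)) := by ring
        _ ≤ B * (C₁ / z₁ ^ 2) * (ε * (|σ| * |a₂|) + C₄ * (ε * ap a₁ a₂ +
              ε * (|b| * |a₂|))) := by
            refine mul_le_mul_of_nonneg_left ?_ (by positivity)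
            exact add_le_add e1 (mul_le_mul_of_nonneg_left (add_le_add e2 e3) hC₄)
        _ ≤ B * (C₁ / z₁ ^ 2) * ((1 + C₄) * (ε * N)) := by
            refine mul_le_mul_of_nonneg_left ?_ (by positivity)
            have g1 : (1 + C₄) * (ε * N) = ε * (|σ| * |a₂|) + C₄ * (ε * ap a₁ a₂ +
              ε * (|b| * |a₂|)) + (ε * (|b| * |a₂| + ap a₁ a₂) + C₄ * (ε * (|σ| * |a₂|))) := by
              rw [hN]
              ring
            have g2 : 0 ≤ ε * (|b| * |a₂| + ap a₁ a₂) + C₄ * (ε * (|σ| * |a₂|)) := by positivity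
            linarith
        _ = B * ((1 + C₄) * (C₁ / z₁ ^ 2)) * (ε * N) := by ring
        _ ≤ B * ((1 + C₄) * (C₁ / z₁ ^ 2)) * (ε * (N + |d|)) :=
            mul_le_mul_of_nonneg_left hεN q1
    have f3 : |Real.exp l * (z' * f (a₂ / z') - z * (f (a₃ / z) - f (a₁ / z)))| ≤
        B * (Cb * 2) * (ε * (N + |d|)) := by
      rw [abs_mul, abs_of_pos hEl0]
      calc Real.exp l * |z' * f (a₂ / z') - z * (f (a₃ / z) - f (a₁ / z))|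
          ≤ B * (Cb * (2 * (ε * (N + |d|)))) :=
            mul_le_mul hEl (b1.trans (mul_le_mul_of_nonneg_left hP hCb)) (abs_nonneg _) hB0
        _ = B * (Cb * 2) * (ε * (N + |d|)) := by ring
    rw [expand, f1]
    have f4 := abs_add_le ((Real.exp l' - Real.exp l) * (z' * f (a₂ / z')))
      (Real.exp l * (z' * f (a₂ / z') - z * (f (a₃ / z) - f (a₁ / z))))
    linarith
  · rw [expand]
    have f1 := b2.trans (mul_le_mul_of_nonneg_left hP hCb')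
    have f2 : Cb' * (2 * (ε * (N + |d|))) = Cb' * 2 * (ε * (N + |d|)) := by ring
    linarith
  · have f1 : B * (C₄ * (ng a₁ ^ 3 + ng b ^ 3)) ≤ B * (2 * C₄ * ε) :=
      mul_le_mul_of_nonneg_left hcub hB0
    have f2 : B * (2 * C₄ * ε) = 2 * (B * C₄) * ε := by ring
    have r1 := mul_nonneg q1 hε.le
    have r2 := mul_nonneg q2 hε.le
    have r3 := mul_nonneg q3 hε.le
    have expand2 : (B * ((1 + C₄) * (C₁ / z₁ ^ 2)) + B * (Cb * 2) + Cb' * 2 +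
      2 * (B * C₄)) * ε = B * ((1 + C₄) * (C₁ / z₁ ^ 2)) * ε +
      B * (Cb * 2) * ε + Cb' * 2 * ε + 2 * (B * C₄) * ε := by ring
    rw [expand2]
    linarith
  · have f1 : |Real.exp (l' - σ) - Real.exp l| * |a₂| ≤ B * C₄ * (ε * (N + |d|)) := by
      calc |Real.exp (l' - σ) - Real.exp l| * |a₂|
          ≤ (B * (C₄ * (ng a₁ ^ 3 + ng b ^ 3))) * |a₂| :=
            mul_le_mul_of_nonneg_right hE2 (abs_nonneg _)
        _ = B * C₄ * ((ng a₁ ^ 3 + ng b ^ 3) * |a₂|) := by ring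
        _ ≤ B * C₄ * (ε * (N + |d|)) :=
            mul_le_mul_of_nonneg_left (e5.trans hεN) (by positivity)
    have f2 : B * C₄ * (ε * (N + |d|)) ≤ 2 * (B * C₄) * (ε * (N + |d|)) := by
      have : 0 ≤ B * C₄ * (ε * (N + |d|)) := by positivity
      linarith
    rw [expand]
    linarith

private theorem absorb {B c Cs ε N D T d Y : ℝ} (hB0 : 0 < B) (hc0 : 0 < c) (hCs : 0 ≤ Cs)
    (hε : 0 < ε) (hN0 : 0 ≤ N) (c5' : 6 * Cs * ε ≤ c / 2) (hDc : c ≤ D) (hTb : |T| ≤ B * N)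
    (hY : Y = Cs * (ε * (N + |d|))) (hDT : |D * d - T| ≤ 6 * Y) :
    |d| ≤ (2 * B / c + 1) * N ∧
      |d - T / D| ≤ 6 * Cs / c * (1 + (2 * B / c + 1)) * (ε * N) ∧
      2 * Y ≤ 2 * Cs * (1 + (2 * B / c + 1)) * (ε * N) := by
  have hD0 : 0 < D := by linarith
  have hd0 : 0 ≤ |d| := abs_nonneg d
  have hYeq : 6 * Y = 6 * Cs * ε * (N + |d|) := by
    rw [hY]
    ring
  have hNd : 0 ≤ N + |d| := by linarith
  obtain ⟨C₅, hC₅⟩ : ∃ C₅, C₅ = 2 * B / c + 1 := ⟨_, rfl⟩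
  have hC₅0 : 0 < C₅ := by
    rw [hC₅]
    positivity
  rw [← hC₅]
  have hdb' : |d| ≤ C₅ * N := by
    have e1 : c * |d| ≤ |D * d| := by
      rw [abs_mul, abs_of_pos hD0]
      exact mul_le_mul_of_nonneg_right hDc hd0
    have e2 : |D * d| ≤ |D * d - T| + |T| := by
      have := abs_add_le (D * d - T) T
      rwa [sub_add_cancel] at this
    have e3 : 6 * Y ≤ c / 2 * (N + |d|) := by
      rw [hYeq]
      exact mul_le_mul_of_nonneg_right c5' hNd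
    have e4 : c * |d| ≤ B * N + c / 2 * (N + |d|) := by linarith
    have e5 : c * |d| ≤ (2 * B + c) * N := by linarith
    have e6 : c * |d| ≤ c * (C₅ * N) := by
      refine e5.trans (le_of_eq ?_)
      rw [hC₅]
      field_simp
    exact le_of_mul_le_mul_left e6 hc0
  have hNd2 : N + |d| ≤ (1 + C₅) * N := by linarith
  have hY2 : Y ≤ Cs * (1 + C₅) * (ε * N) := by
    rw [hY]
    calc Cs * (ε * (N + |d|)) ≤ Cs * (ε * ((1 + C₅) * N)) :=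
          mul_le_mul_of_nonneg_left (mul_le_mul_of_nonneg_left hNd2 hε.le) hCs
      _ = Cs * (1 + C₅) * (ε * N) := by ring
  refine ⟨hdb', ?_, by linarith⟩
  have e1 : d - T / D = (D * d - T) / D := by
    field_simp
  rw [e1, abs_div, abs_of_pos hD0]
  calc |D * d - T| / D ≤ |D * d - T| / c :=
        div_le_div_of_nonneg_left (abs_nonneg _) hc0 hDc
    _ ≤ (6 * (Cs * (1 + C₅) * (ε * N))) / c := by
        refine div_le_div_of_nonneg_right ?_ hc0.le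
        linarith
    _ = 6 * Cs / c * (1 + C₅) * (ε * N) := by ring

private theorem comb {D₁ D₂ eL eR eM a₂ b₁ A A' d Y : ℝ}
    (hmain : (eL + eR) * d = (eM - eL) * a₂ + (eM - eR) * b₁ + A + A')
    (e2 : |(D₁ - eL) * d| ≤ Y) (e3 : |(D₂ - eR) * d| ≤ Y) (e4 : |(D₁ - eL) * a₂| ≤ Y)
    (e5 : |(D₂ - eR) * b₁| ≤ Y) (e6 : |A| ≤ Y) (e7 : |A'| ≤ Y) :
    |(D₁ + D₂) * d - ((eM - D₁) * a₂ + (eM - D₂) * b₁)| ≤ 6 * Y := by
  have e1 : (D₁ + D₂) * d - ((eM - D₁) * a₂ + (eM - D₂) * b₁) = (D₁ - eL) * d + (D₂ - eR) * d +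
      (D₁ - eL) * a₂ + (D₂ - eR) * b₁ + A + A' := by
    linarith
  rw [e1]
  have g1 := abs_add_le ((D₁ - eL) * d) ((D₂ - eR) * d)
  have g2 := abs_add_le ((D₁ - eL) * d + (D₂ - eR) * d) ((D₁ - eL) * a₂)
  have g3 := abs_add_le ((D₁ - eL) * d + (D₂ - eR) * d + (D₁ - eL) * a₂) ((D₂ - eR) * b₁)
  have g4 := abs_add_le ((D₁ - eL) * d + (D₂ - eR) * d + (D₁ - eL) * a₂ + (D₂ - eR) * b₁) A
  have g5 := abs_add_le ((D₁ - eL) * d + (D₂ - eR) * d + (D₁ - eL) * a₂ + (D₂ - eR) * b₁ + A) A'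
  linarith

private theorem alg {eL eM eR a₁ a₂ a₃ b₁ b₂ b₃ d x1 x2 x3 y1 y2 y3 k zL zM zR : ℝ} (hk : 0 < k)
    (hda : a₃ = a₁ + a₂ + d) (hdb : b₃ = b₂ + b₁ + d)
    (hu : k * (eL * (a₃ + zL * x3)) + k * (eR * (b₃ + zR * y3)) =
      k * (eL * (a₁ + zL * x1)) + k * (eM * (b₁ + zM * y1)) + (k * (eM * (a₂ + zM * x2)) +
      k * (eR * (b₂ + zR * y2)))) :
    (eL + eR) * d = (eM - eL) * a₂ + (eM - eR) * b₁ +
      (eM * (zM * x2) - eL * (zL * (x3 - x1))) + (eM * (zM * y1) - eR * (zR * (y3 - y2))) := by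
  have hu2 : k * (eL * (a₃ + zL * x3) + eR * (b₃ + zR * y3)) =
      k * (eL * (a₁ + zL * x1) + eM * (b₁ + zM * y1) + (eM * (a₂ + zM * x2) +
      eR * (b₂ + zR * y2))) := by
    linarith
  have hu' := mul_left_cancel₀ hk.ne' hu2
  rw [hda, hdb] at hu'
  linarith

private theorem cubes {x y ε : ℝ} (hx : |x| ≤ ε) (hy : |y| ≤ ε) (hε : ε ≤ 1) :
    ng x ^ 3 + ng y ^ 3 ≤ 2 * ε := by
  have g1 := cube_le (ng_nonneg x) ((ng_le_abs x).trans hx) hε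
  have g2 := cube_le (ng_nonneg y) ((ng_le_abs y).trans hy) hε
  have g3 : ng x ≤ 1 := ((ng_le_abs x).trans hx).trans hε
  have g4 : ng y ≤ 1 := ((ng_le_abs y).trans hy).trans hε
  have g5 : 0 ≤ ε := (abs_nonneg x).trans hx
  nlinarith

private theorem sgb {l l' s Λ C x y ε : ℝ} (hl : |l| ≤ Λ) (hl' : |l'| ≤ Λ) (hC : 0 ≤ C)
    (h : |l' - l - s| ≤ C * (ng x ^ 3 + ng y ^ 3)) (hx : |x| ≤ ε) (hy : |y| ≤ ε) (hε : ε ≤ 1)
    (hCε : 2 * C * ε ≤ 1) : |s| ≤ 2 * Λ + 1 := by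
  have e2 := mul_le_mul_of_nonneg_left (cubes hx hy hε) hC
  rw [abs_le] at hl hl' h
  rw [abs_le]
  constructor <;> linarith

private theorem tb {m s₁ s₂ a₂ b₁ Λ B D₁ D₂ N : ℝ} (hB : B = Real.exp (3 * Λ + 1))
    (hD₁ : D₁ = Real.exp (m - s₁)) (hD₂ : D₂ = Real.exp (m - (-s₂))) (hm : |m| ≤ Λ)
    (hs1 : |s₁| ≤ 2 * Λ + 1) (hs2 : |s₂| ≤ 2 * Λ + 1)
    (hN : |s₁| * |a₂| + |s₂| * |b₁| ≤ N) :
    |(Real.exp m - D₁) * a₂ + (Real.exp m - D₂) * b₁| ≤ B * N := by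
  have hΛ : 0 ≤ Λ := (abs_nonneg _).trans hm
  rw [abs_le] at hm
  have hs1' := hs1
  have hs2' := hs2
  rw [abs_le] at hs1' hs2'
  have hB0 : 0 < B := by
    rw [hB]
    exact Real.exp_pos _
  have e1 : |Real.exp m - D₁| ≤ B * |s₁| := by
    have := exp_sub_le (x := m) (y := m - s₁) (B := 3 * Λ + 1) (by linarith) (by linarith)
    rw [← hB, ← hD₁, sub_sub_cancel] at this
    exact this
  have e2 : |Real.exp m - D₂| ≤ B * |s₂| := by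
    have := exp_sub_le (x := m) (y := m - (-s₂)) (B := 3 * Λ + 1) (by linarith)
      (by linarith)
    rw [← hB, ← hD₂, sub_sub_cancel, abs_neg] at this
    exact this
  calc |(Real.exp m - D₁) * a₂ + (Real.exp m - D₂) * b₁|
      ≤ |(Real.exp m - D₁) * a₂| + |(Real.exp m - D₂) * b₁| := abs_add_le _ _
    _ ≤ (B * |s₁|) * |a₂| + (B * |s₂|) * |b₁| := by
        rw [abs_mul, abs_mul]
        exact add_le_add (mul_le_mul_of_nonneg_right e1 (abs_nonneg _))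
          (mul_le_mul_of_nonneg_right e2 (abs_nonneg _))
    _ = B * (|s₁| * |a₂| + |s₂| * |b₁|) := by ring
    _ ≤ B * N := mul_le_mul_of_nonneg_left hN hB0.le

private theorem quot {m s₁ s₂ a₂ b₁ D₁ D₂ : ℝ}
    (hD₁ : D₁ = Real.exp (m - s₁)) (hD₂ : D₂ = Real.exp (m - (-s₂))) :
    ((1 - Real.exp (-s₁)) * a₂ + (1 - Real.exp s₂) * b₁) / (Real.exp (-s₁) + Real.exp s₂) =
      ((Real.exp m - D₁) * a₂ + (Real.exp m - D₂) * b₁) / (D₁ + D₂) := by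
  have g1 : D₁ = Real.exp m * Real.exp (-s₁) := by
    rw [hD₁, ← Real.exp_add]
    congr 1
  have g2 : D₂ = Real.exp m * Real.exp s₂ := by
    rw [hD₂, ← Real.exp_add]
    congr 1
    ring
  have g3 : (Real.exp m - D₁) * a₂ + (Real.exp m - D₂) * b₁ =
      Real.exp m * ((1 - Real.exp (-s₁)) * a₂ + (1 - Real.exp s₂) * b₁) := by
    rw [g1, g2]
    ring
  have g4 : D₁ + D₂ = Real.exp m * (Real.exp (-s₁) + Real.exp s₂) := by
    rw [g1, g2]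
    ring
  rw [g3, g4, mul_div_mul_left _ _ (Real.exp_pos _).ne']

private theorem outer {C₃ C₄ r K ε a₁ b₁ a₂ b₂ a₃ b₃ zL zM zR uL uM uR : ℝ} (hC₃ : 0 < C₃)
    (hC₄ : 0 < C₄) (hε : 0 < ε) (hK : K = 2 + C₃ * (4 * (1 + C₄)))
    (hr : 4 * (1 + C₄) * ε ≤ r) (ha₁ : |a₁| ≤ ε) (hb₁ : |b₁| ≤ ε) (ha₂ : |a₂| ≤ ε)
    (hb₂ : |b₂| ≤ ε)
    (j1 : |zL - zM| ≤ |a₁| + |b₁|) (j2 : |uL - uM| ≤ C₄ * (|a₁| + |b₁|))
    (j4 : |zM - zR| ≤ |a₂| + |b₂|) (j5 : |uM - uR| ≤ C₄ * (|a₂| + |b₂|))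
    (h3 : |zL - zR| + |uL - uR| ≤ r → |a₃| + |b₃| ≤ C₃ * (|zL - zR| + |uL - uR|)) :
    |a₃| ≤ K * ε ∧ |b₃| ≤ K * ε := by
  have h0 : |zL - zR| + |uL - uR| ≤ 4 * (1 + C₄) * ε := by
    have e1 : |zL - zR| ≤ |zL - zM| + |zM - zR| := abs_sub_le _ _ _
    have e2 : |uL - uR| ≤ |uL - uM| + |uM - uR| := abs_sub_le _ _ _
    have e3 : C₄ * (|a₁| + |b₁|) ≤ C₄ * (2 * ε) :=
      mul_le_mul_of_nonneg_left (by linarith) hC₄.le
    have e4 : C₄ * (|a₂| + |b₂|) ≤ C₄ * (2 * ε) :=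
      mul_le_mul_of_nonneg_left (by linarith) hC₄.le
    have e5 : 4 * (1 + C₄) * ε = 4 * ε + C₄ * (2 * ε) + C₄ * (2 * ε) := by ring
    linarith
  have h3 := h3 (h0.trans hr)
  have h3' : |a₃| + |b₃| ≤ K * ε := by
    refine h3.trans ((mul_le_mul_of_nonneg_left h0 hC₃.le).trans ?_)
    rw [hK]
    have : 0 ≤ 2 * ε := by positivity
    linarith
  have g1 := abs_nonneg a₃
  have g2 := abs_nonneg b₃
  constructor <;> linarith

private theorem concl {C₅ W1 W2 ε N x y w : ℝ} (h5 : 0 ≤ C₅) (h1 : 0 ≤ W1) (h2 : 0 ≤ W2)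
    (hε : 0 < ε) (hN : 0 ≤ N) (hx : x ≤ C₅ * N) (hy : y ≤ W1 * (ε * N)) (hw : w ≤ W2 * (ε * N)) :
    x ≤ (C₅ + W1 + W2) * N ∧ y ≤ (C₅ + W1 + W2) * ε * N ∧ w ≤ (C₅ + W1 + W2) * ε * N := by
  have e1 := mul_nonneg h1 hN
  have e2 := mul_nonneg h2 hN
  have e0 : 0 ≤ ε * N := by positivity
  have e3 := mul_nonneg h5 e0
  have e4 := mul_nonneg h1 e0
  have e5 := mul_nonneg h2 e0
  have e6 : (C₅ + W1 + W2) * ε * N = C₅ * (ε * N) + W1 * (ε * N) + W2 * (ε * N) := by ring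
  refine ⟨by linarith, ?_, ?_⟩ <;> rw [e6] <;> linarith

theorem inter {γ z₁ z₂ Λ : ℝ} (hγ : 1 < γ) (hz : 0 < z₁) : ∃ C ε₀ : ℝ, 0 < C ∧ 0 < ε₀ ∧
    ∀ (ε : ℝ) (L M R : St), 0 < ε → ε ≤ ε₀ → InB z₁ z₂ Λ L → InB z₁ z₂ Λ M → InB z₁ z₂ Λ R →
      |ra γ L M| ≤ ε → |rb γ L M| ≤ ε → |ra γ M R| ≤ ε → |rb γ M R| ≤ ε →
      ∃ d : ℝ, ra γ L R = ra γ L M + ra γ M R + d ∧ rb γ L R = rb γ L M + rb γ M R + d ∧
        |d| ≤ C * (|sg γ L M| * |ra γ M R| + |sg γ M R| * |rb γ L M| +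
          qq2 (wv γ L M) (wv γ M R)) ∧
        |d - ((1 - Real.exp (-sg γ L M)) * ra γ M R + (1 - Real.exp (sg γ M R)) * rb γ L M) /
            (Real.exp (-sg γ L M) + Real.exp (sg γ M R))| ≤
          C * ε * (|sg γ L M| * |ra γ M R| + |sg γ M R| * |rb γ L M| +
            qq2 (wv γ L M) (wv γ M R)) ∧
        |sg γ L R - sg γ L M - sg γ M R| ≤
          C * ε * (|sg γ L M| * |ra γ M R| + |sg γ M R| * |rb γ L M| +
            qq2 (wv γ L M) (wv γ M R)) := by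
  obtain ⟨C₁, hC₁, hf⟩ := cubic_G hγ
  obtain ⟨C₂, hC₂, hS⟩ := cubic_S hγ
  obtain ⟨C₃, r, hC₃, hr, hra⟩ := ra_bound (z₂ := z₂) (Λ := Λ) hγ hz
  obtain ⟨C₄, hC₄, hjb⟩ := jump_bound (z₂ := z₂) (Λ := Λ) hγ hz
  obtain ⟨K, hK⟩ : ∃ K, K = 2 + C₃ * (4 * (1 + C₄)) := ⟨_, rfl⟩
  have hK2 : 2 ≤ K := by
    rw [hK]
    have : 0 < C₃ * (4 * (1 + C₄)) := by positivity
    linarith
  obtain ⟨Cs, hCs, hside⟩ := side (γ := γ) (Λ := Λ) (K := K) hf hC₁ hS hC₂ hz hK2 hC₄.le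
  obtain ⟨B, hB⟩ : ∃ B, B = Real.exp (3 * Λ + 1) := ⟨_, rfl⟩
  have hB0 : 0 < B := by
    rw [hB]
    exact Real.exp_pos _
  obtain ⟨c, hc⟩ : ∃ c, c = Real.exp (-(3 * Λ + 1)) := ⟨_, rfl⟩
  have hc0 : 0 < c := by
    rw [hc]
    exact Real.exp_pos _
  have hk : 0 < k0 γ := by
    unfold k0
    exact div_pos two_pos (by linarith)
  obtain ⟨C₅, hC₅⟩ : ∃ C₅, C₅ = 2 * B / c + 1 := ⟨_, rfl⟩
  have hC₅0 : 0 < C₅ := by
    rw [hC₅]
    positivity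
  have hKpos : 0 < K := by linarith
  refine ⟨C₅ + 6 * Cs / c * (1 + C₅) + 2 * Cs * (1 + C₅),
    min (min (r / (4 * (1 + C₄))) (z₁ / (2 * K)))
      (min 1 (min (1 / (2 * C₄)) (c / (12 * (Cs + 1))))), by positivity, ?_, ?_⟩
  · exact lt_min (lt_min (by positivity) (by positivity))
      (lt_min one_pos (lt_min (by positivity) (by positivity)))
  intro ε L M R hε hε0 hL hM hR ha₁ hb₁ ha₂ hb₂
  have c1 : ε ≤ r / (4 * (1 + C₄)) := hε0.trans ((min_le_left _ _).trans (min_le_left _ _))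
  have c2 : ε ≤ z₁ / (2 * K) := hε0.trans ((min_le_left _ _).trans (min_le_right _ _))
  have c3 : ε ≤ 1 := hε0.trans ((min_le_right _ _).trans (min_le_left _ _))
  have c4 : ε ≤ 1 / (2 * C₄) :=
    hε0.trans ((min_le_right _ _).trans ((min_le_right _ _).trans (min_le_left _ _)))
  have c5 : ε ≤ c / (12 * (Cs + 1)) :=
    hε0.trans ((min_le_right _ _).trans ((min_le_right _ _).trans (min_le_right _ _)))
  rw [le_div_iff₀ (by positivity)] at c1 c2 c4 c5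
  have c5' : 6 * Cs * ε ≤ c / 2 := by nlinarith
  have hKε : K * ε ≤ z₁ / 2 := by nlinarith
  have h2ε : 2 * ε ≤ K * ε := mul_le_mul_of_nonneg_right hK2 hε.le
  have c4' : 2 * C₄ * ε ≤ 1 := by linarith
  have hLz : 0 < L.z := lt_of_lt_of_le hz hL.1
  have hMz : 0 < M.z := lt_of_lt_of_le hz hM.1
  have hRz : 0 < R.z := lt_of_lt_of_le hz hR.1
  have hΛ : 0 ≤ Λ := (abs_nonneg _).trans hM.2.2
  have hLM := rie_ra hγ hLz hMz
  have hMR := rie_ra hγ hMz hRz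
  have hLR := rie_ra hγ hLz hRz
  obtain ⟨j1, j2, j3⟩ := hjb L M hL hM (by linarith) (by linarith)
  obtain ⟨j4, j5, j6⟩ := hjb M R hM hR (by linarith) (by linarith)
  -- the amplitudes of the outer problem
  obtain ⟨ha₃, hb₃⟩ := outer hC₃ hC₄ hε hK (by linarith) ha₁ hb₁ ha₂ hb₂ j1 j2 j4 j5
    (fun h => hra L R hL hR h)
  have z1 := hLM.z
  have z2 := hMR.z
  have z3 := hLR.z
  have u1 := hLM.u
  have u2 := hMR.u
  have u3 := hLR.u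
  have sd1 : sg γ L M = (M.l + S0 γ (rb γ L M / M.z)) - (L.l + S0 γ (ra γ L M / L.z)) := rfl
  have sd2 : sg γ M R = (R.l + S0 γ (rb γ M R / R.z)) - (M.l + S0 γ (ra γ M R / M.z)) := rfl
  have sd3 : sg γ L R = (R.l + S0 γ (rb γ L R / R.z)) - (L.l + S0 γ (ra γ L R / L.z)) := rfl
  have hqq : qq2 (wv γ L M) (wv γ M R) = |rb γ L M| * |ra γ M R| + ap (ra γ L M) (ra γ M R) +
      ap (rb γ L M) (rb γ M R) := rfl
  rw [hqq]
  obtain ⟨a₁, ea₁⟩ : ∃ a₁, a₁ = ra γ L M := ⟨_, rfl⟩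
  obtain ⟨b₁, eb₁⟩ : ∃ b₁, b₁ = rb γ L M := ⟨_, rfl⟩
  obtain ⟨a₂, ea₂⟩ : ∃ a₂, a₂ = ra γ M R := ⟨_, rfl⟩
  obtain ⟨b₂, eb₂⟩ : ∃ b₂, b₂ = rb γ M R := ⟨_, rfl⟩
  obtain ⟨a₃, ea₃⟩ : ∃ a₃, a₃ = ra γ L R := ⟨_, rfl⟩
  obtain ⟨b₃, eb₃⟩ : ∃ b₃, b₃ = rb γ L R := ⟨_, rfl⟩
  obtain ⟨s₁, es₁⟩ : ∃ s₁, s₁ = sg γ L M := ⟨_, rfl⟩
  obtain ⟨s₂, es₂⟩ : ∃ s₂, s₂ = sg γ M R := ⟨_, rfl⟩
  obtain ⟨s₃, es₃⟩ : ∃ s₃, s₃ = sg γ L R := ⟨_, rfl⟩
  rw [← ea₁, ← eb₁] at j1 j2 j3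
  rw [← ea₂, ← eb₂] at j4 j5 j6
  rw [← es₁] at j3
  rw [← es₂] at j6
  rw [← ea₁] at ha₁ z1 u1 sd1
  rw [← eb₁] at hb₁ z1 u1 sd1
  rw [← ea₂] at ha₂ z2 u2 sd2
  rw [← eb₂] at hb₂ z2 u2 sd2
  rw [← ea₃] at ha₃ z3 u3 sd3
  rw [← eb₃] at hb₃ z3 u3 sd3
  rw [← es₁] at sd1
  rw [← es₂] at sd2
  rw [← es₃] at sd3
  rw [← ea₁, ← ea₂, ← ea₃, ← eb₁, ← eb₂, ← eb₃, ← es₁, ← es₂, ← es₃]
  obtain ⟨d, hd⟩ : ∃ d, d = a₃ - a₁ - a₂ := ⟨_, rfl⟩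
  have hda : a₃ = a₁ + a₂ + d := by linarith
  have hdb : b₃ = b₂ + b₁ + d := by linarith
  obtain ⟨N, hN⟩ : ∃ N, N = |s₁| * |a₂| + |s₂| * |b₁| +
    (|b₁| * |a₂| + ap a₁ a₂ + ap b₁ b₂) := ⟨_, rfl⟩
  rw [← hN]
  have hap1 := ap_nonneg a₁ a₂
  have hap2 := ap_nonneg b₁ b₂
  have hap3 : ap b₂ b₁ = ap b₁ b₂ := ap_comm' _ _
  have hp1 : 0 ≤ |s₁| * |a₂| := by positivity
  have hp2 : 0 ≤ |s₂| * |b₁| := by positivity
  have hp3 : 0 ≤ |b₁| * |a₂| := by positivity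
  have hN0 : 0 ≤ N := by
    rw [hN]
    positivity
  have hd0 : 0 ≤ |d| := abs_nonneg d
  have hN1 : |s₁| * |a₂| + |b₁| * |a₂| + ap a₁ a₂ + |d| ≤ N + |d| := by linarith
  have hN2 : |(-s₂)| * |b₁| + |a₂| * |b₁| + ap b₂ b₁ + |d| ≤ N + |d| := by
    rw [abs_neg, hap3, mul_comm |a₂| |b₁|]
    linarith
  -- the two sides
  have hMLz : |M.z - L.z| ≤ |a₁| + |b₁| := by
    rw [abs_sub_comm]
    exact j1
  have hMRz : |M.z - R.z| ≤ |b₂| + |a₂| := by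
    rw [add_comm]
    exact j4
  have hMRl : |M.l - R.l - (-s₂)| ≤ C₄ * (ng b₂ ^ 3 + ng a₂ ^ 3) := by
    have e1 : M.l - R.l - (-s₂) = -(R.l - M.l - s₂) := by ring
    rw [e1, abs_neg, add_comm]
    exact j6
  obtain ⟨A1, A2, A3, A4⟩ := hside L.z M.z L.l M.l a₁ a₂ a₃ b₁ s₁ d ε hε c3 hL.1 hM.1 hL.2.2
    hM.2.2 ha₁ ha₂ hb₁ ha₃ hKε hda hMLz j3 c4'
  obtain ⟨B1, B2, B3, B4⟩ := hside R.z M.z R.l M.l b₂ b₁ b₃ a₂ (-s₂) d ε hε c3 hR.1 hM.1 hR.2.2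
    hM.2.2 hb₂ hb₁ ha₂ hb₃ hKε hdb hMRz hMRl c4'
  have up : ∀ {y X : ℝ}, y ≤ Cs * (ε * X) → X ≤ N + |d| → y ≤ Cs * (ε * (N + |d|)) := by
    intro y X h1 h2
    exact h1.trans (mul_le_mul_of_nonneg_left (mul_le_mul_of_nonneg_left h2 hε.le) hCs)
  have A1' := up A1 hN1
  have A2' := up A2 hN1
  have A4' := up A4 hN1
  have B1' := up B1 hN2
  have B2' := up B2 hN2
  have B4' := up B4 hN2
  obtain ⟨Y, hY⟩ : ∃ Y, Y = Cs * (ε * (N + |d|)) := ⟨_, rfl⟩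
  rw [← hY] at A1' A2' A4' B1' B2' B4'
  -- the equation for `d`
  have hhj : ∀ a z l : ℝ, 0 < z → hj γ a z l =
      k0 γ * (Real.exp l * (a + z * (GG γ (a / z) / k0 γ - a / z))) := by
    intro a z l hz0
    unfold hj
    field_simp
    ring
  obtain ⟨f, hfd⟩ : ∃ f : ℝ → ℝ, f = fun y => GG γ y / k0 γ - y := ⟨_, rfl⟩
  have hhj' : ∀ a z l : ℝ, 0 < z → hj γ a z l =
      k0 γ * (Real.exp l * (a + z * f (a / z))) := by
    intro a z l hz0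
    rw [hfd]
    exact hhj a z l hz0
  have f1 : ∀ y, GG γ y / k0 γ - y = f y := by
    intro y
    rw [hfd]
  simp only [f1] at A1' B1'
  rw [hhj' _ _ _ hLz, hhj' _ _ _ hMz] at u1
  rw [hhj' _ _ _ hMz, hhj' _ _ _ hRz] at u2
  rw [hhj' _ _ _ hLz, hhj' _ _ _ hRz] at u3
  have hu : R.u - L.u = (M.u - L.u) + (R.u - M.u) := by ring
  rw [u1, u2, u3] at hu
  have hmain := alg hk hda hdb hu
  obtain ⟨A, hA⟩ : ∃ A, A = Real.exp M.l * (M.z * f (a₂ / M.z)) -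
    Real.exp L.l * (L.z * (f (a₃ / L.z) - f (a₁ / L.z))) := ⟨_, rfl⟩
  obtain ⟨A', hA'⟩ : ∃ A', A' = Real.exp M.l * (M.z * f (b₁ / M.z)) -
    Real.exp R.l * (R.z * (f (b₃ / R.z) - f (b₂ / R.z))) := ⟨_, rfl⟩
  rw [← hA] at A1' hmain
  rw [← hA'] at B1' hmain
  have hs1 : |s₁| ≤ 2 * Λ + 1 := sgb hL.2.2 hM.2.2 hC₄.le j3 ha₁ hb₁ c3 c4'
  have hs2 : |s₂| ≤ 2 * Λ + 1 := sgb hM.2.2 hR.2.2 hC₄.le j6 ha₂ hb₂ c3 c4'
  obtain ⟨D₁, hD₁⟩ : ∃ D₁, D₁ = Real.exp (M.l - s₁) := ⟨_, rfl⟩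
  obtain ⟨D₂, hD₂⟩ : ∃ D₂, D₂ = Real.exp (M.l - (-s₂)) := ⟨_, rfl⟩
  rw [← hD₁] at A3 A4'
  rw [← hD₂] at B3 B4'
  have hD1c : c ≤ D₁ := by
    rw [hc, hD₁]
    have hMl := hM.2.2
    rw [abs_le] at hMl
    have hs1' := hs1
    rw [abs_le] at hs1'
    exact Real.exp_le_exp.2 (by linarith)
  have hD2c : 0 < D₂ := by
    rw [hD₂]
    exact Real.exp_pos _
  have hDc : c ≤ D₁ + D₂ := by linarith
  have hTb := tb (a₂ := a₂) (b₁ := b₁) (N := N) hB hD₁ hD₂ hM.2.2 hs1 hs2 (by linarith)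
  have hDd : ∀ {x : ℝ}, |x| ≤ Cs * ε → |x * d| ≤ Y := by
    intro x hx
    rw [abs_mul]
    calc |x| * |d| ≤ (Cs * ε) * |d| := mul_le_mul_of_nonneg_right hx hd0
      _ = Cs * (ε * |d|) := by ring
      _ ≤ Y := by
          rw [hY]
          exact mul_le_mul_of_nonneg_left (mul_le_mul_of_nonneg_left (by linarith) hε.le) hCs
  rw [← abs_mul] at A4' B4'
  have hDT := comb (D₁ := D₁) (D₂ := D₂) hmain (hDd A3) (hDd B3) A4' B4' A1' B1'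
  obtain ⟨k1, k2, k3⟩ := absorb hB0 hc0 hCs hε hN0 c5' hDc hTb hY hDT
  rw [← quot hD₁ hD₂] at k2
  rw [← hC₅] at k1 k2 k3
  have e1 : s₃ - s₁ - s₂ =
      (S0 γ (a₂ / M.z) - (S0 γ (a₃ / L.z) - S0 γ (a₁ / L.z))) -
      (S0 γ (b₁ / M.z) - (S0 γ (b₃ / R.z) - S0 γ (b₂ / R.z))) := by
    rw [sd1, sd2, sd3]
    ring
  have e2 : |s₃ - s₁ - s₂| ≤ 2 * Y := by
    rw [e1]
    refine (abs_sub _ _).trans ?_
    rw [two_mul]
    exact add_le_add A2' B2'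
  obtain ⟨l1, l2, l3⟩ := concl hC₅0.le (by positivity) (by positivity) hε hN0 k1 k2
    (e2.trans k3)
  exact ⟨d, hda, by rw [hdb]; ring, l1, l2, l3⟩

end Helper51.TH
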