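import Pool.Agent.Helper51.TH.NDefs

/-!
TH-N05. The transfer polynomial applied to the response function gives back the signal.

PROOF. All operators commute with time shifts and are linear: by induction on `l`, for a finite sum
`h t = ∑_{b < M} c b * h_b (t - s b)` one has `(AB rN l h).1 t = ∑ c b * (AB rN l (h_b)).1 (t - s b)` and the same for
`.2`. Locality: if `h = h'` on `(-∞, T)` then `(AB l h).i = (AB l h').i` on `(-∞, T)` (all delays `2 p.2 > 0`); if
`h = 0` on `(-∞, 0)` then `(AB l h).i = 0` and `KK rN M l a h = 0` on `(-∞, 0)`.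
Claim, by induction on `l`, for `t < T1`:
(1) `(AB l (KK l 0 f)).1 t = f t`, (2) `(AB l (KK l (a+1) f)).1 t = (AB l (KK l a f)).2 t` for all `a`.
`l = []`: `KK [] a f = rN^a f`, `AB [] h = (h, rN h)`: clear.
`p :: l`, `r = p.1`, `S` = shift by `2 p.2`, `K b = KK l b f`, `A, B` = the two components of `AB l`, so that
`KK (p :: l) a f = ∑_{b < M} Q a b S^b (K b)` and `AB (p :: l) h = (A h + r S B h, r A h + S B h)`. By (2) for `l`,
`B (K b) = A (K (b+1))` on `(-∞, T1)`. So on `(-∞, T1)`: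
`A' (KK (p :: l) a f) = ∑_{b<M} Q a b S^b (A (K b) + r S A (K (b+1)))
 = ∑_{b<M} (Q a b + r Q a (b-1)) S^b A (K b) + r Q a (M-1) S^M A (K M)` (with `Q a (-1) = 0`),
and the last term vanishes for `t < T1 ≤ 2 M p.2`. For `a = 0`: `Q 0 b + r Q 0 (b-1) = 0` for `b ≥ 1`, `= 1` for `b = 0`,
which gives `A (K 0) = f`. Similarly `B' (KK (p :: l) a f) = ∑_{b<M} Q a b S^b (r A (K b) + S A (K (b+1)))
 = ∑_{b<M} (r Q a b + Q a (b-1)) S^b A (K b)` and `A' (KK (p :: l) (a+1) f) = ∑ (Q (a+1) b + r Q (a+1) (b-1)) S^b A (K b)`;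
these agree: `Q (a+1) 0 = r Q a 0` and `Q (a+1) (b+1) + r Q (a+1) b = r Q a (b+1) + Q a b` by definition.
(The case `M = 0` is trivial: then `T1 ≤ 0` if `l ≠ []`, and both sides vanish for `t < T1 ≤ 0`.)
-/

namespace Helper51.TH

private theorem AB_sum (rN : ℝ) (M : ℕ) (c s : ℕ → ℝ) (H : ℕ → ℝ → ℝ) (l : List (ℝ × ℝ)) (t : ℝ) :
    (AB rN l (fun t => ∑ b ∈ Finset.range M, c b * H b (t - s b))).1 t =
      ∑ b ∈ Finset.range M, c b * (AB rN l (H b)).1 (t - s b) ∧
    (AB rN l (fun t => ∑ b ∈ Finset.range M, c b * H b (t - s b))).2 t =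
      ∑ b ∈ Finset.range M, c b * (AB rN l (H b)).2 (t - s b) := by
  induction l generalizing t with
  | nil =>
    refine ⟨rfl, ?_⟩
    simp only [AB]
    rw [Finset.mul_sum]
    exact Finset.sum_congr rfl fun b _ => by ring
  | cons p l ih =>
    simp only [AB]
    rw [(ih t).1, (ih (t - 2 * p.2)).2]
    have e : ∀ b, t - s b - 2 * p.2 = t - 2 * p.2 - s b := fun b => by ring
    constructor
    · rw [Finset.mul_sum, ← Finset.sum_add_distrib]
      refine Finset.sum_congr rfl fun b _ => ?_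
      rw [e b]
      ring
    · rw [Finset.mul_sum, ← Finset.sum_add_distrib]
      refine Finset.sum_congr rfl fun b _ => ?_
      rw [e b]
      ring

private theorem AB_zero (rN : ℝ) (l : List (ℝ × ℝ)) (hl : ∀ p ∈ l, 0 < p.2) (h : ℝ → ℝ)
    (hh : ∀ t < 0, h t = 0) (t : ℝ) (ht : t < 0) : (AB rN l h).1 t = 0 ∧ (AB rN l h).2 t = 0 := by
  induction l generalizing t with
  | nil =>
    simp only [AB]
    rw [hh t ht]
    simp
  | cons p l ih =>
    have hp := hl p List.mem_cons_self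
    have hl' : ∀ p ∈ l, 0 < p.2 := fun q hq => hl q (List.mem_cons_of_mem _ hq)
    simp only [AB]
    rw [(ih hl' t ht).1, (ih hl' (t - 2 * p.2) (by linarith)).2]
    simp

private theorem KK_zero (rN : ℝ) (M : ℕ) (l : List (ℝ × ℝ)) (hl : ∀ p ∈ l, 0 < p.2) (a : ℕ) (f : ℝ → ℝ)
    (hf : ∀ t < 0, f t = 0) (t : ℝ) (ht : t < 0) : KK rN M l a f t = 0 := by
  induction l generalizing t a with
  | nil =>
    simp only [KK]
    rw [hf t ht, mul_zero]
  | cons p l ih =>
    have hp := hl p List.mem_cons_self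
    have hl' : ∀ p ∈ l, 0 < p.2 := fun q hq => hl q (List.mem_cons_of_mem _ hq)
    simp only [KK]
    refine Finset.sum_eq_zero fun b _ => ?_
    have h0 : 0 ≤ 2 * (b : ℝ) * p.2 := by positivity
    rw [ih hl' b (t - 2 * b * p.2) (by linarith), mul_zero]

private theorem AB_KK_aux {rN : ℝ} {M : ℕ} {T1 : ℝ} {f : ℝ → ℝ} (hf : ∀ t < 0, f t = 0)
    (l : List (ℝ × ℝ)) (hl : ∀ p ∈ l, 0 < p.2 ∧ T1 ≤ 2 * M * p.2) :
    (∀ t < T1, (AB rN l (KK rN M l 0 f)).1 t = f t) ∧
      ∀ a, ∀ t < T1, (AB rN l (KK rN M l (a + 1) f)).1 t = (AB rN l (KK rN M l a f)).2 t := by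
  induction l with
  | nil =>
    refine ⟨fun t _ => ?_, fun a t _ => ?_⟩
    · simp [AB, KK]
    · simp only [AB, KK]
      ring
  | cons p l ih =>
    obtain ⟨hp, hpT⟩ := hl p List.mem_cons_self
    have hl' : ∀ q ∈ l, 0 < q.2 ∧ T1 ≤ 2 * M * q.2 := fun q hq => hl q (List.mem_cons_of_mem _ hq)
    obtain ⟨ih1, ih2⟩ := ih hl'
    -- the values
    obtain ⟨A, hA⟩ : ∃ A : ℕ → ℝ → ℝ, ∀ b s, A b s = (AB rN l (KK rN M l b f)).1 s := ⟨_, fun _ _ => rfl⟩
    have hA0 : ∀ t < T1, A M (t - 2 * M * p.2) = 0 := by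
      intro t ht
      rw [hA]
      refine (AB_zero rN l (fun q hq => (hl' q hq).1) _ (fun s hs => ?_) _ (by linarith)).1
      exact KK_zero rN M l (fun q hq => (hl' q hq).1) M f hf s hs
    have hS1 : ∀ a t, (AB rN l (KK rN M (p :: l) a f)).1 t =
        ∑ b ∈ Finset.range M, Q p.1 a b * A b (t - 2 * b * p.2) := by
      intro a t
      have h1 := (AB_sum rN M (fun b => Q p.1 a b) (fun b => 2 * b * p.2) (fun b => KK rN M l b f) l t).1
      beta_reduce at h1
      simp only [← hA] at h1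
      exact h1
    have hS2 : ∀ a, ∀ t < T1, (AB rN l (KK rN M (p :: l) a f)).2 (t - 2 * p.2) =
        ∑ b ∈ Finset.range M, Q p.1 a b * A (b + 1) (t - 2 * (b + 1 : ℕ) * p.2) := by
      intro a t ht
      have h1 := (AB_sum rN M (fun b => Q p.1 a b) (fun b => 2 * b * p.2) (fun b => KK rN M l b f) l
        (t - 2 * p.2)).2
      beta_reduce at h1
      refine Eq.trans h1 (Finset.sum_congr rfl fun b _ => ?_)
      have h0 : 0 ≤ 2 * (b : ℝ) * p.2 := by positivity
      rw [← ih2 b _ (by linarith), ← hA]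
      congr 2
      push_cast
      ring
    refine ⟨fun t ht => ?_, fun a t ht => ?_⟩
    · change (AB rN l (KK rN M (p :: l) 0 f)).1 t + p.1 * (AB rN l (KK rN M (p :: l) 0 f)).2 (t - 2 * p.2) = f t
      rw [hS1, hS2 0 t ht, Finset.mul_sum, ← Finset.sum_add_distrib]
      have h1 : ∀ b ∈ Finset.range M, Q p.1 0 b * A b (t - 2 * b * p.2) +
          p.1 * (Q p.1 0 b * A (b + 1) (t - 2 * (b + 1 : ℕ) * p.2)) =
          (fun b : ℕ => (-p.1) ^ b * A b (t - 2 * b * p.2)) b -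
            (fun b : ℕ => (-p.1) ^ b * A b (t - 2 * b * p.2)) (b + 1) := by
        intro b _
        beta_reduce
        simp only [Q]
        rw [pow_succ]
        ring
      rw [Finset.sum_congr rfl h1, Finset.sum_range_sub', hA0 t ht]
      rw [mul_zero, sub_zero, pow_zero, one_mul, Nat.cast_zero, mul_zero, zero_mul, sub_zero, hA,
        ih1 t ht]
    · change (AB rN l (KK rN M (p :: l) (a + 1) f)).1 t +
        p.1 * (AB rN l (KK rN M (p :: l) (a + 1) f)).2 (t - 2 * p.2) =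
        p.1 * (AB rN l (KK rN M (p :: l) a f)).1 t + (AB rN l (KK rN M (p :: l) a f)).2 (t - 2 * p.2)
      rw [hS1, hS1, hS2 a t ht, hS2 (a + 1) t ht, Finset.mul_sum, Finset.mul_sum,
        ← Finset.sum_add_distrib, ← Finset.sum_add_distrib, ← sub_eq_zero, ← Finset.sum_sub_distrib]
      have h1 : ∀ b ∈ Finset.range M, (Q p.1 (a + 1) b * A b (t - 2 * b * p.2) +
          p.1 * (Q p.1 (a + 1) b * A (b + 1) (t - 2 * (b + 1 : ℕ) * p.2)) -
          (p.1 * (Q p.1 a b * A b (t - 2 * b * p.2)) + Q p.1 a b * A (b + 1) (t - 2 * (b + 1 : ℕ) * p.2))) =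
          (fun b : ℕ => (Q p.1 (a + 1) b - p.1 * Q p.1 a b) * A b (t - 2 * b * p.2)) b -
            (fun b : ℕ => (Q p.1 (a + 1) b - p.1 * Q p.1 a b) * A b (t - 2 * b * p.2)) (b + 1) := by
        intro b _
        beta_reduce
        have h2 : Q p.1 (a + 1) (b + 1) = p.1 * Q p.1 a (b + 1) + Q p.1 a b - p.1 * Q p.1 (a + 1) b := by
          simp only [Q]
        rw [h2]
        ring
      rw [Finset.sum_congr rfl h1, Finset.sum_range_sub', hA0 t ht]
      have h3 : Q p.1 (a + 1) 0 = p.1 * Q p.1 a 0 := by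
        simp only [Q]
      rw [h3]
      ring

theorem AB_KK {rN : ℝ} {M : ℕ} {T1 : ℝ} {l : List (ℝ × ℝ)}
    (hl : ∀ p ∈ l, 0 < p.2 ∧ T1 ≤ 2 * M * p.2) {f : ℝ → ℝ} (hf : ∀ t < 0, f t = 0) {t : ℝ}
    (ht : t < T1) : (AB rN l (KK rN M l 0 f)).1 t = f t := by
  exact (AB_KK_aux hf l hl).1 t ht

end Helper51.TH
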