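import Pool.Agent.Helper73.EU.Final
import Pool.Agent.Helper51.TH.Defs

/-!
TH-N13. The quadratic estimate for the perturbations of a state of rest.

PROOF. The base solution is `V = (ρ₀(x), 0, p/((γ-1) ρ₀(x)))`: `contact_isBase` with `v = 0` (after
`simp only [zero_mul, sub_zero]`), so `L = 0`. Follow `Helper73.EU.main` (Main.lean): for the solution `U` take the
potentials `Φ, Φb` (`exists_isPot`), `ξ` (`exists_xi`), the relative energy `Eta` and `Flux`; `relative` with `L = 0`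
(the left side is `0`) and `cone` (with `C' = 0`) give for almost all `t` and almost all `s < t`
`∫_{|x|<R} Eta (t, x) ≤ ∫_{|x|<R₁} Eta (s, x)`, `R₁ = R + C₁ T + 1` (`C₁` from `exists_const`, independent of `U`).
Let `s → 0` along good `s`. By `pot_zero` for `U` and for `V` (both have the density `ρ₀` at time `0`), `Φ (0, x) = Φb (0, x)`,
so `ξ (0, x) = x`; `ξ` is Lipschitz, so `|ξ (s, x) - x| ≤ K s`; by `exists_comp_ae` (Comp.lean; slopes of `ξ (s, ·)`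
from `IsXi.slope`) `∫_{|x|<R₁} |ρ₀(ξ (s, x)) - ρ₀ x| → 0` and the same for `e₀ = p/((γ-1) ρ₀)`. With `Attains`:
`∫_{|x|<R₁} (|ρ(s) - ρ₀(ξ)| + |e(s) - e₀(ξ)| + |u(s) - u₀|) → 0`. Now
`Eta = ρ u²/2 + ρ (z hh(e/z) + (γ-1) z hh(r/ρ))` with `r = ρ₀(ξ), z = e₀(ξ)`, and (`hh_le`) the second part is
`≤ C₂ ((e - z)² + (r - ρ)²) ≤ C₃ (|e - z| + |r - ρ|)` in the box; the first is `≤ (b/2) u² ≤ (b/2)(u₀² + 2 b |u - u₀|)`.
So `∫_{|x|<R₁} Eta (s) ≤ b R₁ ε² + o(1)`, and `∫_{|x|<R} Eta (t) ≤ b R₁ ε²` for a.e. `t`.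
Finally `sq_bounds`: `u² ≤ A Eta`, `(ρ - r)² + (e - z)² ≤ 2 A Eta`, and since `pr γ r z = p`,
`|pr γ ρ e - p| = (γ-1)|ρ e - r z| ≤ (γ-1) b (|ρ - r| + |e - z|)`.
-/

open MeasureTheory Set Filter Topology
open scoped ENNReal NNReal

namespace Helper51.TH

open Helper73.EU

private theorem ae_exists_small {P : ℝ → Prop} {τ : ℝ} (hτ : 0 < τ)
    (h : ∀ᵐ s : ℝ, s ∈ Ioo 0 τ → P s) : ∃ s : ℝ, s ∈ Ioo 0 τ ∧ P s := by
  by_contra hno
  push Not at hno
  have hnull : ∀ᵐ s : ℝ, s ∉ Ioo 0 τ := by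
    filter_upwards [h] with s h1 h2
    exact hno s h2 (h1 h2)
  have h2 : volume (Ioo 0 τ) = 0 := by
    rw [← compl_mem_ae_iff]; exact hnull
  rw [Real.volume_Ioo] at h2
  simp only [sub_zero, ENNReal.ofReal_eq_zero] at h2
  linarith

private theorem pr_const {γ p r : ℝ} (hγ : 1 < γ) (hr : 0 < r) :
    pr γ r (p / ((γ - 1) * r)) = p := by
  have h1 := hr.ne'
  have h2 : γ - 1 ≠ 0 := by linarith
  unfold pr
  field_simp

/-- The relative energy with respect to a state of rest. -/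
private theorem eta_rest {γ a b C ρ u e r z : ℝ}
    (hC : eta γ ρ 0 e r 0 z ≤ C * (|ρ - r| + |(0 : ℝ) - 0| + |e - z|))
    (hC0 : 0 ≤ C) (hU : Box a b ρ u e) (ha : 0 < a) {ε u₀ : ℝ} (hε : ε ≤ b)
    (hu₀ : |u₀| ≤ ε) :
    eta γ ρ u e r 0 z ≤ b / 2 * ε ^ 2 + (b ^ 2 + C) * (|ρ - r| + |u - u₀| + |e - z|) := by
  obtain ⟨h1, h2, h3, h4, h5⟩ := hU
  have hρ0 : 0 < ρ := ha.trans_le h1
  have hb : 0 < b := hρ0.trans_le h2
  have e1 : eta γ ρ u e r 0 z = ρ * (u ^ 2 / 2) + eta γ ρ 0 e r 0 z := by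
    unfold eta; ring
  have e2 : u ^ 2 ≤ ε ^ 2 + 2 * b * |u - u₀| := by
    have h6 : u ^ 2 = u₀ ^ 2 + (u - u₀) * (u + u₀) := by ring
    have h7 : u₀ ^ 2 ≤ ε ^ 2 := by
      rw [← sq_abs u₀]
      exact pow_le_pow_left₀ (abs_nonneg _) hu₀ 2
    have h8 : (u - u₀) * (u + u₀) ≤ 2 * b * |u - u₀| := by
      calc (u - u₀) * (u + u₀) ≤ |u - u₀| * |u + u₀| := by
            rw [← abs_mul]; exact le_abs_self _
        _ ≤ |u - u₀| * (2 * b) := by
            gcongr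
            exact (abs_add_le u u₀).trans (by linarith)
        _ = _ := by ring
    linarith
  have e3 : ρ * (u ^ 2 / 2) ≤ b / 2 * ε ^ 2 + b ^ 2 * |u - u₀| := by
    calc ρ * (u ^ 2 / 2) ≤ b * ((ε ^ 2 + 2 * b * |u - u₀|) / 2) := by gcongr
      _ = _ := by ring
  rw [sub_self, abs_zero, add_zero] at hC
  rw [e1]
  have a1 := abs_nonneg (ρ - r)
  have a2 := abs_nonneg (u - u₀)
  have a3 := abs_nonneg (e - z)
  have b2 : 0 ≤ b ^ 2 := by positivity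
  have c1 := mul_nonneg b2 a1
  have c2 := mul_nonneg b2 a3
  have c3 := mul_nonneg hC0 a2
  nlinarith

theorem l2_bound {γ T a b p R : ℝ} (hγ : 1 < γ) (hT : 0 < T) (ha : 0 < a) (hR : 0 < R)
    {ρ₀ : ℝ → ℝ} (hm : Measurable ρ₀)
    (hbox : ∀ x, Box a b (ρ₀ x) 0 (p / ((γ - 1) * ρ₀ x))) :
    ∃ C : ℝ, 0 < C ∧ ∀ (ε : ℝ) (ρ u e : ℝ × ℝ → ℝ) (u₀ : ℝ → ℝ), 0 ≤ ε → ε ≤ b →
      Measurable u₀ → (∀ x, |u₀ x| ≤ ε) → IsSol γ T a b ρ u e →
      Attains T ρ u e ρ₀ u₀ (fun x => p / ((γ - 1) * ρ₀ x)) →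
      ∀ᵐ t : ℝ, t ∈ Ioo 0 T →
        ∫ x in Ioo (-R) R, (u (t, x) ^ 2 + (pr γ (ρ (t, x)) (e (t, x)) - p) ^ 2) ≤
          C * ε ^ 2 := by
  have hab : a ≤ b := (hbox 0).1.trans (hbox 0).2.1
  have hb : 0 < b := ha.trans_le hab
  have hV : IsBase γ T a b 0 (fun ζ => ρ₀ ζ.2) (fun _ => 0)
      (fun ζ => p / ((γ - 1) * ρ₀ ζ.2)) ρ₀ (fun _ => 0) (fun x => p / ((γ - 1) * ρ₀ x)) := by
    have h := contact_isBase hγ hT ha hm hbox
    simpa only [zero_mul, sub_zero] using h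
  obtain ⟨z₀, hz₀⟩ : ∃ z₀ : ℝ → ℝ, z₀ = fun x => p / ((γ - 1) * ρ₀ x) := ⟨_, rfl⟩
  have hz₀m : Measurable z₀ := by rw [hz₀]; fun_prop
  have hz₀' : ∀ x, p / ((γ - 1) * ρ₀ x) = z₀ x := fun x => by rw [hz₀]
  simp only [hz₀'] at hV hbox
  have hpr : ∀ x, pr γ (ρ₀ x) (z₀ x) = p := fun x => by
    rw [← hz₀']
    exact pr_const hγ (ha.trans_le (hbox x).1)
  obtain ⟨C, hC0, hC⟩ := exists_const (γ := γ) (a := a) (b := b) hγ ha
  obtain ⟨M₁, hM₁, hM₁'⟩ := exists_bound (γ := γ) (a := a) (b := b) hγ ha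
  obtain ⟨R₁, hR₁⟩ : ∃ R₁ : ℝ, R₁ = R + C * T + 1 := ⟨_, rfl⟩
  have hR₁0 : 0 < R₁ := by rw [hR₁]; positivity
  refine ⟨(1 + 2 * ((γ - 1) * b) ^ 2) * C * (b * R₁), by positivity, ?_⟩
  intro ε ρ u e u₀ hε0 hεb hu₀m hu₀ hU hatt
  simp only [hz₀'] at hatt
  -- potentials
  obtain ⟨Φ, hΦ⟩ := exists_isPot (M := M₁) hT ha hU.meas_ρ (hU.meas_ρ.mul hU.meas_u)
    (by filter_upwards [hU.box] with ζ h hζ
        have h1 := h hζ
        exact ⟨h1.1, h1.2.1, (hM₁' _ _ _ h1).2.1⟩) hU.mass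
  obtain ⟨Φb, hΦb⟩ := exists_isPot (M := M₁) hT ha hV.sol.meas_ρ
    (hV.sol.meas_ρ.mul hV.sol.meas_u)
    (by filter_upwards [hV.sol.box] with ζ h hζ
        have h1 := h hζ
        exact ⟨h1.1, h1.2.1, (hM₁' _ _ _ h1).2.1⟩) hV.sol.mass
  obtain ⟨ξ, hξ⟩ := exists_xi ha hΦ hΦb
  obtain ⟨Kξ, hKξ⟩ := hξ.lip
  have hmξ : Measurable (fun ζ : ℝ × ℝ => (ζ.1, ξ ζ)) :=
    measurable_fst.prodMk hKξ.continuous.measurable
  have hr' := hV.sol.meas_ρ.comp hmξ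
  have hw' := hV.sol.meas_u.comp hmξ
  have hz' := hV.sol.meas_e.comp hmξ
  have hB : ∀ t x, Box a b (ρ₀ (ξ (t, x))) 0 (z₀ (ξ (t, x))) := fun t x => hbox _
  -- the cone
  obtain ⟨η, hη⟩ : ∃ η : ℝ × ℝ → ℝ, η = fun ζ => eta γ (ρ ζ) (u ζ) (e ζ) (ρ₀ (ξ ζ)) 0 (z₀ (ξ ζ)) :=
    ⟨_, rfl⟩
  have hηE : Eta γ ρ u e (fun ζ => ρ₀ ζ.2) (fun _ => 0) (fun ζ => z₀ ζ.2) ξ = η := by
    rw [hη]; rfl
  have hηm : Measurable η := by
    rw [← hηE]
    exact measurable_eta hU.meas_ρ hU.meas_u hU.meas_e hr' hw' hz'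
  have hQm : Measurable (Flux γ ρ u e (fun ζ => ρ₀ ζ.2) (fun _ => 0) (fun ζ => z₀ ζ.2) ξ) :=
    measurable_flux hU.meas_ρ hU.meas_u hU.meas_e hr' hw' hz'
  have hηU : ∀ ζ : ℝ × ℝ, Box a b (ρ ζ) (u ζ) (e ζ) → 0 ≤ η ζ ∧ η ζ ≤ C * (4 * b) ∧
      |Flux γ ρ u e (fun ζ => ρ₀ ζ.2) (fun _ => 0) (fun ζ => z₀ ζ.2) ξ ζ| ≤ C * η ζ := by
    intro ζ h1
    have h2 := hbox (ξ ζ)
    obtain ⟨c1, c2, c3, -, -, -⟩ := hC _ _ _ _ _ _ h1 h2
    rw [hη]
    refine ⟨c1, c2.trans ?_, c3⟩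
    gcongr
    obtain ⟨a1, a2, a3, a4, a5⟩ := h1
    obtain ⟨b1, b2, b3, b4, b5⟩ := h2
    have e1 : |ρ ζ - ρ₀ (ξ ζ)| ≤ b := by rw [abs_le]; constructor <;> linarith
    have e2 : |u ζ - 0| ≤ 2 * b := by rw [sub_zero]; linarith
    have e3 : |e ζ - z₀ (ξ ζ)| ≤ b := by rw [abs_le]; constructor <;> linarith
    linarith
  have hcone := cone (R := R) (B := C * (4 * b)) hT hC0.le (C' := |(0 : ℝ)| * C) (by positivity) hR hηm hQm
    (by filter_upwards [hU.box] with ζ h1 hζ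
        exact hηU ζ (h1 hζ))
    (fun φ hφ hφ0 => by
      have := relative hγ hT ha hV hU hΦ hΦb hξ (fun ρ u e r w z h1 h2 => by
        obtain ⟨-, -, -, c4, c5, -⟩ := hC _ _ _ _ _ _ h1 h2
        exact ⟨c4, c5⟩) hφ hφ0
      rw [hηE] at this
      exact this)
  -- the map `ξ` at time `0`
  have hU₀ : IsDatum a b ρ₀ u₀ z₀ := ⟨hm, hu₀m, hz₀m, Eventually.of_forall fun x =>
    ⟨(hbox x).1, (hbox x).2.1, (hu₀ x).trans hεb, (hbox x).2.2.2.1, (hbox x).2.2.2.2⟩⟩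
  have hξ0 : ∀ x, ξ (0, x) = x := by
    intro x
    have h1 := pot_zero hγ hT ha hU hU₀ hatt hΦ x
    have h2 := pot_zero hγ hT ha hV.sol hV.datum hV.attains hΦb x
    have h3 : Φb (0, ξ (0, x)) = Φb (0, x) := by
      rw [h2, ← h1]
      exact hξ.eq (0, x)
    rcases le_total x (ξ (0, x)) with h | h
    · have h4 := hΦb.lo 0 _ _ h
      rw [h3, sub_self] at h4
      nlinarith
    · have h4 := hΦb.lo 0 _ _ h
      rw [h3, sub_self] at h4
      nlinarith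
  have hξs : ∀ s : ℝ, 0 < s → ∀ x, |ξ (s, x) - x| ≤ Kξ * s := by
    intro s hs x
    have g5 := hKξ.dist_le_mul (s, x) (0, x)
    rw [Real.dist_eq, Prod.dist_eq] at g5
    simp only [dist_self, Real.dist_eq, sub_zero, abs_of_pos hs] at g5
    rw [max_eq_left hs.le, hξ0 x] at g5
    exact g5
  have hslope : ∀ s x y : ℝ, x ≤ y → a / b * (y - x) ≤ ξ (s, y) - ξ (s, x) :=
    fun s x y hxy => (hξ.slope ha hΦ hΦb s x y hxy).1
  have hdat_xi : ∀ s : ℝ, IsDatum a b (fun x => ρ₀ (ξ (s, x))) u₀ (fun x => z₀ (ξ (s, x))) := by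
    intro s
    have h1 : Measurable (fun x : ℝ => ξ (s, x)) :=
      hKξ.continuous.measurable.comp measurable_prodMk_left
    exact ⟨hm.comp h1, hu₀m, hz₀m.comp h1, Eventually.of_forall fun x =>
      ⟨(hbox _).1, (hbox _).2.1, (hu₀ x).trans hεb, (hbox _).2.2.2.1, (hbox _).2.2.2.2⟩⟩
  -- smallness for small times
  have hsmall : ∀ κ : ℝ, 0 < κ → ∃ τ : ℝ, 0 < τ ∧ τ < T ∧ ∀ᵐ s : ℝ, s ∈ Ioo 0 τ →
      dist1 R₁ (sl ρ s) (sl u s) (sl e s) (fun x => ρ₀ (ξ (s, x))) u₀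
        (fun x => z₀ (ξ (s, x))) < κ := by
    intro κ hκ
    have hA : 0 < a / b := by positivity
    have hρB : ∀ y, |ρ₀ y| ≤ b := fun y => by
      rw [abs_of_nonneg (ha.le.trans (hbox y).1)]; exact (hbox y).2.1
    have hzB : ∀ y, |z₀ y| ≤ b := fun y => by
      rw [abs_of_nonneg (ha.le.trans (hbox y).2.2.2.1)]; exact (hbox y).2.2.2.2
    obtain ⟨δ₁, hδ₁, h1⟩ := exists_comp (R := R₁) (M := R₁ + 1) hm hρB hA
      (show 0 < κ / 3 by positivity)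
    obtain ⟨δ₂, hδ₂, h2⟩ := exists_comp (R := R₁) (M := R₁ + 1) hz₀m hzB hA
      (show 0 < κ / 3 by positivity)
    obtain ⟨τ, hτ, hτT, h3⟩ := hatt R₁ (κ / 3) hR₁0 (by positivity)
    have hK0 : (0 : ℝ) ≤ Kξ := Kξ.2
    obtain ⟨σ, hσ⟩ : ∃ σ : ℝ, σ = min (min δ₁ δ₂) 1 / ((Kξ : ℝ) + 1) := ⟨_, rfl⟩
    have hσ0 : 0 < σ := by rw [hσ]; positivity
    refine ⟨min τ σ, lt_min hτ hσ0, (min_le_left _ _).trans_lt hτT, ?_⟩
    filter_upwards [h3, hU.datum] with s h3 h4 hs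
    have hsT : s ∈ Ioo 0 T := ⟨hs.1, hs.2.trans_le ((min_le_left _ _).trans hτT.le)⟩
    have h3 := h3 ⟨hs.1, hs.2.trans_le (min_le_left _ _)⟩
    have h4 := h4 hsT
    have h5 : Kξ * s ≤ min (min δ₁ δ₂) 1 := by
      have h6 : s ≤ σ := (hs.2.trans_le (min_le_right _ _)).le
      calc (Kξ : ℝ) * s ≤ ((Kξ : ℝ) + 1) * σ := by
            have := hs.1.le
            gcongr
            linarith
        _ = _ := by rw [hσ]; field_simp
    have h7 : ∀ x, |x - ξ (s, x)| ≤ min (min δ₁ δ₂) 1 := fun x => by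
      rw [abs_sub_comm]
      exact (hξs s hs.1 x).trans h5
    have hid : ∀ x y : ℝ, x ≤ y → a / b * (y - x) ≤ (fun x : ℝ => x) y - (fun x : ℝ => x) x := by
      intro x y hxy
      have h8 : a / b ≤ 1 := by rw [div_le_one hb]; exact hab
      have h9 : 0 ≤ y - x := sub_nonneg.2 hxy
      show a / b * (y - x) ≤ y - x
      nlinarith
    have hidM : ∀ x ∈ Ioo (-R₁) R₁, |(fun x : ℝ => x) x| ≤ R₁ + 1 := by
      intro x hx
      show |x| ≤ R₁ + 1
      rw [abs_le]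
      constructor <;> linarith [hx.1, hx.2]
    have hξM : ∀ x ∈ Ioo (-R₁) R₁, |(fun x : ℝ => ξ (s, x)) x| ≤ R₁ + 1 := by
      intro x hx
      show |ξ (s, x)| ≤ R₁ + 1
      have h8 := (h7 x).trans (min_le_right _ _)
      rw [abs_le] at h8 ⊢
      constructor <;> linarith [hx.1, hx.2, h8.1, h8.2]
    have g1 := h1 (fun x => x) (fun x => ξ (s, x)) hid (hslope s) hidM hξM
      (fun x _ => (h7 x).trans ((min_le_left _ _).trans (min_le_left _ _)))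
    have g2 := h2 (fun x => x) (fun x => ξ (s, x)) hid (hslope s) hidM hξM
      (fun x _ => (h7 x).trans ((min_le_left _ _).trans (min_le_right _ _)))
    have g3 := dist1_triangle (R := R₁) h4 hU₀ (hdat_xi s)
    have g4 : dist1 R₁ ρ₀ u₀ z₀ (fun x => ρ₀ (ξ (s, x))) u₀ (fun x => z₀ (ξ (s, x))) =
        (∫ x in Ioo (-R₁) R₁, |ρ₀ x - ρ₀ (ξ (s, x))|) +
          ∫ x in Ioo (-R₁) R₁, |z₀ x - z₀ (ξ (s, x))| := by
      unfold dist1
      have hmx : Measurable (fun x : ℝ => ξ (s, x)) :=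
        hKξ.continuous.measurable.comp measurable_prodMk_left
      rw [← integral_add]
      · congr 1
        funext x
        rw [sub_self, abs_zero, add_zero]
      · apply integrableOn_Ioo_of_ae (M := 2 * b)
        · exact (hm.sub (hm.comp hmx)).abs
        · refine Eventually.of_forall fun x => ?_
          rw [abs_abs]
          have := abs_sub (ρ₀ x) (ρ₀ (ξ (s, x)))
          linarith [hρB x, hρB (ξ (s, x))]
      · apply integrableOn_Ioo_of_ae (M := 2 * b)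
        · exact (hz₀m.sub (hz₀m.comp hmx)).abs
        · refine Eventually.of_forall fun x => ?_
          rw [abs_abs]
          have := abs_sub (z₀ x) (z₀ (ξ (s, x)))
          linarith [hzB x, hzB (ξ (s, x))]
    rw [g4] at g3
    linarith
  -- integrability on slices
  have hUbox_slice := ae_slice hU.box
  have hintη : ∀ {t' R' : ℝ}, (∀ᵐ x : ℝ, Box a b (ρ (t', x)) (u (t', x)) (e (t', x))) →
      IntegrableOn (fun x => η (t', x)) (Ioo (-R') R') := by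
    intro t' R' h2
    apply integrableOn_Ioo_of_ae (M := C * (4 * b)) (hηm.comp measurable_prodMk_left)
    filter_upwards [h2] with x h2
    obtain ⟨c1, c2, -⟩ := hηU (t', x) h2
    show |η (t', x)| ≤ _
    rw [abs_of_nonneg c1]
    exact c2
  filter_upwards [hcone, hUbox_slice, hU.datum] with t ht1 ht3 ht4 htT
  have ht1 := ht1 htT
  have ht3 := ht3 htT
  have ht4 := ht4 htT
  -- the energy at time `t`
  have hEt : ∫ x in Ioo (-R) R, η (t, x) ≤ b * R₁ * ε ^ 2 := by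
    apply le_of_forall_pos_le_add
    intro κ hκ
    obtain ⟨τ, hτ0, hτT, hτ⟩ := hsmall (κ / (b ^ 2 + C)) (by positivity)
    obtain ⟨s, hs, hs1, hs2, hs3, hs4⟩ := ae_exists_small (τ := min t τ) (lt_min htT.1 hτ0)
      (P := fun s => (∫ x in Ioo (-R) R, η (t, x) ≤
          Real.exp (|(0 : ℝ)| * C * T) * ∫ x in Ioo (-R₁) R₁, η (s, x)) ∧
        dist1 R₁ (sl ρ s) (sl u s) (sl e s) (fun x => ρ₀ (ξ (s, x))) u₀
          (fun x => z₀ (ξ (s, x))) < κ / (b ^ 2 + C) ∧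
        (∀ᵐ x : ℝ, Box a b (ρ (s, x)) (u (s, x)) (e (s, x))) ∧
        IsDatum a b (sl ρ s) (sl u s) (sl e s)) (by
        filter_upwards [ht1, hτ, hUbox_slice, hU.datum] with s h1 h2 h3 h4 hs
        have hsT : s ∈ Ioo 0 T :=
          ⟨hs.1, hs.2.trans_le ((min_le_left _ _).trans htT.2.le)⟩
        have h1 := h1 ⟨hs.1, hs.2.trans_le (min_le_left _ _)⟩
        rw [← hR₁] at h1
        exact ⟨h1, h2 ⟨hs.1, hs.2.trans_le (min_le_right _ _)⟩, h3 hsT, h4 hsT⟩)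
    rw [abs_zero, zero_mul, zero_mul, Real.exp_zero, one_mul] at hs1
    refine hs1.trans ?_
    have hint := integrableOn_dist (R := R₁) hs4 (hdat_xi s)
    calc ∫ x in Ioo (-R₁) R₁, η (s, x)
        ≤ ∫ x in Ioo (-R₁) R₁, (b / 2 * ε ^ 2 + (b ^ 2 + C) * (|sl ρ s x - ρ₀ (ξ (s, x))| +
            |sl u s x - u₀ x| + |sl e s x - z₀ (ξ (s, x))|)) := by
          apply integral_mono_ae (hintη hs3)
            ((integrableOn_const (by simp)).add (hint.const_mul _))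
          apply ae_restrict_of_ae
          filter_upwards [hs3] with x h1
          rw [hη]
          have h2 : Box a b (ρ (s, x)) 0 (e (s, x)) :=
            ⟨h1.1, h1.2.1, by rw [abs_zero]; exact hb.le, h1.2.2.2.1, h1.2.2.2.2⟩
          exact eta_rest (hC _ _ _ _ _ _ h2 (hB s x)).2.1 hC0.le h1 ha hεb (hu₀ x)
      _ = b * R₁ * ε ^ 2 + (b ^ 2 + C) * dist1 R₁ (sl ρ s) (sl u s) (sl e s)
            (fun x => ρ₀ (ξ (s, x))) u₀ (fun x => z₀ (ξ (s, x))) := by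
          have hi1 : Integrable (fun _ : ℝ => b / 2 * ε ^ 2) (volume.restrict (Ioo (-R₁) R₁)) :=
            integrableOn_const (by simp)
          rw [integral_add hi1 (hint.const_mul _), integral_const_Ioo (by linarith),
            integral_const_mul]
          unfold dist1
          ring
      _ ≤ b * R₁ * ε ^ 2 + (b ^ 2 + C) * (κ / (b ^ 2 + C)) := by gcongr
      _ = b * R₁ * ε ^ 2 + κ := by
          rw [mul_div_cancel₀]
          positivity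
  calc ∫ x in Ioo (-R) R, (u (t, x) ^ 2 + (pr γ (ρ (t, x)) (e (t, x)) - p) ^ 2)
      ≤ ∫ x in Ioo (-R) R, (1 + 2 * ((γ - 1) * b) ^ 2) * C * η (t, x) := by
        have hmpr : Measurable (fun x => pr γ (ρ (t, x)) (e (t, x))) :=
          (measurable_pr (γ := γ) hU.meas_ρ hU.meas_e).comp measurable_prodMk_left
        have hmu : Measurable (fun x => u (t, x)) := hU.meas_u.comp measurable_prodMk_left
        have hkey : ∀ᵐ x : ℝ, u (t, x) ^ 2 + (pr γ (ρ (t, x)) (e (t, x)) - p) ^ 2 ≤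
            (1 + 2 * ((γ - 1) * b) ^ 2) * C * η (t, x) := by
          filter_upwards [ht3] with x h1
          have h2 := hB t x
          obtain ⟨c1, -, -, -, -, c6⟩ := hC _ _ _ _ _ _ h1 h2
          have h3 := hpr (ξ (t, x))
          have hη' : η (t, x) = eta γ (ρ (t, x)) (u (t, x)) (e (t, x)) (ρ₀ (ξ (t, x))) 0
            (z₀ (ξ (t, x))) := by rw [hη]
          rw [← hη'] at c1 c6
          rw [sub_zero] at c6
          obtain ⟨a1, a2, a3, a4, a5⟩ := h1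
          obtain ⟨b1, b2, b3, b4, b5⟩ := h2
          have h4 : pr γ (ρ (t, x)) (e (t, x)) - p = (γ - 1) * ((ρ (t, x) - ρ₀ (ξ (t, x))) *
              e (t, x) + ρ₀ (ξ (t, x)) * (e (t, x) - z₀ (ξ (t, x)))) := by
            rw [← h3]; unfold pr; ring
          have h5 : |(ρ (t, x) - ρ₀ (ξ (t, x))) *
              e (t, x) + ρ₀ (ξ (t, x)) * (e (t, x) - z₀ (ξ (t, x)))| ≤
              b * (|ρ (t, x) - ρ₀ (ξ (t, x))| + |e (t, x) - z₀ (ξ (t, x))|) := by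
            refine (abs_add_le _ _).trans ?_
            rw [abs_mul, abs_mul, abs_of_nonneg (ha.le.trans a4), abs_of_nonneg (ha.le.trans b1)]
            have i1 := abs_nonneg (ρ (t, x) - ρ₀ (ξ (t, x)))
            have i2 := abs_nonneg (e (t, x) - z₀ (ξ (t, x)))
            nlinarith
          have h6 : (pr γ (ρ (t, x)) (e (t, x)) - p) ^ 2 ≤ 2 * ((γ - 1) * b) ^ 2 *
              ((ρ (t, x) - ρ₀ (ξ (t, x))) ^ 2 + (e (t, x) - z₀ (ξ (t, x))) ^ 2) := by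
            rw [h4, mul_pow, ← sq_abs ((ρ (t, x) - ρ₀ (ξ (t, x))) *
              e (t, x) + ρ₀ (ξ (t, x)) * (e (t, x) - z₀ (ξ (t, x))))]
            have i1 := abs_nonneg ((ρ (t, x) - ρ₀ (ξ (t, x))) *
              e (t, x) + ρ₀ (ξ (t, x)) * (e (t, x) - z₀ (ξ (t, x))))
            have i3 := pow_le_pow_left₀ i1 h5 2
            have i4 : (b * (|ρ (t, x) - ρ₀ (ξ (t, x))| + |e (t, x) - z₀ (ξ (t, x))|)) ^ 2 ≤
                2 * b ^ 2 * ((ρ (t, x) - ρ₀ (ξ (t, x))) ^ 2 + (e (t, x) - z₀ (ξ (t, x))) ^ 2) := by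
              rw [mul_pow, ← sq_abs (ρ (t, x) - ρ₀ (ξ (t, x))),
                ← sq_abs (e (t, x) - z₀ (ξ (t, x)))]
              have i5 : (|ρ (t, x) - ρ₀ (ξ (t, x))| + |e (t, x) - z₀ (ξ (t, x))|) ^ 2 ≤
                  2 * (|ρ (t, x) - ρ₀ (ξ (t, x))| ^ 2 + |e (t, x) - z₀ (ξ (t, x))| ^ 2) := by
                nlinarith [sq_nonneg (|ρ (t, x) - ρ₀ (ξ (t, x))| - |e (t, x) - z₀ (ξ (t, x))|)]
              have i6 : 0 ≤ b ^ 2 := by positivity
              nlinarith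
            have i7 : 0 ≤ (γ - 1) ^ 2 := by positivity
            calc (γ - 1) ^ 2 * _ ≤ (γ - 1) ^ 2 * _ :=
                  mul_le_mul_of_nonneg_left (i3.trans i4) i7
              _ = _ := by ring
          have h7 : (ρ (t, x) - ρ₀ (ξ (t, x))) ^ 2 + (e (t, x) - z₀ (ξ (t, x))) ^ 2 ≤
              C * η (t, x) := by
            have := sq_nonneg (u (t, x))
            linarith
          have h8 : u (t, x) ^ 2 ≤ C * η (t, x) := by
            have i1 := sq_nonneg (ρ (t, x) - ρ₀ (ξ (t, x)))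
            have i2 := sq_nonneg (e (t, x) - z₀ (ξ (t, x)))
            linarith
          have h9 : 0 ≤ 2 * ((γ - 1) * b) ^ 2 := by positivity
          have h10 := mul_le_mul_of_nonneg_left h7 h9
          linarith
        apply integral_mono_of_nonneg
        · exact Eventually.of_forall fun x => by positivity
        · exact (hintη ht3).const_mul _
        · exact ae_restrict_of_ae hkey
    _ = (1 + 2 * ((γ - 1) * b) ^ 2) * C * ∫ x in Ioo (-R) R, η (t, x) := by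
        rw [integral_const_mul]
    _ ≤ (1 + 2 * ((γ - 1) * b) ^ 2) * C * (b * R₁ * ε ^ 2) := by gcongr
    _ = _ := by ring

end Helper51.TH
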