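import Pool.Agent.Helper51.TH.NDefs

/-!
TH-N02. Lower bound for the sums `SA` by the numbers `wE`.

PROOF. `wE j a ≥ 0` and `wE j a = 0` for `j < a` (inductions on `j`; in `wE (j+1) a = (a+1) wE j (a+1) + a wE j (a-1)`
for `a = 0` the second term is `0`, for `a ≥ 1` note `j + 1 < a` gives `j < a - 1`).
Induction on `l`. Write `n = l.length + 1` and
`X n a = ∑_{j ≤ 2 m - a} C(n, j) α^(n - j) β^j wE j a` (for `a ≤ m`).
* `l = []`, `n = 1`: only `j = 0` (`α` if `a = 0`, else `0`) and `j = 1` (`β wE 1 a`, `wE 1 a = 1` if `a = 1`, else `0`;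
  present only if `1 ≤ 2 m - a`) can be nonzero, all other terms vanish (`C(1, j) = 0`). `SA = |rN|^a`: for `a = 0`
  use `α ≤ 1`, for `a = 1` use `β ≤ |rN|`, for `a ≥ 2` the left side is `0`.
* `p :: l`: `SA (p :: l) a = ∑_{b ≤ m} |Q p.1 a b| SA l b`, all terms are nonnegative (`SA ≥ 0`), keep `b = a`, `b = a + 1`
  (if `a + 1 ≤ m`) and `b = a - 1` (if `a ≥ 1`):
  `SA (p :: l) a ≥ α SA l a + [a+1 ≤ m] (a+1) β SA l (a+1) + [a ≥ 1] a β SA l (a-1)`
  `≥ α X n a + β ([a+1 ≤ m] (a+1) X n (a+1) + [a ≥ 1] a X n (a-1))`. The sums in `X n (a+1)` (`j ≤ 2m - a - 1`) and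
  `X n (a-1)` (`j ≤ 2 m - a + 1`) contain the range `j ≤ 2 m - a - 1` (all terms nonnegative; for `a = m` the missing
  terms `wE j (m+1)`, `j ≤ m - 1`, are `0`), so the bracket is
  `≥ ∑_{j ≤ 2m-a-1} C(n, j) α^(n-j) β^j wE (j+1) a`, and
  `α C(n, j) α^(n-j) β^j + β C(n, j-1) α^(n-j+1) β^(j-1)`, summed over `j ≤ 2 m - a`, is
  `(C(n, j) + C(n, j-1)) α^(n+1-j) β^j = C(n+1, j) α^(n+1-j) β^j` (Pascal; `C(n, j) = 0` if `j > n`, so that the natural
  subtraction in the exponent does no harm). (If `2 m - a = 0`, that is `a = m = 0`, only `j = 0` occurs.)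
-/

namespace Helper51.TH

theorem wE_nonneg (j a : ℕ) : 0 ≤ wE j a := by
  induction j generalizing a with
  | zero =>
    simp only [wE]
    split_ifs <;> norm_num
  | succ j ih =>
    simp only [wE]
    have h1 := ih (a + 1)
    have h2 := ih (a - 1)
    positivity

theorem wE_eq_zero {j a : ℕ} (h : j < a) : wE j a = 0 := by
  induction j generalizing a with
  | zero =>
    simp only [wE]
    rw [if_neg (by omega)]
  | succ j ih =>
    simp only [wE]
    rw [ih (by omega : j < a + 1), ih (by omega : j < a - 1)]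
    ring

theorem SA_nonneg (rN : ℝ) (m : ℕ) (l : List (ℝ × ℝ)) (a : ℕ) : 0 ≤ SA rN m l a := by
  induction l generalizing a with
  | nil =>
    simp only [SA]
    positivity
  | cons p l ih =>
    simp only [SA]
    exact Finset.sum_nonneg fun b _ => mul_nonneg (abs_nonneg _) (ih b)

private lemma SA_cons_lower {m : ℕ} {α β rN : ℝ} {p : ℝ × ℝ} {l : List (ℝ × ℝ)}
    (hp : ∀ a ≤ m, α ≤ |Q p.1 a a| ∧
      ((a : ℝ) + 1) * β ≤ |Q p.1 a (a + 1)| ∧ ((a : ℝ) + 1) * β ≤ |Q p.1 (a + 1) a|)
    {a : ℕ} (ha : a ≤ m) :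
    α * SA rN m l a + (if a + 1 ≤ m then ((a : ℝ) + 1) * β * SA rN m l (a + 1) else 0) +
      (if 1 ≤ a then (a : ℝ) * β * SA rN m l (a - 1) else 0) ≤ SA rN m (p :: l) a := by
  have key : ∀ b ∈ Finset.range (m + 1),
      (if b = a then α * SA rN m l a else 0) +
      (if b = a + 1 then ((a : ℝ) + 1) * β * SA rN m l (a + 1) else 0) +
      (if b + 1 = a then (a : ℝ) * β * SA rN m l (a - 1) else 0) ≤
        |Q p.1 a b| * SA rN m l b := by
    intro b hb
    have hb' : b ≤ m := by
      have := Finset.mem_range.1 hb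
      omega
    by_cases h1 : b = a
    · subst h1
      rw [if_pos rfl, if_neg (by omega), if_neg (by omega)]
      have := mul_le_mul_of_nonneg_right (hp b hb').1 (SA_nonneg rN m l b)
      linarith
    · by_cases h2 : b = a + 1
      · subst h2
        rw [if_neg (by omega), if_pos rfl, if_neg (by omega)]
        have := mul_le_mul_of_nonneg_right (hp a ha).2.1 (SA_nonneg rN m l (a + 1))
        linarith
      · by_cases h3 : b + 1 = a
        · subst h3
          rw [if_neg (by omega), if_neg (by omega), if_pos rfl]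
          have := mul_le_mul_of_nonneg_right (hp b hb').2.2 (SA_nonneg rN m l b)
          simp only [Nat.add_sub_cancel]
          push_cast
          linarith
        · rw [if_neg h1, if_neg h2, if_neg h3]
          have := mul_nonneg (abs_nonneg (Q p.1 a b)) (SA_nonneg rN m l b)
          linarith
  have hsum := Finset.sum_le_sum key
  rw [Finset.sum_add_distrib, Finset.sum_add_distrib] at hsum
  have s1 : ∑ b ∈ Finset.range (m + 1), (if b = a then α * SA rN m l a else 0) =
      α * SA rN m l a := by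
    rw [Finset.sum_ite_eq' (Finset.range (m + 1)) a, if_pos (Finset.mem_range.2 (by omega))]
  have s2 : ∑ b ∈ Finset.range (m + 1),
      (if b = a + 1 then ((a : ℝ) + 1) * β * SA rN m l (a + 1) else 0) =
      if a + 1 ≤ m then ((a : ℝ) + 1) * β * SA rN m l (a + 1) else 0 := by
    rw [Finset.sum_ite_eq' (Finset.range (m + 1)) (a + 1)]
    by_cases h : a + 1 ≤ m
    · rw [if_pos h, if_pos (Finset.mem_range.2 (by omega))]
    · rw [if_neg h, if_neg (by rw [Finset.mem_range]; omega)]
  have s3 : ∑ b ∈ Finset.range (m + 1),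
      (if b + 1 = a then (a : ℝ) * β * SA rN m l (a - 1) else 0) =
      if 1 ≤ a then (a : ℝ) * β * SA rN m l (a - 1) else 0 := by
    by_cases h : 1 ≤ a
    · rw [if_pos h]
      rw [Finset.sum_eq_single (a - 1)]
      · rw [if_pos (by omega)]
      · intro b _ hb
        rw [if_neg (by omega)]
      · intro hb
        exfalso
        exact hb (Finset.mem_range.2 (by omega))
    · rw [if_neg h]
      exact Finset.sum_eq_zero fun b _ => by rw [if_neg (by omega)]
  rw [s1, s2, s3] at hsum
  simpa only [SA] using hsum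

theorem SA_lower {m : ℕ} {α β rN : ℝ} (hα : 0 ≤ α) (hβ : 0 ≤ β) (hα1 : α ≤ 1) (hβ1 : β ≤ |rN|)
    (l : List (ℝ × ℝ)) (hl : ∀ p ∈ l, ∀ a ≤ m, α ≤ |Q p.1 a a| ∧
      ((a : ℝ) + 1) * β ≤ |Q p.1 a (a + 1)| ∧ ((a : ℝ) + 1) * β ≤ |Q p.1 (a + 1) a|)
    {a : ℕ} (ha : a ≤ m) :
    ∑ j ∈ Finset.range (2 * m - a + 1), ((l.length + 1).choose j : ℝ) *
      α ^ (l.length + 1 - j) * β ^ j * wE j a ≤ SA rN m l a := by
  induction l generalizing a with
  | nil =>
    have hnn : ∀ j, 0 ≤ ((([] : List (ℝ × ℝ)).length + 1).choose j : ℝ) *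
      α ^ (([] : List (ℝ × ℝ)).length + 1 - j) * β ^ j * wE j a := fun j => by
      have := wE_nonneg j a
      positivity
    have h1 : ∑ j ∈ Finset.range (2 * m - a + 1), ((([] : List (ℝ × ℝ)).length + 1).choose j : ℝ) *
        α ^ (([] : List (ℝ × ℝ)).length + 1 - j) * β ^ j * wE j a ≤
        ∑ j ∈ Finset.range (2 * m - a + 2), ((([] : List (ℝ × ℝ)).length + 1).choose j : ℝ) *
        α ^ (([] : List (ℝ × ℝ)).length + 1 - j) * β ^ j * wE j a := by
      apply Finset.sum_le_sum_of_subset_of_nonneg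
      · exact Finset.range_mono (by omega)
      · intro j _ _
        exact hnn j
    refine h1.trans ?_
    rw [Finset.sum_range_succ', Finset.sum_range_succ']
    have h2 : ∑ k ∈ Finset.range (2 * m - a), ((([] : List (ℝ × ℝ)).length + 1).choose (k + 1 + 1) : ℝ) *
        α ^ (([] : List (ℝ × ℝ)).length + 1 - (k + 1 + 1)) * β ^ (k + 1 + 1) * wE (k + 1 + 1) a = 0 := by
      apply Finset.sum_eq_zero
      intro k _
      have : (([] : List (ℝ × ℝ)).length + 1).choose (k + 1 + 1) = 0 := by
        apply Nat.choose_eq_zero_of_lt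
        simp
      rw [this]
      simp
    rw [h2]
    simp only [SA]
    rcases a with _ | _ | a
    · simp [wE]
      exact hα1
    · simp [wE]
      exact hβ1
    · simp [wE]
  | cons p l ih =>
    have hp := hl p (by simp)
    have ih' := fun {a : ℕ} (ha : a ≤ m) =>
      ih (fun q hq => hl q (List.mem_cons_of_mem _ hq)) (a := a) ha
    refine le_trans ?_ (SA_cons_lower (rN := rN) (l := l) hp ha)
    simp only [List.length_cons]
    set n := l.length + 1 with hn
    have hterm : ∀ j b, 0 ≤ (n.choose j : ℝ) * α ^ (n - j) * β ^ j * wE j b := fun j b => by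
      have := wE_nonneg j b
      positivity
    -- the part with `a + 1`
    have p1 : ((a : ℝ) + 1) * β * ∑ j ∈ Finset.range (2 * m - a),
        (n.choose j : ℝ) * α ^ (n - j) * β ^ j * wE j (a + 1) ≤
        if a + 1 ≤ m then ((a : ℝ) + 1) * β * SA rN m l (a + 1) else 0 := by
      by_cases h : a + 1 ≤ m
      · rw [if_pos h]
        have h1 := ih' h
        have h2 : 2 * m - (a + 1) + 1 = 2 * m - a := by omega
        rw [h2] at h1
        exact mul_le_mul_of_nonneg_left h1 (by positivity)
      · rw [if_neg h]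
        have : ∑ j ∈ Finset.range (2 * m - a),
            (n.choose j : ℝ) * α ^ (n - j) * β ^ j * wE j (a + 1) = 0 := by
          apply Finset.sum_eq_zero
          intro j hj
          have := Finset.mem_range.1 hj
          rw [wE_eq_zero (by omega : j < a + 1)]
          ring
        rw [this]
        simp
    have p2 : (a : ℝ) * β * ∑ j ∈ Finset.range (2 * m - a),
        (n.choose j : ℝ) * α ^ (n - j) * β ^ j * wE j (a - 1) ≤
        if 1 ≤ a then (a : ℝ) * β * SA rN m l (a - 1) else 0 := by
      by_cases h : 1 ≤ a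
      · rw [if_pos h]
        have h1 := ih' (a := a - 1) (by omega)
        refine mul_le_mul_of_nonneg_left (le_trans ?_ h1) (by positivity)
        apply Finset.sum_le_sum_of_subset_of_nonneg
        · exact Finset.range_mono (by omega)
        · intro j _ _
          exact hterm j (a - 1)
      · rw [if_neg h]
        have : a = 0 := by omega
        subst this
        simp
    have p3 : α * ∑ j ∈ Finset.range (2 * m - a + 1),
        (n.choose j : ℝ) * α ^ (n - j) * β ^ j * wE j a ≤ α * SA rN m l a :=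
      mul_le_mul_of_nonneg_left (ih' ha) hα
    have e : ∑ j ∈ Finset.range (2 * m - a + 1), ((n + 1).choose j : ℝ) *
        α ^ (n + 1 - j) * β ^ j * wE j a =
        α * ∑ j ∈ Finset.range (2 * m - a + 1),
          (n.choose j : ℝ) * α ^ (n - j) * β ^ j * wE j a +
        (((a : ℝ) + 1) * β * ∑ j ∈ Finset.range (2 * m - a),
          (n.choose j : ℝ) * α ^ (n - j) * β ^ j * wE j (a + 1) +
        (a : ℝ) * β * ∑ j ∈ Finset.range (2 * m - a),
          (n.choose j : ℝ) * α ^ (n - j) * β ^ j * wE j (a - 1)) := by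
      have hS : ∑ j ∈ Finset.range (2 * m - a), ((n + 1).choose (j + 1) : ℝ) *
          α ^ (n + 1 - (j + 1)) * β ^ (j + 1) * wE (j + 1) a =
          α * ∑ j ∈ Finset.range (2 * m - a),
            (n.choose (j + 1) : ℝ) * α ^ (n - (j + 1)) * β ^ (j + 1) * wE (j + 1) a +
          (((a : ℝ) + 1) * β * ∑ j ∈ Finset.range (2 * m - a),
            (n.choose j : ℝ) * α ^ (n - j) * β ^ j * wE j (a + 1) +
          (a : ℝ) * β * ∑ j ∈ Finset.range (2 * m - a),
            (n.choose j : ℝ) * α ^ (n - j) * β ^ j * wE j (a - 1)) := by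
        rw [Finset.mul_sum, Finset.mul_sum, Finset.mul_sum, ← Finset.sum_add_distrib,
          ← Finset.sum_add_distrib]
        apply Finset.sum_congr rfl
        intro j _
        have hw : wE (j + 1) a = ((a : ℝ) + 1) * wE j (a + 1) + (a : ℝ) * wE j (a - 1) := by
          simp only [wE]
        have hc : ((n + 1).choose (j + 1) : ℝ) = (n.choose j : ℝ) + (n.choose (j + 1) : ℝ) := by
          rw [Nat.choose_succ_succ]
          push_cast
          ring
        have hpow : (n.choose (j + 1) : ℝ) * α ^ (n - j) =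
            α * ((n.choose (j + 1) : ℝ) * α ^ (n - (j + 1))) := by
          by_cases hj : j + 1 ≤ n
          · have : n - j = (n - (j + 1)) + 1 := by omega
            rw [this, pow_succ]
            ring
          · rw [Nat.choose_eq_zero_of_lt (by omega : n < j + 1)]
            simp
        have hsub : n + 1 - (j + 1) = n - j := by omega
        rw [hsub, hc]
        calc ((n.choose j : ℝ) + (n.choose (j + 1) : ℝ)) * α ^ (n - j) * β ^ (j + 1) * wE (j + 1) a
            = ((n.choose (j + 1) : ℝ) * α ^ (n - j)) * β ^ (j + 1) * wE (j + 1) a +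
              (n.choose j : ℝ) * α ^ (n - j) * β ^ (j + 1) * wE (j + 1) a := by ring
          _ = α * ((n.choose (j + 1) : ℝ) * α ^ (n - (j + 1)) * β ^ (j + 1) * wE (j + 1) a) +
              (((a : ℝ) + 1) * β * ((n.choose j : ℝ) * α ^ (n - j) * β ^ j * wE j (a + 1)) +
              (a : ℝ) * β * ((n.choose j : ℝ) * α ^ (n - j) * β ^ j * wE j (a - 1))) := by
              rw [hpow, hw]
              ring
      have h0 : ((n + 1).choose 0 : ℝ) * α ^ (n + 1 - 0) * β ^ 0 * wE 0 a =
          α * ((n.choose 0 : ℝ) * α ^ (n - 0) * β ^ 0 * wE 0 a) := by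
        simp only [Nat.choose_zero_right, Nat.sub_zero, pow_zero, Nat.cast_one]
        rw [pow_succ]
        ring
      rw [Finset.sum_range_succ', Finset.sum_range_succ', hS, h0]
      ring
    rw [e]
    linarith

end Helper51.TH
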