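import Pool.Agent.Helper51.TH.NDefs

/-!
TH-N03. The partial sums of the secant series at `π / 2` are unbounded.

PROOF. For `a : ℕ` let `u a (z : ℂ) = sin z ^ a / cos z ^ (a + 1)`. On the open set `{cos z ≠ 0}`, which contains the
ball of radius `π/2` around `0` (`Complex.cos_eq_zero_iff`: zeros `(2k+1)π/2`), `u a` is differentiable with
`(u a)' = a u (a-1) + (a+1) u (a+1)` (for `a = 0` the first term is `0`). Hence by induction on `j`, for all `a`,
`iteratedDeriv j (u a) 0 = wE j a`: for `j + 1` use `iteratedDeriv_succ'`, that `deriv (u a)` agrees near `0` with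
`a u (a-1) + (a+1) u (a+1)` (`Filter.EventuallyEq.iteratedDeriv_eq`), linearity (all `u a` are `ContDiffAt` at `0`,
`iteratedDeriv_add`, `iteratedDeriv_const_mul`), and `wE (j+1) a = (a+1) wE j (a+1) + a wE j (a-1)`; for `j = 0`,
`u a 0 = 0 ^ a`.
`u 0 = 1 / cos` is holomorphic on the ball `|z| < π/2`, so (`Complex.hasSum_taylorSeries_on_ball`) for
`0 ≤ x < π/2`: `1 / cos x = ∑ wE j 0 x^j / j!` (complex numbers, take real parts). If all partial sums at `π/2` over
`j ≤ 2 m` were `< B`, then (nonnegative terms, `x^j ≤ (π/2)^j`) `1 / cos x ≤ B` for all `0 ≤ x < π/2`, but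
`cos x → 0` as `x → π/2`. (`wE j a ≥ 0` is in `Mpow.lean` with a proof of two lines; prove it here again as a private
lemma.)
-/

open scoped Nat

namespace Helper51.TH

private theorem wE_nonneg' (j a : ℕ) : 0 ≤ wE j a := by
  induction j generalizing a with
  | zero =>
    simp only [wE]
    split_ifs <;> norm_num
  | succ j ih =>
    simp only [wE]
    have h1 := ih (a + 1)
    have h2 := ih (a - 1)
    positivity

private noncomputable def uu (a : ℕ) (z : ℂ) : ℂ := Complex.sin z ^ a / Complex.cos z ^ (a + 1)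

private lemma cos_ne {z : ℂ} (hz : z ∈ Metric.ball (0 : ℂ) (Real.pi / 2)) :
    Complex.cos z ≠ 0 := by
  intro h
  obtain ⟨k, hk⟩ := Complex.cos_eq_zero_iff.1 h
  have h1 : ‖z‖ < Real.pi / 2 := by simpa using hz
  rw [hk] at h1
  have h2 : ‖(2 * (k : ℂ) + 1) * Real.pi / 2‖ = |2 * (k : ℝ) + 1| * (Real.pi / 2) := by
    have : (2 * (k : ℂ) + 1) * Real.pi / 2 = (((2 * (k : ℝ) + 1) * (Real.pi / 2) : ℝ) : ℂ) := by
      push_cast
      ring
    rw [this, Complex.norm_real, Real.norm_eq_abs, abs_mul,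
      abs_of_pos (by positivity : 0 < Real.pi / 2)]
  rw [h2] at h1
  have h3 : (1 : ℝ) ≤ |2 * (k : ℝ) + 1| := by
    have h4 : (1 : ℤ) ≤ |2 * k + 1| := by
      exact Int.one_le_abs (by omega)
    exact_mod_cast h4
  have h5 : 0 < Real.pi / 2 := by positivity
  nlinarith

private lemma hasDerivAt_uu (a : ℕ) {z : ℂ} (hz : Complex.cos z ≠ 0) :
    HasDerivAt (uu a) ((a : ℂ) * uu (a - 1) z + ((a : ℂ) + 1) * uu (a + 1) z) z := by
  have h1 := (Complex.hasDerivAt_sin z).pow a
  have h2 := (Complex.hasDerivAt_cos z).pow (a + 1)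
  have h3 := h1.div h2 (pow_ne_zero _ hz)
  refine h3.congr_deriv ?_
  unfold uu
  simp only [Pi.pow_apply]
  rcases a with _ | a
  · simp only [Nat.cast_zero, zero_mul, zero_add, pow_zero, pow_one, zero_sub, one_mul,
      Nat.sub_self, Nat.cast_one]
    field_simp
  · simp only [Nat.add_sub_cancel]
    push_cast
    field_simp
    ring

private lemma contDiffAt_uu (a : ℕ) (n : ℕ) : ContDiffAt ℂ n (uu a) 0 := by
  unfold uu
  apply ContDiffAt.div
  · exact (Complex.contDiff_sin.pow a).contDiffAt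
  · exact (Complex.contDiff_cos.pow (a + 1)).contDiffAt
  · simp

private lemma iteratedDeriv_uu (j a : ℕ) : iteratedDeriv j (uu a) 0 = ((wE j a : ℝ) : ℂ) := by
  induction j generalizing a with
  | zero =>
    simp only [iteratedDeriv_zero, wE, uu]
    by_cases h : a = 0
    · simp [h]
    · simp [h]
  | succ j ih =>
    rw [iteratedDeriv_succ']
    have h1 : deriv (uu a) =ᶠ[nhds 0]
        fun z => (a : ℂ) * uu (a - 1) z + ((a : ℂ) + 1) * uu (a + 1) z := by
      have hb : Metric.ball (0 : ℂ) (Real.pi / 2) ∈ nhds (0 : ℂ) :=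
        Metric.ball_mem_nhds _ (by positivity)
      filter_upwards [hb] with z hz
      exact (hasDerivAt_uu a (cos_ne hz)).deriv
    rw [h1.iteratedDeriv_eq, iteratedDeriv_fun_add, iteratedDeriv_const_mul_field,
      iteratedDeriv_const_mul_field, ih, ih]
    · simp only [wE]
      push_cast
      ring
    · exact contDiffAt_const.mul (contDiffAt_uu _ _)
    · exact contDiffAt_const.mul (contDiffAt_uu _ _)

private lemma hasSum_sec {x : ℝ} (hx0 : 0 ≤ x) (hx : x < Real.pi / 2) :
    HasSum (fun n : ℕ => x ^ n / (n ! : ℝ) * wE n 0) (1 / Real.cos x) := by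
  have hd : DifferentiableOn ℂ (uu 0) (Metric.ball 0 (Real.pi / 2)) := fun z hz =>
    (hasDerivAt_uu 0 (cos_ne hz)).differentiableAt.differentiableWithinAt
  have hz : (x : ℂ) ∈ Metric.ball (0 : ℂ) (Real.pi / 2) := by
    rw [mem_ball_zero_iff, Complex.norm_real, Real.norm_eq_abs, abs_of_nonneg hx0]
    exact hx
  have h := Complex.hasSum_taylorSeries_on_ball hd hz
  have e1 : (fun n : ℕ => (((x ^ n / (n ! : ℝ) * wE n 0 : ℝ)) : ℂ)) =
      fun n : ℕ => (n ! : ℂ)⁻¹ • ((x : ℂ) - 0) ^ n • iteratedDeriv n (uu 0) 0 := by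
    funext n
    rw [iteratedDeriv_uu]
    simp only [sub_zero, smul_eq_mul]
    push_cast
    field_simp
  have e2 : ((1 / Real.cos x : ℝ) : ℂ) = uu 0 (x : ℂ) := by
    simp [uu]
  rw [← Complex.hasSum_ofReal, e1, e2]
  exact h

theorem sec_sum_unbounded (B : ℝ) : ∃ m : ℕ,
    B ≤ ∑ j ∈ Finset.range (2 * m + 1), (Real.pi / 2) ^ j / (j ! : ℝ) * wE j 0 := by
  by_contra hcon
  push Not at hcon
  have hle : ∀ x : ℝ, 0 ≤ x → x < Real.pi / 2 → 1 / Real.cos x ≤ B := by
    intro x hx0 hx
    have h := hasSum_sec hx0 hx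
    refine hasSum_le_of_sum_le h fun s => ?_
    obtain ⟨m, hm⟩ : ∃ m : ℕ, s ⊆ Finset.range (2 * m + 1) := by
      obtain ⟨m, hm⟩ := s.exists_nat_subset_range
      exact ⟨m, hm.trans (Finset.range_mono (by omega))⟩
    calc ∑ j ∈ s, x ^ j / (j ! : ℝ) * wE j 0
        ≤ ∑ j ∈ Finset.range (2 * m + 1), x ^ j / (j ! : ℝ) * wE j 0 := by
          apply Finset.sum_le_sum_of_subset_of_nonneg hm
          intro j _ _
          have := wE_nonneg' j 0
          positivity
      _ ≤ ∑ j ∈ Finset.range (2 * m + 1), (Real.pi / 2) ^ j / (j ! : ℝ) * wE j 0 := by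
          apply Finset.sum_le_sum
          intro j _
          have := wE_nonneg' j 0
          gcongr
      _ ≤ B := (hcon m).le
  have hB : 1 ≤ B := by
    have := hle 0 le_rfl (by positivity)
    simpa using this
  set δ : ℝ := 1 / (2 * B) with hδ
  have hδ0 : 0 < δ := by positivity
  have hδ1 : δ ≤ 1 := by
    rw [hδ, div_le_one (by positivity)]
    linarith
  have hpi : 1 < Real.pi / 2 := by
    have := Real.pi_gt_three
    linarith
  have h1 := hle (Real.pi / 2 - δ) (by linarith) (by linarith)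
  rw [Real.cos_pi_div_two_sub] at h1
  have hs0 : 0 < Real.sin δ := Real.sin_pos_of_pos_of_lt_pi hδ0 (by linarith [Real.pi_gt_three])
  have hs1 : Real.sin δ < δ := Real.sin_lt hδ0
  rw [div_le_iff₀ hs0] at h1
  have h2 : B * Real.sin δ < B * δ := mul_lt_mul_of_pos_left hs1 (by linarith)
  have h3 : B * δ = 1 / 2 := by
    rw [hδ]
    field_simp
  linarith

end Helper51.TH
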