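import Pool.Agent.Helper51.TH.QExp
import Pool.Agent.Helper51.TH.Mpow
import Pool.Agent.Helper51.TH.SecSum

/-!
TH-N04. The sums `SA` become arbitrarily large.

PROOF. By `sec_sum_unbounded (B + 1)` choose `m` with `B + 1 ≤ ∑_{j ≤ 2m} (π/2)^j / j! wE j 0`. Let `C` be the constant
of `Q_lower m`. For `n : ℕ` let `N = n + 1`, `r = tanh (π / (2 N))`, `α = 1 - C r^2`, `β = r - C r^2`. As `n → ∞`:
`0 < r → 0`, `N r → π/2` (`tanh x / x → 1` as `x → 0`), `N r^2 → 0`, so `α → 1`, `N β → π/2`, eventually `α, β ≥ 0`;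
for fixed `j`: `C(N, j) / N^j → 1 / j!`, `α^(N-j) → 1` (Bernoulli: `1 ≥ α^(N-j) ≥ 1 - N C r^2`), so
`C(N, j) α^(N-j) β^j = (C(N, j)/N^j) α^(N-j) (N β)^j → (π/2)^j / j!`. Also `√(1 - r^2)^N → 1`
(`1 ≥ √(1-r^2)^N ≥ (1 - r^2)^N ≥ 1 - N r^2`). So `√(1-r^2)^N ∑_{j ≤ 2m} C(N, j) α^(N-j) β^j wE j 0` tends to
`∑_{j ≤ 2 m} (π/2)^j/j! wE j 0 ≥ B + 1` and is `≥ B` for all large `n`. Take such an `n ≥ N₀` with `α, β ≥ 0`. For a list
as in the statement, `Q_lower` (for `p.1`, `|p.1| = r ≤ 1`, `p.1 ^ 2 = r ^ 2`) gives the hypotheses of `SA_lower`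
(`α ≤ 1`, `β ≤ r = |rN|`), whose conclusion for `a = 0` is the claim.
-/

open MeasureTheory Set Filter Topology
open scoped Nat

namespace Helper51.TH

private noncomputable def xx (n : ℕ) : ℝ := Real.pi / (2 * ((n : ℝ) + 1))

private noncomputable def rr (n : ℕ) : ℝ := Real.tanh (xx n)

private theorem xx_pos (n : ℕ) : 0 < xx n := by
  unfold xx
  have := Real.pi_pos
  positivity

private theorem rr_pos (n : ℕ) : 0 < rr n := by
  rw [rr, Real.tanh_eq_sinh_div_cosh]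
  exact div_pos (Real.sinh_pos_iff.2 (xx_pos n)) (Real.cosh_pos _)

private theorem rr_lt_one (n : ℕ) : rr n < 1 := by
  rw [rr, Real.tanh_eq_sinh_div_cosh, div_lt_one (Real.cosh_pos _)]
  exact Real.sinh_lt_cosh _

private theorem inv_lim : Tendsto (fun n : ℕ => 1 / ((n : ℝ) + 1)) atTop (𝓝 0) :=
  tendsto_one_div_add_atTop_nhds_zero_nat

private theorem xx_lim : Tendsto xx atTop (𝓝 0) := by
  have h := (inv_lim).const_mul (Real.pi / 2)
  rw [mul_zero] at h
  refine h.congr (fun n => ?_)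
  unfold xx
  have : (n : ℝ) + 1 ≠ 0 := by positivity
  field_simp

private theorem nr_lim : Tendsto (fun n : ℕ => ((n : ℝ) + 1) * rr n) atTop (𝓝 (Real.pi / 2)) := by
  have h1 := hasDerivAt_iff_tendsto_slope_zero.1 (Real.hasDerivAt_sinh 0)
  have h2 : Tendsto xx atTop (𝓝[≠] 0) :=
    tendsto_nhdsWithin_iff.2 ⟨xx_lim, Eventually.of_forall (fun n => (xx_pos n).ne')⟩
  have h3 := h1.comp h2
  rw [Real.cosh_zero] at h3
  have h4 : Tendsto (fun n => Real.cosh (xx n)) atTop (𝓝 1) := by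
    have := (Real.continuous_cosh.tendsto 0).comp xx_lim
    rwa [Real.cosh_zero] at this
  have h5 := (h3.div h4 one_ne_zero).const_mul (Real.pi / 2)
  rw [div_one, mul_one] at h5
  refine h5.congr (fun n => ?_)
  simp only [Function.comp_apply, zero_add, Real.sinh_zero, sub_zero, smul_eq_mul, rr,
    Pi.div_apply]
  rw [Real.tanh_eq_sinh_div_cosh]
  have hc := (Real.cosh_pos (xx n)).ne'
  have hn : (n : ℝ) + 1 ≠ 0 := by positivity
  have hx : (xx n)⁻¹ = 2 * ((n : ℝ) + 1) / Real.pi := by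
    rw [xx, inv_div]
  rw [hx]
  have := Real.pi_ne_zero
  field_simp

private theorem r_lim : Tendsto rr atTop (𝓝 0) := by
  have h := nr_lim.mul inv_lim
  rw [mul_zero] at h
  refine h.congr (fun n => ?_)
  have : (n : ℝ) + 1 ≠ 0 := by positivity
  field_simp

private theorem nr2_lim : Tendsto (fun n : ℕ => ((n : ℝ) + 1) * rr n ^ 2) atTop (𝓝 0) := by
  have h := nr_lim.mul r_lim
  rw [mul_zero] at h
  refine h.congr (fun n => ?_)
  ring

private theorem pow_lim {C : ℝ} (hC : 0 ≤ C) (j : ℕ) :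
    Tendsto (fun n : ℕ => (1 - C * rr n ^ 2) ^ (n + 1 - j)) atTop (𝓝 1) := by
  have h1 : Tendsto (fun n : ℕ => 1 - ((n : ℝ) + 1) * (C * rr n ^ 2)) atTop (𝓝 1) := by
    have h := (nr2_lim.const_mul C).const_sub 1
    rw [mul_zero, sub_zero] at h
    refine h.congr (fun n => ?_)
    ring
  have h2 : ∀ᶠ n in atTop, C * rr n ^ 2 < 1 := by
    have h := (r_lim.pow 2).const_mul C
    rw [zero_pow two_ne_zero, mul_zero] at h
    exact h.eventually (gt_mem_nhds one_pos)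
  refine tendsto_of_tendsto_of_tendsto_of_le_of_le' h1 tendsto_const_nhds ?_ ?_
  · filter_upwards [h2] with n hn
    have hc : 0 ≤ C * rr n ^ 2 := by positivity
    have h3 := one_add_mul_le_pow (show (-2 : ℝ) ≤ -(C * rr n ^ 2) by linarith) (n + 1 - j)
    rw [← sub_eq_add_neg] at h3
    refine le_trans ?_ h3
    have h4 : (((n + 1 - j : ℕ)) : ℝ) ≤ (n : ℝ) + 1 := by
      have : n + 1 - j ≤ n + 1 := Nat.sub_le _ _
      exact_mod_cast this
    nlinarith
  · filter_upwards [h2] with n hn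
    have hc : 0 ≤ C * rr n ^ 2 := by positivity
    exact pow_le_one₀ (by linarith) (by linarith)

private theorem sqrt_lim :
    Tendsto (fun n : ℕ => √(1 - rr n ^ 2) ^ (n + 1)) atTop (𝓝 1) := by
  have h1 := pow_lim (C := 1) zero_le_one 0
  simp only [one_mul, Nat.sub_zero] at h1
  refine tendsto_of_tendsto_of_tendsto_of_le_of_le h1 tendsto_const_nhds (fun n => ?_) (fun n => ?_)
  · have h2 : 0 ≤ 1 - rr n ^ 2 := by
      have := rr_pos n
      have := rr_lt_one n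
      nlinarith
    refine pow_le_pow_left₀ h2 ?_ _
    refine Real.le_sqrt_of_sq_le ?_
    have := sq_nonneg (rr n)
    nlinarith
  · refine pow_le_one₀ (Real.sqrt_nonneg _) ?_
    rw [Real.sqrt_le_one]
    have := sq_nonneg (rr n)
    linarith

private theorem choose_lim (j : ℕ) :
    Tendsto (fun n : ℕ => ((n + 1).choose j : ℝ) / ((n : ℝ) + 1) ^ j) atTop (𝓝 (1 / (j ! : ℝ))) := by
  have hf : (0 : ℝ) < (j ! : ℝ) := by exact_mod_cast Nat.factorial_pos j
  have h1 : Tendsto (fun n : ℕ => (((n : ℝ) + 1 + 1 - j) / ((n : ℝ) + 1)) ^ j / (j ! : ℝ)) atTop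
      (𝓝 (1 / (j ! : ℝ))) := by
    have h2 : Tendsto (fun n : ℕ => 1 + (1 - (j : ℝ)) * (1 / ((n : ℝ) + 1))) atTop (𝓝 1) := by
      have := (inv_lim.const_mul (1 - (j : ℝ))).const_add 1
      rwa [mul_zero, add_zero] at this
    have h3 := (h2.pow j).div_const (j ! : ℝ)
    rw [one_pow] at h3
    refine h3.congr (fun n => ?_)
    have : (n : ℝ) + 1 ≠ 0 := by positivity
    congr 2
    field_simp
    ring
  refine tendsto_of_tendsto_of_tendsto_of_le_of_le' h1 tendsto_const_nhds ?_ ?_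
  · filter_upwards [eventually_ge_atTop j] with n hn
    have h2 := Nat.pow_le_choose (α := ℝ) j (n + 1)
    have hn1 : (0 : ℝ) < (n : ℝ) + 1 := by positivity
    have h3 : (((n + 1 + 1 - j : ℕ)) : ℝ) = (n : ℝ) + 1 + 1 - j := by
      rw [Nat.cast_sub (by omega)]
      push_cast
      ring
    rw [h3] at h2
    rw [div_pow, div_right_comm]
    exact div_le_div_of_nonneg_right h2 (by positivity)
  · refine Eventually.of_forall (fun n => ?_)
    have h2 := Nat.choose_le_pow_div (α := ℝ) j (n + 1)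
    have hn1 : (0 : ℝ) < ((n : ℝ) + 1) ^ j := by positivity
    rw [div_le_iff₀ hn1]
    push_cast at h2
    calc (((n + 1).choose j : ℕ) : ℝ) ≤ ((n : ℝ) + 1) ^ j / (j ! : ℝ) := h2
      _ = 1 / (j ! : ℝ) * ((n : ℝ) + 1) ^ j := by ring

theorem SA_large (B : ℝ) (N₀ : ℕ) : ∃ m n : ℕ, N₀ ≤ n ∧
    ∀ (l : List (ℝ × ℝ)) (rN : ℝ), l.length = n →
      (∀ p ∈ l, |p.1| = Real.tanh (Real.pi / (2 * ((n : ℝ) + 1)))) →
      |rN| = Real.tanh (Real.pi / (2 * ((n : ℝ) + 1))) →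
      B ≤ √(1 - Real.tanh (Real.pi / (2 * ((n : ℝ) + 1))) ^ 2) ^ (n + 1) * SA rN m l 0 := by
  obtain ⟨m, hm⟩ := sec_sum_unbounded (B + 1)
  obtain ⟨C, hC, hQ⟩ := Q_lower m
  have hbeta : Tendsto (fun n : ℕ => ((n : ℝ) + 1) * (rr n - C * rr n ^ 2)) atTop
      (𝓝 (Real.pi / 2)) := by
    have h := nr_lim.sub (nr2_lim.const_mul C)
    rw [mul_zero, sub_zero] at h
    refine h.congr (fun n => ?_)
    ring
  have hterm : ∀ j : ℕ, Tendsto (fun n : ℕ => ((n + 1).choose j : ℝ) *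
      (1 - C * rr n ^ 2) ^ (n + 1 - j) * (rr n - C * rr n ^ 2) ^ j * wE j 0) atTop
      (𝓝 ((Real.pi / 2) ^ j / (j ! : ℝ) * wE j 0)) := by
    intro j
    have h := (((choose_lim j).mul (pow_lim hC j)).mul (hbeta.pow j)).mul_const (wE j 0)
    have e1 : 1 / (j ! : ℝ) * 1 * (Real.pi / 2) ^ j * wE j 0 =
        (Real.pi / 2) ^ j / (j ! : ℝ) * wE j 0 := by ring
    rw [e1] at h
    refine h.congr (fun n => ?_)
    have hn1 : ((n : ℝ) + 1) ^ j ≠ 0 := by positivity
    rw [mul_pow]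
    field_simp
  have hsum := tendsto_finset_sum (Finset.range (2 * m + 1)) (fun j _ => hterm j)
  have hprod := sqrt_lim.mul hsum
  rw [one_mul] at hprod
  have hev : ∀ᶠ n : ℕ in atTop, B < √(1 - rr n ^ 2) ^ (n + 1) *
      ∑ j ∈ Finset.range (2 * m + 1), ((n + 1).choose j : ℝ) *
      (1 - C * rr n ^ 2) ^ (n + 1 - j) * (rr n - C * rr n ^ 2) ^ j * wE j 0 :=
    hprod.eventually (lt_mem_nhds (by linarith))
  have hal : ∀ᶠ n in atTop, C * rr n ^ 2 < 1 := by
    have h := (r_lim.pow 2).const_mul C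
    rw [zero_pow two_ne_zero, mul_zero] at h
    exact h.eventually (gt_mem_nhds one_pos)
  have hbe : ∀ᶠ n : ℕ in atTop, 0 < ((n : ℝ) + 1) * (rr n - C * rr n ^ 2) :=
    hbeta.eventually (lt_mem_nhds (by have := Real.pi_pos; positivity))
  obtain ⟨n, hn1, hn2, hn3, hn4⟩ := (hev.and (hal.and (hbe.and (eventually_ge_atTop N₀)))).exists
  refine ⟨m, n, hn4, fun l rN hl hp hrN => ?_⟩
  have hx : Real.tanh (Real.pi / (2 * ((n : ℝ) + 1))) = rr n := rfl
  rw [hx] at hp hrN ⊢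
  have hr0 := rr_pos n
  have hr1 := rr_lt_one n
  have hb : 0 ≤ rr n - C * rr n ^ 2 := (pos_of_mul_pos_right hn3 (by positivity)).le
  have hcr : 0 ≤ C * rr n ^ 2 := by positivity
  have key := SA_lower (m := m) (α := 1 - C * rr n ^ 2) (β := rr n - C * rr n ^ 2) (rN := rN)
    (by linarith) hb (by linarith) (by rw [hrN]; linarith) l (fun p hpl a ha => by
      have h1 := hQ p.1 (by rw [hp p hpl]; exact hr1.le) a ha
      have h2 : p.1 ^ 2 = rr n ^ 2 := by rw [← sq_abs, hp p hpl]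
      rw [h2, hp p hpl] at h1
      exact h1) (a := 0) (Nat.zero_le _)
  rw [hl, Nat.sub_zero] at key
  exact hn1.le.trans (mul_le_mul_of_nonneg_left key (by positivity))

end Helper51.TH
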