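import Pool.Agent.Helper51.TH.Seq
import Pool.Agent.Helper51.TH.Compact

/-!
TH-P33. A convergent subsequence of the approximate solutions.

PROOF. `compact_strip` three times (for `z`, then `u`, then `l`, each time for the subsequence found before; the hypotheses pass to
subsequences; bounds `M`: `|z| ≤ |z₁| + |z₂|`, `U`, `Λ`; the variations of `z` and `u` are bounded by
`C (τ + sup ε)`, `ε` is bounded as a convergent sequence) gives a subsequence and measurable `Z, Y, Λ'` with `z_k(t) → Z(t)` etc. in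
`L¹(-R, R)` for every `t ≥ 0`. By dominated convergence in `t` the convergence also holds in
`L¹((0, n) × (-n, n))` for every `n`, so a further subsequence (rapid convergence, diagonal) converges a.e. on `{0 < t}`.
Finally replace the limit by its projection to the box (`z ↦ max z₁ (min z z₂)`, `u ↦ max (-U) (min u U)`,
`l ↦ max (-Λ) (min l Λ)`; the box is not empty): this does not increase the `L¹` distances to the box valued functions `W k`
(projections are 1-Lipschitz and fix the box) and does not destroy the pointwise convergence (continuity).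
-/

open MeasureTheory Set Filter Topology
open scoped ENNReal

namespace Helper51.TH

open Helper73.EU

/-- Integrability of distances of bounded functions on bounded intervals. -/
private theorem intD {M R : ℝ} {a b : ℝ → ℝ} (ha : Measurable a) (hb : Measurable b)
    (hA : ∀ x, |a x| ≤ M) (hB : ∀ x, |b x| ≤ M) :
    IntegrableOn (fun x => |a x - b x|) (Ioo (-R) R) volume := by
  refine Measure.integrableOn_of_bounded (M := 2 * M) (by simp)
    ((ha.sub hb).abs).aestronglyMeasurable ?_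
  refine Eventually.of_forall (fun x => ?_)
  rw [Real.norm_eq_abs, abs_abs]
  refine (abs_sub _ _).trans ?_
  have := hA x
  have := hB x
  linarith

/-- The projection to an interval does not increase the distance to its points. -/
private theorem proj_le {lo hi y x : ℝ} (h1 : lo ≤ y) (h2 : y ≤ hi) :
    |y - max lo (min x hi)| ≤ |y - x| := by
  have e : y = max lo (min y hi) := by
    rw [min_eq_left h2, max_eq_right h1]
  calc |y - max lo (min x hi)| = |max lo (min y hi) - max lo (min x hi)| := by rw [← e]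
    _ ≤ |y - x| := by
      have a := abs_max_sub_max_le_abs (min y hi) (min x hi) lo
      rw [max_comm _ lo, max_comm _ lo] at a
      refine a.trans ?_
      have b := abs_min_sub_min_le_max y hi x hi
      simpa using b

/-- Convergence in `L¹` of all the time slices implies convergence in `L¹` of rectangles. -/
private theorem rect {M : ℝ} {f : ℕ → ℝ × ℝ → ℝ} {F : ℝ × ℝ → ℝ}
    (hm : ∀ k, Measurable (f k)) (hF : Measurable F) (hM : ∀ k z, |f k z| ≤ M)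
    (hFM : ∀ z, |F z| ≤ M)
    (hc : ∀ t R : ℝ, 0 ≤ t → 0 < R →
        Tendsto (fun k => ∫ x in Ioo (-R) R, |f k (t, x) - F (t, x)|) atTop (𝓝 0))
    {R : ℝ} (hR : 0 < R) :
    Tendsto (fun k => ∫⁻ ζ in Ioo 0 R ×ˢ Ioo (-R) R, ‖f k ζ - F ζ‖ₑ) atTop (𝓝 0) := by
  have hms : ∀ k, Measurable fun ζ => ‖f k ζ - F ζ‖ₑ := fun k => ((hm k).sub hF).enorm
  have e1 : ∀ k, ∫⁻ ζ in Ioo 0 R ×ˢ Ioo (-R) R, ‖f k ζ - F ζ‖ₑ =
      ∫⁻ t in Ioo 0 R, ∫⁻ x in Ioo (-R) R, ‖f k (t, x) - F (t, x)‖ₑ := by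
    intro k
    rw [Measure.volume_eq_prod, ← Measure.prod_restrict, lintegral_prod _ (hms k).aemeasurable]
  simp_rw [e1]
  have e2 : ∀ k t, ∫⁻ x in Ioo (-R) R, ‖f k (t, x) - F (t, x)‖ₑ =
      ENNReal.ofReal (∫ x in Ioo (-R) R, |f k (t, x) - F (t, x)|) := by
    intro k t
    have hint : IntegrableOn (fun x => f k (t, x) - F (t, x)) (Ioo (-R) R) volume := by
      refine Measure.integrableOn_of_bounded (M := 2 * M) (by simp)
        (((hm k).comp measurable_prodMk_left).sub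
          (hF.comp measurable_prodMk_left)).aestronglyMeasurable ?_
      refine Eventually.of_forall (fun x => ?_)
      rw [Real.norm_eq_abs]
      refine (abs_sub _ _).trans ?_
      have := hM k (t, x)
      have := hFM (t, x)
      linarith
    have := ofReal_integral_norm_eq_lintegral_enorm hint
    simp only [Real.norm_eq_abs] at this
    rw [this]
  have t0 : Tendsto (fun k => ∫⁻ t in Ioo 0 R, ∫⁻ x in Ioo (-R) R, ‖f k (t, x) - F (t, x)‖ₑ)
      atTop (𝓝 (∫⁻ _ in Ioo 0 R, 0)) := by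
    refine tendsto_lintegral_of_dominated_convergence
      (fun _ => ∫⁻ _ in Ioo (-R) R, ENNReal.ofReal (2 * M)) (fun k => ?_) (fun k => ?_) ?_ ?_
    · exact Measurable.lintegral_prod_right' (hms k)
    · refine Eventually.of_forall (fun t => ?_)
      refine lintegral_mono (fun x => ?_)
      simp only
      rw [Real.enorm_eq_ofReal_abs]
      refine ENNReal.ofReal_le_ofReal ?_
      refine (abs_sub _ _).trans ?_
      have := hM k (t, x)
      have := hFM (t, x)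
      linarith
    · simp only [lintegral_const, Measure.restrict_apply MeasurableSet.univ, univ_inter,
        Real.volume_Ioo]
      exact (ENNReal.mul_lt_top (ENNReal.mul_lt_top ENNReal.ofReal_lt_top
        ENNReal.ofReal_lt_top) ENNReal.ofReal_lt_top).ne
    · refine (ae_restrict_iff' measurableSet_Ioo).2 (Eventually.of_forall fun t ht => ?_)
      simp_rw [e2]
      have := ENNReal.tendsto_ofReal (hc t R ht.1.le hR)
      rwa [ENNReal.ofReal_zero] at this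
  simpa using t0

/-- The scalar version. -/
private theorem sub_one {lo hi V L : ℝ} {ε : ℕ → ℝ} (hε : Tendsto ε atTop (𝓝 0))
    (f : ℕ → ℝ × ℝ → ℝ) (hm : ∀ k, Measurable (f k)) (hb : ∀ k z, lo ≤ f k z ∧ f k z ≤ hi)
    (hV : ∀ k t, 0 ≤ t → eVariationOn (fun x => f k (t, x)) univ ≤ ENNReal.ofReal V)
    (hL : ∀ k s t R, 0 ≤ s → s ≤ t → 0 < R →
      ∫ x in Ioo (-R) R, |f k (t, x) - f k (s, x)| ≤ L * (t - s + ε k)) :
    ∃ φ : ℕ → ℕ, StrictMono φ ∧ ∃ F : ℝ × ℝ → ℝ, Measurable F ∧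
      (∀ z, lo ≤ F z ∧ F z ≤ hi) ∧
      (∀ t R : ℝ, 0 ≤ t → 0 < R →
        Tendsto (fun k => ∫ x in Ioo (-R) R, |f (φ k) (t, x) - F (t, x)|) atTop (𝓝 0)) ∧
      ∀ᵐ ζ : ℝ × ℝ, 0 < ζ.1 → Tendsto (fun k => f (φ k) ζ) atTop (𝓝 (F ζ)) := by
  have hlh : lo ≤ hi := (hb 0 (0, 0)).1.trans (hb 0 (0, 0)).2
  obtain ⟨M, hMd⟩ : ∃ M : ℝ, M = |lo| + |hi| := ⟨_, rfl⟩
  have hM0 : 0 ≤ M := by rw [hMd]; positivity
  have hMy : ∀ y, lo ≤ y → y ≤ hi → |y| ≤ M := by
    intro y h1 h2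
    rw [hMd, abs_le]
    have := neg_abs_le lo
    have := le_abs_self hi
    have := abs_nonneg lo
    have := abs_nonneg hi
    constructor <;> linarith
  have hM : ∀ k z, |f k z| ≤ M := fun k z => hMy _ (hb k z).1 (hb k z).2
  obtain ⟨φ, hφ, F, hF, hFM, hc⟩ := compact_strip hε f hm hM hV hL
  -- a rapid subsequence
  have hrect : ∀ n : ℕ, Tendsto (fun k => ∫⁻ ζ in Ioo 0 ((n : ℝ) + 1) ×ˢ
      Ioo (-((n : ℝ) + 1)) ((n : ℝ) + 1), ‖f (φ k) ζ - F ζ‖ₑ) atTop (𝓝 0) := fun n =>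
    rect (fun k => hm _) hF (fun k => hM _) hFM hc (by positivity)
  obtain ⟨ψ, hψ, hψn⟩ := extraction_forall_of_eventually' (P := fun n k =>
      ∫⁻ ζ in Ioo 0 ((n : ℝ) + 1) ×ˢ Ioo (-((n : ℝ) + 1)) ((n : ℝ) + 1), ‖f (φ k) ζ - F ζ‖ₑ ≤
        ENNReal.ofReal ((1 / 2) ^ n)) (fun n => by
      have h1 : (0 : ℝ≥0∞) < ENNReal.ofReal ((1 / 2) ^ n) := ENNReal.ofReal_pos.2 (by positivity)
      obtain ⟨N, hN⟩ := eventually_atTop.1 ((hrect n).eventually (gt_mem_nhds h1))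
      exact ⟨N, fun k hk => (hN k hk).le⟩)
  have hQ : ∀ n : ℕ, MeasurableSet (Ioo 0 ((n : ℝ) + 1) ×ˢ
      Ioo (-((n : ℝ) + 1)) ((n : ℝ) + 1)) := fun n => measurableSet_Ioo.prod measurableSet_Ioo
  have hsum : ∫⁻ ζ, ∑' n : ℕ, (Ioo 0 ((n : ℝ) + 1) ×ˢ
      Ioo (-((n : ℝ) + 1)) ((n : ℝ) + 1)).indicator (fun ζ => ‖f (φ (ψ n)) ζ - F ζ‖ₑ) ζ ≠ ∞ := by
    have hgm : ∀ n : ℕ, AEMeasurable ((Ioo 0 ((n : ℝ) + 1) ×ˢ
      Ioo (-((n : ℝ) + 1)) ((n : ℝ) + 1)).indicator (fun ζ => ‖f (φ (ψ n)) ζ - F ζ‖ₑ)) volume :=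
      fun n => ((((hm _).sub hF).enorm).indicator (hQ n)).aemeasurable
    rw [lintegral_tsum hgm]
    have h2 : ∑' n : ℕ, ENNReal.ofReal ((1 / 2) ^ n) ≠ ∞ := by
      rw [← ENNReal.ofReal_tsum_of_nonneg (fun n => by positivity) summable_geometric_two]
      exact ENNReal.ofReal_ne_top
    refine ne_top_of_le_ne_top h2 (ENNReal.tsum_le_tsum fun n => ?_)
    rw [lintegral_indicator (hQ n)]
    exact hψn n
  have hae : ∀ᵐ ζ : ℝ × ℝ, 0 < ζ.1 → Tendsto (fun k => f (φ (ψ k)) ζ) atTop (𝓝 (F ζ)) := by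
    have hmeas : Measurable fun ζ => ∑' n : ℕ, (Ioo 0 ((n : ℝ) + 1) ×ˢ
      Ioo (-((n : ℝ) + 1)) ((n : ℝ) + 1)).indicator (fun ζ => ‖f (φ (ψ n)) ζ - F ζ‖ₑ) ζ :=
      Measurable.tsum (fun n => ((((hm _).sub hF).enorm).indicator (hQ n)))
    filter_upwards [ae_lt_top hmeas hsum] with ζ hζ h0
    have h3 := ENNReal.tendsto_atTop_zero_of_tsum_ne_top hζ.ne
    obtain ⟨N, hN⟩ := exists_nat_gt (max ζ.1 |ζ.2|)
    have h4 : (fun n : ℕ => (Ioo 0 ((n : ℝ) + 1) ×ˢ
      Ioo (-((n : ℝ) + 1)) ((n : ℝ) + 1)).indicator (fun ζ => ‖f (φ (ψ n)) ζ - F ζ‖ₑ) ζ)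
        =ᶠ[atTop] fun n => ‖f (φ (ψ n)) ζ - F ζ‖ₑ := by
      filter_upwards [eventually_ge_atTop N] with n hn
      refine indicator_of_mem ?_ _
      have hn' : (N : ℝ) ≤ n := by exact_mod_cast hn
      have h5 : ζ.1 < n := (lt_of_le_of_lt (le_max_left _ _) hN).trans_le hn'
      have h6 : |ζ.2| < n := (lt_of_le_of_lt (le_max_right _ _) hN).trans_le hn'
      refine ⟨⟨h0, by linarith⟩, ?_⟩
      have h7 := abs_lt.1 h6
      exact ⟨by linarith [h7.1], by linarith [h7.2]⟩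
    have h8 := h3.congr' h4
    rw [tendsto_iff_edist_tendsto_0]
    refine h8.congr (fun n => ?_)
    rw [edist_eq_enorm_sub]
  refine ⟨φ ∘ ψ, hφ.comp hψ, fun ζ => max lo (min (F ζ) hi), ?_, ?_, ?_, ?_⟩
  · exact measurable_const.max (hF.min measurable_const)
  · intro z
    exact ⟨le_max_left _ _, max_le hlh (min_le_right _ _)⟩
  · intro t R ht hR
    have h1 := (hc t R ht hR).comp hψ.tendsto_atTop
    refine squeeze_zero (fun k => ?_) (fun k => ?_) h1
    · exact integral_nonneg (fun x => abs_nonneg _)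
    · have hms : Measurable fun x => f (φ (ψ k)) (t, x) := (hm _).comp measurable_prodMk_left
      have hFs : Measurable fun x => F (t, x) := hF.comp measurable_prodMk_left
      have hPs : Measurable fun x => max lo (min (F (t, x)) hi) :=
        measurable_const.max (hFs.min measurable_const)
      refine integral_mono (intD hms hPs (fun x => hM _ _) (fun x => ?_))
        (intD hms hFs (fun x => hM _ _) (fun x => hFM _)) (fun x => ?_)
      · exact hMy _ (le_max_left _ _) (max_le hlh (min_le_right _ _))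
      · exact proj_le (hb _ _).1 (hb _ _).2
  · filter_upwards [hae] with ζ hζ h0
    have h1 := hζ h0
    rw [tendsto_iff_dist_tendsto_zero] at h1 ⊢
    refine squeeze_zero (fun k => dist_nonneg) (fun k => ?_) h1
    rw [Real.dist_eq, Real.dist_eq]
    exact proj_le (hb _ _).1 (hb _ _).2

theorem exists_sub {γ z₁ z₂ Λ U C : ℝ} {ρ₀ u₀ e₀ : ℝ → ℝ} {W : ℕ → ℝ × ℝ → St} {ε : ℕ → ℝ}
    (hC : 0 < C) (h : IsApprox γ z₁ z₂ Λ U C ρ₀ u₀ e₀ W ε) :
    ∃ (φ : ℕ → ℕ) (w : ℝ × ℝ → St), StrictMono φ ∧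
      (Measurable (fun ζ => (w ζ).z) ∧ Measurable (fun ζ => (w ζ).u) ∧
        Measurable (fun ζ => (w ζ).l)) ∧
      (∀ ζ, InB z₁ z₂ Λ (w ζ) ∧ |(w ζ).u| ≤ U) ∧
      (∀ t R : ℝ, 0 ≤ t → 0 < R → Tendsto (fun k => ∫ x in Ioo (-R) R,
        (|(W (φ k) (t, x)).z - (w (t, x)).z| + |(W (φ k) (t, x)).u - (w (t, x)).u| +
          |(W (φ k) (t, x)).l - (w (t, x)).l|)) atTop (𝓝 0)) ∧
      ∀ᵐ ζ : ℝ × ℝ, 0 < ζ.1 → Tendsto (fun k => (W (φ k) ζ).z) atTop (𝓝 (w ζ).z) ∧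
        Tendsto (fun k => (W (φ k) ζ).u) atTop (𝓝 (w ζ).u) ∧
        Tendsto (fun k => (W (φ k) ζ).l) atTop (𝓝 (w ζ).l) := by
  obtain ⟨E, hE⟩ := h.lim.bddAbove_range
  have hE' : ∀ k, ε k ≤ E := fun k => hE (mem_range_self k)
  have hτ : ∀ k, C * ((tv₀ γ ρ₀ u₀ e₀).toReal + ε k) ≤ C * ((tv₀ γ ρ₀ u₀ e₀).toReal + E) :=
    fun k => mul_le_mul_of_nonneg_left (by linarith [hE' k]) hC.le
  obtain ⟨φ₁, h₁, Z, hZm, hZb, hZc, hZa⟩ := sub_one (lo := z₁) (hi := z₂)
    (V := C * ((tv₀ γ ρ₀ u₀ e₀).toReal + E)) (L := C) h.lim (fun k ζ => (W k ζ).z)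
    (fun k => (h.meas k).1) (fun k ζ => ⟨(h.box k ζ).1.1, (h.box k ζ).1.2.1⟩)
    (fun k t ht => ((h.var k t ht).1).trans (ENNReal.ofReal_le_ofReal (hτ k)))
    (fun k s t R hs hst hR => (h.lip k s t R hs hst hR).1)
  obtain ⟨φ₂, h₂, Y, hYm, hYb, hYc, hYa⟩ := sub_one (lo := -U) (hi := U)
    (V := C * ((tv₀ γ ρ₀ u₀ e₀).toReal + E)) (L := C) (h.lim.comp h₁.tendsto_atTop)
    (fun k ζ => (W (φ₁ k) ζ).u)
    (fun k => (h.meas _).2.1) (fun k ζ => abs_le.1 (h.box _ ζ).2)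
    (fun k t ht => ((h.var _ t ht).2.1).trans (ENNReal.ofReal_le_ofReal (hτ _)))
    (fun k s t R hs hst hR => (h.lip _ s t R hs hst hR).2.1)
  obtain ⟨φ₃, h₃, X, hXm, hXb, hXc, hXa⟩ := sub_one (lo := -Λ) (hi := Λ)
    (V := C) (L := C) ((h.lim.comp h₁.tendsto_atTop).comp h₂.tendsto_atTop)
    (fun k ζ => (W (φ₁ (φ₂ k)) ζ).l)
    (fun k => (h.meas _).2.2) (fun k ζ => abs_le.1 (h.box _ ζ).1.2.2)
    (fun k t ht => (h.var _ t ht).2.2)
    (fun k s t R hs hst hR => (h.lip _ s t R hs hst hR).2.2)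
  refine ⟨φ₁ ∘ φ₂ ∘ φ₃, fun ζ => ⟨Z ζ, Y ζ, X ζ⟩, h₁.comp (h₂.comp h₃), ⟨hZm, hYm, hXm⟩,
    fun ζ => ⟨⟨(hZb ζ).1, (hZb ζ).2, abs_le.2 (hXb ζ)⟩, abs_le.2 (hYb ζ)⟩, ?_, ?_⟩
  · intro t R ht hR
    have a := (hZc t R ht hR).comp (h₂.comp h₃).tendsto_atTop
    have b := (hYc t R ht hR).comp h₃.tendsto_atTop
    have c := hXc t R ht hR
    have d := (a.add b).add c
    rw [add_zero, add_zero] at d
    refine d.congr (fun k => ?_)
    simp only [Function.comp_apply]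
    have hpm : Measurable fun x : ℝ => (t, x) := measurable_prodMk_left
    have bz : ∀ y, z₁ ≤ y → y ≤ z₂ → |y| ≤ |z₁| + |z₂| := by
      intro y h1 h2
      rw [abs_le]
      have := neg_abs_le z₁
      have := le_abs_self z₂
      have := abs_nonneg z₁
      have := abs_nonneg z₂
      constructor <;> linarith
    have i1 : IntegrableOn (fun x => |(W (φ₁ (φ₂ (φ₃ k))) (t, x)).z - Z (t, x)|) (Ioo (-R) R)
        volume := intD ((h.meas _).1.comp hpm) (hZm.comp hpm)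
          (fun x => bz _ (h.box _ _).1.1 (h.box _ _).1.2.1) (fun x => bz _ (hZb _).1 (hZb _).2)
    have i2 : IntegrableOn (fun x => |(W (φ₁ (φ₂ (φ₃ k))) (t, x)).u - Y (t, x)|) (Ioo (-R) R)
        volume := intD ((h.meas _).2.1.comp hpm) (hYm.comp hpm)
          (fun x => (h.box _ _).2) (fun x => abs_le.2 (hYb _))
    have i3 : IntegrableOn (fun x => |(W (φ₁ (φ₂ (φ₃ k))) (t, x)).l - X (t, x)|) (Ioo (-R) R)
        volume := intD ((h.meas _).2.2.comp hpm) (hXm.comp hpm)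
          (fun x => (h.box _ _).1.2.2) (fun x => abs_le.2 (hXb _))
    have e1 : ∫ x in Ioo (-R) R, (|(W (φ₁ (φ₂ (φ₃ k))) (t, x)).z - Z (t, x)| +
        |(W (φ₁ (φ₂ (φ₃ k))) (t, x)).u - Y (t, x)| + |(W (φ₁ (φ₂ (φ₃ k))) (t, x)).l - X (t, x)|) =
        (∫ x in Ioo (-R) R, (|(W (φ₁ (φ₂ (φ₃ k))) (t, x)).z - Z (t, x)| +
          |(W (φ₁ (φ₂ (φ₃ k))) (t, x)).u - Y (t, x)|)) +
        ∫ x in Ioo (-R) R, |(W (φ₁ (φ₂ (φ₃ k))) (t, x)).l - X (t, x)| :=
      integral_add (i1.add i2) i3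
    rw [e1, integral_add i1 i2]
  · filter_upwards [hZa, hYa, hXa] with ζ a b c h0
    exact ⟨(a h0).comp (h₂.comp h₃).tendsto_atTop, (b h0).comp h₃.tendsto_atTop, c h0⟩

end Helper51.TH
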