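import Pool.Agent.Helper51.TH.LimA
import Pool.Agent.Helper73.EU.Bounds

/-!
TH-P34. The limit of the approximate solutions is a solution.

PROOF. `exists_sub` gives the subsequence and the limit `W` (called `w` there), box valued, with `W_k(t) → W(t)` in `L¹_loc` for all
`t ≥ 0` and pointwise a.e. on `{t > 0}`.
`ρ = rho γ W`, `u = W.u`, `e = ien γ W`: measurable; `box_of` gives `a', b'` (depending only on `γ, z₁, z₂, Λ, U`).
* Laws on `(0, T)`: `cq γ j (W_k ζ) → cq γ j (W ζ)`, `cf` too, a.e. along the subsequence (continuous on the box), bounded: dominated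
  convergence (`dt φ`, `dx φ` bounded with compact support), so `∫ (cq γ j W dt φ + cf γ j W dx φ) = 0` for `j ≠ 3`,
  `≤ 0` for `j = 3`, `φ ≥ 0`. These are the laws in `IsSol` by definition of `cq, cf` (`Matrix.cons_val`).
* initial values: `rho γ`, `ien γ` are Lipschitz on the box: `∫_{|x|<R} |rho γ (W(0,x)) - ρ₀ x| = 0` etc., so
  `(ρ, u, e)(0, x) = (ρ₀, u₀, e₀)(x)` for a.e. `x`. The limit of `lip`: `∫_{|x|<R} |Z(t) - Z(0)| ≤ C t`, the same for `u, l`, so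
  `dist1 R (sl ρ t) ... ρ₀ u₀ e₀ ≤ C'' t → 0`: `Attains` for every `T`.
* variation for `t > 0`: `eTV_le_of_tendsto`: `eTV (Z t), eTV (u t) ≤ ofReal (C τ)`, `eTV (l t) ≤ ofReal C`, `τ = (tv₀).toReal`;
  `pr γ ρ e = prs γ W = Z^(2γ/(γ-1))` (`pr_eq`) is a Lipschitz function of `Z` on `[z₁, z₂]` and
  `log ρ = log γ + (2/(γ-1)) log Z - 2 l` (`eTV (f ∘ g) ≤ Lip eTV g`, `eTV (f + g) ≤ eTV f + eTV g`; representatives may be
  composed with the projection to `[z₁, z₂]`). `ofReal (C τ) = ofReal C * tv₀` (`tv₀ < ∞` by `Small`).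
-/

open MeasureTheory Set Filter Topology
open scoped ENNReal NNReal

namespace Helper51.TH

open Helper73.EU

private theorem l34_var2 {f g : ℝ → ℝ} {F : ℝ → ℝ → ℝ} {L : ℝ} (hL : 0 < L)
    (hF : ∀ a b a' b', |F a b - F a' b'| ≤ L * (|a - a'| + |b - b'|)) :
    eVariationOn (fun x => F (f x) (g x)) univ ≤
      ENNReal.ofReal L * (eVariationOn f univ + eVariationOn g univ) := by
  refine iSup_le fun p => ?_
  obtain ⟨n, u, hu, hus⟩ := p
  have h1 : ∑ i ∈ Finset.range n, edist (F (f (u (i + 1))) (g (u (i + 1))))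
      (F (f (u i)) (g (u i))) ≤
      ENNReal.ofReal L * (∑ i ∈ Finset.range n, edist (f (u (i + 1))) (f (u i)) +
        ∑ i ∈ Finset.range n, edist (g (u (i + 1))) (g (u i))) := by
    rw [← Finset.sum_add_distrib, Finset.mul_sum]
    refine Finset.sum_le_sum fun i _ => ?_
    rw [edist_dist, edist_dist, edist_dist, ← ENNReal.ofReal_add dist_nonneg dist_nonneg,
      ← ENNReal.ofReal_mul hL.le]
    refine ENNReal.ofReal_le_ofReal ?_
    rw [Real.dist_eq, Real.dist_eq, Real.dist_eq]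
    exact hF _ _ _ _
  refine h1.trans ?_
  gcongr
  · exact eVariationOn.sum_le hu (fun i => mem_univ _)
  · exact eVariationOn.sum_le hu (fun i => mem_univ _)

private theorem l34_exists_rep {f : ℝ → ℝ} {ε : ℝ≥0∞} (hε : 0 < ε) (hf : eTV f ≠ ⊤) :
    ∃ g : ℝ → ℝ, g =ᵐ[volume] f ∧ eVariationOn g univ ≤ eTV f + ε := by
  have h1 : eTV f < eTV f + ε := ENNReal.lt_add_right hf hε.ne'
  unfold eTV at h1
  rw [iInf_lt_iff] at h1
  obtain ⟨g, hg⟩ := h1
  rw [iInf_lt_iff] at hg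
  obtain ⟨h, hg⟩ := hg
  exact ⟨g, h, hg.le⟩

private theorem l34_eTV2 {f g : ℝ → ℝ} {F : ℝ → ℝ → ℝ} {L : ℝ} (hL : 0 < L)
    (hF : ∀ a b a' b', |F a b - F a' b'| ≤ L * (|a - a'| + |b - b'|)) :
    eTV (fun x => F (f x) (g x)) ≤ ENNReal.ofReal L * (eTV f + eTV g) := by
  by_cases h : eTV f = ⊤ ∨ eTV g = ⊤
  · have : eTV f + eTV g = ⊤ := by
      rcases h with h | h <;> simp [h]
    rw [this, ENNReal.mul_top]
    · exact le_top
    · simp [hL]
  push Not at h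
  have hLt : ENNReal.ofReal L ≠ 0 := by simp [hL]
  refine ENNReal.le_of_forall_pos_le_add fun ε hε _ => ?_
  have hε' : (0 : ℝ≥0∞) < ε / (2 * ENNReal.ofReal L) := by
    apply ENNReal.div_pos
    · exact_mod_cast hε.ne'
    · exact ENNReal.mul_ne_top (by simp) ENNReal.ofReal_ne_top
  obtain ⟨f', hf', hf2⟩ := l34_exists_rep hε' h.1
  obtain ⟨g', hg', hg2⟩ := l34_exists_rep hε' h.2
  have h3 : eTV (fun x => F (f x) (g x)) ≤ eVariationOn (fun x => F (f' x) (g' x)) univ := by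
    unfold eTV
    refine iInf_le_of_le _ (iInf_le_of_le ?_ le_rfl)
    filter_upwards [hf', hg'] with x h1 h2
    simp only [h1, h2]
  refine h3.trans ((l34_var2 hL hF).trans ?_)
  calc ENNReal.ofReal L * (eVariationOn f' univ + eVariationOn g' univ)
      ≤ ENNReal.ofReal L * ((eTV f + ε / (2 * ENNReal.ofReal L)) +
        (eTV g + ε / (2 * ENNReal.ofReal L))) := by gcongr
    _ = ENNReal.ofReal L * (eTV f + eTV g) +
        (2 * ENNReal.ofReal L) * (ε / (2 * ENNReal.ofReal L)) := by ring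
    _ ≤ ENNReal.ofReal L * (eTV f + eTV g) + ε := by
        gcongr
        rw [ENNReal.mul_div_cancel]
        · exact mul_ne_zero (by simp) hLt
        · exact ENNReal.mul_ne_top (by simp) ENNReal.ofReal_ne_top

/-- `|e^x - e^y| ≤ e^E |x - y|` for `x, y ≤ E`. -/
private theorem l34_exp {x y E : ℝ} (hx : x ≤ E) (hy : y ≤ E) :
    |Real.exp x - Real.exp y| ≤ Real.exp E * |x - y| := by
  wlog h : y ≤ x generalizing x y
  · rw [abs_sub_comm, abs_sub_comm x]
    exact this hy hx (not_le.1 h).le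
  have h1 : 0 ≤ x - y := by linarith
  rw [abs_of_nonneg h1, abs_of_nonneg (by linarith [Real.exp_le_exp.2 h])]
  have h2 : Real.exp y = Real.exp x * Real.exp (-(x - y)) := by
    rw [← Real.exp_add]; ring_nf
  have h3 : 1 - (x - y) ≤ Real.exp (-(x - y)) := by
    have := Real.add_one_le_exp (-(x - y))
    linarith
  have h4 : Real.exp x - Real.exp y ≤ Real.exp x * (x - y) := by
    rw [h2]
    nlinarith [Real.exp_pos x]
  refine h4.trans ?_
  exact mul_le_mul_of_nonneg_right (Real.exp_le_exp.2 hx) h1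

private theorem l34_log {x y c : ℝ} (hc : 0 < c) (hx : c ≤ x) (hy : c ≤ y) :
    |Real.log x - Real.log y| ≤ |x - y| / c := by
  wlog h : y ≤ x generalizing x y
  · rw [abs_sub_comm, abs_sub_comm x]
    exact this hy hx (not_le.1 h).le
  have hy0 : 0 < y := hc.trans_le hy
  have hx0 : 0 < x := hc.trans_le hx
  have h1 : 0 ≤ x - y := by linarith
  rw [abs_of_nonneg h1, abs_of_nonneg (by linarith [Real.log_le_log hy0 h]), ← Real.log_div
    hx0.ne' hy0.ne']
  have h2 := Real.log_le_sub_one_of_pos (div_pos hx0 hy0)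
  have h3 : x / y - 1 = (x - y) / y := by field_simp
  rw [h3] at h2
  exact h2.trans (div_le_div_of_nonneg_left h1 hc hy)

/-- Functions `z^α e^(β l)` are Lipschitz on the box. -/
private theorem l34_lip {z₁ z₂ Λ : ℝ} (hz : 0 < z₁) (α β : ℝ) : ∃ L : ℝ, 0 < L ∧
    ∀ z l z' l' : ℝ, z₁ ≤ z → z ≤ z₂ → |l| ≤ Λ → z₁ ≤ z' → z' ≤ z₂ → |l'| ≤ Λ →
      |z ^ α * Real.exp (β * l) - z' ^ α * Real.exp (β * l')| ≤ L * (|z - z'| + |l - l'|) := by
  set E : ℝ := |α| * max |Real.log z₁| |Real.log z₂| + |β| * Λ with hE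
  refine ⟨Real.exp E * (|α| / z₁ + |β| + 1), by positivity, ?_⟩
  have key : ∀ z l : ℝ, z₁ ≤ z → z ≤ z₂ → |l| ≤ Λ → α * Real.log z + β * l ≤ E := by
    intro z l h1 h2 h3
    have hz0 : 0 < z := hz.trans_le h1
    have h4 : |Real.log z| ≤ max |Real.log z₁| |Real.log z₂| :=
      abs_le_max_abs_abs (Real.log_le_log hz h1) (Real.log_le_log hz0 h2)
    have h5 : α * Real.log z ≤ |α| * max |Real.log z₁| |Real.log z₂| := by
      refine (le_abs_self _).trans ?_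
      rw [abs_mul]
      exact mul_le_mul_of_nonneg_left h4 (abs_nonneg _)
    have h6 : β * l ≤ |β| * Λ := by
      refine (le_abs_self _).trans ?_
      rw [abs_mul]
      exact mul_le_mul_of_nonneg_left h3 (abs_nonneg _)
    rw [hE]; linarith
  intro z l z' l' h1 h2 h3 h1' h2' h3'
  have hz0 : 0 < z := hz.trans_le h1
  have hz0' : 0 < z' := hz.trans_le h1'
  rw [Real.rpow_def_of_pos hz0, Real.rpow_def_of_pos hz0', ← Real.exp_add, ← Real.exp_add]
  have e1 : Real.log z * α + β * l = α * Real.log z + β * l := by ring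
  have e2 : Real.log z' * α + β * l' = α * Real.log z' + β * l' := by ring
  rw [e1, e2]
  refine (l34_exp (key z l h1 h2 h3) (key z' l' h1' h2' h3')).trans ?_
  rw [mul_assoc]
  refine mul_le_mul_of_nonneg_left ?_ (Real.exp_pos _).le
  have h7 : |α * Real.log z + β * l - (α * Real.log z' + β * l')| ≤
      |α| * |Real.log z - Real.log z'| + |β| * |l - l'| := by
    have : α * Real.log z + β * l - (α * Real.log z' + β * l') =
      α * (Real.log z - Real.log z') + β * (l - l') := by ring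
    rw [this]
    refine (abs_add_le _ _).trans ?_
    rw [abs_mul, abs_mul]
  refine h7.trans ?_
  have h8 := mul_le_mul_of_nonneg_left (l34_log hz h1 h1') (abs_nonneg α)
  have h9 : |α| * (|z - z'| / z₁) = |α| / z₁ * |z - z'| := by ring
  rw [h9] at h8
  have h10 : 0 ≤ |β| * |z - z'| := by positivity
  have h11 : 0 ≤ |α| / z₁ * |l - l'| := by positivity
  nlinarith [abs_nonneg (z - z'), abs_nonneg (l - l')]

private theorem l34_rho {γ : ℝ} (w : St) :
    rho γ w = γ * (w.z ^ (2 / (γ - 1)) * Real.exp (-2 * w.l)) := by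
  unfold rho
  rw [show -(2 * w.l) = -2 * w.l by ring, mul_assoc]

private theorem l34_ien {γ : ℝ} (hγ : 1 < γ) {w : St} (hw : 0 < w.z) :
    ien γ w = 1 / (γ * (γ - 1)) * (w.z ^ (2 : ℝ) * Real.exp (2 * w.l)) := by
  have h1 := sound_sq hγ hw
  have h2 := rho_pos hγ hw
  have h3 : 0 < γ := by linarith
  have h4 : 0 < γ - 1 := by linarith
  have h5 : prs γ w = rho γ w * (Real.exp w.l * w.z) ^ 2 / γ := by
    field_simp
    linarith
  have h6 : Real.exp (2 * w.l) = Real.exp w.l ^ 2 := by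
    rw [← Real.exp_nat_mul]; norm_num
  unfold ien
  rw [h5, h6, show (2 : ℝ) = ((2 : ℕ) : ℝ) by norm_num, Real.rpow_natCast]
  field_simp

private theorem l34_lips {γ z₁ z₂ Λ : ℝ} (hγ : 1 < γ) (hz : 0 < z₁) : ∃ L : ℝ, 0 < L ∧
    ∀ v w : St, InB z₁ z₂ Λ v → InB z₁ z₂ Λ w →
      |rho γ v - rho γ w| ≤ L * (|v.z - w.z| + |v.l - w.l|) ∧
      |ien γ v - ien γ w| ≤ L * (|v.z - w.z| + |v.l - w.l|) := by
  obtain ⟨L1, hL1, h1⟩ := l34_lip (z₂ := z₂) (Λ := Λ) hz (2 / (γ - 1)) (-2)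
  obtain ⟨L2, hL2, h2⟩ := l34_lip (z₂ := z₂) (Λ := Λ) hz 2 2
  have hγ0 : 0 < γ := by linarith
  have hγ1 : 0 < γ - 1 := by linarith
  refine ⟨γ * L1 + 1 / (γ * (γ - 1)) * L2, by positivity, ?_⟩
  rintro v w ⟨a1, a2, a3⟩ ⟨b1, b2, b3⟩
  have hS : 0 ≤ |v.z - w.z| + |v.l - w.l| := by positivity
  have e1 := h1 v.z v.l w.z w.l a1 a2 a3 b1 b2 b3
  have e2 := h2 v.z v.l w.z w.l a1 a2 a3 b1 b2 b3
  have hc : 0 < 1 / (γ * (γ - 1)) := by positivity
  constructor
  · rw [l34_rho, l34_rho, ← mul_sub, abs_mul, abs_of_pos hγ0]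
    have := mul_le_mul_of_nonneg_left e1 hγ0.le
    have h3 : 0 ≤ 1 / (γ * (γ - 1)) * L2 * (|v.z - w.z| + |v.l - w.l|) := by positivity
    nlinarith
  · rw [l34_ien hγ (hz.trans_le a1), l34_ien hγ (hz.trans_le b1), ← mul_sub, abs_mul,
      abs_of_pos hc]
    have := mul_le_mul_of_nonneg_left e2 hc.le
    have h3 : 0 ≤ γ * L1 * (|v.z - w.z| + |v.l - w.l|) := by positivity
    nlinarith

/-- Continuity of the conserved quantities and fluxes. -/
private theorem l34_tendsto {γ : ℝ} (hγ : 1 < γ) {v : ℕ → St} {w : St} (hv : ∀ k, 0 < (v k).z)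
    (hw : 0 < w.z) (h1 : Tendsto (fun k => (v k).z) atTop (𝓝 w.z))
    (h2 : Tendsto (fun k => (v k).u) atTop (𝓝 w.u))
    (h3 : Tendsto (fun k => (v k).l) atTop (𝓝 w.l)) (j : Fin 4) :
    Tendsto (fun k => cq γ j (v k)) atTop (𝓝 (cq γ j w)) ∧
    Tendsto (fun k => cf γ j (v k)) atTop (𝓝 (cf γ j w)) := by
  have hr : Tendsto (fun k => rho γ (v k)) atTop (𝓝 (rho γ w)) := by
    unfold rho
    exact ((h1.rpow_const (Or.inl hw.ne')).const_mul γ).mul
      ((Real.continuous_exp.tendsto _).comp (h3.const_mul 2).neg)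
  have hp : Tendsto (fun k => prs γ (v k)) atTop (𝓝 (prs γ w)) := by
    unfold prs
    exact h1.rpow_const (Or.inl hw.ne')
  have hcq := fun k => cq_eq hγ (hv k)
  obtain ⟨c0, c1, c2, c3, d0, d1, d2, d3⟩ := cq_eq hγ hw
  fin_cases j
  · constructor
    · refine Tendsto.congr (fun k => ((hcq k).1).symm) ?_
      change Tendsto _ _ (𝓝 (cq γ 0 w))
      rw [c0]; exact hr
    · refine Tendsto.congr (fun k => ((hcq k).2.2.2.2.1).symm) ?_
      change Tendsto _ _ (𝓝 (cf γ 0 w))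
      rw [d0]; exact hr.mul h2
  · constructor
    · refine Tendsto.congr (fun k => ((hcq k).2.1).symm) ?_
      change Tendsto _ _ (𝓝 (cq γ 1 w))
      rw [c1]; exact hr.mul h2
    · refine Tendsto.congr (fun k => ((hcq k).2.2.2.2.2.1).symm) ?_
      change Tendsto _ _ (𝓝 (cf γ 1 w))
      rw [d1]; exact (hr.mul (h2.pow 2)).add hp
  · constructor
    · refine Tendsto.congr (fun k => ((hcq k).2.2.1).symm) ?_
      change Tendsto _ _ (𝓝 (cq γ 2 w))
      rw [c2]; exact ((hr.mul (h2.pow 2)).div_const 2).add (hp.div_const _)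
    · refine Tendsto.congr (fun k => ((hcq k).2.2.2.2.2.2.1).symm) ?_
      change Tendsto _ _ (𝓝 (cf γ 2 w))
      rw [d2]; exact (((hr.mul (h2.pow 2)).div_const 2).add (hp.const_mul _)).mul h2
  · constructor
    · refine Tendsto.congr (fun k => ((hcq k).2.2.2.1).symm) ?_
      change Tendsto _ _ (𝓝 (cq γ 3 w))
      rw [c3]; exact hr.mul ((h3.const_mul _).sub tendsto_const_nhds)
    · refine Tendsto.congr (fun k => ((hcq k).2.2.2.2.2.2.2).symm) ?_
      change Tendsto _ _ (𝓝 (cf γ 3 w))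
      rw [d3]; exact (hr.mul h2).mul ((h3.const_mul _).sub tendsto_const_nhds)

/-- Measurability. -/
private theorem l34_meas {γ : ℝ} {w : ℝ × ℝ → St} (h1 : Measurable (fun ζ => (w ζ).z))
    (h2 : Measurable (fun ζ => (w ζ).u)) (h3 : Measurable (fun ζ => (w ζ).l)) :
    Measurable (fun ζ => rho γ (w ζ)) ∧ Measurable (fun ζ => ien γ (w ζ)) ∧
    ∀ j : Fin 4, Measurable (fun ζ => cq γ j (w ζ)) ∧ Measurable (fun ζ => cf γ j (w ζ)) := by
  have hr : Measurable (fun ζ => rho γ (w ζ)) := by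
    unfold rho
    exact ((h1.pow_const _).const_mul γ).mul (h3.const_mul 2).neg.exp
  have hp : Measurable (fun ζ => prs γ (w ζ)) := by
    unfold prs
    exact h1.pow_const _
  have he : Measurable (fun ζ => ien γ (w ζ)) := by
    unfold ien
    exact hp.div (hr.const_mul _)
  have hpr : Measurable (fun ζ => pr γ (rho γ (w ζ)) (ien γ (w ζ))) := measurable_pr hr he
  have hent : Measurable (fun ζ => ent γ (rho γ (w ζ)) (ien γ (w ζ))) := measurable_ent hr he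
  have hen : Measurable (fun ζ => en (w ζ).u (ien γ (w ζ))) := measurable_en h2 he
  refine ⟨hr, he, fun j => ?_⟩
  fin_cases j
  · exact ⟨hr, hr.mul h2⟩
  · exact ⟨hr.mul h2, (hr.mul (h2.pow_const 2)).add hpr⟩
  · exact ⟨hr.mul hen, ((hr.mul hen).mul h2).add (hpr.mul h2)⟩
  · exact ⟨hr.mul hent, (hr.mul h2).mul hent⟩

/-- Bounds. -/
private theorem l34_bd {γ z₁ z₂ Λ U : ℝ} (hγ : 1 < γ) (hz : 0 < z₁) : ∃ M : ℝ, 0 < M ∧
    ∀ w : St, InB z₁ z₂ Λ w → |w.u| ≤ U → ∀ j : Fin 4, |cq γ j w| ≤ M ∧ |cf γ j w| ≤ M := by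
  obtain ⟨a', b', ha', hb⟩ := box_of (z₂ := z₂) (Λ := Λ) (U := U) hγ hz
  obtain ⟨M, hM0, hM⟩ := exists_bound (a := a') (b := b') hγ ha'
  refine ⟨M, hM0, fun w hw hu j => ?_⟩
  have h := hM _ _ _ (hb w hw hu)
  fin_cases j
  · exact ⟨h.1, h.2.1⟩
  · exact ⟨h.2.1, h.2.2.1⟩
  · exact ⟨h.2.2.2.1, h.2.2.2.2.1⟩
  · exact ⟨h.2.2.2.2.2.2.1, h.2.2.2.2.2.2.2⟩

/-- The integrals converge. -/
private theorem l34_int {γ z₁ z₂ Λ U T : ℝ} (hγ : 1 < γ) (hz : 0 < z₁) {v : ℕ → ℝ × ℝ → St}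
    {w : ℝ × ℝ → St} (hv : ∀ k ζ, InB z₁ z₂ Λ (v k ζ) ∧ |(v k ζ).u| ≤ U)
    (hw : ∀ ζ, InB z₁ z₂ Λ (w ζ) ∧ |(w ζ).u| ≤ U)
    (hm : ∀ k, Measurable (fun ζ => (v k ζ).z) ∧ Measurable (fun ζ => (v k ζ).u) ∧
      Measurable (fun ζ => (v k ζ).l))
    (h : ∀ᵐ ζ : ℝ × ℝ, 0 < ζ.1 → Tendsto (fun k => (v k ζ).z) atTop (𝓝 (w ζ).z) ∧
        Tendsto (fun k => (v k ζ).u) atTop (𝓝 (w ζ).u) ∧
        Tendsto (fun k => (v k ζ).l) atTop (𝓝 (w ζ).l)) {φ : ℝ × ℝ → ℝ} (hφ : IsTest T φ)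
    (j : Fin 4) :
    Tendsto (fun k => ∫ ζ in Strip T, (cq γ j (v k ζ) * dt φ ζ + cf γ j (v k ζ) * dx φ ζ)) atTop
      (𝓝 (∫ ζ in Strip T, (cq γ j (w ζ) * dt φ ζ + cf γ j (w ζ) * dx φ ζ))) := by
  obtain ⟨M, hM0, hM⟩ := l34_bd (z₂ := z₂) (Λ := Λ) (U := U) hγ hz
  have hl := hφ.isLipTest
  have i1 : IntegrableOn (fun ζ => (1 : ℝ) * dt φ ζ) (Strip T) :=
    hl.integrableOn_dt (F := fun _ => 1) (M := 1) measurable_const
      (Eventually.of_forall fun z _ => by simp)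
  have i2 : IntegrableOn (fun ζ => (1 : ℝ) * dx φ ζ) (Strip T) :=
    hl.integrableOn_dx (F := fun _ => 1) (M := 1) measurable_const
      (Eventually.of_forall fun z _ => by simp)
  refine tendsto_integral_of_dominated_convergence
    (fun ζ => M * |1 * dt φ ζ| + M * |1 * dx φ ζ|) ?_ ?_ ?_ ?_
  · intro k
    obtain ⟨-, -, hh⟩ := l34_meas (γ := γ) (hm k).1 (hm k).2.1 (hm k).2.2
    exact (((hh j).1.mul (measurable_dt φ)).add
      ((hh j).2.mul (measurable_dx φ))).aestronglyMeasurable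
  · exact (i1.abs.const_mul M).add (i2.abs.const_mul M)
  · intro k
    refine Eventually.of_forall fun ζ => ?_
    have h1 := hM _ (hv k ζ).1 (hv k ζ).2 j
    rw [Real.norm_eq_abs, one_mul, one_mul]
    refine (abs_add_le _ _).trans ?_
    rw [abs_mul, abs_mul]
    exact add_le_add (mul_le_mul_of_nonneg_right h1.1 (abs_nonneg _))
      (mul_le_mul_of_nonneg_right h1.2 (abs_nonneg _))
  · rw [ae_restrict_iff' (measurableSet_strip T)]
    filter_upwards [h] with ζ hζ hζT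
    obtain ⟨a1, a2, a3⟩ := hζ hζT.1
    obtain ⟨b1, b2⟩ := l34_tendsto hγ (fun k => hz.trans_le (hv k ζ).1.1)
      (hz.trans_le (hw ζ).1.1) a1 a2 a3 j
    exact (b1.mul tendsto_const_nhds).add (b2.mul tendsto_const_nhds)


private theorem l34_intg {f : ℝ → ℝ} (hf : Measurable f) {M : ℝ} (h : ∀ᵐ x : ℝ, |f x| ≤ M)
    (R : ℝ) : IntegrableOn f (Ioo (-R) R) := by
  refine Measure.integrableOn_of_bounded (M := M) ?_ hf.aestronglyMeasurable ?_
  · simp
  · exact ae_restrict_of_ae (by simpa [Real.norm_eq_abs] using h)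

private theorem l34_add3 {f g h : ℝ → ℝ} {s : Set ℝ} (hf : IntegrableOn f s)
    (hg : IntegrableOn g s) (hh : IntegrableOn h s) :
    IntegrableOn (fun x => f x + g x + h x) s ∧
    ∫ x in s, (f x + g x + h x) = (∫ x in s, f x) + (∫ x in s, g x) + ∫ x in s, h x := by
  have h1 : IntegrableOn (fun x => f x + g x) s := hf.add hg
  refine ⟨h1.add hh, ?_⟩
  have e1 : ∫ x in s, (f x + g x + h x) = (∫ x in s, (f x + g x)) + ∫ x in s, h x :=
    integral_add h1 hh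
  have e2 : ∫ x in s, (f x + g x) = (∫ x in s, f x) + ∫ x in s, g x := integral_add hf hg
  rw [e1, e2]

/-- The `L¹` distance to the data grows at most linearly in time. -/
private theorem l34_dist {γ z₁ z₂ Λ U C L a b : ℝ} {ρ₀ u₀ e₀ : ℝ → ℝ}
    {W : ℕ → ℝ × ℝ → St} {ε : ℕ → ℝ} (hγ : 1 < γ) (hz : 0 < z₁) (hL : 0 < L)
    (hLip : ∀ v w : St, InB z₁ z₂ Λ v → InB z₁ z₂ Λ w →
      |rho γ v - rho γ w| ≤ L * (|v.z - w.z| + |v.l - w.l|) ∧
      |ien γ v - ien γ w| ≤ L * (|v.z - w.z| + |v.l - w.l|)) (ha : 0 < a)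
    (hd : IsDatum a b ρ₀ u₀ e₀) (h : IsApprox γ z₁ z₂ Λ U C ρ₀ u₀ e₀ W ε) {φ : ℕ → ℕ}
    {w : ℝ × ℝ → St} (hφ : StrictMono φ) (hm : Measurable (fun ζ => (w ζ).z) ∧
      Measurable (fun ζ => (w ζ).u) ∧ Measurable (fun ζ => (w ζ).l))
    (hw : ∀ ζ, InB z₁ z₂ Λ (w ζ) ∧ |(w ζ).u| ≤ U)
    (hc : ∀ t R : ℝ, 0 ≤ t → 0 < R → Tendsto (fun k => ∫ x in Ioo (-R) R,
        (|(W (φ k) (t, x)).z - (w (t, x)).z| + |(W (φ k) (t, x)).u - (w (t, x)).u| +
          |(W (φ k) (t, x)).l - (w (t, x)).l|)) atTop (𝓝 0)) {t R : ℝ} (ht : 0 ≤ t)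
    (hR : 0 < R) :
    ∫ x in Ioo (-R) R, (|rho γ (w (t, x)) - ρ₀ x| + |(w (t, x)).u - u₀ x| +
      |ien γ (w (t, x)) - e₀ x|) ≤ (2 * L + 1) * (3 * (C * t)) := by
  obtain ⟨a', b', ha', hbox⟩ := box_of (z₂ := z₂) (Λ := Λ) (U := U) hγ hz
  have hi := h.init R hR
  have hi' : Tendsto (fun k => ∫ x in Ioo (-R) R,
      (|rho γ (W (φ k) (0, x)) - ρ₀ x| + |(W (φ k) (0, x)).u - u₀ x| +
        |ien γ (W (φ k) (0, x)) - e₀ x|)) atTop (𝓝 0) := hi.comp hφ.tendsto_atTop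
  have hε : Tendsto (fun k => ε (φ k)) atTop (𝓝 0) := h.lim.comp hφ.tendsto_atTop
  have hlim : Tendsto (fun k => (2 * L + 1) * (∫ x in Ioo (-R) R,
        (|(W (φ k) (t, x)).z - (w (t, x)).z| + |(W (φ k) (t, x)).u - (w (t, x)).u| +
          |(W (φ k) (t, x)).l - (w (t, x)).l|)) + (2 * L + 1) * (3 * (C * (t - 0 + ε (φ k)))) +
        ∫ x in Ioo (-R) R,
      (|rho γ (W (φ k) (0, x)) - ρ₀ x| + |(W (φ k) (0, x)).u - u₀ x| +
        |ien γ (W (φ k) (0, x)) - e₀ x|)) atTop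
      (𝓝 ((2 * L + 1) * 0 + (2 * L + 1) * (3 * (C * (t - 0 + 0))) + 0)) :=
    (((hc t R ht hR).const_mul _).add (((tendsto_const_nhds.add hε).const_mul C).const_mul
      3 |>.const_mul _)).add hi'
  have hlim' : (2 * L + 1) * 0 + (2 * L + 1) * (3 * (C * (t - 0 + 0))) + 0 =
      (2 * L + 1) * (3 * (C * t)) := by ring
  rw [hlim'] at hlim
  refine ge_of_tendsto' hlim fun k => ?_
  -- measurability
  have hsec : ∀ {f : ℝ × ℝ → ℝ} (s : ℝ), Measurable f → Measurable (fun x => f (s, x)) :=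
    fun s hf => hf.comp measurable_prodMk_left
  obtain ⟨mr, me, -⟩ := l34_meas (γ := γ) hm.1 hm.2.1 hm.2.2
  obtain ⟨mr', me', -⟩ := l34_meas (γ := γ) (h.meas (φ k)).1 (h.meas (φ k)).2.1
    (h.meas (φ k)).2.2
  -- integrability
  have hb : ∀ v : St, InB z₁ z₂ Λ v → |v.u| ≤ U → |rho γ v| ≤ b' ∧ |v.u| ≤ b' ∧
      |ien γ v| ≤ b' := by
    intro v h1 h2
    obtain ⟨c1, c2, c3, c4, c5⟩ := hbox v h1 h2
    exact ⟨by rw [abs_of_pos (ha'.trans_le c1)]; exact c2, c3,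
      by rw [abs_of_pos (ha'.trans_le c4)]; exact c5⟩
  have hb0 : ∀ᵐ x : ℝ, |ρ₀ x| ≤ b ∧ |u₀ x| ≤ b ∧ |e₀ x| ≤ b := by
    filter_upwards [hd.box] with x ⟨c1, c2, c3, c4, c5⟩
    exact ⟨by rw [abs_of_pos (ha.trans_le c1)]; exact c2, c3,
      by rw [abs_of_pos (ha.trans_le c4)]; exact c5⟩
  have iA : ∀ s : ℝ, ∀ v : ℝ × ℝ → St, (∀ ζ, InB z₁ z₂ Λ (v ζ) ∧ |(v ζ).u| ≤ U) →
      (Measurable (fun ζ => rho γ (v ζ)) ∧ Measurable (fun ζ => (v ζ).u) ∧
        Measurable (fun ζ => ien γ (v ζ))) →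
      IntegrableOn (fun x => |rho γ (v (s, x)) - ρ₀ x| + |(v (s, x)).u - u₀ x| +
        |ien γ (v (s, x)) - e₀ x|) (Ioo (-R) R) := by
    intro s v hv hmv
    refine l34_intg (M := (b' + b) + (b' + b) + (b' + b)) ?_ ?_ R
    · exact ((((hsec s hmv.1).sub hd.meas_ρ).abs.add ((hsec s hmv.2.1).sub hd.meas_u).abs).add
        ((hsec s hmv.2.2).sub hd.meas_e).abs)
    · filter_upwards [hb0] with x ⟨d1, d2, d3⟩
      obtain ⟨c1, c2, c3⟩ := hb _ (hv (s, x)).1 (hv (s, x)).2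
      rw [abs_of_nonneg (by positivity)]
      exact add_le_add (add_le_add ((abs_sub _ _).trans (add_le_add c1 d1))
        ((abs_sub _ _).trans (add_le_add c2 d2))) ((abs_sub _ _).trans (add_le_add c3 d3))
  have iB : ∀ s s' : ℝ, ∀ v v' : ℝ × ℝ → St, (∀ ζ, InB z₁ z₂ Λ (v ζ) ∧ |(v ζ).u| ≤ U) →
      (∀ ζ, InB z₁ z₂ Λ (v' ζ) ∧ |(v' ζ).u| ≤ U) →
      (Measurable (fun ζ => (v ζ).z) ∧ Measurable (fun ζ => (v ζ).u) ∧
        Measurable (fun ζ => (v ζ).l)) →
      (Measurable (fun ζ => (v' ζ).z) ∧ Measurable (fun ζ => (v' ζ).u) ∧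
        Measurable (fun ζ => (v' ζ).l)) →
      IntegrableOn (fun x => |(v (s, x)).z - (v' (s', x)).z|) (Ioo (-R) R) ∧
      IntegrableOn (fun x => |(v (s, x)).u - (v' (s', x)).u|) (Ioo (-R) R) ∧
      IntegrableOn (fun x => |(v (s, x)).l - (v' (s', x)).l|) (Ioo (-R) R) := by
    intro s s' v v' hv hv' hmv hmv'
    refine ⟨?_, ?_, ?_⟩
    · refine l34_intg (M := z₂ + z₂) ((hsec s hmv.1).sub (hsec s' hmv'.1)).abs
        (Eventually.of_forall fun x => ?_) R
      have c1 := (hv (s, x)).1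
      have c2 := (hv' (s', x)).1
      rw [abs_abs]
      refine (abs_sub _ _).trans (add_le_add ?_ ?_)
      · rw [abs_of_pos (hz.trans_le c1.1)]; exact c1.2.1
      · rw [abs_of_pos (hz.trans_le c2.1)]; exact c2.2.1
    · refine l34_intg (M := U + U) ((hsec s hmv.2.1).sub (hsec s' hmv'.2.1)).abs
        (Eventually.of_forall fun x => ?_) R
      rw [abs_abs]
      exact (abs_sub _ _).trans (add_le_add (hv (s, x)).2 (hv' (s', x)).2)
    · refine l34_intg (M := Λ + Λ) ((hsec s hmv.2.2).sub (hsec s' hmv'.2.2)).abs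
        (Eventually.of_forall fun x => ?_) R
      rw [abs_abs]
      exact (abs_sub _ _).trans (add_le_add (hv (s, x)).1.2.2 (hv' (s', x)).1.2.2)
  have i0 := iA 0 (W (φ k)) (h.box (φ k)) ⟨mr', (h.meas (φ k)).2.1, me'⟩
  have it := iA t w hw ⟨mr, hm.2.1, me⟩
  obtain ⟨j1, j2, j3⟩ := iB t t (W (φ k)) w (h.box (φ k)) hw (h.meas (φ k)) hm
  obtain ⟨k1, k2, k3⟩ := iB t 0 (W (φ k)) (W (φ k)) (h.box (φ k)) (h.box (φ k)) (h.meas (φ k))
    (h.meas (φ k))
  obtain ⟨l1, l2, l3⟩ := h.lip (φ k) 0 t R le_rfl ht hR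
  have hlip3 : ∫ x in Ioo (-R) R, (|(W (φ k) (t, x)).z - (W (φ k) (0, x)).z| +
      |(W (φ k) (t, x)).u - (W (φ k) (0, x)).u| + |(W (φ k) (t, x)).l - (W (φ k) (0, x)).l|) ≤
      3 * (C * (t - 0 + ε (φ k))) := by
    rw [(l34_add3 k1 k2 k3).2]
    linarith
  have hpt : ∀ x : ℝ, |rho γ (w (t, x)) - ρ₀ x| + |(w (t, x)).u - u₀ x| +
      |ien γ (w (t, x)) - e₀ x| ≤
      (2 * L + 1) * (|(W (φ k) (t, x)).z - (w (t, x)).z| +
        |(W (φ k) (t, x)).u - (w (t, x)).u| + |(W (φ k) (t, x)).l - (w (t, x)).l|) +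
      (2 * L + 1) * (|(W (φ k) (t, x)).z - (W (φ k) (0, x)).z| +
      |(W (φ k) (t, x)).u - (W (φ k) (0, x)).u| + |(W (φ k) (t, x)).l - (W (φ k) (0, x)).l|) +
      (|rho γ (W (φ k) (0, x)) - ρ₀ x| + |(W (φ k) (0, x)).u - u₀ x| +
        |ien γ (W (φ k) (0, x)) - e₀ x|) := by
    intro x
    obtain ⟨a1, a2⟩ := hLip _ _ (h.box (φ k) (t, x)).1 (hw (t, x)).1
    obtain ⟨b1, b2⟩ := hLip _ _ (h.box (φ k) (t, x)).1 (h.box (φ k) (0, x)).1
    have c1 : |rho γ (w (t, x)) - ρ₀ x| ≤ |rho γ (W (φ k) (t, x)) - rho γ (w (t, x))| +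
        |rho γ (W (φ k) (t, x)) - rho γ (W (φ k) (0, x))| +
        |rho γ (W (φ k) (0, x)) - ρ₀ x| := by
      rw [abs_sub_comm (rho γ (W (φ k) (t, x))) (rho γ (w (t, x)))]
      exact (abs_sub_le _ (rho γ (W (φ k) (0, x))) _).trans
        (add_le_add_left (abs_sub_le _ (rho γ (W (φ k) (t, x))) _) _)
    have c2 : |ien γ (w (t, x)) - e₀ x| ≤ |ien γ (W (φ k) (t, x)) - ien γ (w (t, x))| +
        |ien γ (W (φ k) (t, x)) - ien γ (W (φ k) (0, x))| +
        |ien γ (W (φ k) (0, x)) - e₀ x| := by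
      rw [abs_sub_comm (ien γ (W (φ k) (t, x))) (ien γ (w (t, x)))]
      exact (abs_sub_le _ (ien γ (W (φ k) (0, x))) _).trans
        (add_le_add_left (abs_sub_le _ (ien γ (W (φ k) (t, x))) _) _)
    have c3 : |(w (t, x)).u - u₀ x| ≤ |(W (φ k) (t, x)).u - (w (t, x)).u| +
        |(W (φ k) (t, x)).u - (W (φ k) (0, x)).u| +
        |(W (φ k) (0, x)).u - u₀ x| := by
      rw [abs_sub_comm (W (φ k) (t, x)).u (w (t, x)).u]
      exact (abs_sub_le _ (W (φ k) (0, x)).u _).trans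
        (add_le_add_left (abs_sub_le _ (W (φ k) (t, x)).u _) _)
    have p1 := abs_nonneg ((W (φ k) (t, x)).z - (w (t, x)).z)
    have p2 := abs_nonneg ((W (φ k) (t, x)).l - (w (t, x)).l)
    have p3 : 0 ≤ L * |(W (φ k) (t, x)).u - (w (t, x)).u| := by positivity
    have q1 := abs_nonneg ((W (φ k) (t, x)).z - (W (φ k) (0, x)).z)
    have q2 := abs_nonneg ((W (φ k) (t, x)).l - (W (φ k) (0, x)).l)
    have q3 : 0 ≤ L * |(W (φ k) (t, x)).u - (W (φ k) (0, x)).u| := by positivity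
    linarith
  calc ∫ x in Ioo (-R) R, (|rho γ (w (t, x)) - ρ₀ x| + |(w (t, x)).u - u₀ x| +
      |ien γ (w (t, x)) - e₀ x|)
      ≤ ∫ x in Ioo (-R) R, ((2 * L + 1) * (|(W (φ k) (t, x)).z - (w (t, x)).z| +
        |(W (φ k) (t, x)).u - (w (t, x)).u| + |(W (φ k) (t, x)).l - (w (t, x)).l|) +
      (2 * L + 1) * (|(W (φ k) (t, x)).z - (W (φ k) (0, x)).z| +
      |(W (φ k) (t, x)).u - (W (φ k) (0, x)).u| + |(W (φ k) (t, x)).l - (W (φ k) (0, x)).l|) +
      (|rho γ (W (φ k) (0, x)) - ρ₀ x| + |(W (φ k) (0, x)).u - u₀ x| +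
        |ien γ (W (φ k) (0, x)) - e₀ x|)) := by
        exact setIntegral_mono it (l34_add3 ((l34_add3 j1 j2 j3).1.const_mul _)
          ((l34_add3 k1 k2 k3).1.const_mul _) i0).1 hpt
    _ = (2 * L + 1) * (∫ x in Ioo (-R) R, (|(W (φ k) (t, x)).z - (w (t, x)).z| +
        |(W (φ k) (t, x)).u - (w (t, x)).u| + |(W (φ k) (t, x)).l - (w (t, x)).l|)) +
      (2 * L + 1) * (∫ x in Ioo (-R) R, (|(W (φ k) (t, x)).z - (W (φ k) (0, x)).z| +
      |(W (φ k) (t, x)).u - (W (φ k) (0, x)).u| + |(W (φ k) (t, x)).l - (W (φ k) (0, x)).l|)) +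
      ∫ x in Ioo (-R) R, (|rho γ (W (φ k) (0, x)) - ρ₀ x| + |(W (φ k) (0, x)).u - u₀ x| +
        |ien γ (W (φ k) (0, x)) - e₀ x|) := by
        rw [(l34_add3 ((l34_add3 j1 j2 j3).1.const_mul _)
          ((l34_add3 k1 k2 k3).1.const_mul _) i0).2, integral_const_mul, integral_const_mul]
    _ ≤ _ := by
        have : 0 ≤ 2 * L + 1 := by linarith
        gcongr

/-- The variation of the limit. -/
private theorem l34_tv {γ z₁ z₂ Λ U C : ℝ} {ρ₀ u₀ e₀ : ℝ → ℝ}
    {W : ℕ → ℝ × ℝ → St} {ε : ℕ → ℝ} (hz : 0 < z₁)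
    (h : IsApprox γ z₁ z₂ Λ U C ρ₀ u₀ e₀ W ε) {φ : ℕ → ℕ}
    {w : ℝ × ℝ → St} (hφ : StrictMono φ) (hm : Measurable (fun ζ => (w ζ).z) ∧
      Measurable (fun ζ => (w ζ).u) ∧ Measurable (fun ζ => (w ζ).l))
    (hw : ∀ ζ, InB z₁ z₂ Λ (w ζ) ∧ |(w ζ).u| ≤ U)
    (hc : ∀ t R : ℝ, 0 ≤ t → 0 < R → Tendsto (fun k => ∫ x in Ioo (-R) R,
        (|(W (φ k) (t, x)).z - (w (t, x)).z| + |(W (φ k) (t, x)).u - (w (t, x)).u| +
          |(W (φ k) (t, x)).l - (w (t, x)).l|)) atTop (𝓝 0)) {t : ℝ} (ht : 0 ≤ t) :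
    eTV (fun x => (w (t, x)).z) ≤ ENNReal.ofReal (C * (tv₀ γ ρ₀ u₀ e₀).toReal) ∧
    eTV (fun x => (w (t, x)).u) ≤ ENNReal.ofReal (C * (tv₀ γ ρ₀ u₀ e₀).toReal) ∧
    eTV (fun x => (w (t, x)).l) ≤ ENNReal.ofReal C := by
  have hsec : ∀ {f : ℝ × ℝ → ℝ} (s : ℝ), Measurable f → Measurable (fun x => f (s, x)) :=
    fun s hf => hf.comp measurable_prodMk_left
  have hε : Tendsto (fun k => ε (φ k)) atTop (𝓝 0) := h.lim.comp hφ.tendsto_atTop
  have hV : Tendsto (fun k => C * ((tv₀ γ ρ₀ u₀ e₀).toReal + ε (φ k))) atTop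
      (𝓝 (C * (tv₀ γ ρ₀ u₀ e₀).toReal)) := by
    have := (tendsto_const_nhds (x := (tv₀ γ ρ₀ u₀ e₀).toReal)).add hε |>.const_mul C
    simpa using this
  have bz : ∀ v : St, InB z₁ z₂ Λ v → |v.z| ≤ z₂ := fun v hv => by
    rw [abs_of_pos (hz.trans_le hv.1)]; exact hv.2.1
  have iz : ∀ k R, IntegrableOn (fun x => |(W (φ k) (t, x)).z - (w (t, x)).z|)
      (Ioo (-R) R) := by
    intro k R
    refine l34_intg (M := z₂ + z₂) ((hsec t (h.meas _).1).sub (hsec t hm.1)).abs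
        (Eventually.of_forall fun x => ?_) R
    rw [abs_abs]
    exact (abs_sub _ _).trans (add_le_add (bz _ (h.box _ _).1) (bz _ (hw _).1))
  have iu : ∀ k R, IntegrableOn (fun x => |(W (φ k) (t, x)).u - (w (t, x)).u|)
      (Ioo (-R) R) := by
    intro k R
    refine l34_intg (M := U + U) ((hsec t (h.meas _).2.1).sub (hsec t hm.2.1)).abs
        (Eventually.of_forall fun x => ?_) R
    rw [abs_abs]
    exact (abs_sub _ _).trans (add_le_add (h.box _ _).2 (hw _).2)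
  have il : ∀ k R, IntegrableOn (fun x => |(W (φ k) (t, x)).l - (w (t, x)).l|)
      (Ioo (-R) R) := by
    intro k R
    refine l34_intg (M := Λ + Λ) ((hsec t (h.meas _).2.2).sub (hsec t hm.2.2)).abs
        (Eventually.of_forall fun x => ?_) R
    rw [abs_abs]
    exact (abs_sub _ _).trans (add_le_add (h.box _ _).1.2.2 (hw _).1.2.2)
  have isum : ∀ k R, IntegrableOn (fun x => |(W (φ k) (t, x)).z - (w (t, x)).z| +
      |(W (φ k) (t, x)).u - (w (t, x)).u| + |(W (φ k) (t, x)).l - (w (t, x)).l|)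
      (Ioo (-R) R) := fun k R => ((iz k R).add (iu k R)).add (il k R)
  refine ⟨?_, ?_, ?_⟩
  · refine eTV_le_of_tendsto (M := z₂) (V := fun k => C * ((tv₀ γ ρ₀ u₀ e₀).toReal + ε (φ k)))
      (f := fun k x => (W (φ k) (t, x)).z) (fun k => hsec t (h.meas _).1) (hsec t hm.1)
      (fun k x => bz _ (h.box _ _).1) (fun x => bz _ (hw _).1)
      (fun k => (h.var (φ k) t ht).1) hV fun R hR => ?_
    refine squeeze_zero (fun k => integral_nonneg fun x => abs_nonneg _) (fun k => ?_)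
      (hc t R ht hR)
    refine setIntegral_mono (iz k R) (isum k R) fun x => ?_
    have := abs_nonneg ((W (φ k) (t, x)).u - (w (t, x)).u)
    have := abs_nonneg ((W (φ k) (t, x)).l - (w (t, x)).l)
    dsimp only
    linarith
  · refine eTV_le_of_tendsto (M := U) (V := fun k => C * ((tv₀ γ ρ₀ u₀ e₀).toReal + ε (φ k)))
      (f := fun k x => (W (φ k) (t, x)).u) (fun k => hsec t (h.meas _).2.1) (hsec t hm.2.1)
      (fun k x => (h.box _ _).2) (fun x => (hw _).2)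
      (fun k => (h.var (φ k) t ht).2.1) hV fun R hR => ?_
    refine squeeze_zero (fun k => integral_nonneg fun x => abs_nonneg _) (fun k => ?_)
      (hc t R ht hR)
    refine setIntegral_mono (iu k R) (isum k R) fun x => ?_
    have := abs_nonneg ((W (φ k) (t, x)).z - (w (t, x)).z)
    have := abs_nonneg ((W (φ k) (t, x)).l - (w (t, x)).l)
    dsimp only
    linarith
  · refine eTV_le_of_tendsto (M := Λ) (V := fun _ => C)
      (f := fun k x => (W (φ k) (t, x)).l) (fun k => hsec t (h.meas _).2.2) (hsec t hm.2.2)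
      (fun k x => (h.box _ _).1.2.2) (fun x => (hw _).1.2.2)
      (fun k => (h.var (φ k) t ht).2.2) tendsto_const_nhds fun R hR => ?_
    refine squeeze_zero (fun k => integral_nonneg fun x => abs_nonneg _) (fun k => ?_)
      (hc t R ht hR)
    refine setIntegral_mono (il k R) (isum k R) fun x => ?_
    have := abs_nonneg ((W (φ k) (t, x)).z - (w (t, x)).z)
    have := abs_nonneg ((W (φ k) (t, x)).u - (w (t, x)).u)
    dsimp only
    linarith

private theorem l34_proj {z₁ Z : ℝ} (hZ : z₁ ≤ Z) (x y : ℝ) :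
    z₁ ≤ max z₁ (min x Z) ∧ max z₁ (min x Z) ≤ Z ∧
    |max z₁ (min x Z) - max z₁ (min y Z)| ≤ |x - y| := by
  refine ⟨le_max_left _ _, max_le hZ (min_le_right _ _), ?_⟩
  rcases le_total x y with h | h
  · rw [abs_sub_comm, abs_sub_comm x, abs_of_nonneg, abs_of_nonneg (by linarith)]
    · rcases le_total x Z with h1 | h1 <;> rcases le_total y Z with h2 | h2 <;>
        simp only [min_eq_left h1, min_eq_right h1, min_eq_left h2, min_eq_right h2] <;>
        rcases le_total z₁ x with h3 | h3 <;> rcases le_total z₁ y with h4 | h4 <;>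
        simp only [max_eq_left h3, max_eq_right h3, max_eq_left h4, max_eq_right h4,
          max_eq_right hZ] <;> linarith
    · exact sub_nonneg.2 (max_le_max le_rfl (min_le_min h le_rfl))
  · rw [abs_of_nonneg, abs_of_nonneg (by linarith : 0 ≤ x - y)]
    · rcases le_total x Z with h1 | h1 <;> rcases le_total y Z with h2 | h2 <;>
        simp only [min_eq_left h1, min_eq_right h1, min_eq_left h2, min_eq_right h2] <;>
        rcases le_total z₁ x with h3 | h3 <;> rcases le_total z₁ y with h4 | h4 <;>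
        simp only [max_eq_left h3, max_eq_right h3, max_eq_left h4, max_eq_right h4,
          max_eq_right hZ] <;> linarith
    · exact sub_nonneg.2 (max_le_max le_rfl (min_le_min h le_rfl))

theorem exists_limit {γ z₁ z₂ Λ U C : ℝ} (hγ : 1 < γ) (hz : 0 < z₁) (hC : 0 < C) :
    ∃ C' a' b' : ℝ, 0 < a' ∧ ∀ (ρ₀ u₀ e₀ : ℝ → ℝ) (W : ℕ → ℝ × ℝ → St) (ε : ℕ → ℝ)
      (a b : ℝ), 0 < a → IsDatum a b ρ₀ u₀ e₀ → tv₀ γ ρ₀ u₀ e₀ ≤ 1 →
      IsApprox γ z₁ z₂ Λ U C ρ₀ u₀ e₀ W ε →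
      ∃ ρ u e : ℝ × ℝ → ℝ, (∀ T : ℝ, 0 < T → IsSol γ T a' b' ρ u e ∧
        Attains T ρ u e ρ₀ u₀ e₀) ∧
        ∀ t : ℝ, 0 < t →
          eTV (sl u t) + eTV (fun x => pr γ (ρ (t, x)) (e (t, x))) ≤
            ENNReal.ofReal C' * tv₀ γ ρ₀ u₀ e₀ ∧
          eTV (fun x => Real.log (ρ (t, x))) ≤ ENNReal.ofReal C' := by
  obtain ⟨a', b', ha', hbox⟩ := box_of (z₂ := z₂) (Λ := Λ) (U := U) hγ hz
  obtain ⟨L, hL, hLip⟩ := l34_lips (z₂ := z₂) (Λ := Λ) hγ hz
  have hγ0 : 0 < γ := by linarith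
  have hγ1 : 0 < γ - 1 := by linarith
  set Z := max z₁ z₂ with hZ
  obtain ⟨L₂, hL₂, hLip₂⟩ := l34_lip (z₂ := Z) (Λ := 0) hz (2 * γ / (γ - 1)) 0
  set α : ℝ := 1 / γ * (2 * γ / (γ - 1)) with hα
  have hα0 : 0 < α := by positivity
  set L₃ : ℝ := α / z₁ + 2 with hL₃
  have hL₃0 : 0 < L₃ := by positivity
  refine ⟨C + 2 * L₂ * C + 2 * L₃ * C, a', b', ha', ?_⟩
  intro ρ₀ u₀ e₀ W ε a b ha hd htv h
  obtain ⟨φ, w, hφ, hm, hw, hc, hae⟩ := exists_sub hC h
  obtain ⟨mr, me, -⟩ := l34_meas (γ := γ) hm.1 hm.2.1 hm.2.2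
  have hbd := fun ζ => hbox (w ζ) (hw ζ).1 (hw ζ).2
  refine ⟨fun ζ => rho γ (w ζ), fun ζ => (w ζ).u, fun ζ => ien γ (w ζ), ?_, ?_⟩
  · intro T hT
    have hint := fun {ψ : ℝ × ℝ → ℝ} (hψ : IsTest T ψ) (j : Fin 4) =>
      l34_int (v := fun k => W (φ k)) hγ hz (fun k ζ => h.box (φ k) ζ) hw
        (fun k => h.meas (φ k)) hae hψ j
    have law : ∀ j : Fin 4, j ≠ 3 → ∀ ψ : ℝ × ℝ → ℝ, IsTest T ψ →
        ∫ ζ in Strip T, (cq γ j (w ζ) * dt ψ ζ + cf γ j (w ζ) * dx ψ ζ) = 0 := by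
      intro j hj ψ hψ
      exact tendsto_nhds_unique (hint hψ j) ((h.weak T ψ hT hψ j hj).comp hφ.tendsto_atTop)
    have law3 : ∀ ψ : ℝ × ℝ → ℝ, IsTest T ψ → (∀ z, 0 ≤ ψ z) →
        ∫ ζ in Strip T, (cq γ 3 (w ζ) * dt ψ ζ + cf γ 3 (w ζ) * dx ψ ζ) ≤ 0 := by
      intro ψ hψ hψ0
      refine le_of_forall_pos_le_add fun η hη => ?_
      rw [zero_add]
      exact le_of_tendsto (hint hψ 3) (hφ.tendsto_atTop.eventually (h.weak₃ T ψ hT hψ hψ0 η hη))
    refine ⟨⟨mr, hm.2.1, me, Eventually.of_forall fun ζ _ => hbd ζ,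
      fun ψ hψ => law 0 (by decide) ψ hψ, fun ψ hψ => law 1 (by decide) ψ hψ,
      fun ψ hψ => law 2 (by decide) ψ hψ, fun ψ hψ hψ0 => law3 ψ hψ hψ0⟩, ?_⟩
    intro R η hR hη
    set K : ℝ := (2 * L + 1) * (3 * C) with hK
    have hK0 : 0 < K := by positivity
    refine ⟨min (T / 2) (η / (2 * K)), lt_min (by linarith) (by positivity),
      (min_le_left _ _).trans_lt (by linarith), Eventually.of_forall fun t ht => ?_⟩
    have h1 := l34_dist hγ hz hL hLip ha hd h hφ hm hw hc ht.1.le hR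
    have h2 : t < η / (2 * K) := ht.2.trans_le (min_le_right _ _)
    have h3 : K * t ≤ η / 2 := by
      have := mul_le_mul_of_nonneg_left h2.le hK0.le
      have h4 : K * (η / (2 * K)) = η / 2 := by field_simp
      linarith
    have h4 : dist1 R (sl (fun ζ => rho γ (w ζ)) t) (sl (fun ζ => (w ζ).u) t)
      (sl (fun ζ => ien γ (w ζ)) t) ρ₀ u₀ e₀ ≤ (2 * L + 1) * (3 * (C * t)) := h1
    have h5 : (2 * L + 1) * (3 * (C * t)) = K * t := by rw [hK]; ring
    linarith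
  · intro t ht
    obtain ⟨v1, v2, v3⟩ := l34_tv hz h hφ hm hw hc ht.le
    set τ := (tv₀ γ ρ₀ u₀ e₀).toReal with hτ
    have htop : tv₀ γ ρ₀ u₀ e₀ ≠ ⊤ := ne_top_of_le_ne_top ENNReal.one_ne_top htv
    have hτ1 : τ ≤ 1 := by
      have := ENNReal.toReal_mono ENNReal.one_ne_top htv
      simpa using this
    have hτ0 : 0 ≤ τ := ENNReal.toReal_nonneg
    have hτt : tv₀ γ ρ₀ u₀ e₀ = ENNReal.ofReal τ := (ENNReal.ofReal_toReal htop).symm
    have hproj : ∀ x, max z₁ (min (w (t, x)).z Z) = (w (t, x)).z := by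
      intro x
      have c := (hw (t, x)).1
      rw [min_eq_left (c.2.1.trans (le_max_right _ _)), max_eq_right c.1]
    have hw0 : ∀ x, 0 < (w (t, x)).z := fun x => hz.trans_le (hw (t, x)).1.1
    have hZ1 : z₁ ≤ Z := le_max_left _ _
    -- pressure
    have e1 : eTV (fun x => pr γ (rho γ (w (t, x))) (ien γ (w (t, x)))) ≤
        ENNReal.ofReal L₂ * (eTV (fun x => (w (t, x)).z) + eTV (fun x => (w (t, x)).z)) := by
      have : (fun x => pr γ (rho γ (w (t, x))) (ien γ (w (t, x)))) =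
          fun x => (fun a _ : ℝ => (max z₁ (min a Z)) ^ (2 * γ / (γ - 1)))
            ((w (t, x)).z) ((w (t, x)).z) := by
        funext x
        rw [pr_eq hγ (hw0 x)]
        dsimp only
        rw [hproj x]
        rfl
      rw [this]
      refine l34_eTV2 (F := fun a _ : ℝ => (max z₁ (min a Z)) ^ (2 * γ / (γ - 1)))
        (f := fun x => (w (t, x)).z) (g := fun x => (w (t, x)).z) hL₂ ?_
      intro p q p' q'
      obtain ⟨c1, c2, c3⟩ := l34_proj hZ1 p p'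
      obtain ⟨d1, d2, d3⟩ := l34_proj hZ1 p' p
      have := hLip₂ (max z₁ (min p Z)) 0 (max z₁ (min p' Z)) 0 c1 c2 (by simp) d1 d2 (by simp)
      simp only [zero_mul, Real.exp_zero, mul_one, sub_self, abs_zero, add_zero] at this
      refine this.trans (mul_le_mul_of_nonneg_left ?_ hL₂.le)
      linarith [abs_nonneg (q - q')]
    -- density
    have e2 : eTV (fun x => Real.log (rho γ (w (t, x)))) ≤
        ENNReal.ofReal L₃ * (eTV (fun x => (w (t, x)).z) + eTV (fun x => (w (t, x)).l)) := by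
      have : (fun x => Real.log (rho γ (w (t, x)))) =
          fun x => (fun a b : ℝ => Real.log γ + α * Real.log (max z₁ (min a Z)) - 2 * b)
            ((w (t, x)).z) ((w (t, x)).l) := by
        funext x
        rw [log_rho hγ (hw0 x)]
        dsimp only
        rw [hproj x]
        unfold prs
        rw [Real.log_rpow (hw0 x), hα]
        ring
      rw [this]
      refine l34_eTV2
        (F := fun a b : ℝ => Real.log γ + α * Real.log (max z₁ (min a Z)) - 2 * b)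
        (f := fun x => (w (t, x)).z) (g := fun x => (w (t, x)).l) hL₃0 ?_
      intro p q p' q'
      obtain ⟨c1, c2, c3⟩ := l34_proj hZ1 p p'
      obtain ⟨d1, d2, d3⟩ := l34_proj hZ1 p' p
      have e3 := l34_log hz c1 d1
      have e4 : Real.log γ + α * Real.log (max z₁ (min p Z)) - 2 * q -
          (Real.log γ + α * Real.log (max z₁ (min p' Z)) - 2 * q') =
          α * (Real.log (max z₁ (min p Z)) - Real.log (max z₁ (min p' Z))) -
            2 * (q - q') := by ring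
      rw [e4]
      refine (abs_sub _ _).trans ?_
      rw [abs_mul α, abs_mul 2, abs_of_pos hα0, abs_of_pos (by norm_num : (0 : ℝ) < 2)]
      have e5 : α * |Real.log (max z₁ (min p Z)) - Real.log (max z₁ (min p' Z))| ≤
          α / z₁ * |p - p'| := by
        refine (mul_le_mul_of_nonneg_left e3 hα0.le).trans ?_
        have : α / z₁ * |p - p'| = α * (|p - p'| / z₁) := by ring
        rw [this]
        exact mul_le_mul_of_nonneg_left (div_le_div_of_nonneg_right c3 hz.le) hα0.le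
      have e6 : 0 ≤ α / z₁ * |q - q'| := by positivity
      rw [hL₃]
      linarith [abs_nonneg (p - p'), abs_nonneg (q - q')]
    constructor
    · have hu : eTV (sl (fun ζ => (w ζ).u) t) ≤ ENNReal.ofReal (C * τ) := v2
      calc eTV (sl (fun ζ => (w ζ).u) t) +
            eTV (fun x => pr γ (rho γ (w (t, x))) (ien γ (w (t, x))))
          ≤ ENNReal.ofReal (C * τ) + ENNReal.ofReal L₂ * (ENNReal.ofReal (C * τ) +
            ENNReal.ofReal (C * τ)) := by
            refine add_le_add hu (e1.trans ?_)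
            gcongr
        _ = ENNReal.ofReal ((C + 2 * L₂ * C) * τ) := by
            rw [← ENNReal.ofReal_add (by positivity) (by positivity),
              ← ENNReal.ofReal_mul hL₂.le, ← ENNReal.ofReal_add (by positivity) (by positivity)]
            congr 1
            ring
        _ ≤ ENNReal.ofReal ((C + 2 * L₂ * C + 2 * L₃ * C) * τ) := by
            refine ENNReal.ofReal_le_ofReal (mul_le_mul_of_nonneg_right ?_ hτ0)
            have : 0 < 2 * L₃ * C := by positivity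
            linarith
        _ = ENNReal.ofReal (C + 2 * L₂ * C + 2 * L₃ * C) * tv₀ γ ρ₀ u₀ e₀ := by
            rw [hτt, ← ENNReal.ofReal_mul (by positivity)]
    · refine e2.trans ?_
      calc ENNReal.ofReal L₃ * (eTV (fun x => (w (t, x)).z) + eTV (fun x => (w (t, x)).l))
          ≤ ENNReal.ofReal L₃ * (ENNReal.ofReal (C * τ) + ENNReal.ofReal C) := by gcongr
        _ = ENNReal.ofReal (L₃ * (C * τ + C)) := by
            rw [← ENNReal.ofReal_add (by positivity) hC.le, ← ENNReal.ofReal_mul hL₃0.le]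
        _ ≤ ENNReal.ofReal (C + 2 * L₂ * C + 2 * L₃ * C) := by
            refine ENNReal.ofReal_le_ofReal ?_
            have h1 : C * τ ≤ C := by nlinarith
            have h2 : L₃ * (C * τ + C) ≤ L₃ * (C + C) :=
              mul_le_mul_of_nonneg_left (by linarith) hL₃0.le
            have : 0 < 2 * L₂ * C := by positivity
            nlinarith

end Helper51.TH
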