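import Pool.Agent.Helper51.TH.PDefs

/-!
TH-P07. The weight inequality (this is where `2 π` comes from).

PROOF. `wt θ μ x = sin (θ + μ x)`, `2 θ + μ V₁ ≤ π/2`, `θ > 0`, `μ > 1`.
(A) Single crossing: for `L, R, m ≥ 0` with `L + R + m ≤ V₁`:
`cosh m * wt (R + m) ≥ wt R + sinh m * wt L + (μ - 1) sin θ * m`. Put `ψ(m) = θ + μ (R + m)`. Since
`θ + μ L ≤ π/2 - ψ(m)`, `wt L ≤ cos ψ(m)`, so it suffices that
`k(m) = cosh m sin ψ - sin ψ(0) - sinh m cos ψ ≥ (μ-1) sin θ m` for `0 ≤ m ≤ V₁ - R - L`. `k(0) = 0` and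
`k'(m) = (1 + μ) sinh m sin ψ + (μ - 1) cosh m cos ψ ≥ (μ - 1) cos ψ ≥ (μ - 1) sin θ`, because
`0 ≤ ψ ≤ π/2 - θ` on the whole interval.
(B) Two interfaces. Let `ℓ = |s|`, `m = |t|`, `c₁ = (μ-1) sin θ`. By (A) with contents `L + ℓ` (left), `R` (right), `m`, and (A)
with the roles of left and right exchanged, contents `L`, `R + m`, crossing `ℓ`:
`cosh m wt(R+m) ≥ wt R + sinh m wt(L+ℓ) + c₁ m`, `cosh ℓ wt(L+ℓ) ≥ wt L + sinh ℓ wt(R+m) + c₁ ℓ`.
Multiply the first by `cosh ℓ` and insert the second: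
`(cosh ℓ cosh m - sinh ℓ sinh m) wt(R+m) ≥ cosh ℓ wt R + sinh m wt L + c₁ m cosh ℓ`, that is
`cosh(m - ℓ) wt(R+m) ≥ cosh ℓ wt R + sinh m wt L + c₁ m`. Finally `cosh(s + t) ≥ cosh(m - ℓ)` (`|s + t| ≥ |m - ℓ|`),
`cosh ℓ = cosh s`, `sinh m = |sinh t|`, and `cosh(m-ℓ) ≤ cosh V₁`: divide, `c = c₁/cosh V₁`. (If `V₁ < 0` the statement is
void for the hypotheses `0 ≤ L`, ...)
-/

open Real

namespace Helper51.TH

private theorem h99_single {θ μ V₁ : ℝ} (hθ : 0 < θ) (hμ : 1 < μ)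
    (hV : 2 * θ + μ * V₁ ≤ Real.pi / 2) {L R m : ℝ} (hL : 0 ≤ L) (hR : 0 ≤ R) (hm : 0 ≤ m)
    (h : L + R + m ≤ V₁) :
    wt θ μ R + Real.sinh m * wt θ μ L + (μ - 1) * Real.sin θ * m ≤
      Real.cosh m * wt θ μ (R + m) := by
  have hpi := Real.pi_pos
  have hV0 : 0 ≤ V₁ := by linarith
  have hμV : 0 ≤ μ * V₁ := mul_nonneg (by linarith) hV0
  have hθ2 : θ < Real.pi / 2 := by linarith
  -- the function
  obtain ⟨k, hk⟩ : ∃ k : ℝ → ℝ, k = fun m => Real.cosh m * Real.sin (θ + μ * (R + m)) -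
    Real.sin (θ + μ * R) - Real.sinh m * Real.cos (θ + μ * (R + m)) -
      (μ - 1) * Real.sin θ * m := ⟨_, rfl⟩
  have hder : ∀ x : ℝ, HasDerivAt k ((1 + μ) * (Real.sinh x * Real.sin (θ + μ * (R + x))) +
      (μ - 1) * (Real.cosh x * Real.cos (θ + μ * (R + x))) - (μ - 1) * Real.sin θ) x := by
    intro x
    rw [hk]
    have h1 : HasDerivAt (fun x : ℝ => θ + μ * (R + x)) μ x := by
      have := ((hasDerivAt_id x).const_add R).const_mul μ |>.const_add θ
      simpa using this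
    have h2 := (Real.hasDerivAt_cosh x).mul h1.sin
    have h3 := (Real.hasDerivAt_sinh x).mul h1.cos
    have h4 := ((hasDerivAt_id x).const_mul ((μ - 1) * Real.sin θ))
    have h5 := ((h2.sub_const (Real.sin (θ + μ * R))).sub h3).sub h4
    refine h5.congr_deriv ?_
    ring
  have hmono : MonotoneOn k (Set.Icc 0 (V₁ - R)) := by
    refine monotoneOn_of_deriv_nonneg (convex_Icc _ _)
      (fun x _ => (hder x).continuousAt.continuousWithinAt)
      (fun x _ => (hder x).differentiableAt.differentiableWithinAt) ?_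
    intro x hx
    rw [interior_Icc] at hx
    rw [(hder x).deriv]
    have hψ0 : 0 ≤ θ + μ * (R + x) := by
      have : 0 ≤ μ * (R + x) := mul_nonneg (by linarith) (by linarith [hx.1])
      linarith
    have hψ1 : θ + μ * (R + x) ≤ Real.pi / 2 - θ := by
      have : μ * (R + x) ≤ μ * V₁ := mul_le_mul_of_nonneg_left (by linarith [hx.2]) (by linarith)
      linarith
    have hsin : 0 ≤ Real.sin (θ + μ * (R + x)) :=
      Real.sin_nonneg_of_nonneg_of_le_pi hψ0 (by linarith)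
    have hcos : Real.sin θ ≤ Real.cos (θ + μ * (R + x)) := by
      rw [← Real.cos_pi_div_two_sub]
      exact Real.cos_le_cos_of_nonneg_of_le_pi hψ0 (by linarith) hψ1
    have hsθ : 0 ≤ Real.sin θ := Real.sin_nonneg_of_nonneg_of_le_pi hθ.le (by linarith)
    have hch : 1 ≤ Real.cosh x := Real.one_le_cosh x
    have hsh : 0 ≤ Real.sinh x := Real.sinh_nonneg_iff.2 hx.1.le
    have h1 : 0 ≤ (1 + μ) * (Real.sinh x * Real.sin (θ + μ * (R + x))) := by positivity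
    have h2 : Real.sin θ ≤ Real.cosh x * Real.cos (θ + μ * (R + x)) := by
      have h3 : 0 ≤ Real.cos (θ + μ * (R + x)) := hsθ.trans hcos
      nlinarith
    have h3 : 0 ≤ μ - 1 := by linarith
    have h4 := mul_le_mul_of_nonneg_left h2 h3
    linarith
  have h0 : k 0 ≤ k m := by
    apply hmono
    · exact ⟨le_rfl, by linarith⟩
    · exact ⟨hm, by linarith⟩
    · exact hm
  have hk0 : k 0 = 0 := by
    rw [hk]
    simp
  rw [hk0, hk] at h0
  have hcosL : Real.sin (θ + μ * L) ≤ Real.cos (θ + μ * (R + m)) := by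
    rw [← Real.sin_pi_div_two_sub]
    have hμL : 0 ≤ μ * L := mul_nonneg (by linarith) hL
    have hμR : 0 ≤ μ * (R + m) := mul_nonneg (by linarith) (by linarith)
    have h1 : μ * (L + R + m) ≤ μ * V₁ := mul_le_mul_of_nonneg_left h (by linarith)
    apply Real.sin_le_sin_of_le_of_le_pi_div_two
    · linarith
    · linarith
    · linarith
  have hsh : 0 ≤ Real.sinh m := Real.sinh_nonneg_iff.2 hm
  have h2 := mul_le_mul_of_nonneg_left hcosL hsh
  unfold wt
  linarith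

private theorem h99_wt_nonneg {θ μ V₁ : ℝ} (hθ : 0 < θ) (hμ : 1 < μ)
    (hV : 2 * θ + μ * V₁ ≤ Real.pi / 2) {x : ℝ} (hx : 0 ≤ x) (hxV : x ≤ V₁) : 0 ≤ wt θ μ x := by
  have hpi := Real.pi_pos
  have h1 : 0 ≤ μ * x := mul_nonneg (by linarith) hx
  have h2 : μ * x ≤ μ * V₁ := mul_le_mul_of_nonneg_left hxV (by linarith)
  exact Real.sin_nonneg_of_nonneg_of_le_pi (by linarith) (by linarith)

theorem trig_key {θ μ V₁ : ℝ} (hθ : 0 < θ) (hμ : 1 < μ) (hV : 2 * θ + μ * V₁ ≤ Real.pi / 2) :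
    ∃ c : ℝ, 0 < c ∧ ∀ L R s t : ℝ, 0 ≤ L → 0 ≤ R → L + R + |s| + |t| ≤ V₁ →
      (Real.cosh s * wt θ μ R + |Real.sinh t| * wt θ μ L) / Real.cosh (s + t) + c * |t| ≤
        wt θ μ (R + |t|) := by
  have hpi := Real.pi_pos
  by_cases hV0 : 0 ≤ V₁
  swap
  · refine ⟨1, one_pos, fun L R s t hL hR h => ?_⟩
    exfalso
    have h1 := abs_nonneg s
    have h2 := abs_nonneg t
    linarith
  have hμV : 0 ≤ μ * V₁ := mul_nonneg (by linarith) hV0
  have hc1 : 0 < (μ - 1) * Real.sin θ :=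
    mul_pos (by linarith) (Real.sin_pos_of_pos_of_lt_pi hθ (by linarith))
  refine ⟨(μ - 1) * Real.sin θ / Real.cosh V₁, div_pos hc1 (Real.cosh_pos _), ?_⟩
  intro L R s t hL hR h
  obtain ⟨l, hl⟩ : ∃ l, l = |s| := ⟨_, rfl⟩
  obtain ⟨m, hm⟩ : ∃ m, m = |t| := ⟨_, rfl⟩
  have hl0 : 0 ≤ l := by
    rw [hl]
    exact abs_nonneg s
  have hm0 : 0 ≤ m := by
    rw [hm]
    exact abs_nonneg t
  have hcs : Real.cosh s = Real.cosh l := by rw [hl, Real.cosh_abs]
  have hst : |Real.sinh t| = Real.sinh m := by rw [hm, Real.abs_sinh]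
  rw [← hl, ← hm] at h
  rw [hcs, hst, ← hm]
  obtain ⟨c, hc⟩ : ∃ c, c = (μ - 1) * Real.sin θ := ⟨_, rfl⟩
  rw [← hc] at hc1 ⊢
  have e1 := h99_single hθ hμ hV (L := L + l) (R := R) (m := m) (by linarith) hR hm0 (by linarith)
  have e2 := h99_single hθ hμ hV (L := R + m) (R := L) (m := l) (by linarith) hL hl0 (by linarith)
  rw [← hc] at e1 e2
  have hsm : 0 ≤ Real.sinh m := Real.sinh_nonneg_iff.2 hm0
  have hcl : 1 ≤ Real.cosh l := Real.one_le_cosh l
  have e3 : Real.cosh l * wt θ μ R + Real.sinh m * wt θ μ L + c * m ≤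
      Real.cosh (m - l) * wt θ μ (R + m) := by
    rw [Real.cosh_sub]
    have f1 := mul_le_mul_of_nonneg_left e1 (by linarith : 0 ≤ Real.cosh l)
    have f2 := mul_le_mul_of_nonneg_left e2 hsm
    have f3 : 0 ≤ Real.sinh m * (c * l) := mul_nonneg hsm (mul_nonneg hc1.le hl0)
    have f4 : c * m ≤ Real.cosh l * (c * m) := le_mul_of_one_le_left (mul_nonneg hc1.le hm0) hcl
    nlinarith
  have habs : |m - l| ≤ |s + t| := by
    rw [hl, hm]
    have g1 := abs_abs_sub_abs_le_abs_sub t (-s)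
    rw [abs_neg, sub_neg_eq_add, add_comm t s] at g1
    exact g1
  have hcosh1 : Real.cosh (m - l) ≤ Real.cosh (s + t) := Real.cosh_le_cosh.2 habs
  have hcosh2 : Real.cosh (m - l) ≤ Real.cosh V₁ := by
    rw [Real.cosh_le_cosh, abs_of_nonneg hV0, abs_le]
    constructor <;> linarith
  have hcp : 0 < Real.cosh (m - l) := Real.cosh_pos _
  have hN : 0 ≤ Real.cosh l * wt θ μ R + Real.sinh m * wt θ μ L := by
    have g1 := h99_wt_nonneg hθ hμ hV hR (by linarith : R ≤ V₁)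
    have g2 := h99_wt_nonneg hθ hμ hV hL (by linarith : L ≤ V₁)
    have g3 : 0 ≤ Real.cosh l := by linarith
    positivity
  have g1 : (Real.cosh l * wt θ μ R + Real.sinh m * wt θ μ L) / Real.cosh (s + t) ≤
      (Real.cosh l * wt θ μ R + Real.sinh m * wt θ μ L) / Real.cosh (m - l) :=
    div_le_div_of_nonneg_left hN hcp hcosh1
  have g2 : c / Real.cosh V₁ * m ≤ c * m / Real.cosh (m - l) := by
    rw [div_mul_eq_mul_div]
    exact div_le_div_of_nonneg_left (mul_nonneg hc1.le hm0) hcp hcosh2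
  refine (add_le_add g1 g2).trans ?_
  rw [← add_div, div_le_iff₀ hcp, mul_comm (wt θ μ (R + m))]
  exact e3

end Helper51.TH
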