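import Pool.Agent.Helper51.TH.Inter
import Pool.Agent.Helper51.TH.Trig

/-!
TH-P08. The local estimate for the weighted amplitudes.

NOTATION as in Inter.lean; `E_L = exp(L.l/2)` etc., `ℓ₁ = |s₁|/2 = (wv L M).s`, `ℓ₂ = |s₂|/2`,
`X = ℓ₁ |a₂| + ℓ₂ |b₁|` (so `x = 2 X`), `q₀ = qq2 (wv L M) (wv M R)`.
PROOF. With `d = T/D + O(ε (x + q₀))` from `inter`:
`a₂ + T/D = [(1 + exp s₂) a₂ + (1 - exp s₂) b₁]/(exp(-s₁) + exp s₂)` and
`exp((M.l - s₁)/2) (a₂ + T/D) = E_M [cosh(s₂/2) a₂ - sinh(s₂/2) b₁]/cosh((s₁+s₂)/2)`.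
`L.l = M.l - s₁ + O((ng a₁)³ + (ng b₁)³)` (`jump_bound`), `|a₂ + T/D| ≤ C (|a₂| + |s₂||b₁|)`, so replacing
`exp((M.l - s₁)/2)` by `E_L` costs `C ((ng a₁)³ + (ng b₁)³)(|a₂| + |s₂||b₁|) ≤ C ε (x + q₀)`. Hence (as `a₃ = a₁ + (a₂ + d)`)
(1) `E_L |a₃| ≤ E_L |a₁| + E_M (cosh(s₂/2) |a₂| + |sinh(s₂/2)| |b₁|)/cosh((s₁+s₂)/2) + C (ε X + q₀)`.
In the same way, from `b₁ + T/D = [(1 + exp(-s₁)) b₁ + (1 - exp(-s₁)) a₂]/(exp(-s₁) + exp s₂)` and
`R.l = M.l + s₂ + O((ng a₂)³ + (ng b₂)³)`: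
(2) `E_R |b₃| ≤ E_R |b₂| + E_M (cosh(s₁/2) |b₁| + |sinh(s₁/2)| |a₂|)/cosh((s₁+s₂)/2) + C (ε X + q₀)`.
Multiply (1) by `wt L0 ∈ [0, 1]`, (2) by `wt R0 ∈ [0, 1]` and add. The coefficient of `E_M |b₁| = (wv L M).q` is
`(cosh(s₁/2) wt R0 + |sinh(s₂/2)| wt L0)/cosh((s₁+s₂)/2) ≤ wt(R0 + ℓ₂) - c ℓ₂` (`trig_key` with `s = s₁/2`, `t = s₂/2`,
`L = L0`, `R = R0`), and the coefficient of `E_M |a₂| = (wv M R).p` is
`(cosh(s₂/2) wt L0 + |sinh(s₁/2)| wt R0)/cosh((s₁+s₂)/2) ≤ wt(L0 + ℓ₁) - c ℓ₁` (`trig_key` with `s = s₂/2`, `t = s₁/2`,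
`L = R0`, `R = L0`). `E_M ≥ exp(-Λ/2)`, so the gain is `≥ c exp(-Λ/2) X`.
-/

open Set Filter Topology

namespace Helper51.TH

private lemma sinh_abs_le (x : ℝ) : |Real.sinh x| ≤ |x| * Real.cosh x := by
  have key : ∀ y : ℝ, 0 ≤ y → Real.sinh y ≤ y * Real.cosh y := by
    intro y hy
    have hmono : MonotoneOn (fun y : ℝ => y * Real.cosh y - Real.sinh y) (Ici 0) := by
      refine monotoneOn_of_deriv_nonneg (convex_Ici 0) ?_ ?_ ?_
      · exact ((continuous_id.mul Real.continuous_cosh).sub Real.continuous_sinh).continuousOn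
      · exact ((differentiable_id.mul Real.differentiable_cosh).sub
          Real.differentiable_sinh).differentiableOn
      · intro x hx
        rw [interior_Ici] at hx
        have h1 : HasDerivAt (fun y : ℝ => y * Real.cosh y - Real.sinh y)
            (1 * Real.cosh x + x * Real.sinh x - Real.cosh x) x :=
          ((hasDerivAt_id x).mul (Real.hasDerivAt_cosh x)).sub (Real.hasDerivAt_sinh x)
        rw [h1.deriv]
        have h2 : 0 ≤ x * Real.sinh x :=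
          mul_nonneg (le_of_lt hx) (Real.sinh_nonneg_iff.mpr (le_of_lt hx))
        linarith
    have h3 := hmono (mem_Ici.mpr le_rfl) (mem_Ici.mpr hy) hy
    simp only [Real.sinh_zero, zero_mul, sub_zero] at h3
    linarith
  rcases le_total 0 x with h | h
  · rw [abs_of_nonneg h, abs_of_nonneg (Real.sinh_nonneg_iff.mpr h)]
    exact key x h
  · rw [abs_of_nonpos h, abs_of_nonpos (Real.sinh_nonpos_iff.mpr h), ← Real.sinh_neg,
      ← Real.cosh_neg]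
    exact key (-x) (by linarith)

private lemma half_id (m s t a b : ℝ) :
    Real.exp ((m - s) / 2) * (a + ((1 - Real.exp (-s)) * a + (1 - Real.exp t) * b) /
      (Real.exp (-s) + Real.exp t)) =
    Real.exp (m / 2) * (Real.cosh (t / 2) * a - Real.sinh (t / 2) * b) / Real.cosh ((s + t) / 2) := by
  obtain ⟨A, hA⟩ : ∃ A : ℝ, A = Real.exp (s / 2) := ⟨_, rfl⟩
  obtain ⟨B, hB⟩ : ∃ B : ℝ, B = Real.exp (t / 2) := ⟨_, rfl⟩
  have hA0 : 0 < A := by rw [hA]; exact Real.exp_pos _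
  have hB0 : 0 < B := by rw [hB]; exact Real.exp_pos _
  have e1 : Real.exp ((m - s) / 2) = Real.exp (m / 2) / A := by
    rw [hA, ← Real.exp_sub]; congr 1; ring
  have e2 : Real.exp (-s) = 1 / A ^ 2 := by
    rw [hA, ← Real.exp_nat_mul, Real.exp_neg, one_div]; congr 2; push_cast; ring
  have e3 : Real.exp t = B ^ 2 := by
    rw [hB, ← Real.exp_nat_mul]; congr 1; push_cast; ring
  have e4 : Real.cosh (t / 2) = (B + 1 / B) / 2 := by
    rw [Real.cosh_eq, Real.exp_neg, ← hB, one_div]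
  have e5 : Real.sinh (t / 2) = (B - 1 / B) / 2 := by
    rw [Real.sinh_eq, Real.exp_neg, ← hB, one_div]
  have e6 : Real.cosh ((s + t) / 2) = (A * B + 1 / (A * B)) / 2 := by
    rw [Real.cosh_eq, Real.exp_neg]
    have : Real.exp ((s + t) / 2) = A * B := by
      rw [hA, hB, ← Real.exp_add]; congr 1; ring
    rw [this, one_div]
  rw [e1, e2, e3, e4, e5, e6]
  have h1 : (1 / A ^ 2 + B ^ 2) ≠ 0 := by positivity
  have h2 : (A * B + 1 / (A * B)) / 2 ≠ 0 := by positivity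
  field_simp
  ring

private lemma stepA {Λ S C₀ : ℝ} (hC₀ : 0 ≤ C₀) : ∃ C : ℝ, 0 < C ∧
    ∀ ε m s t a b l J d Q : ℝ, |m| ≤ Λ → |l| ≤ Λ → |s| ≤ S → |t| ≤ S → |J| ≤ 1 → l = m - s - J →
      0 ≤ ε * Q →
      |d - ((1 - Real.exp (-s)) * a + (1 - Real.exp t) * b) / (Real.exp (-s) + Real.exp t)| ≤
        C₀ * (ε * Q) → |J| * (|a| + |t| * |b|) ≤ C₀ * (ε * Q) →
      Real.exp (l / 2) * |a + d| ≤ Real.exp (m / 2) * (Real.cosh (t / 2) * |a| +
        |Real.sinh (t / 2)| * |b|) / Real.cosh ((s + t) / 2) + C * (ε * Q) := by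
  refine ⟨Real.exp Λ * Real.cosh S * C₀ + Real.exp Λ * C₀ + 1, by positivity, ?_⟩
  intro ε m s t a b l J d Q hm hl hs ht hJ hlm hQ hd hJa
  obtain ⟨T, hT⟩ : ∃ T : ℝ, T = ((1 - Real.exp (-s)) * a + (1 - Real.exp t) * b) /
      (Real.exp (-s) + Real.exp t) := ⟨_, rfl⟩
  rw [← hT] at hd
  obtain ⟨Y, hY⟩ : ∃ Y : ℝ, Y = Real.exp ((m - s) / 2) * (a + T) := ⟨_, rfl⟩
  have hY2 : Y = Real.exp (m / 2) * (Real.cosh (t / 2) * a - Real.sinh (t / 2) * b) /
      Real.cosh ((s + t) / 2) := by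
    rw [hY, hT]; exact half_id m s t a b
  have hch : 0 < Real.cosh ((s + t) / 2) := Real.cosh_pos _
  have hch1 : 1 ≤ Real.cosh ((s + t) / 2) := Real.one_le_cosh _
  have hYle : |Y| ≤ Real.exp (m / 2) * (Real.cosh (t / 2) * |a| + |Real.sinh (t / 2)| * |b|) /
      Real.cosh ((s + t) / 2) := by
    rw [hY2, abs_div, abs_mul, abs_of_pos (Real.exp_pos _), abs_of_pos hch]
    refine div_le_div_of_nonneg_right (mul_le_mul_of_nonneg_left ?_ (Real.exp_pos _).le) hch.le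
    calc |Real.cosh (t / 2) * a - Real.sinh (t / 2) * b| ≤
        |Real.cosh (t / 2) * a| + |Real.sinh (t / 2) * b| := abs_sub _ _
      _ = _ := by rw [abs_mul, abs_mul, abs_of_pos (Real.cosh_pos _)]
  have hmle : Real.exp (m / 2) ≤ Real.exp Λ := by
    apply Real.exp_le_exp.mpr
    have := abs_le.mp hm
    have h0 : 0 ≤ Λ := (abs_nonneg m).trans hm
    linarith
  have hlle : Real.exp (l / 2) ≤ Real.exp Λ := by
    apply Real.exp_le_exp.mpr
    have := abs_le.mp hl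
    have h0 : 0 ≤ Λ := (abs_nonneg m).trans hm
    linarith
  have hcosh : Real.cosh (t / 2) ≤ Real.cosh S := by
    apply Real.cosh_le_cosh.mpr
    have h0 : 0 ≤ S := (abs_nonneg s).trans hs
    rw [abs_div, abs_of_pos (by norm_num : (0 : ℝ) < 2), abs_of_nonneg h0]
    have := abs_nonneg t
    linarith
  have hsinh : |Real.sinh (t / 2)| ≤ Real.cosh S * |t| := by
    refine (sinh_abs_le (t / 2)).trans ?_
    rw [abs_div, abs_of_pos (by norm_num : (0 : ℝ) < 2)]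
    have h1 : |t| / 2 ≤ |t| := by have := abs_nonneg t; linarith
    calc |t| / 2 * Real.cosh (t / 2) ≤ |t| * Real.cosh S :=
          mul_le_mul h1 hcosh (Real.cosh_pos _).le (abs_nonneg _)
      _ = _ := mul_comm _ _
  have hYle2 : |Y| ≤ Real.exp Λ * Real.cosh S * (|a| + |t| * |b|) := by
    refine hYle.trans ?_
    refine (div_le_self (by positivity) hch1).trans ?_
    have h1 : Real.cosh (t / 2) * |a| + |Real.sinh (t / 2)| * |b| ≤
        Real.cosh S * (|a| + |t| * |b|) := by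
      have h2 := mul_le_mul_of_nonneg_right hcosh (abs_nonneg a)
      have h3 := mul_le_mul_of_nonneg_right hsinh (abs_nonneg b)
      calc _ ≤ Real.cosh S * |a| + Real.cosh S * |t| * |b| := add_le_add h2 h3
        _ = _ := by ring
    calc Real.exp (m / 2) * (Real.cosh (t / 2) * |a| + |Real.sinh (t / 2)| * |b|) ≤
        Real.exp Λ * (Real.cosh S * (|a| + |t| * |b|)) :=
          mul_le_mul hmle h1 (by positivity) (Real.exp_pos _).le
      _ = _ := by ring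
  have hexpJ : |Real.exp (-J / 2) - 1| ≤ |J| := by
    have h1 : |-J / 2| ≤ 1 := by
      rw [abs_div, abs_neg, abs_of_pos (by norm_num : (0 : ℝ) < 2)]
      linarith [abs_nonneg J]
    have h2 := Real.abs_exp_sub_one_le h1
    rw [abs_div, abs_neg, abs_of_pos (by norm_num : (0 : ℝ) < 2)] at h2
    linarith
  have e1 : Real.exp (l / 2) * |a + T| = Real.exp (-J / 2) * |Y| := by
    rw [hY, abs_mul, abs_of_pos (Real.exp_pos _), ← mul_assoc, ← Real.exp_add, hlm]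
    congr 2
    ring
  have e2 : Real.exp (-J / 2) * |Y| ≤ |Y| + |J| * |Y| := by
    have h1 := (abs_le.mp hexpJ).2
    nlinarith [abs_nonneg Y]
  have e3 : |J| * |Y| ≤ Real.exp Λ * Real.cosh S * C₀ * (ε * Q) := by
    calc |J| * |Y| ≤ |J| * (Real.exp Λ * Real.cosh S * (|a| + |t| * |b|)) :=
          mul_le_mul_of_nonneg_left hYle2 (abs_nonneg _)
      _ = Real.exp Λ * Real.cosh S * (|J| * (|a| + |t| * |b|)) := by ring
      _ ≤ Real.exp Λ * Real.cosh S * (C₀ * (ε * Q)) := by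
          refine mul_le_mul_of_nonneg_left hJa ?_
          have := Real.cosh_pos S
          positivity
      _ = _ := by ring
  have e4 : |a + d| ≤ |a + T| + |d - T| := by
    have : a + d = (a + T) + (d - T) := by ring
    rw [this]
    exact abs_add_le _ _
  calc Real.exp (l / 2) * |a + d| ≤ Real.exp (l / 2) * (|a + T| + |d - T|) :=
        mul_le_mul_of_nonneg_left e4 (Real.exp_pos _).le
    _ = Real.exp (l / 2) * |a + T| + Real.exp (l / 2) * |d - T| := by ring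
    _ ≤ (|Y| + Real.exp Λ * Real.cosh S * C₀ * (ε * Q)) + Real.exp Λ * (C₀ * (ε * Q)) := by
        refine add_le_add ?_ (mul_le_mul hlle hd (abs_nonneg _) (Real.exp_pos _).le)
        rw [e1]
        linarith
    _ ≤ _ := by
        have : (Real.exp Λ * Real.cosh S * C₀ + Real.exp Λ * C₀ + 1) * (ε * Q) =
          Real.exp Λ * Real.cosh S * C₀ * (ε * Q) + Real.exp Λ * (C₀ * (ε * Q)) + ε * Q := by ring
        rw [this]
        linarith

private lemma ngn (x : ℝ) : 0 ≤ ng x := le_max_right _ _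

private lemma ngl (x : ℝ) : ng x ≤ |x| := max_le (neg_le_abs x) (abs_nonneg x)

private lemma stepJ {ε u v A x q : ℝ} (hε : 0 ≤ ε) (hε1 : ε ≤ 1) (hu : 0 ≤ u) (hv : 0 ≤ v)
    (hue : u ≤ ε) (hve : v ≤ ε) (hA : 0 ≤ A) (hx : 0 ≤ x) (hq : u * A + v * A ≤ q) :
    (u ^ 3 + v ^ 3) * (A + x) ≤ 2 * (ε * (x + q)) := by
  have h1 : u ^ 2 ≤ ε := by nlinarith
  have h2 : v ^ 2 ≤ ε := by nlinarith
  have h3 : u ^ 3 * A ≤ ε * (u * A) := by
    have : u ^ 3 * A = u ^ 2 * (u * A) := by ring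
    rw [this]
    exact mul_le_mul_of_nonneg_right h1 (mul_nonneg hu hA)
  have h4 : v ^ 3 * A ≤ ε * (v * A) := by
    have : v ^ 3 * A = v ^ 2 * (v * A) := by ring
    rw [this]
    exact mul_le_mul_of_nonneg_right h2 (mul_nonneg hv hA)
  have h5 : u ^ 3 ≤ ε := by
    calc u ^ 3 = u ^ 2 * u := by ring
      _ ≤ ε * 1 := mul_le_mul h1 (hue.trans hε1) hu hε
      _ = ε := mul_one _
  have h6 : v ^ 3 ≤ ε := by
    calc v ^ 3 = v ^ 2 * v := by ring
      _ ≤ ε * 1 := mul_le_mul h2 (hve.trans hε1) hv hε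
      _ = ε := mul_one _
  have h7 : (u ^ 3 + v ^ 3) * x ≤ 2 * ε * x := mul_le_mul_of_nonneg_right (by linarith) hx
  have h8 : 0 ≤ u * A := mul_nonneg hu hA
  have h9 : 0 ≤ v * A := mul_nonneg hv hA
  have h10 : ε * (u * A) + ε * (v * A) ≤ ε * q := by
    rw [← mul_add]; exact mul_le_mul_of_nonneg_left hq hε
  have h11 : 0 ≤ ε * q := mul_nonneg hε (by linarith)
  nlinarith

theorem local_est {γ z₁ z₂ Λ θ μ V₁ : ℝ} (hγ : 1 < γ) (hz : 0 < z₁) (hθ : 0 < θ) (hμ : 1 < μ)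
    (hV : 2 * θ + μ * V₁ ≤ Real.pi / 2) : ∃ c C ε₀ : ℝ, 0 < c ∧ 0 < C ∧ 0 < ε₀ ∧
    ∀ (ε : ℝ) (L M R : St), 0 < ε → ε ≤ ε₀ → InB z₁ z₂ Λ L → InB z₁ z₂ Λ M → InB z₁ z₂ Λ R →
      |ra γ L M| ≤ ε → |rb γ L M| ≤ ε → |ra γ M R| ≤ ε → |rb γ M R| ≤ ε →
      ∀ L0 R0 : ℝ, 0 ≤ L0 → 0 ≤ R0 → L0 + R0 + (wv γ L M).s + (wv γ M R).s ≤ V₁ →
        wt θ μ L0 * (wv γ L R).p + wt θ μ R0 * (wv γ L R).q ≤
          wt θ μ L0 * (wv γ L M).p + wt θ μ (R0 + (wv γ M R).s) * (wv γ L M).q +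
          wt θ μ (L0 + (wv γ L M).s) * (wv γ M R).p + wt θ μ R0 * (wv γ M R).q -
          c * ((wv γ L M).s * |ra γ M R| + (wv γ M R).s * |rb γ L M|) +
          C * (ε * ((wv γ L M).s * |ra γ M R| + (wv γ M R).s * |rb γ L M|) +
            qq2 (wv γ L M) (wv γ M R)) := by
  obtain ⟨c, hc, htrig⟩ := trig_key hθ hμ hV
  obtain ⟨Ci, ε₁, hCi, hε₁, hinter⟩ := inter (γ := γ) (z₁ := z₁) (z₂ := z₂) (Λ := Λ) hγ hz
  obtain ⟨Cj, hCj, hjump⟩ := jump_bound (γ := γ) (z₁ := z₁) (z₂ := z₂) (Λ := Λ) hγ hz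
  obtain ⟨C₁, hC₁, hstep⟩ := stepA (Λ := Λ) (S := 2 * Λ + 1) (C₀ := Ci + 2 * Cj) (by positivity)
  refine ⟨c * Real.exp (-Λ / 2), 4 * C₁, min (min ε₁ (z₁ / 2)) (min 1 (1 / (2 * Cj))), by positivity,
    by positivity, ?_, ?_⟩
  · refine lt_min (lt_min hε₁ (by positivity)) (lt_min one_pos (by positivity))
  intro ε L M R hε hεle hL hM hR ha1 hb1 ha2 hb2 L0 R0 hL0 hR0 hsum
  have k1 : ε ≤ ε₁ := hεle.trans ((min_le_left _ _).trans (min_le_left _ _))
  have k2 : ε ≤ z₁ / 2 := hεle.trans ((min_le_left _ _).trans (min_le_right _ _))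
  have k3 : ε ≤ 1 := hεle.trans ((min_le_right _ _).trans (min_le_left _ _))
  have k4 : ε ≤ 1 / (2 * Cj) := hεle.trans ((min_le_right _ _).trans (min_le_right _ _))
  obtain ⟨d, hd1, hd2, -, hd4, -⟩ := hinter ε L M R hε k1 hL hM hR ha1 hb1 ha2 hb2
  obtain ⟨-, -, hJ1⟩ := hjump L M hL hM (ha1.trans k2) (hb1.trans k2)
  obtain ⟨-, -, hJ2⟩ := hjump M R hM hR (ha2.trans k2) (hb2.trans k2)
  have ew1 : (wv γ L M).s = |sg γ L M| / 2 := rfl
  have ew2 : (wv γ M R).s = |sg γ M R| / 2 := rfl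
  have ep1 : (wv γ L M).p = Real.exp (L.l / 2) * |ra γ L M| := rfl
  have eq1 : (wv γ L M).q = Real.exp (M.l / 2) * |rb γ L M| := rfl
  have ep2 : (wv γ M R).p = Real.exp (M.l / 2) * |ra γ M R| := rfl
  have eq2 : (wv γ M R).q = Real.exp (R.l / 2) * |rb γ M R| := rfl
  have ep3 : (wv γ L R).p = Real.exp (L.l / 2) * |ra γ L R| := rfl
  have eq3 : (wv γ L R).q = Real.exp (R.l / 2) * |rb γ L R| := rfl
  have eqq : qq2 (wv γ L M) (wv γ M R) = |rb γ L M| * |ra γ M R| +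
    ap (ra γ L M) (ra γ M R) + ap (rb γ L M) (rb γ M R) := rfl
  obtain ⟨q₀, hq₀⟩ : ∃ q₀ : ℝ, q₀ = qq2 (wv γ L M) (wv γ M R) := ⟨_, rfl⟩
  rw [← hq₀] at eqq hd4 ⊢
  rw [ew1, ew2] at hsum
  rw [ew1, ew2, ep1, eq1, ep2, eq2, ep3, eq3, hd1, hd2]
  unfold ap at eqq
  generalize ra γ L M = a1 at *
  generalize rb γ L M = b1 at *
  generalize ra γ M R = a2 at *
  generalize rb γ M R = b2 at *
  generalize sg γ L M = s1 at *
  generalize sg γ M R = s2 at *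
  have hna1 := ngn a1
  have hnb1 := ngn b1
  have hna2 := ngn a2
  have hnb2 := ngn b2
  have hna1' := ngl a1
  have hnb1' := ngl b1
  have hna2' := ngl a2
  have hnb2' := ngl b2
  have hx0 : 0 ≤ |s1| * |a2| + |s2| * |b1| := by positivity
  have t1 : 0 ≤ ng a1 * |a2| := by positivity
  have t2 : 0 ≤ |a1| * ng a2 := by positivity
  have t3 : 0 ≤ ng b1 * |b2| := by positivity
  have t4 : 0 ≤ |b1| * ng b2 := by positivity
  have t5 : 0 ≤ |b1| * |a2| := by positivity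
  have hq0 : 0 ≤ q₀ := by rw [eqq]; linarith
  have hQ : 0 ≤ ε * (|s1| * |a2| + |s2| * |b1| + q₀) := by positivity
  have hJbd : ∀ J u v : ℝ, 0 ≤ u → 0 ≤ v → u ≤ ε → v ≤ ε → |J| ≤ Cj * (u ^ 3 + v ^ 3) → |J| ≤ 1 := by
    intro J u v hu hv hue hve hJ
    have h1 : u ^ 3 ≤ ε := by
      calc u ^ 3 ≤ ε ^ 3 := pow_le_pow_left₀ hu hue 3
        _ = ε * ε ^ 2 := by ring
        _ ≤ ε * 1 := mul_le_mul_of_nonneg_left (pow_le_one₀ hε.le k3) hε.le
        _ = ε := mul_one _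
    have h2 : v ^ 3 ≤ ε := by
      calc v ^ 3 ≤ ε ^ 3 := pow_le_pow_left₀ hv hve 3
        _ = ε * ε ^ 2 := by ring
        _ ≤ ε * 1 := mul_le_mul_of_nonneg_left (pow_le_one₀ hε.le k3) hε.le
        _ = ε := mul_one _
    calc |J| ≤ Cj * (u ^ 3 + v ^ 3) := hJ
      _ ≤ Cj * (2 * ε) := mul_le_mul_of_nonneg_left (by linarith) hCj.le
      _ ≤ Cj * (2 * (1 / (2 * Cj))) := mul_le_mul_of_nonneg_left (by linarith) hCj.le
      _ = 1 := by field_simp
  have hJ1' : |M.l - L.l - s1| ≤ 1 :=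
    hJbd _ _ _ hna1 hnb1 (hna1'.trans ha1) (hnb1'.trans hb1) hJ1
  have hJ2' : |R.l - M.l - s2| ≤ 1 :=
    hJbd _ _ _ hna2 hnb2 (hna2'.trans ha2) (hnb2'.trans hb2) hJ2
  have hs1 : |s1| ≤ 2 * Λ + 1 := by
    have h1 := abs_le.mp hJ1'
    have h2 := abs_le.mp hL.2.2
    have h3 := abs_le.mp hM.2.2
    rw [abs_le]
    constructor <;> linarith
  have hs2 : |s2| ≤ 2 * Λ + 1 := by
    have h1 := abs_le.mp hJ2'
    have h2 := abs_le.mp hM.2.2
    have h3 := abs_le.mp hR.2.2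
    rw [abs_le]
    constructor <;> linarith
  -- first family
  have hA := hstep ε M.l s1 s2 a2 b1 L.l (M.l - L.l - s1) d (|s1| * |a2| + |s2| * |b1| + q₀)
    hM.2.2 hL.2.2 hs1 hs2 hJ1' (by ring) hQ (hd4.trans (by
      have : Ci * ε * (|s1| * |a2| + |s2| * |b1| + q₀) = Ci * (ε * (|s1| * |a2| + |s2| * |b1| + q₀)) := by
        ring
      rw [this]
      exact mul_le_mul_of_nonneg_right (by linarith) hQ)) (by
      have h1 : |M.l - L.l - s1| * (|a2| + |s2| * |b1|) ≤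
          Cj * ((ng a1 ^ 3 + ng b1 ^ 3) * (|a2| + |s2| * |b1|)) := by
        rw [← mul_assoc]
        exact mul_le_mul_of_nonneg_right hJ1 (by positivity)
      have h2 := stepJ (ε := ε) (u := ng a1) (v := ng b1) (A := |a2|) (x := |s2| * |b1|) (q := q₀)
        hε.le k3 hna1 hnb1 (hna1'.trans ha1) (hnb1'.trans hb1) (abs_nonneg _) (by positivity) (by
          rw [eqq]
          have := mul_le_mul_of_nonneg_right hnb1' (abs_nonneg a2)
          linarith)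
      have h3 : ε * (|s2| * |b1| + q₀) ≤ ε * (|s1| * |a2| + |s2| * |b1| + q₀) := by
        refine mul_le_mul_of_nonneg_left ?_ hε.le
        have : 0 ≤ |s1| * |a2| := by positivity
        linarith
      have h4 := mul_le_mul_of_nonneg_left h2 hCj.le
      have h5 := mul_le_mul_of_nonneg_left h3 hCj.le
      have h6 := mul_nonneg hCi.le hQ
      linarith)
  -- second family
  have hB := hstep ε M.l (-s2) (-s1) b1 a2 R.l (-(R.l - M.l - s2)) d (|s1| * |a2| + |s2| * |b1| + q₀)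
    hM.2.2 hR.2.2 (by rw [abs_neg]; exact hs2) (by rw [abs_neg]; exact hs1) (by rw [abs_neg]; exact hJ2')
    (by ring) hQ (by
      rw [neg_neg]
      have e : ((1 - Real.exp s2) * b1 + (1 - Real.exp (-s1)) * a2) / (Real.exp s2 + Real.exp (-s1)) =
          ((1 - Real.exp (-s1)) * a2 + (1 - Real.exp s2) * b1) / (Real.exp (-s1) + Real.exp s2) := by
        rw [add_comm ((1 - Real.exp s2) * b1), add_comm (Real.exp s2)]
      rw [e]
      refine hd4.trans ?_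
      have : Ci * ε * (|s1| * |a2| + |s2| * |b1| + q₀) = Ci * (ε * (|s1| * |a2| + |s2| * |b1| + q₀)) := by
        ring
      rw [this]
      exact mul_le_mul_of_nonneg_right (by linarith) hQ) (by
      rw [abs_neg, abs_neg]
      have h1 : |R.l - M.l - s2| * (|b1| + |s1| * |a2|) ≤
          Cj * ((ng a2 ^ 3 + ng b2 ^ 3) * (|b1| + |s1| * |a2|)) := by
        rw [← mul_assoc]
        exact mul_le_mul_of_nonneg_right hJ2 (by positivity)
      have h2 := stepJ (ε := ε) (u := ng a2) (v := ng b2) (A := |b1|) (x := |s1| * |a2|) (q := q₀)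
        hε.le k3 hna2 hnb2 (hna2'.trans ha2) (hnb2'.trans hb2) (abs_nonneg _) (by positivity) (by
          rw [eqq]
          have := mul_le_mul_of_nonneg_right hna2' (abs_nonneg b1)
          linarith)
      have h3 : ε * (|s1| * |a2| + q₀) ≤ ε * (|s1| * |a2| + |s2| * |b1| + q₀) := by
        refine mul_le_mul_of_nonneg_left ?_ hε.le
        have : 0 ≤ |s2| * |b1| := by positivity
        linarith
      have h4 := mul_le_mul_of_nonneg_left h2 hCj.le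
      have h5 := mul_le_mul_of_nonneg_left h3 hCj.le
      have h6 := mul_nonneg hCi.le hQ
      linarith)
  have hcs : Real.cosh ((-s2 + -s1) / 2) = Real.cosh ((s1 + s2) / 2) := by
    rw [← Real.cosh_neg]; congr 1; ring
  have hcs1 : Real.cosh (-s1 / 2) = Real.cosh (s1 / 2) := by
    rw [← Real.cosh_neg]; congr 1; ring
  have hss1 : |Real.sinh (-s1 / 2)| = |Real.sinh (s1 / 2)| := by
    have : -s1 / 2 = -(s1 / 2) := by ring
    rw [this, Real.sinh_neg, abs_neg]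
  rw [hcs, hcs1, hss1] at hB
  -- the weights
  have habs1 : |s1 / 2| = |s1| / 2 := by
    rw [abs_div, abs_of_pos (by norm_num : (0 : ℝ) < 2)]
  have habs2 : |s2 / 2| = |s2| / 2 := by
    rw [abs_div, abs_of_pos (by norm_num : (0 : ℝ) < 2)]
  have hW1 := htrig L0 R0 (s1 / 2) (s2 / 2) hL0 hR0 (by rw [habs1, habs2]; exact hsum)
  have hW2 := htrig R0 L0 (s2 / 2) (s1 / 2) hR0 hL0 (by rw [habs1, habs2]; linarith)
  have ecs1 : s1 / 2 + s2 / 2 = (s1 + s2) / 2 := by ring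
  have ecs2 : s2 / 2 + s1 / 2 = (s1 + s2) / 2 := by ring
  rw [ecs1, habs2] at hW1
  rw [ecs2, habs1] at hW2
  have hV1 : L0 + R0 ≤ V₁ := by
    have := abs_nonneg s1
    have := abs_nonneg s2
    linarith
  have hwt : ∀ y, 0 ≤ y → y ≤ V₁ → 0 ≤ wt θ μ y ∧ wt θ μ y ≤ 1 := by
    intro y hy hyV
    refine ⟨?_, Real.sin_le_one _⟩
    apply Real.sin_nonneg_of_nonneg_of_le_pi
    · have : 0 ≤ μ * y := mul_nonneg (by linarith) hy
      linarith
    · have h1 : μ * y ≤ μ * V₁ := mul_le_mul_of_nonneg_left hyV (by linarith)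
      have h2 := Real.pi_pos
      linarith
  obtain ⟨wl0, wl1⟩ := hwt L0 hL0 (by linarith)
  obtain ⟨wr0, wr1⟩ := hwt R0 hR0 (by linarith)
  have hch : 0 < Real.cosh ((s1 + s2) / 2) := Real.cosh_pos _
  obtain ⟨EM, hEM⟩ : ∃ EM : ℝ, EM = Real.exp (M.l / 2) := ⟨_, rfl⟩
  have hEM0 : 0 < EM := by rw [hEM]; exact Real.exp_pos _
  have hEMge : Real.exp (-Λ / 2) ≤ EM := by
    rw [hEM]
    apply Real.exp_le_exp.mpr
    have := (abs_le.mp hM.2.2).1
    linarith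
  rw [← hEM] at hA hB ⊢
  have hEL0 := Real.exp_pos (L.l / 2)
  have hER0 := Real.exp_pos (R.l / 2)
  have hA' : Real.exp (L.l / 2) * |a1 + a2 + d| ≤ Real.exp (L.l / 2) * |a1| +
      (EM * (Real.cosh (s2 / 2) * |a2| + |Real.sinh (s2 / 2)| * |b1|) / Real.cosh ((s1 + s2) / 2) +
        C₁ * (ε * (|s1| * |a2| + |s2| * |b1| + q₀))) := by
    have h1 : |a1 + a2 + d| ≤ |a1| + |a2 + d| := by
      have : a1 + a2 + d = a1 + (a2 + d) := by ring
      rw [this]; exact abs_add_le _ _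
    have h2 := mul_le_mul_of_nonneg_left h1 hEL0.le
    rw [mul_add] at h2
    linarith
  have hB' : Real.exp (R.l / 2) * |b1 + b2 + d| ≤ Real.exp (R.l / 2) * |b2| +
      (EM * (Real.cosh (s1 / 2) * |b1| + |Real.sinh (s1 / 2)| * |a2|) / Real.cosh ((s1 + s2) / 2) +
        C₁ * (ε * (|s1| * |a2| + |s2| * |b1| + q₀))) := by
    have h1 : |b1 + b2 + d| ≤ |b2| + |b1 + d| := by
      have : b1 + b2 + d = b2 + (b1 + d) := by ring
      rw [this]; exact abs_add_le _ _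
    have h2 := mul_le_mul_of_nonneg_left h1 hER0.le
    rw [mul_add] at h2
    linarith
  have m1 := mul_le_mul_of_nonneg_left hA' wl0
  have m2 := mul_le_mul_of_nonneg_left hB' wr0
  have m3 := mul_le_mul_of_nonneg_left hW1 (mul_nonneg hEM0.le (abs_nonneg b1))
  have m4 := mul_le_mul_of_nonneg_left hW2 (mul_nonneg hEM0.le (abs_nonneg a2))
  have hCQ : 0 ≤ C₁ * (ε * (|s1| * |a2| + |s2| * |b1| + q₀)) := mul_nonneg hC₁.le hQ
  have m5 : wt θ μ L0 * (C₁ * (ε * (|s1| * |a2| + |s2| * |b1| + q₀))) ≤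
      C₁ * (ε * (|s1| * |a2| + |s2| * |b1| + q₀)) := mul_le_of_le_one_left hCQ wl1
  have m6 : wt θ μ R0 * (C₁ * (ε * (|s1| * |a2| + |s2| * |b1| + q₀))) ≤
      C₁ * (ε * (|s1| * |a2| + |s2| * |b1| + q₀)) := mul_le_of_le_one_left hCQ wr1
  have m7 : c * Real.exp (-Λ / 2) * (|s1| / 2 * |a2| + |s2| / 2 * |b1|) ≤
      c * EM * (|s1| / 2 * |a2| + |s2| / 2 * |b1|) := by
    refine mul_le_mul_of_nonneg_right (mul_le_mul_of_nonneg_left hEMge hc.le) (by positivity)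
  have m8 : 2 * (C₁ * (ε * (|s1| * |a2| + |s2| * |b1| + q₀))) ≤
      4 * C₁ * (ε * (|s1| / 2 * |a2| + |s2| / 2 * |b1|) + q₀) := by
    have h1 : ε * q₀ ≤ q₀ := mul_le_of_le_one_left hq0 k3
    have h2 : C₁ * (ε * q₀) ≤ C₁ * q₀ := mul_le_mul_of_nonneg_left h1 hC₁.le
    have h3 : 0 ≤ C₁ * q₀ := mul_nonneg hC₁.le hq0
    linarith
  have i1 : wt θ μ L0 * (EM * (Real.cosh (s2 / 2) * |a2| + |Real.sinh (s2 / 2)| * |b1|) /
      Real.cosh ((s1 + s2) / 2)) + wt θ μ R0 * (EM * (Real.cosh (s1 / 2) * |b1| +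
      |Real.sinh (s1 / 2)| * |a2|) / Real.cosh ((s1 + s2) / 2)) =
      EM * |b1| * ((Real.cosh (s1 / 2) * wt θ μ R0 + |Real.sinh (s2 / 2)| * wt θ μ L0) /
        Real.cosh ((s1 + s2) / 2)) +
      EM * |a2| * ((Real.cosh (s2 / 2) * wt θ μ L0 + |Real.sinh (s1 / 2)| * wt θ μ R0) /
        Real.cosh ((s1 + s2) / 2)) := by
    field_simp
    ring
  rw [mul_add] at m3 m4
  rw [mul_add, mul_add] at m1 m2
  linarith [m1, m2, m3, m4, m5, m6, m7, m8, i1]

end Helper51.TH
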