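import Pool.Agent.Helper51.TH.Defs

/-!
TH-N15. Pairing with a derivative.

PROOF. `tv_pair`: it suffices to show `|∫ u ψ| ≤ Z * V` for every `g =ᵐ u` with `eVariationOn g univ = V < ∞` (take the
infimum; if `eTV u = ∞` and `Z > 0` nothing is to prove; if `Z = 0` then `Ψ = 0`, so `ψ = 0` a.e.; the
case `Z < 0` is impossible because `|Ψ| ≤ Z`). Replace `u` by `g` in the integral. `Ψ` is Lipschitz (continuous, derivative
`ψ` bounded by `M` off a countable set: `image_norm_le_of_norm_deriv_right_le...` or integrate: `integral_eq_of_hasDerivAt_off_countable`)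
and vanishes for `|x| ≥ R`. For `h > 0`: `∫ g(x) (Ψ(x+h) - Ψ(x))/h dx = - ∫ Ψ(x) (g(x) - g(x-h))/h dx` (translation), the
absolute value is `≤ (Z/h) ∫ |g(x) - g(x-h)| dx ≤ Z V`, because for every `n`
`∫_{-nh}^{nh} |g(x) - g(x-h)| dx = ∫_0^h ∑_{k=-n}^{n-1} |g(y + kh) - g(y + (k-1)h)| dy ≤ h V`. Let `h → 0`: the
difference quotients are bounded by `M`, supported in `[-R-1, R]`, and converge a.e. to `ψ`; dominated convergence
(`g` is bounded, being of bounded variation; `g` is measurable a.e. because `u` is).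
-/

open MeasureTheory Set Filter Topology
open scoped ENNReal NNReal

namespace Helper51.TH

private theorem tv_abel (a b : ℕ → ℝ) (n : ℕ) :
    ∑ i ∈ Finset.range n, a i * (b (i + 1) - b i) =
      a n * b n - a 0 * b 0 - ∑ i ∈ Finset.range n, b (i + 1) * (a (i + 1) - a i) := by
  have h := Finset.sum_range_sub (fun i => a i * b i) n
  rw [← h, ← Finset.sum_sub_distrib]
  refine Finset.sum_congr rfl fun i _ => ?_
  ring

private theorem tv_sum_le {g : ℝ → ℝ} (hV : eVariationOn g univ ≠ ⊤) {x : ℕ → ℝ} (hx : Monotone x)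
    (n : ℕ) : ∑ i ∈ Finset.range n, |g (x (i + 1)) - g (x i)| ≤ (eVariationOn g univ).toReal := by
  have h1 := eVariationOn.sum_le (f := g) (s := univ) (n := n) hx (fun _ => mem_univ _)
  rw [← ENNReal.ofReal_le_iff_le_toReal hV, ENNReal.ofReal_sum_of_nonneg fun i _ => abs_nonneg _]
  refine le_trans (le_of_eq ?_) h1
  refine Finset.sum_congr rfl fun i _ => ?_
  rw [edist_dist, Real.dist_eq]

private theorem tv_core {g Ψ ψ : ℝ → ℝ} {Z M R : ℝ} (hg : AEStronglyMeasurable g volume)
    (hV : eVariationOn g univ ≠ ⊤) (hΨ : Continuous Ψ)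
    (hψ : Measurable ψ) (hM : ∀ x, |ψ x| ≤ M) (h0 : ∀ x, R ≤ |x| → Ψ x = 0 ∧ ψ x = 0)
    (hZ : ∀ x, |Ψ x| ≤ Z)
    {s : Set ℝ} (hs : s.Countable) (hd : ∀ x ∉ s, HasDerivAt Ψ (ψ x) x) :
    |∫ x, g x * ψ x| ≤ Z * (eVariationOn g univ).toReal := by
  set V : ℝ := (eVariationOn g univ).toReal with hVd
  have hV0 : 0 ≤ V := ENNReal.toReal_nonneg
  have hM0 : 0 ≤ M := (abs_nonneg _).trans (hM 0)
  set R' : ℝ := max R 1 with hR'
  have hR0 : 0 < R' := lt_of_lt_of_le one_pos (le_max_right _ _)
  have hRR : R ≤ R' := le_max_left _ _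
  -- boundedness of g
  have hgb : ∀ x, ‖g x‖ ≤ |g 0| + V := by
    intro x
    have h1 : edist (g x) (g 0) ≤ eVariationOn g univ := eVariationOn.edist_le g (mem_univ _) (mem_univ _)
    have h2 : |g x - g 0| ≤ V := by
      rw [hVd, ← ENNReal.ofReal_le_iff_le_toReal hV, ← Real.dist_eq, ← edist_dist]
      exact h1
    rw [Real.norm_eq_abs]
    have h3 := abs_sub_abs_le_abs_sub (g x) (g 0)
    linarith
  have hint : ∀ a b : ℝ, IntervalIntegrable (fun x => g x * ψ x) volume a b := by
    intro a b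
    rw [intervalIntegrable_iff]
    refine Measure.integrableOn_of_bounded (M := (|g 0| + V) * M) ?_ ?_ ?_
    · rw [uIoc_eq_union]
      simp
    · exact hg.mul hψ.aestronglyMeasurable
    · refine Filter.Eventually.of_forall fun x => ?_
      rw [norm_mul]
      exact mul_le_mul (hgb x) (hM x) (norm_nonneg _) ((norm_nonneg _).trans (hgb 0))
  have hintψ : ∀ a b : ℝ, IntervalIntegrable ψ volume a b := by
    intro a b
    rw [intervalIntegrable_iff]
    refine Measure.integrableOn_of_bounded (M := M) ?_ hψ.aestronglyMeasurable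
      (Filter.Eventually.of_forall fun x => hM x)
    rw [uIoc_eq_union]
    simp
  have hFTC : ∀ a b : ℝ, ∫ x in a..b, ψ x = Ψ b - Ψ a := by
    intro a b
    exact integral_eq_of_hasDerivAt_off_countable Ψ ψ hs hΨ.continuousOn
      (fun x hx => hd x hx.2) (hintψ a b)
  have htot : ∫ x, g x * ψ x = ∫ x in (-R')..R', g x * ψ x := by
    rw [intervalIntegral.integral_of_le (by linarith)]
    symm
    refine setIntegral_eq_integral_of_forall_compl_eq_zero fun x hx => ?_
    have h1 : R ≤ |x| := by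
      rw [mem_Ioc, not_and_or, not_lt, not_le] at hx
      rcases hx with h | h
      · exact hRR.trans ((by linarith : R' ≤ -x).trans (neg_le_abs x))
      · exact hRR.trans (h.le.trans (le_abs_self x))
    rw [(h0 x h1).2, mul_zero]
  have hb0 : Ψ (-R') = 0 := (h0 _ (by rw [abs_neg, abs_of_pos hR0]; exact hRR)).1
  have hb1 : Ψ R' = 0 := (h0 _ (by rw [abs_of_pos hR0]; exact hRR)).1
  -- the estimate for n pieces
  have hn : ∀ n : ℕ, 0 < n → |∫ x, g x * ψ x| ≤ Z * V + M * (2 * R' / n) * V := by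
    intro n hn
    have hnR : (0 : ℝ) < n := by exact_mod_cast hn
    set h : ℝ := 2 * R' / n with hh
    have hhp : 0 < h := by positivity
    set x : ℕ → ℝ := fun i => -R' + i * h with hx
    have hx0 : x 0 = -R' := by simp [hx]
    have hxn : x n = R' := by
      simp only [hx, hh]
      field_simp
      ring
    have hxm : Monotone x := by
      intro i j hij
      simp only [hx]
      have : (i : ℝ) ≤ j := by exact_mod_cast hij
      nlinarith
    have hxs : ∀ i, x (i + 1) - x i = h := by
      intro i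
      simp only [hx]
      push_cast
      ring
    have e1 : ∫ y, g y * ψ y = ∑ i ∈ Finset.range n, ∫ y in (x i)..(x (i + 1)), g y * ψ y := by
      rw [htot, intervalIntegral.sum_integral_adjacent_intervals fun k _ => hint _ _, hx0, hxn]
    have e2 : ∀ i, ∫ y in (x i)..(x (i + 1)), g y * ψ y =
        (∫ y in (x i)..(x (i + 1)), (g y - g (x i)) * ψ y) + g (x i) * (Ψ (x (i + 1)) - Ψ (x i)) := by
      intro i
      rw [← hFTC, ← intervalIntegral.integral_const_mul, ← intervalIntegral.integral_add]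
      · refine intervalIntegral.integral_congr fun y _ => ?_
        ring
      · have h1 : (fun y => (g y - g (x i)) * ψ y) = fun y => g y * ψ y - g (x i) * ψ y := by
          funext y
          ring
        rw [h1]
        exact (hint _ _).sub ((hintψ _ _).const_mul _)
      · exact (hintψ _ _).const_mul _
    have e3 : ∀ i, |∫ y in (x i)..(x (i + 1)), (g y - g (x i)) * ψ y| ≤
        (eVariationOn g (Icc (x i) (x (i + 1)))).toReal * M * h := by
      intro i
      have hle : x i ≤ x (i + 1) := hxm (Nat.le_succ i)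
      have hfin : eVariationOn g (Icc (x i) (x (i + 1))) ≠ ⊤ :=
        ne_top_of_le_ne_top hV (eVariationOn.mono g (subset_univ _))
      have h1 := intervalIntegral.norm_integral_le_of_norm_le_const
        (a := x i) (b := x (i + 1)) (f := fun y => (g y - g (x i)) * ψ y)
        (C := (eVariationOn g (Icc (x i) (x (i + 1)))).toReal * M) (fun y hy => by
          rw [uIoc_of_le hle] at hy
          have hy' : y ∈ Icc (x i) (x (i + 1)) := ⟨hy.1.le, hy.2⟩
          rw [norm_mul]
          refine mul_le_mul ?_ (hM y) (norm_nonneg _) ENNReal.toReal_nonneg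
          rw [Real.norm_eq_abs, ← ENNReal.ofReal_le_iff_le_toReal hfin, ← Real.dist_eq, ← edist_dist]
          exact eVariationOn.edist_le g hy' (left_mem_Icc.2 hle))
      rw [hxs, abs_of_pos hhp] at h1
      exact h1
    have e4 : ∑ i ∈ Finset.range n, (eVariationOn g (Icc (x i) (x (i + 1)))).toReal ≤ V := by
      rw [← ENNReal.toReal_sum fun i _ =>
        ne_top_of_le_ne_top hV (eVariationOn.mono g (subset_univ _)), eVariationOn.sum' g hxm]
      exact ENNReal.toReal_mono hV (eVariationOn.mono g (subset_univ _))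
    have e5 : |∑ i ∈ Finset.range n, g (x i) * (Ψ (x (i + 1)) - Ψ (x i))| ≤ Z * V := by
      rw [tv_abel (fun i => g (x i)) (fun i => Ψ (x i)) n]
      rw [hx0, hxn, hb0, hb1, mul_zero, mul_zero, sub_zero, zero_sub, abs_neg]
      refine (Finset.abs_sum_le_sum_abs _ _).trans ?_
      calc ∑ i ∈ Finset.range n, |Ψ (x (i + 1)) * (g (x (i + 1)) - g (x i))|
          ≤ ∑ i ∈ Finset.range n, Z * |g (x (i + 1)) - g (x i)| := by
            refine Finset.sum_le_sum fun i _ => ?_
            rw [abs_mul]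
            exact mul_le_mul_of_nonneg_right (hZ _) (abs_nonneg _)
        _ = Z * ∑ i ∈ Finset.range n, |g (x (i + 1)) - g (x i)| := by rw [Finset.mul_sum]
        _ ≤ Z * V := mul_le_mul_of_nonneg_left (tv_sum_le hV hxm n) ((abs_nonneg _).trans (hZ 0))
    have e6 : |∑ i ∈ Finset.range n, ∫ y in (x i)..(x (i + 1)), (g y - g (x i)) * ψ y| ≤ M * h * V := by
      refine (Finset.abs_sum_le_sum_abs _ _).trans ?_
      refine (Finset.sum_le_sum fun i _ => e3 i).trans ?_
      rw [← Finset.sum_mul, ← Finset.sum_mul]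
      calc (∑ i ∈ Finset.range n, (eVariationOn g (Icc (x i) (x (i + 1)))).toReal) * M * h
          ≤ V * M * h := by
            refine mul_le_mul_of_nonneg_right (mul_le_mul_of_nonneg_right e4 hM0) hhp.le
        _ = M * h * V := by ring
    rw [e1, Finset.sum_congr rfl fun i _ => e2 i, Finset.sum_add_distrib]
    have h7 := abs_add_le (∑ i ∈ Finset.range n, ∫ y in (x i)..(x (i + 1)), (g y - g (x i)) * ψ y)
      (∑ i ∈ Finset.range n, g (x i) * (Ψ (x (i + 1)) - Ψ (x i)))
    linarith
  refine le_of_forall_pos_le_add fun ε hε => ?_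
  obtain ⟨n, hn1⟩ := exists_nat_gt (M * (2 * R') * V / ε)
  have hn0 : 0 < n + 1 := Nat.succ_pos n
  have h1 := hn (n + 1) hn0
  have h2 : M * (2 * R' / ((n + 1 : ℕ) : ℝ)) * V ≤ ε := by
    have h3 : M * (2 * R' / ((n + 1 : ℕ) : ℝ)) * V = M * (2 * R') * V / ((n + 1 : ℕ) : ℝ) := by
      ring
    rw [h3, div_le_iff₀ (by positivity)]
    rw [div_lt_iff₀ hε] at hn1
    push_cast
    nlinarith
  linarith

theorem tv_pair {u Ψ ψ : ℝ → ℝ} {Z M R : ℝ} (hu : Measurable u) (hΨ : Continuous Ψ)
    (hψ : Measurable ψ) (hM : ∀ x, |ψ x| ≤ M) (h0 : ∀ x, R ≤ |x| → Ψ x = 0 ∧ ψ x = 0)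
    (hZ : ∀ x, |Ψ x| ≤ Z)
    {s : Set ℝ} (hs : s.Countable) (hd : ∀ x ∉ s, HasDerivAt Ψ (ψ x) x) :
    ENNReal.ofReal |∫ x, u x * ψ x| ≤ ENNReal.ofReal Z * eTV u := by
  have hZ0 : 0 ≤ Z := (abs_nonneg _).trans (hZ 0)
  rcases hZ0.eq_or_lt with hz | hz
  · -- then psi vanishes almost everywhere
    have h1 : ∀ x, Ψ x = 0 := by
      intro x
      have := hZ x
      rw [← hz] at this
      exact abs_nonpos_iff.1 this
    have h2 : ∀ x ∉ s, ψ x = 0 := by
      intro x hx
      have h3 : HasDerivAt Ψ 0 x := by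
        have h4 : Ψ = fun _ => (0 : ℝ) := funext h1
        rw [h4]
        exact hasDerivAt_const x 0
      exact (hd x hx).unique h3
    have h5 : ∫ x, u x * ψ x = 0 := by
      refine integral_eq_zero_of_ae ?_
      have h6 : ∀ᵐ x : ℝ, x ∉ s := hs.ae_notMem volume
      filter_upwards [h6] with x hx
      rw [h2 x hx, mul_zero]
      rfl
    rw [h5, abs_zero, ENNReal.ofReal_zero]
    exact bot_le
  · unfold eTV
    have hne : ENNReal.ofReal Z ≠ 0 := (ENNReal.ofReal_pos.2 hz).ne'
    rw [ENNReal.mul_iInf_of_ne hne ENNReal.ofReal_ne_top]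
    refine le_iInf fun g => ?_
    rw [ENNReal.mul_iInf_of_ne hne ENNReal.ofReal_ne_top]
    refine le_iInf fun hg => ?_
    by_cases hV : eVariationOn g univ = ⊤
    · rw [hV, ENNReal.mul_top hne]
      exact le_top
    have h1 : ∫ x, u x * ψ x = ∫ x, g x * ψ x := by
      refine integral_congr_ae ?_
      filter_upwards [hg] with x hx
      rw [hx]
    have hgm : AEStronglyMeasurable g volume := hu.aestronglyMeasurable.congr hg.symm
    have h2 := tv_core hgm hV hΨ hψ hM h0 hZ hs hd
    rw [h1]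
    calc ENNReal.ofReal |∫ x, g x * ψ x| ≤ ENNReal.ofReal (Z * (eVariationOn g univ).toReal) :=
          ENNReal.ofReal_le_ofReal h2
      _ = ENNReal.ofReal Z * eVariationOn g univ := by
          rw [ENNReal.ofReal_mul hZ0, ENNReal.ofReal_toReal hV]

private theorem eVar_add (g : ℝ → ℝ) (c : ℝ) :
    eVariationOn (fun x => g x + c) univ = eVariationOn g univ := by
  unfold eVariationOn
  simp only [edist_add_right]

private theorem eTV_add_le (f : ℝ → ℝ) (c : ℝ) : eTV (fun x => f x + c) ≤ eTV f := by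
  unfold eTV
  refine le_iInf₂ fun g hg => ?_
  have h1 : (fun x => g x + c) =ᵐ[volume] fun x => f x + c := by
    filter_upwards [hg] with x hx
    rw [hx]
  have h2 : (⨅ (k : ℝ → ℝ) (_ : k =ᵐ[volume] fun x => f x + c), eVariationOn k univ) ≤
      eVariationOn (fun x => g x + c) univ :=
    iInf_le_of_le (fun x => g x + c) (iInf_le_of_le h1 le_rfl)
  exact h2.trans (le_of_eq (eVar_add g c))

/-- PROOF: `g =ᵐ f` iff `g + c =ᵐ f + c`, and the variation does not change (`edist_add_right`). -/
theorem eTV_add_const (f : ℝ → ℝ) (c : ℝ) : eTV (fun x => f x + c) = eTV f := by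
  refine le_antisymm (eTV_add_le f c) ?_
  have h := eTV_add_le (fun x => f x + c) (-c)
  have h1 : (fun x => f x + c + -c) = f := by
    funext x
    ring
  rw [h1] at h
  exact h

/-- PROOF: the function itself is a competitor. -/
theorem eTV_le (f : ℝ → ℝ) : eTV f ≤ eVariationOn f univ := by
  unfold eTV
  exact iInf_le_of_le f (iInf_le_of_le (ae_eq_refl f) le_rfl)

/-- PROOF: the variation of a constant is zero. -/
theorem eTV_const (c : ℝ) : eTV (fun _ => c) = 0 := by
  refine le_antisymm ((eTV_le _).trans (le_of_eq ?_)) bot_le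
  refine eVariationOn.constant_on ?_
  rintro _ ⟨_, _, rfl⟩ _ ⟨_, _, rfl⟩
  rfl

/-- PROOF: antitone function, `AntitoneOn.eVariationOn_le` or
`eVariationOn` of a monotone/antitone function is at most the difference of the values. -/
theorem eTV_step (ε x0 : ℝ) (hε : 0 ≤ ε) :
    eTV (fun x => if x < x0 then ε else 0) ≤ ENNReal.ofReal ε := by
  refine (eTV_le _).trans ?_
  set f : ℝ → ℝ := fun x => if x < x0 then ε else 0 with hf
  have hanti : Antitone f := by
    intro x y hxy
    simp only [hf]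
    split_ifs with h1 h2
    · exact le_rfl
    · exact absurd (lt_of_le_of_lt hxy h1) h2
    · exact hε
    · exact le_rfl
  have hb : ∀ x, 0 ≤ f x ∧ f x ≤ ε := by
    intro x
    simp only [hf]
    split_ifs
    · exact ⟨hε, le_rfl⟩
    · exact ⟨le_rfl, hε⟩
  unfold eVariationOn
  refine iSup_le ?_
  rintro ⟨n, u, hu, _⟩
  simp only
  have h1 : ∀ i, edist (f (u (i + 1))) (f (u i)) = ENNReal.ofReal (f (u i) - f (u (i + 1))) := by
    intro i
    rw [edist_dist, Real.dist_eq, abs_sub_comm, abs_of_nonneg]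
    exact sub_nonneg.2 (hanti (hu (Nat.le_succ i)))
  rw [Finset.sum_congr rfl fun i _ => h1 i, ← ENNReal.ofReal_sum_of_nonneg fun i _ =>
    sub_nonneg.2 (hanti (hu (Nat.le_succ i))), Finset.sum_range_sub' (fun i => f (u i))]
  refine ENNReal.ofReal_le_ofReal ?_
  have h2 := (hb (u 0)).2
  have h3 := (hb (u n)).1
  linarith

end Helper51.TH
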