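import Pool.Agent.Helper51.TH.Signals
import Pool.Agent.Helper51.TH.Dual
import Pool.Agent.Helper51.TH.DualId
import Pool.Agent.Helper51.TH.TvPair
import Pool.Agent.Helper51.TH.Datum

/-!
TH-N17. The negative half.

PROOF. Suppose `δ', C, a', b'` are as in `StableOn γ a b V T`, w.l.o.g. `C ≥ 0` (`ENNReal.ofReal`). Let `ρA = (a+b)/2`,
`eA = (a+b)/2`, `p = (γ-1) ρA eA > 0`, `P = γ p`, `σ = √(√(P ρA)) > 0`, `Z = max σ (1/σ)`,
`a'' = min a a' > 0`, `b'' = max b b'`. `N₀` so large that `exp (2 π / N) ≤ ` both `b/ρA` and `eA/a` for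
`N ≥ N₀`. `B = (Z (C + 1) + 1)/σ`. `signals B T N₀`; `hf : 0 ≤ f N s` as `B > 0`. `exists_dual` (with `P, ρA`). Let
`ρ₀ = rho0 P ρA δ N`; `ρ₀ x ∈ [ρA, ρA exp (2π/N)] ⊆ [a, b]`, `e₀ x = p/((γ-1) ρ₀ x) = eA ρA/ρ₀ x ∈ [eA exp(-2π/N), eA] ⊆ [a, b]`.
`dual_pairing` on the box `a'', b''` with `κ = 1/2` gives `ε₀`; `ε = min ε₀ (min δ' b)`. The datum
`(ρ₀, ε 1_{x<x0}, e₀)` satisfies `Small γ a b V δ'`: `eTV (log ρ₀) ≤ 2π ≤ V` (`eTV_le`, `variation_log_rho0`),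
`tv₀ ≤ ε` (`eTV_step`; the pressure is the constant `p`: `eTV_const`). Take the solution; it is a solution in the larger
box. For a.e. `t ∈ (T0 - η, T0)`, `t > 0` (the interval is nonempty and `T0 < T`), with `tv_pair` for `u (t, ·)` and
`Ψ₁ (t, ·)`, `ψ = ρ₀ φ₁ (t, ·)`, and for `q - p` and `Ψ₂` (`eTV_add_const`):
`ε σ B - ε/2 ≤ ε Ψ₁(0, x0) - ε/2 ≤ |∫ u ρ₀ φ₁| + |∫ (q - p) φ₂| ≤ Z (eTV u(t) + eTV q(t)) ≤ Z C ε`
(in `ℝ≥0∞`, finite on the right), but `σ B = Z (C+1) + 1`: contradiction. (Split the integral: both integrands are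
integrable, bounded with compact support for a.e. `t`.)
-/

open MeasureTheory Set Filter Topology
open scoped ENNReal NNReal

namespace Helper51.TH

open Helper73.EU

private theorem box_mono {a b a' b' ρ u e : ℝ} (ha : a' ≤ a) (hb : b ≤ b')
    (h : Box a b ρ u e) : Box a' b' ρ u e := by
  obtain ⟨h1, h2, h3, h4, h5⟩ := h
  exact ⟨ha.trans h1, h2.trans hb, h3.trans hb, ha.trans h4, h5.trans hb⟩

private theorem sol_mono {γ T a b a' b' : ℝ} {ρ u e : ℝ × ℝ → ℝ} (ha : a' ≤ a) (hb : b ≤ b')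
    (h : IsSol γ T a b ρ u e) : IsSol γ T a' b' ρ u e := by
  refine ⟨h.meas_ρ, h.meas_u, h.meas_e, ?_, h.mass, h.momentum, h.energy, h.entropy⟩
  filter_upwards [h.box] with z hz hT
  exact box_mono ha hb (hz hT)

private theorem exists_mem_Ioo {P : ℝ → Prop} {x y : ℝ} (hxy : x < y)
    (h : ∀ᵐ s : ℝ, s ∈ Ioo x y → P s) : ∃ s : ℝ, s ∈ Ioo x y ∧ P s := by
  by_contra hno
  push Not at hno
  have hnull : ∀ᵐ s : ℝ, s ∉ Ioo x y := by
    filter_upwards [h] with s h1 h2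
    exact hno s h2 (h1 h2)
  have h2 : volume (Ioo x y) = 0 := by
    rw [← compl_mem_ae_iff]; exact hnull
  rw [Real.volume_Ioo, ENNReal.ofReal_eq_zero] at h2
  linarith

/-- Slices of a Lipschitz function with compact support. -/
private theorem slice_bound {φ : ℝ × ℝ → ℝ} {K : ℝ≥0} (hK : LipschitzWith K φ) {t R0 : ℝ}
    (hR0 : 0 < R0) (h0 : ∀ x : ℝ, R0 ≤ |x| → φ (t, x) = 0) :
    Continuous (fun x => φ (t, x)) ∧ Integrable (fun x => φ (t, x)) ∧
      ∀ x, |φ (t, x)| ≤ K * (2 * R0) := by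
  have hc : Continuous (fun x => φ (t, x)) :=
    hK.continuous.comp (continuous_const.prodMk continuous_id)
  refine ⟨hc, ?_, ?_⟩
  · apply hc.integrable_of_hasCompactSupport
    refine HasCompactSupport.intro (isCompact_Icc (a := -R0) (b := R0)) fun x hx => h0 x ?_
    by_contra hcon
    push Not at hcon
    exact hx ⟨(abs_lt.1 hcon).1.le, (abs_lt.1 hcon).2.le⟩
  · intro x
    have hK0 : (0 : ℝ) ≤ K := K.2
    rcases le_or_gt R0 |x| with h | h
    · rw [h0 x h, abs_zero]; positivity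
    · have h1 := hK.dist_le_mul (t, x) (t, R0)
      rw [Real.dist_eq, Prod.dist_eq, h0 R0 (le_abs_self R0), sub_zero] at h1
      simp only [dist_self] at h1
      rw [max_eq_right dist_nonneg, Real.dist_eq] at h1
      refine h1.trans ?_
      have h2 : |x - R0| ≤ 2 * R0 := by
        rw [abs_le]
        constructor <;> linarith [(abs_lt.1 h).1, (abs_lt.1 h).2]
      gcongr

theorem not_stableOn {γ a b V T : ℝ} (hγ : 1 < γ) (ha : 0 < a) (hab : a < b) (hT : 0 < T)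
    (hV : 2 * Real.pi ≤ V) : ¬ StableOn γ a b V T := by
  rintro ⟨δ', C₁, a', b', hδ', ha', hst⟩
  have hb : 0 < b := ha.trans hab
  have hγ1 : 0 < γ - 1 := by linarith
  have hγ0 : 0 < γ := by linarith
  obtain ⟨C, hC⟩ : ∃ C : ℝ, C = max C₁ 0 := ⟨_, rfl⟩
  have hC0 : 0 ≤ C := by rw [hC]; exact le_max_right _ _
  have hC1 : ENNReal.ofReal C₁ ≤ ENNReal.ofReal C :=
    ENNReal.ofReal_le_ofReal (by rw [hC]; exact le_max_left _ _)
  -- the constants
  obtain ⟨m, hm⟩ : ∃ m : ℝ, m = (a + b) / 2 := ⟨_, rfl⟩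
  have hma : a < m := by rw [hm]; linarith
  have hmb : m < b := by rw [hm]; linarith
  have hm0 : 0 < m := ha.trans hma
  obtain ⟨p, hp⟩ : ∃ p : ℝ, p = (γ - 1) * m * m := ⟨_, rfl⟩
  have hp0 : 0 < p := by rw [hp]; positivity
  obtain ⟨σ, hσ⟩ : ∃ σ : ℝ, σ = √(√(γ * p * m)) := ⟨_, rfl⟩
  have hσ0 : 0 < σ := by
    rw [hσ]
    exact Real.sqrt_pos.2 (Real.sqrt_pos.2 (by positivity))
  obtain ⟨Z, hZ⟩ : ∃ Z : ℝ, Z = max σ (1 / σ) := ⟨_, rfl⟩
  have hZ0 : 0 < Z := by rw [hZ]; exact lt_max_of_lt_left hσ0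
  -- the number of the interfaces
  have hexp : Tendsto (fun N : ℕ => Real.exp (2 * Real.pi / N)) atTop (𝓝 1) := by
    have h1 : Tendsto (fun N : ℕ => 2 * Real.pi / (N : ℝ)) atTop (𝓝 0) :=
      tendsto_const_div_atTop_nhds_zero_nat _
    have h2 := (Real.continuous_exp.tendsto 0).comp h1
    rw [Real.exp_zero] at h2
    exact h2
  have hq1 : 1 < b / m := by rw [lt_div_iff₀ hm0]; linarith
  have hq2 : 1 < m / a := by rw [lt_div_iff₀ ha]; linarith
  obtain ⟨N₀, hN₀⟩ := eventually_atTop.1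
    ((hexp.eventually_lt_const hq1).and (hexp.eventually_lt_const hq2))
  obtain ⟨N, δ, η, s, T0, f, g, hN, hN1, hδ, hη, hηs, hsT0, hT0T, hsig, hB⟩ :=
    signals ((Z * (C + 1) + 1) / σ) T N₀ hT
  have hT0 : 0 < T0 := by linarith
  have hB0 : 0 < (Z * (C + 1) + 1) / σ := by positivity
  have hf : 0 ≤ f N s := hB0.le.trans hB
  obtain ⟨R0, x0, Ψ₁, Ψ₂, φ₁, φ₂, hR0, hD⟩ := exists_dual (P := γ * p) (ρA := m) hN1 hδ hη hηs hsT0
    hsig (by positivity) hm0 hf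
  rw [← hσ, ← hZ] at hD
  obtain ⟨e1, e2⟩ := hN₀ N hN
  -- the state of rest
  obtain ⟨ρ₀, hρ₀⟩ : ∃ ρ₀ : ℝ → ℝ, ρ₀ = rho0 (γ * p) m δ N := ⟨_, rfl⟩
  have hρm : Measurable ρ₀ := by rw [hρ₀]; exact measurable_rho0 _ _ _ _
  have hρb : ∀ x, m ≤ ρ₀ x ∧ ρ₀ x ≤ m * Real.exp (2 * Real.pi / N) := by
    rw [hρ₀]; exact rho0_bounds hm0
  have hρ0 : ∀ x, 0 < ρ₀ x := fun x => hm0.trans_le (hρb x).1
  have hlog : eVariationOn (fun x => Real.log (ρ₀ x)) univ ≤ ENNReal.ofReal (2 * Real.pi) := by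
    rw [hρ₀]; exact variation_log_rho0 hm0
  rw [← hρ₀] at hD
  have hρle : ∀ x, ρ₀ x ≤ b := fun x => by
    have h1 := (lt_div_iff₀ hm0).1 e1
    have h2 := (hρb x).2
    linarith
  have heeq : ∀ x, p / ((γ - 1) * ρ₀ x) = m * m / ρ₀ x := fun x => by
    have h1 := (hρ0 x).ne'
    rw [hp]
    field_simp
  have hbox : ∀ x, Box a b (ρ₀ x) 0 (p / ((γ - 1) * ρ₀ x)) := by
    intro x
    refine ⟨hma.le.trans (hρb x).1, hρle x, by rw [abs_zero]; exact hb.le, ?_, ?_⟩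
    · rw [heeq, le_div_iff₀ (hρ0 x)]
      have h1 := (lt_div_iff₀ ha).1 e2
      have h2 := (hρb x).2
      calc a * ρ₀ x ≤ a * (m * Real.exp (2 * Real.pi / N)) := by gcongr
        _ = m * (Real.exp (2 * Real.pi / N) * a) := by ring
        _ ≤ m * m := by gcongr
    · rw [heeq, div_le_iff₀ (hρ0 x)]
      have h2 := (hρb x).1
      calc m * m ≤ b * m := by gcongr
        _ ≤ b * ρ₀ x := by gcongr
  have hpr : ∀ x, pr γ (ρ₀ x) (p / ((γ - 1) * ρ₀ x)) = p := fun x => by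
    have h1 := (hρ0 x).ne'
    unfold pr
    field_simp
  -- the larger box
  have ha'' : 0 < min a a' := lt_min ha ha'
  obtain ⟨ε₀, hε₀, hpair⟩ := dual_pairing (κ := 1 / 2) hγ hT0 hT0T ha'' hR0 hρm
    (fun x => box_mono (min_le_left a a') (le_max_left b b') (hbox x)) hD (by norm_num)
  obtain ⟨ε, hε⟩ : ∃ ε : ℝ, ε = min ε₀ (min δ' b) := ⟨_, rfl⟩
  have hε0 : 0 < ε := by rw [hε]; exact lt_min hε₀ (lt_min hδ' hb)
  have hεε : ε ≤ ε₀ := by rw [hε]; exact min_le_left _ _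
  have hεδ : ε ≤ δ' := by rw [hε]; exact (min_le_right _ _).trans (min_le_left _ _)
  have hεb : ε ≤ b := by rw [hε]; exact (min_le_right _ _).trans (min_le_right _ _)
  have htv : tv₀ γ ρ₀ (fun x => if x < x0 then ε else 0) (fun x => p / ((γ - 1) * ρ₀ x)) ≤
      ENNReal.ofReal ε := by
    unfold tv₀
    have h1 : (fun x => pr γ (ρ₀ x) (p / ((γ - 1) * ρ₀ x))) = fun _ => p := funext hpr
    rw [h1, eTV_const, add_zero]
    exact eTV_step ε x0 hε0.le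
  have hsm : Small γ a b V δ' ρ₀ (fun x => if x < x0 then ε else 0)
      (fun x => p / ((γ - 1) * ρ₀ x)) := by
    refine ⟨⟨hρm, ?_, ?_, ?_⟩, ?_, ?_⟩
    · exact Measurable.ite measurableSet_Iio measurable_const measurable_const
    · fun_prop
    · refine Eventually.of_forall fun x => ?_
      obtain ⟨h1, h2, -, h4, h5⟩ := hbox x
      refine ⟨h1, h2, ?_, h4, h5⟩
      split_ifs
      · rw [abs_of_pos hε0]; exact hεb
      · rw [abs_zero]; exact hb.le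
    · exact (eTV_le _).trans (hlog.trans (ENNReal.ofReal_le_ofReal hV))
    · exact htv.trans (ENNReal.ofReal_le_ofReal hεδ)
  obtain ⟨ρ, u, e, hsol, hatt, hbd⟩ := hst _ _ _ hsm
  have hsol' : IsSol γ T (min a a') (max b b') ρ u e :=
    sol_mono (min_le_right _ _) (le_max_right _ _) hsol
  have hp1 := hpair ε ρ u e hε0 hεε hsol' hatt
  -- choose a time
  obtain ⟨t, ht, ht1, ht2, ht3⟩ := exists_mem_Ioo (x := T0 - η) (y := T0) (by linarith)
    (P := fun t => |(∫ x, (u (t, x) * (ρ₀ x * φ₁ (t, x)) +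
          (pr γ (ρ (t, x)) (e (t, x)) - p) * φ₂ (t, x))) - ε * Ψ₁ (0, x0)| ≤ 1 / 2 * ε ∧
        eTV (sl u t) + eTV (fun x => pr γ (ρ (t, x)) (e (t, x))) ≤
          ENNReal.ofReal C₁ * tv₀ γ ρ₀ (fun x => if x < x0 then ε else 0)
            (fun x => p / ((γ - 1) * ρ₀ x)) ∧
        ∀ᵐ x : ℝ, Box (min a a') (max b b') (ρ (t, x)) (u (t, x)) (e (t, x)))
    (by
      filter_upwards [hp1, hbd, ae_slice hsol'.box] with t h1 h2 h3 ht
      have h4 : t ∈ Ioo 0 T0 := ⟨by linarith [ht.1], ht.2⟩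
      have h5 : t ∈ Ioo 0 T := ⟨h4.1, h4.2.trans hT0T⟩
      exact ⟨h1 h4, h2 h5, h3 h5⟩)
  have htI : t ∈ Icc 0 T0 := ⟨by linarith [ht.1], ht.2.le⟩
  have htη : t ∈ Icc (T0 - η) T0 := ⟨ht.1.le, ht.2.le⟩
  obtain ⟨K₁, hK₁⟩ := hD.lip₁
  obtain ⟨K₂, hK₂⟩ := hD.lip₂
  obtain ⟨c1, i1, b1⟩ := slice_bound hK₁ (t := t) hR0 fun x hx => (hD.supp t htI x hx).1
  obtain ⟨c2, i2, b2⟩ := slice_bound hK₂ (t := t) hR0 fun x hx => (hD.supp t htI x hx).2.1
  obtain ⟨S, hS, hder⟩ := hD.deriv t htI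
  obtain ⟨k1, k2⟩ := hD.cont t htI
  -- the bounds for the two pairings
  have hum : Measurable (sl u t) := hsol.meas_u.comp measurable_prodMk_left
  have hqm : Measurable (fun x => pr γ (ρ (t, x)) (e (t, x))) :=
    (measurable_pr (γ := γ) hsol.meas_ρ hsol.meas_e).comp measurable_prodMk_left
  have P1 : ENNReal.ofReal |∫ x, sl u t x * (ρ₀ x * φ₁ (t, x))| ≤
      ENNReal.ofReal Z * eTV (sl u t) := by
    refine tv_pair (M := b * (K₁ * (2 * R0))) (R := R0) hum k1 (hρm.mul c1.measurable) ?_ ?_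
      (fun x => (hD.bound t htη x).1) hS (fun x hx => (hder x hx).1)
    · intro x
      have hK0 : (0 : ℝ) ≤ K₁ := K₁.2
      rw [abs_mul, abs_of_pos (hρ0 x)]
      exact mul_le_mul (hρle x) (b1 x) (abs_nonneg _) hb.le
    · intro x hx
      have h1 := hD.supp t htI x hx
      exact ⟨h1.2.2.1, by show ρ₀ x * φ₁ (t, x) = 0; rw [h1.1, mul_zero]⟩
  have P2 : ENNReal.ofReal |∫ x, (pr γ (ρ (t, x)) (e (t, x)) + -p) * φ₂ (t, x)| ≤
      ENNReal.ofReal Z * eTV (fun x => pr γ (ρ (t, x)) (e (t, x)) + -p) := by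
    exact tv_pair (M := K₂ * (2 * R0)) (R := R0) (hqm.add_const _) k2 c2.measurable b2
      (fun x hx => ⟨(hD.supp t htI x hx).2.2.2, (hD.supp t htI x hx).2.1⟩)
      (fun x => (hD.bound t htη x).2) hS (fun x hx => (hder x hx).2)
  rw [eTV_add_const] at P2
  obtain ⟨I₁, hI₁⟩ : ∃ I₁ : ℝ, I₁ = ∫ x, sl u t x * (ρ₀ x * φ₁ (t, x)) := ⟨_, rfl⟩
  obtain ⟨I₂, hI₂⟩ : ∃ I₂ : ℝ, I₂ = ∫ x, (pr γ (ρ (t, x)) (e (t, x)) + -p) * φ₂ (t, x) := ⟨_, rfl⟩
  rw [← hI₁] at P1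
  rw [← hI₂] at P2
  -- splitting
  have hsplit : ∫ x, (u (t, x) * (ρ₀ x * φ₁ (t, x)) +
      (pr γ (ρ (t, x)) (e (t, x)) - p) * φ₂ (t, x)) = I₁ + I₂ := by
    rw [hI₁, hI₂, ← integral_add]
    · congr 1
    · have h1 : (fun x => sl u t x * (ρ₀ x * φ₁ (t, x))) =
          fun x => (sl u t x * ρ₀ x) * φ₁ (t, x) := by
        funext x; ring
      rw [h1]
      refine i1.bdd_mul (c := max b b' * b) (hum.mul hρm).aestronglyMeasurable ?_
      filter_upwards [ht3] with x hx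
      rw [Real.norm_eq_abs, abs_mul, abs_of_pos (hρ0 x)]
      exact mul_le_mul hx.2.2.1 (hρle x) (hρ0 x).le (hb.le.trans (le_max_left _ _))
    · refine i2.bdd_mul (c := (γ - 1) * max b b' * max b b' + p)
        (hqm.add_const _).aestronglyMeasurable ?_
      filter_upwards [ht3] with x hx
      obtain ⟨h1, h2, -, h4, h5⟩ := hx
      rw [Real.norm_eq_abs]
      refine (abs_add_le _ _).trans ?_
      rw [abs_neg, abs_of_pos hp0]
      have h6 : |pr γ (ρ (t, x)) (e (t, x))| ≤ (γ - 1) * max b b' * max b b' := by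
        unfold pr
        have h7 : 0 < ρ (t, x) := ha''.trans_le h1
        have h8 : 0 < e (t, x) := ha''.trans_le h4
        rw [abs_of_pos (by positivity)]
        gcongr
      linarith
  rw [hsplit] at ht1
  -- the sum of the pairings
  have hsum : |I₁| + |I₂| ≤ Z * (C * ε) := by
    have h1 : ENNReal.ofReal (|I₁| + |I₂|) ≤ ENNReal.ofReal (Z * (C * ε)) := by
      rw [ENNReal.ofReal_add (abs_nonneg _) (abs_nonneg _), ENNReal.ofReal_mul hZ0.le,
        ENNReal.ofReal_mul hC0]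
      calc ENNReal.ofReal |I₁| + ENNReal.ofReal |I₂|
          ≤ ENNReal.ofReal Z * eTV (sl u t) +
            ENNReal.ofReal Z * eTV (fun x => pr γ (ρ (t, x)) (e (t, x))) := add_le_add P1 P2
        _ = ENNReal.ofReal Z * (eTV (sl u t) +
            eTV (fun x => pr γ (ρ (t, x)) (e (t, x)))) := by rw [mul_add]
        _ ≤ ENNReal.ofReal Z * (ENNReal.ofReal C * ENNReal.ofReal ε) := by
            gcongr
            exact ht2.trans (mul_le_mul' hC1 htv)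
    exact (ENNReal.ofReal_le_ofReal_iff (by positivity)).1 h1
  have hlow : ε * (Z * (C + 1) + 1) ≤ ε * Ψ₁ (0, x0) := by
    have h1 : Z * (C + 1) + 1 ≤ σ * f N s := by
      have h2 := (div_le_iff₀ hσ0).1 hB
      linarith
    exact mul_le_mul_of_nonneg_left (h1.trans hD.large) hε0.le
  have h1 : ε * Ψ₁ (0, x0) - 1 / 2 * ε ≤ |I₁| + |I₂| := by
    have h2 := (abs_le.1 ht1).1
    have h3 := (le_abs_self (I₁ + I₂)).trans (abs_add_le I₁ I₂)
    linarith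
  have h2 : 0 < Z * ε := by positivity
  nlinarith

end Helper51.TH
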