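import Pool.Agent.Helper51.TH.Limit
import Pool.Agent.Helper51.TH.NegFinal

/-!
TH-P35. The sharp threshold.

PROOF. `stableAll`: `exists_seq` gives `δ, z₁, ...`, `exists_limit` gives `C', a', b'`; take `min δ 1` as the smallness
constant (`Small` is monotone in `δ`). `StableAll → StableOn T`: restrict to `(0, T)`. `StableOn → V < 2π`: `not_stableOn`.
-/

open MeasureTheory Set Filter Topology
open scoped ENNReal

namespace Helper51.TH

open Helper73.EU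

theorem stableAll {γ a b V : ℝ} (hγ : 1 < γ) (ha : 0 < a) (hV : V < 2 * Real.pi) :
    StableAll γ a b V := by
  obtain ⟨δ, z₁, z₂, Λ, U, C, hδ, hz, hC, h⟩ := exists_seq (b := b) hγ ha hV
  obtain ⟨C', a', b', ha', h'⟩ := exists_limit (z₂ := z₂) (Λ := Λ) (U := U) hγ hz hC
  refine ⟨min δ 1, C', a', b', lt_min hδ one_pos, ha', fun ρ₀ u₀ e₀ hs => ?_⟩
  obtain ⟨W, ε, hW⟩ := h ρ₀ u₀ e₀ ⟨hs.datum, hs.large,
    hs.small.trans (ENNReal.ofReal_le_ofReal (min_le_left _ _))⟩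
  exact h' ρ₀ u₀ e₀ W ε a b ha hs.datum (hs.small.trans ((ENNReal.ofReal_le_ofReal
    (min_le_right _ _)).trans (by simp))) hW

theorem StableAll.on {γ a b V T : ℝ} (hT : 0 < T) (h : StableAll γ a b V) :
    StableOn γ a b V T := by
  obtain ⟨δ, C, a', b', hδ, ha', h⟩ := h
  refine ⟨δ, C, a', b', hδ, ha', fun ρ₀ u₀ e₀ hs => ?_⟩
  obtain ⟨ρ, u, e, h1, h2⟩ := h ρ₀ u₀ e₀ hs
  exact ⟨ρ, u, e, (h1 T hT).1, (h1 T hT).2, Eventually.of_forall fun t ht => (h2 t ht.1).1⟩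

theorem main {γ a b V : ℝ} (hγ : 1 < γ) (ha : 0 < a) (hab : a < b) :
    (StableAll γ a b V ↔ V < 2 * Real.pi) ∧
    ∀ T : ℝ, 0 < T → (StableOn γ a b V T ↔ V < 2 * Real.pi) := by
  have key : ∀ T : ℝ, 0 < T → (StableOn γ a b V T ↔ V < 2 * Real.pi) := fun T hT =>
    ⟨fun h => lt_of_not_ge fun hV => not_stableOn hγ ha hab hT hV h,
      fun hV => (stableAll hγ ha hV).on hT⟩
  exact ⟨⟨fun h => (key 1 one_pos).1 (h.on one_pos), fun hV => stableAll hγ ha hV⟩, key⟩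

end Helper51.TH
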