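import Pool.Agent.Helper51.TH.NDefs

/-!
TH-N07. The delays are pairwise different.

PROOF. Claim, by induction on `ps` (generalising `l`, `a`): if `ps` is a list of pairwise different primes and
`l.map Prod.snd = ps.map (fun p => δ * log p)` then there is a list `ns : List ℕ` with `ns.Nodup`, every `n ∈ ns` is
positive and has all its prime factors in `ps`, and `(paths rN M l a).map Prod.snd = ns.map (fun n => 2 * δ * log n)`.
`[]`: `l = []`, `ns = [1]`. `p :: ps`: `l = q :: l'` with `q.2 = δ log p`. Let `ns b` be the list for `l'` and `b`; put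
`ns = (List.range M).flatMap fun b => (ns b).map (fun n => n * p ^ b)` (`log (n p^b) = log n + b log p`). Nodup: if
`n p^b = n' p^b'` with `n, n'` prime to `p` then `b = b'` (exponent of `p`, `Nat.factorization` or `padicValNat`) and
`n = n'`; use `List.nodup_flatMap` and `List.Nodup.map_on`.
Finally `n ↦ 2 δ log n` is injective on the positive integers (`Real.log_injOn_pos`), so the image list is `Nodup`.
The second theorem: `lst` has the second components `δ log (nth Prime i)`, and `nth Prime` is injective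
(`Nat.nth_injective`, `Nat.infinite_setOf_prime`) with prime values (`Nat.prime_nth_prime`).
-/

namespace Helper51.TH

private theorem ne_of_exp {p n n' b b' : ℕ} (hp : p.Prime) (hn : ¬ p ∣ n)
    (hb : b < b') : n * p ^ b ≠ n' * p ^ b' := by
  intro h
  obtain ⟨k, rfl⟩ : ∃ k, b' = b + (k + 1) := ⟨b' - b - 1, by omega⟩
  have h1 : n * p ^ b = n' * p ^ (k + 1) * p ^ b := by
    rw [h, pow_add]
    ring
  have h2 : n = n' * p ^ (k + 1) := Nat.eq_of_mul_eq_mul_right (pow_pos hp.pos b) h1
  apply hn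
  rw [h2, pow_succ]
  exact ⟨n' * p ^ k, by ring⟩

private theorem key (δ : ℝ) (ps : List ℕ) : ps.Nodup → (∀ p ∈ ps, p.Prime) →
    ∀ (l : List (ℝ × ℝ)), l.map Prod.snd = ps.map (fun p : ℕ => δ * Real.log p) →
    ∀ (rN : ℝ) (M a : ℕ), ∃ ns : List ℕ, ns.Nodup ∧
      (∀ n ∈ ns, 0 < n ∧ ∀ q : ℕ, q.Prime → q ∣ n → q ∈ ps) ∧
      (paths rN M l a).map Prod.snd = ns.map (fun n : ℕ => 2 * δ * Real.log n) := by
  induction ps with
  | nil =>
    intro _ _ l hl rN M a
    have hl' : l = [] := by
      rw [List.map_nil, List.map_eq_nil_iff] at hl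
      exact hl
    subst hl'
    refine ⟨[1], by simp, ?_, by simp [paths]⟩
    intro n hn
    rw [List.mem_singleton] at hn
    subst hn
    refine ⟨one_pos, fun q hq hq1 => ?_⟩
    exact absurd (Nat.dvd_one.1 hq1) hq.one_lt.ne'
  | cons p ps ih =>
    intro hnd hpr l hl rN M a
    rw [List.nodup_cons] at hnd
    obtain ⟨hp, hnd⟩ := hnd
    rcases l with _ | ⟨q, l⟩
    · simp at hl
    rw [List.map_cons, List.map_cons, List.cons.injEq] at hl
    obtain ⟨hq, hl⟩ := hl
    have hpp : p.Prime := hpr p (by simp)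
    have ih' := fun b : ℕ => ih hnd (fun p' hp' => hpr p' (List.mem_cons_of_mem _ hp')) l hl rN M b
    choose ns hns1 hns2 hns3 using ih'
    have hpn : ∀ b, ∀ n ∈ ns b, ¬ p ∣ n := fun b n hn hd => hp ((hns2 b n hn).2 p hpp hd)
    refine ⟨(List.range M).flatMap fun b => (ns b).map (fun n => n * p ^ b), ?_, ?_, ?_⟩
    · rw [List.nodup_flatMap]
      refine ⟨fun b _ => ?_, ?_⟩
      · refine List.Nodup.map ?_ (hns1 b)
        intro n n' h
        exact Nat.eq_of_mul_eq_mul_right (pow_pos hpp.pos b) h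
      · refine List.Nodup.pairwise_of_forall_ne List.nodup_range ?_
        intro b _ b' _ hbb
        show List.Disjoint _ _
        intro x hx hx'
        rw [List.mem_map] at hx hx'
        obtain ⟨n, hn, rfl⟩ := hx
        obtain ⟨n', hn', he⟩ := hx'
        rcases lt_or_gt_of_ne hbb with h | h
        · exact ne_of_exp hpp (hpn b n hn) h he.symm
        · exact ne_of_exp hpp (hpn b' n' hn') h he
    · intro x hx
      rw [List.mem_flatMap] at hx
      obtain ⟨b, _, hx⟩ := hx
      rw [List.mem_map] at hx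
      obtain ⟨n, hn, rfl⟩ := hx
      obtain ⟨h1, h2⟩ := hns2 b n hn
      refine ⟨Nat.mul_pos h1 (pow_pos hpp.pos b), fun r hr hd => ?_⟩
      rcases (hr.dvd_mul).1 hd with h | h
      · exact List.mem_cons_of_mem _ (h2 r hr h)
      · have h3 := hr.dvd_of_dvd_pow h
        rw [(Nat.prime_dvd_prime_iff_eq hr hpp).1 h3]
        exact List.mem_cons_self
    · show ((List.range M).flatMap fun b =>
        (paths rN M l b).map fun q' => (Q q.1 a b * q'.1, q'.2 + 2 * b * q.2)).map Prod.snd = _
      rw [List.map_flatMap, List.map_flatMap]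
      congr 1
      funext b
      rw [List.map_map, List.map_map]
      have h1 : (Prod.snd ∘ fun q' : ℝ × ℝ => (Q q.1 a b * q'.1, q'.2 + 2 * b * q.2)) =
          (fun t : ℝ => t + 2 * b * q.2) ∘ Prod.snd := by
        funext q'
        rfl
      rw [h1, ← List.map_map, hns3 b, List.map_map]
      refine List.map_congr_left fun n hn => ?_
      have hn0 : (n : ℝ) ≠ 0 := by
        have := (hns2 b n hn).1
        exact_mod_cast this.ne'
      have hp0 : ((p : ℝ) ^ b) ≠ 0 := pow_ne_zero _ (by exact_mod_cast hpp.ne_zero)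
      show 2 * δ * Real.log n + 2 * b * q.2 = 2 * δ * Real.log ((n * p ^ b : ℕ) : ℝ)
      rw [hq, Nat.cast_mul, Nat.cast_pow, Real.log_mul hn0 hp0, Real.log_pow]
      ring

private theorem lift_eq (ps : List ℕ) :
    ((do let a ← ps; pure (a : ℝ)) : List ℝ) = ps.map (fun n : ℕ => (n : ℝ)) := by
  induction ps with
  | nil => rfl
  | cons p ps ih =>
    rw [List.map_cons, ← ih]
    rfl

theorem paths_nodup {δ : ℝ} (hδ : 0 < δ) (ps : List ℕ) (h1 : ps.Nodup)
    (h2 : ∀ p ∈ ps, p.Prime) (l : List (ℝ × ℝ))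
    (hl : l.map Prod.snd = ps.map fun p => δ * Real.log p) (rN : ℝ) (M a : ℕ) :
    ((paths rN M l a).map Prod.snd).Nodup := by
  obtain ⟨ns, hn1, hn2, hn3⟩ := key δ ps h1 h2 l (by
    rw [hl, lift_eq, List.map_map]; rfl) rN M a
  rw [hn3]
  refine List.Nodup.map_on ?_ hn1
  intro n hn n' hn' h
  have ha : (0 : ℝ) < n := by exact_mod_cast (hn2 n hn).1
  have hb : (0 : ℝ) < n' := by exact_mod_cast (hn2 n' hn').1
  have h3 : Real.log n = Real.log n' := by
    have h4 : (2 * δ) * Real.log n = (2 * δ) * Real.log n' := h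
    exact mul_left_cancel₀ (by positivity) h4
  have h5 := Real.log_injOn_pos (Set.mem_Ioi.2 ha) (Set.mem_Ioi.2 hb) h3
  exact_mod_cast h5

theorem paths_lst_nodup {δ : ℝ} (hδ : 0 < δ) (r : ℝ) (n : ℕ) (rN : ℝ) (M a : ℕ) :
    ((paths rN M (lst r δ n) a).map Prod.snd).Nodup := by
  refine paths_nodup hδ ((List.range n).map (Nat.nth Nat.Prime)) ?_ ?_ _ ?_ rN M a
  · exact List.Nodup.map (Nat.nth_injective Nat.infinite_setOfPred_prime) List.nodup_range
  · intro p hp
    rw [List.mem_map] at hp
    obtain ⟨i, _, rfl⟩ := hp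
    exact Nat.prime_nth_prime i
  · unfold lst
    rw [lift_eq, List.map_map, List.map_map, List.map_map]
    rfl

end Helper51.TH
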