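import Pool.Agent.Helper51.TH.Defs

/-!
Project TH (MP_55694c_an), positive half: definitions for the Glimm scheme.

States are described by `z = p^((γ-1)/(2γ))`, the velocity `u` and `l = log κ`, where `κ² = γ p^(1/γ)/ρ`; the sound
speed is `c = κ z`. A contact discontinuity is a jump of `l` alone.
-/

open MeasureTheory Set Filter Topology
open scoped ENNReal NNReal

namespace Helper51.TH

open Helper73.EU

/-- A state. -/
@[ext] structure St where
  z : ℝ
  u : ℝ
  l : ℝ

/-- `2/(γ-1)`. -/
noncomputable def k0 (γ : ℝ) : ℝ := 2 / (γ - 1)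

/-- The negative part. -/
noncomputable def ng (x : ℝ) : ℝ := max (-x) 0

/-- The pressure. -/
noncomputable def prs (γ : ℝ) (w : St) : ℝ := w.z ^ (2 * γ / (γ - 1))

/-- The density. -/
noncomputable def rho (γ : ℝ) (w : St) : ℝ := γ * w.z ^ (2 / (γ - 1)) * Real.exp (-(2 * w.l))

/-- The internal energy. -/
noncomputable def ien (γ : ℝ) (w : St) : ℝ := prs γ w / ((γ - 1) * rho γ w)

/-- The pressure ratio (behind/ahead) across a wave of relative amplitude `y` (`y < 0`: shock; for
`y ≥ 0` it is `1` by convention). -/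
noncomputable def PR (γ y : ℝ) : ℝ := (1 + ng y) ^ (2 * γ / (γ - 1))

/-- The velocity jump across a wave of relative amplitude `y`, in units of the sound speed ahead:
rarefaction for `y ≥ 0`, shock for `y < 0`. -/
noncomputable def GG (γ y : ℝ) : ℝ :=
  k0 γ * max y 0 - (PR γ y - 1) / (γ * √(1 + (γ + 1) / (2 * γ) * (PR γ y - 1)))

/-- The jump of `l` (behind minus ahead). -/
noncomputable def S0 (γ y : ℝ) : ℝ :=
  Real.log (PR γ y ^ (1 / γ) * (((γ - 1) * PR γ y + (γ + 1)) /
    ((γ + 1) * PR γ y + (γ - 1)))) / 2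

/-- The velocity jump `u_right - u_left` across a wave of amplitude `a` with the state `(z, l)` ahead. -/
noncomputable def hj (γ a z l : ℝ) : ℝ := Real.exp l * z * GG γ (a / z)

/-- The jump of `l` across this wave (behind minus ahead). -/
noncomputable def sj (γ a z : ℝ) : ℝ := S0 γ (a / z)

/-- `a` and `b` are the amplitudes of the 1-wave and the 3-wave of the Riemann problem `(L, R)`.
The intermediate states have `z = L.z - a = R.z - b`. -/
structure Rie (γ : ℝ) (L R : St) (a b : ℝ) : Prop where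
  z : L.z - a = R.z - b
  u : R.u - L.u = hj γ a L.z L.l + hj γ b R.z R.l

open Classical in
/-- The amplitude of the 1-wave. -/
noncomputable def ra (γ : ℝ) (L R : St) : ℝ :=
  if h : ∃ p : ℝ × ℝ, Rie γ L R p.1 p.2 then h.choose.1 else 0

open Classical in
/-- The amplitude of the 3-wave. -/
noncomputable def rb (γ : ℝ) (L R : St) : ℝ :=
  if h : ∃ p : ℝ × ℝ, Rie γ L R p.1 p.2 then h.choose.2 else 0

/-- The strength of the contact discontinuity. -/
noncomputable def sg (γ : ℝ) (L R : St) : ℝ :=
  (R.l + sj γ (rb γ L R) R.z) - (L.l + sj γ (ra γ L R) L.z)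

/-- The box of states of the scheme. -/
def InB (z₁ z₂ Λ : ℝ) (w : St) : Prop := z₁ ≤ w.z ∧ w.z ≤ z₂ ∧ |w.l| ≤ Λ

/-- Cubic functions: zero for `y ≥ 0`, with derivative of size `y²` for `y < 0`. -/
def Cubic (f : ℝ → ℝ) (C : ℝ) : Prop :=
  (∀ y, 0 ≤ y → f y = 0) ∧ ∀ x y, |x| ≤ 1 / 2 → |y| ≤ 1 / 2 →
    |f x - f y| ≤ C * max (ng x) (ng y) ^ 2 * |x - y|

/-- The interaction of two waves of the same family. -/
noncomputable def ap (x y : ℝ) : ℝ := ng x * |y| + |x| * ng y

/-- The data of the solution of a Riemann problem used by the functionals: the scaled absolute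
amplitudes `p, q`, the amplitudes `a, b`, the content `s` (half of the absolute contact strength). -/
structure Wv where
  p : ℝ
  q : ℝ
  a : ℝ
  b : ℝ
  s : ℝ

/-- The waves between two states. -/
noncomputable def wv (γ : ℝ) (L R : St) : Wv :=
  ⟨Real.exp (L.l / 2) * |ra γ L R|, Real.exp (R.l / 2) * |rb γ L R|, ra γ L R, rb γ L R,
    |sg γ L R| / 2⟩

/-- The waves of a list of states. -/
noncomputable def waves (γ : ℝ) : List St → List Wv
  | [] => []
  | [_] => []
  | L :: R :: t => wv γ L R :: waves γ (R :: t)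

/-- The total content. -/
noncomputable def Vc (W : List Wv) : ℝ := (W.map Wv.s).sum

/-- The weight. -/
noncomputable def wt (θ μ x : ℝ) : ℝ := Real.sin (θ + μ * x)

/-- The weighted amplitude, if the outer contents are `L0` on the left and `R0` on the right. -/
noncomputable def As (θ μ : ℝ) : ℝ → ℝ → List Wv → ℝ
  | _, _, [] => 0
  | L0, R0, w :: W => wt θ μ L0 * w.p + wt θ μ (R0 + Vc W) * w.q + As θ μ (L0 + w.s) R0 W

/-- The interaction of a wave record on the left with one on the right. -/
noncomputable def qq2 (v w : Wv) : ℝ := |v.b| * |w.a| + ap v.a w.a + ap v.b w.b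

/-- The interaction potential. -/
noncomputable def Qp : List Wv → ℝ
  | [] => 0
  | w :: W => (W.map fun v => qq2 w v).sum + Qp W

/-- The unweighted amplitude. -/
noncomputable def Am (W : List Wv) : ℝ := (W.map fun w => |w.a| + |w.b|).sum

/-- The Glimm functional of a list of states. -/
noncomputable def FF (γ θ μ K : ℝ) (ws : List St) : ℝ :=
  As θ μ 0 0 (waves γ ws) + K * Qp (waves γ ws)

/-- The content of a list of states. -/
noncomputable def VV (γ : ℝ) (ws : List St) : ℝ := Vc (waves γ ws)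

/-- The 1-wave fan behind the left state `L`, amplitude `a`, at the speed `ξ`. -/
noncomputable def fan1 (γ : ℝ) (L : St) (a ξ : ℝ) : St :=
  if 0 ≤ a then
    ⟨L.z - max 0 (min a ((ξ - (L.u - Real.exp L.l * L.z)) / (Real.exp L.l * (k0 γ + 1)))),
      L.u + k0 γ * Real.exp L.l *
        max 0 (min a ((ξ - (L.u - Real.exp L.l * L.z)) / (Real.exp L.l * (k0 γ + 1)))), L.l⟩
  else if ξ < L.u - Real.exp L.l * L.z *
      √(1 + (γ + 1) / (2 * γ) * (PR γ (a / L.z) - 1)) then L
  else ⟨L.z - a, L.u + hj γ a L.z L.l, L.l + sj γ a L.z⟩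

/-- The mirror image of a state. -/
def mir (w : St) : St := ⟨w.z, -w.u, w.l⟩

/-- The solution of the Riemann problem `(L, R)` at the speed `ξ = x/t`. -/
noncomputable def fan (γ : ℝ) (L R : St) (ξ : ℝ) : St :=
  if ξ < L.u + hj γ (ra γ L R) L.z L.l then fan1 γ L (ra γ L R) ξ
  else mir (fan1 γ (mir R) (rb γ L R) (-ξ))

/-- The conserved quantities (`k = 0, 1, 2`: mass, momentum, energy) and the entropy (`k = 3`). -/
noncomputable def cq (γ : ℝ) (k : Fin 4) (w : St) : ℝ :=
  ![rho γ w, rho γ w * w.u, rho γ w * en w.u (ien γ w),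
    rho γ w * ent γ (rho γ w) (ien γ w)] k

/-- The fluxes. -/
noncomputable def cf (γ : ℝ) (k : Fin 4) (w : St) : ℝ :=
  ![rho γ w * w.u, rho γ w * w.u ^ 2 + pr γ (rho γ w) (ien γ w),
    rho γ w * en w.u (ien γ w) * w.u + pr γ (rho γ w) (ien γ w) * w.u,
    rho γ w * w.u * ent γ (rho γ w) (ien γ w)] k

end Helper51.TH
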