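import Pool.Agent.Helper51.TH.NDefs

/-!
TH-N06. The response function as a sum over the list `paths`.

PROOF. (1) Induction on `l` (generalising `a`, `t`): `List.sum` of a `flatMap` is the sum of the sums, and
`∑ b ∈ Finset.range M` is the sum over `List.range M` (`Finset.sum_range`/`List.sum_range` ...).
(2) `paths` for `m + 1 ≤ M`: induction on `l`. For `p :: l`, keep only the `b ≤ m` in `List.range M` (all terms are
nonnegative); for `q ∈ paths l b` with `q.2 ≤ 2 m (sum l)` one has `q.2 + 2 b p.2 ≤ 2 m (p.2 + sum l)`, so the term of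
`(Q p.1 a b * q.1, q.2 + 2 b p.2)` is `|Q p.1 a b| |q.1|`; for the other `q` the term is `≥ 0`.
(3) Nonnegative delays: induction.
-/

namespace Helper51.TH

private theorem pa_flat (F : ℕ → List (ℝ × ℝ)) (g : ℝ × ℝ → ℝ) (M : ℕ) :
    (((List.range M).flatMap F).map g).sum = ∑ b ∈ Finset.range M, ((F b).map g).sum := by
  induction M with
  | zero => simp
  | succ M ih =>
    rw [List.range_succ, List.flatMap_append, List.map_append, List.sum_append, ih,
      Finset.sum_range_succ]
    simp

private theorem pa_mul (c : ℝ) (g : ℝ × ℝ → ℝ) (L : List (ℝ × ℝ)) :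
    c * (L.map g).sum = (L.map fun q => c * g q).sum := by
  induction L with
  | nil => simp
  | cons x L ih => rw [List.map_cons, List.sum_cons, mul_add, ih, List.map_cons, List.sum_cons]

private theorem pa_le (g h : ℝ × ℝ → ℝ) (L : List (ℝ × ℝ)) (H : ∀ q ∈ L, g q ≤ h q) :
    (L.map g).sum ≤ (L.map h).sum := by
  induction L with
  | nil => simp
  | cons x L ih =>
    rw [List.map_cons, List.sum_cons, List.map_cons, List.sum_cons]
    exact add_le_add (H x (by simp)) (ih fun q hq => H q (by simp [hq]))

private theorem pa_nonneg (g : ℝ × ℝ → ℝ) (L : List (ℝ × ℝ)) (H : ∀ q ∈ L, 0 ≤ g q) :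
    0 ≤ (L.map g).sum := by
  induction L with
  | nil => simp
  | cons x L ih =>
    rw [List.map_cons, List.sum_cons]
    exact add_nonneg (H x (by simp)) (ih fun q hq => H q (by simp [hq]))

theorem KK_eq_paths (rN : ℝ) (M : ℕ) (l : List (ℝ × ℝ)) (a : ℕ) (f : ℝ → ℝ) (t : ℝ) :
    KK rN M l a f t = ((paths rN M l a).map fun q => q.1 * f (t - q.2)).sum := by
  induction l generalizing a t with
  | nil => simp [KK, paths]
  | cons p l ih =>
    rw [KK, paths, pa_flat]
    refine Finset.sum_congr rfl fun b _ => ?_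
    rw [ih, pa_mul, List.map_map]
    congr 1
    refine List.map_congr_left fun q _ => ?_
    simp only [Function.comp_apply]
    rw [show t - (q.2 + 2 * b * p.2) = t - 2 * b * p.2 - q.2 by ring]
    ring

theorem SA_le_paths {rN : ℝ} {M m : ℕ} (hM : m + 1 ≤ M) (l : List (ℝ × ℝ)) (hl : ∀ p ∈ l, 0 ≤ p.2)
    (a : ℕ) : SA rN m l a ≤ ((paths rN M l a).map fun q =>
      if q.2 ≤ 2 * m * (l.map Prod.snd).sum then |q.1| else 0).sum := by
  induction l generalizing a with
  | nil => simp [SA, paths, abs_pow]
  | cons p l ih =>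
    rw [SA, paths, pa_flat]
    have hp : 0 ≤ p.2 := hl p (by simp)
    have hl' : ∀ q ∈ l, 0 ≤ q.2 := fun q hq => hl q (by simp [hq])
    refine le_trans ?_ (Finset.sum_le_sum_of_subset_of_nonneg
      (Finset.range_subset_range.2 hM) fun b _ _ => ?_)
    · refine Finset.sum_le_sum fun b hb => ?_
      rw [Finset.mem_range] at hb
      refine le_trans (mul_le_mul_of_nonneg_left (ih hl' b) (abs_nonneg _)) ?_
      rw [pa_mul, List.map_map]
      refine pa_le _ _ _ fun q _ => ?_
      simp only [Function.comp_apply]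
      by_cases h : q.2 ≤ 2 * m * (l.map Prod.snd).sum
      · have hb' : (b : ℝ) ≤ m := by exact_mod_cast (by omega : b ≤ m)
        have h1 : q.2 + 2 * b * p.2 ≤ 2 * m * ((p :: l).map Prod.snd).sum := by
          rw [List.map_cons, List.sum_cons]
          have h2 := mul_le_mul_of_nonneg_right hb' hp
          nlinarith
        rw [if_pos h, if_pos h1, abs_mul]
      · rw [if_neg h, mul_zero]
        split_ifs
        · exact abs_nonneg _
        · exact le_rfl
    · refine pa_nonneg _ _ fun q _ => ?_
      split_ifs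
      · exact abs_nonneg _
      · exact le_rfl

theorem paths_nonneg {rN : ℝ} {M : ℕ} {l : List (ℝ × ℝ)} (hl : ∀ p ∈ l, 0 ≤ p.2) {a : ℕ}
    {q : ℝ × ℝ} (hq : q ∈ paths rN M l a) : 0 ≤ q.2 := by
  induction l generalizing a q with
  | nil =>
    simp only [paths, List.mem_singleton] at hq
    rw [hq]
  | cons p l ih =>
    rw [paths, List.mem_flatMap] at hq
    obtain ⟨b, _, hb⟩ := hq
    rw [List.mem_map] at hb
    obtain ⟨q', hq', rfl⟩ := hb
    have h1 := ih (fun p hp => hl p (by simp [hp])) hq'
    have h2 := hl p (by simp)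
    simp only
    positivity

end Helper51.TH
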