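import Pool.Agent.Helper51.TH.NDefs

/-!
TH-N01. The coefficients `Q r a b` for small `r`.

PROOF. `Q` is defined by `Q 0 b = (-r)^b`, `Q (a+1) 0 = r Q a 0`,
`Q (a+1) (b+1) = r Q a (b+1) + Q a b - r Q (a+1) b`.
Let `L r a b = δ_{ab} + r (a δ_{a,b+1} - (a+1) δ_{b,a+1})` (the claimed first order part). Claim: for all `a, b`
there are `C ≥ 0`, `D ≥ 0` with `|Q r a b - L r a b| ≤ C r^2` and `|Q r a b| ≤ D` for `|r| ≤ 1` (the second follows
from the first, `D = C + 1 + (a + 1)`). Induction on `a`, and for fixed `a` on `b`: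
* `a = 0`: `Q = (-r)^b`; `b = 0`: `Q = 1 = L`. `b = 1`: `Q = -r = L`. `b ≥ 2`: `L = 0`, `|r^b| ≤ r^2`.
* `(a+1, 0)`: `Q = r Q a 0`. `L r (a+1) 0 = r (if a = 0 then 1 else 0)` and `r Q r a 0 = r (δ_{a0} + r (a δ_{a,1}) + O(r^2))`
  so the difference is `r * (Q r a 0 - δ_{a0})` and `|Q r a 0 - δ_{a0}| ≤ C |r|` by the induction hypothesis.
* `(a+1, b+1)`: `L r (a+1) (b+1) - L r a b = r (δ_{a,b+1} - δ_{b,a+1})` (cases), and
  `Q (a+1) (b+1) - Q a b = r (Q a (b+1) - Q (a+1) b)`, where `Q a (b+1) = δ_{a,b+1} + O(|r|)` and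
  `Q (a+1) b = δ_{a+1,b} + O(|r|)` by the induction hypotheses.
The second theorem: take the maximum (or the sum) of the constants over `a, b ≤ m + 1`:
`|Q r a a| ≥ 1 - C r^2`, `|Q r a (a+1)| ≥ (a+1)|r| - C r^2 ≥ (a+1)(|r| - C r^2)`, the same for `Q r (a+1) a`.
-/

namespace Helper51.TH

private lemma Q_near {a b : ℕ} {C : ℝ} (hC : 0 ≤ C)
    (h : ∀ r : ℝ, |r| ≤ 1 →
      |Q r a b - ((if a = b then 1 else 0) + r * ((if a = b + 1 then (a : ℝ) else 0) -
        (if b = a + 1 then (a : ℝ) + 1 else 0)))| ≤ C * r ^ 2) (r : ℝ) (hr : |r| ≤ 1) :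
    |Q r a b - (if a = b then 1 else 0)| ≤ (C + (2 * a + 1)) * |r| := by
  have h1 := h r hr
  have h2 : |r * ((if a = b + 1 then (a : ℝ) else 0) -
        (if b = a + 1 then (a : ℝ) + 1 else 0))| ≤ (2 * a + 1) * |r| := by
    rw [abs_mul, mul_comm]
    apply mul_le_mul_of_nonneg_right _ (abs_nonneg r)
    have ha : (0 : ℝ) ≤ a := Nat.cast_nonneg a
    rw [abs_le]
    constructor <;> split_ifs <;> linarith
  have h3 : C * r ^ 2 ≤ C * |r| := by
    apply mul_le_mul_of_nonneg_left _ hC
    rw [← sq_abs]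
    nlinarith [abs_nonneg r]
  calc |Q r a b - (if a = b then 1 else 0)|
      = |(Q r a b - ((if a = b then 1 else 0) + r * ((if a = b + 1 then (a : ℝ) else 0) -
        (if b = a + 1 then (a : ℝ) + 1 else 0)))) + r * ((if a = b + 1 then (a : ℝ) else 0) -
        (if b = a + 1 then (a : ℝ) + 1 else 0))| := by
        congr 1; ring
    _ ≤ |Q r a b - ((if a = b then 1 else 0) + r * ((if a = b + 1 then (a : ℝ) else 0) -
        (if b = a + 1 then (a : ℝ) + 1 else 0)))| + |r * ((if a = b + 1 then (a : ℝ) else 0) -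
        (if b = a + 1 then (a : ℝ) + 1 else 0))| := abs_add_le _ _
    _ ≤ C * |r| + (2 * a + 1) * |r| := by linarith
    _ = (C + (2 * a + 1)) * |r| := by ring

theorem Q_expand (a b : ℕ) : ∃ C : ℝ, 0 ≤ C ∧ ∀ r : ℝ, |r| ≤ 1 →
    |Q r a b - ((if a = b then 1 else 0) + r * ((if a = b + 1 then (a : ℝ) else 0) -
      (if b = a + 1 then (a : ℝ) + 1 else 0)))| ≤ C * r ^ 2 := by
  induction a generalizing b with
  | zero =>
    refine ⟨1, zero_le_one, fun r hr => ?_⟩
    rcases b with _ | _ | b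
    · simp [Q]
      positivity
    · simp [Q]
      positivity
    · have h1 : Q r 0 (b + 2) = (-r) ^ (b + 2) := by simp [Q]
      have h2 : ¬ (0 = b + 1 + 1) := by omega
      have h3 : ¬ (0 = b + 1 + 1 + 1) := by omega
      have h4 : ¬ (b + 1 + 1 = 0 + 1) := by omega
      rw [if_neg h2, if_neg h3, if_neg h4]
      rw [show b + 1 + 1 = b + 2 from rfl, h1]
      have h5 : |(-r) ^ (b + 2) - (0 + r * (0 - 0))| = |r| ^ b * r ^ 2 := by
        rw [show (-r) ^ (b + 2) - (0 + r * (0 - 0)) = (-r) ^ (b + 2) by ring, abs_pow, abs_neg,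
          pow_add, sq_abs]
      rw [h5]
      apply mul_le_mul_of_nonneg_right _ (sq_nonneg r)
      exact pow_le_one₀ (abs_nonneg r) hr
  | succ a iha =>
    induction b with
    | zero =>
      obtain ⟨C, hC, h⟩ := iha 0
      refine ⟨C + (2 * a + 1), by positivity, fun r hr => ?_⟩
      have h1 := Q_near hC h r hr
      have h2 : Q r (a + 1) 0 - ((if a + 1 = 0 then 1 else 0) +
          r * ((if a + 1 = 0 + 1 then ((a + 1 : ℕ) : ℝ) else 0) -
            (if 0 = a + 1 + 1 then ((a + 1 : ℕ) : ℝ) + 1 else 0))) =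
          r * (Q r a 0 - (if a = 0 then 1 else 0)) := by
        have h3 : ¬ (a + 1 = 0) := by omega
        have h4 : ¬ (0 = a + 1 + 1) := by omega
        rw [if_neg h3, if_neg h4]
        have h5 : Q r (a + 1) 0 = r * Q r a 0 := by simp [Q]
        rw [h5]
        by_cases h6 : a = 0
        · subst h6
          simp
          ring
        · have h7 : ¬ (a + 1 = 0 + 1) := by omega
          rw [if_neg h7, if_neg h6]
          ring
      rw [h2, abs_mul]
      calc |r| * |Q r a 0 - (if a = 0 then 1 else 0)| ≤ |r| * ((C + (2 * a + 1)) * |r|) :=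
            mul_le_mul_of_nonneg_left h1 (abs_nonneg r)
        _ = (C + (2 * a + 1)) * r ^ 2 := by rw [← sq_abs r]; ring
    | succ b ihb =>
      obtain ⟨C₁, hC₁, h₁⟩ := iha b
      obtain ⟨C₂, hC₂, h₂⟩ := iha (b + 1)
      obtain ⟨C₃, hC₃, h₃⟩ := ihb
      refine ⟨C₁ + (C₂ + (2 * a + 1)) + (C₃ + (2 * ((a + 1 : ℕ) : ℝ) + 1)), by positivity,
        fun r hr => ?_⟩
      have k₁ := h₁ r hr
      have k₂ := Q_near hC₂ h₂ r hr
      have k₃ := Q_near hC₃ h₃ r hr
      have h2 : Q r (a + 1) (b + 1) - ((if a + 1 = b + 1 then 1 else 0) +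
          r * ((if a + 1 = b + 1 + 1 then ((a + 1 : ℕ) : ℝ) else 0) -
            (if b + 1 = a + 1 + 1 then ((a + 1 : ℕ) : ℝ) + 1 else 0))) =
          (Q r a b - ((if a = b then 1 else 0) + r * ((if a = b + 1 then (a : ℝ) else 0) -
            (if b = a + 1 then (a : ℝ) + 1 else 0)))) +
          r * (Q r a (b + 1) - (if a = b + 1 then 1 else 0)) -
          r * (Q r (a + 1) b - (if a + 1 = b then 1 else 0)) := by
        have h5 : Q r (a + 1) (b + 1) = r * Q r a (b + 1) + Q r a b - r * Q r (a + 1) b := by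
          simp [Q]
        rw [h5]
        have e1 : (if a + 1 = b + 1 then (1 : ℝ) else 0) = if a = b then 1 else 0 := by
          by_cases h : a = b
          · simp [h]
          · have : ¬ (a + 1 = b + 1) := by omega
            simp [h]
        have e2 : (if a + 1 = b + 1 + 1 then ((a + 1 : ℕ) : ℝ) else 0) =
            (if a = b + 1 then (a : ℝ) else 0) + (if a = b + 1 then 1 else 0) := by
          by_cases h : a = b + 1
          · rw [if_pos (by omega), if_pos h, if_pos h]
            push_cast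
            ring
          · rw [if_neg (by omega), if_neg h, if_neg h]
            ring
        have e3 : (if b + 1 = a + 1 + 1 then ((a + 1 : ℕ) : ℝ) + 1 else 0) =
            (if b = a + 1 then (a : ℝ) + 1 else 0) + (if a + 1 = b then 1 else 0) := by
          by_cases h : b = a + 1
          · rw [if_pos (by omega), if_pos h, if_pos (by omega)]
            push_cast
            ring
          · rw [if_neg (by omega), if_neg h, if_neg (by omega)]
            ring
        rw [e1, e2, e3]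
        ring
      rw [h2]
      have m₂ : |r * (Q r a (b + 1) - (if a = b + 1 then 1 else 0))| ≤
          (C₂ + (2 * a + 1)) * r ^ 2 := by
        rw [abs_mul]
        calc |r| * |Q r a (b + 1) - (if a = b + 1 then 1 else 0)|
            ≤ |r| * ((C₂ + (2 * a + 1)) * |r|) := mul_le_mul_of_nonneg_left k₂ (abs_nonneg r)
          _ = (C₂ + (2 * a + 1)) * r ^ 2 := by rw [← sq_abs r]; ring
      have m₃ : |r * (Q r (a + 1) b - (if a + 1 = b then 1 else 0))| ≤
          (C₃ + (2 * ((a + 1 : ℕ) : ℝ) + 1)) * r ^ 2 := by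
        rw [abs_mul]
        calc |r| * |Q r (a + 1) b - (if a + 1 = b then 1 else 0)|
            ≤ |r| * ((C₃ + (2 * ((a + 1 : ℕ) : ℝ) + 1)) * |r|) :=
              mul_le_mul_of_nonneg_left k₃ (abs_nonneg r)
          _ = (C₃ + (2 * ((a + 1 : ℕ) : ℝ) + 1)) * r ^ 2 := by rw [← sq_abs r]; ring
      refine (abs_sub _ _).trans ?_
      refine (add_le_add_left (abs_add_le _ _) _).trans ?_
      linarith

theorem Q_lower (m : ℕ) : ∃ C : ℝ, 0 ≤ C ∧ ∀ r : ℝ, |r| ≤ 1 → ∀ a ≤ m,
    1 - C * r ^ 2 ≤ |Q r a a| ∧ ((a : ℝ) + 1) * (|r| - C * r ^ 2) ≤ |Q r a (a + 1)| ∧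
      ((a : ℝ) + 1) * (|r| - C * r ^ 2) ≤ |Q r (a + 1) a| := by
  choose K hK0 hK using Q_expand
  refine ⟨∑ a ∈ Finset.range (m + 1), (K a a + K a (a + 1) + K (a + 1) a), ?_, ?_⟩
  · exact Finset.sum_nonneg fun a _ => by
      have := hK0 a a
      have := hK0 a (a + 1)
      have := hK0 (a + 1) a
      linarith
  · intro r hr a ha
    set C := ∑ a ∈ Finset.range (m + 1), (K a a + K a (a + 1) + K (a + 1) a) with hCdef
    have hle : K a a + K a (a + 1) + K (a + 1) a ≤ C := by
      rw [hCdef]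
      exact Finset.single_le_sum (f := fun a => K a a + K a (a + 1) + K (a + 1) a)
        (fun a _ => by
          have := hK0 a a
          have := hK0 a (a + 1)
          have := hK0 (a + 1) a
          linarith) (Finset.mem_range.2 (by omega))
    have p1 := hK0 a a
    have p2 := hK0 a (a + 1)
    have p3 := hK0 (a + 1) a
    have hr2 : 0 ≤ r ^ 2 := sq_nonneg r
    have c1 : K a a * r ^ 2 ≤ C * r ^ 2 := mul_le_mul_of_nonneg_right (by linarith) hr2
    have c2 : K a (a + 1) * r ^ 2 ≤ C * r ^ 2 := mul_le_mul_of_nonneg_right (by linarith) hr2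
    have c3 : K (a + 1) a * r ^ 2 ≤ C * r ^ 2 := mul_le_mul_of_nonneg_right (by linarith) hr2
    have hC0 : 0 ≤ C * r ^ 2 := le_trans (mul_nonneg p1 hr2) c1
    have ha0 : (0 : ℝ) ≤ a := Nat.cast_nonneg a
    refine ⟨?_, ?_, ?_⟩
    · have h := hK a a r hr
      rw [if_pos rfl, if_neg (by omega), if_neg (by omega)] at h
      have h' := (abs_le.1 h).1
      have := le_abs_self (Q r a a)
      linarith
    · have h := hK a (a + 1) r hr
      rw [if_neg (by omega), if_neg (by omega), if_pos rfl] at h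
      have h' : |(-(r * ((a : ℝ) + 1)))| - |Q r a (a + 1)| ≤ K a (a + 1) * r ^ 2 := by
        refine (abs_sub_abs_le_abs_sub _ _).trans ?_
        rw [abs_sub_comm]
        refine le_trans (le_of_eq ?_) h
        congr 1
        ring
      rw [abs_neg, abs_mul, abs_of_nonneg (by linarith : (0 : ℝ) ≤ (a : ℝ) + 1)] at h'
      nlinarith
    · have h := hK (a + 1) a r hr
      rw [if_neg (by omega), if_pos rfl, if_neg (by omega)] at h
      have h' : |r * ((a : ℝ) + 1)| - |Q r (a + 1) a| ≤ K (a + 1) a * r ^ 2 := by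
        refine (abs_sub_abs_le_abs_sub _ _).trans ?_
        rw [abs_sub_comm]
        refine le_trans (le_of_eq ?_) h
        congr 1
        push_cast
        ring
      rw [abs_mul, abs_of_nonneg (by linarith : (0 : ℝ) ≤ (a : ℝ) + 1)] at h'
      nlinarith

end Helper51.TH
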