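import Pool.Agent.Helper51.TH.StepId
import Pool.Agent.Helper51.TH.Greedy

/-!
TH-P29. The scheme with greedy sampling.

PROOF. `C'` from `step_bd`. Apply `greedy` with `X = ℤ → St`, `P = Good ... w₀`, `step = stp γ ν`, `ι = Fin 4 × Finset.Icc (-J) J`
(as a type), `noise U θ' (k, j) = ∑_{i ∈ Icc (-J) j} (cq γ k (stp γ ν U θ' i) - ∫_0^1 cq γ k (stp γ ν U s i) ds)`. `hstep`:
`good_step`; `hint`, `hzero`: `step_avg` (integrability); `hB`: by `step_bd` and the average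
`|e_i| ≤ 2 C' (vr (i-1) + vr i)`, and `∑_i vr i ≤ C'`, so `|noise| ≤ 4 C'^2 =: B₀`. The bound
`∑_{k, j} (...)² ≤ n * (4 (2J+1)) * B₀²` gives the claim for every `k` with `B = 4 B₀²` (`B₀` independent of everything but the
constants). `FF (win (W n) M) ≤ FF (win U (M + n))`: induction with `good_step`.
-/

open MeasureTheory Set Filter Topology

namespace Helper51.TH

private theorem vr_nonneg' (γ : ℝ) (U : ℤ → St) (i : ℤ) : 0 ≤ vr γ U i := by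
  unfold vr
  positivity

/-- the sum of the strengths over the window -/
private theorem sum_vr_le {γ C' : ℝ} {V : ℤ → St}
    (h : ∀ M : ℕ, ∑ i ∈ Finset.Ico (-(M : ℤ)) M, vr γ V i ≤ C') (J : ℕ) (j : ℤ) (hj : j ≤ J) :
    ∑ i ∈ Finset.Icc (-(J : ℤ)) j, (vr γ V (i - 1) + vr γ V i) ≤ 2 * C' := by
  rw [Finset.sum_add_distrib]
  have h0 := h (J + 1)
  have h1 : ∑ i ∈ Finset.Icc (-(J : ℤ)) j, vr γ V i ≤ C' := by
    refine le_trans (Finset.sum_le_sum_of_subset_of_nonneg ?_ fun i _ _ => vr_nonneg' γ V i) h0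
    intro i hi
    rw [Finset.mem_Icc] at hi
    rw [Finset.mem_Ico]
    push_cast
    omega
  have h2 : ∑ i ∈ Finset.Icc (-(J : ℤ)) j, vr γ V (i - 1) ≤ C' := by
    have e : ∑ i ∈ Finset.Icc (-(J : ℤ)) j, vr γ V (i - 1) =
        ∑ i ∈ (Finset.Icc (-(J : ℤ)) j).image (fun i => i - 1), vr γ V i := by
      rw [Finset.sum_image]
      intro a _ b _ hab
      have hab' : a - 1 = b - 1 := hab
      omega
    rw [e]
    refine le_trans (Finset.sum_le_sum_of_subset_of_nonneg ?_ fun i _ _ => vr_nonneg' γ V i) h0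
    intro i hi
    rw [Finset.mem_image] at hi
    obtain ⟨a, ha, rfl⟩ := hi
    rw [Finset.mem_Icc] at ha
    rw [Finset.mem_Ico]
    push_cast
    omega
  linarith

theorem run {γ ζ₁ ζ₂ Λ₀ U₀ θ μ V₁ K δ Λc C : ℝ}
    (hA : Adm γ ζ₁ ζ₂ Λ₀ U₀ θ μ V₁ K δ Λc C) : ∃ B : ℝ, 0 < B ∧
    ∀ (w₀ : St) (U : ℤ → St) (ν : ℝ) (J : ℕ), InB ζ₁ ζ₂ Λ₀ w₀ → |w₀.u| ≤ U₀ →
      Good γ ζ₁ ζ₂ Λ₀ U₀ θ μ V₁ K δ w₀ U → 0 < ν → 2 * ν * Λc ≤ 1 →
      ∃ W : ℕ → ℤ → St, W 0 = U ∧ (∀ n, Good γ ζ₁ ζ₂ Λ₀ U₀ θ μ V₁ K δ w₀ (W n)) ∧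
        (∀ n, ∃ θ' ∈ Ico (0 : ℝ) 1, W (n + 1) = stp γ ν (W n) θ') ∧
        (∀ n M : ℕ, FF γ θ μ K (win (W n) M) ≤ FF γ θ μ K (win U (M + n))) ∧
        ∀ (k : Fin 4) (m : ℕ), ∑ j ∈ Finset.Icc (-(J : ℤ)) J,
          (∑ n ∈ Finset.range m, ∑ i ∈ Finset.Icc (-(J : ℤ)) j,
            (cq γ k (W (n + 1) i) - ∫ θ' in (0 : ℝ)..1, cq γ k (stp γ ν (W n) θ' i))) ^ 2 ≤
            m * (2 * J + 1) * B := by
  obtain ⟨C', hC', hbd⟩ := step_bd hA
  refine ⟨4 * (4 * C' ^ 2) ^ 2, by positivity, ?_⟩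
  intro w₀ U ν J hw hu hG hν hν'
  have hint : ∀ (V : ℤ → St) (p : Fin 4 × ↥(Finset.Icc (-(J : ℤ)) J)),
      Good γ ζ₁ ζ₂ Λ₀ U₀ θ μ V₁ K δ w₀ V →
      IntervalIntegrable (fun t => ∑ i ∈ Finset.Icc (-(J : ℤ)) (p.2 : ℤ),
        (cq γ p.1 (stp γ ν V t i) - ∫ s in (0 : ℝ)..1, cq γ p.1 (stp γ ν V s i))) volume 0 1 := by
    intro V p hV
    have h0 := IntervalIntegrable.sum (Finset.Icc (-(J : ℤ)) (p.2 : ℤ))
      (fun i (_ : i ∈ Finset.Icc (-(J : ℤ)) (p.2 : ℤ)) =>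
        ((step_avg hA hV hν hν' p.1 i).1.sub (intervalIntegrable_const
          (c := ∫ s in (0 : ℝ)..1, cq γ p.1 (stp γ ν V s i)))))
    refine h0.congr fun t _ => ?_
    simp only [Finset.sum_apply]
  have hzero : ∀ (V : ℤ → St) (p : Fin 4 × ↥(Finset.Icc (-(J : ℤ)) J)),
      Good γ ζ₁ ζ₂ Λ₀ U₀ θ μ V₁ K δ w₀ V →
      ∫ t in (0 : ℝ)..1, ∑ i ∈ Finset.Icc (-(J : ℤ)) (p.2 : ℤ),
        (cq γ p.1 (stp γ ν V t i) - ∫ s in (0 : ℝ)..1, cq γ p.1 (stp γ ν V s i)) = 0 := by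
    intro V p hV
    rw [intervalIntegral.integral_finsetSum
      (fun i _ => (step_avg hA hV hν hν' p.1 i).1.sub intervalIntegrable_const)]
    refine Finset.sum_eq_zero fun i _ => ?_
    rw [intervalIntegral.integral_sub (step_avg hA hV hν hν' p.1 i).1 intervalIntegrable_const,
      intervalIntegral.integral_const, sub_zero, one_smul, sub_self]
  have hB : ∀ (V : ℤ → St) (t : ℝ) (p : Fin 4 × ↥(Finset.Icc (-(J : ℤ)) J)),
      Good γ ζ₁ ζ₂ Λ₀ U₀ θ μ V₁ K δ w₀ V → t ∈ Ico (0 : ℝ) 1 →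
      |∑ i ∈ Finset.Icc (-(J : ℤ)) (p.2 : ℤ),
        (cq γ p.1 (stp γ ν V t i) - ∫ s in (0 : ℝ)..1, cq γ p.1 (stp γ ν V s i))| ≤
          4 * C' ^ 2 := by
    intro V t p hV _
    obtain ⟨hb1, -, -, -, hb5⟩ := hbd w₀ V hV
    have hterm : ∀ i : ℤ, |cq γ p.1 (stp γ ν V t i) -
        ∫ s in (0 : ℝ)..1, cq γ p.1 (stp γ ν V s i)| ≤
          2 * C' * (vr γ V (i - 1) + vr γ V i) := by
      intro i
      have h1 := hb1 ν t i p.1
      have h2 : |(∫ s in (0 : ℝ)..1, cq γ p.1 (stp γ ν V s i)) - cq γ p.1 (V i)| ≤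
          C' * (vr γ V (i - 1) + vr γ V i) := by
        have e : (∫ s in (0 : ℝ)..1, cq γ p.1 (stp γ ν V s i)) - cq γ p.1 (V i) =
            ∫ s in (0 : ℝ)..1, (cq γ p.1 (stp γ ν V s i) - cq γ p.1 (V i)) := by
          rw [intervalIntegral.integral_sub (step_avg hA hV hν hν' p.1 i).1
            intervalIntegrable_const, intervalIntegral.integral_const, sub_zero, one_smul]
        rw [e]
        have h3 := intervalIntegral.norm_integral_le_of_norm_le_const (a := (0 : ℝ)) (b := 1)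
          (C := C' * (vr γ V (i - 1) + vr γ V i))
          (f := fun s => cq γ p.1 (stp γ ν V s i) - cq γ p.1 (V i))
          (fun s _ => by rw [Real.norm_eq_abs]; exact hb1 ν s i p.1)
        rw [Real.norm_eq_abs, sub_zero, abs_one, mul_one] at h3
        exact h3
      have e : cq γ p.1 (stp γ ν V t i) - ∫ s in (0 : ℝ)..1, cq γ p.1 (stp γ ν V s i) =
          (cq γ p.1 (stp γ ν V t i) - cq γ p.1 (V i)) -
            ((∫ s in (0 : ℝ)..1, cq γ p.1 (stp γ ν V s i)) - cq γ p.1 (V i)) := by ring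
      rw [e]
      refine (abs_sub _ _).trans ?_
      linarith
    refine (Finset.abs_sum_le_sum_abs _ _).trans ?_
    refine (Finset.sum_le_sum fun i _ => hterm i).trans ?_
    rw [← Finset.mul_sum]
    have h4 := sum_vr_le hb5 J (p.2 : ℤ) (Finset.mem_Icc.1 p.2.2).2
    calc 2 * C' * ∑ i ∈ Finset.Icc (-(J : ℤ)) (p.2 : ℤ), (vr γ V (i - 1) + vr γ V i) ≤
        2 * C' * (2 * C') := mul_le_mul_of_nonneg_left h4 (by positivity)
      _ = 4 * C' ^ 2 := by ring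
  obtain ⟨x, t, hx0, hxP, hxs, hsum⟩ := greedy (X := ℤ → St)
    (ι := Fin 4 × ↥(Finset.Icc (-(J : ℤ)) J)) (Good γ ζ₁ ζ₂ Λ₀ U₀ θ μ V₁ K δ w₀) (stp γ ν)
    (fun V t p => ∑ i ∈ Finset.Icc (-(J : ℤ)) (p.2 : ℤ),
      (cq γ p.1 (stp γ ν V t i) - ∫ s in (0 : ℝ)..1, cq γ p.1 (stp γ ν V s i)))
    (fun V t hV _ => (good_step hA hw hu hV).1) hint hzero hB U hG
  refine ⟨x, hx0, hxP, fun n => ⟨t n, hxs n⟩, ?_, ?_⟩
  · intro n
    induction n with
    | zero =>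
      intro M
      rw [hx0, Nat.add_zero]
    | succ n ih =>
      intro M
      have h1 := (good_step (ν := ν) (θ' := t n) hA hw hu (hxP n)).2 M
      rw [← (hxs n).2] at h1
      refine (h1.trans (ih (M + 1))).trans (le_of_eq ?_)
      rw [Nat.add_right_comm, ← Nat.add_assoc]
  · intro k m
    have h1 := hsum m
    rw [Fintype.sum_prod_type] at h1
    have h2 : ∑ j : ↥(Finset.Icc (-(J : ℤ)) J), (∑ n ∈ Finset.range m,
        ∑ i ∈ Finset.Icc (-(J : ℤ)) (j : ℤ), (cq γ k (stp γ ν (x n) (t n) i) -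
          ∫ s in (0 : ℝ)..1, cq γ k (stp γ ν (x n) s i))) ^ 2 ≤
        m * Fintype.card (Fin 4 × ↥(Finset.Icc (-(J : ℤ)) J)) * (4 * C' ^ 2) ^ 2 := by
      refine le_trans ?_ h1
      exact Finset.single_le_sum (f := fun k : Fin 4 => ∑ j : ↥(Finset.Icc (-(J : ℤ)) J),
        (∑ n ∈ Finset.range m, ∑ i ∈ Finset.Icc (-(J : ℤ)) (j : ℤ),
          (cq γ k (stp γ ν (x n) (t n) i) -
          ∫ s in (0 : ℝ)..1, cq γ k (stp γ ν (x n) s i))) ^ 2)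
        (fun k _ => Finset.sum_nonneg fun j _ => sq_nonneg _) (Finset.mem_univ k)
    have h3 := Finset.sum_coe_sort (Finset.Icc (-(J : ℤ)) J) (fun j : ℤ =>
      (∑ n ∈ Finset.range m, ∑ i ∈ Finset.Icc (-(J : ℤ)) j,
          (cq γ k (stp γ ν (x n) (t n) i) -
          ∫ s in (0 : ℝ)..1, cq γ k (stp γ ν (x n) s i))) ^ 2)
    rw [h3] at h2
    have h4 : ∀ n, x (n + 1) = stp γ ν (x n) (t n) := fun n => (hxs n).2
    simp only [h4]
    refine h2.trans (le_of_eq ?_)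
    have hcard : (Fintype.card (Fin 4 × ↥(Finset.Icc (-(J : ℤ)) J)) : ℝ) = 4 * (2 * J + 1) := by
      rw [Fintype.card_prod, Fintype.card_fin, Fintype.card_coe, Int.card_Icc]
      have : ((J : ℤ) + 1 - -(J : ℤ)).toNat = 2 * J + 1 := by omega
      rw [this]
      push_cast
      ring
    rw [hcard]
    ring

end Helper51.TH
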