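import Pool.Agent.Helper51.TH.Run
import Pool.Agent.Helper51.TH.Cons

/-!
TH-P31. The weak form of the scheme up to a small error.

PROOF. Let `W` be a run, `g n i = cq γ k (W n i)`, `f n i = cf γ k (W n i)`, `F n i = cf γ k (fan γ (W n i) (W n (i+1)) 0)`,
`v n i = vr γ (W n) i`, `e n i = cq γ k (W (n+1) i) - ∫_0^1 cq γ k (stp γ ν (W n) θ' i) dθ'`. By `step_bd` the hypotheses of `cons` hold
with `C₀ = C'` (`fan γ (U (i-1)) (U i) 0` is `F n (i-1)`). By `step_avg`, `r n i = g (n+1) i - g n i + ν (F n i - F n (i-1)) = e n i + d n i`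
with `d n i = 0` for `k ≠ 3`, `d n i ≥ 0` for `k = 3`. `cons` and `noise` (same `h, N, J`; let `R` be the maximum of the two, note
that `noise` gets `B` from `run`): for `k ≠ 3`:
`|∫∫ (g ∂t φ + f ∂x φ)| ≤ Cφ h + Cφ h³ N √N (2J+1) √B`; for `k = 3`, `φ ≥ 0` (`ψ n i ≥ 0`):
`∫∫ (...) ≤ -∑ r ψ + Cφ h ≤ -∑ e ψ + Cφ h ≤ Cφ h + Cφ h³ N √N (2J+1) √B`.
`N` = a natural number with `T ≤ N ν h ≤ T + 1` (exists if `ν h ≤ 1`; this is why `h ≤ 1/ν` is assumed).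
With `N ≤ (T+1)/(νh)` the second term is `≤ C' h^(3/2) (2J+1)`.
-/

open MeasureTheory Set Filter Topology

namespace Helper51.TH

open Helper73.EU

theorem weak_err {γ ζ₁ ζ₂ Λ₀ U₀ θ μ V₁ K δ Λc C ν B T : ℝ}
    (hA : Adm γ ζ₁ ζ₂ Λ₀ U₀ θ μ V₁ K δ Λc C) (hν : 0 < ν) (hν' : 2 * ν * Λc ≤ 1) (hB : 0 ≤ B)
    (hT : 0 < T) {φ : ℝ × ℝ → ℝ} (hφ : IsTest T φ) : ∃ Cφ R : ℝ, 0 < Cφ ∧ 0 < R ∧
    ∀ (w₀ : St) (W : ℕ → ℤ → St) (h : ℝ) (J : ℕ) (k : Fin 4), 0 < h → h ≤ 1 → h * ν ≤ 1 →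
      R + h ≤ J * h →
      (∀ n, Good γ ζ₁ ζ₂ Λ₀ U₀ θ μ V₁ K δ w₀ (W n)) →
      (∀ n, ∃ θ' ∈ Ico (0 : ℝ) 1, W (n + 1) = stp γ ν (W n) θ') →
      (∀ m : ℕ, ∑ j ∈ Finset.Icc (-(J : ℤ)) J,
          (∑ n ∈ Finset.range m, ∑ i ∈ Finset.Icc (-(J : ℤ)) j,
            (cq γ k (W (n + 1) i) - ∫ θ' in (0 : ℝ)..1, cq γ k (stp γ ν (W n) θ' i))) ^ 2 ≤
            m * (2 * J + 1) * B) →
      (k ≠ 3 → |∫ z in Strip T, (arr ν h (fun n i => cq γ k (W n i)) z * dt φ z +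
        arr ν h (fun n i => cf γ k (W n i)) z * dx φ z)| ≤
          Cφ * (h + h * √h * (2 * J + 1))) ∧
      ((∀ z, 0 ≤ φ z) → ∫ z in Strip T, (arr ν h (fun n i => cq γ k (W n i)) z * dt φ z +
        arr ν h (fun n i => cf γ k (W n i)) z * dx φ z) ≤
          Cφ * (h + h * √h * (2 * J + 1))) := by
  obtain ⟨C', hC', hbd⟩ := step_bd hA
  obtain ⟨C1, R1, hC1, hR1, hcons⟩ := cons (C₀ := C') hν hT hφ
  obtain ⟨C2, R2, hC2, hR2, hnoise⟩ := noise hν hT hφ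
  obtain ⟨A, hAd⟩ : ∃ A : ℝ, A = (T + 1) / ν := ⟨_, rfl⟩
  have hA0 : 0 < A := by
    rw [hAd]
    positivity
  refine ⟨C1 + C2 * √B * (A * √A), max R1 R2, by positivity, lt_max_of_lt_left hR1, ?_⟩
  intro w₀ W h J k hh hh1 hhν hJ hgood hstep hsum
  have hνh : 0 < ν * h := mul_pos hν hh
  obtain ⟨N, hN1, hN2⟩ : ∃ N : ℕ, T ≤ N * (ν * h) ∧ (N : ℝ) * (ν * h) ≤ T + 1 := by
    refine ⟨⌈T / (ν * h)⌉₊, ?_, ?_⟩
    · have h1 := Nat.le_ceil (T / (ν * h))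
      rwa [div_le_iff₀ hνh] at h1
    · have h1 := Nat.ceil_lt_add_one (show 0 ≤ T / (ν * h) by positivity)
      have h2 := mul_le_mul_of_nonneg_right h1.le hνh.le
      rw [add_mul, div_mul_cancel₀ _ hνh.ne', one_mul] at h2
      have h3 : ν * h ≤ 1 := by
        rw [mul_comm]
        exact hhν
      linarith
  have hJ1 : R1 + h ≤ J * h := by
    have := le_max_left R1 R2
    linarith
  have hJ2 : R2 + h ≤ J * h := by
    have := le_max_right R1 R2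
    linarith
  obtain ⟨F, hF⟩ : ∃ F : ℕ → ℤ → ℝ, F = fun n i => cf γ k (fan γ (W n i) (W n (i + 1)) 0) := ⟨_, rfl⟩
  obtain ⟨e, he⟩ : ∃ e : ℕ → ℤ → ℝ, e = fun n i =>
    cq γ k (W (n + 1) i) - ∫ θ' in (0 : ℝ)..1, cq γ k (stp γ ν (W n) θ' i) := ⟨_, rfl⟩
  obtain ⟨ψ, hψ⟩ : ∃ ψ : ℕ → ℤ → ℝ, ψ = fun (n : ℕ) (i : ℤ) =>
    ∫ x in ((i : ℝ) * h)..(((i : ℝ) + 1) * h), φ (((n : ℝ) + 1) * (ν * h), x) := ⟨_, rfl⟩
  obtain ⟨I, hI⟩ : ∃ I : ℝ, I = ∫ z in Strip T, (arr ν h (fun n i => cq γ k (W n i)) z * dt φ z +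
        arr ν h (fun n i => cf γ k (W n i)) z * dx φ z) := ⟨_, rfl⟩
  obtain ⟨r, hr⟩ : ∃ r : ℕ → ℤ → ℝ, r = fun n i =>
    cq γ k (W (n + 1) i) - cq γ k (W n i) + ν * (F n i - F n (i - 1)) := ⟨_, rfl⟩
  have c1 : |I + ∑ n ∈ Finset.range N, ∑ i ∈ Finset.Icc (-(J : ℤ)) J, r n i * ψ n i| ≤ C1 * h := by
    rw [hI, hr, hψ]
    refine hcons h N J (fun n i => cq γ k (W n i)) (fun n i => cf γ k (W n i)) F
      (fun n i => vr γ (W n) i) hh hh1 hN1 hN2 hJ1 ?_ ?_ ?_ ?_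
    · intro n i
      rw [hF]
      exact (hbd w₀ (W n) (hgood n)).2.2.2.1 i k
    · intro n i
      rw [hF]
      exact (hbd w₀ (W n) (hgood n)).2.2.1 i k
    · intro n i
      unfold vr
      positivity
    · intro n M
      exact (hbd w₀ (W n) (hgood n)).2.2.2.2 M
  have c2 : |∑ n ∈ Finset.range N, ∑ i ∈ Finset.Icc (-(J : ℤ)) J, e n i * ψ n i| ≤
      C2 * h ^ 3 * (N * √N) * (2 * J + 1) * √B := by
    rw [he, hψ]
    exact hnoise h B N J _ hh hh1 hB hN1 hJ2 (fun m _ => hsum m)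
  have havg : ∀ n i, e n i ≤ r n i ∧ (k ≠ 3 → r n i = e n i) := by
    intro n i
    obtain ⟨-, s1, s2⟩ := step_avg hA (hgood n) hν hν' k i
    have h1 : F n (i - 1) = cf γ k (fan γ (W n (i - 1)) (W n i) 0) := by
      rw [hF]
      show cf γ k (fan γ (W n (i - 1)) (W n (i - 1 + 1)) 0) = _
      rw [sub_add_cancel]
    have h2 : F n i = cf γ k (fan γ (W n i) (W n (i + 1)) 0) := by
      rw [hF]
    rw [← h1, ← h2] at s1 s2
    have h3 : e n i = cq γ k (W (n + 1) i) - ∫ θ' in (0 : ℝ)..1, cq γ k (stp γ ν (W n) θ' i) := by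
      rw [he]
    have h4 : r n i = cq γ k (W (n + 1) i) - cq γ k (W n i) + ν * (F n i - F n (i - 1)) := by
      rw [hr]
    constructor
    · rw [h3, h4]
      linarith
    · intro hk
      rw [h3, h4, s2 hk]
      ring
  have hbound : C2 * h ^ 3 * (N * √N) * (2 * J + 1) * √B ≤
      C2 * √B * (A * √A) * (h * √h * (2 * J + 1)) := by
    have h1 : (N : ℝ) * h ≤ A := by
      rw [hAd, le_div_iff₀ hν]
      linarith
    have h2 : √((N : ℝ) * h) ≤ √A := Real.sqrt_le_sqrt h1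
    have h3 : h ^ 3 * (N * √N) = (N * h) * √((N : ℝ) * h) * (h * √h) := by
      rw [Real.sqrt_mul (Nat.cast_nonneg N)]
      have h4 : √h * √h = h := Real.mul_self_sqrt hh.le
      calc h ^ 3 * (N * √N) = N * √N * h ^ 2 * h := by ring
        _ = N * √N * h ^ 2 * (√h * √h) := by rw [h4]
        _ = (N * h) * (√N * √h) * (h * √h) := by ring
    have h5 : h ^ 3 * (N * √N) ≤ A * √A * (h * √h) := by
      rw [h3]
      refine mul_le_mul_of_nonneg_right ?_ (by positivity)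
      exact mul_le_mul h1 h2 (Real.sqrt_nonneg _) hA0.le
    calc C2 * h ^ 3 * (N * √N) * (2 * J + 1) * √B = (h ^ 3 * (N * √N)) * (C2 * √B * (2 * J + 1)) := by
          ring
      _ ≤ (A * √A * (h * √h)) * (C2 * √B * (2 * J + 1)) :=
          mul_le_mul_of_nonneg_right h5 (by positivity)
      _ = C2 * √B * (A * √A) * (h * √h * (2 * J + 1)) := by ring
  have htot : C1 * h + C2 * √B * (A * √A) * (h * √h * (2 * J + 1)) ≤
      (C1 + C2 * √B * (A * √A)) * (h + h * √h * (2 * J + 1)) := by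
    have h1 : 0 ≤ C1 * (h * √h * (2 * J + 1)) := by positivity
    have h2 : 0 ≤ C2 * √B * (A * √A) * h := by positivity
    nlinarith
  rw [← hI]
  constructor
  · intro hk
    have h1 : ∑ n ∈ Finset.range N, ∑ i ∈ Finset.Icc (-(J : ℤ)) J, r n i * ψ n i =
        ∑ n ∈ Finset.range N, ∑ i ∈ Finset.Icc (-(J : ℤ)) J, e n i * ψ n i :=
      Finset.sum_congr rfl fun n _ => Finset.sum_congr rfl fun i _ => by rw [(havg n i).2 hk]
    rw [h1] at c1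
    have h2 := abs_add_le (I + ∑ n ∈ Finset.range N, ∑ i ∈ Finset.Icc (-(J : ℤ)) J, e n i * ψ n i)
      (-∑ n ∈ Finset.range N, ∑ i ∈ Finset.Icc (-(J : ℤ)) J, e n i * ψ n i)
    rw [add_neg_cancel_right, abs_neg] at h2
    linarith
  · intro hφ0
    have hψ0 : ∀ n i, 0 ≤ ψ n i := by
      intro n i
      rw [hψ]
      refine intervalIntegral.integral_nonneg ?_ fun x _ => hφ0 _
      have : (i : ℝ) ≤ i + 1 := by linarith
      exact mul_le_mul_of_nonneg_right this hh.le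
    have h1 : ∑ n ∈ Finset.range N, ∑ i ∈ Finset.Icc (-(J : ℤ)) J, e n i * ψ n i ≤
        ∑ n ∈ Finset.range N, ∑ i ∈ Finset.Icc (-(J : ℤ)) J, r n i * ψ n i :=
      Finset.sum_le_sum fun n _ => Finset.sum_le_sum fun i _ =>
        mul_le_mul_of_nonneg_right (havg n i).1 (hψ0 n i)
    have h2 := le_abs_self (I + ∑ n ∈ Finset.range N, ∑ i ∈ Finset.Icc (-(J : ℤ)) J, r n i * ψ n i)
    have h3 := neg_abs_le (∑ n ∈ Finset.range N, ∑ i ∈ Finset.Icc (-(J : ℤ)) J, e n i * ψ n i)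
    linarith

end Helper51.TH
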