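import Pool.Agent.Helper51.TH.Init
import Pool.Agent.Helper51.TH.ArrBd
import Pool.Agent.Helper51.TH.WeakErr

/-!
TH-P32. The sequence of approximate solutions.

PROOF. `V < 2π`: let `V₁ = (max V 0)/8 + π/4`-type number with `V/4 < V₁ < π/2`, `V₁ > 0`. `data_box` gives `ζ₁, ζ₂, Λ₀, U₀`;
`exists_adm` the constants; `ν = 1/(2 Λc)`; `init` gives `δ', C'`, `run` gives `B`, `arr_lip` gives `L`. The box of the
approximations: `z₁ = ζ₁/2, z₂ = 2 ζ₂, Λ = Λ₀ + 5, U = U₀ + 1`. For `k : ℕ` let `h_k = 1/(k + K₀)^4` with `K₀ ≥ 1` so large that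
`h_k ≤ δ'`, `h_k ≤ 1`, `h_k ν ≤ 1`, and `J_k = (k + K₀)^5`; `init` gives `w₀, U`, `run` gives `W_k` (with `J_k`), and the `k`-th
approximation is `(t, x) ↦ W_k ⌊t/(ν h_k)⌋₊ ⌊x/h_k⌋` (it is defined for all `t`, for `t < 0` it is the initial value). `ε k = h_k` times
a constant.
* measurability: `measurable_arr`. box: `Good.box`.
* variation: `arr_var` with `F = C' (tv₀ + h_k)` (`FF (win (W n) M) ≤ FF (win U (M+n)) ≤ C' (tv₀ + h_k)`).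
* Lipschitz: `arr_lip`.
* weak forms: `weak_err` for the given `T, φ`: for large `k`, `R + h_k ≤ J_k h_k = k + K₀`, and the error is
  `Cφ (h_k + h_k √h_k (2 J_k + 1)) ≤ 4 Cφ/(k + K₀) → 0`. (`arr ν h (fun n i => cq γ j (W n i)) z = cq γ j (arr ν h W z)`, by
  definition.)
* initial data: `init`, since `1/h_k → ∞`.
-/

open MeasureTheory Set Filter Topology
open scoped ENNReal

namespace Helper51.TH

open Helper73.EU

/-- Approximate solutions with the bounds `z₁, z₂, Λ, U` (box), `C` and the data `ρ₀, u₀, e₀`. -/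
structure IsApprox (γ z₁ z₂ Λ U C : ℝ) (ρ₀ u₀ e₀ : ℝ → ℝ) (W : ℕ → ℝ × ℝ → St)
    (ε : ℕ → ℝ) : Prop where
  lim : Tendsto ε atTop (𝓝 0)
  meas : ∀ k, Measurable (fun ζ => (W k ζ).z) ∧ Measurable (fun ζ => (W k ζ).u) ∧
    Measurable (fun ζ => (W k ζ).l)
  box : ∀ k ζ, InB z₁ z₂ Λ (W k ζ) ∧ |(W k ζ).u| ≤ U
  var : ∀ k t, 0 ≤ t →
    eVariationOn (fun x => (W k (t, x)).z) univ ≤
      ENNReal.ofReal (C * ((tv₀ γ ρ₀ u₀ e₀).toReal + ε k)) ∧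
    eVariationOn (fun x => (W k (t, x)).u) univ ≤
      ENNReal.ofReal (C * ((tv₀ γ ρ₀ u₀ e₀).toReal + ε k)) ∧
    eVariationOn (fun x => (W k (t, x)).l) univ ≤ ENNReal.ofReal C
  lip : ∀ k s t R, 0 ≤ s → s ≤ t → 0 < R →
    ∫ x in Ioo (-R) R, |(W k (t, x)).z - (W k (s, x)).z| ≤ C * (t - s + ε k) ∧
    ∫ x in Ioo (-R) R, |(W k (t, x)).u - (W k (s, x)).u| ≤ C * (t - s + ε k) ∧
    ∫ x in Ioo (-R) R, |(W k (t, x)).l - (W k (s, x)).l| ≤ C * (t - s + ε k)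
  weak : ∀ (T : ℝ) (φ : ℝ × ℝ → ℝ), 0 < T → IsTest T φ → ∀ j : Fin 4, j ≠ 3 →
    Tendsto (fun k => ∫ ζ in Strip T, (cq γ j (W k ζ) * dt φ ζ + cf γ j (W k ζ) * dx φ ζ))
      atTop (𝓝 0)
  weak₃ : ∀ (T : ℝ) (φ : ℝ × ℝ → ℝ), 0 < T → IsTest T φ → (∀ ζ, 0 ≤ φ ζ) → ∀ η : ℝ, 0 < η →
    ∀ᶠ k in atTop, ∫ ζ in Strip T, (cq γ 3 (W k ζ) * dt φ ζ + cf γ 3 (W k ζ) * dx φ ζ) ≤ η
  init : ∀ R : ℝ, 0 < R → Tendsto (fun k => ∫ x in Ioo (-R) R,
    (|rho γ (W k (0, x)) - ρ₀ x| + |(W k (0, x)).u - u₀ x| + |ien γ (W k (0, x)) - e₀ x|))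
      atTop (𝓝 0)

private theorem mesh_aux {n : ℝ} (hn : 1 ≤ n) :
    0 < 1 / n ^ 4 ∧ 1 / n ^ 4 ≤ 1 / n ∧ 1 / n ^ 4 ≤ 1 ∧ n ^ 5 * (1 / n ^ 4) = n ∧
    1 / n ^ 4 + 1 / n ^ 4 * √(1 / n ^ 4) * (2 * n ^ 5 + 1) ≤ 4 / n ∧ n ≤ 1 / (1 / n ^ 4) := by
  have h0 : 0 < n := by linarith
  have h4 : n ≤ n ^ 4 := by
    calc n = n ^ 1 := (pow_one n).symm
      _ ≤ n ^ 4 := pow_le_pow_right₀ hn (by norm_num)
  have h6 : n ≤ n ^ 6 := by
    calc n = n ^ 1 := (pow_one n).symm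
      _ ≤ n ^ 6 := pow_le_pow_right₀ hn (by norm_num)
  have hs : √(1 / n ^ 4) = 1 / n ^ 2 := by
    have e : 1 / n ^ 4 = (1 / n ^ 2) ^ 2 := by
      rw [div_pow, one_pow, ← pow_mul]
    rw [e]
    exact Real.sqrt_sq (by positivity)
  have hb : 1 / n ^ 4 ≤ 1 / n := one_div_le_one_div_of_le h0 h4
  have hc : 1 / n ^ 6 ≤ 1 / n := one_div_le_one_div_of_le h0 h6
  refine ⟨by positivity, hb, ?_, ?_, ?_, ?_⟩
  · rw [div_le_one (by positivity)]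
    linarith
  · field_simp
  · rw [hs]
    have e : 1 / n ^ 4 * (1 / n ^ 2) * (2 * n ^ 5 + 1) = 2 * (1 / n) + 1 / n ^ 6 := by
      field_simp
    have e2 : 4 / n = 4 * (1 / n) := by ring
    rw [e, e2]
    linarith
  · rw [one_div_one_div]
    exact h4

theorem exists_seq {γ a b V : ℝ} (hγ : 1 < γ) (ha : 0 < a) (hV : V < 2 * Real.pi) :
    ∃ δ z₁ z₂ Λ U C : ℝ, 0 < δ ∧ 0 < z₁ ∧ 0 < C ∧ ∀ ρ₀ u₀ e₀ : ℝ → ℝ,
      Small γ a b V δ ρ₀ u₀ e₀ → ∃ (W : ℕ → ℝ × ℝ → St) (ε : ℕ → ℝ),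
        IsApprox γ z₁ z₂ Λ U C ρ₀ u₀ e₀ W ε := by
  have hπ := Real.pi_pos
  obtain ⟨V₁, hV1a, hV1b, hV1c⟩ : ∃ V₁ : ℝ, V / 4 < V₁ ∧ V₁ < Real.pi / 2 ∧ 0 < V₁ := by
    have h1 : max V 0 < 2 * Real.pi := max_lt hV (by positivity)
    have h2 := le_max_left V 0
    have h3 := le_max_right V 0
    refine ⟨(max V 0) / 8 + Real.pi / 4, ?_, ?_, ?_⟩
    · linarith
    · linarith
    · linarith
  obtain ⟨ζ₁, ζ₂, Λ₀, U₀, hζ, hbox⟩ := data_box (γ := γ) (a := a) (b := b) hγ ha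
  obtain ⟨θ, μ, K, δ, Λc, Ca, hA⟩ :=
    exists_adm (γ := γ) (ζ₁ := ζ₁) (ζ₂ := ζ₂) (Λ₀ := Λ₀) (U₀ := U₀) hγ hζ hV1b
  obtain ⟨δ', C', hδ', hC', hinit⟩ := init hA ha hbox hV1a hV1c
  obtain ⟨B, hB, hrun⟩ := run hA
  have hΛc := hA.hΛc
  have hCa := hA.hC
  have hδ0 := hA.hδ
  obtain ⟨ν, hν, hν'⟩ : ∃ ν : ℝ, 0 < ν ∧ 2 * ν * Λc ≤ 1 := by
    refine ⟨1 / (2 * Λc), by positivity, ?_⟩
    have : 2 * (1 / (2 * Λc)) * Λc = 1 := by field_simp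
    exact this.le
  obtain ⟨L, hL, hlip⟩ := arr_lip hA hν
  obtain ⟨K₀, hK₀⟩ := exists_nat_ge (max 1 (max (1 / δ') ν))
  have hK1 : (1 : ℝ) ≤ K₀ := (le_max_left _ _).trans hK₀
  have hK2 : 1 / δ' ≤ K₀ := ((le_max_left _ _).trans (le_max_right _ _)).trans hK₀
  have hK3 : ν ≤ K₀ := ((le_max_right _ _).trans (le_max_right _ _)).trans hK₀
  have hCC : 0 < Ca * C' + (2 * V₁ + Ca * δ) + L := by positivity
  refine ⟨δ', ζ₁ / 2, 2 * ζ₂, Λ₀ + 5, U₀ + 1, Ca * C' + (2 * V₁ + Ca * δ) + L, hδ',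
    by linarith, hCC, ?_⟩
  intro ρ₀ u₀ e₀ hS
  obtain ⟨n, hn⟩ : ∃ n : ℕ → ℝ, ∀ k, n k = (k : ℝ) + K₀ := ⟨_, fun _ => rfl⟩
  obtain ⟨h, hh⟩ : ∃ h : ℕ → ℝ, ∀ k, h k = 1 / n k ^ 4 := ⟨_, fun _ => rfl⟩
  obtain ⟨J, hJ⟩ : ∃ J : ℕ → ℕ, ∀ k, (J k : ℝ) = n k ^ 5 := by
    refine ⟨fun k => (k + K₀) ^ 5, fun k => ?_⟩
    rw [hn k]
    push_cast
    ring
  have hn1 : ∀ k, 1 ≤ n k := by
    intro k
    rw [hn k]
    have := Nat.cast_nonneg (α := ℝ) k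
    linarith
  have hnK : ∀ k, (K₀ : ℝ) ≤ n k := by
    intro k
    rw [hn k]
    have := Nat.cast_nonneg (α := ℝ) k
    linarith
  have hh0 : ∀ k, 0 < h k := fun k => by
    rw [hh k]
    exact (mesh_aux (hn1 k)).1
  have hhn : ∀ k, h k ≤ 1 / n k := fun k => by
    rw [hh k]
    exact (mesh_aux (hn1 k)).2.1
  have hh1 : ∀ k, h k ≤ 1 := fun k => by
    rw [hh k]
    exact (mesh_aux (hn1 k)).2.2.1
  have hJh : ∀ k, (J k : ℝ) * h k = n k := fun k => by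
    rw [hh k, hJ k]
    exact (mesh_aux (hn1 k)).2.2.2.1
  have herr : ∀ k, h k + h k * √(h k) * (2 * (J k : ℝ) + 1) ≤ 4 / n k := fun k => by
    rw [hh k, hJ k]
    exact (mesh_aux (hn1 k)).2.2.2.2.1
  have hinv : ∀ k, n k ≤ 1 / h k := fun k => by
    rw [hh k]
    exact (mesh_aux (hn1 k)).2.2.2.2.2
  have hhδ : ∀ k, h k ≤ δ' := by
    intro k
    have h1 : 1 / n k ≤ 1 / (1 / δ') :=
      one_div_le_one_div_of_le (by positivity) (hK2.trans (hnK k))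
    rw [one_div_one_div] at h1
    exact (hhn k).trans h1
  have hhν : ∀ k, h k * ν ≤ 1 := by
    intro k
    have hk : 0 < n k := lt_of_lt_of_le one_pos (hn1 k)
    have h1 : h k * ν ≤ 1 / n k * n k :=
      mul_le_mul (hhn k) (hK3.trans (hnK k)) hν.le (by positivity)
    rw [one_div_mul_cancel hk.ne'] at h1
    exact h1
  have hninf : Tendsto n atTop atTop := by
    have e : n = fun k : ℕ => (k : ℝ) + K₀ := funext hn
    rw [e]
    exact tendsto_atTop_add_const_right _ _ tendsto_natCast_atTop_atTop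
  have hinvlim : Tendsto (fun k => 1 / n k) atTop (𝓝 0) := by
    refine hninf.inv_tendsto_atTop.congr (fun k => ?_)
    rw [Pi.inv_apply, one_div]
  have hlim : Tendsto h atTop (𝓝 0) :=
    squeeze_zero (fun k => (hh0 k).le) hhn hinvlim
  have hlim4 : ∀ c : ℝ, Tendsto (fun k => c * (4 / n k)) atTop (𝓝 0) := by
    intro c
    have h1 := hinvlim.const_mul (c * 4)
    rw [mul_zero] at h1
    refine h1.congr (fun k => ?_)
    ring
  have key : ∀ k : ℕ, ∃ (w₀ : St) (W : ℕ → ℤ → St),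
      (∀ m, Good γ ζ₁ ζ₂ Λ₀ U₀ θ μ V₁ K δ w₀ (W m)) ∧
      (∀ m, ∃ θ' ∈ Ico (0 : ℝ) 1, W (m + 1) = stp γ ν (W m) θ') ∧
      (∀ m M : ℕ, FF γ θ μ K (win (W m) M) ≤ C' * ((tv₀ γ ρ₀ u₀ e₀).toReal + h k)) ∧
      (∀ (j : Fin 4) (m : ℕ), ∑ j' ∈ Finset.Icc (-(J k : ℤ)) (J k),
          (∑ m' ∈ Finset.range m, ∑ i ∈ Finset.Icc (-(J k : ℤ)) j',
            (cq γ j (W (m' + 1) i) - ∫ θ' in (0 : ℝ)..1, cq γ j (stp γ ν (W m') θ' i))) ^ 2 ≤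
            m * (2 * J k + 1) * B) ∧
      ∀ R : ℝ, 0 < R → R ≤ 1 / h k → ∫ x in Ioo (-R) R,
          (|rho γ (W 0 ⌊x / h k⌋) - ρ₀ x| + |(W 0 ⌊x / h k⌋).u - u₀ x| +
            |ien γ (W 0 ⌊x / h k⌋) - e₀ x|) ≤ C' * h k := by
    intro k
    obtain ⟨w₀, U, hw₀, hu₀, hG, hF, hI⟩ := hinit ρ₀ u₀ e₀ hS (h k) (hh0 k) (hhδ k)
    obtain ⟨W, hW0, hWG, hWs, hWF, hWn⟩ := hrun w₀ U ν (J k) hw₀ hu₀ hG hν hν'
    refine ⟨w₀, W, hWG, hWs, fun m M => (hWF m M).trans (hF _), hWn, ?_⟩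
    rw [hW0]
    exact hI
  choose w₀ W hg hst hFF hno hin using key
  have hτ : 0 ≤ (tv₀ γ ρ₀ u₀ e₀).toReal := ENNReal.toReal_nonneg
  refine ⟨fun k ζ => W k ⌊ζ.1 / (ν * h k)⌋₊ ⌊ζ.2 / h k⌋, h, ?_⟩
  constructor
  · exact hlim
  · intro k
    refine ⟨?_, ?_, ?_⟩
    · exact measurable_arr ν (h k) (fun m i => (W k m i).z)
    · exact measurable_arr ν (h k) (fun m i => (W k m i).u)
    · exact measurable_arr ν (h k) (fun m i => (W k m i).l)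
  · intro k ζ
    exact (hg k _).box _
  · intro k t ht
    obtain ⟨v1, v2, v3⟩ := arr_var hA (hg k ⌊t / (ν * h k)⌋₊) (hh0 k)
      (fun M => hFF k ⌊t / (ν * h k)⌋₊ M)
    have hk := hh0 k
    have hτh : 0 ≤ (tv₀ γ ρ₀ u₀ e₀).toReal + h k := by linarith
    have hle : Ca * (C' * ((tv₀ γ ρ₀ u₀ e₀).toReal + h k)) ≤
        (Ca * C' + (2 * V₁ + Ca * δ) + L) * ((tv₀ γ ρ₀ u₀ e₀).toReal + h k) := by
      rw [← mul_assoc]
      apply mul_le_mul_of_nonneg_right _ hτh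
      have : 0 < 2 * V₁ + Ca * δ := by positivity
      linarith
    refine ⟨v1.trans (ENNReal.ofReal_le_ofReal hle), v2.trans (ENNReal.ofReal_le_ofReal hle),
      v3.trans (ENNReal.ofReal_le_ofReal ?_)⟩
    have : 0 < Ca * C' := by positivity
    linarith
  · intro k s t R hs hst' hR
    obtain ⟨l1, l2, l3⟩ := hlip (w₀ k) (W k) (h k) (hh0 k) (hg k) (hst k) s t R hs hst' hR
    have hk := hh0 k
    have hts : 0 ≤ t - s + h k := by linarith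
    have hle : L * (t - s + h k) ≤
        (Ca * C' + (2 * V₁ + Ca * δ) + L) * (t - s + h k) := by
      apply mul_le_mul_of_nonneg_right _ hts
      have h1 : 0 < 2 * V₁ + Ca * δ := by positivity
      have h2 : 0 < Ca * C' := by positivity
      linarith
    exact ⟨l1.trans hle, l2.trans hle, l3.trans hle⟩
  · intro T φ hT hφ j hj
    obtain ⟨Cφ, R, hCφ, hR, hw⟩ := weak_err hA hν hν' hB.le hT hφ
    have hev : ∀ᶠ k in atTop, R + 1 ≤ n k := hninf.eventually_ge_atTop (R + 1)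
    refine squeeze_zero_norm' ?_ (hlim4 Cφ)
    filter_upwards [hev] with k hk
    have hRJ : R + h k ≤ J k * h k := by
      rw [hJh k]
      have := hh1 k
      linarith
    obtain ⟨w1, -⟩ := hw (w₀ k) (W k) (h k) (J k) j (hh0 k) (hh1 k) (hhν k) hRJ (hg k) (hst k)
      (fun m => hno k j m)
    have h1 := w1 hj
    have h2 := h1.trans (mul_le_mul_of_nonneg_left (herr k) hCφ.le)
    rw [Real.norm_eq_abs]
    exact h2
  · intro T φ hT hφ hφ0 η hη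
    obtain ⟨Cφ, R, hCφ, hR, hw⟩ := weak_err hA hν hν' hB.le hT hφ
    have hev : ∀ᶠ k in atTop, R + 1 ≤ n k := hninf.eventually_ge_atTop (R + 1)
    have hev2 : ∀ᶠ k in atTop, Cφ * (4 / n k) < η := (hlim4 Cφ).eventually_lt_const hη
    filter_upwards [hev, hev2] with k hk hk2
    have hRJ : R + h k ≤ J k * h k := by
      rw [hJh k]
      have := hh1 k
      linarith
    obtain ⟨-, w2⟩ := hw (w₀ k) (W k) (h k) (J k) 3 (hh0 k) (hh1 k) (hhν k) hRJ (hg k) (hst k)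
      (fun m => hno k 3 m)
    have h1 := w2 hφ0
    have h2 := h1.trans (mul_le_mul_of_nonneg_left (herr k) hCφ.le)
    exact h2.trans hk2.le
  · intro R hR
    have hev : ∀ᶠ k in atTop, R ≤ n k := hninf.eventually_ge_atTop R
    have hlimC : Tendsto (fun k => C' * h k) atTop (𝓝 0) := by
      have := hlim.const_mul C'
      rwa [mul_zero] at this
    refine squeeze_zero' (Eventually.of_forall fun k => ?_) ?_ hlimC
    · apply integral_nonneg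
      intro x
      positivity
    · filter_upwards [hev] with k hk
      have h1 := hin k R hR (hk.trans (hinv k))
      simp only [zero_div, Nat.floor_zero]
      exact h1

end Helper51.TH
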