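import Pool.Agent.Helper51.TH.Phys
import Pool.Agent.Helper51.TH.CurveG

/-!
TH-P18. The Rankine-Hugoniot conditions for the 1-shock.

NOTATION. `L` the left state (ahead), `a < 0`, `w` the right state (behind), `c = exp L.l * L.z`, `π = PR γ (a/L.z) > 1`
(`ng (a/L.z) = -a/L.z`, so `w.z = L.z (1 + ng)` and `prs w = π prs L`), `κ = (γ+1)/(2γ)`, `M = √(1 + κ (π - 1)) > 0`,
`s = L.u - c M`, `D₁ = (γ-1)π + (γ+1)`, `D₂ = (γ+1)π + (γ-1)`, `p = prs L`, `ρ = rho L`.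
PROOF. `w.l = L.l + S0`, `exp(2 S0) = π^(1/γ) D₁/D₂`, so `rho w = γ w.z^(2/(γ-1)) exp(-2 w.l) = ρ π^(1/γ) π^(-1/γ) D₂/D₁
= ρ D₂/D₁` (`w.z^(2/(γ-1)) = L.z^(2/(γ-1)) π^(1/γ)`). `hj a = exp L.l L.z GG = - c (π-1)/(γ M)`, so `w.u = L.u - c(π-1)/(γM)`.
Let `j = ρ (L.u - s) = ρ c M > 0`. `j² = ρ² c² M² = γ p ρ M² = p ρ D₂/2` (`sound_sq`; `γ (1 + κ(π-1)) = D₂/2`).
* mass: `rho w (w.u - s) = j`: `w.u - s = c M - c(π-1)/(γM) = (c/(γ M)) (γ M² - (π - 1)) = (c/(γM)) D₁/2`, and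
  `ρ (D₂/D₁) (c/(γM)) D₁/2 = ρ c D₂/(2γM) = ρ c M`. In particular `s < w.u`.
* momentum: `cf 1 - s cq 1 = ρ u (u - s) + p`: the difference of the two sides is
  `j (w.u - L.u) + (π - 1) p = - j c (π-1)/(γM) + (π-1)p = (π - 1)(p - ρ c²/γ) = 0`.
* energy: `cf 2 - s cq 2 = j (u²/2 + e) + p u` with `e = p/((γ-1)ρ)`; difference:
  `j (w.u² - L.u²)/2 + j (e_w - e_L) + p_w w.u - p L.u`; with `j (w.u - L.u) = -(p_w - p)` this is
  `j (e_w - e_L) + (p_w + p)(w.u - L.u)/2` and `w.u - L.u = -(p_w - p)/j`, so it vanishes iff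
  `e_w - e_L = (p_w + p)(p_w - p)/(2 j²) = p (π² - 1)/(ρ D₂)`, and
  `e_w - e_L = p/((γ-1)ρ) (π D₁/D₂ - 1) = p (π D₁ - D₂)/((γ-1) ρ D₂)`, `π D₁ - D₂ = (γ-1)(π² - 1)`.
* entropy: `cf 3 - s cq 3 = j η`, `η = 2 γ l - γ log γ`, and `w.l ≥ L.l` (`S0_nonneg`).
-/

open Set Filter Topology

namespace Helper51.TH

open Helper73.EU

/-- the algebra of the jump conditions; `D₁ = (γ-1)P + (γ+1)`, `D₂ = (γ+1)P + (γ-1)` -/
private theorem rh_alg {γ ρ p c M P u δ r : ℝ} (hγ : 1 < γ) (hM : 0 < M) (hP : 0 < P)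
    (h1 : γ * p = ρ * c ^ 2) (h2 : 2 * γ * M ^ 2 = (γ + 1) * P + (γ - 1))
    (hδ : γ * M * δ = -(c * (P - 1)))
    (hr : r * ((γ - 1) * P + (γ + 1)) = ρ * ((γ + 1) * P + (γ - 1))) :
    r * (δ + c * M) = ρ * c * M ∧
    r * (u + δ) ^ 2 + P * p - (u - c * M) * (r * (u + δ)) =
      ρ * u ^ 2 + p - (u - c * M) * (ρ * u) ∧
    (r * (u + δ) ^ 2 / 2 + γ / (γ - 1) * (P * p)) * (u + δ) -
        (u - c * M) * (r * (u + δ) ^ 2 / 2 + P * p / (γ - 1)) =
      (ρ * u ^ 2 / 2 + γ / (γ - 1) * p) * u - (u - c * M) * (ρ * u ^ 2 / 2 + p / (γ - 1)) := by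
  have hγ0 : γ ≠ 0 := by linarith
  have hγ1 : γ - 1 ≠ 0 := by linarith
  have hD1 : (γ - 1) * P + (γ + 1) ≠ 0 := by
    have : 0 < (γ - 1) * P := mul_pos (by linarith) hP
    linarith
  have A : r * (δ + c * M) = ρ * c * M := by
    have h3 : γ * M * ((γ - 1) * P + (γ + 1)) ≠ 0 := mul_ne_zero (mul_ne_zero hγ0 hM.ne') hD1
    apply mul_left_cancel₀ h3
    linear_combination (γ * M * (δ + c * M)) * hr + ρ * ((γ + 1) * P + (γ - 1)) * hδ -
      (ρ * c * ((γ - 1) * P + (γ + 1)) / 2 - ρ * c * ((γ + 1) * P + (γ - 1)) / 2) * h2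
  have K : δ * (ρ * c * M) + (P - 1) * p = 0 := by
    apply mul_left_cancel₀ hγ0
    linear_combination ρ * c * hδ + (P - 1) * h1
  have E0 : δ * ((P + 1) * (γ - 1) / 2 + P) + (P - 1) * (c * M) = 0 := by
    linear_combination M * hδ - (δ / 2) * h2
  refine ⟨A, ?_, ?_⟩
  · linear_combination (u + δ) * A + K
  · obtain ⟨g, hg'⟩ : ∃ g, g = 1 / (γ - 1) := ⟨_, rfl⟩
    have hg : g * (γ - 1) = 1 := by
      rw [hg']
      field_simp
    have e1 : γ / (γ - 1) = γ * g := by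
      rw [hg']
      ring
    have e2 : P * p / (γ - 1) = P * p * g := by
      rw [hg']
      ring
    have e3 : p / (γ - 1) = p * g := by
      rw [hg']
      ring
    rw [e1, e2, e3]
    linear_combination ((u + δ) ^ 2 / 2) * A + ((2 * u + δ) / 2) * K + p * g * E0 +
      (P * p * (u + δ) - p * u - p * δ * (P + 1) / 2) * hg

theorem shock_rh {γ : ℝ} (hγ : 1 < γ) {L : St} (hL : 0 < L.z) {a : ℝ} (ha : a < 0) :
    (∀ k : Fin 4, k ≠ 3 →
      cf γ k ⟨L.z - a, L.u + hj γ a L.z L.l, L.l + sj γ a L.z⟩ -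
        (L.u - Real.exp L.l * L.z * √(1 + (γ + 1) / (2 * γ) * (PR γ (a / L.z) - 1))) *
          cq γ k ⟨L.z - a, L.u + hj γ a L.z L.l, L.l + sj γ a L.z⟩ =
      cf γ k L - (L.u - Real.exp L.l * L.z * √(1 + (γ + 1) / (2 * γ) *
        (PR γ (a / L.z) - 1))) * cq γ k L) ∧
    cf γ 3 L - (L.u - Real.exp L.l * L.z * √(1 + (γ + 1) / (2 * γ) *
        (PR γ (a / L.z) - 1))) * cq γ 3 L ≤
      cf γ 3 ⟨L.z - a, L.u + hj γ a L.z L.l, L.l + sj γ a L.z⟩ -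
        (L.u - Real.exp L.l * L.z * √(1 + (γ + 1) / (2 * γ) * (PR γ (a / L.z) - 1))) *
          cq γ 3 ⟨L.z - a, L.u + hj γ a L.z L.l, L.l + sj γ a L.z⟩ ∧
    L.u - Real.exp L.l * L.z * √(1 + (γ + 1) / (2 * γ) * (PR γ (a / L.z) - 1)) <
      L.u + hj γ a L.z L.l := by
  have hγ0 : 0 < γ := by linarith
  have hγ1 : 0 < γ - 1 := by linarith
  obtain ⟨w, hw⟩ : ∃ w : St, w = ⟨L.z - a, L.u + hj γ a L.z L.l, L.l + sj γ a L.z⟩ := ⟨_, rfl⟩
  have hwz : w.z = L.z - a := by rw [hw]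
  have hwu : w.u = L.u + hj γ a L.z L.l := by rw [hw]
  have hwl : w.l = L.l + sj γ a L.z := by rw [hw]
  rw [← hw]
  have hw0 : 0 < w.z := by rw [hwz]; linarith
  obtain ⟨t, ht⟩ : ∃ t, t = (L.z - a) / L.z := ⟨_, rfl⟩
  have ht1 : 1 < t := by
    rw [ht, one_lt_div hL]
    linarith
  have htz : L.z - a = t * L.z := by
    rw [ht]
    field_simp
  have hng : 1 + ng (a / L.z) = t := by
    have h1 : a / L.z < 0 := div_neg_of_neg_of_pos ha hL
    have h2 : ng (a / L.z) = -(a / L.z) := max_eq_left (by linarith)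
    rw [h2, ht]
    field_simp
    ring
  obtain ⟨P, hPdef⟩ : ∃ P, P = PR γ (a / L.z) := ⟨_, rfl⟩
  have hPt : P = t ^ (2 * γ / (γ - 1)) := by
    rw [hPdef, PR, hng]
  have hP1 : 1 < P := by
    rw [hPt]
    exact Real.one_lt_rpow ht1 (by positivity)
  have hP0 : 0 < P := by linarith
  obtain ⟨M, hMdef⟩ : ∃ M, M = √(1 + (γ + 1) / (2 * γ) * (P - 1)) := ⟨_, rfl⟩
  have hin : 0 < 1 + (γ + 1) / (2 * γ) * (P - 1) := by
    have : 0 < (γ + 1) / (2 * γ) * (P - 1) := mul_pos (by positivity) (by linarith)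
    linarith
  have hM0 : 0 < M := by
    rw [hMdef]
    exact Real.sqrt_pos.2 hin
  have hMsq : 2 * γ * M ^ 2 = (γ + 1) * P + (γ - 1) := by
    rw [hMdef, Real.sq_sqrt hin.le]
    field_simp
    ring
  obtain ⟨c, hcdef⟩ : ∃ c, c = Real.exp L.l * L.z := ⟨_, rfl⟩
  have hc0 : 0 < c := by rw [hcdef]; positivity
  have hδ : γ * M * hj γ a L.z L.l = -(c * (P - 1)) := by
    have h1 : a / L.z < 0 := div_neg_of_neg_of_pos ha hL
    rw [hj, GG, max_eq_right h1.le, ← hPdef, ← hMdef, ← hcdef]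
    field_simp
    ring
  have hprs : prs γ w = P * prs γ L := by
    rw [prs, prs, hwz, htz, hPt, Real.mul_rpow (by linarith) hL.le]
  have hD1 : 0 < (γ - 1) * P + (γ + 1) := by
    have : 0 < (γ - 1) * P := mul_pos hγ1 hP0
    linarith
  have hD2 : 0 < (γ + 1) * P + (γ - 1) := by positivity
  have hrho : rho γ w * ((γ - 1) * P + (γ + 1)) = rho γ L * ((γ + 1) * P + (γ - 1)) := by
    have h1 : P ^ (1 / γ) = t ^ (2 / (γ - 1)) := by
      rw [hPt, ← Real.rpow_mul (by linarith)]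
      congr 1
      field_simp
    have h2 : 0 < t ^ (2 / (γ - 1)) := Real.rpow_pos_of_pos (by linarith) _
    have h3 : sj γ a L.z = Real.log (t ^ (2 / (γ - 1)) *
        (((γ - 1) * P + (γ + 1)) / ((γ + 1) * P + (γ - 1)))) / 2 := by
      rw [sj, S0, ← hPdef, h1]
    have h4 : 0 < t ^ (2 / (γ - 1)) * (((γ - 1) * P + (γ + 1)) / ((γ + 1) * P + (γ - 1))) := by
      positivity
    have h5 : Real.exp (-(2 * w.l)) = Real.exp (-(2 * L.l)) *
        (t ^ (2 / (γ - 1)) * (((γ - 1) * P + (γ + 1)) / ((γ + 1) * P + (γ - 1))))⁻¹ := by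
      rw [hwl, h3, ← Real.exp_log (inv_pos.2 h4), Real.log_inv, ← Real.exp_add]
      congr 1
      ring
    rw [rho, rho, h5, hwz, htz, Real.mul_rpow (by linarith) hL.le]
    field_simp
  have hsound := sound_sq hγ hL
  rw [← hcdef] at hsound
  have halg := rh_alg (u := L.u) hγ hM0 hP0 hsound hMsq hδ hrho
  obtain ⟨A, hmom, hen⟩ := halg
  rw [← hPdef, ← hMdef, ← hcdef]
  obtain ⟨q0, q1, q2, q3, f0, f1, f2, f3⟩ := cq_eq hγ hL
  obtain ⟨q0', q1', q2', q3', f0', f1', f2', f3'⟩ := cq_eq hγ hw0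
  rw [hprs] at q2' f1' f2'
  rw [hwu] at q1' q2' f0' f1' f2' f3'
  refine ⟨?_, ?_, ?_⟩
  · intro k hk
    fin_cases k
    · change cf γ 0 w - (L.u - c * M) * cq γ 0 w = cf γ 0 L - (L.u - c * M) * cq γ 0 L
      rw [f0', q0', f0, q0]
      linear_combination A
    · change cf γ 1 w - (L.u - c * M) * cq γ 1 w = cf γ 1 L - (L.u - c * M) * cq γ 1 L
      rw [f1', q1', f1, q1]
      exact hmom
    · change cf γ 2 w - (L.u - c * M) * cq γ 2 w = cf γ 2 L - (L.u - c * M) * cq γ 2 L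
      rw [f2', q2', f2, q2]
      exact hen
    · exact absurd rfl hk
  · rw [f3', q3', f3, q3, hwl]
    have hS := S0_nonneg hγ (a / L.z)
    have hρ := rho_pos hγ hL
    have h1 : 0 ≤ rho γ L * c * M * (2 * γ * sj γ a L.z) := by
      have h2 : 0 ≤ sj γ a L.z := hS
      positivity
    have h3 : rho γ w * (L.u + hj γ a L.z L.l) * (2 * γ * (L.l + sj γ a L.z) - γ * Real.log γ) -
        (L.u - c * M) * (rho γ w * (2 * γ * (L.l + sj γ a L.z) - γ * Real.log γ)) =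
        rho γ L * c * M * (2 * γ * (L.l + sj γ a L.z) - γ * Real.log γ) := by
      linear_combination (2 * γ * (L.l + sj γ a L.z) - γ * Real.log γ) * A
    rw [h3]
    linarith
  · have h1 : γ * M * (-(c * M)) < γ * M * hj γ a L.z L.l := by
      rw [hδ]
      have h2 : γ * M * (c * M) = c * (((γ + 1) * P + (γ - 1)) / 2) := by
        linear_combination (c / 2) * hMsq
      have h3 : c * (P - 1) < c * (((γ + 1) * P + (γ - 1)) / 2) := by
        refine mul_lt_mul_of_pos_left ?_ hc0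
        linarith
      linarith
    have h2 := lt_of_mul_lt_mul_left h1 (by positivity)
    linarith

end Helper51.TH
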