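import Pool.Agent.Helper51.TH.NDefs

/-!
TH-N09. Algebra and regularity of `sig`, `AB`, `KK`.

PROOF. `sig_eq`: induction on `l`. With `S` the sum of the second components of `l` and `Π` the product,
`(sig (p :: l) h).1 t = ((sig l h).1 (t + p.2) + p.1 (sig l h).2 (t - p.2)) / √(1 - p.1²)
 = ((AB l h).1 (t + p.2 + S) + p.1 (AB l h).2 (t + p.2 + S - 2 p.2)) / (√(1 - p.1²) Π) = (AB (p :: l) h).1 (t + p.2 + S) / ...`,
the same for `.2`. (No positivity is needed, `div_div`, `div_add_div_same`.)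
`AB_shift`, regularity: inductions on `l`; finite sums and shifts of `C²` functions with compact support are such functions
(`HasCompactSupport.comp_homeomorph` or `HasCompactSupport.comp_isClosedEmbedding` for the translation
`t ↦ t - c`; `HasCompactSupport.add`, `.mul_left`), and the delays are nonnegative.
-/

namespace Helper51.TH

private lemma comp_sub {f : ℝ → ℝ} (hf : HasCompactSupport f) (c : ℝ) :
    HasCompactSupport (fun t => f (t - c)) :=
  hf.comp_homeomorph (Homeomorph.subRight c)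

private lemma contDiff_sub {f : ℝ → ℝ} (hf : ContDiff ℝ 2 f) (c : ℝ) :
    ContDiff ℝ 2 (fun t => f (t - c)) :=
  hf.comp (contDiff_id.sub contDiff_const)

private lemma comp_const_mul {f : ℝ → ℝ} (hf : HasCompactSupport f) (c : ℝ) :
    HasCompactSupport (fun t => c * f t) :=
  HasCompactSupport.mul_left (f := fun _ => c) hf

private lemma comp_sum (M : ℕ) (F : ℕ → ℝ → ℝ) (h : ∀ b, HasCompactSupport (F b)) :
    HasCompactSupport (fun t => ∑ b ∈ Finset.range M, F b t) := by
  induction M with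
  | zero =>
    simp only [Finset.range_zero, Finset.sum_empty]
    exact HasCompactSupport.zero
  | succ M ih =>
    simp only [Finset.sum_range_succ]
    exact ih.add (h M)

theorem sig_eq (rN : ℝ) (l : List (ℝ × ℝ)) (h : ℝ → ℝ) (t : ℝ) :
    (sig rN l h).1 t = (AB rN l h).1 (t + (l.map Prod.snd).sum) /
      (√(1 - rN ^ 2) * (l.map fun p => √(1 - p.1 ^ 2)).prod) ∧
    (sig rN l h).2 t = (AB rN l h).2 (t + (l.map Prod.snd).sum) /
      (√(1 - rN ^ 2) * (l.map fun p => √(1 - p.1 ^ 2)).prod) := by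
  induction l generalizing t with
  | nil =>
    simp only [sig, AB, List.map_nil, List.sum_nil, List.prod_nil, add_zero, mul_one]
    exact ⟨trivial, trivial⟩
  | cons p l ih =>
    obtain ⟨h1, h2⟩ := ih (t + p.2)
    obtain ⟨h3, h4⟩ := ih (t - p.2)
    obtain ⟨S, hS⟩ : ∃ S, S = (l.map Prod.snd).sum := ⟨_, rfl⟩
    obtain ⟨C, hC⟩ : ∃ C, C = √(1 - rN ^ 2) * (l.map fun p => √(1 - p.1 ^ 2)).prod := ⟨_, rfl⟩
    rw [← hS, ← hC] at h1 h2 h3 h4
    have e1 : t + (p.2 + S) = t + p.2 + S := by ring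
    have e2 : t + (p.2 + S) - 2 * p.2 = t - p.2 + S := by ring
    have e3 : √(1 - rN ^ 2) * (√(1 - p.1 ^ 2) * (l.map fun p => √(1 - p.1 ^ 2)).prod) =
        C * √(1 - p.1 ^ 2) := by
      rw [hC]
      ring
    simp only [sig, AB, List.map_cons, List.sum_cons, List.prod_cons]
    rw [← hS, e3, e2, e1, h1, h4]
    constructor
    · rw [← div_div]
      congr 1
      rw [add_div, mul_div_assoc]
    · rw [← div_div]
      congr 1
      rw [add_div, mul_div_assoc]

theorem AB_shift (rN : ℝ) (l : List (ℝ × ℝ)) (h : ℝ → ℝ) (c s t : ℝ) :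
    (AB rN l (fun t => c * h (t - s))).1 t = c * (AB rN l h).1 (t - s) ∧
    (AB rN l (fun t => c * h (t - s))).2 t = c * (AB rN l h).2 (t - s) := by
  induction l generalizing t with
  | nil =>
    simp only [AB]
    exact ⟨trivial, by ring⟩
  | cons p l ih =>
    obtain ⟨h1, h2⟩ := ih t
    obtain ⟨h3, h4⟩ := ih (t - 2 * p.2)
    have e1 : t - s - 2 * p.2 = t - 2 * p.2 - s := by ring
    simp only [AB]
    rw [h1, h4, e1]
    exact ⟨by ring, by ring⟩

theorem KK_reg {rN : ℝ} {M : ℕ} {l : List (ℝ × ℝ)} {a : ℕ} {f : ℝ → ℝ} {η : ℝ}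
    (hl : ∀ p ∈ l, 0 ≤ p.2) (hf : ContDiff ℝ 2 f) (hc : HasCompactSupport f)
    (h0 : ∀ t < η, f t = 0) : ContDiff ℝ 2 (KK rN M l a f) ∧ HasCompactSupport (KK rN M l a f) ∧
      ∀ t < η, KK rN M l a f t = 0 := by
  induction l generalizing a with
  | nil =>
    have e : KK rN M [] a f = fun t => rN ^ a * f t := by
      funext t
      simp only [KK]
    rw [e]
    refine ⟨contDiff_const.mul hf, comp_const_mul hc _, fun t ht => ?_⟩
    simp only
    rw [h0 t ht, mul_zero]
  | cons p l ih =>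
    have hl' : ∀ q ∈ l, 0 ≤ q.2 := fun q hq => hl q (List.mem_cons_of_mem p hq)
    have hp : 0 ≤ p.2 := hl p List.mem_cons_self
    have e : KK rN M (p :: l) a f = fun t =>
        ∑ b ∈ Finset.range M, Q p.1 a b * KK rN M l b f (t - 2 * b * p.2) := by
      funext t
      simp only [KK]
    rw [e]
    refine ⟨?_, ?_, fun t ht => ?_⟩
    · refine ContDiff.sum fun b _ => ?_
      exact contDiff_const.mul (contDiff_sub (ih hl' (a := b)).1 _)
    · refine comp_sum M (fun b t => Q p.1 a b * KK rN M l b f (t - 2 * b * p.2)) fun b => ?_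
      exact comp_const_mul (comp_sub (ih hl' (a := b)).2.1 _) _
    · refine Finset.sum_eq_zero fun b _ => ?_
      have hb : (0 : ℝ) ≤ 2 * b * p.2 := by positivity
      rw [(ih hl' (a := b)).2.2 _ (by linarith), mul_zero]

theorem AB_reg {rN : ℝ} {l : List (ℝ × ℝ)} {h : ℝ → ℝ} {η : ℝ}
    (hl : ∀ p ∈ l, 0 ≤ p.2) (hh : ContDiff ℝ 2 h) (hc : HasCompactSupport h)
    (h0 : ∀ t < η, h t = 0) :
    (ContDiff ℝ 2 (AB rN l h).1 ∧ HasCompactSupport (AB rN l h).1 ∧ ∀ t < η, (AB rN l h).1 t = 0) ∧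
    (ContDiff ℝ 2 (AB rN l h).2 ∧ HasCompactSupport (AB rN l h).2 ∧ ∀ t < η, (AB rN l h).2 t = 0) := by
  induction l with
  | nil =>
    have e1 : (AB rN [] h).1 = h := by simp only [AB]
    have e2 : (AB rN [] h).2 = fun t => rN * h t := by simp only [AB]
    rw [e1, e2]
    refine ⟨⟨hh, hc, h0⟩, contDiff_const.mul hh, comp_const_mul hc _, fun t ht => ?_⟩
    simp only
    rw [h0 t ht, mul_zero]
  | cons p l ih =>
    obtain ⟨⟨a1, a2, a3⟩, b1, b2, b3⟩ := ih fun q hq => hl q (List.mem_cons_of_mem p hq)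
    have hp : 0 ≤ p.2 := hl p List.mem_cons_self
    have e1 : (AB rN (p :: l) h).1 = fun t => (AB rN l h).1 t + p.1 * (AB rN l h).2 (t - 2 * p.2) := by
      simp only [AB]
    have e2 : (AB rN (p :: l) h).2 = fun t => p.1 * (AB rN l h).1 t + (AB rN l h).2 (t - 2 * p.2) := by
      simp only [AB]
    rw [e1, e2]
    refine ⟨⟨a1.add (contDiff_const.mul (contDiff_sub b1 _)), a2.add (comp_const_mul (comp_sub b2 _) _),
      fun t ht => ?_⟩, (contDiff_const.mul a1).add (contDiff_sub b1 _),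
      (comp_const_mul a2 _).add (comp_sub b2 _), fun t ht => ?_⟩
    · simp only
      rw [a3 t ht, b3 _ (by linarith), mul_zero, add_zero]
    · simp only
      rw [a3 t ht, b3 _ (by linarith), mul_zero, add_zero]

end Helper51.TH
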