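import Pool.Agent.Helper51.TH.Large
import Pool.Agent.Helper51.TH.KId
import Pool.Agent.Helper51.TH.Paths
import Pool.Agent.Helper51.TH.Nodup
import Pool.Agent.Helper51.TH.Bump
import Pool.Agent.Helper51.TH.SigAlg

/-!
TH-N10. The signals (assembly of the modules N01 - N09).

PROOF. `SA_large B (N₀)` gives `m, n`; `N = n + 1`, `r = tanh (π / (2 N))` (note `((n + 1 : ℕ) : ℝ) = n + 1`),
`rN = (-1)^n r`. Let `S₁ = ∑_{i < n} log (nth Prime i) ≥ 0`, `ε = T / 8`, `δ > 0` with `(2 m + 1) δ S₁ ≤ T / 8`,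
`l = lst r δ n` (delays `≥ δ log 2 > 0`, sum `δ S₁`), `M ≥ m + 1` with `T ≤ 2 M δ log 2`, `Θ = 2 m δ S₁`,
`P = paths rN M l 0`. `exists_signal P (paths_lst_nodup ..)` gives `η, f`. Let `c = √(1 - r²)^(n+1)`
(`= √(1 - rN²) * ∏ √(1 - p.1²)`, since `p.1² = r²`), `K = KK rN M l 0 f`, `h t = c * K (t - δ S₁)`,
`s = Θ + ε + δ S₁`, `T0 = Θ + 2 ε + δ S₁ < T`. Then `K (Θ + ε) = ∑_{q ∈ P} q.1 f (Θ + ε - q.2)` (`KK_eq_paths`)
`= ∑_{q ∈ P, q.2 ≤ Θ} |q.1| ≥ SA rN m l 0` (`SA_le_paths`), so `h s ≥ c * SA ≥ B`.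
Signals: `f 0 = f`; for `1 ≤ i ≤ n`: `f i t = (sig rN (l.drop i) h).1 (t + tau δ i)`; for `i ≤ n`:
`g i t = (sig rN (l.drop i) h).2 (t - tau δ i)`; `f (n+1) = h`, `g (n+1) = 0`.
* jump at `i = n` (and `n ≥ 1`, or `n = 0` combined with the next point): `l.drop n = []`, definition of `sig`,
  `rN = (-1)^n r`, `rN² = r²`.
* jump at `1 ≤ i < n`: `l.drop i = ((-1)^i r, tau δ (i+1)) :: l.drop (i+1)` (`List.drop_eq_getElem_cons`).
* jump at `0`: the same for `l.drop 0 = l` gives the formulas with `(sig rN l h).1 t` instead of `f 0 t`; and for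
  `t ≤ T0 < T ≤ 2 M δ log 2`: `(sig rN l h).1 t = (AB rN l h).1 (t + δ S₁) / c` (`sig_eq`) `= (AB rN l K).1 t`
  (`AB_shift`, `c ≠ 0`) `= f t` (`AB_KK`).
* smoothness, compact support: `KK_reg`, `AB_reg`, `sig_eq`.
* zero: `K` vanishes for `t < η`, so `h t = 0` for `t < η + δ S₁`, and `(sig rN (l.drop i) h).j t' = 0` for
  `t' + sum (l.drop i) < η + δ S₁`. For `f i t` take `t' = t + tau δ i` (`tau δ i + sum (l.drop i) ≤ δ S₁` for `i ≥ 1`,
  because `tau δ i` is the delay of the entry `i - 1`, not in `l.drop i`), for `g i (t + tau δ i)` take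
  `t' = t + tau δ i - tau δ i = t`; `t < η` suffices in both cases.
-/

namespace Helper51.TH

private theorem shift_cd {f : ℝ → ℝ} (hf : ContDiff ℝ 2 f) (a : ℝ) :
    ContDiff ℝ 2 (fun t => f (t + a)) :=
  hf.comp (contDiff_id.add contDiff_const)

private theorem shift_cs {f : ℝ → ℝ} (hf : HasCompactSupport f) (a : ℝ) :
    HasCompactSupport (fun t => f (t + a)) :=
  hf.comp_homeomorph (Homeomorph.addRight a)

private theorem drop_sum_le (l : List (ℝ × ℝ)) (hl : ∀ p ∈ l, 0 ≤ p.2) (i : ℕ) :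
    ((l.drop i).map Prod.snd).sum ≤ (l.map Prod.snd).sum := by
  have h1 : (l.map Prod.snd).sum = ((l.take i).map Prod.snd).sum + ((l.drop i).map Prod.snd).sum := by
    conv_lhs => rw [← List.take_append_drop i l]
    rw [List.map_append, List.sum_append]
  have h2 : 0 ≤ ((l.take i).map Prod.snd).sum := by
    refine List.sum_nonneg fun x hx => ?_
    obtain ⟨p, hp, rfl⟩ := List.mem_map.1 hx
    exact hl p (List.mem_of_mem_take hp)
  linarith

private theorem sig_reg {rN : ℝ} {l : List (ℝ × ℝ)} {h : ℝ → ℝ} {η : ℝ}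
    (hl : ∀ p ∈ l, 0 ≤ p.2) (hh : ContDiff ℝ 2 h) (hc : HasCompactSupport h)
    (h0 : ∀ t < η, h t = 0) (a : ℝ) :
    (ContDiff ℝ 2 (fun t => (sig rN l h).1 (t + a)) ∧
      HasCompactSupport (fun t => (sig rN l h).1 (t + a)) ∧
      ∀ t, t + a + (l.map Prod.snd).sum < η → (sig rN l h).1 (t + a) = 0) ∧
    (ContDiff ℝ 2 (fun t => (sig rN l h).2 (t + a)) ∧
      HasCompactSupport (fun t => (sig rN l h).2 (t + a)) ∧
      ∀ t, t + a + (l.map Prod.snd).sum < η → (sig rN l h).2 (t + a) = 0) := by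
  obtain ⟨⟨a1, a2, a3⟩, ⟨b1, b2, b3⟩⟩ := AB_reg (rN := rN) hl hh hc h0
  have e1 : (fun t => (sig rN l h).1 (t + a)) = fun t =>
      (AB rN l h).1 (t + (a + (l.map Prod.snd).sum)) *
        (√(1 - rN ^ 2) * (l.map fun p => √(1 - p.1 ^ 2)).prod)⁻¹ := by
    funext t
    rw [(sig_eq rN l h (t + a)).1, div_eq_mul_inv, add_assoc]
  have e2 : (fun t => (sig rN l h).2 (t + a)) = fun t =>
      (AB rN l h).2 (t + (a + (l.map Prod.snd).sum)) *
        (√(1 - rN ^ 2) * (l.map fun p => √(1 - p.1 ^ 2)).prod)⁻¹ := by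
    funext t
    rw [(sig_eq rN l h (t + a)).2, div_eq_mul_inv, add_assoc]
  refine ⟨⟨?_, ?_, ?_⟩, ⟨?_, ?_, ?_⟩⟩
  · rw [e1]; exact (shift_cd a1 _).mul contDiff_const
  · rw [e1]; exact (shift_cs a2 _).mul_right
  · intro t ht
    rw [(sig_eq rN l h (t + a)).1, a3 _ ht, zero_div]
  · rw [e2]; exact (shift_cd b1 _).mul contDiff_const
  · rw [e2]; exact (shift_cs b2 _).mul_right
  · intro t ht
    rw [(sig_eq rN l h (t + a)).2, b3 _ ht, zero_div]

theorem signals (B T : ℝ) (N₀ : ℕ) (hT : 0 < T) :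
    ∃ (N : ℕ) (δ η s T0 : ℝ) (f g : ℕ → ℝ → ℝ), N₀ ≤ N ∧ 1 ≤ N ∧ 0 < δ ∧ 0 < η ∧ η < s ∧
      s < T0 ∧ T0 < T ∧ IsSig N (Real.tanh (Real.pi / (2 * N))) (tau δ) η T0 f g ∧ B ≤ f N s := by
  obtain ⟨m, n, hn, hSA⟩ := SA_large B N₀
  have hcast : ((n + 1 : ℕ) : ℝ) = (n : ℝ) + 1 := by push_cast; ring
  set r : ℝ := Real.tanh (Real.pi / (2 * ((n : ℝ) + 1))) with hr
  have hr0 : 0 < r := by
    rw [hr, Real.tanh_eq_sinh_div_cosh]
    refine div_pos (Real.sinh_pos_iff.2 ?_) (Real.cosh_pos _)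
    positivity
  have hr1 : r < 1 := Real.tanh_lt_one _
  have hrsq : r ^ 2 < 1 := by nlinarith
  have hpos : 0 < √(1 - r ^ 2) := Real.sqrt_pos.2 (by linarith)
  set rN : ℝ := (-1) ^ n * r with hrN
  have hsgn : ∀ k : ℕ, ((-1 : ℝ) ^ k) ^ 2 = 1 := by
    intro k; rw [← pow_mul, mul_comm, pow_mul]; simp
  have habs : ∀ k : ℕ, |(-1 : ℝ) ^ k * r| = r := by
    intro k
    rw [abs_mul, abs_pow, abs_neg, abs_one, one_pow, one_mul, abs_of_pos hr0]
  have hsq : ∀ k : ℕ, ((-1 : ℝ) ^ k * r) ^ 2 = r ^ 2 := by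
    intro k; rw [mul_pow, hsgn, one_mul]
  -- primes
  have hpr : ∀ i, (Nat.nth Nat.Prime i).Prime := Nat.prime_nth_prime
  have hp2 : ∀ i, Real.log 2 ≤ Real.log (Nat.nth Nat.Prime i) := by
    intro i
    refine Real.log_le_log (by norm_num) ?_
    exact_mod_cast (hpr i).two_le
  have hlog2 : 0 < Real.log 2 := Real.log_pos (by norm_num)
  set S₁ : ℝ := ((List.range n).map fun i => Real.log (Nat.nth Nat.Prime i)).sum with hS₁
  have hS₁0 : 0 ≤ S₁ := by
    refine List.sum_nonneg fun x hx => ?_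
    obtain ⟨i, _, rfl⟩ := List.mem_map.1 hx
    exact hlog2.le.trans (hp2 i)
  -- delta
  obtain ⟨δ, hδ, hδS⟩ : ∃ δ : ℝ, 0 < δ ∧ (2 * m + 1) * (δ * S₁) ≤ T / 8 := by
    refine ⟨T / (8 * ((2 * m + 1) * (S₁ + 1))), by positivity, ?_⟩
    have h1 : (0 : ℝ) < 2 * m + 1 := by positivity
    have h2 : 0 < S₁ + 1 := by linarith
    have h3 : (2 * (m : ℝ) + 1) * (T / (8 * ((2 * m + 1) * (S₁ + 1))) * S₁) =
        T / 8 * (S₁ / (S₁ + 1)) := by
      field_simp
    rw [h3]
    have h4 : S₁ / (S₁ + 1) ≤ 1 := (div_le_one h2).2 (by linarith)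
    nlinarith [hT]
  set l := lst r δ n with hl
  have hlen : l.length = n := by rw [hl, lst, List.length_map, List.length_range]
  have hmem : ∀ p ∈ l, ∃ i : ℕ, p = ((-1) ^ i * r, δ * Real.log (Nat.nth Nat.Prime i)) := by
    intro p hp
    rw [hl, lst] at hp
    obtain ⟨i, _, rfl⟩ := List.mem_map.1 hp
    exact ⟨i, rfl⟩
  have hpos2 : ∀ p ∈ l, 0 < p.2 := by
    intro p hp
    obtain ⟨i, rfl⟩ := hmem p hp
    exact mul_pos hδ (hlog2.trans_le (hp2 i))
  have hnn2 : ∀ p ∈ l, 0 ≤ p.2 := fun p hp => (hpos2 p hp).le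
  have hD : (l.map Prod.snd).sum = δ * S₁ := by
    rw [hl, lst, List.map_map, hS₁, ← List.sum_map_mul_left]
    rfl
  have hD0 : 0 ≤ δ * S₁ := mul_nonneg hδ.le hS₁0
  -- M
  obtain ⟨M, hM1, hM2⟩ : ∃ M : ℕ, m + 1 ≤ M ∧ T ≤ 2 * M * (δ * Real.log 2) := by
    obtain ⟨k, hk⟩ := exists_nat_ge (T / (2 * (δ * Real.log 2)))
    refine ⟨max (m + 1) k, le_max_left _ _, ?_⟩
    have h1 : 0 < 2 * (δ * Real.log 2) := by positivity
    rw [div_le_iff₀ h1] at hk
    have h2 : (k : ℝ) ≤ ((max (m + 1) k : ℕ) : ℝ) := by exact_mod_cast le_max_right _ _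
    nlinarith
  set Θ : ℝ := 2 * m * (l.map Prod.snd).sum with hΘ
  have hΘ0 : 0 ≤ Θ := by rw [hΘ, hD]; positivity
  have hε : 0 < T / 8 := by positivity
  set P := paths rN M l 0 with hP
  obtain ⟨η, f, hη0, hηε, hfcd, hfcs, hf1, hf0, hfsum⟩ :=
    exists_signal P (paths_lst_nodup hδ r n rN M 0) hΘ0 hε
  obtain ⟨hKcd, hKcs, hK0⟩ := KK_reg (rN := rN) (M := M) (a := 0) hnn2 hfcd hfcs hf0
  set K := KK rN M l 0 f with hK
  set c : ℝ := √(1 - r ^ 2) ^ (n + 1) with hc
  have hc0 : 0 < c := pow_pos hpos _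
  set D : ℝ := δ * S₁ with hDdef
  set h : ℝ → ℝ := fun t => c * K (t - D) with hh
  have hhcd : ContDiff ℝ 2 h := by
    have := (shift_cd hKcd (-D))
    exact contDiff_const.mul this
  have hhcs : HasCompactSupport h := by
    have := (shift_cs hKcs (-D))
    exact this.mul_left
  have hh0 : ∀ t < η + D, h t = 0 := by
    intro t ht
    simp only [hh]
    rw [hK0 (t - D) (by linarith), mul_zero]
  -- the value at s
  have hval : B ≤ h (Θ + T / 8 + D) := by
    have h1 : h (Θ + T / 8 + D) = c * K (Θ + T / 8) := by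
      simp only [hh]; rw [add_sub_cancel_right]
    rw [h1, hK, KK_eq_paths, ← hP, hfsum]
    have h2 := SA_le_paths (rN := rN) hM1 l hnn2 0
    have h3 := hSA l rN hlen (fun p hp => by
      obtain ⟨i, rfl⟩ := hmem p hp
      exact habs i) (habs n)
    exact h3.trans (mul_le_mul_of_nonneg_left h2 hc0.le)
  -- the product
  have hprod : √(1 - rN ^ 2) * (l.map fun p => √(1 - p.1 ^ 2)).prod = c := by
    have h1 : (l.map fun p => √(1 - p.1 ^ 2)) = List.replicate n √(1 - r ^ 2) := by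
      rw [List.eq_replicate_iff]
      refine ⟨by rw [List.length_map, hlen], fun x hx => ?_⟩
      obtain ⟨p, hp, rfl⟩ := List.mem_map.1 hx
      obtain ⟨i, rfl⟩ := hmem p hp
      simp only
      rw [hsq]
    rw [h1, List.prod_replicate, hrN, hsq, hc]
    exact (pow_succ' _ _).symm
  -- signal at the left end
  have hleft : ∀ t < T, (sig rN l h).1 t = f t := by
    intro t ht
    rw [(sig_eq rN l h t).1, hprod, hD]
    have h1 := (AB_shift rN l K c D (t + D)).1
    rw [← hh] at h1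
    rw [h1, add_sub_cancel_right, mul_div_cancel_left₀ _ hc0.ne']
    refine AB_KK (T1 := T) (fun p hp => ⟨hpos2 p hp, ?_⟩) (fun t ht0 => hf0 t (by linarith)) ht
    refine hM2.trans ?_
    obtain ⟨i, rfl⟩ := hmem p hp
    have h2 := mul_le_mul_of_nonneg_left (hp2 i) hδ.le
    exact mul_le_mul_of_nonneg_left h2 (by positivity)
  -- drops
  have hdrop : ∀ i (hi : i < n), l.drop i = ((-1) ^ i * r, tau δ (i + 1)) :: l.drop (i + 1) := by
    intro i hi
    rw [List.drop_eq_getElem_cons (by rw [hlen]; exact hi)]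
    congr 1
    simp only [hl, lst, List.getElem_map, List.getElem_range]
    rfl
  have hdropn : l.drop n = [] := by
    rw [List.drop_eq_nil_iff, hlen]
  have hdnn : ∀ i, ∀ p ∈ l.drop i, 0 ≤ p.2 := fun i p hp => hnn2 p (List.mem_of_mem_drop hp)
  have hDle : ∀ i, ((l.drop i).map Prod.snd).sum ≤ D := fun i => by
    rw [← hD]; exact drop_sum_le l hnn2 i
  have htauD : ∀ i, i ≤ n → tau δ i + ((l.drop i).map Prod.snd).sum ≤ D := by
    intro i hi
    rcases i with _ | i
    · have h1 := hDle 0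
      simp only [tau]
      linarith
    · have h1 := hDle i
      rw [hdrop i (by omega), List.map_cons, List.sum_cons] at h1
      exact h1
  -- signals
  let F : ℕ → ℝ → ℝ := fun i => if i = 0 then f else
    if i ≤ n then (fun t => (sig rN (l.drop i) h).1 (t + tau δ i)) else h
  let G : ℕ → ℝ → ℝ := fun i =>
    if i ≤ n then (fun t => (sig rN (l.drop i) h).2 (t + (-tau δ i))) else (fun _ => 0)
  have hF0 : F 0 = f := by simp only [F, if_true]
  have hFi : ∀ i, i ≠ 0 → i ≤ n → F i = fun t => (sig rN (l.drop i) h).1 (t + tau δ i) := by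
    intro i h1 h2
    simp only [F, if_neg h1, if_pos h2]
  have hFN : F (n + 1) = h := by
    have h1 : ¬ (n + 1 ≤ n) := by omega
    simp only [F, if_neg (Nat.succ_ne_zero n), if_neg h1]
  have hGi : ∀ i, i ≤ n → G i = fun t => (sig rN (l.drop i) h).2 (t + (-tau δ i)) := by
    intro i h2
    simp only [G, if_pos h2]
  have hGN : G (n + 1) = fun _ => 0 := by
    have h1 : ¬ (n + 1 ≤ n) := by omega
    simp only [G, if_neg h1]
  have hFG : ∀ i ≤ n, ∀ t < T, F i (t - tau δ i) = (sig rN (l.drop i) h).1 t ∧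
      G i (t + tau δ i) = (sig rN (l.drop i) h).2 t := by
    intro i hi t ht
    refine ⟨?_, ?_⟩
    · rcases Nat.eq_zero_or_pos i with h0 | h0
      · subst h0
        rw [hF0, List.drop_zero, hleft t ht]
        simp only [tau, sub_zero]
      · rw [hFi i h0.ne' hi]
        simp only [sub_add_cancel]
    · rw [hGi i hi]
      simp only [add_neg_cancel_right]
  refine ⟨n + 1, δ, η, Θ + T / 8 + D, Θ + 2 * (T / 8) + D, F, G, by omega, by omega, hδ, hη0,
    by linarith, by linarith, ?_, ?_, ?_⟩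
  · have h1 : Θ + D = (2 * m + 1) * D := by rw [hΘ, hD]; ring
    linarith
  · rw [hcast, ← hr]
    refine ⟨?_, ?_, ?_, ?_, ?_, ?_⟩
    · intro i hi
      rcases Nat.lt_or_ge n i with h1 | h1
      · have h2 : i = n + 1 := by omega
        rw [h2, hFN, hGN]
        exact ⟨hhcd, contDiff_const⟩
      · refine ⟨?_, ?_⟩
        · rcases Nat.eq_zero_or_pos i with h0 | h0
          · rw [h0, hF0]; exact hfcd
          · rw [hFi i h0.ne' h1]
            exact (sig_reg (rN := rN) (hdnn i) hhcd hhcs hh0 _).1.1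
        · rw [hGi i h1]
          exact (sig_reg (rN := rN) (hdnn i) hhcd hhcs hh0 _).2.1
    · intro i hi
      rcases Nat.lt_or_ge n i with h1 | h1
      · have h2 : i = n + 1 := by omega
        rw [h2, hFN, hGN]
        exact ⟨hhcs, HasCompactSupport.zero⟩
      · refine ⟨?_, ?_⟩
        · rcases Nat.eq_zero_or_pos i with h0 | h0
          · rw [h0, hF0]; exact hfcs
          · rw [hFi i h0.ne' h1]
            exact (sig_reg (rN := rN) (hdnn i) hhcd hhcs hh0 _).1.2.1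
        · rw [hGi i h1]
          exact (sig_reg (rN := rN) (hdnn i) hhcd hhcs hh0 _).2.2.1
    · intro i hi t ht
      rcases Nat.lt_or_ge n i with h1 | h1
      · have h2 : i = n + 1 := by omega
        rw [h2, hFN, hGN]
        exact ⟨hh0 t (by linarith), rfl⟩
      · refine ⟨?_, ?_⟩
        · rcases Nat.eq_zero_or_pos i with h0 | h0
          · rw [h0, hF0]; exact hf0 t ht
          · rw [hFi i h0.ne' h1]
            refine (sig_reg (rN := rN) (hdnn i) hhcd hhcs hh0 _).1.2.2 t ?_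
            have := htauD i h1
            linarith
        · rw [hGi i h1]
          refine (sig_reg (rN := rN) (hdnn i) hhcd hhcs hh0 _).2.2.2 (t + tau δ i) ?_
          have := hDle i
          linarith
    · intro t
      rw [hGN]
    · intro i hi t ht
      have htT : t < T := by
        have h1 : Θ + D = (2 * m + 1) * D := by rw [hΘ, hD]; ring
        linarith
      have hin : i ≤ n := by omega
      obtain ⟨e1, e2⟩ := hFG i hin t htT
      rw [e1, e2]
      rcases Nat.lt_or_ge i n with h1 | h1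
      · rw [hdrop i h1, hFi (i + 1) (by omega) (by omega), hGi (i + 1) (by omega)]
        simp only [sig]
        rw [hsq, sub_eq_add_neg t]
        exact ⟨rfl, rfl⟩
      · have h2 : i = n := by omega
        subst h2
        rw [hdropn, hFN, hGN]
        simp only [sig]
        rw [hrN, hsq]
        refine ⟨?_, ?_⟩
        · rw [mul_zero, add_zero]
        · rw [add_zero]
    · intro t
      rw [hF0]; exact hf1 t
  · rw [hFN]; exact hval

end Helper51.TH
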