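import Pool.Agent.Helper51.TH.Good

/-!
TH-P23. The average of one step; bounds for one step.

PROOF. `step_avg`: with `W₋ = fan γ (U (i-1)) (U i)`, `W₊ = fan γ (U i) (U (i+1))`:
`∫_0^1 cq k (stp .. θ' i) dθ' = ∫_0^{1/2} cq k (W₋ (θ'/ν)) + ∫_{1/2}^1 cq k (W₊ ((θ'-1)/ν)) = ν ∫_0^{1/(2ν)} cq k (W₋ ξ) dξ
 + ν ∫_{-1/(2ν)}^0 cq k (W₊ ξ) dξ`. `1/(2ν) ≥ Λc`, so `W₋ (1/(2ν)) = U i`, `W₊ (-1/(2ν)) = U i` (`Adm.out`). `fan_identity`:
the first is `≥ ν [cf k (W₋ 0) - cf k (U i) + (1/(2ν)) cq k (U i)]`, the second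
`≥ ν [cf k (U i) + (1/(2ν)) cq k (U i) - cf k (W₊ 0)]`, with equality for `k ≠ 3`. Add.
`step_bd`: `cq γ k`, `cf γ k` as functions of `(z, u, l)` are `C¹` on a neighbourhood of the compact convex box (wide box,
`|u| ≤ U₀ + 2`), so bounded and Lipschitz there with a constant `C₁` (segment between two states of the box, or the formulas
`cq_eq`: products of bounded Lipschitz functions). By `fan_bounds` and `Adm.pair`, for a state `w` of the fan of `L = U i`,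
`R = U (i+1)`: `|w.z - L.z| ≤ |a| + |b|`, `|w.u - L.u| ≤ C (|a| + |b|)`, `|w.l - L.l| ≤ |L.l - R.l| + C (|a| + |b|)`, and the same with
`R`. For `θ' < 1/2` `stp .. i` is in the fan of `(U (i-1), U i)`, otherwise in the fan of `(U i, U (i+1))`.
Sum of `vr`: the window `win U M` has `∑ (|a| + |b|) = Am ≤ C δ`, `∑ |Δl| = tvl St.l ≤ 2 V₁ + C δ` (`Adm.list`).
-/

open Set Filter Topology MeasureTheory

namespace Helper51.TH

/-- The strength of the waves between `U i` and `U (i+1)`. -/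
noncomputable def vr (γ : ℝ) (U : ℤ → St) (i : ℤ) : ℝ :=
  |ra γ (U i) (U (i + 1))| + |rb γ (U i) (U (i + 1))| + |(U (i + 1)).l - (U i).l|

private theorem si_wide {γ ζ₁ ζ₂ Λ₀ U₀ θ μ V₁ K δ : ℝ} {w₀ : St} {U : ℤ → St} (hζ : 0 < ζ₁)
    (h : Good γ ζ₁ ζ₂ Λ₀ U₀ θ μ V₁ K δ w₀ U) (i : ℤ) :
    InB (ζ₁ / 4) (4 * ζ₂) (Λ₀ + 6) (U i) ∧ ζ₁ / 4 ≤ ζ₂ ∧ 0 < (U i).z := by
  obtain ⟨⟨h1, h2, h3⟩, -⟩ := h.box i
  refine ⟨⟨by linarith, by linarith, by linarith⟩, by linarith, by linarith⟩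

/-- the average over half a cell -/
private theorem si_half {γ ν a b : ℝ} (hγ : 1 < γ) {L R : St} (hL : 0 < L.z) (hR : 0 < R.z)
    (hm : 0 < L.z - ra γ L R) (hν : 0 < ν) (k : Fin 4) (hab : a ≤ b) :
    IntervalIntegrable (fun y => cq γ k (fan γ L R (y / ν))) volume a b ∧
    ν * ((cf γ k (fan γ L R (a / ν)) - a / ν * cq γ k (fan γ L R (a / ν))) -
      (cf γ k (fan γ L R (b / ν)) - b / ν * cq γ k (fan γ L R (b / ν)))) ≤
        ∫ y in a..b, cq γ k (fan γ L R (y / ν)) ∧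
    (k ≠ 3 → ∫ y in a..b, cq γ k (fan γ L R (y / ν)) =
      ν * ((cf γ k (fan γ L R (a / ν)) - a / ν * cq γ k (fan γ L R (a / ν))) -
      (cf γ k (fan γ L R (b / ν)) - b / ν * cq γ k (fan γ L R (b / ν))))) := by
  have hab' : a / ν ≤ b / ν := div_le_div_of_nonneg_right hab hν.le
  obtain ⟨h1, h2, h3⟩ := fan_identity hγ hL hR hm k hab'
  have h4 : ∫ y in a..b, cq γ k (fan γ L R (y / ν)) =
      ν * ∫ ξ in a / ν..b / ν, cq γ k (fan γ L R ξ) := by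
    have h5 := intervalIntegral.integral_comp_div (a := a) (b := b)
      (fun ξ => cq γ k (fan γ L R ξ)) hν.ne'
    rw [smul_eq_mul] at h5
    exact h5
  refine ⟨?_, ?_, fun hk => ?_⟩
  · have h5 := h1.comp_mul_right (c := ν⁻¹)
    have h6 : a / ν / ν⁻¹ = a := by field_simp
    have h7 : b / ν / ν⁻¹ = b := by field_simp
    rw [h6, h7] at h5
    exact h5
  · rw [h4]
    exact mul_le_mul_of_nonneg_left h2 hν.le
  · rw [h4, h3 hk]

theorem step_avg {γ ζ₁ ζ₂ Λ₀ U₀ θ μ V₁ K δ Λc C ν : ℝ} {w₀ : St} {U : ℤ → St}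
    (hA : Adm γ ζ₁ ζ₂ Λ₀ U₀ θ μ V₁ K δ Λc C) (h : Good γ ζ₁ ζ₂ Λ₀ U₀ θ μ V₁ K δ w₀ U)
    (hν : 0 < ν) (hν' : 2 * ν * Λc ≤ 1) (k : Fin 4) (i : ℤ) :
    IntervalIntegrable (fun θ' => cq γ k (stp γ ν U θ' i)) volume 0 1 ∧
    cq γ k (U i) - ν * (cf γ k (fan γ (U i) (U (i + 1)) 0) -
      cf γ k (fan γ (U (i - 1)) (U i) 0)) ≤ ∫ θ' in (0 : ℝ)..1, cq γ k (stp γ ν U θ' i) ∧
    (k ≠ 3 → ∫ θ' in (0 : ℝ)..1, cq γ k (stp γ ν U θ' i) =
      cq γ k (U i) - ν * (cf γ k (fan γ (U i) (U (i + 1)) 0) -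
        cf γ k (fan γ (U (i - 1)) (U i) 0))) := by
  have hγ := hA.hγ
  obtain ⟨bL, -, pL⟩ := si_wide hA.hζ h (i - 1)
  obtain ⟨bM, -, pM⟩ := si_wide hA.hζ h i
  obtain ⟨bR, -, pR⟩ := si_wide hA.hζ h (i + 1)
  have uL := (h.box (i - 1)).2
  have uM := (h.box i).2
  have uR := (h.box (i + 1)).2
  obtain ⟨g1, g2, -, -, g3⟩ := good_pair hA h (i - 1)
  rw [sub_add_cancel] at g1 g2 g3
  obtain ⟨f1, f2, -, -, f3⟩ := good_pair hA h i
  obtain ⟨L, hL⟩ : ∃ L, L = U (i - 1) := ⟨_, rfl⟩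
  obtain ⟨M, hM⟩ : ∃ M, M = U i := ⟨_, rfl⟩
  obtain ⟨R, hR⟩ : ∃ R, R = U (i + 1) := ⟨_, rfl⟩
  have hstp : ∀ θ', stp γ ν U θ' i = if θ' < 1 / 2 then fan γ L M (θ' / ν)
      else fan γ M R ((θ' - 1) / ν) := fun θ' => by rw [hL, hM, hR]; rfl
  rw [← hL] at bL pL uL g1 g2 g3
  rw [← hM] at bM pM uM g1 g2 g3 f1 f2 f3
  rw [← hR] at bR pR uR f1 f2 f3
  rw [← hL, ← hM, ← hR]
  have hΛ : Λc ≤ 1 / 2 / ν := by
    rw [le_div_iff₀ hν]
    linarith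
  have o1 : fan γ L M (1 / 2 / ν) = M := (hA.out L M bL bM uL uM g1 g2 _).2 hΛ
  have o2 : fan γ M R ((1 / 2 - 1) / ν) = M := by
    refine (hA.out M R bM bR uM uR f1 f2 _).1 ?_
    have : (1 / 2 - 1) / ν = -(1 / 2 / ν) := by ring
    rw [this]
    linarith
  obtain ⟨l1, l2, l3⟩ := si_half hγ pL pM g3 hν k (show (0 : ℝ) ≤ 1 / 2 by norm_num)
  obtain ⟨r1, r2, r3⟩ := si_half hγ pM pR f3 hν k (show (1 / 2 - 1 : ℝ) ≤ 1 - 1 by norm_num)
  have r1' := r1.comp_sub_right 1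
  rw [sub_add_cancel, sub_add_cancel] at r1'
  have r4 : ∫ θ' in (1 / 2 : ℝ)..1, cq γ k (fan γ M R ((θ' - 1) / ν)) =
      ∫ y in (1 / 2 - 1 : ℝ)..1 - 1, cq γ k (fan γ M R (y / ν)) :=
    intervalIntegral.integral_comp_sub_right (fun y => cq γ k (fan γ M R (y / ν))) 1
  have e1 : EqOn (fun y => cq γ k (fan γ L M (y / ν))) (fun θ' => cq γ k (stp γ ν U θ' i))
      (uIoo 0 (1 / 2)) := by
    intro y hy
    rw [uIoo_of_le (by norm_num)] at hy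
    show cq γ k (fan γ L M (y / ν)) = cq γ k (stp γ ν U y i)
    rw [hstp, if_pos hy.2]
  have e2 : EqOn (fun y => cq γ k (fan γ M R ((y - 1) / ν))) (fun θ' => cq γ k (stp γ ν U θ' i))
      (uIoo (1 / 2) 1) := by
    intro y hy
    rw [uIoo_of_le (by norm_num)] at hy
    show cq γ k (fan γ M R ((y - 1) / ν)) = cq γ k (stp γ ν U y i)
    rw [hstp, if_neg (not_lt.2 hy.1.le)]
  have i1 := l1.congr_uIoo e1
  have i2 := r1'.congr_uIoo e2
  have hsum : ∫ θ' in (0 : ℝ)..1, cq γ k (stp γ ν U θ' i) =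
      (∫ y in (0 : ℝ)..(1 / 2), cq γ k (fan γ L M (y / ν))) +
        ∫ y in (1 / 2 - 1 : ℝ)..1 - 1, cq γ k (fan γ M R (y / ν)) := by
    rw [← intervalIntegral.integral_add_adjacent_intervals i1 i2,
      ← intervalIntegral.integral_congr_uIoo e1, ← intervalIntegral.integral_congr_uIoo e2, r4]
  have z1 : (0 : ℝ) / ν = 0 := zero_div ν
  have z2 : (1 - 1 : ℝ) / ν = 0 := by rw [sub_self, zero_div]
  rw [o1, z1] at l2 l3
  rw [o2, z2] at r2 r3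
  have key : ν * ((cf γ k (fan γ L M 0) - 0 * cq γ k (fan γ L M 0)) -
      (cf γ k M - 1 / 2 / ν * cq γ k M)) +
      ν * ((cf γ k M - (1 / 2 - 1) / ν * cq γ k M) -
        (cf γ k (fan γ M R 0) - 0 * cq γ k (fan γ M R 0))) =
      cq γ k M - ν * (cf γ k (fan γ M R 0) - cf γ k (fan γ L M 0)) := by
    field_simp
    ring
  refine ⟨i1.trans i2, ?_, fun hk => ?_⟩
  · rw [hsum, ← key]
    exact add_le_add l2 r2
  · rw [hsum, ← key, l3 hk, r3 hk]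

/-- the quantities and fluxes are smooth functions of the state -/
private theorem si_smooth {γ : ℝ} (hγ : 1 < γ) {s : Set (ℝ × ℝ × ℝ)} (hs : ∀ x ∈ s, 0 < x.1)
    (k : Fin 4) : ContDiffOn ℝ 1 (fun x : ℝ × ℝ × ℝ => cq γ k ⟨x.1, x.2.1, x.2.2⟩) s ∧
      ContDiffOn ℝ 1 (fun x : ℝ × ℝ × ℝ => cf γ k ⟨x.1, x.2.1, x.2.2⟩) s := by
  have hz : ContDiffOn ℝ 1 (fun x : ℝ × ℝ × ℝ => x.1) s := contDiff_fst.contDiffOn
  have hu : ContDiffOn ℝ 1 (fun x : ℝ × ℝ × ℝ => x.2.1) s :=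
    (contDiff_fst.comp contDiff_snd).contDiffOn
  have hl : ContDiffOn ℝ 1 (fun x : ℝ × ℝ × ℝ => x.2.2) s :=
    (contDiff_snd.comp contDiff_snd).contDiffOn
  have hr : ContDiffOn ℝ 1 (fun x : ℝ × ℝ × ℝ => rho γ ⟨x.1, x.2.1, x.2.2⟩) s := by
    show ContDiffOn ℝ 1 (fun x : ℝ × ℝ × ℝ => γ * x.1 ^ (2 / (γ - 1)) *
      Real.exp (-(2 * x.2.2))) s
    exact (contDiffOn_const.mul (hz.rpow_const_of_ne fun x hx => (hs x hx).ne')).mul
      (contDiffOn_const.mul hl).neg.exp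
  have hp : ContDiffOn ℝ 1 (fun x : ℝ × ℝ × ℝ => prs γ ⟨x.1, x.2.1, x.2.2⟩) s := by
    show ContDiffOn ℝ 1 (fun x : ℝ × ℝ × ℝ => x.1 ^ (2 * γ / (γ - 1))) s
    exact hz.rpow_const_of_ne fun x hx => (hs x hx).ne'
  have he : ContDiffOn ℝ 1 (fun x : ℝ × ℝ × ℝ => 2 * γ * x.2.2 - γ * Real.log γ) s :=
    (contDiffOn_const.mul hl).sub contDiffOn_const
  have key : ∀ x ∈ s, _ := fun x hx => cq_eq hγ (w := ⟨x.1, x.2.1, x.2.2⟩) (hs x hx)
  have hru := hr.mul hu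
  have hruu := hr.mul (hu.pow 2)
  fin_cases k
  · exact ⟨hr.congr fun x hx => (key x hx).1, hru.congr fun x hx => (key x hx).2.2.2.2.1⟩
  · exact ⟨hru.congr fun x hx => (key x hx).2.1,
      (hruu.add hp).congr fun x hx => (key x hx).2.2.2.2.2.1⟩
  · exact ⟨((hruu.div_const 2).add (hp.div_const (γ - 1))).congr fun x hx => (key x hx).2.2.1,
      (((hruu.div_const 2).add (contDiffOn_const.mul hp)).mul hu).congr
        fun x hx => (key x hx).2.2.2.2.2.2.1⟩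
  · exact ⟨(hr.mul he).congr fun x hx => (key x hx).2.2.2.1,
      (hru.mul he).congr fun x hx => (key x hx).2.2.2.2.2.2.2⟩

private theorem si_one {f : ℝ × ℝ × ℝ → ℝ} {s : Set (ℝ × ℝ × ℝ)} (hf : ContDiffOn ℝ 1 f s)
    (hc : Convex ℝ s) (hs : IsCompact s) : ∃ C : ℝ, 0 ≤ C ∧ (∀ x ∈ s, ∀ y ∈ s,
      |f x - f y| ≤ C * (|x.1 - y.1| + |x.2.1 - y.2.1| + |x.2.2 - y.2.2|)) ∧
      ∀ x ∈ s, |f x| ≤ C := by
  obtain ⟨K, hK⟩ := hf.exists_lipschitzOnWith one_ne_zero hc hs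
  obtain ⟨B, hB⟩ := hs.exists_bound_of_continuousOn hf.continuousOn
  have hK0 : (0 : ℝ) ≤ K := K.2
  refine ⟨K + |B|, by positivity, fun x hx y hy => ?_, fun x hx => ?_⟩
  · have h1 := hK.dist_le_mul x hx y hy
    rw [Real.dist_eq] at h1
    have h2 : dist x y ≤ |x.1 - y.1| + |x.2.1 - y.2.1| + |x.2.2 - y.2.2| := by
      rw [Prod.dist_eq, Prod.dist_eq, Real.dist_eq, Real.dist_eq, Real.dist_eq]
      have a1 := abs_nonneg (x.1 - y.1)
      have a2 := abs_nonneg (x.2.1 - y.2.1)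
      have a3 := abs_nonneg (x.2.2 - y.2.2)
      refine max_le (by linarith) (max_le (by linarith) (by linarith))
    have h3 : 0 ≤ |x.1 - y.1| + |x.2.1 - y.2.1| + |x.2.2 - y.2.2| := by positivity
    calc |f x - f y| ≤ K * dist x y := h1
      _ ≤ K * (|x.1 - y.1| + |x.2.1 - y.2.1| + |x.2.2 - y.2.2|) :=
        mul_le_mul_of_nonneg_left h2 hK0
      _ ≤ _ := mul_le_mul_of_nonneg_right (by linarith [abs_nonneg B]) h3
  · have h1 := hB x hx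
    rw [Real.norm_eq_abs] at h1
    have h2 := le_abs_self B
    linarith

/-- a box of states -/
private def SBx (ζ₁ ζ₂ a b : ℝ) (w : St) : Prop :=
  ζ₁ / 4 ≤ w.z ∧ w.z ≤ 4 * ζ₂ ∧ |w.u| ≤ a ∧ |w.l| ≤ b

private theorem si_lip {γ ζ₁ ζ₂ : ℝ} (hγ : 1 < γ) (hζ : 0 < ζ₁) (a b : ℝ) :
    ∃ C : ℝ, 0 ≤ C ∧ ∀ k : Fin 4,
      (∀ v w : St, SBx ζ₁ ζ₂ a b v → SBx ζ₁ ζ₂ a b w →
        |cq γ k v - cq γ k w| ≤ C * (|v.z - w.z| + |v.u - w.u| + |v.l - w.l|) ∧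
        |cf γ k v - cf γ k w| ≤ C * (|v.z - w.z| + |v.u - w.u| + |v.l - w.l|)) ∧
      ∀ w : St, SBx ζ₁ ζ₂ a b w → |cq γ k w| ≤ C ∧ |cf γ k w| ≤ C := by
  obtain ⟨s, hs⟩ : ∃ s : Set (ℝ × ℝ × ℝ), s = Icc (ζ₁ / 4) (4 * ζ₂) ×ˢ Icc (-a) a ×ˢ Icc (-b) b :=
    ⟨_, rfl⟩
  have hc : Convex ℝ s := by
    rw [hs]
    exact (convex_Icc _ _).prod ((convex_Icc _ _).prod (convex_Icc _ _))
  have hK : IsCompact s := by
    rw [hs]
    exact isCompact_Icc.prod (isCompact_Icc.prod isCompact_Icc)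
  have hpos : ∀ x ∈ s, 0 < x.1 := by
    intro x hx
    rw [hs] at hx
    have := hx.1.1
    linarith
  have hmem : ∀ w : St, SBx ζ₁ ζ₂ a b w → (w.z, w.u, w.l) ∈ s := by
    rintro w ⟨h1, h2, h3, h4⟩
    rw [hs]
    exact ⟨⟨h1, h2⟩, abs_le.1 h3, abs_le.1 h4⟩
  choose C1 hC1 hL1 hB1 using fun k => si_one (si_smooth hγ hpos k).1 hc hK
  choose C2 hC2 hL2 hB2 using fun k => si_one (si_smooth hγ hpos k).2 hc hK
  have hle : ∀ k, C1 k ≤ ∑ j, (C1 j + C2 j) ∧ C2 k ≤ ∑ j, (C1 j + C2 j) := by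
    intro k
    have h1 := Finset.single_le_sum (f := fun j => C1 j + C2 j)
      (fun j _ => add_nonneg (hC1 j) (hC2 j)) (Finset.mem_univ k)
    have h2 := hC1 k
    have h3 := hC2 k
    have h4 : C1 k + C2 k ≤ ∑ j, (C1 j + C2 j) := h1
    exact ⟨by linarith, by linarith⟩
  refine ⟨∑ j, (C1 j + C2 j), Finset.sum_nonneg fun j _ => add_nonneg (hC1 j) (hC2 j),
    fun k => ⟨fun v w hv hw => ⟨?_, ?_⟩, fun w hw => ⟨?_, ?_⟩⟩⟩
  · exact (hL1 k _ (hmem v hv) _ (hmem w hw)).trans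
      (mul_le_mul_of_nonneg_right (hle k).1 (by positivity))
  · exact (hL2 k _ (hmem v hv) _ (hmem w hw)).trans
      (mul_le_mul_of_nonneg_right (hle k).2 (by positivity))
  · exact (hB1 k _ (hmem w hw)).trans (hle k).1
  · exact (hB2 k _ (hmem w hw)).trans (hle k).2

private theorem vr_nonneg (γ : ℝ) (U : ℤ → St) (i : ℤ) : 0 ≤ vr γ U i := by
  unfold vr
  positivity

/-- bounds for the states of the fan -/
private theorem si_fan {γ ζ₁ ζ₂ Λ₀ U₀ θ μ V₁ K δ Λc C : ℝ} {w₀ : St} {U : ℤ → St}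
    (hA : Adm γ ζ₁ ζ₂ Λ₀ U₀ θ μ V₁ K δ Λc C) (h : Good γ ζ₁ ζ₂ Λ₀ U₀ θ μ V₁ K δ w₀ U) (i : ℤ)
    (ξ : ℝ) :
    SBx ζ₁ ζ₂ (U₀ + 1 + C) (Λ₀ + 5 + C) (fan γ (U i) (U (i + 1)) ξ) ∧
    (|(fan γ (U i) (U (i + 1)) ξ).z - (U i).z| ≤ vr γ U i ∧
      |(fan γ (U i) (U (i + 1)) ξ).u - (U i).u| ≤ C * vr γ U i ∧
      |(fan γ (U i) (U (i + 1)) ξ).l - (U i).l| ≤ (1 + C) * vr γ U i) ∧
    (|(fan γ (U i) (U (i + 1)) ξ).z - (U (i + 1)).z| ≤ vr γ U i ∧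
      |(fan γ (U i) (U (i + 1)) ξ).u - (U (i + 1)).u| ≤ C * vr γ U i ∧
      |(fan γ (U i) (U (i + 1)) ξ).l - (U (i + 1)).l| ≤ (1 + C) * vr γ U i) := by
  have hγ := hA.hγ
  have hC := hA.hC
  obtain ⟨bM, hζ, pM⟩ := si_wide hA.hζ h i
  obtain ⟨bR, -, pR⟩ := si_wide hA.hζ h (i + 1)
  obtain ⟨⟨m1, m2, m3⟩, uM⟩ := h.box i
  obtain ⟨⟨n1, n2, n3⟩, uR⟩ := h.box (i + 1)
  obtain ⟨f1, f2, f3, f4, f5⟩ := good_pair hA h i
  obtain ⟨j1, j2, j3, j4, j5⟩ := fan_bounds hγ pM pR f5 ξ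
  obtain ⟨a1, a2, a3⟩ := hA.pair (ra γ (U i) (U (i + 1))) (U i).z (U i).l bM.1 bM.2.1 bM.2.2 f1
  obtain ⟨b1, b2, b3⟩ := hA.pair (rb γ (U i) (U (i + 1))) (U (i + 1)).z (U (i + 1)).l bR.1 bR.2.1
    bR.2.2 f2
  have hvr : vr γ U i = |ra γ (U i) (U (i + 1))| + |rb γ (U i) (U (i + 1))| +
      |(U (i + 1)).l - (U i).l| := rfl
  have hCv : C * vr γ U i = C * |ra γ (U i) (U (i + 1))| + C * |rb γ (U i) (U (i + 1))| +
      C * |(U (i + 1)).l - (U i).l| := by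
    rw [hvr]
    ring
  have hCv' : (1 + C) * vr γ U i = vr γ U i + C * vr γ U i := by ring
  rw [hCv']
  generalize hw : fan γ (U i) (U (i + 1)) ξ = w at j1 j2 j3 j4 j5 ⊢
  generalize hra : |ra γ (U i) (U (i + 1))| = x at *
  generalize hrb : |rb γ (U i) (U (i + 1))| = y at *
  have hx0 : 0 ≤ x := by rw [← hra]; exact abs_nonneg _
  have hy0 : 0 ≤ y := by rw [← hrb]; exact abs_nonneg _
  have hd0 := abs_nonneg ((U (i + 1)).l - (U i).l)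
  have hCx : 0 ≤ C * x := by positivity
  have hCy : 0 ≤ C * y := by positivity
  have hCd : 0 ≤ C * |(U (i + 1)).l - (U i).l| := by positivity
  have hCx8 : C * x ≤ C * (1 / 8) := mul_le_mul_of_nonneg_left f3 hC.le
  have hCy8 : C * y ≤ C * (1 / 8) := mul_le_mul_of_nonneg_left f4 hC.le
  have hd := abs_sub_comm (U (i + 1)).l (U i).l
  -- the values of `l`
  have hl1 : |w.l - (U i).l| ≤ |(U (i + 1)).l - (U i).l| + (C * x + C * y) := by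
    rcases j5 with e | e | e | e
    · rw [e, sub_self, abs_zero]
      linarith
    · rw [e, add_sub_cancel_left, abs_of_nonneg a2]
      linarith
    · rw [e]
      linarith
    · rw [e]
      have e1 : (U (i + 1)).l + sj γ (rb γ (U i) (U (i + 1))) (U (i + 1)).z - (U i).l =
          ((U (i + 1)).l - (U i).l) + sj γ (rb γ (U i) (U (i + 1))) (U (i + 1)).z := by ring
      rw [e1]
      refine (abs_add_le _ _).trans ?_
      rw [abs_of_nonneg b2]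
      linarith
  have hl2 : |w.l - (U (i + 1)).l| ≤ |(U (i + 1)).l - (U i).l| + (C * x + C * y) := by
    rcases j5 with e | e | e | e
    · rw [e]
      linarith
    · rw [e]
      have e1 : (U i).l + sj γ (ra γ (U i) (U (i + 1))) (U i).z - (U (i + 1)).l =
          ((U i).l - (U (i + 1)).l) + sj γ (ra γ (U i) (U (i + 1))) (U i).z := by ring
      rw [e1]
      refine (abs_add_le _ _).trans ?_
      rw [abs_of_nonneg a2]
      linarith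
    · rw [e, sub_self, abs_zero]
      linarith
    · rw [e, add_sub_cancel_left, abs_of_nonneg b2]
      linarith
  have hl3 : |w.l| ≤ Λ₀ + 5 + C := by
    rw [abs_le] at m3 n3 ⊢
    rcases j5 with e | e | e | e
    · rw [e]
      constructor <;> linarith
    · rw [e]
      constructor <;> linarith
    · rw [e]
      constructor <;> linarith
    · rw [e]
      constructor <;> linarith
  refine ⟨⟨?_, ?_, ?_, hl3⟩, ⟨?_, ?_, ?_⟩, ⟨?_, ?_, ?_⟩⟩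
  · have := (abs_le.1 j1).1
    linarith
  · have := (abs_le.1 j1).2
    linarith
  · have e1 : w.u = (U i).u + (w.u - (U i).u) := by ring
    rw [e1]
    refine (abs_add_le _ _).trans ?_
    linarith
  · rw [hvr]
    linarith
  · rw [hCv]
    linarith
  · rw [hCv, hvr]
    linarith
  · rw [hvr]
    linarith
  · rw [hCv]
    linarith
  · rw [hCv, hvr]
    linarith

/-- sums over windows -/
private theorem si_list (S : List St → ℝ) (F : St → St → ℝ) (h1 : ∀ w, S [w] = 0)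
    (h2 : ∀ L R t, S (L :: R :: t) = F L R + S (R :: t)) (n : ℕ) : ∀ g : ℕ → St,
    S ((List.range (n + 1)).map g) = ∑ j ∈ Finset.range n, F (g j) (g (j + 1)) := by
  induction n with
  | zero =>
    intro g
    simp [h1]
  | succ n ih =>
    intro g
    have e1 := ih (fun j => g (j + 1))
    have e2 : (List.range (n + 1)).map (fun j => g (j + 1)) =
        g 1 :: (List.range n).map (fun j => g (j + 2)) := by
      rw [List.range_succ_eq_map, List.map_cons, List.map_map]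
      rfl
    have e3 : (List.range (n + 1 + 1)).map g =
        g 0 :: g 1 :: (List.range n).map (fun j => g (j + 2)) := by
      rw [List.range_succ_eq_map, List.map_cons, List.map_map, ← e2]
      rfl
    rw [e3, h2, ← e2, e1, Finset.sum_range_succ' _ n, add_comm]

private theorem si_reindex (f : ℤ → ℝ) (M : ℕ) :
    ∑ j ∈ Finset.range (2 * M), f ((j : ℤ) - M) = ∑ i ∈ Finset.Ico (-(M : ℤ)) M, f i := by
  refine Finset.sum_nbij' (fun j : ℕ => (j : ℤ) - M) (fun i : ℤ => (i + M).toNat) ?_ ?_ ?_ ?_ ?_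
  · intro j hj
    rw [Finset.mem_range] at hj
    rw [Finset.mem_Ico]
    omega
  · intro i hi
    rw [Finset.mem_Ico] at hi
    rw [Finset.mem_range]
    omega
  · intro j hj
    omega
  · intro i hi
    rw [Finset.mem_Ico] at hi
    omega
  · intro j _
    rfl

private theorem si_win (S : List St → ℝ) (F : St → St → ℝ) (h1 : ∀ w, S [w] = 0)
    (h2 : ∀ L R t, S (L :: R :: t) = F L R + S (R :: t)) (U : ℤ → St) (M : ℕ) :
    S (win U M) = ∑ i ∈ Finset.Ico (-(M : ℤ)) M, F (U i) (U (i + 1)) := by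
  rw [← si_reindex (fun i => F (U i) (U (i + 1))) M]
  unfold win
  rw [si_list S F h1 h2 (2 * M)]
  refine Finset.sum_congr rfl fun j _ => ?_
  have e : ((j + 1 : ℕ) : ℤ) - M = (j : ℤ) - M + 1 := by push_cast; ring
  rw [e]


theorem step_bd {γ ζ₁ ζ₂ Λ₀ U₀ θ μ V₁ K δ Λc C : ℝ}
    (hA : Adm γ ζ₁ ζ₂ Λ₀ U₀ θ μ V₁ K δ Λc C) : ∃ C' : ℝ, 0 < C' ∧
    ∀ (w₀ : St) (U : ℤ → St), Good γ ζ₁ ζ₂ Λ₀ U₀ θ μ V₁ K δ w₀ U →
      (∀ (ν θ' : ℝ) (i : ℤ) (k : Fin 4),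
        |cq γ k (stp γ ν U θ' i) - cq γ k (U i)| ≤ C' * (vr γ U (i - 1) + vr γ U i)) ∧
      (∀ (ν θ' : ℝ) (i : ℤ), |(stp γ ν U θ' i).z - (U i).z| ≤ C' * (vr γ U (i - 1) + vr γ U i) ∧
        |(stp γ ν U θ' i).u - (U i).u| ≤ C' * (vr γ U (i - 1) + vr γ U i) ∧
        |(stp γ ν U θ' i).l - (U i).l| ≤ C' * (vr γ U (i - 1) + vr γ U i)) ∧
      (∀ (i : ℤ) (k : Fin 4),
        |cf γ k (fan γ (U i) (U (i + 1)) 0) - cf γ k (U i)| ≤ C' * vr γ U i) ∧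
      (∀ (i : ℤ) (k : Fin 4), |cq γ k (U i)| ≤ C' ∧ |cf γ k (U i)| ≤ C' ∧
        |cf γ k (fan γ (U i) (U (i + 1)) 0)| ≤ C') ∧
      (∀ M : ℕ, ∑ i ∈ Finset.Ico (-(M : ℤ)) M, vr γ U i ≤ C') := by
  have hC := hA.hC
  obtain ⟨C₁, hC₁, hlip⟩ := si_lip (ζ₂ := ζ₂) hA.hγ hA.hζ (U₀ + 1 + C) (Λ₀ + 5 + C)
  obtain ⟨C', hC'⟩ : ∃ C' : ℝ, C' = C₁ * (2 + 2 * C) + (1 + C) + C₁ + (2 * |V₁| + 1) := ⟨_, rfl⟩
  have hV0 := abs_nonneg V₁
  have hCC : 0 ≤ C₁ * (2 + 2 * C) := by positivity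
  have c1 : C₁ * (2 + 2 * C) ≤ C' := by rw [hC']; linarith
  have c2 : 1 ≤ C' := by rw [hC']; linarith
  have c3 : C ≤ C' := by rw [hC']; linarith
  have c4 : 1 + C ≤ C' := by rw [hC']; linarith
  have c5 : C₁ ≤ C' := by rw [hC']; linarith
  have c6 : 2 * |V₁| + 1 ≤ C' := by rw [hC']; linarith
  refine ⟨C', by linarith, fun w₀ U h => ?_⟩
  have hbx : ∀ i, SBx ζ₁ ζ₂ (U₀ + 1 + C) (Λ₀ + 5 + C) (U i) := by
    intro i
    obtain ⟨b1, -, -⟩ := si_wide hA.hζ h i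
    obtain ⟨⟨-, -, m3⟩, uM⟩ := h.box i
    exact ⟨b1.1, b1.2.1, by linarith, by linarith⟩
  have hv := vr_nonneg γ U
  -- every state of the new sequence is in the fan of one of the two pairs
  have hst : ∀ (ν θ' : ℝ) (i : ℤ), ∃ x : ℝ, 0 ≤ x ∧ x ≤ vr γ U (i - 1) + vr γ U i ∧
      SBx ζ₁ ζ₂ (U₀ + 1 + C) (Λ₀ + 5 + C) (stp γ ν U θ' i) ∧
      |(stp γ ν U θ' i).z - (U i).z| ≤ x ∧ |(stp γ ν U θ' i).u - (U i).u| ≤ C * x ∧
      |(stp γ ν U θ' i).l - (U i).l| ≤ (1 + C) * x := by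
    intro ν θ' i
    by_cases hθ' : θ' < 1 / 2
    · have e : stp γ ν U θ' i = fan γ (U (i - 1)) (U i) (θ' / ν) := if_pos hθ'
      obtain ⟨s1, -, s2, s3, s4⟩ := si_fan hA h (i - 1) (θ' / ν)
      rw [sub_add_cancel, ← e] at s1 s2 s3 s4
      have h1 := hv i
      exact ⟨vr γ U (i - 1), hv _, by linarith, s1, s2, s3, s4⟩
    · have e : stp γ ν U θ' i = fan γ (U i) (U (i + 1)) ((θ' - 1) / ν) := if_neg hθ'
      obtain ⟨s1, ⟨s2, s3, s4⟩, -⟩ := si_fan hA h i ((θ' - 1) / ν)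
      rw [← e] at s1 s2 s3 s4
      have h1 := hv (i - 1)
      exact ⟨vr γ U i, hv _, by linarith, s1, s2, s3, s4⟩
  refine ⟨fun ν θ' i k => ?_, fun ν θ' i => ?_, fun i k => ?_, fun i k => ?_, fun M => ?_⟩
  · obtain ⟨x, hx0, hx, s1, s2, s3, s4⟩ := hst ν θ' i
    calc |cq γ k (stp γ ν U θ' i) - cq γ k (U i)| ≤ C₁ * (|(stp γ ν U θ' i).z - (U i).z| +
          |(stp γ ν U θ' i).u - (U i).u| + |(stp γ ν U θ' i).l - (U i).l|) :=
          ((hlip k).1 _ _ s1 (hbx i)).1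
      _ ≤ C₁ * (x + C * x + (1 + C) * x) := by gcongr
      _ = C₁ * (2 + 2 * C) * x := by ring
      _ ≤ C' * (vr γ U (i - 1) + vr γ U i) := mul_le_mul c1 hx hx0 (by linarith)
  · obtain ⟨x, hx0, hx, s1, s2, s3, s4⟩ := hst ν θ' i
    refine ⟨s2.trans ?_, s3.trans (mul_le_mul c3 hx hx0 (by linarith)),
      s4.trans (mul_le_mul c4 hx hx0 (by linarith))⟩
    have := mul_le_mul c2 hx hx0 (by linarith)
    linarith
  · obtain ⟨s1, ⟨s2, s3, s4⟩, -⟩ := si_fan hA h i 0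
    calc |cf γ k (fan γ (U i) (U (i + 1)) 0) - cf γ k (U i)| ≤
          C₁ * (|(fan γ (U i) (U (i + 1)) 0).z - (U i).z| +
          |(fan γ (U i) (U (i + 1)) 0).u - (U i).u| + |(fan γ (U i) (U (i + 1)) 0).l - (U i).l|) :=
          ((hlip k).1 _ _ s1 (hbx i)).2
      _ ≤ C₁ * (vr γ U i + C * vr γ U i + (1 + C) * vr γ U i) := by gcongr
      _ = C₁ * (2 + 2 * C) * vr γ U i := by ring
      _ ≤ C' * vr γ U i := mul_le_mul_of_nonneg_right c1 (hv i)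
  · obtain ⟨s1, -, -⟩ := si_fan hA h i 0
    exact ⟨(((hlip k).2 _ (hbx i)).1).trans c5, (((hlip k).2 _ (hbx i)).2).trans c5,
      (((hlip k).2 _ s1).2).trans c5⟩
  · have hwin : ∀ w ∈ win U M, InB (ζ₁ / 4) (4 * ζ₂) (Λ₀ + 6) w := by
      intro w hw
      obtain ⟨i, rfl⟩ := mem_win hw
      exact (si_wide hA.hζ h i).1
    obtain ⟨-, l1, -, -, l2⟩ := hA.list (win U M) hwin (h.ff M) (h.vv M)
    have e1 := si_win (fun ws => Am (waves γ ws)) (fun L R => |ra γ L R| + |rb γ L R|)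
      (fun w => by simp [waves, Am]) (fun L R t => by simp [waves, Am, wv]) U M
    have e2 := si_win (tvl St.l) (fun L R => |R.l - L.l|) (fun w => by simp [tvl])
      (fun L R t => by simp [tvl]) U M
    have e3 : ∑ i ∈ Finset.Ico (-(M : ℤ)) M, vr γ U i = Am (waves γ (win U M)) +
        tvl St.l (win U M) := by
      rw [e2, e1, ← Finset.sum_add_distrib]
      rfl
    rw [e3]
    have h1 := mul_le_mul_of_nonneg_left (h.ff M) hC.le
    have h2 := hA.small.2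
    have h3 := h.vv M
    have h4 := le_abs_self V₁
    linarith


end Helper51.TH
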