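import Pool.Agent.Helper51.TH.DelSt

/-!
TH-P12. Sublists.

PROOF. First: deletion of the first or of the last state of a list does not increase `FF` and `VV`: `waves (M :: R :: ys)
= wv M R :: waves (R :: ys)`, `As 0 0 (w :: W) = wt 0 w.p + wt (Vc W) w.q + As w.s 0 W ≥ As 0 0 W` (`As_mono`,
nonnegative weights), `Qp (w :: W) ≥ Qp W`, `Vc (w :: W) ≥ Vc W`; at the end `As 0 0 (W ++ [w]) = As 0 w.s W + ... ≥ As 0 0 W`
(`As_append`, `As_mono`). All this needs `θ + μ Vc ≤ π/2`, which follows from `VV ≤ V₁`; the content does not increase.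
Then induction on `ws'.Sublist ws` for the statement with a context: for all `xs`,
`FF (xs ++ ws') ≤ FF (xs ++ ws)` and the same for `VV + FF`, provided the hypotheses hold for `xs ++ ws`.
`cons` (`ws' <+ t`, `ws = M :: t`): delete `M` from `xs ++ M :: t` (interior: `DelOK` after writing `xs = xs' ++ [L]`,
`t = R :: ys`; or first/last), the hypotheses pass to `xs ++ t`, induction. `cons₂`: the common head goes to the context.
-/

open Set Filter Topology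

namespace Helper51.TH

theorem FF_nonneg {γ θ μ K V₁ : ℝ} (hθ : 0 < θ) (hμ : 1 < μ) (hK : 0 < K)
    (hV : 2 * θ + μ * V₁ ≤ Real.pi / 2) {ws : List St}
    (h : VV γ ws ≤ V₁) : 0 ≤ FF γ θ μ K ws := by
  have hW := waves_nonneg γ ws
  have hVc : Vc (waves γ ws) ≤ V₁ := h
  have h1 : θ + μ * (0 + 0 + Vc (waves γ ws)) ≤ Real.pi / 2 := by
    have h2 : μ * Vc (waves γ ws) ≤ μ * V₁ := mul_le_mul_of_nonneg_left hVc (by linarith)
    rw [zero_add, zero_add]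
    linarith
  have h2 := (As_bounds hθ.le (by linarith) hW le_rfl le_rfl h1).2.2
  have h3 := Qp_nonneg (waves γ ws)
  unfold FF
  have h4 : 0 ≤ K * Qp (waves γ ws) := mul_nonneg hK.le h3
  linarith

theorem VV_nonneg (γ : ℝ) (ws : List St) : 0 ≤ VV γ ws := by
  exact Vc_nonneg (waves_nonneg γ ws)

private theorem wt_nonneg {θ μ x : ℝ} (hθ : 0 < θ) (hμ : 1 < μ) (hx : 0 ≤ x)
    (h : θ + μ * x ≤ Real.pi / 2) : 0 ≤ wt θ μ x := by
  unfold wt
  refine Real.sin_nonneg_of_nonneg_of_le_pi ?_ ?_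
  · have : 0 ≤ μ * x := mul_nonneg (by linarith) hx
    linarith
  · linarith [Real.pi_pos]

private theorem sum_nonneg_map (w : Wv) (W : List Wv) : 0 ≤ (W.map fun v => qq2 w v).sum := by
  apply List.sum_nonneg
  intro a ha
  obtain ⟨v, _, rfl⟩ := List.mem_map.mp ha
  exact qq2_nonneg _ _

private theorem cross_nonneg (X Y : List Wv) : 0 ≤ cross X Y := by
  unfold cross
  apply List.sum_nonneg
  intro a ha
  obtain ⟨v, _, rfl⟩ := List.mem_map.mp ha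
  exact sum_nonneg_map _ _

private theorem del_first {γ θ μ V₁ K : ℝ} (hθ : 0 < θ) (hμ : 1 < μ) (hK : 0 < K)
    (hV : 2 * θ + μ * V₁ ≤ Real.pi / 2) (M : St) (t : List St) (h0 : VV γ (M :: t) ≤ V₁) :
    FF γ θ μ K t ≤ FF γ θ μ K (M :: t) ∧ VV γ t ≤ VV γ (M :: t) := by
  cases t with
  | nil => exact ⟨le_rfl, le_rfl⟩
  | cons R ys =>
    obtain ⟨W, hW⟩ : ∃ W, W = waves γ (R :: ys) := ⟨_, rfl⟩
    obtain ⟨w, hw⟩ : ∃ w, w = wv γ M R := ⟨_, rfl⟩
    have e : waves γ (M :: R :: ys) = w :: W := by rw [hw, hW]; rfl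
    have hN : Nn (w :: W) := by rw [← e]; exact waves_nonneg γ _
    have hNW : Nn W := fun v hv => hN v (List.mem_cons_of_mem _ hv)
    obtain ⟨hp, hq, hs⟩ := hN w List.mem_cons_self
    have hVcW : 0 ≤ Vc W := Vc_nonneg hNW
    have hVc : Vc (w :: W) = w.s + Vc W := by
      unfold Vc
      rw [List.map_cons, List.sum_cons]
    unfold VV at h0 ⊢
    unfold FF
    rw [e] at h0 ⊢
    rw [← hW]
    have hμV : μ * Vc (w :: W) ≤ μ * V₁ := mul_le_mul_of_nonneg_left h0 (by linarith)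
    rw [hVc] at hμV ⊢
    have hpi : θ + μ * (w.s + 0 + Vc W) ≤ Real.pi / 2 := by
      rw [add_zero]
      linarith
    have h1 := (As_mono (θ := θ) (μ := μ) (L0 := 0) (R0 := 0) (L0' := w.s) (R0' := 0) hθ.le
      (by linarith) hNW le_rfl le_rfl hs le_rfl hpi).1
    have hws : 0 ≤ μ * w.s := mul_nonneg (by linarith) hs
    have hwV : 0 ≤ μ * Vc W := mul_nonneg (by linarith) hVcW
    rw [mul_add] at hμV
    have h2 : 0 ≤ wt θ μ 0 * w.p := mul_nonneg (wt_nonneg hθ hμ le_rfl (by linarith)) hp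
    have h3 : 0 ≤ wt θ μ (0 + Vc W) * w.q := by
      rw [zero_add]
      exact mul_nonneg (wt_nonneg hθ hμ hVcW (by linarith)) hq
    have h4 : As θ μ 0 0 (w :: W) = wt θ μ 0 * w.p + wt θ μ (0 + Vc W) * w.q +
        As θ μ (0 + w.s) 0 W := rfl
    have h5 : Qp (w :: W) = (W.map fun v => qq2 w v).sum + Qp W := rfl
    have h6 := sum_nonneg_map w W
    have h7 : K * Qp W ≤ K * Qp (w :: W) := by
      rw [h5]
      exact mul_le_mul_of_nonneg_left (by linarith) hK.le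
    rw [h4, zero_add w.s]
    constructor
    · linarith
    · linarith

private theorem del_last {γ θ μ V₁ K : ℝ} (hθ : 0 < θ) (hμ : 1 < μ) (hK : 0 < K)
    (hV : 2 * θ + μ * V₁ ≤ Real.pi / 2) (L M : St) (xs : List St)
    (h0 : VV γ (xs ++ [L, M]) ≤ V₁) :
    FF γ θ μ K (xs ++ [L]) ≤ FF γ θ μ K (xs ++ [L, M]) ∧
      VV γ (xs ++ [L]) ≤ VV γ (xs ++ [L, M]) := by
  obtain ⟨W, hW⟩ : ∃ W, W = waves γ (xs ++ [L]) := ⟨_, rfl⟩
  obtain ⟨w, hw⟩ : ∃ w, w = wv γ L M := ⟨_, rfl⟩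
  have e : waves γ (xs ++ [L, M]) = W ++ [w] := by
    rw [waves_append γ xs [M] L, hw, hW]
    rfl
  have hN : Nn (W ++ [w]) := by rw [← e]; exact waves_nonneg γ _
  have hNW : Nn W := fun v hv => hN v (List.mem_append_left _ hv)
  have hNw : Nn [w] := fun v hv => hN v (List.mem_append_right _ hv)
  have hVcW : 0 ≤ Vc W := Vc_nonneg hNW
  have hVcw : 0 ≤ Vc [w] := Vc_nonneg hNw
  unfold VV at h0 ⊢
  unfold FF
  rw [e] at h0 ⊢
  rw [← hW, Vc_append, As_append, Qp_append]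
  have hμV : μ * Vc (W ++ [w]) ≤ μ * V₁ := mul_le_mul_of_nonneg_left h0 (by linarith)
  rw [Vc_append] at hμV
  have h1 := (As_mono (θ := θ) (μ := μ) (L0 := 0) (R0 := 0) (L0' := 0) (R0' := 0 + Vc [w])
    (W := W) hθ.le (by linarith) hNW le_rfl le_rfl le_rfl (by linarith) (by
      have e1 : (0 : ℝ) + (0 + Vc [w]) + Vc W = Vc W + Vc [w] := by ring
      rw [e1]
      linarith)).1
  have h2 := (As_bounds (θ := θ) (μ := μ) (L0 := 0 + Vc W) (R0 := 0) (W := [w]) hθ.le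
    (by linarith) hNw (by linarith) le_rfl (by
      have e1 : (0 : ℝ) + Vc W + 0 + Vc [w] = Vc W + Vc [w] := by ring
      rw [e1]
      linarith)).2.2
  have h3 := Qp_nonneg [w]
  have h4 := cross_nonneg W [w]
  have h5 : K * Qp W ≤ K * (Qp W + Qp [w] + cross W [w]) :=
    mul_le_mul_of_nonneg_left (by linarith) hK.le
  constructor
  · linarith
  · linarith

private theorem del_one {γ z₁ z₂ Λ θ μ V₁ K δ : ℝ} (hθ : 0 < θ) (hμ : 1 < μ) (hK : 0 < K)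
    (hV : 2 * θ + μ * V₁ ≤ Real.pi / 2) (h : DelOK γ z₁ z₂ Λ θ μ V₁ K δ) (xs t : List St) (M : St)
    (hB : ∀ w ∈ xs ++ M :: t, InB z₁ z₂ Λ w) (hF : FF γ θ μ K (xs ++ M :: t) ≤ δ)
    (h0 : VV γ (xs ++ M :: t) ≤ V₁) (hG : VV γ (xs ++ M :: t) + FF γ θ μ K (xs ++ M :: t) ≤ V₁) :
    FF γ θ μ K (xs ++ t) ≤ FF γ θ μ K (xs ++ M :: t) ∧
    VV γ (xs ++ t) + FF γ θ μ K (xs ++ t) ≤ VV γ (xs ++ M :: t) + FF γ θ μ K (xs ++ M :: t) ∧
    VV γ (xs ++ t) ≤ V₁ := by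
  rcases List.eq_nil_or_concat xs with hxs | ⟨xs', L, hxs⟩
  · subst hxs
    rw [List.nil_append] at h0 ⊢
    rw [List.nil_append]
    obtain ⟨h1, h2⟩ := del_first hθ hμ hK hV M t h0
    exact ⟨h1, by linarith, by linarith⟩
  · rw [List.concat_eq_append] at hxs
    subst hxs
    cases t with
    | nil =>
      have e1 : xs' ++ [L] ++ [M] = xs' ++ [L, M] := by simp
      rw [List.append_nil]
      rw [e1] at h0 ⊢
      obtain ⟨h1, h2⟩ := del_last hθ hμ hK hV L M xs' h0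
      exact ⟨h1, by linarith, by linarith⟩
    | cons R ys =>
      have e1 : xs' ++ [L] ++ M :: R :: ys = xs' ++ L :: M :: R :: ys := by simp
      have e2 : xs' ++ [L] ++ R :: ys = xs' ++ L :: R :: ys := by simp
      rw [e1] at hB hF h0 hG ⊢
      rw [e2]
      exact h xs' ys L M R hB hF h0 hG

private theorem sub_ctx {γ z₁ z₂ Λ θ μ V₁ K δ : ℝ} (hθ : 0 < θ) (hμ : 1 < μ) (hK : 0 < K)
    (hV : 2 * θ + μ * V₁ ≤ Real.pi / 2) (h : DelOK γ z₁ z₂ Λ θ μ V₁ K δ) {ws ws' : List St}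
    (hs : ws'.Sublist ws) : ∀ xs : List St, (∀ w ∈ xs ++ ws, InB z₁ z₂ Λ w) →
    FF γ θ μ K (xs ++ ws) ≤ δ → VV γ (xs ++ ws) ≤ V₁ →
    VV γ (xs ++ ws) + FF γ θ μ K (xs ++ ws) ≤ V₁ →
    FF γ θ μ K (xs ++ ws') ≤ FF γ θ μ K (xs ++ ws) ∧
    VV γ (xs ++ ws') + FF γ θ μ K (xs ++ ws') ≤ VV γ (xs ++ ws) + FF γ θ μ K (xs ++ ws) ∧
    VV γ (xs ++ ws') ≤ V₁ := by
  induction hs with
  | slnil => intro xs _ _ h0 _; exact ⟨le_rfl, le_rfl, h0⟩
  | @cons l₁ l₂ M hsub ih =>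
    intro xs hB hF h0 hG
    obtain ⟨a1, a2, a3⟩ := del_one hθ hμ hK hV h xs l₂ M hB hF h0 hG
    obtain ⟨b1, b2, b3⟩ := ih xs (fun w hw => hB w (by
      rw [List.mem_append] at hw ⊢
      rcases hw with hw | hw
      · exact Or.inl hw
      · exact Or.inr (List.mem_cons_of_mem _ hw))) (a1.trans hF) a3 (a2.trans hG)
    exact ⟨b1.trans a1, b2.trans a2, b3⟩
  | @cons_cons l₁ l₂ a hsub ih =>
    intro xs hB hF h0 hG
    have e : ∀ l : List St, xs ++ a :: l = (xs ++ [a]) ++ l := fun l => by simp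
    rw [e l₂] at hB hF h0 hG ⊢
    rw [e l₁]
    exact ih (xs ++ [a]) hB hF h0 hG

/-- Passing to a sublist does not increase `FF` and `VV + FF`, and keeps `VV ≤ V₁`. -/
theorem sub_state {γ z₁ z₂ Λ θ μ V₁ K δ : ℝ} (hθ : 0 < θ) (hμ : 1 < μ) (hK : 0 < K)
    (hV : 2 * θ + μ * V₁ ≤ Real.pi / 2) (h : DelOK γ z₁ z₂ Λ θ μ V₁ K δ) {ws ws' : List St}
    (hs : ws'.Sublist ws) (hB : ∀ w ∈ ws, InB z₁ z₂ Λ w) (hF : FF γ θ μ K ws ≤ δ)
    (h0 : VV γ ws ≤ V₁) (hG : VV γ ws + FF γ θ μ K ws ≤ V₁) :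
    FF γ θ μ K ws' ≤ FF γ θ μ K ws ∧
    VV γ ws' + FF γ θ μ K ws' ≤ VV γ ws + FF γ θ μ K ws ∧ VV γ ws' ≤ V₁ := by
  exact sub_ctx hθ hμ hK hV h hs [] hB hF h0 hG

end Helper51.TH
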